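import Pool.Agent.P.MP_e7d440_ag.U.IfaceC
import Pool.Agent.P.MP_e7d440_ag.All

/-! Sections of the canonical module in local charts and their lifts to the Rees algebra. -/

namespace Pool.Agent.P.MP_e7d440_ag.U

open IsLocalRing MvPolynomial

namespace AbbA

theorem mono {Q L : Type} [CommRing Q] [Field L] {φ : Q →+* L} {𝔭 𝔮 : Ideal Q} (h : 𝔮 ≤ 𝔭)
    {γ : L} (h1 : loc φ 𝔭 γ) : loc φ 𝔮 γ := by
  obtain ⟨a, b, hb, e⟩ := h1
  exact ⟨a, b, fun hm => hb (h hm), e⟩

theorem gen {O A K σ : Type} [CommRing O] [CommRing A] [IsDomain A] [Field K] [Algebra O K]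
    [Algebra A K] [IsFractionRing A K] {y : σ → K}
    (h : ∀ a : A, ∃ F G : MvPolynomial σ O, aeval y G ≠ 0 ∧
      algebraMap A K a * aeval y G = aeval y F) : Gen O y := by
  intro γ
  obtain ⟨⟨a, b, hb⟩, e⟩ := IsLocalization.surj (nonZeroDivisors A) γ
  have hb' : algebraMap A K b ≠ 0 := IsFractionRing.to_map_ne_zero_of_mem_nonZeroDivisors hb
  obtain ⟨F, G, hG, e1⟩ := h a
  obtain ⟨F', G', hG', e2⟩ := h b
  refine ⟨F * G', F' * G, ?_, ?_⟩
  · rw [map_mul, ← e2]
    exact mul_ne_zero (mul_ne_zero hb' hG') hG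
  · change γ * algebraMap A K b = algebraMap A K a at e
    rw [map_mul, map_mul, ← e1, ← e2, ← e]
    ring

end AbbA

open AoneA in
theorem a1b (hh : S_hloc) (hg : S_gen) : S_a1b := by
  intro O Q A K σ κ _ _ _ _ _ _ _ _ _ _ _ _ _ _ _ _ _ _ j ψ z π Θ₀ hψ hφ hz hci hht hgen hjac hΘ
    hch s hs
  have hinj := IsFractionRing.injective A K
  have hJ : j.J = RingHom.ker ψ.toRingHom := Ideal.ext fun g => by
    rw [RingHom.mem_ker, RingHom.mem_ker]
    exact (congrArg (· = 0) (hφ g)).to_iff.trans (map_eq_zero_iff _ hinj)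
  have key : ∀ 𝔮 : Ideal A, 𝔮.IsPrime → 𝔮.height = 1 →
      ∀ y : σ → K, (∀ b, loc (algebraMap A K) 𝔮 (y b)) →
        (∀ a : A, ∃ F G : MvPolynomial σ O, aeval y G ≠ 0 ∧
          loc (algebraMap A K) 𝔮 (aeval y G)⁻¹ ∧ algebraMap A K a * aeval y G = aeval y F) →
        wr j.D y ≠ 0 ∧ loc (algebraMap A K) 𝔮 (j.φ s / j.jac z / wr j.D y) := by
    intro 𝔮 hq h1 y hy hy'
    have hl := loc_iff (φ := j.ρ) (ψ := ψ.toRingHom) hψ hφ 𝔮
    obtain ⟨μ, hμ, -, h2, -, -, -, h6⟩ := link' O Q K σ κ j z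
      (integral (φ := j.ρ) (ψ := ψ.toRingHom) hψ hφ) (frac (φ := j.ρ) (ψ := ψ.toRingHom) hψ hφ)
      hz hci hht hgen hjac (𝔮.comap ψ.toRingHom) inferInstance (hJ ▸ covers hψ hq h1)
    obtain ⟨h7, h8⟩ := h6 y (fun b => (hl _).2 (hy b)) fun i => by
      obtain ⟨F, G, h7, h8, h9⟩ := hy' (ψ (j.X i))
      exact ⟨F, G, h7, (hl _).2 h8, by rw [hφ, h9]⟩
    refine ⟨h7, ?_⟩
    have h9 := ((hl _).1 (h2 s hs)).mul hq ((hl _).1 h8)
    have h10 : j.φ s / j.jac z * μ * (wr j.D y * μ)⁻¹ = j.φ s / j.jac z / wr j.D y := by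
      field_simp
    rwa [h10] at h9
  constructor
  · obtain ⟨N, r, e⟩ := vals'.hart (1 : A) (j.φ s / j.jac z / Θ₀) fun 𝔮 hq h1 _ => by
      obtain ⟨y, h3, h4, t, h5, h6⟩ := hch 𝔮 hq (Or.inr h1)
      obtain ⟨h9, h10⟩ := key 𝔮 hq h1 y h3 h4
      have h11 := h10.mul hq h5
      have ht : t ≠ 0 := fun h => h9 (by rw [h6, h, zero_mul])
      have h12 : j.φ s / j.jac z / wr j.D y * t = j.φ s / j.jac z / Θ₀ := by
        rw [h6]
        field_simp
      rwa [h12] at h11
    refine ⟨r, ?_⟩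
    rw [← e, map_one, one_pow]
    field_simp
  · intro 𝔭 hp hπ
    obtain ⟨y, h3, h4, -⟩ := hch 𝔭 hp (Or.inl hπ)
    have hG : Gen O y := AbbA.gen (A := A) fun a => by
      obtain ⟨F, G, e1, -, e2⟩ := h4 a
      exact ⟨F, G, e1, e2⟩
    have hw : wr j.D y ≠ 0 := hg.wrne j.D (fun b => j.φ (j.X (Sum.inl b))) y hG (by
      rw [AtwoA.wr_X]
      exact one_ne_zero)
    refine ⟨y, h3, j.φ s / j.jac z / wr j.D y, hh.hart 𝔭 hp _ fun 𝔮 hq h1 hle => ?_,
      (div_mul_cancel₀ _ hw).symm⟩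
    refine (key 𝔮 hq h1 y (fun b => AbbA.mono hle (h3 b)) fun a => ?_).2
    obtain ⟨F, G, e1, e2, e3⟩ := h4 a
    exact ⟨F, G, e1, AbbA.mono hle e2, e3⟩

theorem a2b (hw : S_wloc) : S_a2b := by
  intro O Q L σ κ β _ _ _ _ _ _ _ _ _ _ _ j z π 𝔟 h hint hfrac hz hCI hht hgen hjac hπ hh h𝔟
    Θ γ r₁ hγ hΘ hch a ha
  have := IsRegularLocalRing.of_isRegularRing_of_isLocalRing (R := Q)
  have hτ : j.φ (j.X (Sum.inl (Sum.inr ()))) ≠ 0 := by
    intro h0
    have := j.DX (Sum.inr ()) (Sum.inr ())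
    rw [h0, map_zero, if_pos rfl] at this
    exact zero_ne_one this
  have hJ : j.J.IsPrime := RingHom.ker_isPrime _
  obtain ⟨w, hw', e⟩ := cm'.s2 j.ρ hCI hht (Ideal.span_le.2 (Set.range_subset_iff.2 hz)) hgen
    hfrac (j.φ a * Θ / j.φ (j.X (Sum.inl (Sum.inr ()))) * j.jac z) (by
      intro 𝔓 hP hle hP1
      obtain ⟨μ, -, m1, -, m3, m4, m5, -⟩ := link' O Q L (σ ⊕ Unit) κ j z hint hfrac hz hCI hht
        hgen hjac 𝔓 hP (AtwoA.covers hht hP1 hle)
      refine m1 _ ?_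
      by_cases hp : algebraMap O Q π ∈ 𝔓
      · have h1 := ((loc_map j.ρ hP a).mul hP (loc_map j.ρ hP r₁)).mul hP
          (m4 π hp (hπ 𝔓 hP hp) γ hγ)
        have h2 : j.φ a * Θ / j.φ (j.X (Sum.inl (Sum.inr ()))) * μ =
            j.φ a * j.φ r₁ * (lwr j.D γ * μ) := by
          rw [hΘ]
          field_simp
        rw [h2]
        exact h1
      · obtain ⟨y, hy, θ, hθ, hyθ⟩ := hch 𝔓 hP hle hp
        by_cases hb : 𝔟 ≤ 𝔓
        · have h1 := hw j.ρ j.D 𝔓 hP hle (j.φ a / j.φ (j.X (Sum.inl (Sum.inr ()))) * μ)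
            (fun b => b ≠ Sum.inr ()) (fun b => j.X (Sum.inl b)) (fun g hg => by
              have h2 : g (Sum.inr ()) = j.X (Sum.inl (Sum.inr ())) := hg _ fun h0 => h0 rfl
              have h3 := m5 g (Sum.inr ()) a (hb ha) (by rw [h2]; exact hτ)
              have h4 : wr j.D (fun b => j.ρ (g b)) *
                  (j.φ a / j.φ (j.X (Sum.inl (Sum.inr ()))) * μ) =
                  j.φ a * wr j.D (fun b => j.φ (g b)) / j.φ (g (Sum.inr ())) * μ := by
                rw [h2]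
                change wr j.D (fun b => j.φ (g b)) * _ = _
                ring
              rw [h4]
              exact h3)
            (Sum.elim y fun _ => j.φ (j.X (Sum.inl (Sum.inr ()))))
            (by
              rintro (b | b) hb'
              · exact hy b
              · exact absurd rfl hb')
            (by
              rintro (b | b) hb'
              · exact absurd (by simp) hb'
              · rfl)
          have h2 := hyθ (j.φ (j.X (Sum.inl (Sum.inr ()))))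
          rw [j.DX, if_pos rfl, mul_one] at h2
          have h3 : j.φ a * Θ / j.φ (j.X (Sum.inl (Sum.inr ()))) * μ =
              θ * (wr j.D (Sum.elim y fun _ => j.φ (j.X (Sum.inl (Sum.inr ())))) *
                (j.φ a / j.φ (j.X (Sum.inl (Sum.inr ()))) * μ)) := by
            rw [← h2]
            ring
          rw [h3]
          exact hθ.mul hP h1
        · obtain ⟨i, hi⟩ : ∃ i, h i ∉ 𝔓 := by
            by_contra hn
            push Not at hn
            exact hb (h𝔟 𝔓 hP hle hn)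
          have n2 : j.φ (h i) ≠ 0 := fun h0 => hi (hle h0)
          have h1 := hw j.ρ j.D 𝔓 hP hle μ (fun _ => True) (fun _ => 0) (fun g _ => m3 g)
            (Sum.elim y fun _ => j.φ (h i))
            (by
              rintro (b | b) -
              · exact hy b
              · exact loc_map j.ρ hP (h i))
            (fun _ hb' => absurd trivial hb')
          have h2 := hyθ (j.φ (h i))
          rw [eq_div_of_mul_eq hτ (hh i)] at h2
          have h3 : j.φ a * Θ / j.φ (j.X (Sum.inl (Sum.inr ()))) * μ =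
              j.φ a * (j.φ (h i))⁻¹ * (θ * (wr j.D (Sum.elim y fun _ => j.φ (h i)) * μ)) := by
            rw [mul_left_comm θ, ← mul_assoc (wr _ _), h2]
            field_simp
          rw [h3]
          exact ((loc_map j.ρ hP a).mul hP (loc_inv j.ρ hle hi)).mul hP (hθ.mul hP h1))
  refine ⟨w, hw', ?_⟩
  change j.φ w = _ at e
  rw [e]
  field_simp

end Pool.Agent.P.MP_e7d440_ag.U
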