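import Pool.Agent.P.MP_e7d440_ag.U.Iface3

/-! The logarithmic coordinates are rational functions. -/

namespace Pool.Agent.P.MP_e7d440_ag.U

open TensorProduct LieAlgebra LaurentPolynomial Set

variable {L Φ Δ : Type} [LieRing L] [LieAlgebra ℚ L] [Fintype Φ] [Fintype Δ] [DecidableEq Φ]
  [DecidableEq Δ] {c : CD L Φ Δ} {K : Type} [Field K] [CharZero K] {ζ : K}
  {J : Type} [Fintype J] [DecidableEq J] {s : J → K}

namespace BirA

lemma retr (h : T3a c ζ s) (S : Subfield K) (U : J → Submodule K (G L K)) (hζ : ζ ∈ S)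
    (hs : ∀ j, s j ∈ S) (hU : ∀ j, c.Def0 S (U j)) :
    ∃ (π : K →+ K) (P : LG L K →+ LG L K), (∀ a, π a ∈ S) ∧
      (∀ a ∈ S, π a = a) ∧ (∀ a f, c.co a (P f) = π (c.co a f)) ∧
      ∀ f ∈ c.NN ζ s U, P f ∈ c.NN ζ s U := by
  obtain ⟨π, p1, p2, p3⟩ := h.resd.retr S
  obtain ⟨P, hP⟩ : ∃ P : LG L K →+ LG L K, ∀ a f, c.co a (P f) = π (c.co a f) :=
    ⟨((c.BB K).repr.symm.toLinearMap.toAddMonoidHom.comp (Finsupp.mapRange.addMonoidHom π)).comp
      (c.BB K).repr.toLinearMap.toAddMonoidHom, fun a f => by simp [c.co_repr]⟩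
  have q1 : ∀ a ∈ S, ∀ v : G L K, mqa π (a • v) = a • mqa π v := fun a ha v =>
    c.ext0 fun i => by simp [c.crd_mqa, p3 a ha]
  have q2 : ∀ (a : K) (w : G L K), c.In0 S w → mqa π (a • w) = π a • w := fun a w hw =>
    c.ext0 fun i => by simp [c.crd_mqa, mul_comm a, p3 _ (hw i), mul_comm (π a)]
  have q3 : ∀ t ∈ S, ∀ f, ev t (P f) = mqa π (ev t f) := fun t ht f => by
    obtain ⟨T, -, e⟩ := h.lp.sum_mon f
    rw [e]
    simp only [map_sum]
    refine Finset.sum_congr rfl fun m _ => ?_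
    rw [show P (mon m (cf m f)) = mon m (mqa π (cf m f)) from c.ext1 fun a => by
      rw [hP, c.co_mon, c.co_mon, c.crd_mqa]; split_ifs <;> simp, h.lp.ev_mon, h.lp.ev_mon,
      q1 _ (zpow_mem ht m)]
  have q4 : ∀ v w : G L K, c.In0 S w → c.kR K (mqa π v) w = π (c.kR K v w) := fun v w hw => by
    rw [← (c.bs K).sum_repr v]
    simp only [map_sum, LinearMap.sum_apply]
    refine Finset.sum_congr rfl fun i _ => ?_
    rw [q2 _ _ (h.gk.in_bs S.toSubring i), map_smul, map_smul, LinearMap.smul_apply,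
      LinearMap.smul_apply, smul_eq_mul, smul_eq_mul, mul_comm, mul_comm _ (c.kR K _ w), p3]
    exact h.gk.in_kR S.toSubring _ _ _ (fun q => by simp) (SM.self _) (h.gk.in_bs _ i) hw
  refine ⟨π, P, p1, fun a ha => by rw [← mul_one a, p3 a ha, p2], hP, fun f hf =>
    ⟨fun m => ?_, fun j => ⟨?_, fun x hx => ?_⟩⟩⟩
  · rw [show cf m (P f) = mqa π (cf m f) from c.ext0 fun i => by
      rw [c.co_cf, hP, c.crd_mqa, c.co_cf], ← h.gk.mqa_sg, hf.1 m, q1 _ (zpow_mem hζ _)]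
  · rw [q3 _ (hs j)]
    have : ∀ u ∈ Submodule.span K {u | u ∈ U j ∧ c.In0 S u}, ∀ a : K, mqa π (a • u) ∈ U j :=
      fun u hu => by
        induction hu using Submodule.span_induction with
        | mem w hw => exact fun a => q2 a w hw.2 ▸ Submodule.smul_mem _ _ hw.1
        | zero => simp
        | add x y _ _ hx hy => exact fun a => by rw [smul_add, map_add]; exact add_mem (hx a) (hy a)
        | smul b x _ hx => exact fun a => by rw [smul_smul]; exact hx _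
    simpa using this _ (hU j (hf.2 j).1) 1
  · rw [show dd (P f) = P (dd f) from c.ext1 fun a => by
      rw [h.lp.co_dd, hP, hP, h.lp.co_dd, p3 _ (intCast_mem S _)], q3 _ (hs j)]
    have hx' := hU j hx
    clear hx
    induction hx' using Submodule.span_induction with
    | mem w hw => rw [q4 _ _ hw.2, (hf.2 j).2 w hw.1, map_zero]
    | zero => simp
    | add x y _ _ hx hy => rw [map_add, hx, hy, add_zero]
    | smul b x _ hx => rw [map_smul, hx, smul_zero]

lemma nilF (h : T3a c ζ s) (b : Φ × ℤ) (t : K) (j : J) : Nil (t • ev (s j) (c.F ζ b)) ∧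
    evE (s j) (ex (t • c.F ζ b)) = ex (t • ev (s j) (c.F ζ b)) := by
  have := h.lp.evE_ex _ (h.pt.ne j) _ (h.rt1.nil (c.ng b) t)
  rwa [map_smul] at this

end BirA

theorem fwd (h : T3a c ζ s) : S_fwd c ζ s where
  base lam hm := ⟨h.tor.aut lam hm _, h.tor.rng lam hm, fun r f _ => by
    have := h.tor.top lam hm (c.ρ - c.bar lam) r f
    rwa [sub_add_cancel] at this⟩
  step U z H b x t hU hz hst hb hneg ht := by
    have hθ := (h.rt1.th_ne b.1).1
    obtain ⟨t', ht'⟩ : ∃ t', t' = -((c.th b.1 : K) * t)⁻¹ := ⟨_, rfl⟩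
    have t0 : t' ≠ 0 := by simp [ht', hθ, ht]
    have e := h.psi.exF b t'
    rw [show -((c.th b.1 : K) * t')⁻¹ = t by rw [ht']; field_simp] at e
    have hA := (h.wall.on_rf _ x b hb).1
    have hE : ∀ t : K, c.Aut0 ζ 1 (ex (t • c.E ζ b)) c.ρ := fun t =>
      h.la.aut_exE _ t _ c.fix_ρ hb.pos
    have a1 := h.la.aut_left _ _ _ _ (hE (-t')) hst.aut
    obtain ⟨q, a2⟩ := h.aut2.right _ _ _ _ b hA a1
    have a3 := h.la.aut_right _ _ _ _ a1 (hE q)
    have a4 := h.wall.psi_conj b b t' 1 _ _ _ hb.valid (.inl rfl) t0 one_ne_zero c.fix_ρ a3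
    have a5 := h.wall.psi_conj b b t' 1 _ _ _ hb.valid (.inl rfl) t0 one_ne_zero hA.reg₁.1 a2
    rw [h.orb.rf_rf] at a5
    have e2 : ex (-t' • c.E ζ b) * (c.psi ζ b t' * (ex (-t' • c.E ζ b) * H * ex (q • c.E ζ b)) *
        c.psi ζ b 1) = ex (t • c.F ζ b) * (H * ex (q • c.E ζ b) * c.psi ζ b 1) := by
      rw [e]; simp only [mul_assoc]
    have a6 := h.la.aut_left _ _ _ _ (hE (-t')) a5
    have a7 := h.aut2.coef _ _ _ _ b (-t') hA a5 a4
    simp only [← Module.End.mul_apply (ex (-t' • c.E ζ b))] at a7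
    rw [e2] at a6 a7
    refine ⟨_, ⟨a6, h.leg.left U _ _ hU (h.la.exE (c.ng b) t) (h.leg.right U _ _ (h.psi.la b 1)
      (h.leg.right U _ _ (h.la.exE b q) hst.rng)), fun r f hf => ?_⟩, fun w hw => ?_⟩
    · have b1 := ((h.psi.la b 1).eqv f).2 hf
      have b2 := ((h.la.exE b q).eqv _).2 b1
      have b3 := (h.psi.mono b 1 hb.valid one_ne_zero).sup _ (h.orb.rf_fix b z hz) (Iic r) f hf
      rw [h.orb.rf_rf] at b3
      simp only [Module.End.mul_apply]
      rw [CD.F, (h.la.low_iff _ _ (h.la.low_exE (c.ng b) t _ c.fix_ρ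
        (by rw [c.val_ng]; exact neg_neg_of_pos hb.pos)) _ _ (hst.aut.eqv _ b2)).1,
        hst.top r _ b2, (h.la.low_iff _ _ (h.la.low_exE b q z hz hneg) _ _ b1).1, b3]
    · rw [a7 w hw, ht']
      field_simp

open BirA in
theorem chr (h : T3a c ζ s) : S_chr c ζ s where
  retr := retr h
  chr S U z H b x hζ hs hU hst hb hpos w hw := by
    obtain ⟨π, P, p1, p2, p3, p4⟩ := retr h S U hζ hs hU
    have hw' := h.eqv.c0 w hw.2
    have a1 : H (c0 _ w) ∈ c.NN ζ s U := (hst.rng _).2 ⟨_, hw', rfl⟩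
    obtain ⟨g, hg, e⟩ := (hst.rng _).1 (sub_mem a1 (p4 _ a1))
    have hP : ∀ z Q f, f ∈ c.Sup z Q → P f ∈ c.Sup z Q := fun z Q f hf a ha =>
      hf a fun e => ha (by rw [p3, e, map_zero])
    have a2 := (hst.top 0 _ hw').2 (c.Sup_mono (by simp) (h.sup.c0 z w hw.1))
    have a3 := hst.aut.hh w hw
    have a4 : P ((c.phi s).coeff 0 • c0 (LP K) w) = (c.phi s).coeff 0 • c0 (LP K) w :=
      c.ext1 fun a => by
        rw [p3, p2]
        rw [map_smul, h.lp.co_const]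
        refine mul_mem ((h.div.phi_int S.toSubring hs).1 0) ?_
        split_ifs <;> simp
    have a5 : H g ∈ c.Sup c.ρ (Ioi 0) := by
      have := sub_mem a3 (hP _ _ _ a3)
      rwa [map_sub, a4, sub_sub_sub_cancel_right, ← e] at this
    have a6 := (hst.top 0 g hg).1 (e ▸ sub_mem a2 (hP _ _ _ a2))
    have a7 := h.wall.pos_dec _ x b hb g hg ((h.la.aut_gt _ _ _ hst.aut 0 g hg).1 a5)
    have a8 : c.co (CD.ix b) g = 0 := by_contra fun e => absurd (a6 _ e) (not_le.2 hpos)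
    rw [CD.cE, a8, zero_div, zero_smul, sub_zero] at a7
    have a9 := ((h.aut1.cl _ _ _ x hb.reg (h.wall.cl_on _ _ _ hb) hst.aut 0 g hg).2).2 a7
    have b1 : c.co (CD.ix b) (H g) = 0 := by_contra fun e => hb.zero.not_gt (a9 _ e)
    rw [e, map_sub, sub_eq_zero, p3] at b1
    exact div_mem (b1 ▸ p1 _) (natCast_mem S _)

open BirA in
theorem bir (h : T3a c ζ s) : S_bir c ζ s := by
  intro lam n b t z hm
  induction n generalizing z with
  | zero =>
    rintro rfl -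
    refine ⟨fun k => k.elim0, ⟨c.tor ζ s lam, ?_⟩, fun _ _ _ _ k => k.elim0⟩
    convert (fwd h).base lam hm with j
    simp [CD.pU, pf_zero, Module.End.one_eq_id]
  | succ n ih =>
    rintro ⟨z', h1, h2, ⟨x, hx⟩, h3, rfl⟩ ht
    obtain ⟨i1, ⟨H, i2⟩, i3⟩ := ih (Fin.tail b) (Fin.tail t) z' h1 fun k => ht k.succ
    have e : c.pU s (fun k => c.F ζ (b k)) t lam = actE s (ex (t 0 • c.F ζ (b 0)))
        (c.pU s (fun k => c.F ζ (Fin.tail b k)) (Fin.tail t) lam) := funext fun j => by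
      rw [actE, (nilF h _ _ j).2, CD.pU, pf_succ, Module.End.mul_eq_comp, Submodule.map_comp]
      rfl
    obtain ⟨H', a1, a2⟩ := (fwd h).step (c.pU s (fun k => c.F ζ (Fin.tail b k)) (Fin.tail t) lam)
      z' H (b 0) x (t 0) (h.leg.fd_pU (fun k => c.ng (Fin.tail b k)) (Fin.tail t) lam hm).1 h2 i2 hx h3 (ht 0)
    rw [← e] at a1
    refine ⟨fun k => Fin.cases ⟨x, hx⟩ i1 k, ⟨H', a1⟩, fun S hζ hs hU => ?_⟩
    have b1 := (chr h).chr S _ _ H' (b 0) x hζ hs hU a1 hx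
      (by rw [h.orb.rf_val]; exact neg_pos.2 h3) _ (h.orb.tau_fix (b 0).1)
    have b2 := a2 _ (h.orb.tau_fix (b 0).1)
    have b3 : t 0 ∈ S := by
      have e0 : c.cE (b 0) (H' (c0 _ (c.tau (b 0).1))) * (c.th (b 0).1 : K) ≠ 0 := fun e0 => by
        rw [e0, zero_mul, eq_comm, neg_eq_zero] at b2
        exact mul_ne_zero h.div.phi_ne (h.rt1.th_ne (b 0).1).2.2.2 b2
      rw [eq_div_of_mul_eq e0 ((mul_comm _ _).trans b2)]
      exact div_mem (neg_mem (mul_mem ((h.div.phi_int S.toSubring hs).1 0) (by simp)))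
        (mul_mem b1 (by simp))
    refine fun k => Fin.cases b3 (i3 S hζ hs fun j => ?_) k
    have hn := (nilF h (b 0) (t 0) j).1
    have b4 := h.fd.def_map S _ _ (h.ex.nil_neg _ hn) (fun i => by
      rw [map_neg, map_smul]
      exact neg_mem (mul_mem b3 (h.sup.in_ev S.toSubring _ _ _ (SM.self _) (hs j)
        (S.inv_mem (hs j)) (h.rt1.int _ ⟨hζ, S.inv_mem (natCast_mem S _)⟩ _) i))) (hU j)
    rwa [e, actE, (nilF h _ _ j).2, ← Submodule.map_comp, ← Module.End.mul_eq_comp,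
      (h.ex.inv _ hn).2, Module.End.one_eq_id, Submodule.map_id] at b4

end Pool.Agent.P.MP_e7d440_ag.U
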