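import Pool.Agent.P.MP_e7d440_ag.U.Iface4

/-! The Chevalley basis and the bridge from the data of the statement to Chevalley data. -/

namespace Pool.Agent.P.MP_e7d440_ag.U

open TensorProduct LieAlgebra LaurentPolynomial Set
open LieAlgebra.IsKilling

variable {L : Type} [LieRing L] [LieAlgebra ℚ L] [FiniteDimensional ℚ L] [IsKilling ℚ L]
  {H : LieSubalgebra ℚ L} [H.IsCartanSubalgebra] [LieModule.IsTriangularizable ℚ H L]

namespace BrgA

variable {e : H.root → L}

lemma root_ext {α β : H.root} (h : ∀ x : H, α.1 x = β.1 x) : α = β :=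
  Subtype.ext (LieModule.Weight.ext h)

lemma ngt_apply (α : H.root) (x : H) : (ngt α).1 x = -α.1 x := rfl

lemma cor_ne (α : H.root) : ((coroot α.1 : H) : L) ≠ 0 := fun h =>
  H.isNonZero_coe_root α (coroot_eq_zero_iff.1 (Subtype.ext h))

lemma e_ne (hl : ∀ α, ⁅e α, e (ngt α)⁆ = (coroot α.1 : H)) (α : H.root) : e α ≠ 0 := fun h =>
  cor_ne α (by rw [← hl, h, zero_lie])

lemma kap_ne (he : ∀ α, e α ∈ rootSpace H α.1) (hl : ∀ α, ⁅e α, e (ngt α)⁆ = (coroot α.1 : H))
    (α : H.root) : killingForm ℚ L (e α) (e (ngt α)) ≠ 0 := fun h => cor_ne α (by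
  rw [← hl, lie_eq_killingForm_smul_of_mem_rootSpace_of_mem_rootSpace_neg (he α) (he (ngt α)), h,
    zero_smul])

lemma kap_cor (he : ∀ α, e α ∈ rootSpace H α.1) (hl : ∀ α, ⁅e α, e (ngt α)⁆ = (coroot α.1 : H))
    (α : H.root) (h : H) :
    killingForm ℚ L (coroot α.1 : H) h = killingForm ℚ L (e α) (e (ngt α)) * α.1 h := by
  have h1 : ⁅(h : L), e (ngt α)⁆ = (ngt α).1 h • e (ngt α) :=
    lie_eq_smul_of_mem_rootSpace (he (ngt α)) h
  rw [← hl, LieModule.traceForm_apply_lie_apply, ← lie_skew, h1, ngt_apply, neg_smul, neg_neg,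
    map_smul, smul_eq_mul, mul_comm]

lemma orth_ee (he : ∀ α, e α ∈ rootSpace H α.1) {α β : H.root} (h : β ≠ α) :
    killingForm ℚ L (e (ngt α)) (e β) = 0 :=
  killingForm_apply_eq_zero_of_mem_rootSpace_of_add_ne_zero ℚ L H (he (ngt α)) (he β) fun hc =>
    h (root_ext fun x => by
      have := congrFun hc x
      simp only [Pi.add_apply, ngt_apply, Pi.zero_apply] at this
      linarith)

lemma orth_he (he : ∀ α, e α ∈ rootSpace H α.1) {x : L} (hx : x ∈ H) (β : H.root) :
    killingForm ℚ L x (e β) = 0 :=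
  killingForm_apply_eq_zero_of_mem_rootSpace_of_add_ne_zero ℚ L H (α := 0)
    (by rw [rootSpace_zero_eq]; exact hx) (he β) (by
      rw [zero_add]; exact H.isNonZero_coe_root β)

open scoped Classical in
/-- The fundamental coweights. -/
noncomputable def cwB (b : (rootSystem H).Base) : Module.Basis b.support ℚ H :=
  b.toWeightBasis.dualBasis.map (Module.evalEquiv ℚ H).symm

lemma cwB_repr (b : (rootSystem H).Base) (h : H) (i : b.support) :
    (cwB b).repr h i = i.1.1 h := by
  simp [cwB]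

lemma span_top (b : (rootSystem H).Base) (he : ∀ α, e α ∈ rootSpace H α.1)
    (hl : ∀ α, ⁅e α, e (ngt α)⁆ = (coroot α.1 : H)) :
    ⊤ ≤ Submodule.span ℚ (range (Sum.elim e fun i => (cwB b i : L))) := by
  intro x _
  have hx : x ∈ ⨆ χ : LieModule.Weight ℚ H L, LieModule.genWeightSpace L χ := by
    simp [LieModule.iSup_genWeightSpace_eq_top']
  induction hx using LieSubmodule.iSup_induction' with
  | mem χ y hy =>
    by_cases hχ : χ.IsZero
    · have h1 : y ∈ rootSpace H (0 : H → ℚ) := by rw [← hχ.eq]; exact hy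
      rw [rootSpace_zero_eq] at h1
      have h2 := congrArg (fun z : H => (z : L)) ((cwB b).sum_repr ⟨y, h1⟩)
      simp only [AddSubmonoidClass.coe_finsetSum, SetLike.val_smul] at h2
      rw [← h2]
      exact Submodule.sum_mem _ fun i _ => Submodule.smul_mem _ _
        (Submodule.subset_span ⟨.inr i, rfl⟩)
    · let α : H.root := ⟨χ, by simpa using hχ⟩
      obtain ⟨c, hc⟩ := (finrank_eq_one_iff_of_nonzero' (⟨e α, he α⟩ : rootSpace H χ)
        fun h => e_ne hl α (congrArg Subtype.val h)).1 (finrank_rootSpace_eq_one χ hχ) ⟨y, hy⟩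
      have h2 : c • e α = y := congrArg Subtype.val hc
      rw [← h2]
      exact Submodule.smul_mem _ _ (Submodule.subset_span ⟨.inl α, rfl⟩)
  | zero => exact zero_mem _
  | add y z _ _ hy hz => exact add_mem (hy trivial) (hz trivial)

lemma coord_ne (b : (rootSystem H).Base) (he : ∀ α, e α ∈ rootSpace H α.1)
    (hl : ∀ α, ⁅e α, e (ngt α)⁆ = (coroot α.1 : H)) :
    Pairwise fun i j => coord b e i (Sum.elim e (fun i => (cwB b i : L)) j) = 0 := by
  rintro (α | i) (β | j) h
  · have h1 : β ≠ α := fun hc => h (by rw [hc])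
    simp only [coord, Sum.elim_inl, LinearMap.smul_apply, orth_ee he h1, smul_zero]
  · simp only [coord, Sum.elim_inr, LinearMap.smul_apply]
    rw [LieModule.traceForm_comm ℚ L L (e _) (cwB b j : L), orth_he he (cwB b j).2, smul_zero]
  · simp [coord, orth_he he (coroot i.1.1).2]
  · have h1 : i ≠ j := fun hc => h (by rw [hc])
    simp only [coord, Sum.elim_inr, LinearMap.smul_apply, kap_cor he hl, ← cwB_repr,
      Module.Basis.repr_self, Finsupp.single_eq_of_ne h1, mul_zero, smul_zero]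

lemma coord_eq (b : (rootSystem H).Base) (he : ∀ α, e α ∈ rootSpace H α.1)
    (hl : ∀ α, ⁅e α, e (ngt α)⁆ = (coroot α.1 : H)) (i : H.root ⊕ b.support) :
    coord b e i (Sum.elim e (fun i => (cwB b i : L)) i) = 1 := by
  rcases i with α | i
  · simp only [coord, Sum.elim_inl, LinearMap.smul_apply, smul_eq_mul]
    rw [LieModule.traceForm_comm ℚ L L (e (ngt α))]
    exact inv_mul_cancel₀ (kap_ne he hl α)
  · simp only [coord, Sum.elim_inr, LinearMap.smul_apply, kap_cor he hl, ← cwB_repr,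
      Module.Basis.repr_self, Finsupp.single_eq_same, mul_one, smul_eq_mul]
    exact inv_mul_cancel₀ (kap_ne he hl _)

end BrgA

open BrgA in
theorem bas : S_bas (H := H) := by
  intro b e he hl
  let B := Module.Basis.mk (LinearIndependent.of_pairwise_dual_eq_zero_one _ (coord b e)
    (coord_ne b he hl) (coord_eq b he hl)) (span_top b he hl)
  have hB : ∀ i, B i = Sum.elim e (fun i => (cwB b i : L)) i := fun i => Module.Basis.mk_apply _ _ i
  have hr : ∀ i x, B.repr x i = coord b e i x := fun i x => by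
    refine LinearMap.congr_fun (f := B.coord i) (B.ext fun j => ?_) x
    rw [Module.Basis.coord_apply, Module.Basis.repr_self, hB]
    by_cases h : i = j
    · rw [h, Finsupp.single_eq_same, coord_eq b he hl]
    · rw [Finsupp.single_eq_of_ne h, coord_ne b he hl h]
  refine ⟨B, hr, fun α => hB _, fun i => by rw [hB]; exact (cwB b i).2, fun x => ⟨fun hx α => ?_,
    fun hx => ?_⟩, kap_ne he hl, kap_cor he hl⟩
  · simp only [coord, LinearMap.smul_apply]
    rw [LieModule.traceForm_comm ℚ L L (e _) x, orth_he he hx, smul_zero]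
  · rw [← B.sum_repr x]
    refine H.toSubmodule.sum_mem fun i _ => ?_
    rcases i with α | i
    · rw [hr, hx, zero_smul]
      exact zero_mem _
    · rw [hB]
      exact H.toSubmodule.smul_mem _ (cwB b i).2

namespace BrgA

variable {O J : Type} [CommRing O] (D : Datum H O J)

/-- The roots as linear forms on the whole Lie algebra. -/
noncomputable def al (α : H.root) : L →ₗ[ℚ] ℚ :=
  (killingForm ℚ L (D.e α) (D.e (ngt α)))⁻¹ • killingForm ℚ L (coroot α.1 : H)

lemma al_H (α : H.root) (h : H) : al D α h = α.1 h := by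
  rw [al, LinearMap.smul_apply, kap_cor D.e_mem D.e_lie, smul_eq_mul,
    inv_mul_cancel_left₀ (kap_ne D.e_mem D.e_lie α)]

lemma al_e (α β : H.root) : al D α (D.e β) = 0 := by
  rw [al, LinearMap.smul_apply, orth_he D.e_mem (coroot α.1).2, smul_zero]

lemma lie_e {x : L} (hx : x ∈ H) (α : H.root) : ⁅x, D.e α⁆ = al D α x • D.e α := by
  rw [show al D α x = α.1 ⟨x, hx⟩ from al_H D α ⟨x, hx⟩]
  exact lie_eq_smul_of_mem_rootSpace (D.e_mem α) ⟨x, hx⟩

lemma al_σ {x : L} (hx : x ∈ H) (α : H.root) : al D (D.ς α) (D.σ x) = al D α x := by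
  have h1 := congrArg D.σ (lie_e D hx α)
  have h2 := lie_e D (D.σ_h x hx) (D.ς α)
  rw [LieEquiv.map_lie, map_smul] at h1
  refine smul_left_injective ℚ (e_ne D.e_lie (D.ς α)) ?_
  rcases D.σ_e α with h | h
  · rw [h, h2] at h1
    exact h1
  · rw [h, lie_neg, smul_neg, h2] at h1
    exact neg_injective h1

lemma iter_mem {x : L} (hx : x ∈ H) (k : ℕ) : D.σ^[k] x ∈ H := by
  induction k with
  | zero => exact hx
  | succ k ih => rw [Function.iterate_succ_apply']; exact D.σ_h _ ih

lemma exists_ρ (hℓ : 0 < D.ℓ) {x : L} (hx : x ∈ H) (h : ∀ α, al D α x = D.b.height α) :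
    ∃ ρ ∈ H, D.σ ρ = ρ ∧ (∀ α, al D α ρ ≠ 0) ∧ (∀ α, al D α ρ < 1) ∧
      ∀ α, 0 < al D α ρ ↔ D.b.IsPos α := by
  have h1 : ∀ k α, ∃ β, (D.b.IsPos β ↔ D.b.IsPos α) ∧ al D α (D.σ^[k] x) = D.b.height β := by
    intro k
    induction k with
    | zero => exact fun α => ⟨α, Iff.rfl, h α⟩
    | succ k ih =>
      intro α
      obtain ⟨α, rfl⟩ := D.ς.surjective α
      obtain ⟨β, h2, h3⟩ := ih α
      exact ⟨β, h2.trans (D.ς_pos α).symm, by
        rw [Function.iterate_succ_apply', al_σ D (iter_mem D hx k), h3]⟩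
  set y := ∑ k ∈ Finset.range D.ℓ, D.σ^[k] x with hy
  have hne : (Finset.range D.ℓ).Nonempty := Finset.nonempty_range_iff.2 hℓ.ne'
  have hp : ∀ α, D.b.IsPos α → 0 < al D α y := fun α hα => by
    rw [hy, map_sum]
    refine Finset.sum_pos (fun k _ => ?_) hne
    obtain ⟨β, h2, h3⟩ := h1 k α
    rw [h3]
    exact_mod_cast h2.2 hα
  have hn : ∀ α, ¬ D.b.IsPos α → al D α y < 0 := fun α hα => by
    rw [hy, map_sum]
    refine Finset.sum_neg (fun k _ => ?_) hne
    obtain ⟨β, h2, h3⟩ := h1 k α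
    rw [h3]
    exact_mod_cast not_le.1 fun hc => hα (h2.1 (D.b.isPos_iff'.2 hc))
  have hs : D.σ y = y := by
    have h2 := Finset.sum_range_succ (fun k => D.σ^[k] x) D.ℓ
    rw [Finset.sum_range_succ', D.σ_pow, Function.iterate_zero_apply] at h2
    rw [hy, map_sum, ← add_right_cancel h2]
    simp only [Function.iterate_succ_apply']
  set M : ℚ := 1 + ∑ α, |al D α y| with hM
  have hM1 : ∀ α, al D α y < M := fun α => by
    have := Finset.single_le_sum (f := fun α => |al D α y|) (fun _ _ => abs_nonneg _)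
      (Finset.mem_univ α)
    linarith [le_abs_self (al D α y)]
  have hM0 : 0 < M := by positivity
  refine ⟨M⁻¹ • y, H.toSubmodule.smul_mem _ (H.toSubmodule.sum_mem fun k _ => iter_mem D hx k),
    by rw [map_smul, hs], fun α => ?_, fun α => ?_, fun α => ?_⟩
  · rw [map_smul, smul_eq_mul]
    refine mul_ne_zero (inv_ne_zero hM0.ne') ?_
    by_cases hα : D.b.IsPos α
    · exact (hp α hα).ne'
    · exact (hn α hα).ne
  · rw [map_smul, smul_eq_mul, inv_mul_lt_iff₀ hM0, mul_one]
    exact hM1 α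
  · rw [map_smul, smul_eq_mul, mul_pos_iff_of_pos_left (inv_pos.2 hM0)]
    exact ⟨fun h2 => by_contra fun hα => (hn α hα).not_gt h2, hp α⟩

end BrgA

open BrgA in
theorem brg : S_brg (H := H) := by
  classical
  intro O J _ _ D
  obtain ⟨B, hr, hBe, hBh, hH, -, -⟩ := bas D.b D.e D.e_mem D.e_lie
  have hH' : ∀ x, x ∈ H ↔ ∀ β, B.repr x (.inl β) = 0 := fun x => by simp only [hr, hH]
  have hsim : ∀ (i : D.b.support) x, al D i.1 x = B.repr x (.inr i) := fun i x => (hr (.inr i) x).symm
  have hext : ∀ φ ψ : L →ₗ[ℚ] ℚ, (∀ β, φ (D.e β) = ψ (D.e β)) → (∀ h : H, φ h = ψ h) → φ = ψ :=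
    fun φ ψ h1 h2 => B.ext fun i => by
      rcases i with β | i
      · rw [hBe, h1]
      · exact h2 ⟨_, hBh i⟩
  have hcw : ∀ (α : H.root) (f : H.root → ℤ),
      (rootSystem H).root α = ∑ j ∈ D.b.support, f j • (rootSystem H).root j →
      ∀ i : D.b.support, al D α (B (.inr i)) = f i := by
    intro α f hf i
    have h1 := LinearMap.congr_fun hf ⟨_, hBh i⟩
    rw [LinearMap.sum_apply, ← Finset.sum_coe_sort, Finset.sum_eq_single i] at h1
    · have h2 := hsim i (B (.inr i))
      rw [Module.Basis.repr_self, Finsupp.single_eq_same] at h2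
      have h3 : (rootSystem H).root i.1 ⟨_, hBh i⟩ = 1 := (al_H D i.1 ⟨_, hBh i⟩).symm.trans h2
      rw [LinearMap.smul_apply, h3, zsmul_one] at h1
      exact (al_H D α ⟨_, hBh i⟩).trans h1
    · intro j _ hj
      have h2 := hsim j (B (.inr i))
      rw [Module.Basis.repr_self, Finsupp.single_eq_of_ne (by simpa using hj)] at h2
      have h3 : (rootSystem H).root j.1 ⟨_, hBh i⟩ = 0 := (al_H D j.1 ⟨_, hBh i⟩).symm.trans h2
      rw [LinearMap.smul_apply, h3, smul_zero]
    · simp
  have hℓ : 0 < D.ℓ := Nat.pos_of_ne_zero fun h => by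
    have := D.ℓ_unit
    rw [h, Nat.cast_zero] at this
    exact not_isUnit_zero this
  obtain ⟨ρ, r1, r2, r3, r4, r5⟩ := exists_ρ D hℓ (x := ∑ i, B (.inr i))
    (H.toSubmodule.sum_mem fun i _ => hBh i) fun α => by
      obtain ⟨f, -, -, hf⟩ := D.b.exists_root_eq_sum_int α
      rw [map_sum, RootPairing.Base.height_eq_sum hf, ← Finset.sum_coe_sort D.b.support f]
      simp only [hcw α f hf, Int.cast_sum]
  have hroot : ∀ (α β γ : H.root) (q : ℚ),
      (rootSystem H).root γ = (rootSystem H).root β - q • (rootSystem H).root α →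
      al D γ = al D β - q • al D α := fun α β γ q h =>
    hext _ _ (fun δ => by simp [al_e]) fun x => by
      simp only [LinearMap.sub_apply, LinearMap.smul_apply, al_H]
      exact LinearMap.congr_fun h x
  refine ⟨
    { bas := B
      al := al D
      sim := fun i => i.1
      neg := ngt
      κ := killingForm ℚ L
      ρ := ρ
      σ := D.σ
      ς := D.ς
      ℓ := D.ℓ
      al_e := fun α β => by rw [hBe, al_e]
      al_sim := hsim
      al_int := fun α i => ?_
      al_inj := fun α β h => root_ext fun x => by rw [← al_H D, ← al_H D, h]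
      al_neg := fun α => hext _ _ (fun β => by simp [al_e]) fun x => by
        rw [LinearMap.neg_apply, al_H, al_H, ngt_apply]
      lie_cw_e := fun i α => by rw [hBe]; exact lie_e D (hBh i) α
      lie_cw_cw := fun i j =>
        congrArg Subtype.val (trivial_lie_zero H H ⟨_, hBh i⟩ ⟨_, hBh j⟩)
      cor_two := fun α => by
        rw [hBe, hBe, D.e_lie, al_H, root_apply_coroot (H.isNonZero_coe_root α)]
      int := fun α k i j => ?_
      refl := fun α β => ?_
      str := fun α β h hne => ?_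
      κ_symm := LieModule.traceForm_comm ℚ L L
      κ_lie := LieModule.traceForm_apply_lie_apply ℚ L L
      κ_pos := fun h h1 h2 => ?_
      κ_σ := killingForm_of_equiv_apply D.σ
      σ_e := fun α => by rw [hBe, hBe]; exact D.σ_e α
      σ_h := fun i => (hH' _).1 (D.σ_h _ (hBh i))
      σ_pow := D.σ_pow
      ℓ_pos := hℓ
      ρ_h := (hH' _).1 r1
      ρ_σ := r2
      ρ_ne := r3
      ρ_lt := r4 },
    hr, hBe, rfl, rfl, rfl, rfl, al_H D, fun h => (hH' _).1 h.2, r5⟩
  · obtain ⟨f, -, -, hf⟩ := D.b.exists_root_eq_sum_int α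
    exact ⟨f i, hcw α f hf i⟩
  · rw [hr, hBe]
    refine D.e_int α k _ (fun l => ?_) j
    rw [← hr, Module.Basis.repr_self, Finsupp.single_apply]
    exact ⟨if i = l then 1 else 0, by split_ifs <;> simp⟩
  · refine ⟨(rootSystem H).reflectionPerm α β, hroot _ _ _ _ ?_⟩
    rw [RootPairing.root_reflectionPerm, RootPairing.reflection_apply_root, hBe, hBe, D.e_lie, al_H,
      rootSystem_pairing_apply]
  · rw [hBe, hBe, D.e_lie, al_H, ← rootSystem_pairing_apply,
      ← RootPairing.algebraMap_pairingIn _ ℤ] at h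
    obtain ⟨γ, hγ⟩ := (rootSystem H).root_sub_root_mem_of_pairingIn_pos (i := β) (j := α)
      (by simpa using h) hne
    exact ⟨γ, by simpa using hroot α β γ 1 (by rw [hγ, one_smul])⟩
  · have hx := (hH' h).2 h1
    have h3 := LinearMap.congr_fun₂ (restrict_killingForm_eq_sum (K := ℚ) (H := H)) ⟨h, hx⟩ ⟨h, hx⟩
    have h4 : killingForm ℚ L h h = ∑ α ∈ H.root, α ⟨h, hx⟩ * α ⟨h, hx⟩ := by
      simp only [LinearMap.sum_apply] at h3
      exact h3
    rw [h4]
    refine Finset.sum_pos' (fun α _ => mul_self_nonneg _) ?_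
    by_contra hc
    push Not at hc
    refine h2 (B.repr.injective (Finsupp.ext fun i => ?_))
    rcases i with β | i
    · simp [h1]
    · have h5 := mul_self_eq_zero.1 (le_antisymm (hc i.1.1 i.1.2) (mul_self_nonneg _))
      rw [← hsim, map_zero, Finsupp.zero_apply, ← h5]
      exact al_H D i.1 ⟨h, hx⟩

end Pool.Agent.P.MP_e7d440_ag.U
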