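import Pool.Agent.P.MP_e7d440_ag.U.Iface3

/-! Reduction of the lattices and the Bruhat decomposition. -/

namespace Pool.Agent.P.MP_e7d440_ag.U

open TensorProduct LieAlgebra LaurentPolynomial Set

variable {L Φ Δ : Type} [LieRing L] [LieAlgebra ℚ L] [Fintype Φ] [Fintype Δ] [DecidableEq Φ]
  [DecidableEq Δ] {c : CD L Φ Δ} {K : Type} [Field K] [CharZero K] {ζ : K}
  {J : Type} [Fintype J] [DecidableEq J] {s : J → K}

namespace BruA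

lemma of (h : T3a c ζ s) (V : ValuationSubring K) (U : J → Submodule K (G L K)) (H u n : Op L K)
    (x x' : L) (h1 : c.Rng ζ s U H) (h2 : c.IntB ζ V H)
    (h3 : ∀ r, ∀ f ∈ c.Eqv ζ, H f ∈ c.Sup x (Ici r) ↔ f ∈ c.Sup x (Ici r)) (h4 : c.LA ζ n)
    (h5 : c.IntB ζ V n)
    (h6 : ∀ r, ∀ f ∈ c.Eqv ζ, n f ∈ c.Sup x' (Ici r) ↔ f ∈ c.Sup x (Ici r))
    (h7 : ∀ f ∈ c.Eqv ζ, c.In V f →
      c.In V.nonunits (H f - (T (c.dg J : ℤ) : LP K) • u (n f))) : c.Red ζ s V U u x x' := by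
  have hs : ∀ r : ℚ, {q : ℚ | q + ((c.dg J : ℤ) : ℚ) ∈ Ici (r + c.dg J)} = Ici r := fun r => by
    ext q; simp
  refine fun r => ⟨fun f a1 a2 a3 => ?_, fun f₀ a1 a2 a3 => ?_⟩
  · obtain ⟨g, hg, rfl⟩ := (h1 f).1 a1
    refine ⟨(T (c.dg J : ℤ) : LP K) • n g, (h.eqv.T_iff _ _ h.div.dg_dvd).2 ((h4.eqv g).2 hg), ?_,
      (h.sup.in_T _ _ _).2 ((h5 g hg).2 ((h2 g hg).1 a3)), ?_⟩
    · rw [h.sup.sup_T, hs, h6 r g hg, ← h3 r g hg]
      exact a2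
    · rw [map_smul]
      exact h7 g hg ((h2 g hg).1 a3)
  · obtain ⟨n', -, e, -⟩ := h.la.ex_inv n h4
    obtain ⟨g, e'⟩ : ∃ g, (T (c.dg J : ℤ) : LP K) • n g = f₀ :=
      ⟨n' ((T (-(c.dg J : ℤ)) : LP K) • f₀), by
        rw [← Module.End.mul_apply, e, Module.End.one_apply, smul_smul, ← T_add]; simp⟩
    subst e'
    have hg : g ∈ c.Eqv ζ := (h4.eqv g).1 ((h.eqv.T_iff _ _ h.div.dg_dvd).1 a1)
    have hi : c.In V g := (h5 g hg).1 ((h.sup.in_T _ _ _).1 a3)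
    rw [h.sup.sup_T, hs, h6 r g hg, ← h3 r g hg] at a2
    exact ⟨H g, (h1 _).2 ⟨g, hg, rfl⟩, a2, (h2 g hg).2 hi, by rw [map_smul]; exact h7 g hg hi⟩

lemma hi (h : T3a c ζ s) (V : ValuationSubring K) (U : J → Submodule K (G L K)) (u : Op L K)
    (z : L) (hz : c.Fix z) (h1 : c.Red ζ s V U u c.ρ z) (h2 : c.Low ζ z u) (h3 : c.IntE ζ V u) :
    c.Hi ζ s V U z := by
  intro r f a1 a2 a3 a4
  obtain ⟨f₀, b1, b2, -, b4⟩ := (h1 r).1 f a1 a2 a3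
  have hM := h.sup.in_add _ _ (SM.nonunits V)
  have h4 := h.la.intE_m V u h3
  have hne : {a | c.co a f₀ ∉ V.nonunits}.Nonempty := by
    by_contra h0
    refine a4 ?_
    have := (hM.2.1 _ _ b4 (h4 f₀ b1 fun a => by_contra fun e => h0 ⟨a, e⟩)).1
    rwa [sub_add_cancel] at this
  have hz0 : ∀ a, c.co a f₀ ∉ V.nonunits → c.co a f₀ ≠ 0 := fun a ha e =>
    ha (e ▸ V.nonunits.zero_mem)
  obtain ⟨a, ha, hmax⟩ := Set.exists_max_image _ (c.wt z)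
    ((h.sup.fin f₀).subset fun a ha => hz0 a ha) hne
  refine ⟨a, fun hf => ha ?_, b2 a (hz0 a ha)⟩
  set f₁ := c.pr (fun a' => c.wt z a' ∈ Iic (c.wt z a)) f₀ with hf₁
  have e1 : f₁ ∈ c.Eqv ζ := h.eqv.pr_wt z _ hz f₀ b1
  have e2 : c.In V.nonunits (f₀ - f₁) := fun a' => by
    rw [map_sub, hf₁, c.co_pr]
    split_ifs with e
    · simpa using V.nonunits.zero_mem
    · rw [sub_zero]
      exact by_contra fun e' => e (hmax a' e')
  have e3 : c.co a (u f₁ - f₁) = 0 := by_contra fun e =>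
    lt_irrefl (c.wt z a) (h2 _ f₁ e1 (h.sup.pr_wt z _ f₀).1 a e)
  have e4 := h4 _ (sub_mem b1 e1) e2 a
  have e5 : c.co a f₁ = c.co a f₀ := by rw [hf₁, c.co_pr, if_pos (mem_Iic.2 le_rfl)]
  have e6 : c.co a f₀ = c.co a f - c.co a (f - u f₀) - c.co a (u (f₀ - f₁)) := by
    simp only [map_sub] at e3 ⊢
    rw [← e5]
    linear_combination -e3
  rw [e6]
  exact V.nonunits.sub_mem (V.nonunits.sub_mem hf (b4 a)) e4

end BruA

open BruA in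
theorem red (h : T3a c ζ s) : S_red c ζ s := by
  refine ⟨of h, hi h, fun V lam n a y x hV hl hy ha hx => ?_⟩
  have hs : ∀ j, s j ∈ V.toSubring := fun j => V.nonunits_subset (hV.small j)
  have h1 := h.tor.aut lam hl c.ρ
  have h2 := h.la.int_pf V.toSubring V a y 0 hV.sd (SM.val V) hy
  refine of h V _ (c.pE ζ a y * c.tor ζ s lam) _ (c.tr ζ lam) _ _ (h.leg.fd_pU a y lam hl).2.2
    ((h.la.int_mul _ _ _ h1.eqv).1 h2 (h.tor.int _ _ lam hV.sd (SM.val V) hs))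
    (fun r f hf => (h.aut1.cl _ _ _ _ h.wall.reg_ρ hx
      (h.la.aut_left _ _ _ _ (h.la.aut_pf a y 0 _ c.fix_ρ ha) h1) r f hf).1)
    (h.tor.tr_la lam hl) (h.tor.tr_int _ _ lam hl hV.sd (SM.val V))
    (fun r f hf => (h.tor.tr_mono lam hl).sup x hx.1 _ f hf) fun f hf hi => ?_
  rw [Module.End.mul_apply, ← map_smul, ← map_sub]
  exact h.la.intE_m V _ (fun f hf hi => (h2 f hf).2 hi) _
    (sub_mem (h1.eqv f hf) ((h.eqv.T_iff _ _ h.div.dg_dvd).2 (((h.tor.tr_la lam hl).eqv f).2 hf)))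
    (h.tor.cong _ _ lam hV.sd (SM.nonunits V) V.nonunits_subset hV.small f hi)

open BruA in
theorem bru (h : T3a c ζ s) (h1 : S_base c ζ s) (h2 : S_step c ζ s) : S_bru c ζ s := by
  intro V lam r X hV hCo
  have key : ∀ (n : ℕ) z (a : Fin n → Φ × ℤ) H u m i v, c.Fix z → c.Gal ζ c.ρ n z a →
      c.St ζ s V (c.cell lam X) z H u m i v →
      ∃ H u m i v, c.St ζ s V (c.cell lam X) c.ρ H u m i v := by
    intro n
    induction n with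
    | zero =>
      intro z a H u m i v hz hg hS
      exact ⟨H, u, m, i, v, { hS with
        aut := h.aut1.same _ _ _ _ hz c.fix_ρ hg hS.aut
        iaut := h.aut1.same _ _ _ _ hz c.fix_ρ hg hS.iaut }⟩
    | succ n ih =>
      rintro z a H u m i v - ⟨z₁, a1, -, a3⟩ hS
      obtain ⟨H', u', m', i', v', hS'⟩ := h2 V _ z z₁ _ H u m i v hV.sd a1 hS
      exact ih z₁ _ H' u' m' i' v' a1.reg₁.1 a3 hS'
  obtain ⟨z₀, H₀, m₀, v₀, hz₀, hS₀⟩ := h1 V lam r X hV hCo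
  obtain ⟨n₀, a₀, hg₀⟩ := h.gal.ex _ _ hz₀ h.wall.reg_ρ
  obtain ⟨H, u, m, i, v, hS⟩ := key n₀ z₀ a₀ _ _ _ _ _ hz₀.1 hg₀ hS₀
  have hz := h.mono.reg m v _ hS.nla hS.mono h.wall.reg_ρ
  obtain ⟨n, a, hg⟩ := h.gal.ex _ _ h.wall.reg_ρ hz
  obtain ⟨y, u', e, b1, b2, b3⟩ := h.nf.nf _ n _ a u hz c.fix_ρ hg hS.ula hS.uaut
  obtain ⟨hy, b4⟩ := b3 V hV.sd hS.uint
  have hR : ∀ x, c.Cl ζ c.ρ x → c.Red ζ s V (c.cell lam X) (c.pE ζ a y) x (v x) := fun x hx => by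
    have hmi := h.la.mul _ _ hS.nla hS.ila
    refine of h V _ H _ (u' * (m * i)) _ _ hS.rng hS.int
      (fun r f hf => (h.aut1.cl _ _ _ _ h.wall.reg_ρ hx hS.aut r f hf).1) (h.la.mul _ _ b1 hmi)
      ((h.la.int_mul _ _ _ fun f hf => (hmi.eqv f).2 hf).1 b4
        ((h.la.int_mul _ _ _ fun f hf => (hS.ila.eqv f).2 hf).1 hS.nint hS.iint))
      (fun r f hf => ?_) fun f hf hi => ?_
    · rw [Module.End.mul_apply, (h.aut1.cl _ _ _ _ hz (h.mono.cl m v _ _ hS.nla hS.mono c.fix_ρ hx)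
        b2 r _ ((hmi.eqv f).2 hf)).1, Module.End.mul_apply,
        hS.mono.sup x hx.1 _ _ ((hS.ila.eqv f).2 hf)]
      exact (h.aut1.cl _ _ _ _ h.wall.reg_ρ hx hS.iaut r f hf).1
    · have := hS.cong f hf hi
      rwa [e] at this
  exact ⟨v c.ρ, n, a, y, hz, hg, hy, hi h V _ _ _ hz.1 (hR _ (h.wall.cl_self _ c.fix_ρ))
    (h.la.low_pf a y 0 _ hz.1 fun k => (h.gal.mem _ _ _ _ hz hg k).2.2)
    (fun f hf hi => (h.la.int_pf V.toSubring V a y 0 hV.sd (SM.val V) hy f hf).2 hi),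
    fun x hx => ⟨v x, hS.mono.fix x hx.1, hR x hx⟩⟩

end Pool.Agent.P.MP_e7d440_ag.U
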