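import Pool.Agent.P.MP_e7d440_ag.U.Iface3

/-! Charts of the Grassmannian containing a window. -/

namespace Pool.Agent.P.MP_e7d440_ag.U

open TensorProduct LieAlgebra LaurentPolynomial Set

variable {L Φ Δ : Type} [LieRing L] [LieAlgebra ℚ L] [Fintype Φ] [Fintype Δ] [DecidableEq Φ]
  [DecidableEq Δ] (c : CD L Φ Δ) {K : Type} [Field K] [CharZero K] (ζ : K)
  {J : Type} [Fintype J] [DecidableEq J] (s : J → K)

namespace ChsA

variable {c ζ s} {U : J → Submodule K (G L K)} {x : L} {r : ℚ} {C : Finset (ℤ × (Φ ⊕ Δ))}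

omit [Fintype Φ] [Fintype Δ] [DecidableEq Φ] [DecidableEq Δ] [DecidableEq J] in
lemma uniq (hC : c.IsCh ζ s U x r C) {f g : LG L K} (hf : f ∈ c.Win ζ s U x r)
    (hg : g ∈ c.Win ζ s U x r) (e : ∀ a ∈ C, c.co a f = c.co a g) : f = g :=
  (hC fun a => c.co a g).unique ⟨hf, e⟩ ⟨hg, fun _ _ => rfl⟩

lemma ite_inst {p : Prop} (i j : Decidable p) (a b : K) : @ite K p i a b = @ite K p j a b := by
  cases Subsingleton.elim i j
  rfl

omit [Fintype Φ] [Fintype Δ] [DecidableEq J] in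
lemma basis (hC : c.IsCh ζ s U x r C) :
    ∃ fb : ℤ × (Φ ⊕ Δ) → LG L K, (∀ b ∈ C, fb b ∈ c.Win ζ s U x r ∧
      (∀ a ∈ C, c.co a (fb b) = if a = b then 1 else 0) ∧
        ∀ a, c.co a (fb b) ∈ c.Gens ζ s U x r C) ∧
      (∀ f ∈ c.Win ζ s U x r, f = ∑ b ∈ C, c.co b f • fb b) ∧
      ∀ t ∈ c.Gens ζ s U x r C, ∃ b ∈ C, ∃ a, t = c.co a (fb b) := by
  choose fb h1 h2 using fun b : ℤ × (Φ ⊕ Δ) => (hC fun a => if a = b then 1 else 0).exists
  refine ⟨fb, fun b hb => ⟨h1 b, h2 b, fun a => ⟨fb b, h1 b, b, hb,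
    fun a' ha' => (h2 b a' ha').trans (ite_inst _ _ _ _), a, rfl⟩⟩, fun f hf => ?_, ?_⟩
  · refine uniq hC hf (Submodule.sum_mem _ fun b _ => Submodule.smul_mem _ _ (h1 b)) fun a ha => ?_
    rw [map_sum, Finset.sum_congr rfl fun b _ => by rw [map_smul, h2 b a ha]]
    simp [ha]
  · rintro t ⟨f, hf, b, hb, e, a, rfl⟩
    refine ⟨b, hb, a, ?_⟩
    rw [uniq hC hf (h1 b) fun a' ha' => (e a' ha').trans
      ((ite_inst _ _ _ _).trans (h2 b a' ha').symm)]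

lemma fin (h : T3a c ζ s) (hC : c.IsCh ζ s U x r C) : (c.Gens ζ s U x r C).Finite := by
  obtain ⟨fb, -, -, h3⟩ := basis hC
  refine ((C.finite_toSet.biUnion fun b _ =>
    (h.sup.fin (fb b)).image fun a => c.co a (fb b)).insert 0).subset fun t ht => ?_
  obtain ⟨b, hb, a, rfl⟩ := h3 t ht
  by_cases e : c.co a (fb b) = 0
  · exact Or.inl e
  · exact Or.inr (mem_biUnion hb ⟨a, e, rfl⟩)

lemma frac (h : T3a c ζ s) (S : Subfield K) (hx : c.Fix x) (hC : c.IsCh ζ s U x r C)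
    (hs : ∀ j, s j ∈ S) (hG : c.Gens ζ s U x r C ⊆ S) (j : J) : c.Def0 S (U j) := by
  obtain ⟨fb, h1, h2, -⟩ := basis hC
  intro u hu
  obtain ⟨f, he, hsup, hev, -⟩ := h.int.int2 x r (Pi.single j u) 0 hx
  have hf : f ∈ c.Win ζ s U x r := by
    refine ⟨⟨he, fun i => ⟨?_, fun y _ => ?_⟩⟩, hsup⟩
    · rw [(hev i).1]
      by_cases e : i = j
      · subst e
        rwa [Pi.single_eq_same]
      · rw [Pi.single_eq_of_ne e]
        exact zero_mem _
    · rw [(hev i).2]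
      simp
  have e : u = ∑ b ∈ C, c.co b f • ev (s j) (fb b) := by
    have := (hev j).1
    rw [Pi.single_eq_same, h2 f hf, map_sum] at this
    rw [← this]
    exact Finset.sum_congr rfl fun b _ => map_smul _ _ _
  rw [e]
  refine Submodule.sum_mem _ fun b hb => Submodule.smul_mem _ _ (Submodule.subset_span ⟨?_, ?_⟩)
  · exact ((h1 b hb).1.1.2 j).1
  · exact h.sup.in_ev S.toSubring S (s j) _ (SM.self S.toSubring) (hs j) (S.inv_mem (hs j))
      fun a => hG ((h1 b hb).2.2 a)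

lemma chs0 (h : T3a c ζ s) (S : Subring K) (V : ValuationSubring K) (hD : Dom S V)
    (hC : c.IsCh ζ s U x r C) (hG : c.Gens ζ s U x r C ⊆ V)
    (hap : ∀ f ∈ c.Win ζ s U x r, c.In V f → ∃ g ∈ Submodule.span V.toSubring
      {w | w ∈ c.Win ζ s U x r ∧ c.In S w}, c.In V.nonunits (f - g)) :
    c.Gens ζ s U x r C ⊆ S := by
  obtain ⟨fb, h1, -, h3⟩ := basis hC
  have key := h.resd.resd (ι := C) (κ := {w | w ∈ c.Win ζ s U x r ∧ c.In S w}) V S
    (fun k a => c.co a.1 k.1) hD (fun k a => k.2.2 a.1) (fun b => by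
      obtain ⟨g, hg, hm⟩ := hap _ (h1 b.1 b.2).1 fun a => hG ((h1 b.1 b.2).2.2 a)
      obtain ⟨l, rfl⟩ := (Finsupp.mem_span_iff_linearCombination _ _ _).1 hg
      refine ⟨l.support, fun k => (l k : K), fun k => (l k).2, fun a => ?_⟩
      have := V.nonunits.neg_mem (hm a.1)
      rw [map_sub, neg_sub, (h1 b.1 b.2).2.1 a.1 a.2, Finsupp.linearCombination_apply,
        Finsupp.sum, map_sum] at this
      have e1 : (if a = b then (1 : K) else 0) = if a.1 = b.1 then 1 else 0 := by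
        simp only [Subtype.ext_iff]
      rw [e1, Finset.sum_congr rfl fun k _ => (show (l k : K) * c.co a.1 k.1 =
        c.co a.1 (l k • k.1) from (map_smul (c.co a.1) (l k : K) k.1).symm)]
      exact this)
  intro t ht
  obtain ⟨b, hb, a, rfl⟩ := h3 t ht
  obtain ⟨T, q, hq, e⟩ := key ⟨b, hb⟩
  have e2 : fb b = ∑ k ∈ T, q k • k.1 := by
    refine uniq hC (h1 b hb).1 (Submodule.sum_mem _ fun k _ => Submodule.smul_mem _ _ k.2.1)
      fun a' ha' => ?_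
    have := e ⟨a', ha'⟩
    simp only [Subtype.ext_iff] at this
    rw [(h1 b hb).2.1 a' ha', map_sum, ← this]
    exact Finset.sum_congr rfl fun k _ => (map_smul (c.co a') (q k) k.1).symm
  rw [e2]
  exact (h.sup.in_add S S (SM.self S)).2.2.2.2 T _
    (fun k _ => (h.sup.in_add S S (SM.self S)).2.2.1 _ _ (hq k) k.2.2) a

lemma chs1 (h : T3a c ζ s) (S : Subring K) (V : ValuationSubring K) {u : Op L K} {x' : L}
    (hD : Dom S V) (hm : ∀ γ ∈ V.nonunits, γ ∈ S) (hS : c.SD ζ S) (hs : ∀ j, s j ∈ S)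
    (hx : c.Fix x) (hx' : c.Fix x') (hR : c.Red ζ s V U u x x') (hu : c.IntE ζ S u)
    (f : LG L K) (hf : f ∈ c.Win ζ s U x r) (hfV : c.In V f) :
    ∃ g ∈ Submodule.span V.toSubring {w | w ∈ c.Win ζ s U x r ∧ c.In S w},
      c.In V.nonunits (f - g) := by
  have cast : r + ((2 * c.dg J : ℕ) : ℚ) = r + 2 * c.dg J := by push_cast; rfl
  obtain ⟨-, aS, -, -, -⟩ := h.sup.in_add S S (SM.self S)
  obtain ⟨-, aM, sM, -, tM⟩ := h.sup.in_add V.toSubring V.nonunits (SM.nonunits V)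
  have hfI : f ∈ c.Sup x (Ici r) := c.Sup_mono Ico_subset_Ici_self hf.2
  obtain ⟨f₀, h0e, h0s, h0V, h0m⟩ := (hR r).1 f hf.1 hfI hfV
  obtain ⟨t, ht, e0⟩ := h.eqv.span f₀ h0e
  have hw : ∀ a ∈ t, ∃ g q : LG L K, g ∈ c.Sup x (Ici r) ∧ q ∈ c.Sup x (Ici r) ∧
      g - c.phi s ^ 2 • q ∈ c.Win ζ s U x r ∧ c.In S (g - c.phi s ^ 2 • q) ∧
      c.In V.nonunits (g - u (mon a.1 (c.cc ζ (c.bs K a.2) a.1))) := by
    intro a ha
    have wS : c.In S (mon a.1 (c.cc ζ (c.bs K a.2) a.1)) :=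
      (h.sup.in_mon S _ _ S.zero_mem).2 (h.eqv.cc_in S hS _ _ (h.gk.in_bs S _))
    obtain ⟨g, hgN, hgs, -, hgm⟩ := (hR r).2 _ (h.eqv.cc a.1 _)
      (c.Sup_mono (singleton_subset_iff.2 (h0s a (ht a ha))) (h.eqv.cc_sup x' hx' a))
      fun a' => hD.le _ (wS a')
    have gS : c.In S g := by
      have := (aS _ _ (fun a' => hm _ (hgm a')) (hu _ (h.eqv.cc a.1 _) wS)).1
      rwa [sub_add_cancel] at this
    obtain ⟨q, hq, hq1, hq2, hq3⟩ := h.div.div _ _ x r g h.div.mon_sq hgs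
    rw [cast] at hq1
    have pS := (h.div.phi_int S hs).2
    exact ⟨g, q, hgs, hq, ⟨sub_mem hgN (h.div.nn_sq U q (hq2 hx hgN.1)), hq1⟩,
      (aS _ _ gS ((h.sup.in_smul S S _ _ (SM.self S)).1 pS (hq3 S S (SM.self S) pS gS))).2, hgm⟩
  choose! g q hg hq hW hI hM using hw
  have cV : ∀ a, c.co a f₀ / (c.ℓ : K) ∈ V.toSubring := fun a => by
    rw [div_eq_mul_inv]
    exact V.toSubring.mul_mem (h0V a) (hD.le _ hS.2)
  refine ⟨∑ a ∈ t, (c.co a f₀ / (c.ℓ : K)) • (g a - c.phi s ^ 2 • q a),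
    Submodule.sum_mem _ fun a ha => Submodule.smul_mem _ (⟨_, cV a⟩ : V.toSubring)
      (Submodule.subset_span ⟨hW a ha, hI a ha⟩), ?_⟩
  have eM : c.In V.nonunits (f - ∑ a ∈ t, (c.co a f₀ / (c.ℓ : K)) • g a) := by
    have := (aM _ _ h0m (tM t _ fun a ha => sM _ _ (cV a) (hM a ha))).2
    have e1 : u f₀ = ∑ a ∈ t, (c.co a f₀ / (c.ℓ : K)) • u (mon a.1 (c.cc ζ (c.bs K a.2) a.1)) := by
      conv_lhs => rw [e0]
      rw [map_sum]
      exact Finset.sum_congr rfl fun a _ => h.lp.op_smul u _ _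
    rw [e1] at this
    simp only [smul_sub, Finset.sum_sub_distrib] at this
    rwa [sub_sub_sub_cancel_right] at this
  have eI : f - ∑ a ∈ t, (c.co a f₀ / (c.ℓ : K)) • g a ∈ c.Sup x (Ici r) :=
    sub_mem hfI (Submodule.sum_mem _ fun a ha => Submodule.smul_mem _ _ (hg a ha))
  obtain ⟨p, hp, hp1, -, hp3⟩ := h.div.div _ _ x r _ h.div.mon_sq eI
  have pV := (h.div.phi_int V.toSubring fun j => hD.le _ (hs j)).2
  have pM := hp3 V.toSubring V.nonunits (SM.nonunits V) pV eM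
  have hdiff : (f - ∑ a ∈ t, (c.co a f₀ / (c.ℓ : K)) • (g a - c.phi s ^ 2 • q a)) -
      (f - ∑ a ∈ t, (c.co a f₀ / (c.ℓ : K)) • g a - c.phi s ^ 2 • p) =
      c.phi s ^ 2 • (∑ a ∈ t, (c.co a f₀ / (c.ℓ : K)) • q a + p) := by
    simp only [smul_sub, Finset.sum_sub_distrib, smul_add, Finset.smul_sum,
      smul_comm (c.phi s ^ 2)]
    abel
  have hz : ∑ a ∈ t, (c.co a f₀ / (c.ℓ : K)) • q a + p = 0 := by
    refine h.div.uniq _ _ x r _ h.div.mon_sq
      (add_mem (Submodule.sum_mem _ fun a ha => Submodule.smul_mem _ _ (hq a ha)) hp) ?_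
    rw [← hdiff]
    refine c.Sup_mono Ico_subset_Iio_self (sub_mem ?_ hp1)
    rw [cast]
    exact sub_mem hf.2 (Submodule.sum_mem _ fun a ha => Submodule.smul_mem _ _ (hW a ha).2)
  rw [hz, smul_zero, sub_eq_zero] at hdiff
  rw [hdiff]
  exact (aM _ _ eM ((h.sup.in_smul _ _ _ _ (SM.nonunits V)).1 pV pM)).2

end ChsA

theorem chs (h : T3a c ζ s) : S_chs c ζ s where
  basis := fun _ _ _ _ hC => ChsA.basis hC
  fin := fun _ _ _ _ hC => ChsA.fin h hC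
  frac := fun S _ _ _ _ hx hC hs hG => ChsA.frac h S hx hC hs hG
  chs0 := fun S V _ _ _ _ hD hC hG hap => ChsA.chs0 h S V hD hC hG hap
  chs := fun S V _ _ _ _ _ _ hD hm hS hs hx hx' hR hu hC hG =>
    ChsA.chs0 h S V hD hC hG (ChsA.chs1 h S V hD hm hS hs hx hx' hR hu)

end Pool.Agent.P.MP_e7d440_ag.U
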