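import Pool.Agent.P.MP_e7d440_ag.U.IfaceC
import Pool.Agent.P.MP_e7d440_ag.All

/-! The canonical module part of the criterion with local charts. -/

namespace Pool.Agent.P.MP_e7d440_ag.U

open IsLocalRing MvPolynomial

namespace CritA2A

theorem down {Q A K L : Type} [CommRing Q] [CommRing A] [Field K] [Field L] [Algebra A K]
    [Algebra K L] (φ : Q →+* L) (hl : ∀ a : A, ∃ q, φ q = algebraMap K L (algebraMap A K a))
    {𝔓 : Ideal Q} (hP : 𝔓.IsPrime) (hle : RingHom.ker φ ≤ 𝔓) :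
    ∃ 𝔭 : Ideal A, 𝔭.IsPrime ∧
      (∀ a q, φ q = algebraMap K L (algebraMap A K a) → (a ∈ 𝔭 ↔ q ∈ 𝔓)) ∧
      ∀ γ, loc (algebraMap A K) 𝔭 γ → loc φ 𝔓 (algebraMap K L γ) := by
  let 𝔭 : Ideal A :=
    { carrier := {a | ∃ q ∈ 𝔓, φ q = algebraMap K L (algebraMap A K a)}
      add_mem' := by
        rintro a b ⟨q, hq, e⟩ ⟨q', hq', e'⟩
        exact ⟨q + q', 𝔓.add_mem hq hq', by rw [map_add, map_add, map_add, e, e']⟩
      zero_mem' := ⟨0, 𝔓.zero_mem, by rw [map_zero, map_zero, map_zero]⟩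
      smul_mem' := by
        rintro c a ⟨q, hq, e⟩
        obtain ⟨q', e'⟩ := hl c
        exact ⟨q' * q, 𝔓.mul_mem_left _ hq, by
          rw [smul_eq_mul, map_mul, map_mul, map_mul, e, e']⟩ }
  have h1 : ∀ a q, φ q = algebraMap K L (algebraMap A K a) → (a ∈ 𝔭 ↔ q ∈ 𝔓) := by
    intro a q e
    refine ⟨?_, fun hq => ⟨q, hq, e⟩⟩
    rintro ⟨q', hq', e'⟩
    have h2 : q - q' ∈ 𝔓 := hle (by rw [RingHom.mem_ker, map_sub, e, e', sub_self])
    simpa using 𝔓.add_mem h2 hq'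
  refine ⟨𝔭, ⟨fun ht => hP.ne_top ?_, fun {a b} hab => ?_⟩, h1, ?_⟩
  · rw [Ideal.eq_top_iff_one] at ht ⊢
    exact (h1 1 1 (by rw [map_one, map_one, map_one])).1 ht
  · obtain ⟨q, e⟩ := hl a
    obtain ⟨q', e'⟩ := hl b
    rw [h1 a q e, h1 b q' e']
    exact hP.mem_or_mem ((h1 (a * b) (q * q') (by rw [map_mul, map_mul, map_mul, e, e'])).1 hab)
  · rintro γ ⟨a, b, hb, e⟩
    obtain ⟨q, e1⟩ := hl a
    obtain ⟨q', e2⟩ := hl b
    exact ⟨q, q', fun hm => hb ((h1 b q' e2).2 hm), by rw [e1, e2, ← map_mul, e]⟩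

theorem wr_ext {O K L σ : Type} [CommRing O] [Field K] [Field L] [Algebra O K] [Algebra O L]
    [Algebra K L] [Fintype σ] [DecidableEq σ] (D₁ : σ ⊕ Unit → Derivation O L L)
    (D₂ : σ → Derivation O K K)
    (h1 : ∀ a γ, D₁ (Sum.inl a) (algebraMap K L γ) = algebraMap K L (D₂ a γ))
    (h2 : ∀ γ, D₁ (Sum.inr ()) (algebraMap K L γ) = 0) (y : σ → K) (t : L) :
    wr D₁ (Sum.elim (fun b => algebraMap K L (y b)) fun _ => t) =
      algebraMap K L (wr D₂ y) * D₁ (Sum.inr ()) t := by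
  have : (Matrix.of fun b a => D₁ a (Sum.elim (fun b => algebraMap K L (y b)) (fun _ => t) b)) =
      Matrix.fromBlocks ((algebraMap K L).mapMatrix (Matrix.of fun b a => D₂ a (y b))) 0
        (Matrix.of fun _ a => D₁ (Sum.inl a) t)
        (Matrix.of fun _ _ : Unit => D₁ (Sum.inr ()) t) := by
    ext (b | b) (a | a)
    · simp [h1]
    · simp [h2]
    · simp
    · simp
  rw [wr, this, Matrix.det_fromBlocks_zero₁₂, ← RingHom.map_det,
    Matrix.det_unique (n := Unit)]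
  rfl

end CritA2A

open CritA in
theorem critA2 (h1 : S_a1b) (h2 : S_a2b) : S_critA2 := by
  intro O Q A K L σ κ β _ _ _ _ _ _ _ _ _ _ _ _ _ _ _ _ _ _ _ _ _ _ _ j₁ j₂ ψ π h g z₀ hd hψ hker
    hlift hτ hDK hDτ hN hF ht₁ ht₂ hz₀ hz₀' hsq hh hQ4 hg hΘ₀ hch
  have : IsRegularLocalRing Q := IsRegularLocalRing.of_isRegularRing_of_isLocalRing Q
  have hinj : Function.Injective (algebraMap A K) := IsFractionRing.injective A K
  have hsurj : Function.Surjective ψ := fun a => (hlift a).imp fun _ h => h.2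
  have hJ₂ : j₂.J = RingHom.ker ψ.toRingHom := by
    ext q
    simp only [Jet.J, RingHom.mem_ker]
    change j₂.φ q = 0 ↔ ψ q = 0
    rw [hψ, map_eq_zero_iff _ hinj]
  have hJp : j₁.J.IsPrime := RingHom.ker_isPrime _
  have hbp : (RingHom.ker ψ.toRingHom).IsPrime := RingHom.ker_isPrime _
  have hmem : ∀ q, q ∈ j₁.J ↔ j₁.φ q = 0 := fun q => Iff.rfl
  have hmemψ : ∀ q, q ∈ RingHom.ker ψ.toRingHom ↔ ψ q = 0 := fun q => Iff.rfl
  have hjac₀ : j₁.jac z₀ ≠ 0 := fun h0 => hz₀' (hker h0)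
  obtain ⟨hht, -⟩ := hts.ind j₁ z₀ hz₀ hjac₀ ht₁
  obtain ⟨z, hz, hCI⟩ := cm'.ch1 z₀ hJp hht.ge hz₀
  have hzJ : ∀ k, z k ∈ j₁.J := fun k => by
    have := j₁.J.add_mem (Ideal.pow_le_self two_ne_zero (hz k)) (hz₀ k)
    simpa using this
  set Δ : Q := (Matrix.of fun k l => j₁.d (Sum.inr l) (z k)).det with hΔ
  have hψΔ : ψ Δ = ψ (Matrix.of fun k l => j₁.d (Sum.inr l) (z₀ k)).det := by
    rw [hΔ, AlgHom.map_det, AlgHom.map_det]
    congr 1
    ext k l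
    have := hker (der_sq (j₁.d (Sum.inr l)) (hz k))
    rw [hmemψ, map_sub, map_sub, sub_eq_zero] at this
    simpa using this
  have hψΔ0 : ψ Δ ≠ 0 := hψΔ ▸ hz₀'
  have hjac : j₁.jac z = j₁.φ Δ := rfl
  have hjac0 : j₁.jac z ≠ 0 := fun h0 => hψΔ0 (hker h0)
  obtain ⟨-, hGG⟩ := hts.ind j₁ z hzJ hjac0 ht₁
  set Xτ := j₁.X (Sum.inl (Sum.inr ())) with hXτ
  have hτ0 : j₁.φ Xτ ≠ 0 := fun h0 => by
    have := j₁.DX (Sum.inr ()) (Sum.inr ())
    rw [← hXτ, h0] at this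
    simp at this
  obtain ⟨jj, hjj, hNZD⟩ := cm'.avoid hCI hJp hht (t := Xτ) hτ0
  have hjjJ : jj ∈ j₁.J := Ideal.pow_le_self two_ne_zero hjj
  set z' := Xτ + jj with hz'
  have hφz' : j₁.φ z' = j₁.φ Xτ := by rw [hz', map_add, (hmem _).1 hjjJ, add_zero]
  set z'' : Unit ⊕ κ → Q := Sum.elim (fun _ => z') z with hz''
  have hsp : sp z'' = sp z ⊔ Ideal.span {z'} := sp_elim z z'
  have hCI'' : CI (sp z'') (Fintype.card (Unit ⊕ κ)) := by
    rw [hsp, Fintype.card_sum, Fintype.card_unit, add_comm]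
    exact basic.ciSucc hCI hNZD
  have hz''J : ∀ k, z'' k ∈ j₂.J := by
    rw [hJ₂]
    rintro (k | k)
    · rw [hmemψ]
      change ψ (Xτ + jj) = 0
      rw [map_add, hτ, (hmemψ _).1 (hker hjjJ), add_zero]
    · exact hker (hzJ k)
  have hjac₂ : j₂.jac z'' = algebraMap A K (ψ Δ) := by
    rw [← hψ, hΔ, Jet.jac, AlgHom.map_det, AlgHom.map_det]
    have : j₂.φ.mapMatrix (Matrix.of fun k l => j₂.d (Sum.inr l) (z'' k)) =
        Matrix.fromBlocks 1 0 (Matrix.of fun k (_ : Unit) => j₂.φ (j₂.d (Sum.inr (Sum.inl ())) (z k)))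
          (j₂.φ.mapMatrix (Matrix.of fun k l => j₁.d (Sum.inr l) (z k))) := by
      have e0 : ∀ i, j₂.φ (j₁.d i jj) = 0 := fun i => by
        rw [hψ, (hmemψ _).1 (hker (der_sq _ hjj)), map_zero]
      ext (k | k) (l | l)
      · simp [hz'', hd, hz', hXτ, e0, j₁.dX]
      · simp [hz'', hd, hz', hXτ, e0, j₁.dX]
      · simp [hz'']
      · simp [hz'', hd]
    rw [this, Matrix.det_fromBlocks_zero₁₂]
    simp
  have hjac₂0 : j₂.jac z'' ≠ 0 := by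
    rw [hjac₂]; exact (map_ne_zero_iff _ hinj).2 hψΔ0
  obtain ⟨hht₂, hGG₂⟩ := hts.ind j₂ z'' hz''J hjac₂0 ht₂
  refine ⟨sp z, z', Fintype.card κ, hCI, hNZD, ?_, ?_, fun s hs => ?_⟩
  · rw [← hsp, ← hJ₂]
    exact Ideal.span_le.2 (Set.range_subset_iff.2 hz''J)
  · rw [← hJ₂, hht₂, Fintype.card_sum, Fintype.card_unit, add_comm]
  rw [← hsp, ← hJ₂] at hs
  obtain ⟨⟨r₁, hr₁⟩, hr₂⟩ := h1 O Q A K σ (Unit ⊕ κ) j₂ ψ z'' π (lwr j₂.D g) hsurj hψ
    hz''J hCI'' hht₂ hGG₂ hjac₂0 hΘ₀ hch s hs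
  obtain ⟨q₁, hq₁, -⟩ := hlift r₁
  set Θ : L := algebraMap K L (j₂.φ s / j₂.jac z'') with hΘ
  set γ : σ ⊕ Unit → L := Sum.elim (fun a => algebraMap K L (g a)) fun _ => j₁.φ Xτ with hγ
  have hlwr : lwr j₁.D γ * j₁.φ Xτ = algebraMap K L (lwr j₂.D g) := by
    have : (Matrix.of fun b a => j₁.D a (γ b) / γ b) = Matrix.fromBlocks
        ((algebraMap K L).mapMatrix (Matrix.of fun b a => j₂.D a (g b) / g b)) 0 0
        (Matrix.of fun _ _ => (j₁.φ Xτ)⁻¹) := by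
      ext (b | b) (a | a)
      · simp [hγ, hDK]
      · simp [hγ, hDτ]
      · simp [hγ, hXτ, j₁.DX]
      · simp [hγ, hXτ, j₁.DX]
    rw [lwr, this, Matrix.det_fromBlocks_zero₁₂, ← RingHom.map_det, lwr]
    simp [hτ0]
  have key := h2 O Q L σ κ β j₁ z π (RingHom.ker ψ.toRingHom) h hN hF hzJ hCI hht hGG hjac0 hsq
    hh hQ4 Θ γ q₁ (by
      rintro (b | b)
      · simpa [hγ] using hg b
      · simpa [hγ] using hτ0) (by
      rw [mul_assoc, hlwr, hq₁, ← map_mul, hΘ, hr₁, mul_div_cancel_right₀ _ hjac₂0]) (by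
      intro 𝔓 hP hle hπ
      obtain ⟨𝔭, hp, hp1, hp2⟩ := CritA2A.down (K := K) j₁.ρ (fun a => (hlift a).imp fun _ e => e.1)
        hP hle
      obtain ⟨y, hy, θ, hθ, e⟩ := hr₂ 𝔭 hp fun hm => hπ ((hp1 _ _ (by
        rw [← IsScalarTower.algebraMap_apply O A K, ← IsScalarTower.algebraMap_apply O K L]
        exact j₁.φ.commutes π)).1 hm)
      refine ⟨fun b => algebraMap K L (y b), fun b => hp2 _ (hy b), algebraMap K L θ, hp2 _ hθ,
        fun t => ?_⟩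
      rw [CritA2A.wr_ext j₁.D j₂.D hDK hDτ, hΘ, e, map_mul]
      ring)
  obtain ⟨u, hu, hφu⟩ := key Xτ hτ
  have hφu' : j₁.φ u = Θ * j₁.φ Δ := by
    apply mul_right_cancel₀ hτ0
    rw [hφu, hjac]; ring
  have hub : u ∈ col (sp z'') j₂.J := by
    rw [mem_col, hJ₂]
    intro a ha
    obtain ⟨w, hw, hφw⟩ := key a ha
    have hin : u * a - z' * w ∈ sp z := by
      refine cm'.inj hCI hJp hht hGG _ ?_ ?_
      · rw [hmem, map_sub, map_mul, map_mul, hφz', hφu', mul_comm (j₁.φ Xτ), hφw, hjac]; ring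
      · exact Ideal.sub_mem _ (Ideal.mul_mem_right _ _ hu) (Ideal.mul_mem_left _ _ hw)
    have : u * a = (u * a - z' * w) + z' * w := by ring
    rw [this, hsp]
    exact Ideal.add_mem _ (Ideal.mem_sup_left hin)
      (Ideal.mem_sup_right (Ideal.mul_mem_right _ _ (Ideal.mem_span_singleton_self _)))
  refine ⟨u, hu, ?_⟩
  rw [← hsp]
  refine cm'.inj hCI'' (hJ₂ ▸ hbp) hht₂ hGG₂ _ ?_ (Ideal.sub_mem _ hub hs)
  obtain ⟨Δ', hΔ', hΔ''⟩ := hlift (ψ Δ)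
  obtain ⟨s', hs', hs''⟩ := hlift (ψ s)
  have h0 : u * Δ' - Δ * s' ∈ j₁.J := by
    rw [hmem, map_sub, map_mul, map_mul, hφu', hΔ', hs', hΘ, ← hjac₂, ← hψ, map_div₀]
    have : algebraMap K L (j₂.jac z'') ≠ 0 := by simpa using hjac₂0
    field_simp
    ring
  have h3 := (hmemψ _).1 (hker h0)
  rw [map_sub, map_mul, map_mul, hΔ'', hs'', sub_eq_zero, mul_comm] at h3
  rw [hJ₂, hmemψ, map_sub, mul_left_cancel₀ hψΔ0 h3, sub_self]

end Pool.Agent.P.MP_e7d440_ag.U
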