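import Pool.Agent.P.MP_e7d440_ag.U.Wloc
import Pool.Agent.P.MP_e7d440_ag.Jac

/-! A transcendence basis and a primitive element inside the ring. -/

namespace Pool.Agent.P.MP_e7d440_ag.U

open IsLocalRing MvPolynomial

namespace PrimA

open WlocA

lemma basis {O A K σ : Type} [CommRing O] [CommRing A] [IsDomain A] [Field K] [Algebra O K]
    [Algebra A K] [IsFractionRing A K] [Fintype σ] [DecidableEq σ] (D : σ → Derivation O K K)
    (y : σ → K) (hy : wr D y ≠ 0) : ∃ x : σ → A, wr D (fun a => algebraMap A K (x a)) ≠ 0 := by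
  classical
  by_contra hn
  push Not at hn
  have key : ∀ s : Finset σ, ∀ y : σ → K, (∀ b, b ∉ s → ∃ a, y b = algebraMap A K a) →
      wr D y = 0 := by
    intro s
    induction s using Finset.induction_on with
    | empty =>
      intro y h
      choose x hx using fun b => h b (by simp)
      rw [funext hx]
      exact hn x
    | insert b s hb ih =>
      intro y h
      have aux : ∀ x : A, wr D (Function.update y b (algebraMap A K x)) = 0 := fun x => by
        refine ih _ fun c hc => ?_
        by_cases e : c = b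
        · subst e; exact ⟨x, by simp⟩
        · rw [Function.update_of_ne e]
          exact h c (by simp [e, hc])
      obtain ⟨a, t, ht, e⟩ := IsFractionRing.div_surjective (A := A) (y b)
      have ht' : algebraMap A K t ≠ 0 :=
        IsFractionRing.to_map_ne_zero_of_mem_nonZeroDivisors ht
      rw [wr_split D y b (algebraMap A K a) _ ht' (by rw [← e]; exact div_mul_cancel₀ _ ht'), aux, aux]
      simp
  exact hy (key Finset.univ y fun b hb => absurd (Finset.mem_univ b) hb)

lemma alg (hg : S_gen) {O K σ : Type} [CommRing O] [IsDomain O] [Field K] [Algebra O K]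
    [Fintype σ] (y x : σ → K) (hy : Gen O y) (hx : AlgebraicIndependent O x) (γ : K) :
    IsAlgebraic (Algebra.adjoin O (Set.range x)) γ := by
  classical
  by_contra hn
  have h1 := (hx.option_iff_transcendental γ).2 hn
  have h2 : Gen O (fun o : Option σ => o.elim 0 y) := by
    rw [hg.clos] at hy ⊢
    rw [eq_top_iff, ← hy]
    refine Subfield.closure_mono (Set.union_subset_union_right _ ?_)
    rintro _ ⟨b, rfl⟩
    exact ⟨some b, rfl⟩
  have h3 := hg.indep _ _ h2 h1 le_rfl
  exact h3.ne_zero none rfl

lemma lift {O K σ : Type} [CommRing O] [Field K] [Algebra O K] (x : σ ⊕ Unit → K) (x' : σ → K)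
    (θ : K) (h1 : x ∘ Sum.inl = x') (h2 : x (Sum.inr ()) = θ)
    (p : Polynomial (Algebra.adjoin O (Set.range x'))) :
    ∃ f : MvPolynomial (σ ⊕ Unit) O, aeval x f = Polynomial.aeval θ p ∧
      aeval x (pderiv (Sum.inr ()) f) = Polynomial.aeval θ p.derivative := by
  classical
  subst h1 h2
  induction p using Polynomial.induction_on' with
  | add p q hp hq =>
    obtain ⟨f, f1, f2⟩ := hp
    obtain ⟨g, g1, g2⟩ := hq
    exact ⟨f + g, by simp [f1, g1], by simp [f2, g2]⟩
  | monomial n c =>
    obtain ⟨c, hc⟩ := c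
    have hc' := hc
    rw [Algebra.adjoin_range_eq_range_aeval] at hc'
    obtain ⟨F, hF⟩ := hc'
    have e1 : aeval x (rename (Sum.inl : σ → σ ⊕ Unit) F) = c := by
      rw [aeval_rename]; exact hF
    have e2 : pderiv (Sum.inr ()) (rename (Sum.inl : σ → σ ⊕ Unit) F) = 0 := by
      refine pderiv_eq_zero_of_notMem_vars fun h => ?_
      obtain ⟨a, -, ha⟩ := mem_vars_rename _ _ h
      cases ha
    refine ⟨rename Sum.inl F * X (Sum.inr ()) ^ n, ?_, ?_⟩
    · simp [e1]
    · rw [Derivation.leibniz, e2, Derivation.leibniz_pow]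
      simp [e1, Polynomial.derivative_monomial, mul_assoc]

end PrimA

open PrimA

theorem prim (hg : S_gen) : S_prim := by
  intro O A K σ _ _ _ _ _ _ _ _ _ _ _ _ _ D y hinj hy hw
  classical
  obtain ⟨x, hx⟩ := basis (A := A) D y hw
  have hi := jacs.indep D _ hinj hx
  have hA := alg hg y _ hy hi
  let R := Algebra.adjoin O (Set.range fun a => algebraMap A K (x a))
  have hch : CharZero K := charZero_of_injective_algebraMap hinj
  let F := FractionRing R
  let _ : Algebra F K := FractionRing.liftAlgebra R K
  have tw : IsScalarTower R F K := FractionRing.isScalarTower_liftAlgebra R K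
  have a1 : Algebra.IsAlgebraic R K := ⟨hA⟩
  have a2 : Algebra.IsAlgebraic F K :=
    ⟨fun γ => (hA γ).extendScalars (IsFractionRing.injective R F)⟩
  have hO : ∀ o : O, algebraMap O K o = algebraMap F K (algebraMap R F (algebraMap O R o)) := by
    intro o
    rw [← IsScalarTower.algebraMap_apply]; rfl
  have a3 : IntermediateField.adjoin F (Set.range y) = ⊤ := by
    rw [eq_top_iff]
    intro γ _
    have h1 : γ ∈ Subfield.closure (Set.range (algebraMap O K) ∪ Set.range y) := by
      rw [(hg.clos y).1 hy]; trivial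
    refine (Subfield.closure_le (t := (IntermediateField.adjoin F (Set.range y)).toSubfield)).2
      ?_ h1
    rintro _ (⟨o, rfl⟩ | h)
    · rw [hO]; exact IntermediateField.algebraMap_mem _ _
    · exact IntermediateField.subset_adjoin _ _ h
  have a4 : FiniteDimensional F K := by
    have := IntermediateField.finiteDimensional_adjoin (K := F) (S := Set.range y)
      fun γ _ => (a2.1 γ).isIntegral
    rw [a3] at this
    exact IntermediateField.topEquiv.toLinearEquiv.finiteDimensional
  obtain ⟨θ, hθ⟩ := Field.exists_primitive_element F K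
  obtain ⟨a, s, hs, e⟩ := IsFractionRing.div_surjective (A := A) θ
  have hs' : algebraMap A K s ≠ 0 := IsFractionRing.to_map_ne_zero_of_mem_nonZeroDivisors hs
  obtain ⟨t, ht, N, hN, e2⟩ := (hA (algebraMap A K s)).exists_nonzero_eq_adjoin_mul
    (mem_nonZeroDivisors_of_ne_zero hs')
  have hR : ∀ r : R, (r : K) ∈ (algebraMap A K).range := by
    rintro ⟨r, hr⟩
    rw [Algebra.mem_adjoin_iff] at hr
    refine (Subring.closure_le (t := (algebraMap A K).range)).2 ?_ hr
    rintro _ (⟨o, rfl⟩ | ⟨b, rfl⟩)
    · exact ⟨algebraMap O A o, (IsScalarTower.algebraMap_apply O A K o).symm⟩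
    · exact ⟨_, rfl⟩
  obtain ⟨t, rfl⟩ : t ∈ (algebraMap A K).range := by
    rw [Algebra.mem_adjoin_iff] at ht
    refine (Subring.closure_le (t := (algebraMap A K).range)).2 ?_ ht
    rintro _ (⟨r, rfl⟩ | rfl)
    · exact hR r
    · exact ⟨_, rfl⟩
  have hN' : algebraMap R K N ≠ 0 := fun h => hN (Subtype.ext h)
  have e3 : θ = algebraMap A K (a * t) / algebraMap F K (algebraMap R F N) := by
    rw [← IsScalarTower.algebraMap_apply, eq_div_iff hN', ← e2, ← e, map_mul]
    field_simp
  let z : σ ⊕ Unit → A := Sum.elim x fun _ => a * t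
  obtain ⟨b, hb, e4⟩ := IsLocalization.integerNormalization_spec (nonZeroDivisors R)
    (minpoly F (algebraMap A K (a * t)))
  obtain ⟨f, f1, f2⟩ := lift (O := O) (algebraMap A K ∘ z) (fun a => algebraMap A K (x a))
    (algebraMap A K (a * t)) rfl rfl
    (IsLocalization.integerNormalization (nonZeroDivisors R) (minpoly F (algebraMap A K (a * t))))
  refine ⟨z, f, hx, ?_, ?_, ?_⟩
  · rw [hg.clos, eq_top_iff]
    set S := Subfield.closure (Set.range (algebraMap O K) ∪
      Set.range fun i => algebraMap A K (z i)) with hS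
    have b1 : ∀ r : R, (r : K) ∈ S := by
      rintro ⟨r, hr⟩
      rw [Algebra.mem_adjoin_iff] at hr
      refine (Subring.closure_le (t := S.toSubring)).2 ?_ hr
      rintro _ (⟨o, rfl⟩ | ⟨b, rfl⟩)
      · exact Subfield.subset_closure (Or.inl ⟨o, rfl⟩)
      · exact Subfield.subset_closure (Or.inr ⟨Sum.inl b, rfl⟩)
    have b2 : ∀ q : F, algebraMap F K q ∈ S := by
      intro q
      obtain ⟨u, v, -, rfl⟩ := IsFractionRing.div_surjective (A := R) q
      rw [map_div₀, ← IsScalarTower.algebraMap_apply, ← IsScalarTower.algebraMap_apply]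
      exact S.div_mem (b1 u) (b1 v)
    have b3 : θ ∈ S := by
      rw [e3]
      exact S.div_mem (Subfield.subset_closure (Or.inr ⟨Sum.inr (), rfl⟩)) (b2 _)
    intro γ _
    have b4 : γ ∈ IntermediateField.adjoin F {θ} := by rw [hθ]; trivial
    exact (IntermediateField.adjoin_le_iff (T := S.toIntermediateField b2)).2
      (Set.singleton_subset_iff.2 b3) b4
  · apply IsFractionRing.injective A K
    rw [← aeval_algebraMap_apply, f1, map_zero]
    rw [← Polynomial.aeval_map_algebraMap F, e4, Algebra.smul_def, map_mul, minpoly.aeval,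
      mul_zero]
  · intro h
    have h1 := congrArg (algebraMap A K) h
    rw [← aeval_algebraMap_apply, f2, map_zero] at h1
    rw [← Polynomial.aeval_map_algebraMap F, ← Polynomial.derivative_map, e4,
      Polynomial.derivative_smul, Algebra.smul_def, map_mul, mul_eq_zero] at h1
    rcases h1 with h1 | h1
    · rw [Polynomial.algebraMap_apply, Polynomial.aeval_C, ← IsScalarTower.algebraMap_apply] at h1
      exact nonZeroDivisors.ne_zero hb (Subtype.ext h1)
    · exact (Algebra.IsSeparable.isSeparable F _).aeval_derivative_ne_zero (minpoly.aeval _ _) h1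

end Pool.Agent.P.MP_e7d440_ag.U
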