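import Pool.Agent.P.MP_e7d440_ag.U.Vert
import Pool.Agent.P.MP_e7d440_ag.U.Prim
import Pool.Agent.P.MP_e7d440_ag.All
import Pool.Agent.P.MP_e7d440_ag.Gr

/-! The normalized chart satisfies the logarithmic Calabi-Yau condition. -/

namespace Pool.Agent.P.MP_e7d440_ag.U

open TensorProduct LieAlgebra LaurentPolynomial Set GrA

variable {L Φ Δ : Type} [LieRing L] [LieAlgebra ℚ L] [Fintype Φ] [Fintype Δ] [DecidableEq Φ]
  [DecidableEq Δ] {c : CD L Φ Δ}

theorem cy (h : TA c) (h1 : S_log2 c) (h2 : S_vert c) (h3 : S_horz c) (hr : S_resd) : S_cy c := by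
  intro O K J ι _ _ _ _ _ _ _ _ _ _ _ π ζ s μ r₀ X x r C A₀ A hπ hO hCo hG hI hCl hCh hA₀ hA
  have hinj := hI.algebraMap_injective
  have T := h K _ J _ (VertA.pt hO hinj)
  obtain ⟨hGP, D, t, ν, hL⟩ := h1 ζ s μ r₀ X hO hCo hG hI
  set Z : Set K := {g | ∃ i, g ∈ c.Gens (algebraMap O K ζ) (fun j => algebraMap O K (s j))
    (c.cell μ X) (x i) (r i) (C i)} with hZ
  have hZf : Z.Finite := by
    have : Z = ⋃ i, c.Gens (algebraMap O K ζ) (fun j => algebraMap O K (s j))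
      (c.cell μ X) (x i) (r i) (C i) := by ext g; simp [hZ]
    rw [this]
    exact Set.finite_iUnion fun i => T.chs.fin _ _ _ _ (hCh i)
  haveI : Finite Z := hZf
  have hrange : Z = Set.range (Subtype.val : Z → K) := Subtype.range_coe.symm
  have hAeq : A = ncl O (Subtype.val : Z → K) := by
    ext γ
    rw [hA, hA₀]
    change _ ↔ IsIntegral (Algebra.adjoin O (Set.range (Subtype.val : Z → K))) γ
    rw [← hrange]
  subst hAeq
  have hfr : ∀ γ : K, ∃ a ∈ Algebra.adjoin O (Set.range (Subtype.val : Z → K)),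
      ∃ b ∈ Algebra.adjoin O (Set.range (Subtype.val : Z → K)), b ≠ 0 ∧ γ * b = a := fun γ => by
    obtain ⟨i₀⟩ := ‹Nonempty ι›
    have hg : Gen O (Subtype.val : Z → K) := VertA.gen_of hGP _ fun S a1 a2 =>
      T.chs.frac S _ _ _ _ (hCl i₀).1 (hCh i₀) (fun j => a1 _) fun g hg => a2 ⟨g, i₀, hg⟩
    obtain ⟨F, G, a1, a2⟩ := hg γ
    have hm : ∀ g : Z, (g : K) ∈ Algebra.adjoin O (Set.range (Subtype.val : Z → K)) :=
      fun g => Algebra.subset_adjoin ⟨g, rfl⟩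
    exact ⟨_, aeval_mem hm F, _, aeval_mem hm G, a1, a2⟩
  obtain ⟨t', ht1, ht2⟩ := fin' O K _ (Subtype.val : Z → K) hinj hfr
  haveI i1 := ft (Subtype.val : Z → K) t' ht1 ht2
  haveI i2 := fr (Subtype.val : Z → K) hfr
  haveI i3 := icl (O := O) (Subtype.val : Z → K)
  haveI i4 : IsNoetherianRing (ncl O (Subtype.val : Z → K)) :=
    Algebra.FiniteType.isNoetherianRing O _
  have hlw : lwr D t = 1 := by
    refine (congrArg Matrix.det ?_).trans Matrix.det_one
    ext b a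
    rw [Matrix.of_apply, hL.der, Matrix.one_apply]
    by_cases e : a = b
    · simp [e, hL.ne]
    · simp [e, Ne.symm e]
  refine ⟨i1, i2, i3, Fin (Fintype.card (c.Id μ)), inferInstance, inferInstance, D, t, hL.ne,
    hlw ▸ one_ne_zero, fun 𝔭 hp hp' => ?_⟩
  rw [hlw]
  have hlc : ∀ a : ncl O (Subtype.val : Z → K),
      loc (algebraMap (ncl O (Subtype.val : Z → K)) K) 𝔭 a := fun a => loc_map _ hp a
  by_cases hπp : algebraMap O (ncl O (Subtype.val : Z → K)) π ∈ 𝔭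
  · have hh := hp'.resolve_left (not_not.2 hπp)
    obtain ⟨V, hV1, hV2⟩ := vals'.dvr (K := K) 𝔭 hp hh
    have hAV : ∀ a : ncl O (Subtype.val : Z → K), (a : K) ∈ V := fun a => (hV1 _).2 (hlc a)
    let e : Fin (Fintype.card (c.Id μ)) ≃ c.Id μ := (Fintype.equivFin _).symm
    have hG' : Gen O fun k => X (e k) := by
      rw [gen.clos] at hG ⊢
      rwa [show (Set.range fun k => X (e k)) = Set.range X from e.surjective.range_comp X]
    have hw : wr D t ≠ 0 := fun h0 => by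
      rw [jacs.lwr_eq, h0, zero_div] at hlw
      exact zero_ne_one hlw
    obtain ⟨x', -, hx', -⟩ := prim gen (A := ncl O (Subtype.val : Z → K)) D _ hinj hG'
      (gen.wrne D t _ hG' hw)
    have hind : AlgebraicIndependent O fun a => x' (Sum.inl a) :=
      AlgebraicIndependent.of_comp (ncl O (Subtype.val : Z → K)).val (jacs.indep D _ hinj hx')
    have hinj' : Function.Injective (algebraMap O (ncl O (Subtype.val : Z → K))) :=
      fun o o' h => hinj (congrArg Subtype.val h)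
    obtain ⟨p, hp⟩ := tr O (ncl O (Subtype.val : Z → K)) _ _ π 𝔭
      (fun n : Z => ⟨(Subtype.val : Z → K) n, s_mem (Subtype.val : Z → K) n⟩) _ hπ hinj' hp hh hπp
      (integ (O := O) (Subtype.val : Z → K)) hind
    obtain ⟨y, a1, a2, a3⟩ := h2 π ζ s μ r₀ X D t ν x r C V (fun k => (p k : K)) hπ hinj hO hCo rfl
      hGP hL hCl hCh (fun i g hg => hAV ⟨g, s_mem _ (⟨g, i, hg⟩ : Z)⟩)
      (fun o => hAV (algebraMap O _ o)) ((hV2 _).2 hπp) (fun γ => by
        obtain ⟨M, hM⟩ := hloc.arch 𝔭 ‹_› hh _ hπp γ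
        exact ⟨M, (hV1 _).2 hM⟩) (fun k => (p k).2) (fun F hF => hp F ((hV2 _).1 (by
          rw [← MvPolynomial.aeval_algebraMap_apply]; exact hF)))
    refine ⟨y, fun b => (hV1 _).1 (a1 b), fun a => ?_, wr D y, (hV1 _).1 a3, (mul_one _).symm⟩
    obtain ⟨F, G, b1, b2, b3⟩ := a2 a (hAV a)
    exact ⟨F, G, b1, (hV1 _).1 b2, b3⟩
  · obtain ⟨R, V, hR, hRV⟩ := hr.dom (K := K) 𝔭 hp Subtype.val_injective
    obtain ⟨y, a1, a2, a3⟩ := h3 π ζ s μ r₀ X D t ν x r C R V hπ hO hCo rfl hI hGP hL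
      (fun i => (hCl i).1) hCh (fun i g hg => (hR _).2 (hlc ⟨g, s_mem _ (⟨g, i, hg⟩ : Z)⟩)) hRV
      (fun o => (hR _).2 (hlc (algebraMap O _ o))) ((hR _).2 (loc_inv _ (by
        rw [(RingHom.injective_iff_ker_eq_bot _).1 Subtype.val_injective]; exact bot_le) hπp))
    refine ⟨y, fun b => (hR _).1 (a1 b), fun a => ?_, wr D y, hr.sq 𝔭 hp _ ((hR _).1 a3),
      (mul_one _).symm⟩
    obtain ⟨F, G, b1, b2, b3⟩ := a2 a (hA₀ ▸ (hA a).1 a.2)
    exact ⟨F, G, b1, (hR _).1 b2, b3⟩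

end Pool.Agent.P.MP_e7d440_ag.U
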