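import Pool.Agent.P.MP_e7d440_ag.U.IfaceC
import Pool.Agent.P.MP_e7d440_ag.Top
import Pool.Agent.P.MP_e7d440_ag.Step
import Pool.Agent.P.MP_e7d440_ag.CoreTwo

/-! Descent of the injectivity property along a finite free extension. -/

namespace Pool.Agent.P.MP_e7d440_ag.U

open IsLocalRing MvPolynomial

namespace DescA

lemma glob {A : Type} [CommRing A] (I : Ideal A)
    (h : ∀ 𝔫 : Ideal A, 𝔫.IsMaximal → ∃ s ∈ I, s ∉ 𝔫) : (1 : A) ∈ I := by
  by_contra h1
  obtain ⟨𝔫, h𝔫, hle⟩ := Ideal.exists_le_maximal I ((Ideal.ne_top_iff_one I).2 h1)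
  obtain ⟨s, hs, hs'⟩ := h 𝔫 h𝔫
  exact hs' (hle hs)

lemma mem_of_loc {A K : Type} [CommRing A] [Field K] (φ : A →+* K) (γ : K)
    (h : ∀ 𝔫 : Ideal A, 𝔫.IsMaximal → loc φ 𝔫 γ) : ∃ a, φ a = γ := by
  let I : Ideal A :=
    { carrier := {s | ∃ a, γ * φ s = φ a}
      zero_mem' := ⟨0, by simp⟩
      add_mem' := fun ⟨a, ha⟩ ⟨b, hb⟩ => ⟨a + b, by rw [map_add, map_add, mul_add, ha, hb]⟩
      smul_mem' := fun c s ⟨a, ha⟩ =>
        ⟨c * a, by rw [smul_eq_mul, map_mul, map_mul, ← ha]; ring⟩ }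
  obtain ⟨a, ha⟩ : (1 : A) ∈ I := glob I fun 𝔫 h𝔫 => by
    obtain ⟨a, b, hb, e⟩ := h 𝔫 h𝔫
    exact ⟨b, ⟨a, e⟩, hb⟩
  exact ⟨a, by rw [← ha, map_one, mul_one]⟩

/-- a model of the localization inside `K` is a localization -/
lemma model {A K R : Type} [CommRing A] [Field K] [Algebra A K] [CommRing R] [Algebra R K]
    (hA : Function.Injective (algebraMap A K)) (hR : Function.Injective (algebraMap R K))
    (𝔫 : Ideal A) [h𝔫 : 𝔫.IsPrime]
    (h : ∀ γ, (∃ r, algebraMap R K r = γ) ↔ loc (algebraMap A K) 𝔫 γ) :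
    ∃ _ : Algebra A R, IsScalarTower A R K ∧ IsLocalization.AtPrime R 𝔫 := by
  choose f hf using fun a : A => (h _).2 (loc_map (algebraMap A K) h𝔫 a)
  let ρ : A →+* R :=
    { toFun := f
      map_one' := hR (by rw [hf, map_one, map_one])
      map_mul' := fun a b => hR (by rw [map_mul, hf, hf, hf, map_mul])
      map_zero' := hR (by rw [hf, map_zero, map_zero])
      map_add' := fun a b => hR (by rw [map_add, hf, hf, hf, map_add]) }
  let _ : Algebra A R := ρ.toAlgebra
  have hρ : ∀ a, algebraMap R K (algebraMap A R a) = algebraMap A K a := hf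
  have hk : RingHom.ker (algebraMap A K) ≤ 𝔫 := by
    rw [(RingHom.injective_iff_ker_eq_bot _).1 hA]; exact bot_le
  refine ⟨inferInstance, IsScalarTower.of_algebraMap_eq fun a => (hρ a).symm, ?_⟩
  refine (isLocalization_iff _ _).2 ⟨fun s => ?_, fun r => ?_, fun {a b} hab => ?_⟩
  · obtain ⟨r, hr⟩ := (h _).2 (loc_inv (algebraMap A K) hk s.2)
    refine IsUnit.of_mul_eq_one r (hR ?_)
    rw [map_mul, hρ, hr, map_one]
    exact mul_inv_cancel₀ fun h0 => s.2 (hk h0)
  · obtain ⟨a, b, hb, e⟩ := (h _).1 ⟨r, rfl⟩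
    exact ⟨(a, ⟨b, hb⟩), hR (by rw [map_mul, hρ, hρ]; exact e)⟩
  · exact ⟨1, by rw [hA (show algebraMap A K a = algebraMap A K b by rw [← hρ, ← hρ, hab])]⟩

lemma sp_mono {Q : Type} [CommRing Q] {d : ℕ} (y : Fin d → Q) {n : ℕ} (j : ℕ) {u : Q}
    (hu : u ∈ sp fun i => y i ^ n) : (∏ i, y i) ^ j * u ∈ sp fun i => y i ^ (n + j) := by
  obtain ⟨c, rfl⟩ := Ideal.mem_span_range_iff_exists_fun.1 hu
  rw [Finset.mul_sum]
  refine Ideal.sum_mem _ fun i _ => ?_
  obtain ⟨t, ht⟩ := Finset.dvd_prod_of_mem y (Finset.mem_univ i)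
  rw [ht, show (y i * t) ^ j * (c i * y i ^ n) = t ^ j * c i * y i ^ (n + j) by ring]
  exact Ideal.mul_mem_left _ _ (Ideal.subset_span ⟨i, rfl⟩)

lemma map_sp {Q Q' ν : Type} [CommRing Q] [CommRing Q'] (f : Q →+* Q') (y : ν → Q) :
    (sp y).map f = sp fun i => f (y i) := by
  rw [Ideal.map_span, ← Set.range_comp]; rfl

/-- from the local statements to the global one -/
lemma patch {A : Type} [CommRing A] {d : ℕ} (y : Fin d → A) (T : ℕ) (b : A)
    (h : ∀ 𝔫 : Ideal A, 𝔫.IsMaximal → ∃ (k : ℕ) (s : A), s ∉ 𝔫 ∧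
      s * ((∏ i, y i) ^ k * b) ∈ sp fun i => y i ^ (T + k)) :
    ∃ k : ℕ, (∏ i, y i) ^ k * b ∈ sp fun i => y i ^ (T + k) := by
  let I : Ideal A :=
    { carrier := {s | ∃ k : ℕ, s * ((∏ i, y i) ^ k * b) ∈ sp fun i => y i ^ (T + k)}
      zero_mem' := ⟨0, by simp⟩
      add_mem' := fun {s s'} ⟨k, hk⟩ ⟨k', hk'⟩ => ⟨k + k', by
        have h1 := sp_mono y k' hk
        have h2 := sp_mono y k hk'
        simp only [show T + k' + k = T + (k + k') by ring] at h2
        simp only [add_assoc] at h1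
        convert Ideal.add_mem _ h1 h2 using 1
        ring⟩
      smul_mem' := fun c s ⟨k, hk⟩ =>
        ⟨k, by rw [smul_eq_mul, mul_assoc]; exact Ideal.mul_mem_left _ _ hk⟩ }
  obtain ⟨k, hk⟩ : (1 : A) ∈ I := glob I fun 𝔫 h𝔫 => by
    obtain ⟨k, s, hs, e⟩ := h 𝔫 h𝔫
    exact ⟨s, ⟨k, e⟩, hs⟩
  exact ⟨k, by rwa [one_mul] at hk⟩

/-- a system of parameters stays a system of parameters -/
lemma sop {B A R : Type} [CommRing B] [IsLocalRing B] [IsNoetherianRing B] [CommRing A]
    [Algebra B A] [Module.Finite B A] [Module.Flat B A] [CommRing R] [IsLocalRing R] [Algebra A R]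
    (𝔫 : Ideal A) [h𝔫 : 𝔫.IsMaximal] [IsLocalization.AtPrime R 𝔫] {d : ℕ} (x : Fin d → B)
    (hd : ringKrullDim B = d) (hx : (sp x).radical = maximalIdeal B) :
    ringKrullDim R = d ∧
      (sp fun i => algebraMap A R (algebraMap B A (x i))).radical = maximalIdeal R := by
  have hN : IsNoetherianRing A := IsNoetherianRing.of_finite B A
  have hN' : IsNoetherianRing R := IsLocalization.isNoetherianRing 𝔫.primeCompl R hN
  have hover : 𝔫.comap (algebraMap B A) = maximalIdeal B :=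
    eq_maximalIdeal (Ideal.isMaximal_comap_of_isIntegral_of_isMaximal 𝔫)
  have hm : 𝔫.map (algebraMap A R) = maximalIdeal R := IsLocalization.AtPrime.map_eq_maximalIdeal 𝔫 R
  have hxm : ∀ i, x i ∈ maximalIdeal B := fun i =>
    hx ▸ Ideal.le_radical (Ideal.subset_span ⟨i, rfl⟩)
  have hrad : (sp fun i => algebraMap A R (algebraMap B A (x i))).radical = maximalIdeal R := by
    apply le_antisymm
    · refine (Ideal.IsPrime.radical_le_iff inferInstance).2 (Ideal.span_le.2 ?_)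
      rintro _ ⟨i, rfl⟩
      rw [← hm]
      refine Ideal.mem_map_of_mem _ ?_
      rw [← Ideal.mem_comap, hover]
      exact hxm i
    · rw [Ideal.radical_eq_sInf]
      refine le_sInf ?_
      rintro P ⟨hP1, hP2⟩
      have h1 : maximalIdeal B ≤ (P.comap (algebraMap A R)).comap (algebraMap B A) := by
        rw [← hx]
        refine (Ideal.IsPrime.radical_le_iff inferInstance).2 (Ideal.span_le.2 ?_)
        rintro _ ⟨i, rfl⟩
        exact hP1 (Ideal.subset_span ⟨i, rfl⟩)
      have h2 : ((P.comap (algebraMap A R)).comap (algebraMap B A)).IsMaximal := by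
        rw [← (maximalIdeal.isMaximal B).eq_of_le (Ideal.IsPrime.ne_top inferInstance) h1]
        infer_instance
      have h3 := Ideal.isMaximal_of_isIntegral_of_isMaximal_comap _ h2
      have h4 : P.comap (algebraMap A R) ≤ 𝔫 := by
        intro a ha
        exact (IsLocalization.AtPrime.to_map_mem_maximal_iff R 𝔫 a).1
          (le_maximalIdeal hP2.ne_top ha)
      rw [← hm, Ideal.map_le_iff_le_comap, h3.eq_of_le h𝔫.ne_top h4]
  refine ⟨le_antisymm ?_ ?_, hrad⟩
  · have h1 : maximalIdeal R ∈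
        (sp fun i => algebraMap A R (algebraMap B A (x i))).minimalPrimes := by
      rw [← Ideal.radical_minimalPrimes, hrad, Ideal.minimalPrimes_eq_subsingleton_self]
      rfl
    have h2 := Ideal.height_le_card_of_mem_minimalPrimes_span (Set.finite_range _) h1
    have h3 : (Set.range fun i => algebraMap A R (algebraMap B A (x i))).ncard ≤ d := by
      rw [← Set.image_univ]
      refine (Set.ncard_image_le Set.finite_univ).trans ?_
      simp
    rw [← IsLocalRing.maximalIdeal_height_eq_ringKrullDim]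
    have h4 : (maximalIdeal R).height ≤ (d : ℕ∞) := h2.trans (by exact_mod_cast h3)
    exact_mod_cast h4
  · have : 𝔫.LiesOver (maximalIdeal B) := ⟨hover.symm⟩
    rw [IsLocalization.AtPrime.ringKrullDim_eq_height 𝔫 R,
      Ideal.height_eq_height_add_of_liesOver_of_hasGoingDown (maximalIdeal B) 𝔫, ← hd,
      ← IsLocalRing.maximalIdeal_height_eq_ringKrullDim]
    exact_mod_cast le_self_add

lemma tot_hom {α β M N : Type} [AddCommGroup M] [AddCommGroup N] (g : M →+ N)
    (ξ : List α → List β → M) (σ : List α) (τ : List β) :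
    tot (fun σ τ => g (ξ σ τ)) σ τ = g (tot ξ σ τ) := by
  simp only [tot, map_add, map_zsmul]
  rw [bd_hom g (fun σ' => ξ σ' τ), bd_hom g (ξ σ)]

/-- the statement over one local ring of the cover -/
lemma push {B F R K : Type} [CommRing B] [Field F] [Algebra B F] [CommRing R] [IsLocalRing R]
    [Field K] [Algebra R K] (hR : Function.Injective (algebraMap R K)) (f : B →+* R)
    (ι : F →+* K) (hι : ∀ b, ι (algebraMap B F b) = algebraMap R K (f b)) (hV : ValInj R K)
    {β : Type} [Finite β] (Bf : β → Finset F)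
    (hB : ∀ V : ValuationSubring F, (∀ a, algebraMap B F a ∈ V) → ∃ i, ∀ b ∈ Bf i, b ∈ V)
    {d : ℕ} (x : Fin d → B) (hd : ringKrullDim R = d)
    (hx : (sp fun i => f (x i)).radical = maximalIdeal R)
    (η : List (Fin d) → F) (ξ : List (Fin d) → List β → F)
    (h1 : ∀ σ, σ.length = d → InLoc (algebraMap B F) x σ (η σ))
    (h2 : ∀ σ, σ.length = d + 1 → bd η σ = 0) (h3 : ∀ σ, ξ σ [] = 0)
    (h4 : ∀ σ τ, τ ≠ [] → σ.length + τ.length = d → ∀ V : ValuationSubring F,
      (∀ a, algebraMap B F a ∈ V) → (∀ i ∈ σ, (algebraMap B F (x i))⁻¹ ∈ V) →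
      (∀ i ∈ τ, ∀ b ∈ Bf i, b ∈ V) → ξ σ τ ∈ V)
    (h5 : ∀ σ τ, τ ≠ [] → σ.length + τ.length = d + 1 →
      tot ξ σ τ = if τ.length = 1 then η σ else 0)
    (T : ℕ) (b : B)
    (hb : algebraMap B F (∏ i, x i) ^ T * η (List.finRange d) = algebraMap B F b) :
    ∃ k : ℕ, (∏ i, f (x i)) ^ k * f b ∈ sp fun i => f (x i) ^ (T + k) := by
  have hc : ∀ V : ValuationSubring K, (∀ a, algebraMap R K a ∈ V) →
      ∀ a, algebraMap B F a ∈ V.comap ι := fun V hV a => by
    rw [ValuationSubring.mem_comap, hι]; exact hV _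
  obtain ⟨ζ, z1, z2⟩ := hV β (fun i => (Bf i).map ⟨ι, ι.injective⟩)
    (fun V hV => by
      obtain ⟨i, hi⟩ := hB (V.comap ι) (hc V hV)
      refine ⟨i, fun c hc => ?_⟩
      obtain ⟨c', hc', rfl⟩ := Finset.mem_map.1 hc
      exact hi c' hc')
    d (fun i => f (x i)) hd hx (fun σ => ι (η σ)) (fun σ τ => ι (ξ σ τ))
    (fun σ hσ => by
      obtain ⟨N, a, e⟩ := h1 σ hσ
      refine ⟨N, f a, ?_⟩
      have e1 : (σ.map fun i => f (x i)).prod = f (σ.map x).prod := by
        rw [map_list_prod, List.map_map]; rfl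
      rw [e1, ← hι, ← hι, ← e, map_mul, map_pow])
    (fun σ hσ => (bd_hom ι.toAddMonoidHom η σ).trans (by rw [h2 σ hσ, map_zero]))
    (fun σ => by rw [h3, map_zero])
    (fun σ τ hτ hl V v1 v2 v3 => h4 σ τ hτ hl (V.comap ι) (hc V v1)
      (fun i hi => by
        rw [ValuationSubring.mem_comap, map_inv₀, hι]; exact v2 i hi)
      (fun i hi c hc => v3 i hi _ (Finset.mem_map.2 ⟨c, hc, rfl⟩)))
    (fun σ τ hτ hl => (tot_hom ι.toAddMonoidHom ξ σ τ).trans (by
      rw [h5 σ τ hτ hl]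
      split_ifs
      · rfl
      · exact map_zero _))
  obtain ⟨k, hk⟩ := (tops step).top1 hR (fun i => f (x i)) ⊥ (fun σ => ι (η σ)) T (f b)
    ⟨ζ, fun σ _ hσ => by
      obtain ⟨N, a, e⟩ := z1 σ hσ
      exact ⟨N, a, trivial, by rw [one_mul]; exact e⟩,
     fun σ _ hσ => by
      beta_reduce
      rw [z2 σ hσ, sub_self]
      exact Mem.zero⟩
    (by rw [← map_prod, ← hι, ← hι, ← hb, map_mul, map_pow])
  exact ⟨k, by rwa [bot_sup_eq] at hk⟩

end DescA

open DescA in
theorem desc : S_desc := by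
  intro B A K _ _ _ _ _ _ _ _ _ _ hinj hG
  have hBA : Function.Injective (algebraMap B A) := FaithfulSMul.algebraMap_injective B A
  have hdom : IsDomain B := hBA.isDomain _
  have hBK : Function.Injective ((algebraMap A K).comp (algebraMap B A)) := hinj.comp hBA
  let ι : FractionRing B →+* K := IsFractionRing.lift hBK
  have hι : ∀ b, ι (algebraMap B (FractionRing B) b) = algebraMap A K (algebraMap B A b) :=
    fun b => IsFractionRing.lift_algebraMap hBK b
  have hF : Function.Injective (algebraMap B (FractionRing B)) := IsFractionRing.injective B _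
  have hdesc : ∀ (I : Ideal B) (b : B), algebraMap B A b ∈ I.map (algebraMap B A) → b ∈ I :=
    fun I b hb => by
      rw [← Ideal.comap_map_eq_self_of_faithfullyFlat (B := A) I]; exact hb
  refine ⟨hdom, ?_, ?_⟩
  · refine (isIntegrallyClosed_iff (FractionRing B)).2 fun {γ} hγ => ?_
    obtain ⟨a, ha⟩ := mem_of_loc (algebraMap A K) (ι γ) fun 𝔫 h𝔫 => by
      obtain ⟨R, _, _, _, _, hfr, hR, hic, -⟩ := hG 𝔫 h𝔫
      obtain ⟨_, _, _⟩ := model hinj (IsFractionRing.injective R K) 𝔫 hR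
      refine (hR _).1 ((isIntegrallyClosed_iff K).1 hic ?_)
      refine IsIntegral.map_of_comp_eq ((algebraMap A R).comp (algebraMap B A)) ι ?_ hγ
      ext b
      simp only [RingHom.comp_apply]
      rw [hι, ← IsScalarTower.algebraMap_apply]
    obtain ⟨p, q, hq, rfl⟩ := IsFractionRing.div_surjective (A := B) γ
    have hq0 : algebraMap B (FractionRing B) q ≠ 0 :=
      (map_ne_zero_iff _ hF).2 (nonZeroDivisors.ne_zero hq)
    have e : algebraMap B A p = algebraMap B A q * a := hinj (by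
      rw [map_mul, ha, ← hι, ← hι, ← map_mul, mul_div_cancel₀ _ hq0])
    obtain ⟨c, hc⟩ := Ideal.mem_span_singleton'.1 (hdesc (Ideal.span {q}) p (by
      rw [e]
      exact Ideal.mul_mem_right _ _ (Ideal.mem_map_of_mem _ (Ideal.mem_span_singleton_self q))))
    exact ⟨c, by rw [← hc, map_mul, mul_div_cancel_right₀ _ hq0]⟩
  · intro β _ Bf hB d x hd hx η ξ h1 h2 h3 h4 h5
    obtain ⟨T, b, hb⟩ := h1 (List.finRange d) (by simp)
    rw [← Fin.prod_univ_def] at hb
    obtain ⟨k, hk⟩ := patch (fun i => algebraMap B A (x i)) T (algebraMap B A b) fun 𝔫 h𝔫 => by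
      obtain ⟨R, _, _, _, _, hfr, hR, -, hV⟩ := hG 𝔫 h𝔫
      obtain ⟨_, _, _⟩ := model hinj (IsFractionRing.injective R K) 𝔫 hR
      obtain ⟨s1, s2⟩ := sop (R := R) 𝔫 x hd hx
      obtain ⟨k, hk⟩ := push (IsFractionRing.injective R K)
        ((algebraMap A R).comp (algebraMap B A)) ι
        (fun b => by rw [hι, RingHom.comp_apply, ← IsScalarTower.algebraMap_apply A R K]) hV Bf hB x
        s1 s2 η ξ h1 h2 h3 h4 h5 T b hb
      have h6 : algebraMap A R ((∏ i, algebraMap B A (x i)) ^ k * algebraMap B A b) ∈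
          (sp fun i => algebraMap B A (x i) ^ (T + k)).map (algebraMap A R) := by
        rw [map_sp]
        simpa only [map_mul, map_pow, map_prod, RingHom.comp_apply] using hk
      obtain ⟨s, hs, e⟩ :=
        (IsLocalization.algebraMap_mem_map_algebraMap_iff 𝔫.primeCompl R _ _).1 h6
      exact ⟨k, s, hs, e⟩
    have hk' : (∏ i, x i) ^ k * b ∈ (⊥ : Ideal B) ⊔ sp fun i => x i ^ (T + k) := by
      rw [bot_sup_eq]
      refine hdesc _ _ ?_
      rw [map_sp]
      simpa only [map_mul, map_pow, map_prod] using hk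
    have hx0 := CoreTwoA.param_ne x hd hx
    obtain ⟨ζ, z1, z2⟩ := (tops step).top2 hF x ⊥ η T k b hx0
      ⟨fun σ _ hσ => by
        obtain ⟨N, t, ht⟩ := h1 σ hσ
        exact ⟨N, t, trivial, by rw [one_mul]; exact ht⟩,
       fun σ _ hσ => by rw [h2 σ hσ]; exact Mem.zero⟩ hb hk'
    refine ⟨ζ, fun σ hσ => ?_, fun σ hσ => ?_⟩
    · obtain ⟨N, t, -, ht⟩ := z1 σ (fun _ _ => trivial) hσ
      exact ⟨N, t, by rwa [one_mul] at ht⟩
    · obtain ⟨N, t, ht0, ht⟩ := z2 σ (fun _ _ => trivial) hσ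
      rw [(Submodule.mem_bot B).1 ht0, map_zero, one_mul, mul_eq_zero] at ht
      rcases ht with ht | ht
      · exfalso
        refine List.prod_ne_zero (l := σ.map x) (by simpa using fun i _ => hx0 i) (hF ?_)
        rw [map_zero]
        exact eq_zero_of_pow_eq_zero ht
      · exact (sub_eq_zero.1 ht).symm

end Pool.Agent.P.MP_e7d440_ag.U
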