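import Pool.Agent.P.MP_e7d440_ag.U.Iface3

/-! The square of the logarithmic volume form; the volume form in a big cell. -/

namespace Pool.Agent.P.MP_e7d440_ag.U

open TensorProduct LieAlgebra LaurentPolynomial Set

variable {L Φ Δ : Type} [LieRing L] [LieAlgebra ℚ L] [Fintype Φ] [Fintype Δ] [DecidableEq Φ]
  [DecidableEq Δ] (c : CD L Φ Δ) {K : Type} [Field K] [CharZero K] (ζ : K)
  {J : Type} [Fintype J] [DecidableEq J] (s : J → K)

namespace DetA

variable {c ζ s}

omit [CharZero K] in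
lemma dA_apply {O : Type} [CommRing O] [Algebra O K] (D : Derivation O K K) (a : K) :
    dA D a = D a := rfl

omit [CharZero K] in
lemma dA_mul {O : Type} [CommRing O] [Algebra O K] (D : Derivation O K K) (a b : K) :
    dA D (a * b) = a * dA D b + b * dA D a := D.leibniz a b

omit [CharZero K] in
lemma det_mem {ι : Type} [Fintype ι] [DecidableEq ι] (S : Subring K) (M : Matrix ι ι K)
    (hM : ∀ k l, M k l ∈ S) : M.det ∈ S := by
  rw [Matrix.det_apply']
  exact S.sum_mem fun σ _ => S.mul_mem (intCast_mem _ _) (S.prod_mem fun i _ => hM _ _)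

omit [Fintype Φ] [Fintype Δ] [DecidableEq Φ] [DecidableEq Δ] in
lemma det_Cm {d : ℕ} (b : Fin d → Φ × ℤ) :
    (Matrix.of fun k l => (c.Cm b k l : K)).det = ∏ k, (c.nu (b k).1 : K) / 2 := by
  rw [Matrix.det_of_isLowerTriangular]
  · refine Finset.prod_congr rfl fun k _ => ?_
    simp [CD.Cm]
  · intro k l hkl
    have h1 : k < l := hkl
    simp [CD.Cm, h1.ne, h1.le.not_gt]

omit [CharZero K] in
lemma det_quad {d : ℕ} (a : K) (B P C : Matrix (Fin d) (Fin d) K)
    (hB : ∀ k l, B k l = a * ∑ i, ∑ i', C i i' * P k i * P l i') :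
    B.det = a ^ d * C.det * P.det ^ 2 := by
  have : B = a • (P * C * P.transpose) := by
    ext k l
    rw [hB, Matrix.smul_apply, smul_eq_mul, Matrix.mul_apply, Finset.sum_comm]
    congr 1
    refine Finset.sum_congr rfl fun i' _ => ?_
    rw [Matrix.mul_apply, Finset.sum_mul]
    refine Finset.sum_congr rfl fun i _ => ?_
    rw [Matrix.transpose_apply]
    ring
  rw [this, Matrix.det_smul, Matrix.det_mul, Matrix.det_mul, Matrix.det_transpose,
    Fintype.card_fin]
  ring

lemma det (h : T3a c ζ s) (hm : S_main c ζ s) : S_det c ζ s := by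
  intro O _ _ d D lam r b t hco hw hζ hs ht x y lam' u f hmin hx hU hu hf
  have hv : ∀ k j, ∃ v ∈ c.U1 K (lam j), pf (fun k => t k • ev (s j) (c.F ζ (b k))) 0 v =
      pf (fun k => y k • x k j) 0 (u k j) := fun k j => by
    have h1 : pf (fun k => y k • x k j) 0 (u k j) ∈ c.pU s (fun k => c.F ζ (b k)) t lam j := by
      rw [hU j]
      exact Submodule.mem_map_of_mem (hu k j)
    exact h1
  choose v hv1 hv2 using hv
  have hB := det_quad (-(c.ℓ : K))
    (Matrix.of fun k l => c.BF s (f k) fun j => pf (fun k => y k • x k j) 0 (u l j))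
    (Matrix.of fun k i => c.pp ζ s b t (v k) i) (Matrix.of fun k l => (c.Cm b k l : K))
    fun k l => by
      have h1 := (hm lam r hco d b t hw (v k) (v l) (hv1 k) (hv1 l) (f k) (hf k).1 (hf k).2.1
        fun j => by rw [(hf k).2.2 j, hv2]).2
      simp only [hv2] at h1
      exact h1
  have hP : (Matrix.of fun k i => c.pp ζ s b t (v k) i) =
      (Matrix.of fun k l => c.PP s x y l (u k)) * Matrix.of fun l i => D i (y l) := by
    ext k i
    have h1 : ∀ j, t i * c.kR K (ev (s j) (c.F ζ (b i)))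
        (pf (fun l => t l • ev (s j) (c.F ζ (b l))) (i + 1) (v k j)) =
        ∑ l, D i (y l) * c.kR K (x l j) (pf (fun l => y l • x l j) (l + 1) (u k j)) := fun j => by
      have h2 := h.tan (dA (D i)) (dA_mul (D i)) (fun l => ev (s j) (c.F ζ (b l))) t
        (fun l => x l j) y (lam j) (lam' j) (fun l => ⟨(h.lp.evE_ex _ (h.pt.ne j) _ (by
          have := h.rt1.nil (c.ng (b l)) 1
          rwa [one_smul] at this)).1, h.rt1.der _ (dA_mul (D i)) (hζ i) _ (hs i j) _⟩)
        (fun l => ⟨(hx l j).1, (hx l j).2 i⟩) (hco.2.2.1 j) (hmin j) (hU j) (v k j) (hv1 k j)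
        (u k j) (hu k j) (hv2 k j)
      simp only [dA_apply, ht, ite_mul, zero_mul, Finset.sum_ite_eq, Finset.mem_univ,
        if_true] at h2
      exact h2
    simp only [Matrix.of_apply, Matrix.mul_apply, CD.pp, CD.PP, CD.pair, Finset.mul_sum,
      Finset.sum_mul]
    rw [Finset.sum_comm]
    refine Finset.sum_congr rfl fun j _ => ?_
    rw [mul_left_comm, h1, Finset.mul_sum]
    refine Finset.sum_congr rfl fun l _ => ?_
    ring
  rw [hB, hP, Matrix.det_mul, det_Cm, Finset.prod_div_distrib, Finset.prod_const,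
    Finset.card_univ, Fintype.card_fin, wr, div_pow]
  push_cast
  ring

/-- products of exponentials of elements of negative weight -/
lemma pf_low (h : T3a c ζ s) (z : L) {n : ℕ} (x : Fin n → G L K) (k : ℕ) (hn : ∀ i, Nil (x i))
    (hx : ∀ i, x i ∈ c.Gr z {-1}) (w : G L K) (hw : w ∈ c.Gr z (Iic 1)) :
    pf x k w - w ∈ c.Gr z (Iio 1) := by
  have hle : (c.Gr z (Iio 1) : Submodule K (G L K)) ≤ c.Gr z (Iic 1) :=
    fun v hv i hi => Set.Iio_subset_Iic_self (hv i hi)
  refine h.ex.pf_ind x k (fun g => ∀ w ∈ c.Gr z (Iic 1), g w - w ∈ c.Gr z (Iio 1)) ?_ ?_ ?_ w hw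
  · intro w _
    simp
  · intro g g' hg hg' w hw
    have h1 := hg' w hw
    have h2 := hg (g' w) (by simpa using add_mem (hle h1) hw)
    simpa using add_mem h2 h1
  · intro i _ w hw
    refine (h.ex.stable _ _ (x i) (hn i) hle (fun y hy => ?_) w hw).1
    refine h.gk.gr_lie z _ _ _ _ _ (hx i) hy ?_
    rintro p rfl p' hp'
    have : p' ≤ 1 := hp'
    change -1 + p' < 1
    linarith

lemma pf_in (h : T3a c ζ s) (S : Subring K) (hS : ∀ q : ℚ, (q : K) ∈ S) {n : ℕ}
    (x : Fin n → G L K) (k : ℕ) (hn : ∀ i, Nil (x i)) (hx : ∀ i, c.In0 S (x i)) (w : G L K)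
    (hw : c.In0 S w) : c.In0 S (pf x k w) :=
  h.ex.pf_ind x k (fun g => ∀ w, c.In0 (S : Set K) w → c.In0 (S : Set K) (g w)) (fun _ hw => hw)
    (fun _ _ hg hg' w hw => hg _ (hg' w hw))
    (fun i _ w hw => (h.ex.in_ex S S (x i) w hS (SM.self S) (hn i)).1 (hx i) hw) w hw

lemma horw (h : T3a c ζ s) : S_horw c ζ s := by
  intro O _ _ d D ν lam X e S hν hmin hvol hS hX
  obtain ⟨x, hx⟩ : ∃ x : Fin d → J → G L K, ∀ k j,
    x k j = if (e k).1.1 = j then c.bs K (.inl (c.neg (e k).1.2)) else 0 := ⟨_, fun _ _ => rfl⟩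
  obtain ⟨u, hu⟩ : ∃ u : Fin d → J → G L K, ∀ k j,
    u k j = if (e k).1.1 = j then c.bs K (.inl (e k).1.2) else 0 := ⟨_, fun _ _ => rfl⟩
  have hxn : ∀ k j, Nil (x k j) := fun k j => by
    rw [hx]
    split_ifs
    · have := h.gk.nil_e (1 : K) (c.neg (e k).1.2)
      rwa [one_smul] at this
    · exact h.ex.zero.1
  have hyn : ∀ j k, Nil (X (e k) • x k j) := fun j k => h.ex.nil_smul _ _ (hxn k j)
  have hxg : ∀ j k, X (e k) • x k j ∈ c.Gr (lam j) {-1} := fun j k => by
    refine Submodule.smul_mem _ _ ?_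
    rw [hx]
    split_ifs with h1
    · refine h.gk.gr_bs _ _ _ ?_
      have h2 := (e k).2
      rw [h1] at h2
      change c.al _ _ = -1
      rw [c.al_neg, LinearMap.neg_apply, h2]
    · exact zero_mem _
  have hug : ∀ k j, u k j ∈ c.U1 K (lam j) := fun k j => by
    rw [hu]
    split_ifs with h1
    · refine h.gk.gr_bs _ _ _ ?_
      have h2 := (e k).2
      rw [h1] at h2
      exact h2
    · exact zero_mem _
  have hi0 : c.In0 S (0 : G L K) := fun i => by rw [map_zero]; exact S.zero_mem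
  have hin : ∀ k j, c.In0 S (pf (fun k => X (e k) • x k j) 0 (u k j)) := fun k j => by
    refine pf_in h S hS.rat _ 0 (hyn j) (fun l i => ?_) _ ?_
    · rw [map_smul]
      refine S.mul_mem (hX _) ?_
      rw [hx]
      split_ifs
      · exact h.gk.in_bs S _ i
      · exact hi0 i
    · rw [hu]
      split_ifs
      · exact h.gk.in_bs S _
      · exact hi0
  choose f hf1 hf2 hf3 hf4 using fun k => h.int.int1 c.ρ 0
    (fun j => pf (fun k => X (e k) • x k j) 0 (u k j)) c.fix_ρ
  have hV := hvol x (fun k => X (e k)) lam u f hmin (fun k j => ⟨hxn k j, fun i => by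
      rw [hx]
      split_ifs
      · rw [c.bs_apply]
        exact (h.gk.der_lie _ (dA_mul (D i))).2.2 _
      · exact map_zero _⟩)
    (fun j => by
      simp only [hx]
      rw [← h.cell.prod lam X e j (hmin j)]
      rfl) hug fun k => ⟨hf1 k, by simpa only [zero_add] using hf2 k, hf3 k⟩
  have hP : (Matrix.of fun k l => c.PP s x (fun k => X (e k)) l (u k)) =
      Matrix.diagonal fun k => c.vp s (e k).1.1 * (c.kap (e k).1.2 : K) := by
    ext k l
    rw [Matrix.of_apply, CD.PP, CD.pair, Finset.sum_eq_single (e l).1.1]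
    · have h1 := pf_low h (lam (e l).1.1) _ (l + 1) (hyn _) (hxg _) (u k _)
        fun i hi => (hug k _ i hi).le
      have h2 : c.crd (.inl (e l).1.2) (pf (fun k => X (e k) • x k (e l).1.1) (l + 1)
          (u k (e l).1.1)) = c.crd (.inl (e l).1.2) (u k (e l).1.1) := by
        rw [← sub_eq_zero, ← map_sub]
        by_contra h3
        exact (h1 _ h3).ne (e l).2
      rw [hx l, if_pos rfl, h.gk.kR_e, h2, hu, Matrix.diagonal_apply]
      by_cases h3 : k = l
      · subst h3
        rw [if_pos rfl, if_pos rfl, h.gk.crd_bs, if_pos rfl, Rat.smul_one_eq_cast]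
      · rw [if_neg h3]
        split_ifs with h4
        · rw [h.gk.crd_bs, if_neg, smul_zero, mul_zero]
          exact fun h5 => h3 (e.injective (Subtype.ext (Prod.ext h4 (Sum.inl.inj h5))))
        · rw [map_zero, smul_zero, mul_zero]
    · intro j _ hj
      rw [hx, if_neg hj.symm, map_zero, LinearMap.zero_apply, mul_zero]
    · exact fun h1 => absurd (Finset.mem_univ _) h1
  have hB := det_mem S (Matrix.of fun k l => c.BF s (f k) fun j =>
      pf (fun k => X (e k) • x k j) 0 (u l j)) fun k l => by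
    refine S.sum_mem fun j _ => S.mul_mem (S.pow_mem (h.div.vp_mem S hS j).1 2) ?_
    exact h.gk.in_kR S S _ _ hS.rat (SM.self S) (h.sup.in_ev S S _ _ (SM.self S) (hS.mem j)
      (hS.inv j) (h.sup.in_dd S S _ (SM.self S) (hf4 k S hS (hin k)))) (hin l j)
  rw [hV, hP, Matrix.det_diagonal] at hB
  have hl : (c.ℓ : K) ≠ 0 := by exact_mod_cast c.ℓ_pos.ne'
  have hk : ∀ k, (c.kap (e k).1.2 : K) ≠ 0 := fun k => by exact_mod_cast (h.cd.kap_pos _).ne'
  have hν' : (ν : K) ≠ 0 := by exact_mod_cast hν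
  have h1 : (-(c.ℓ : K) / 2)⁻¹ ∈ S := by simpa using hS.rat (-(c.ℓ : ℚ) / 2)⁻¹
  have h2 : (ν : K)⁻¹ ∈ S := by simpa using hS.rat ν⁻¹
  have h3 : (∏ k, c.vp s (e k).1.1 * (c.kap (e k).1.2 : K))⁻¹ ∈ S := by
    rw [← Finset.prod_inv_distrib]
    refine S.prod_mem fun k _ => ?_
    rw [mul_inv]
    exact S.mul_mem (h.div.vp_mem S hS _).2 (by simpa using hS.rat (c.kap (e k).1.2)⁻¹)
  have h4 : ∏ k, c.vp s (e k).1.1 * (c.kap (e k).1.2 : K) ≠ 0 :=
    Finset.prod_ne_zero_iff.2 fun k _ => mul_ne_zero (h.div.vp_ne _) (hk k)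
  have h5 := S.mul_mem (S.mul_mem (S.mul_mem hB (S.pow_mem h1 d)) h2) (S.pow_mem h3 2)
  have h6 : -(c.ℓ : K) / 2 ≠ 0 := div_ne_zero (neg_ne_zero.2 hl) two_ne_zero
  generalize -(c.ℓ : K) / 2 = A at h5 h6
  generalize ∏ k, c.vp s (e k).1.1 * (c.kap (e k).1.2 : K) = B at h4 h5
  generalize wr D (fun k => X (e k)) ^ 2 = W at h5 ⊢
  have h7 : A ^ d * ν * W * B ^ 2 * A⁻¹ ^ d * (ν : K)⁻¹ * B⁻¹ ^ 2 = W := by
    rw [inv_pow]
    field_simp
  rwa [h7] at h5

end DetA

theorem det (h : T3a c ζ s) (hm : S_main c ζ s) : S_det c ζ s := DetA.det h hm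

theorem horw (h : T3a c ζ s) : S_horw c ζ s := DetA.horw h

end Pool.Agent.P.MP_e7d440_ag.U
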