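import Pool.Agent.P.MP_e7d440_ag.U.Iface3

/-! Diagonal entries of torus elements. -/

namespace Pool.Agent.P.MP_e7d440_ag.U

open TensorProduct LieAlgebra LaurentPolynomial Set

variable {L Φ Δ : Type} [LieRing L] [LieAlgebra ℚ L] [Fintype Φ] [Fintype Δ] [DecidableEq Φ]
  [DecidableEq Δ] (c : CD L Φ Δ) {K : Type} [Field K] [CharZero K] (ζ : K)
  {J : Type} [Fintype J] [DecidableEq J] (s : J → K)

namespace DgpA

section LP

omit [CharZero K]

lemma cmul (p q : LP K) (n : ℤ) :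
    (p * q).coeff n = ∑ m ∈ p.coeff.support, p.coeff m * q.coeff (-m + n) :=
  AddMonoidAlgebra.coeff_mul_apply_left p q n

lemma cmul_ne {p q : LP K} {n : ℤ} (h : (p * q).coeff n ≠ 0) :
    ∃ m, p.coeff m ≠ 0 ∧ q.coeff (-m + n) ≠ 0 := by
  rw [cmul] at h
  obtain ⟨m, -, hm⟩ := Finset.exists_ne_zero_of_sum_ne_zero h
  exact ⟨m, mul_ne_zero_iff.1 hm⟩

lemma cmul_one {p q : LP K} {a b : ℤ}
    (h : ∀ m, p.coeff m ≠ 0 → q.coeff (-m + (a + b)) ≠ 0 → m = a) :
    (p * q).coeff (a + b) = p.coeff a * q.coeff b := by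
  rw [cmul, Finset.sum_eq_single a, neg_add_cancel_left]
  · intro m _ hm
    by_contra h0
    exact hm (h m (mul_ne_zero_iff.1 h0).1 (mul_ne_zero_iff.1 h0).2)
  · intro ha
    rw [Finsupp.notMem_support_iff.1 ha, zero_mul]

/-- top degree and top coefficient -/
def HT (p : LP K) (D : ℤ) (u : K) : Prop := (∀ n, p.coeff n ≠ 0 → n ≤ D) ∧ p.coeff D = u

/-- bottom degree and bottom coefficient -/
def LT (p : LP K) (D : ℤ) (u : K) : Prop := (∀ n, p.coeff n ≠ 0 → D ≤ n) ∧ p.coeff D = u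

lemma HT.mul {p q : LP K} {a b : ℤ} {u v : K} (hp : HT p a u) (hq : HT q b v) :
    HT (p * q) (a + b) (u * v) := by
  refine ⟨fun n hn => ?_, ?_⟩
  · obtain ⟨m, h1, h2⟩ := cmul_ne hn
    have := hp.1 _ h1
    have := hq.1 _ h2
    omega
  · rw [cmul_one, hp.2, hq.2]
    intro m h1 h2
    have := hp.1 _ h1
    have := hq.1 _ h2
    omega

lemma LT.mul {p q : LP K} {a b : ℤ} {u v : K} (hp : LT p a u) (hq : LT q b v) :
    LT (p * q) (a + b) (u * v) := by
  refine ⟨fun n hn => ?_, ?_⟩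
  · obtain ⟨m, h1, h2⟩ := cmul_ne hn
    have := hp.1 _ h1
    have := hq.1 _ h2
    omega
  · rw [cmul_one, hp.2, hq.2]
    intro m h1 h2
    have := hp.1 _ h1
    have := hq.1 _ h2
    omega

lemma coeff_one (n : ℤ) : (1 : LP K).coeff n = if 0 = n then 1 else 0 := by
  rw [← T_zero, T_apply]

lemma ht_one : HT (1 : LP K) 0 1 :=
  ⟨fun n hn => by rw [coeff_one] at hn; split_ifs at hn with h; exacts [h.ge, absurd rfl hn],
    by rw [coeff_one, if_pos rfl]⟩

lemma lt_one : LT (1 : LP K) 0 1 :=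
  ⟨fun n hn => by rw [coeff_one] at hn; split_ifs at hn with h; exacts [h.le, absurd rfl hn],
    by rw [coeff_one, if_pos rfl]⟩

lemma HT.prod {ι : Type} (t : Finset ι) {p : ι → LP K} {a : ι → ℤ} {u : ι → K}
    (h : ∀ i ∈ t, HT (p i) (a i) (u i)) : HT (∏ i ∈ t, p i) (∑ i ∈ t, a i) (∏ i ∈ t, u i) := by
  classical
  induction t using Finset.induction_on with
  | empty => simpa using ht_one
  | insert i t hi ih =>
    rw [Finset.prod_insert hi, Finset.sum_insert hi, Finset.prod_insert hi]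
    exact (h i (Finset.mem_insert_self _ _)).mul
      (ih fun j hj => h j (Finset.mem_insert_of_mem hj))

lemma LT.prod {ι : Type} (t : Finset ι) {p : ι → LP K} {u : ι → K}
    (h : ∀ i ∈ t, LT (p i) 0 (u i)) : LT (∏ i ∈ t, p i) 0 (∏ i ∈ t, u i) := by
  classical
  induction t using Finset.induction_on with
  | empty => simpa using lt_one
  | insert i t hi ih =>
    rw [Finset.prod_insert hi, Finset.prod_insert hi]
    exact (h i (Finset.mem_insert_self _ _)).mul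
      (ih fun j hj => h j (Finset.mem_insert_of_mem hj))

lemma HT.pow {p : LP K} {u : K} (h : HT p 1 u) (e : ℕ) : HT (p ^ e) e (u ^ e) := by
  induction e with
  | zero => simpa using ht_one
  | succ e ih => rw [pow_succ, pow_succ, Nat.cast_succ]; exact ih.mul h

lemma LT.pow {p : LP K} {u : K} (h : LT p 0 u) (e : ℕ) : LT (p ^ e) 0 (u ^ e) := by
  induction e with
  | zero => simpa using lt_one
  | succ e ih => rw [pow_succ, pow_succ]; exact ih.mul h

lemma coeff_CT (a : K) (n m : ℤ) : (C a * T n : LP K).coeff m = if n = m then a else 0 := by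
  rw [← single_eq_C_mul_T, AddMonoidAlgebra.coeff_single, Finsupp.single_apply]

lemma coeff_lin (a b : K) (m : ℤ) : (C a * T 1 - C b : LP K).coeff m =
    (if 1 = m then a else 0) - if m = 0 then b else 0 := by
  rw [AddMonoidAlgebra.coeff_sub, Finsupp.sub_apply, coeff_CT, C_apply]

lemma ht_lin (a b : K) : HT (C a * T 1 - C b : LP K) 1 a := by
  refine ⟨fun n hn => ?_, by rw [coeff_lin]; simp⟩
  by_contra h
  rw [coeff_lin, if_neg (by omega), if_neg (by omega), sub_zero] at hn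
  exact hn rfl

lemma lt_lin (a b : K) : LT (C a * T 1 - C b : LP K) 0 (-b) := by
  refine ⟨fun n hn => ?_, by rw [coeff_lin]; simp⟩
  by_contra h
  rw [coeff_lin, if_neg (by omega), if_neg (by omega), sub_zero] at hn
  exact hn rfl

lemma prod_CT {ι : Type} (t : Finset ι) (u : ι → K) (d : ι → ℤ) :
    ∏ i ∈ t, (C (u i) * T (d i) : LP K) = C (∏ i ∈ t, u i) * T (∑ i ∈ t, d i) := by
  classical
  induction t using Finset.induction_on with
  | empty => simp
  | insert i t hi ih =>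
    rw [Finset.prod_insert hi, Finset.sum_insert hi, Finset.prod_insert hi, ih, map_mul, T_add,
      mul_mul_mul_comm]

lemma zpow_sum {ι : Type} {a : K} (ha : a ≠ 0) (t : Finset ι) (d : ι → ℤ) :
    a ^ (∑ i ∈ t, d i) = ∏ i ∈ t, a ^ d i := by
  classical
  induction t using Finset.induction_on with
  | empty => simp
  | insert i t hi ih => rw [Finset.prod_insert hi, Finset.sum_insert hi, zpow_add₀ ha, ih]

/-- the substitution of `a * T` for `T` -/
noncomputable def rot {a : K} (ha : a ≠ 0) : LP K →+* LP K :=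
  eval₂ C (Units.map (C : K →+* LP K).toMonoidHom (Units.mk0 a ha) * (isUnit_T 1).unit)

lemma rot_C {a : K} (ha : a ≠ 0) (b : K) : rot ha (C b) = C b := eval₂_C _ _ b

lemma rot_T {a : K} (ha : a ≠ 0) (n : ℤ) : rot ha (T n) = C (a ^ n) * T n := by
  have h1 : ∀ n : ℤ, (((isUnit_T 1).unit ^ n : (LP K)ˣ) : LP K) = T n := fun n => by
    induction n using Int.induction_on with
    | zero => simp
    | succ n ih => rw [zpow_add_one, Units.val_mul, ih, IsUnit.unit_spec, ← T_add]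
    | pred n ih =>
      rw [zpow_sub_one, Units.val_mul, ih, Units.mul_inv_eq_iff_eq_mul, IsUnit.unit_spec, ← T_add,
        sub_add_cancel]
  rw [rot, eval₂_T, mul_zpow, Units.val_mul, h1, ← map_zpow, Units.coe_map, Units.val_zpow_eq_zpow_val]
  rfl

lemma rot_coeff {a : K} (ha : a ≠ 0) (p : LP K) (n : ℤ) :
    (rot ha p).coeff n = a ^ n * p.coeff n := by
  induction p using LaurentPolynomial.induction_on' with
  | add p q hp hq =>
    rw [map_add, AddMonoidAlgebra.coeff_add, AddMonoidAlgebra.coeff_add, Finsupp.add_apply,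
      Finsupp.add_apply, hp, hq, mul_add]
  | C_mul_T m b =>
    rw [map_mul, rot_C, rot_T, ← mul_assoc, ← map_mul, coeff_CT, coeff_CT]
    split_ifs with h
    · rw [h, mul_comm]
    · rw [mul_zero]

lemma cyc {M : Type} [CommMonoid M] (G : ℕ → M) {l : ℕ} (hl : 0 < l) (h : G l = G 0) :
    ∏ k ∈ Finset.range l, G (k + 1) = ∏ k ∈ Finset.range l, G k := by
  obtain ⟨m, rfl⟩ : ∃ m, l = m + 1 := ⟨l - 1, by omega⟩
  rw [Finset.prod_range_succ, Finset.prod_range_succ' G, h]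

lemma cong_mul {R : Type} [CommRing R] {S : Subring R} {M : Set R} (h : SM S M) {a b a' b' : R}
    (ha : a ∈ S) (hb' : b' ∈ S) (h1 : a - a' ∈ M) (h2 : b - b' ∈ M) : a * b - a' * b' ∈ M := by
  have : a * b - a' * b' = a * (b - b') + b' * (a - a') := by ring
  rw [this]
  exact h.add _ (h.mul _ ha _ h2) _ (h.mul _ hb' _ h1)

lemma cong_prod {R ι : Type} [CommRing R] {S : Subring R} {M : Set R} (h : SM S M) (t : Finset ι)
    {a b : ι → R} (ha : ∀ i ∈ t, a i ∈ S) (hb : ∀ i ∈ t, b i ∈ S) (h1 : ∀ i ∈ t, a i - b i ∈ M) :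
    ∏ i ∈ t, a i - ∏ i ∈ t, b i ∈ M := by
  classical
  induction t using Finset.induction_on with
  | empty => simpa using h.zero
  | insert i t hi ih =>
    rw [Finset.prod_insert hi, Finset.prod_insert hi]
    exact cong_mul h (ha i (Finset.mem_insert_self _ _))
      (S.prod_mem fun j hj => hb j (Finset.mem_insert_of_mem hj))
      (h1 i (Finset.mem_insert_self _ _))
      (ih (fun j hj => ha j (Finset.mem_insert_of_mem hj))
        (fun j hj => hb j (Finset.mem_insert_of_mem hj))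
        fun j hj => h1 j (Finset.mem_insert_of_mem hj))

lemma cong_pow {R : Type} [CommRing R] {S : Subring R} {M : Set R} (h : SM S M) {a b : R}
    (ha : a ∈ S) (hb : b ∈ S) (h1 : a - b ∈ M) (e : ℕ) : a ^ e - b ^ e ∈ M := by
  have := cong_prod h (Finset.range e) (a := fun _ => a) (b := fun _ => b) (fun _ _ => ha)
    (fun _ _ => hb) fun _ _ => h1
  simpa using this

lemma cop {a b : K} (h : a ≠ b) : IsCoprime (T 1 - C a : LP K) (T 1 - C b) := by
  refine ⟨C (b - a)⁻¹, -C (b - a)⁻¹, ?_⟩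
  have : (C (b - a)⁻¹ * (T 1 - C a) + -C (b - a)⁻¹ * (T 1 - C b) : LP K) =
      C ((b - a)⁻¹ * (b - a)) := by
    rw [map_mul, map_sub]; ring
  rw [this, inv_mul_cancel₀ (sub_ne_zero.2 h.symm), map_one]

lemma low (p q : LP K) (m : ℚ) (h1 : ∀ n < 0, p.coeff n = 0) (h2 : p.coeff 0 ≠ 0) :
    (∀ n, (p * q).coeff n ≠ 0 → m ≤ n) ↔ ∀ n, q.coeff n ≠ 0 → m ≤ n := by
  have hp : LT p 0 (p.coeff 0) := ⟨fun n hn => not_lt.1 fun h => hn (h1 n h), rfl⟩
  refine ⟨fun h n hn => ?_, fun h n hn => ?_⟩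
  · obtain ⟨n0, h3, h4⟩ := q.coeff.support.exists_min_image id ⟨n, Finsupp.mem_support_iff.2 hn⟩
    have hq : LT q n0 (q.coeff n0) := ⟨fun k hk => h4 k (Finsupp.mem_support_iff.2 hk), rfl⟩
    have h5 := h (0 + n0) (by
      rw [(hp.mul hq).2]; exact mul_ne_zero h2 (Finsupp.mem_support_iff.1 h3))
    rw [zero_add] at h5
    exact h5.trans (Int.cast_le.2 (hq.1 n hn))
  · obtain ⟨k, h3, h4⟩ := cmul_ne hn
    have h5 := hp.1 k h3
    exact (h _ h4).trans (Int.cast_le.2 (by omega))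

lemma high (p q : LP K) (D : ℤ) (m : ℚ) (h1 : ∀ n > D, p.coeff n = 0) (h2 : p.coeff D ≠ 0) :
    (∀ n, (p * q).coeff n ≠ 0 → n ≤ m + D) ↔ ∀ n, q.coeff n ≠ 0 → n ≤ m := by
  have hp : HT p D (p.coeff D) := ⟨fun n hn => not_lt.1 fun h => hn (h1 n h), rfl⟩
  refine ⟨fun h n hn => ?_, fun h n hn => ?_⟩
  · obtain ⟨n0, h3, h4⟩ := q.coeff.support.exists_max_image id ⟨n, Finsupp.mem_support_iff.2 hn⟩
    have hq : HT q n0 (q.coeff n0) := ⟨fun k hk => h4 k (Finsupp.mem_support_iff.2 hk), rfl⟩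
    have h5 := h (D + n0) (by
      rw [(hp.mul hq).2]; exact mul_ne_zero h2 (Finsupp.mem_support_iff.1 h3))
    have h6 : (n : ℚ) ≤ n0 := Int.cast_le.2 (hq.1 n hn)
    push_cast at h5
    linarith
  · obtain ⟨k, h3, h4⟩ := cmul_ne hn
    have h5 : (k : ℚ) ≤ D := Int.cast_le.2 (hp.1 k h3)
    have h6 := h _ h4
    push_cast at h6
    linarith

lemma gauss (S : Subring K) (M : Set K) (p q : LP K) (D : ℤ) (hM : SM S M)
    (h1 : ∀ n, p.coeff n ∈ S) (h2 : ∀ n > D, p.coeff n = 0) (h3 : p.coeff D ≠ 0)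
    (h4 : (p.coeff D)⁻¹ ∈ S) (h5 : ∀ n, (p * q).coeff n ∈ M) (n : ℤ) : q.coeff n ∈ M := by
  classical
  by_contra hn
  have hs : ∀ k, q.coeff k ∉ M → k ∈ q.coeff.support.filter fun k => q.coeff k ∉ M :=
    fun k hk => Finset.mem_filter.2 ⟨Finsupp.mem_support_iff.2 fun h0 => hk (h0 ▸ hM.zero), hk⟩
  obtain ⟨n0, h6, h7⟩ := Finset.exists_max_image _ id ⟨n, hs n hn⟩
  have h8 := h5 (D + n0)
  rw [cmul, ← Finset.add_sum_erase _ _ (Finsupp.mem_support_iff.2 h3), neg_add_cancel_left] at h8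
  have h9 : ∑ m ∈ p.coeff.support.erase D, p.coeff m * q.coeff (-m + (D + n0)) ∈ M := by
    refine hM.sum _ _ fun m hm => hM.mul _ (h1 m) _ ?_
    by_contra h10
    have h11 : -m + (D + n0) ≤ n0 := h7 _ (hs _ h10)
    obtain ⟨h12, h13⟩ := Finset.mem_erase.1 hm
    exact Finsupp.mem_support_iff.1 h13 (h2 m (by omega))
  have h10 := hM.mul _ h4 _ (hM.sub h8 h9)
  rw [add_sub_cancel_right, inv_mul_cancel_left₀ h3] at h10
  exact (Finset.mem_filter.1 h6).2 h10

end LP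

section ev

omit [Fintype Φ] [Fintype Δ] [DecidableEq Φ] [DecidableEq Δ]

variable {c} (h : S_lp c K) {a : K} (ha : a ≠ 0)
include h

lemma ddL_C (b : K) : ddL (C b : LP K) = 0 := LaurentPolynomial.ext fun m => by
  rw [h.ddL_coeff, C_apply]
  split_ifs with h0
  · rw [h0]; simp
  · simp

lemma ev_lin : evL a (T 1 - C a) = 0 := by rw [map_sub, evL_T, h.evL_C, zpow_one, sub_self]

include ha

lemma dvd1 {q : LP K} (hq : evL a q = 0) : (T 1 - C a : LP K) ∣ q := by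
  obtain ⟨f, hf, -⟩ := h.evL_hom a ha
  obtain ⟨n, q0, h0⟩ := exists_T_pow q
  have h1 : f.comp Polynomial.toLaurent = Polynomial.evalRingHom a :=
    Polynomial.ringHom_ext (fun b => by simp [hf, h.evL_C]) (by simp [hf])
  have h2 : q0.IsRoot a := by
    have := RingHom.congr_fun h1 q0
    rw [RingHom.comp_apply, h0, map_mul, hf, hq, zero_mul] at this
    exact this.symm
  have h3 := map_dvd Polynomial.toLaurent (Polynomial.dvd_iff_isRoot.2 h2)
  rw [map_sub, Polynomial.toLaurent_X, Polynomial.toLaurent_C, h0] at h3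
  exact (isUnit_T (n : ℤ)).dvd_mul_right.1 h3

lemma dvd2 {q : LP K} (hq : evL a q = 0) (hq' : evL a (ddL q) = 0) :
    (T 1 - C a : LP K) ^ 2 ∣ q := by
  obtain ⟨r, rfl⟩ := dvd1 h ha hq
  rw [h.ddL_mul, map_add, h.evL_mul a ha, h.evL_mul a ha, ev_lin h, zero_mul, zero_add, map_sub,
    ddL_C h, sub_zero, ddL_T, map_smul, evL_T, Int.cast_one, one_smul, zpow_one] at hq'
  rw [pow_two]
  exact mul_dvd_mul_left _ (dvd1 h ha ((mul_eq_zero.1 hq').resolve_right ha))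

lemma van1 {q : LP K} (hq : (T 1 - C a : LP K) ∣ q) : evL a q = 0 := by
  obtain ⟨r, rfl⟩ := hq
  rw [h.evL_mul a ha, ev_lin h, zero_mul]

lemma van2 {q : LP K} (hq : (T 1 - C a : LP K) ^ 2 ∣ q) : evL a (ddL q) = 0 := by
  obtain ⟨r, rfl⟩ := hq
  rw [pow_two, mul_assoc, h.ddL_mul]
  exact van1 h ha (dvd_add (dvd_mul_right _ _) ((dvd_mul_right _ _).mul_right _))

end ev

variable {c ζ}

omit [Fintype Φ] [Fintype Δ] [DecidableEq Φ] [DecidableEq Δ] [CharZero K] [DecidableEq J] in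
lemma ht_dgp (hζ : ζ ≠ 0) (s' : J → K) (ε : ℚ → ℕ) (lam : J → L) (i : Φ ⊕ Δ) :
    HT (c.dgp ζ s' ε lam i) (c.dgD ε lam i) (ζ ^ (∑ j, ∑ k ∈ Finset.range c.ℓ,
      -(k : ℤ) * ε (c.wt0 (lam j) (Sum.map (c.ς ^ k) id i)))) := by
  rw [CD.dgp, CD.dgD, zpow_sum hζ, Nat.cast_sum]
  refine HT.prod _ fun j _ => ?_
  rw [zpow_sum hζ, Nat.cast_sum]
  refine HT.prod _ fun k _ => ?_
  rw [zpow_mul, zpow_natCast]
  exact (ht_lin _ _).pow _

omit [Fintype Φ] [Fintype Δ] [DecidableEq Φ] [DecidableEq Δ] [CharZero K] [DecidableEq J] in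
lemma lt_dgp (s' : J → K) (ε : ℚ → ℕ) (lam : J → L) (i : Φ ⊕ Δ) :
    LT (c.dgp ζ s' ε lam i) 0 (∏ j, ∏ k ∈ Finset.range c.ℓ,
      (-s' j) ^ ε (c.wt0 (lam j) (Sum.map (c.ς ^ k) id i))) :=
  LT.prod _ fun _ _ => LT.prod _ fun _ _ => (lt_lin _ _).pow _

omit [DecidableEq J] [Fintype Φ] [DecidableEq Δ] [CharZero K] in
lemma rot_dgp (h : S_cd c) (hζ : ζ ≠ 0) (h1 : ζ ^ c.ℓ = 1) (s' : J → K) (ε : ℚ → ℕ) (lam : J → L)
    (i : Φ ⊕ Δ) : c.dgp ζ s' ε lam (Sum.map c.ς id i) = rot hζ (c.dgp ζ s' ε lam i) := by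
  rw [CD.dgp, CD.dgp, map_prod]
  refine Finset.prod_congr rfl fun j _ => ?_
  rw [map_prod]
  have := cyc (fun k : ℕ => (C (ζ ^ (1 - (k : ℤ))) * T 1 - C (s' j) : LP K) ^
    ε (c.wt0 (lam j) (Sum.map (c.ς ^ k) id i))) c.ℓ_pos (by
      rw [h.ς_pow, pow_zero, zpow_sub₀ hζ, zpow_sub₀ hζ, zpow_natCast, h1, Nat.cast_zero, zpow_zero])
  convert this using 2 with k _ k _
  · congr 3
    · congr 2
      push_cast
      ring
    · rcases i with α | i
      · simp [pow_succ]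
      · rfl
  · rw [map_pow, map_sub, map_mul, rot_C, rot_C, rot_T, ← mul_assoc, ← map_mul, ← zpow_add₀ hζ,
      neg_add_eq_sub]

omit [Fintype Φ] [Fintype Δ] [DecidableEq Φ] [DecidableEq Δ] in
lemma cf_sg (m : ℤ) (f : LG L K) : c.sg K (cf m f) = cf m (c.sg (LP K) f) := by
  induction f using TensorProduct.induction_on with
  | zero => simp
  | add x y hx hy => simp only [map_add, hx, hy]
  | tmul p x => rw [cf_tmul, c.sg_tmul, c.sg_tmul, cf_tmul]

omit [Fintype Φ] [Fintype Δ] [DecidableEq Φ] [DecidableEq Δ] in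
lemma eqv_iff (hζ : ζ ≠ 0) (f : LG L K) : f ∈ c.Eqv ζ ↔
    ∀ i, rot hζ (c.crd (Sum.map c.ς id i) (c.sg (LP K) f)) = c.crd (Sum.map c.ς id i) f := by
  have hs : Function.Surjective (Sum.map c.ς id : Φ ⊕ Δ → Φ ⊕ Δ) :=
    c.ς.surjective.sumMap Function.surjective_id
  rw [c.mem_Eqv, ← hs.forall (p := fun i => rot hζ (c.crd i (c.sg (LP K) f)) = c.crd i f)]
  constructor
  · intro h i
    refine LaurentPolynomial.ext fun m => ?_
    have h1 := congrArg (c.crd i) (h m)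
    rw [cf_sg, map_smul, c.co_cf, c.co_cf, c.co_eq, c.co_eq, smul_eq_mul] at h1
    rw [rot_coeff, h1, ← mul_assoc, ← zpow_add₀ hζ, add_neg_cancel, zpow_zero, one_mul]
  · intro h m
    refine c.ext0 fun i => ?_
    rw [cf_sg, map_smul, c.co_cf, c.co_cf, c.co_eq, c.co_eq, smul_eq_mul, ← h i, rot_coeff,
      ← mul_assoc, ← zpow_add₀ hζ, neg_add_cancel, zpow_zero, one_mul]

lemma sg_diag (h : S_gk c) {R : Type} [CommRing R] [Algebra ℚ R] (p : Φ ⊕ Δ → R)
    (hp : ∀ i i', p (.inr i) = p (.inr i')) (f : G L R) (i : Φ ⊕ Δ) :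
    c.crd (Sum.map c.ς id i) (c.sg R (c.diag p f)) =
      p i * c.crd (Sum.map c.ς id i) (c.sg R f) := by
  rcases i with α | i
  · obtain ⟨e, -, -, h1⟩ := h.crd_sg α
    rw [Sum.map_inl, h1, h1, c.crd_diag, mul_smul_comm]
  · have := h.crd_sg_inr (c.diag p f - p (.inr i) • f) (fun i' => by
      rw [map_sub, c.crd_diag, map_smul, smul_eq_mul, hp i i', sub_self]) i
    rw [map_sub, map_sub, map_smul, map_smul, smul_eq_mul, sub_eq_zero] at this
    exact this

omit [CharZero K] in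
lemma lin_eq (hζ : ζ ≠ 0) (k : ℕ) (b : K) : (C (ζ ^ (-(k : ℤ))) * T 1 - C b : LP K) =
    C (ζ ^ (-(k : ℤ))) * (T 1 - C (ζ ^ k * b)) := by
  rw [mul_sub, ← map_mul, ← mul_assoc, zpow_neg, zpow_natCast, inv_mul_cancel₀ (pow_ne_zero _ hζ),
    one_mul]

end DgpA

open DgpA in
theorem dgp (h : T2 c ζ) (hp : c.Pt ζ s) : S_dgp c ζ s := by
  have hζ : ζ ≠ 0 := hp.prim.ne_zero c.ℓ_pos.ne'
  have hu : ∀ k : ℤ, IsUnit (C (ζ ^ k) : LP K) := fun k =>
    (IsUnit.mk0 _ (zpow_ne_zero k hζ)).map C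
  have hinr : ∀ (s' : J → K) ε lam i i',
      c.dgp ζ s' ε lam (.inr i) = c.dgp ζ s' ε lam (.inr i') := fun _ _ _ _ _ => rfl
  have hC : ∀ {M : Set K} {M' : Set (LP K)}, 0 ∈ M → (∀ p, p ∈ M' ↔ ∀ n, p.coeff n ∈ M) →
      ∀ b ∈ M, C b ∈ M' := fun h0 hM b hb => (hM _).2 fun n => by
    rw [C_apply]; split_ifs; exacts [hb, h0]
  have hlin : ∀ {S : Subring K} {S' : Subring (LP K)}, c.SD ζ S →
      (∀ p, p ∈ S' ↔ ∀ n, p.coeff n ∈ S) → ∀ (k : ℤ), ∀ b ∈ S, C (ζ ^ k) * T 1 - C b ∈ S' :=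
    fun {S S'} hS hS' k b hb => S'.sub_mem ((hS' _).2 fun n => by
      rw [coeff_CT]; split_ifs; exacts [h.eqv.zpow_mem S hS k, S.zero_mem])
      (hC (M := S) (M' := S') S.zero_mem hS' b hb)
  refine ⟨fun s' ε lam i n hn => ⟨(lt_dgp s' ε lam i).1 n hn, (ht_dgp hζ s' ε lam i).1 n hn⟩,
    fun ε lam i => ⟨_, ?_, fun s' => (ht_dgp hζ s' ε lam i).2⟩, fun ε lam i => ?_,
    fun S s' hS hs ε lam i => ?_, fun S M hS hM hMS hs ε lam i => ?_,
    fun s' ε lam i n => by rw [rot_dgp h.cd hζ hp.prim.pow_eq_one, rot_coeff], hinr,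
    fun s' ε lam f => ?_, fun s' lam i => ?_, fun ε lam i j q => ?_, fun ε lam i q hq => ?_,
    low, high, gauss⟩
  · rw [CD.dgp, CD.dgD, zpow_sum hζ, Nat.cast_sum, ← prod_CT]
    refine Finset.prod_congr rfl fun j _ => ?_
    rw [zpow_sum hζ, Nat.cast_sum, ← prod_CT]
    refine Finset.prod_congr rfl fun k _ => ?_
    rw [Pi.zero_apply, map_zero, sub_zero, mul_pow, T_pow, mul_one, zpow_mul, zpow_natCast,
      map_pow]
  · rw [(lt_dgp s ε lam i).2]
    exact Finset.prod_ne_zero_iff.2 fun j _ => Finset.prod_ne_zero_iff.2 fun k _ =>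
      pow_ne_zero _ (neg_ne_zero.2 (hp.ne j))
  · obtain ⟨S', -, -, hS', -⟩ := h.sup.in_lift S S (SM.self S)
    exact (hS' _).1 (S'.prod_mem fun j _ => S'.prod_mem fun k _ =>
      S'.pow_mem (hlin hS hS' _ _ (hs j)) _)
  · obtain ⟨S', M', hSM, hS', hM', -⟩ := h.sup.in_lift S M hM
    refine (hM' _).1 (cong_prod hSM _ (fun j _ => S'.prod_mem fun k _ =>
      S'.pow_mem (hlin hS hS' _ _ (hMS (hs j))) _) (fun j _ => S'.prod_mem fun k _ =>
      S'.pow_mem (hlin hS hS' _ _ S.zero_mem) _) fun j _ => cong_prod hSM _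
        (fun k _ => S'.pow_mem (hlin hS hS' _ _ (hMS (hs j))) _)
        (fun k _ => S'.pow_mem (hlin hS hS' _ _ S.zero_mem) _) fun k _ =>
          cong_pow hSM (hlin hS hS' _ _ (hMS (hs j))) (hlin hS hS' _ _ S.zero_mem) ?_ _)
    rw [map_zero, sub_zero, sub_sub_cancel_left]
    exact hSM.neg (hC hM.zero hM' _ (hs j))
  · rw [eqv_iff hζ, eqv_iff hζ]
    refine forall_congr' fun i => ?_
    have h0 : c.dgp ζ s' ε lam (Sum.map c.ς id i) ≠ 0 := fun h0 => by
      have := (ht_dgp (c := c) hζ s' ε lam (Sum.map c.ς id i)).2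
      exact zpow_ne_zero _ hζ (this.symm.trans (by rw [h0]; rfl))
    rw [sg_diag h.gk _ (hinr s' ε lam), map_mul, ← rot_dgp h.cd hζ hp.prim.pow_eq_one, c.crd_diag,
      mul_right_inj' h0]
  · rw [CD.dgp, CD.phi, map_prod, ← Finset.prod_mul_distrib]
    refine Finset.prod_congr rfl fun j _ => ?_
    have := congrArg Polynomial.toLaurent
      (X_pow_sub_C_eq_prod hp.prim c.ℓ_pos (rfl : s' j ^ c.ℓ = _))
    rw [map_sub, Polynomial.toLaurent_X_pow, Polynomial.toLaurent_C, map_prod] at this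
    rw [this, map_prod, ← Finset.prod_mul_distrib]
    refine Finset.prod_congr rfl fun k _ => ?_
    rw [pow_one, lin_eq hζ, ← mul_assoc, ← map_mul, zpow_neg, zpow_natCast,
      mul_inv_cancel₀ (pow_ne_zero _ hζ), map_one, one_mul, map_sub, Polynomial.toLaurent_X,
      Polynomial.toLaurent_C]
  · have h1 : (T 1 - C (s j) : LP K) ^ ε (c.wt0 (lam j) i) ∣ c.dgp ζ s ε lam i * q := by
      refine Dvd.dvd.mul_right (dvd_trans ?_ (Finset.dvd_prod_of_mem _ (Finset.mem_univ j))) q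
      refine dvd_trans (dvd_of_eq ?_) (Finset.dvd_prod_of_mem _ (Finset.mem_range.2 c.ℓ_pos))
      rcases i with α | i <;> simp
    exact ⟨fun h2 => van1 h.lp (hp.ne j) ((dvd_pow_self _ (by omega)).trans h1),
      fun h2 => van2 h.lp (hp.ne j) ((pow_dvd_pow _ h2).trans h1)⟩
  · rw [CD.dgp, ← Finset.prod_product']
    refine Finset.prod_dvd_of_coprime (fun a ha b hb hab => ?_) fun a _ => ?_
    · refine IsCoprime.pow ?_
      rw [lin_eq hζ, lin_eq hζ, isCoprime_mul_unit_left_left (hu _),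
        isCoprime_mul_unit_left_right (hu _)]
      refine cop fun h1 => hab ?_
      have h2 : a.1 = b.1 := hp.inj (by
        have := congrArg (· ^ c.ℓ) h1
        simpa only [mul_pow, pow_right_comm ζ _ c.ℓ, hp.prim.pow_eq_one, one_pow, one_mul]
          using this)
      rw [h2, mul_left_inj' (hp.ne _)] at h1
      exact Prod.ext h2 (hp.prim.pow_inj (Finset.mem_range.1 (Finset.mem_product.1 ha).2)
        (Finset.mem_range.1 (Finset.mem_product.1 hb).2) h1)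
    · have ha : ζ ^ a.2 * s a.1 ≠ 0 := mul_ne_zero (pow_ne_zero _ hζ) (hp.ne _)
      obtain ⟨h1, h2, h3⟩ := hq a.1 a.2
      rw [lin_eq hζ, mul_pow, ((hu _).pow _).mul_left_dvd]
      generalize ε (c.wt0 (lam a.1) (Sum.map (c.ς ^ a.2) id i)) = e at h1 h2 h3
      interval_cases e
      · rw [pow_zero]; exact one_dvd _
      · rw [pow_one]; exact dvd1 h.lp ha (h2 le_rfl)
      · exact dvd2 h.lp ha (h2 one_le_two) (h3 le_rfl)

end Pool.Agent.P.MP_e7d440_ag.U
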