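import Pool.Agent.P.MP_e7d440_ag.U.Iface3

/-! Division by powers of `φ`. -/

namespace Pool.Agent.P.MP_e7d440_ag.U

open TensorProduct LieAlgebra LaurentPolynomial Set

variable {L Φ Δ : Type} [LieRing L] [LieAlgebra ℚ L] [Fintype Φ] [Fintype Δ] [DecidableEq Φ]
  [DecidableEq Δ] {c : CD L Φ Δ} {K : Type} [Field K] [CharZero K] {ζ : K}
  {J : Type} [Fintype J] [DecidableEq J] {s : J → K}

namespace DivA

omit [CharZero K] in
lemma coeff_nat (P : Polynomial K) (n : ℕ) : P.toLaurent.coeff n = P.coeff n :=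
  Finsupp.mapDomain_apply Nat.cast_injective _ n

omit [Fintype Φ] [Fintype Δ] [DecidableEq Φ] [DecidableEq Δ] [CharZero K] in
lemma mon_of {P : Polynomial K} (hP : P.Monic) :
    c.Mon (Polynomial.expand K c.ℓ P).toLaurent (c.ℓ * P.natDegree) := by
  have e : c.ℓ * P.natDegree = (Polynomial.expand K c.ℓ P).natDegree := by
    rw [Polynomial.natDegree_expand, mul_comm]
  refine ⟨fun n hn => ?_, by rw [coeff_nat, e]; exact hP.expand c.ℓ_pos⟩
  rw [← Finsupp.mem_support_iff, support_coeff_toLaurent] at hn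
  obtain ⟨m, hm, rfl⟩ := Finset.mem_map.1 hn
  refine ⟨Nat.cast_nonneg m, Nat.cast_le.2 (e ▸ Polynomial.le_natDegree_of_mem_supp m hm),
    Int.natCast_dvd_natCast.2 (by_contra fun a => Polynomial.mem_support_iff.1 hm ?_)⟩
  rw [Polynomial.coeff_expand c.ℓ_pos, if_neg a]

omit [Fintype Φ] [Fintype Δ] [DecidableEq Φ] [DecidableEq Δ] [CharZero K] [DecidableEq J] in
lemma phi_eq : c.phi s = (Polynomial.expand K c.ℓ
    (∏ j, (Polynomial.X - Polynomial.C (s j ^ c.ℓ)))).toLaurent := by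
  simp [CD.phi, map_prod, -map_pow, Polynomial.toLaurent_X_pow]

omit [Fintype Φ] [Fintype Δ] [DecidableEq Φ] [DecidableEq Δ] [CharZero K] [DecidableEq J] in
lemma mon (e : ℕ) : c.Mon (c.phi s ^ e) (e * c.dg J) := by
  have := mon_of (c := c) ((Polynomial.monic_prod_X_sub_C (fun j => s j ^ c.ℓ) Finset.univ).pow e)
  rwa [map_pow, map_pow, ← phi_eq, Polynomial.natDegree_pow,
    Polynomial.natDegree_finsetProd_X_sub_C_eq_card, mul_left_comm] at this

omit [Fintype Φ] [Fintype Δ] [DecidableEq Φ] [DecidableEq Δ] [CharZero K] in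
lemma low_part {ψ : LP K} {M : ℕ} (hψ : c.Mon ψ M) (n : ℤ) (hn : (ψ - T M).coeff n ≠ 0) :
    (0 : ℚ) ≤ n ∧ (n : ℚ) + 1 ≤ M := by
  rw [AddMonoidAlgebra.coeff_sub, Finsupp.sub_apply, T_apply] at hn
  split_ifs at hn with a
  · exact (hn (by rw [← a, hψ.2, sub_self])).elim
  · have := hψ.1 n (by simpa using hn)
    exact ⟨by exact_mod_cast this.1, by exact_mod_cast lt_of_le_of_ne this.2.1 (Ne.symm a)⟩

lemma div (h : T2 c ζ) (ψ : LP K) (M : ℕ) (x : L) (r : ℚ) (hψ : c.Mon ψ M) (n : ℕ) :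
    ∀ f : LG L K, f ∈ c.Sup x (Ico r (r + M + n)) →
    ∃ q ∈ c.Sup x (Ici r), f - ψ • q ∈ c.Sup x (Ico r (r + M)) ∧
      (c.Fix x → f ∈ c.Eqv ζ → q ∈ c.Eqv ζ) ∧
      ∀ (S : Subring K) (M' : Set K), SM S M' → (∀ n, ψ.coeff n ∈ S) → c.In M' f →
        c.In M' q := by
  induction n with
  | zero =>
    exact fun f hf => ⟨0, zero_mem _, by simpa using hf, fun _ _ => zero_mem _,
      fun S M' hS _ _ => (h.sup.in_add S M' hS).1⟩
  | succ n ih =>
    intro f hf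
    obtain ⟨h1, h2⟩ := h.sup.pr_wt x (Ici (r + M)) f
    have h3 := h.sup.pr_sup (fun a => c.wt x a ∈ Ici (r + M)) _ _ f hf
    have e1 := h.eqv.pr_wt x (Ici (r + M))
    have e2 := h.sup.pr_in (fun a => c.wt x a ∈ Ici (r + M))
    set g := c.pr (fun a => c.wt x a ∈ Ici (r + M)) f
    have h4 : (T (-M) : LP K) • g ∈ c.Sup x (Ico r (r + n + 1)) :=
      (h.sup.sup_T _ _ _ _).2 fun a ha => by
        have := h1 a ha
        have := h3 a ha
        simp only [mem_ofPred_eq, mem_Ico, mem_Ici] at *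
        push_cast at *
        constructor <;> linarith
    have e : f - ψ • (T (-M) : LP K) • g = f - g - (ψ - T M) • (T (-M) : LP K) • g := by
      rw [sub_smul, smul_smul (T M), ← T_add, add_neg_cancel, T_zero, one_smul]
      abel
    obtain ⟨q, q1, q2, q3, q4⟩ := ih (f - ψ • (T (-M) : LP K) • g) (e ▸ sub_mem
      (fun a ha => ⟨(sub_mem hf h3 a ha).1,
        (notMem_Ici.1 (h2 a ha)).trans_le (le_add_of_nonneg_right n.cast_nonneg)⟩)
      (h.sup.smul _ _ _ _ _ h4 fun k hk p hp => by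
        have := low_part hψ k hk
        constructor <;> linarith [hp.1, hp.2]))
    refine ⟨(T (-M) : LP K) • g + q, add_mem (c.Sup_mono Ico_subset_Ici_self h4) q1,
      by rwa [smul_add, ← sub_sub], fun hx hf => ?_, fun S M' hS hs hf => ?_⟩
    · have := (h.eqv.T_iff (-M) g
        (hψ.1 M (hψ.2 ▸ one_ne_zero)).2.2.neg_right).2 (e1 hx f hf)
      exact add_mem this (q3 hx (sub_mem hf (h.eqv.smul ψ (fun n a => (hψ.1 n a).2.2) _ this)))
    · have := (h.sup.in_T M' (-M) g).2 (e2 M' f hS.zero hf)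
      have k := (h.sup.in_add S M' hS).2.1
      exact (k _ _ this (q4 S M' hS hs
        (k _ _ hf ((h.sup.in_smul S M' ψ _ hS).1 hs this)).2)).1

lemma uniq (h : T2 c ζ) (ψ : LP K) (M : ℕ) (x : L) (r : ℚ) (q : LG L K) (hψ : c.Mon ψ M)
    (h1 : q ∈ c.Sup x (Ici r)) (h2 : ψ • q ∈ c.Sup x (Iio (r + M))) : q = 0 := by
  by_contra hn
  obtain ⟨t, h3, a, ha, rfl⟩ := h.sup.high x q hn
  have : (T M : LP K) • q ∈ c.Sup x (Iio (c.wt x a + M)) := by
    rw [← sub_sub_cancel ψ (T M), sub_smul]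
    refine sub_mem (c.Sup_mono (Iio_subset_Iio (add_le_add_left (h1 a ha) _)) h2)
      (h.sup.smul _ _ _ _ _ h3 fun k hk p hp => ?_)
    have := low_part hψ k hk
    rw [mem_Iic] at hp
    rw [mem_Iio]
    linarith
  simpa using (h.sup.sup_T _ _ _ _).1 this a ha

omit [Fintype Φ] [Fintype Δ] [DecidableEq Φ] [DecidableEq Δ] in
lemma sup_iff {x : L} {r : ℚ} {q : LG L K} : q ∈ c.Sup x (Ici r) ↔
    ∀ i n, (c.crd i q).coeff n ≠ 0 → r - c.wt0 x i ≤ n := by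
  simp only [CD.mem_Sup, CD.co_eq, Prod.forall, CD.wt, mem_Ici, sub_le_iff_le_add']
  exact forall_comm

lemma quot (hp : c.Pt ζ s) (hd : S_dgp c ζ s) (e : ℕ) (f : LG L K) (hf : f ∈ c.Eqv ζ)
    (h : ∀ i, c.dgp ζ s (fun _ => e) 0 i ∣ c.crd i f) : ∃ g ∈ c.Eqv ζ, f = c.phi s ^ e • g := by
  choose u hu using h
  have k : ∀ i, c.crd i ((c.bs (LP K)).equivFun.symm u) = u i := fun i =>
    congrFun ((c.bs (LP K)).equivFun.apply_symm_apply u) i
  generalize (c.bs (LP K)).equivFun.symm u = g at k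
  have e1 : c.diag (c.dgp ζ s (fun _ => e) 0) g = f := c.ext0 fun i => by
    rw [c.crd_diag, k, hu]
  have h0 : (∏ _j : J, ∏ k ∈ Finset.range c.ℓ, ζ ^ k) ^ e ≠ 0 :=
    pow_ne_zero _ (Finset.prod_ne_zero_iff.2 fun _ _ => Finset.prod_ne_zero_iff.2 fun _ _ =>
      pow_ne_zero _ (hp.prim.ne_zero c.ℓ_pos.ne'))
  refine ⟨_, Submodule.smul_mem _ ((∏ _j : J, ∏ k ∈ Finset.range c.ℓ, ζ ^ k) ^ e)⁻¹
    ((hd.eqv s _ _ g).1 (e1 ▸ hf)), c.ext0 fun i => ?_⟩
  have e2 : c.dgp ζ s (fun _ => 1) 0 i ^ e = c.dgp ζ s (fun _ => e) 0 i := by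
    simp only [CD.dgp, pow_one, Finset.prod_pow]
  rw [← hd.phi s 0 i, mul_pow, e2, ← map_pow, ← smul_eq_C_mul, smul_assoc, smul_comm, smul_smul,
    map_smul, LinearMap.map_smul_of_tower, k, hu, mul_inv_cancel₀ h0, one_smul,
    smul_eq_mul]

omit [Fintype J] [DecidableEq J] in
lemma rot (h : T2 c ζ) (hp : c.Pt ζ s) {f : LG L K} (hf : f ∈ c.Eqv ζ) {j : J}
    (h0 : ev (s j) f = 0) (k : ℕ) (i : Φ ⊕ Δ) : evL (ζ ^ k * s j) (c.crd i f) = 0 := by
  have := h.eqv.ev_rot f hf k _ (hp.ne j)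
  rw [h0, map_eq_zero_iff _ ((Module.End.isUnit_iff _).1
    ((IsUnit.of_pow_eq_one h.gk.sg_pow c.ℓ_pos.ne').pow k)).1] at this
  rw [← h.lp.crd_ev, this, map_zero]

lemma ev_phi (h : T2 c ζ) (hp : c.Pt ζ s) (j : J) : evL (s j) (c.phi s) = 0 ∧
    evL (s j) (ddL (c.phi s)) = c.ℓ * (c.vp s j)⁻¹ := by
  obtain ⟨F, hF, -⟩ := h.lp.evL_hom (s j) (hp.ne j)
  have k : ∀ i, F (T c.ℓ - C (s i ^ c.ℓ)) = s j ^ c.ℓ - s i ^ c.ℓ := fun i => by
    rw [map_sub, hF, hF, evL_T, h.lp.evL_C, zpow_natCast]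
  have d : ddL (C (s j ^ c.ℓ) : LP K) = 0 := LaurentPolynomial.ext fun n => by
    rw [h.lp.ddL_coeff, C_apply]
    split_ifs with a <;> simp [a]
  rw [CD.phi, ← Finset.mul_prod_erase _ _ (Finset.mem_univ j), h.lp.ddL_mul, ← hF, ← hF, map_add,
    map_mul, map_mul, map_mul, k, sub_self, zero_mul, zero_mul, zero_add, map_sub ddL, d, sub_zero,
    ddL_T, hF (_ • _), map_smul, evL_T, map_prod, CD.vp, inv_inv]
  simp only [k, zpow_natCast, smul_eq_mul, Int.cast_natCast, true_and]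
  ring

omit [Fintype Φ] [Fintype Δ] [DecidableEq Φ] [DecidableEq Δ] [CharZero K] in
lemma vp_ne (hp : c.Pt ζ s) (j : J) : c.vp s j ≠ 0 :=
  inv_ne_zero (mul_ne_zero (pow_ne_zero _ (hp.ne j)) (Finset.prod_ne_zero_iff.2 fun _ hi =>
    sub_ne_zero.2 fun a => Finset.ne_of_mem_erase hi (hp.inj a).symm))

lemma ev_smul (h : T2 c ζ) (hp : c.Pt ζ s) (f : LG L K) (j : J) : ev (s j) (c.phi s • f) = 0 ∧
    ev (s j) (dd (c.phi s • f)) = (c.ℓ * (c.vp s j)⁻¹) • ev (s j) f := by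
  simp only [h.lp.dd_smul, map_add, h.lp.ev_smul _ (hp.ne j), ev_phi h hp j, zero_smul, add_zero,
    and_self]

lemma nn_phi (h : T2 c ζ) (hp : c.Pt ζ s) (U : J → Submodule K (G L K)) (f : LG L K)
    (hf : f ∈ c.Eqv ζ) :
    c.phi s • f ∈ c.NN ζ s U ↔ ∀ j, ∀ u ∈ U j, c.kR K (ev (s j) f) u = 0 := by
  have := h.eqv.smul _ (fun n a => ((mon (s := s) 1).1 n a).2.2) f hf
  rw [pow_one] at this
  simp [CD.mem_NN, this, ev_smul h hp, vp_ne hp, c.ℓ_pos.ne']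

end DivA

variable (c ζ s)

theorem div (h : T2 c ζ) (hp : c.Pt ζ s) (hd : S_dgp c ζ s) : S_div c ζ s where
  mon := by simpa using DivA.mon (c := c) (s := s) 1
  mon_sq := DivA.mon 2
  phi_ne := by
    rw [DivA.phi_eq, ← Nat.cast_zero, DivA.coeff_nat, Polynomial.coeff_expand c.ℓ_pos]
    simp [Polynomial.coeff_zero_prod, Finset.prod_ne_zero_iff, hp.ne, -map_pow]
  phi_int S hS := by
    obtain ⟨S', -, -, k, -⟩ := h.sup.in_lift S S (SM.self S)
    have : c.phi s ∈ S' := prod_mem fun j _ => sub_mem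
      ((k _).2 fun n => by rw [T_apply]; split_ifs <;> simp [one_mem, zero_mem])
      ((k _).2 fun n => by rw [C_apply]; split_ifs <;> simp [pow_mem (hS j), zero_mem])
    exact ⟨(k _).1 this, (k _).1 (pow_mem this 2)⟩
  dg_dvd := Int.natCast_dvd_natCast.2 (dvd_mul_right _ _)
  ev_phi j := (DivA.ev_phi h hp j).1
  ev_dphi j := (DivA.ev_phi h hp j).2
  vp_ne := DivA.vp_ne hp
  vp_mem S hS j := by
    constructor
    · rw [CD.vp, mul_inv, ← inv_pow, ← Finset.prod_inv_distrib]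
      exact mul_mem (pow_mem (hS.inv j) _) (prod_mem fun i _ => hS.inv' j i)
    · rw [CD.vp, inv_inv]
      exact mul_mem (pow_mem (hS.mem j) _)
        (prod_mem fun i _ => sub_mem (pow_mem (hS.mem j) _) (pow_mem (hS.mem i) _))
  hd_sd S hS := ⟨hS.zeta, by simpa using hS.rat (c.ℓ : ℚ)⁻¹⟩
  div ψ M x r f hψ hf := by
    obtain ⟨r1, r2, k⟩ := h.sup.bdd x f
    obtain ⟨n, hn⟩ := exists_nat_gt (r2 - r - M)
    exact DivA.div h ψ M x r hψ n f fun a ha => ⟨hf a ha, by linarith [(k a ha).2]⟩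
  uniq := DivA.uniq h
  low ψ x r q h1 h2 := by
    simp only [DivA.sup_iff, map_smul, smul_eq_mul]
    exact forall_congr' fun i => hd.low ψ _ _ h1 h2
  gauss ψ M S M' q hψ hS h1 h2 a := by
    rw [c.co_eq]
    refine hd.gauss S M' ψ _ M hS h1 (fun n hn => by_contra fun b => hn.not_ge (hψ.1 n b).2.1)
      (hψ.2 ▸ one_ne_zero) (by rw [hψ.2, inv_one]; exact one_mem S) (fun n => ?_) _
    have := h2 (n, a.2)
    rwa [c.co_eq, map_smul] at this
  zero1 f hf h0 := by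
    simpa using DivA.quot hp hd 1 f hf fun i => hd.dvd _ _ _ _ fun j k =>
      ⟨one_le_two, fun _ => DivA.rot h hp hf (h0 j) k i, fun a => absurd a (by simp)⟩
  zero2 f hf h0 := DivA.quot hp hd 2 f hf fun i => hd.dvd _ _ _ _ fun j k =>
    ⟨le_rfl, fun _ => DivA.rot h hp hf (h0 j).1 k i, fun _ => by
      rw [← h.lp.crd_dd, DivA.rot h hp (h.eqv.dd f hf) (h0 j).2]⟩
  ev_smul := DivA.ev_smul h hp
  nn_phi := DivA.nn_phi h hp
  nn_sq U f hf := by
    have := h.eqv.smul _ (fun n a => ((DivA.mon (s := s) 1).1 n a).2.2) f hf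
    rw [pow_one] at this
    rw [sq, mul_smul, DivA.nn_phi h hp U _ this]
    simp [DivA.ev_smul h hp]
  bf_phi f y := by
    rw [CD.BF, CD.pair, Finset.mul_sum]
    refine Finset.sum_congr rfl fun j _ => ?_
    have := DivA.vp_ne hp j
    rw [(DivA.ev_smul h hp f j).2, map_smul, LinearMap.smul_apply, smul_eq_mul]
    field_simp

end Pool.Agent.P.MP_e7d440_ag.U
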