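import Pool.Agent.P.MP_e7d440_ag.U.Vert
import Pool.Agent.P.MP_e7d440_ag.All

/-! Logarithmic coordinates. -/

namespace Pool.Agent.P.MP_e7d440_ag.U

open TensorProduct LieAlgebra LaurentPolynomial Set

variable {L Φ Δ : Type} [LieRing L] [LieAlgebra ℚ L] [Fintype Φ] [Fintype Δ] [DecidableEq Φ]
  [DecidableEq Δ] {c : CD L Φ Δ}

namespace ExlA

/-- the generic point of affine space -/
noncomputable def TT (O : Type) [CommRing O] (d : ℕ) (k : Fin d) :
    FractionRing (MvPolynomial (Fin d) O) :=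
  algebraMap (MvPolynomial (Fin d) O) _ (MvPolynomial.X k)

section
variable {O : Type} [CommRing O] [IsDomain O] {d : ℕ}

omit [IsDomain O] in
lemma aeval_TT (F : MvPolynomial (Fin d) O) :
    MvPolynomial.aeval (TT O d) F = algebraMap (MvPolynomial (Fin d) O) _ F := by
  have := MvPolynomial.aeval_algebraMap_apply (FractionRing (MvPolynomial (Fin d) O))
    (MvPolynomial.X : Fin d → MvPolynomial (Fin d) O) F
  rwa [MvPolynomial.aeval_X_left_apply] at this

lemma gen_TT : Gen O (TT O d) := fun γ => by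
  obtain ⟨a, b, hb, rfl⟩ := IsFractionRing.div_surjective (A := MvPolynomial (Fin d) O) γ
  have h := IsFractionRing.to_map_ne_zero_of_mem_nonZeroDivisors
    (K := FractionRing (MvPolynomial (Fin d) O)) hb
  exact ⟨a, b, by rwa [aeval_TT], by rw [aeval_TT, aeval_TT, div_mul_cancel₀ _ h]⟩

omit [IsDomain O] in
lemma ind_TT : AlgebraicIndependent O (TT O d) :=
  algebraicIndependent_iff.2 fun F hF => IsFractionRing.injective (MvPolynomial (Fin d) O)
    (FractionRing (MvPolynomial (Fin d) O)) (by rw [← aeval_TT, hF, map_zero])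

end

lemma gen_map {O K K' ν : Type} [CommRing O] [Field K] [Field K'] [Algebra O K] [Algebra O K']
    (f : K' ≃ₐ[O] K) {y : ν → K'} (h : Gen O y) : Gen O fun k => f (y k) := fun γ => by
  obtain ⟨F, G, h1, h2⟩ := h (f.symm γ)
  have e : ∀ F : MvPolynomial ν O, MvPolynomial.aeval (fun k => f (y k)) F =
      f (MvPolynomial.aeval y F) := fun F =>
    (DFunLike.congr_fun (MvPolynomial.comp_aeval y (f : K' →ₐ[O] K)) F).symm
  refine ⟨F, G, by rw [e]; simpa using h1, ?_⟩
  rw [e, e, ← h2, map_mul, f.apply_symm_apply]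

lemma der_map {O K K' : Type} [CommRing O] [Field K] [Field K'] [Algebra O K] [Algebra O K']
    (f : K' ≃ₐ[O] K) (D' : Derivation O K' K') :
    ∃ D : Derivation O K K, ∀ γ, D (f γ) = f (D' γ) :=
  ⟨Derivation.mk' (f.toLinearMap ∘ₗ D'.toLinearMap ∘ₗ f.symm.toLinearMap) fun a b => by
    simp [Derivation.leibniz], fun γ => by simp⟩

omit [Fintype Φ] [Fintype Δ] [DecidableEq Φ] [DecidableEq Δ] in
lemma mem_map {K K' : Type} [Field K] [CharZero K] [Field K'] [CharZero K'] (f : K' ≃+* K)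
    (lam : L) {g' : Module.End K' (G L K')} {g : Module.End K (G L K)}
    (h : ∀ y, mqa ((f : K' →+* K) : K' →+ K) (g' y) = g (mqa ((f : K' →+* K) : K' →+ K) y))
    (u : G L K) : u ∈ (c.U1 K lam).map g ↔
      ∃ u' ∈ (c.U1 K' lam).map g', mqa ((f : K' →+* K) : K' →+ K) u' = u := by
  constructor
  · rintro ⟨x, hx, rfl⟩
    have e : mqa ((f : K' →+* K) : K' →+ K) (mqa ((f.symm : K →+* K') : K →+ K') x) = x :=
      c.ext0 fun i => by simp [c.crd_mqa]
    refine ⟨_, ⟨mqa ((f.symm : K →+* K') : K →+ K') x, fun i hi => hx i fun h0 => hi ?_, rfl⟩,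
      by rw [h, e]⟩
    rw [c.crd_mqa, h0, map_zero]
  · rintro ⟨_, ⟨x, hx, rfl⟩, rfl⟩
    refine ⟨_, fun i hi => hx i fun h0 => hi ?_, (h x).symm⟩
    rw [c.crd_mqa, h0, map_zero]

lemma trans {K J : Type} [Field K] [CharZero K] [Fintype J] [DecidableEq J] {ζ : K} {s : J → K}
    (T : T3 c ζ s) (V : ValuationSubring K) (hV : c.HD ζ s V.toSubring) {n : ℕ}
    (a : Fin n → Φ × ℤ) (t : Fin n → K) (ht : ∀ k, t k ∈ V.nonunits) (lam : J → L)
    (hl : ∀ j, c.Min (lam j)) :
    ∃ X : c.Id lam → K, c.pU s (fun k => c.E ζ (a k)) t lam = c.cell lam X := by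
  have key : ∀ j, ∃ n ∈ (c.Gr (lam j) {-1} : Submodule K _),
      c.pU s (fun k => c.E ζ (a k)) t lam j = (c.U1 K (lam j)).map (ex n) := fun j => by
    have h1 := T.la.act_fd s T.pt.ne (c.pE ζ a t) (fun j => c.U1 K (lam j)) (T.la.pf a t 0) j
      (T.fd.u1 _ (hl j))
    rw [← T.la.act_pU s T.pt.ne, T.fd.rank] at h1
    refine T.cell.cell _ _ h1.1 (hl j) h1.2 ?_
    rintro _ ⟨x, hx, rfl⟩ h0
    by_contra hne
    obtain ⟨q, -, h2, i, h3⟩ := T.sup.prim0 V x fun e => hne (by rw [e, map_zero])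
    have hQ : ∀ q : ℚ, algebraMap ℚ K q ∈ V.toSubring := fun q => by simpa using hV.rat q
    have h4 := T.ex.pf_ind (fun k => t k • ev (s j) (c.E ζ (a k))) 0
      (fun g => ∀ y, c.In0 V y → c.In0 V (g y) ∧ c.In0 V.nonunits (g y - y))
      (fun y hy => ⟨hy, fun i => by simpa using V.nonunits.zero_mem⟩)
      (fun g g' hg hg' y hy => ⟨(hg _ (hg' y hy).1).1, fun i => by
        have := V.nonunits.add_mem ((hg _ (hg' y hy).1).2 i) ((hg' y hy).2 i)
        simpa using this⟩)
      (fun k _ y hy => by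
        have n1 := (T.lp.evE_ex _ (T.pt.ne j) _ (T.rt1.nil (a k) (t k))).1
        rw [map_smul] at n1
        have n2 : c.In0 V.nonunits (t k • ev (s j) (c.E ζ (a k))) := fun i => by
          rw [map_smul, smul_eq_mul, mul_comm]
          exact (SM.nonunits V).mul _ (T.sup.in_ev _ _ _ _ (SM.val V) (hV.mem j) (hV.inv j)
            (T.rt1.int _ (T.div.hd_sd _ hV) _) i) _ (ht k)
        exact ⟨(T.ex.in_ex V.toSubring V _ y hQ (SM.val V) n1).1
            (fun i => V.nonunits_subset (n2 i)) hy,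
          (T.ex.in_ex V.toSubring V.nonunits _ y hQ (SM.nonunits V) n1).2 V.nonunits_subset n2 hy⟩)
      _ h2
    have h5 : c.wt0 (lam j) i = 1 := hx i fun e => by simp [e] at h3
    obtain (β | i) := i
    · have h6 := h4.2 (.inl β)
      rw [map_sub, h3, map_smul, map_smul, h0 β h5, smul_zero, zero_sub] at h6
      simpa using V.mem_nonunits_iff.1 h6
    · simp [CD.wt0] at h5
  choose n hn e using key
  obtain ⟨X, hX⟩ := T.fd.nX_of lam n hn
  exact ⟨X, funext fun j => by rw [e, CD.cell, hX]⟩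

end ExlA

open ExlA VertA in
theorem exl (h : TA c) : S_exl c := by
  intro O K J _ _ _ _ _ _ _ _ ζ s lam r X hO hinj hCo hG hI
  have hMin := hCo.2.2.1
  obtain ⟨d, hd⟩ : ∃ d, d = Fintype.card (c.Id lam) := ⟨_, rfl⟩
  rw [← hd]
  have hinj' := (ind_TT (O := O) (d := d)).algebraMap_injective
  have T := h _ _ J _ (pt hO hinj')
  have hz := (T.count.reg lam hMin).2
  obtain ⟨n, a, hg⟩ := T.gal.ex _ _ T.wall.reg_ρ hz
  obtain ⟨hn, hp⟩ := T.count.count lam r _ n a hCo (Or.inr rfl) hg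
  obtain rfl : n = d := hn.trans hd.symm
  obtain ⟨b, z₁, hW, hb⟩ := T.nf.walk _ n a hz hg
  have hne : ∀ k, TT O n k ≠ 0 := fun k => ind_TT.ne_zero k
  obtain ⟨hw, -, hS⟩ := T.bir lam n b (TT O n) z₁ hMin hW hne
  obtain ⟨V, hV1, hV2⟩ := vals'.center (algebraMap (MvPolynomial (Fin n) O)
    (FractionRing (MvPolynomial (Fin n) O))) (RingHom.ker MvPolynomial.constantCoeff)
    (RingHom.ker_isPrime _) (by
      rw [(RingHom.injective_iff_ker_eq_bot _).1 (IsFractionRing.injective _ _)]; exact bot_le)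
  have hOV : ∀ o, algebraMap O _ o ∈ V.toSubring := fun o => hV1 (MvPolynomial.C o)
  have hOV' : ∀ o, (algebraMap O _ o)⁻¹ ∈ V.toSubring := fun o => by
    by_contra h0
    have h1 : o = 0 := by
      simpa using (hV2 (MvPolynomial.C o)).1 (V.mem_nonunits_iff_or.2 (Or.inr h0))
    exact h0 (by simp [h1])
  obtain ⟨X', hX'⟩ := trans T V (VertA.hd hOV hOV') (fun k => c.ng (b k)) (TT O n)
    (fun k => (hV2 _).2 (by simp)) lam hMin
  have hG' : Gen O X' := (gen.clos _).2 (top_le_iff.1 (((gen.clos _).1 gen_TT).ge.trans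
    (Subfield.closure_le.2 (union_subset (fun _ h => Subfield.subset_closure (Or.inl h)) ?_))))
  swap
  · rintro _ ⟨k, rfl⟩
    refine hS _ (Subfield.subset_closure (Or.inl ⟨_, rfl⟩))
      (fun j => Subfield.subset_closure (Or.inl ⟨_, rfl⟩)) (fun j => ?_) k
    have := (T.leg.def_cell (Subfield.closure (range (algebraMap O _) ∪ range X')) lam X' hMin).2
      (fun p => Subfield.subset_closure (Or.inr ⟨p, rfl⟩)) j
    rwa [← hX'] at this
  obtain ⟨f, hf⟩ := gen.iso X X' hG hG' hI (gen.indep _ _ hG' ind_TT (by simp [hd]))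
  have hc : ∀ o, (f.toRingEquiv : FractionRing (MvPolynomial (Fin n) O) →+* K)
      (algebraMap O _ o) = algebraMap O K o := f.commutes
  have hv : ∀ a, c.Valid (algebraMap O K ζ) a ↔
      c.Valid (algebraMap O (FractionRing (MvPolynomial (Fin n) O)) ζ) a := fun a => by
    rw [← hc]; exact (T.rt1.nat _ a).1
  refine ⟨b, fun k => f (TT O n k), fun k => ?_, fun k => by simpa using hne k, gen_map f gen_TT,
    funext fun j => Submodule.ext fun u => ?_, hb.trans hp⟩
  · obtain ⟨x, h1, h2, h3, h4, h5, h6⟩ := hw k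
    exact ⟨x, ⟨h1.1, fun a ha => h1.2 a ((hv a).1 ha)⟩, h2, (hv _).2 h3, h4, h5,
      fun a ha => h6 a ((hv a).1 ha)⟩
  · have e1 := mem_map (c := c) f.toRingEquiv (lam j) (g' := ex (c.nX lam X' j))
      (g := ex (c.nX lam X j)) (fun y => by
        rw [(T.ex.nat _ _ (T.fd.nX lam X' j).2.1).2]
        congr 2
        simp only [CD.nX, map_sum, T.gk.mqa_smul, c.bs_apply, mqa_tmul]
        exact Finset.sum_congr rfl fun p _ => by simp [hf]) u
    have e2 := mem_map (c := c) f.toRingEquiv (lam j)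
      (g' := pf (fun k => TT O n k • ev (algebraMap O _ (s j)) (c.F (algebraMap O _ ζ) (b k))) 0)
      (g := pf (fun k => f (TT O n k) • ev (algebraMap O K (s j))
        (c.F (algebraMap O K ζ) (b k))) 0) (fun y => by
        rw [T.ex.nat_pf _ _ _ fun k => by
          simpa [CD.F] using (T.lp.evE_ex _ (T.pt.ne j) _ (T.rt1.nil (c.ng (b k)) (TT O n k))).1]
        congr 2
        funext k
        rw [T.gk.mqa_smul, CD.F, (T.rt1.nat _ _).2, hc, hc]
        rfl) u
    exact e1.trans ((exists_congr fun u' => and_congr_left fun _ =>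
      (congrArg (u' ∈ · j) hX').to_iff.symm).trans e2.symm)

namespace ExlA

lemma rat_dvd (O K : Type) [CommRing O] [IsDomain O] [ValuationRing O] [Field K] [CharZero K]
    [Algebra O K] (a b : ℚ) : (∃ o : O, (a : K) = algebraMap O K o * b) ∨
      ∃ o : O, (b : K) = algebraMap O K o * a := by
  obtain ⟨o, ho⟩ := ValuationRing.cond ((a.num * b.den : ℤ) : O) ((b.num * a.den : ℤ) : O)
  have ha : (a.den : K) ≠ 0 := Nat.cast_ne_zero.2 a.den_nz
  have hb : (b.den : K) ≠ 0 := Nat.cast_ne_zero.2 b.den_nz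
  rw [Rat.cast_def, Rat.cast_def]
  rcases ho with ho | ho <;> have := congrArg (algebraMap O K) ho <;>
    simp only [map_mul, map_intCast, Int.cast_mul, Int.cast_natCast, map_natCast] at this
  · exact Or.inr ⟨o, by field_simp; linear_combination -this⟩
  · exact Or.inl ⟨o, by field_simp; linear_combination -this⟩

lemma exists_min {α : Type} (R : α → α → Prop) (h1 : ∀ a b, R a b ∨ R b a)
    (h2 : ∀ a b c, R a b → R b c → R a c) {A : Set α} (hA : A.Finite) (hne : A.Nonempty) :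
    ∃ a ∈ A, ∀ b ∈ A, R a b := by
  induction A, hA using Set.Finite.induction_on with
  | empty => exact absurd hne Set.not_nonempty_empty
  | @insert a A _ _ ih =>
    have haa := (h1 a a).elim id id
    rcases A.eq_empty_or_nonempty with rfl | hA
    · exact ⟨a, Or.inl rfl, by simpa using haa⟩
    obtain ⟨b, hb, hb'⟩ := ih hA
    rcases h1 a b with e | e
    · exact ⟨a, Or.inl rfl, fun x hx => hx.elim (fun e' => e' ▸ haa) fun hx => h2 _ _ _ e (hb' x hx)⟩
    · exact ⟨b, Or.inr hb, fun x hx => hx.elim (fun e' => e' ▸ e) (hb' x)⟩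

end ExlA

open ExlA VertA in
theorem log2 (h : TA c) : S_log2 c := by
  intro O K J _ _ _ _ _ _ _ _ _ ζ s μ r X hO hCo hG hI
  have hinj := hI.algebraMap_injective
  have T := h K _ J _ (pt hO hinj)
  have hGP : c.GenPt O (c.cell μ X) := fun S h1 h2 => top_le_iff.1 (((gen.clos X).1 hG).ge.trans
    (Subfield.closure_le.2 (union_subset (range_subset_iff.2 h1)
      (range_subset_iff.2 ((T.leg.def_cell S μ X hCo.2.2.1).1 h2)))))
  refine ⟨hGP, ?_⟩
  obtain ⟨lam, ⟨r', X', hCo', hU⟩, hmin⟩ := exists_min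
    (fun l l' : J → L => ∃ o : O, (c.cnu l' : K) = algebraMap O K o * c.cnu l)
    (fun a b => rat_dvd O K _ _) (fun a b c ⟨o, e⟩ ⟨o', e'⟩ => ⟨o' * o, by
      rw [e', e, map_mul, mul_assoc]⟩)
    (A := {l | ∃ r X', c.Co l r ∧ c.cell μ X = c.cell l X'})
    ((Set.Finite.pi' fun _ => T.count.fin).subset fun l ⟨_, _, h, _⟩ => h.2.2.1) ⟨μ, r, X, hCo, rfl⟩
  have hc : Fintype.card (c.Id lam) = Fintype.card (c.Id μ) := by
    rw [← T.leg.rank_cell lam X' hCo'.2.2.1, ← hU, T.leg.rank_cell μ X hCo.2.2.1]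
  have hG' : Gen O X' := gen_of hGP _ fun S _ h2 => hU ▸ (T.leg.def_cell S lam X' hCo'.2.2.1).2 h2
  obtain ⟨b, t, hw, ht, hGt, hU', hp⟩ := exl h ζ s lam r' X' hO hinj hCo' hG'
    (gen.indep _ X hG' hI hc.le)
  rw [← hc]
  obtain ⟨f, hf⟩ := gen.iso t _ hGt gen_TT (gen.indep _ X hGt hI (by simp [hc])) ind_TT
  obtain ⟨D₀, hD₀⟩ := der.frac (O := O) (σ := Fin (Fintype.card (c.Id lam)))
  choose D hD using fun k => der_map f (D₀ k)
  have hder : ∀ k l, (t k • D k) (t l) = if k = l then t l else 0 := fun k l => by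
    rw [Derivation.smul_apply, ← hf l, hD, TT, hD₀, MvPolynomial.pderiv_X]
    by_cases e : k = l
    · subst e
      simp [← hf, TT]
    · simp [e, Pi.single_eq_of_ne' e]
  refine ⟨fun k => t k • D k, t, c.cnu lam, ht, hder, ?_, (T.count.cnu_pos lam).ne',
    fun l r X' h1 h2 => hmin l ⟨r, X', h1, h2⟩⟩
  rw [hU, hU', ← hp]
  exact T.det _ lam r' b t hCo' hw (fun i => Derivation.map_algebraMap _ _)
    (fun i j => Derivation.map_algebraMap _ _) hder

end Pool.Agent.P.MP_e7d440_ag.U
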