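import Pool.Agent.P.MP_e7d440_ag.U.IfaceC

/-! The local rings of a normal algebra of finite type satisfying the chart condition. -/

namespace Pool.Agent.P.MP_e7d440_ag.U

open IsLocalRing MvPolynomial

namespace Fin2A

lemma loc_up {C A K : Type} [CommRing C] [CommRing A] [Field K] [Algebra C A] [Algebra C K]
    [Algebra A K] [IsScalarTower C A K] {𝔮 : Ideal A} {γ : K}
    (h : loc (algebraMap C K) (𝔮.under C) γ) : loc (algebraMap A K) 𝔮 γ := by
  obtain ⟨a, b, hb, e⟩ := h
  refine ⟨algebraMap C A a, algebraMap C A b, hb, ?_⟩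
  rw [← IsScalarTower.algebraMap_apply, ← IsScalarTower.algebraMap_apply, e]

lemma locy2 {O C K : Type} [CommRing O] [CommRing C] [IsDomain C] [Field K] [Algebra O C]
    [Algebra O K] [Algebra C K] (π : O) (𝔭 : Ideal C) [𝔭.IsPrime]
    [Algebra (Localization.AtPrime 𝔭) K] [IsScalarTower C (Localization.AtPrime 𝔭) K]
    (h : LogCY2 O π C K) : LogCY2 O π (Localization.AtPrime 𝔭) K := by
  obtain ⟨σ, _, _, D, g, hg, hw, hv⟩ := h
  refine ⟨σ, inferInstance, inferInstance, D, g, hg, hw, ?_⟩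
  intro 𝔮 hq h1
  have hq' : (𝔮.under C).IsPrime := inferInstance
  have h1' : algebraMap O C π ∉ 𝔮.under C ∨ (𝔮.under C).height = 1 := by
    rcases h1 with h1 | h1
    · left
      rw [Ideal.under_def, Ideal.mem_comap, ← IsScalarTower.algebraMap_apply]
      exact h1
    · right
      rw [← h1]; exact IsLocalization.height_under 𝔭.primeCompl 𝔮
  obtain ⟨y, hy, hF, t, ht, ht'⟩ := hv _ hq' h1'
  refine ⟨y, fun b => loc_up (hy b), ?_, t, loc_up ht, ht'⟩
  intro a
  obtain ⟨⟨c, s⟩, rfl⟩ := IsLocalization.mk'_surjective 𝔭.primeCompl a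
  obtain ⟨F1, G1, n1, l1, e1⟩ := hF c
  obtain ⟨F2, G2, n2, l2, e2⟩ := hF s
  have h2 : algebraMap (Localization.AtPrime 𝔭) K (IsLocalization.mk' _ (1 : C) s) *
      algebraMap C K s = 1 := by
    rw [IsScalarTower.algebraMap_apply C (Localization.AtPrime 𝔭) K, ← map_mul,
      IsLocalization.mk'_spec, map_one, map_one]
  have h3 : algebraMap (Localization.AtPrime 𝔭) K (IsLocalization.mk' _ c s) *
      algebraMap C K s = algebraMap C K c := by
    rw [IsScalarTower.algebraMap_apply C (Localization.AtPrime 𝔭) K, ← map_mul,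
      IsLocalization.mk'_spec, ← IsScalarTower.algebraMap_apply]
  have h4 : algebraMap C K s ≠ 0 := right_ne_zero_of_mul_eq_one h2
  refine ⟨F1 * G2, F2 * G1, ?_, ?_, ?_⟩
  · rw [map_mul, ← e2]
    exact mul_ne_zero (mul_ne_zero h4 n2) n1
  · rw [map_mul, ← e2, mul_inv, mul_inv, ← eq_inv_of_mul_eq_one_left h2]
    exact ((loc_map _ hq _).mul hq (loc_up l2)).mul hq (loc_up l1)
  · rw [map_mul, map_mul, ← e2, ← e1]
    linear_combination (aeval y G1 * aeval y G2) * h3

end Fin2A

theorem fin2 (hC : S_crit2) : S_fin2 := by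
  intro O C K _ _ _ _ _ _ _ _ _ _ _ _ _ _ π hπ hinj h 𝔭 h𝔭
  have hle : 𝔭.primeCompl ≤ nonZeroDivisors C := 𝔭.primeCompl_le_nonZeroDivisors
  letI : Algebra (Localization.AtPrime 𝔭) K :=
    IsLocalization.localizationAlgebraOfSubmonoidLe (Localization.AtPrime 𝔭) K 𝔭.primeCompl
      (nonZeroDivisors C) hle
  have : IsScalarTower C (Localization.AtPrime 𝔭) K :=
    IsLocalization.localization_isScalarTower_of_submonoid_le (Localization.AtPrime 𝔭) K
      𝔭.primeCompl (nonZeroDivisors C) hle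
  have : IsScalarTower O (Localization.AtPrime 𝔭) K := IsScalarTower.of_algebraMap_eq fun o => by
    rw [IsScalarTower.algebraMap_apply O C (Localization.AtPrime 𝔭),
      ← IsScalarTower.algebraMap_apply C (Localization.AtPrime 𝔭) K,
      ← IsScalarTower.algebraMap_apply]
  have hf : IsFractionRing (Localization.AtPrime 𝔭) K :=
    IsFractionRing.isFractionRing_of_isDomain_of_isLocalization 𝔭.primeCompl _ K
  have hn : IsIntegrallyClosed (Localization.AtPrime 𝔭) :=
    isIntegrallyClosed_of_isLocalization _ 𝔭.primeCompl hle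
  have : Algebra.EssFiniteType O (Localization.AtPrime 𝔭) :=
    Algebra.EssFiniteType.comp O C (Localization.AtPrime 𝔭)
  refine ⟨Localization.AtPrime 𝔭, inferInstance, inferInstance, inferInstance, inferInstance, hf,
    ?_, hn, hC O _ K π hπ hinj (Fin2A.locy2 π 𝔭 h)⟩
  intro γ
  constructor
  · rintro ⟨r, rfl⟩
    obtain ⟨⟨c, s⟩, rfl⟩ := IsLocalization.mk'_surjective 𝔭.primeCompl r
    refine ⟨c, s, s.2, ?_⟩
    rw [IsScalarTower.algebraMap_apply C (Localization.AtPrime 𝔭) K, ← map_mul,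
      IsLocalization.mk'_spec, ← IsScalarTower.algebraMap_apply]
  · rintro ⟨a, b, hb, e⟩
    refine ⟨IsLocalization.mk' _ a (⟨b, hb⟩ : 𝔭.primeCompl), ?_⟩
    have hb0 : algebraMap C K b ≠ 0 := by
      intro h0
      have : b = 0 := IsFractionRing.injective C K (by rw [h0, map_zero])
      exact hb (this ▸ 𝔭.zero_mem)
    apply mul_right_cancel₀ hb0
    rw [e, IsScalarTower.algebraMap_apply C (Localization.AtPrime 𝔭) K b, ← map_mul]
    have := IsLocalization.mk'_spec (Localization.AtPrime 𝔭) a (⟨b, hb⟩ : 𝔭.primeCompl)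
    rw [this, ← IsScalarTower.algebraMap_apply]

end Pool.Agent.P.MP_e7d440_ag.U
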