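import Pool.Agent.P.MP_e7d440_ag.U.Iface4
import Pool.Agent.P.MP_e7d440_ag.Scheme

/-! The final assembly from the global steps. -/

namespace Pool.Agent.P.MP_e7d440_ag.U

open LieAlgebra LieAlgebra.IsKilling

variable {L : Type} [LieRing L] [LieAlgebra ℚ L] [FiniteDimensional ℚ L] [IsKilling ℚ L]
  {H : LieSubalgebra ℚ L} [H.IsCartanSubalgebra] [LieModule.IsTriangularizable ℚ H L]

open scoped Classical in
theorem final (hB : S_brg (H := H)) (hL : S_lat (H := H))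
    (hC : ∀ (b : (rootSystem H).Base) (c : CD L H.root b.support), S_cy c) (hF : S_fin2)
    (hD : S_desc) (O J ι : Type) [CommRing O] [IsDomain O] [IsDiscreteValuationRing O]
    [CharZero O] [Fintype J] [Finite ι] [Nonempty ι] (D : Datum H O J) (x : ι → H)
    (hx : ∀ i, D.InAlc (x i)) (r : ι → ℚ) (A : Subalgebra O D.FF)
    (hA : ∀ 𝔫 : Ideal A, 𝔫.IsMaximal → ∃ C : ι → Finset (ℤ × (H.root ⊕ D.b.support)),
      (∀ i, D.IsChart (x i) (r i) (C i)) ∧ ∃ 𝔭 : Ideal (D.nchart x r C), 𝔭.IsPrime ∧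
        ∀ γ, Loc A 𝔫 γ ↔ Loc (D.nchart x r C) 𝔭 γ)
    (B : Type) [CommRing B] [IsLocalRing B] [IsNoetherianRing B] [Algebra B A]
    [Module.Finite B A] [Module.Free B A] :
    IsDomain B ∧ IsIntegrallyClosed B ∧ LTInj B := by
  obtain ⟨π, hπ⟩ := IsDiscreteValuationRing.exists_irreducible O
  obtain ⟨c, hc⟩ := hB D
  obtain ⟨hO, hCo, X, hG, hI, hCl, hW⟩ := hL D c hc
  have key : ∀ 𝔫 : Ideal A, 𝔫.IsMaximal → Good A D.FF 𝔫 := by
    intro 𝔫 h𝔫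
    obtain ⟨C, hC1, 𝔭, h𝔭, hl⟩ := hA 𝔫 h𝔫
    obtain ⟨h1, h2, h3, h4⟩ := hC D.b c π D.ζ D.s (fun j => (D.μ j : L)) c.ρ X
      (fun i => (x i : L)) r C (D.chart x r C) (D.nchart x r C) hπ hO hCo hG hI
      (fun i => hCl _ (hx i)) (fun i => ((hW _ _ _).1).1 (hC1 i)) (by
        unfold Datum.chart
        congr 1
        ext t
        exact exists_congr fun i => (hW (x i) (r i) (C i)).2 t) (fun γ => Iff.rfl)
    obtain ⟨R, i1, i2, i3, i4, a1, a2, a3, a4⟩ :=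
      hF O (D.nchart x r C) D.FF π hπ hI.algebraMap_injective h4 𝔭 h𝔭
    exact ⟨R, i1, i2, i3, i4, a1, fun γ => (a2 γ).trans
      (⟨fun ⟨a, b, hb, e⟩ => let ⟨a', b', hb', e'⟩ := (hl γ).2 ⟨a, b, hb, e⟩; ⟨a', b', hb', e'⟩,
        fun ⟨a, b, hb, e⟩ => let ⟨a', b', hb', e'⟩ := (hl γ).1 ⟨a, b, hb, e⟩;
          ⟨a', b', hb', e'⟩⟩), a3, a4⟩
  obtain ⟨i1, a1, a2⟩ := hD B A D.FF Subtype.val_injective key
  exact ⟨i1, a1, scheme B (FractionRing B) a2⟩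

end Pool.Agent.P.MP_e7d440_ag.U
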