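import Pool.Agent.P.MP_e7d440_ag.U.Iface3

/-! The sections used at a vertical prime. -/

namespace Pool.Agent.P.MP_e7d440_ag.U

open TensorProduct LieAlgebra LaurentPolynomial Set

variable {L Φ Δ : Type} [LieRing L] [LieAlgebra ℚ L] [Fintype Φ] [Fintype Δ] [DecidableEq Φ]
  [DecidableEq Δ] {c : CD L Φ Δ} {K : Type} [Field K] [CharZero K] {ζ : K}
  {J : Type} [Fintype J] [DecidableEq J] {s : J → K}

namespace HatA

/-- the exponents -/
def ep (q : ℚ) : ℕ := if q = 1 then 0 else 1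

omit [CharZero K] in
lemma coeff_mul_one (p q : LP K) (d n : ℤ) (hq : ∀ m, q.coeff m ≠ 0 → m = d) :
    (p * q).coeff n = p.coeff (n - d) * q.coeff d := by
  have e : q = AddMonoidAlgebra.single d (q.coeff d) := by
    ext m
    rw [AddMonoidAlgebra.coeff_single, Finsupp.single_apply]
    split_ifs with h
    · rw [h]
    · by_contra k
      exact h (hq m k).symm
  conv_lhs => rw [e]
  rw [AddMonoidAlgebra.coeff_mul_single_apply, sub_eq_add_neg]

lemma co_diag (h : T3a c ζ s) (p : Φ ⊕ Δ → LP K) (a : Φ × ℤ) (n : ℤ) (i : Φ ⊕ Δ) :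
    c.co (n, i) (c.diag p (c.E ζ a)) = (p i).coeff (n - a.2) * c.co (a.2, i) (c.E ζ a) := by
  rw [c.co_eq, c.co_eq, c.crd_diag]
  exact coeff_mul_one _ _ _ _ fun m hm => (h.rt1.ty a (m, i) (by rwa [c.co_eq])).1

omit [Fintype Δ] [DecidableEq Φ] [DecidableEq Δ] [Fintype J] [DecidableEq J] in
lemma orbit {lam : J → L} {β β' : Φ}
    (hb : ∀ j (k : ℕ), c.al ((c.ς ^ k) β) (lam j) = 0 ∨ c.al ((c.ς ^ k) β) (lam j) = 1)
    (e : c.ς.SameCycle β β') (j : J) (k : ℕ) :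
    c.al ((c.ς ^ k) β') (lam j) = 0 ∨ c.al ((c.ς ^ k) β') (lam j) = 1 := by
  obtain ⟨i, -, rfl⟩ := e.exists_pow_eq'
  rw [← Equiv.Perm.mul_apply, ← pow_add]
  exact hb j _

lemma deg (h : T3a c ζ s) {lam : J → L} {β : Φ}
    (hb : ∀ j (k : ℕ), c.al ((c.ς ^ k) β) (lam j) = 0 ∨ c.al ((c.ς ^ k) β) (lam j) = 1) :
    (c.dgD ep lam (.inl β) : ℚ) + c.al β (c.bar lam) = c.dg J := by
  rw [h.orb.al_bar, CD.dgD, CD.dg, Nat.cast_sum, ← Finset.sum_add_distrib,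
    Finset.sum_congr rfl (g := fun _ => (c.ℓ : ℚ)) fun j _ => ?_]
  · simp [mul_comm]
  · rw [Nat.cast_sum, ← Finset.sum_add_distrib,
      Finset.sum_congr rfl (g := fun _ => (1 : ℚ)) fun k _ => ?_]
    · simp
    · change (ep (c.al ((c.ς ^ k) β) (lam j)) : ℚ) + _ = _
      rcases hb j k with e | e <;> simp [e, ep]

end HatA

open HatA

theorem hat (h : T3a c ζ s) : S_hat c ζ s := by
  classical
  rintro lam r ⟨α, m⟩ hco hv h1 h2
  have hfix : c.Fix (c.bar lam) := h.orb.bar_fix lam fun j => (hco.2.2.1 j).1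
  simp only [CD.val, map_add] at h1 h2
  have hr : 0 < c.al (c.neg α) r := by
    rw [c.al_neg, LinearMap.neg_apply, neg_pos]
    refine lt_of_le_of_ne (not_lt.1 fun k => ?_) (hco.2.1 α)
    obtain ⟨q, hq⟩ := (h.count.co_bar lam r α hco k).2
    have : (0 : ℚ) ≤ c.per α * q := by positivity
    linarith
  obtain ⟨hb, q, hq⟩ := h.count.co_bar lam r _ hco hr
  obtain ⟨Q, hQ⟩ : ∃ Q : ℤ, Q = c.per (c.neg α) * q := ⟨_, rfl⟩
  have hQ' : c.al (c.neg α) (c.bar lam) = Q := by rw [hq, hQ]; push_cast; rfl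
  have hd : ∀ β, c.ς.SameCycle (c.neg α) β → (c.dgD ep lam (.inl β) : ℤ) = c.dg J - Q := by
    intro β e
    have := deg h (orbit hb e)
    rw [← h.cd.fix_al _ hfix _ _ e, hQ'] at this
    rw [eq_sub_iff_add_eq]
    exact_mod_cast this
  have hv' : c.Valid ζ (c.neg α, Q - m) :=
    (h.rt1.valid_per _ _ _ (h.rt1.valid_ng _ hv)).2 ⟨q, by rw [hQ]; simp⟩
  obtain ⟨f, hf⟩ : ∃ f, f = c.diag (c.dgp ζ s ep lam) (c.E ζ (c.neg α, Q - m)) := ⟨_, rfl⟩
  have hfe : f ∈ c.Eqv ζ := hf ▸ (h.dgp.eqv _ _ _ _).2 (h.rt1.eqv _)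
  have hs : ∀ a', c.co a' f ≠ 0 → ∃ β, a'.2 = .inl β ∧ c.ς.SameCycle (c.neg α) β ∧
      Q - m ≤ a'.1 ∧ a'.1 ≤ c.dg J - m := by
    rintro ⟨n, i⟩ k
    rw [hf, co_diag h] at k
    obtain ⟨-, β, e, e'⟩ := h.rt1.ty _ _ (right_ne_zero_of_mul k)
    have := h.dgp.supp _ _ _ _ _ (left_ne_zero_of_mul k)
    simp only at e this
    rw [e, hd β e'] at this
    exact ⟨β, e, e', by omega, by omega⟩
  obtain ⟨e, -, he⟩ := h.dgp.top ep lam (.inl (c.neg α))
  have hz : ζ ^ e ≠ 0 := zpow_ne_zero _ (h.prim.ne_zero c.ℓ_pos.ne')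
  have htop : c.pr (c.Ty (c.neg α, -m + c.dg J)) f = ζ ^ e • c.E ζ (c.neg α, -m + c.dg J) := by
    rw [h.rt2.pure f hfe, CD.cE, CD.ix, hf, co_diag h]
    congr 1
    have k := h.rt1.co _ hv'
    have k' := he s
    rw [hd _ (Equiv.Perm.SameCycle.refl _ _)] at k'
    simp only [CD.ix] at k ⊢
    rw [k, show -m + c.dg J - (Q - m) = c.dg J - Q by ring, k', mul_div_assoc,
      div_self (h.rt1.th_ne _).2.1, mul_one]
  have hs' : ∀ a', c.co a' ((ζ ^ e)⁻¹ • f) ≠ 0 → c.co a' f ≠ 0 := fun a' k k' =>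
    k (by rw [map_smul, k', smul_zero])
  have hal : ∀ z, c.Fix z → ∀ β, c.ς.SameCycle (c.neg α) β → c.al β z = -c.al α z := by
    intro z hz β e'
    rw [← h.cd.fix_al _ hz _ _ e', c.al_neg, LinearMap.neg_apply]
  refine ⟨(ζ ^ e)⁻¹ • f, Submodule.smul_mem _ _ ⟨hfe, fun j => ⟨fun i k => ?_, ?_⟩⟩,
    Submodule.smul_mem _ _ fun a' k => ?_, fun S hS hsS => ?_, fun a' k => ?_, fun z hz' => ?_⟩
  · by_contra k'
    rw [h.lp.crd_ev, hf, c.crd_diag] at k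
    exact k ((h.dgp.van ep lam i j _).1 (by rw [ep, if_neg (mem_singleton_iff.not.1 k')]))
  · refine (h.fd.perp _ (hco.2.2.1 j) _).2 fun i k => ?_
    rw [h.lp.crd_ev, h.lp.crd_dd] at k
    have k' : c.crd i f ≠ 0 := fun k' => k (by rw [k', map_zero, map_zero])
    obtain ⟨n, hn⟩ : ∃ n, (c.crd i f).coeff n ≠ 0 := by
      by_contra t
      exact k' (LaurentPolynomial.ext fun n => not_not.1 fun t' => t ⟨n, t'⟩)
    obtain ⟨β, e1, e2, -⟩ := hs (n, i) (by rwa [c.co_eq])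
    simp only at e1
    rw [e1]
    change 0 ≤ c.al β (lam j)
    rcases orbit hb e2 j 0 with t | t <;> rw [pow_zero, Equiv.Perm.one_apply] at t <;> simp [t]
  · obtain ⟨β, e1, e2, e3, -⟩ := hs a' k
    have e4 : ((Q - m : ℤ) : ℚ) ≤ a'.1 := by exact_mod_cast e3
    rw [hal _ hfix _ (Equiv.Perm.SameCycle.refl _ _)] at hQ'
    change 0 < c.wt0 c.ρ a'.2 + a'.1
    rw [e1]
    change 0 < c.al β c.ρ + a'.1
    rw [hal _ c.fix_ρ _ e2]
    push_cast at e4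
    linarith
  · rintro ⟨n, i⟩
    rw [map_smul, hf, co_diag h, ← zpow_neg]
    exact S.mul_mem (h.eqv.zpow_mem S hS _)
      (S.mul_mem (h.dgp.int S s hS hsS _ _ _ _) (h.rt1.int S hS _ _))
  · obtain ⟨β, e1, e2, -⟩ := hs a' (hs' a' k)
    exact ⟨β, e1, e2⟩
  · have e0 : (ζ ^ e)⁻¹ • f - (T (c.dg J : ℤ) : LP K) • c.F ζ (α, m) =
        (ζ ^ e)⁻¹ • (f - c.pr (c.Ty (c.neg α, -m + c.dg J)) f) := by
      rw [htop, smul_sub, smul_smul, inv_mul_cancel₀ hz, one_smul, CD.F, CD.ng,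
        h.rt1.T_E _ _ _ h.div.dg_dvd]
    rw [e0]
    refine Submodule.smul_mem _ _ fun a' k => ?_
    rw [map_sub, c.co_pr] at k
    split_ifs at k with t
    · exact absurd (sub_self _) k
    · rw [sub_zero] at k
      obtain ⟨β, e1, e2, -, e3⟩ := hs a' k
      have e4 : a'.1 < c.dg J - m := lt_of_le_of_ne e3 fun e4 =>
        t ⟨by rw [e4]; ring, β, e1, e2⟩
      have e5 : (a'.1 : ℚ) < ((c.dg J - m : ℤ) : ℚ) := by exact_mod_cast e4
      change c.wt0 z a'.2 + a'.1 < c.dg J - (c.al α z + m)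
      rw [e1]
      change c.al β z + a'.1 < _
      rw [hal _ hz' _ e2]
      push_cast at e5
      linarith

namespace HatA

/-- The entries of the matrix on and below the diagonal. -/
lemma entry (h : T3a c ζ s) {lam : J → L} {z : L} (hz : c.Fix z) {a b : Φ × ℤ} {f : LG L K}
    (hf : c.Hat ζ s lam a f) (hb : 0 < c.val b c.ρ) (hle : c.val b z ≤ c.val a z) {g : Op L K}
    (hla : c.LA ζ g) (hg : c.Aut0 ζ 1 g c.ρ) (hl : c.Low ζ z g) :
    ∑ j, c.vp s j * evL (s j) (c.kR (LP K) (c.E ζ b) (g f)) =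
      (c.kR (LP K) (c.E ζ b) (c.F ζ a)).coeff 0 := by
  have hfe : f ∈ c.Eqv ζ := hf.nn.1
  have hpos : ∀ n, (c.kR (LP K) (c.E ζ b) (g f)).coeff n ≠ 0 → 0 < n := fun n hn => by
    obtain ⟨p, hp, p', hp', e⟩ := h.sup.kR c.ρ _ _ _ _ (h.rt1.sup b _ c.fix_ρ)
      ((h.la.aut_gt _ _ _ hg 0 f hfe).2 hf.pos) n hn
    rw [mem_singleton_iff] at hp
    rw [mem_Ioi] at hp'
    have : (0 : ℚ) < n := by linarith
    exact_mod_cast this
  have hT : (T (c.dg J : ℤ) : LP K) • c.F ζ a ∈ c.Sup z {c.dg J - c.val a z} :=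
    (h.sup.sup_T _ _ _ _).2 (c.Sup_mono (fun q hq => by
      rw [mem_singleton_iff] at hq
      simp only [mem_ofPred_eq, mem_singleton_iff, hq]
      push_cast
      ring) (h.rt1.supF a z hz))
  have hT' : (T (c.dg J : ℤ) : LP K) • c.F ζ a ∈ c.Sup z (Iic (c.dg J - c.val a z)) :=
    c.Sup_mono (fun q hq => le_of_eq hq) hT
  have h1 : f ∈ c.Sup z (Iic (c.dg J - c.val a z)) := by
    have := add_mem (c.Sup_mono Iio_subset_Iic_self (hf.top z hz)) hT'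
    rwa [sub_add_cancel] at this
  have h2 : g f - (T (c.dg J : ℤ) : LP K) • c.F ζ a ∈ c.Sup z (Iio (c.dg J - c.val a z)) := by
    have := add_mem (hl _ f hfe h1) (hf.top z hz)
    rwa [sub_add_sub_cancel] at this
  have h3 : ∀ n : ℤ, (c.dg J : ℤ) ≤ n →
      (c.kR (LP K) (c.E ζ b) (g f - (T (c.dg J : ℤ) : LP K) • c.F ζ a)).coeff n = 0 := by
    intro n hn
    by_contra k
    obtain ⟨p, hp, p', hp', e⟩ := h.sup.kR z _ _ _ _ (h.rt1.sup b _ hz) h2 n k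
    rw [mem_singleton_iff] at hp
    rw [mem_Iio] at hp'
    have : ((c.dg J : ℤ) : ℚ) ≤ n := by exact_mod_cast hn
    push_cast at this
    linarith
  have h4 : ∀ n : ℤ, (c.dg J : ℤ) ≤ n → (c.kR (LP K) (c.E ζ b) (g f)).coeff n =
      (c.kR (LP K) (c.E ζ b) ((T (c.dg J : ℤ) : LP K) • c.F ζ a)).coeff n := by
    intro n hn
    have := h3 n hn
    rwa [map_sub, AddMonoidAlgebra.coeff_sub, Finsupp.sub_apply, sub_eq_zero] at this
  rw [h.res.res _ fun n hn => ⟨(hpos n hn).le, not_lt.1 fun k => ?_,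
    h.eqv.kR _ (h.rt1.eqv b) _ ((hla.eqv f).2 hfe) n hn⟩]
  · have h0 : (c.kR (LP K) (c.E ζ b) (g f)).coeff 0 = 0 := by
      by_contra k
      exact lt_irrefl _ (hpos 0 k)
    rw [h0, zero_div, neg_zero, zero_add, h4 _ le_rfl, map_smul, smul_eq_mul, mul_comm,
      coeff_mul_one _ _ (c.dg J) _ fun m hm => ?_, sub_self, T_apply, if_pos rfl, mul_one]
    by_contra k
    exact hm (by rw [T_apply, if_neg (Ne.symm k)])
  · rw [h4 n k.le] at hn
    obtain ⟨p, hp, p', hp', e⟩ := h.sup.kR z _ _ _ _ (h.rt1.sup b _ hz) hT n hn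
    rw [mem_singleton_iff] at hp hp'
    have : ((c.dg J : ℤ) : ℚ) < n := by exact_mod_cast k
    push_cast at this
    linarith

end HatA

theorem vb (h : T3a c ζ s) : S_vb c ζ s := by
  intro lam n a y f hm hg hf
  have hr := (h.count.reg lam hm).1
  have hmem := h.gal.mem _ _ _ _ hr hg
  have key : ∀ k l, c.val (a l) (c.ρ + c.bar lam) ≤ c.val (a k) (c.ρ + c.bar lam) →
      (c.PP s (fun k j => ev (s j) (c.E ζ (a k))) y l fun j => ev (s j) (f k)) =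
        (c.kR (LP K) (c.E ζ (a l)) (c.F ζ (a k))).coeff 0 := by
    intro k l hle
    rw [← entry h hr.1 (hf k) (hmem l).2.1 hle (h.la.pf a y (l + 1))
      (h.la.aut_pf a y (l + 1) _ c.fix_ρ fun i => (hmem i).2.1)
      (h.la.low_pf a y (l + 1) _ hr.1 fun i => (hmem i).2.2), ← h.res.pair, CD.PP]
    congr 1
    funext j
    rw [h.lp.ev_op _ (h.pt.ne j), h.lp.evE_pf _ (h.pt.ne j) _ _ fun i => h.rt1.nil _ _]
    simp only [map_smul]
  rw [h.resd.tri (fun k => -c.val (a k) (c.ρ + c.bar lam)) _ fun k l hkl hne => ?_]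
  · refine Finset.prod_congr rfl fun k _ => ?_
    rw [Matrix.of_apply, key k k le_rfl, h.rt1.kREF _ (hmem k).1, C_apply, if_pos rfl]
  · refine neg_lt_neg (not_le.1 fun hle => hne ?_)
    rw [Matrix.of_apply, key k l hle]
    exact h.rt1.kREE _ _ (h.gal.ne _ _ _ _ hr hg l k (Ne.symm hkl))

end Pool.Agent.P.MP_e7d440_ag.U
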