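import Pool.Agent.P.MP_e7d440_ag.U.Iface

/-! Points of the flag variety with values in a valuation ring lie in a big cell. -/

namespace Pool.Agent.P.MP_e7d440_ag.U

open TensorProduct LieAlgebra LaurentPolynomial Set

variable {L Φ Δ : Type} [LieRing L] [LieAlgebra ℚ L] [Fintype Φ] [Fintype Δ] [DecidableEq Φ]
  [DecidableEq Δ] (c : CD L Φ Δ)

namespace HorvA

variable {c}
variable {K R k : Type} [Field K] [CharZero K] [CommRing R] [Algebra ℚ R] [Field k] [CharZero k]

/-- a model of a valuation ring with its residue field -/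
structure Md (V : ValuationSubring K) (i : R →+* K) (ρ : R →+* k) : Prop where
  inj : Function.Injective i
  rng : ∀ γ, γ ∈ V ↔ ∃ r, i r = γ
  sur : Function.Surjective ρ
  ker : ∀ r, ρ r = 0 ↔ i r ∈ V.nonunits

variable {V : ValuationSubring K} {i : R →+* K} {ρ : R →+* k}

omit [Fintype Φ] [Fintype Δ] [DecidableEq Φ] [DecidableEq Δ] [CharZero k] in
lemma inj (c : CD L Φ Δ) (m : Md V i ρ) {x y : G L R}
    (e : mqa (i : R →+ K) x = mqa (i : R →+ K) y) : x = y :=
  c.ext0 fun j => m.inj (by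
    have := congrArg (c.crd j) e
    rw [c.crd_mqa, c.crd_mqa] at this
    exact this)

omit [DecidableEq Φ] [DecidableEq Δ] in
lemma exists_crd {S : Type} [CommRing S] [Algebra ℚ S] (c : CD L Φ Δ) (r : Φ ⊕ Δ → S) :
    ∃ y : G L S, ∀ j, c.crd j y = r j :=
  ⟨(c.bs S).equivFun.symm r, fun j => by
    rw [c.crd_eq, ← Module.Basis.equivFun_apply, LinearEquiv.apply_symm_apply]⟩

omit [DecidableEq Φ] [DecidableEq Δ] [CharZero k] in
lemma lift (m : Md V i ρ) {x : G L K} (hx : c.In0 V x) : ∃ y : G L R, mqa (i : R →+ K) y = x := by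
  choose r hr using fun j => (m.rng _).1 (hx j)
  obtain ⟨y, hy⟩ := exists_crd c r
  exact ⟨y, c.ext0 fun j => by rw [c.crd_mqa, hy]; exact hr j⟩

/-- the reduction of a subspace -/
def bar (h : T0 c) (m : Md V i ρ) (N : Submodule K (G L K)) : Submodule k (G L k) where
  carrier := {z | ∃ x : G L R, mqa (i : R →+ K) x ∈ N ∧ mqa (ρ : R →+ k) x = z}
  add_mem' := by
    rintro _ _ ⟨x, hx, rfl⟩ ⟨y, hy, rfl⟩
    exact ⟨x + y, by rw [map_add]; exact N.add_mem hx hy, map_add _ _ _⟩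
  zero_mem' := ⟨0, by rw [map_zero]; exact N.zero_mem, map_zero _⟩
  smul_mem' := by
    rintro t _ ⟨x, hx, rfl⟩
    obtain ⟨r, rfl⟩ := m.sur t
    exact ⟨r • x, by rw [h.gk.mqa_smul]; exact N.smul_mem _ hx, h.gk.mqa_smul _ _ _⟩

lemma mem_bar {h : T0 c} {m : Md V i ρ} {N : Submodule K (G L K)} {z : G L k} :
    z ∈ bar h m N ↔ ∃ x : G L R, mqa (i : R →+ K) x ∈ N ∧ mqa (ρ : R →+ k) x = z := Iff.rfl

omit [CharZero k] in
lemma basis (hr : S_resd) (m : Md V i ρ) (N : Submodule K (G L K)) :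
    ∃ (C : Finset (Φ ⊕ Δ)) (w : Φ ⊕ Δ → G L R), (∀ b ∈ C, mqa (i : R →+ K) (w b) ∈ N) ∧
      (∀ b ∈ C, ∀ a ∈ C, c.crd a (w b) = if a = b then 1 else 0) ∧
      (∀ u ∈ N, u = ∑ b ∈ C, c.crd b u • mqa (i : R →+ K) (w b)) ∧
      C.card = Module.finrank K N := by
  obtain ⟨C, n, h1, h2, h3, h4, h5⟩ := hr.piv V (N.map (c.bs K).equivFun.toLinearMap)
  have e1 : ∀ b j, c.crd j ((c.bs K).equivFun.symm (n b)) = n b j := fun b j => by
    rw [c.crd_eq, ← Module.Basis.equivFun_apply, LinearEquiv.apply_symm_apply]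
  choose w hw using fun b => lift (c := c) m (x := (c.bs K).equivFun.symm (n b))
    (fun j => by rw [e1]; exact h2 b j)
  refine ⟨C, w, fun b hb => ?_, fun b hb a ha => m.inj ?_, fun u hu => ?_, ?_⟩
  · obtain ⟨y, hy, e⟩ := h1 b hb
    rw [hw, ← e]
    simpa using hy
  · have := congrArg (c.crd a) (hw b)
    rw [c.crd_mqa, e1, h3 b hb a ha] at this
    refine this.trans ?_
    split_ifs <;> simp
  · refine c.ext0 fun j => ?_
    have := congrFun (h4 _ ⟨u, hu, rfl⟩) j
    rw [map_sum]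
    simp only [map_smul, hw, e1]
    simpa [Finset.sum_apply, c.crd_eq] using this
  · rw [h5, LinearEquiv.finrank_map_eq]

lemma finrank_bar (h : T0 c) (hr : S_resd) (m : Md V i ρ) (N : Submodule K (G L K)) :
    Module.finrank k (bar h m N) = Module.finrank K N := by
  obtain ⟨C, w, h1, h2, h3, h4⟩ := basis (c := c) hr m N
  have li : LinearIndependent k fun b : C => mqa (ρ : R →+ k) (w b) := by
    rw [Fintype.linearIndependent_iff]
    intro g hg a
    have := congrArg (c.crd a.1) hg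
    rw [map_sum, map_zero, Finset.sum_eq_single a] at this
    · rw [map_smul, c.crd_mqa, h2 _ a.2 _ a.2, if_pos rfl] at this
      simpa using this
    · intro b _ hb
      rw [map_smul, c.crd_mqa, h2 _ b.2 _ a.2, if_neg (fun e => hb (Subtype.ext e.symm))]
      simp
    · simp
  have e : bar h m N = Submodule.span k (range fun b : C => mqa (ρ : R →+ k) (w b)) := by
    refine le_antisymm ?_ (Submodule.span_le.2 ?_)
    · rintro _ ⟨x, hx, rfl⟩
      have e1 : x = ∑ b ∈ C, c.crd b x • w b := by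
        refine inj c m ?_
        rw [map_sum]
        refine (h3 _ hx).trans (Finset.sum_congr rfl fun b _ => ?_)
        rw [h.gk.mqa_smul, c.crd_mqa]
        rfl
      rw [e1, map_sum]
      refine Submodule.sum_mem _ fun b hb => ?_
      rw [h.gk.mqa_smul]
      exact Submodule.smul_mem _ _ (Submodule.subset_span ⟨⟨b, hb⟩, rfl⟩)
    · rintro _ ⟨b, rfl⟩
      exact ⟨w b, h1 _ b.2, rfl⟩
  rw [e, finrank_span_eq_card li, Fintype.card_coe, h4]

lemma nondeg (h : T0 c) (K : Type) [Field K] [CharZero K] : (c.kR K).Nondegenerate := by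
  have key : ∀ x : G L K, (∀ y, c.kR K y x = 0) → x = 0 := fun x hx => c.ext0 fun j => by
    obtain ⟨d, hd⟩ := h.gk.dual j
    rw [← hd, hx, map_zero]
  exact ⟨fun x hx => key x fun y => by rw [h.gk.symm]; exact hx y, fun x hx => key x hx⟩

lemma finrank_orth (h : T0 c) (N : Submodule K (G L K)) :
    Module.finrank K ((c.kR K).orthogonal N) = Fintype.card (Φ ⊕ Δ) - Module.finrank K N := by
  haveI := (c.bs K).finiteDimensional_of_finite
  rw [LinearMap.BilinForm.finrank_orthogonal (nondeg h K), Module.finrank_eq_card_basis (c.bs K)]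

lemma orth_bar (h : T0 c) (hr : S_resd) (m : Md V i ρ) (N : Submodule K (G L K)) (z : G L k)
    (hz : ∀ x ∈ bar h m N, c.kR k z x = 0) :
    ∃ y : G L R, (∀ x ∈ N, c.kR K (mqa (i : R →+ K) y) x = 0) ∧ mqa (ρ : R →+ k) y = z := by
  haveI := (c.bs k).finiteDimensional_of_finite
  have e : bar h m ((c.kR K).orthogonal N) = (c.kR k).orthogonal (bar h m N) := by
    refine Submodule.eq_of_le_of_finrank_eq ?_ ?_
    · rintro _ ⟨y, hy, rfl⟩
      rw [LinearMap.BilinForm.mem_orthogonal_iff]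
      rintro _ ⟨x, hx, rfl⟩
      have h1 : c.kR K _ _ = 0 := LinearMap.BilinForm.mem_orthogonal_iff.1 hy _ hx
      rw [h.gk.mqa_kR] at h1
      have h2 : c.kR R x y = 0 := m.inj (h1.trans (map_zero i).symm)
      change c.kR k _ _ = 0
      rw [h.gk.mqa_kR, h2, map_zero]
    · rw [finrank_bar h hr, finrank_orth h, finrank_orth h, finrank_bar h hr]
  have h1 : z ∈ (c.kR k).orthogonal (bar h m N) := by
    rw [LinearMap.BilinForm.mem_orthogonal_iff]
    intro x hx
    change c.kR k _ _ = 0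
    rw [h.gk.symm]
    exact hz x hx
  rw [← e] at h1
  obtain ⟨y, hy, rfl⟩ := h1
  refine ⟨y, fun x hx => ?_, rfl⟩
  rw [h.gk.symm]
  exact LinearMap.BilinForm.mem_orthogonal_iff.1 hy _ hx

lemma nil_of (h : T0 c) (m : Md V i ρ) {x : G L R} (hx : Nil (mqa (i : R →+ K) x)) : Nil x := by
  obtain ⟨N, hN⟩ := hx
  have e : ∀ (n : ℕ) (y : G L R), mqa (i : R →+ K) ((ad R (G L R) x ^ n) y) =
      (ad K (G L K) (mqa (i : R →+ K) x) ^ n) (mqa (i : R →+ K) y) := by
    intro n
    induction n with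
    | zero => intro y; rfl
    | succ n ih =>
      intro y
      rw [pow_succ', pow_succ', Module.End.mul_apply, Module.End.mul_apply, ad_apply, ad_apply,
        h.gk.mqa_lie, ih]
  refine ⟨N, LinearMap.ext fun y => inj c m ?_⟩
  rw [e, hN]
  simp

lemma main (h : T0 c) (hf : S_fd c K) (hr : S_resd) (h0 : S_horv0 c k) (m : Md V i ρ)
    (U : Submodule K (G L K)) (hU : c.FD U) (hne : U ≠ ⊥) : ∃ lam, c.Min lam ∧
      Module.finrank K U = Fintype.card {β // c.al β lam = 1} ∧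
      ∀ u ∈ U, c.In0 V u → (∀ β, c.al β lam = 1 → c.crd (.inl β) u ∈ V.nonunits) →
        c.In0 V.nonunits u := by
  haveI := (c.bs k).finiteDimensional_of_finite
  haveI := (c.bs K).finiteDimensional_of_finite
  obtain ⟨μ, hμ1, hμ2⟩ := hU.gr
  have hμ : μ ∉ U := fun hm => hne ((Submodule.eq_bot_iff _).2 fun x hx =>
    (hμ1 x hx).symm.trans (hf.iso U hU μ hm x hx).2)
  have lt : U < U ⊔ Submodule.span K {μ} := lt_of_le_of_ne le_sup_left fun e =>
    hμ (e ▸ Submodule.mem_sup_right (Submodule.mem_span_singleton_self μ))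
  have nle : ¬ bar h m (U ⊔ Submodule.span K {μ}) ≤ bar h m U := fun hle => by
    have h1 := Submodule.finrank_mono hle
    have h2 := Submodule.finrank_lt_finrank_of_lt lt
    rw [finrank_bar h hr, finrank_bar h hr] at h1
    omega
  obtain ⟨_, ⟨ν, hν, rfl⟩, hν'⟩ := SetLike.not_le_iff_exists.1 nle
  obtain ⟨u, hu, _, h1, e⟩ := Submodule.mem_sup.1 hν
  obtain ⟨a, rfl⟩ := Submodule.mem_span_singleton.1 h1
  have act : ∀ x ∈ U, ⁅mqa (i : R →+ K) ν, x⁆ = a • x := fun x hx => by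
    rw [← e, add_lie, smul_lie, hμ1 x hx, (hf.iso U hU u hu x hx).2, zero_add]
  obtain ⟨r, rfl⟩ : ∃ r, i r = a := by
    obtain ⟨C, w, h1, h2, h3, -⟩ := basis (c := c) hr m U
    obtain ⟨b, hb⟩ : C.Nonempty := by
      by_contra hC
      rw [Finset.not_nonempty_iff_eq_empty] at hC
      subst hC
      exact hne ((Submodule.eq_bot_iff _).2 fun x hx => by simpa using h3 x hx)
    have := congrArg (c.crd b) (act _ (h1 b hb))
    rw [← h.gk.mqa_lie, map_smul, c.crd_mqa, c.crd_mqa, h2 b hb b hb, if_pos rfl] at this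
    exact ⟨_, by simpa using this⟩
  obtain ⟨lam, l1, l2, l3⟩ := h0 (bar h m U) (mqa (ρ : R →+ k) ν) (ρ r)
    (by
      rintro _ ⟨x, hx, rfl⟩
      exact (h.ex.nat ρ x (nil_of h m (hU.nil _ hx))).1)
    (by
      rintro _ ⟨x, hx, rfl⟩ _ ⟨y, hy, rfl⟩
      have : ⁅x, y⁆ = 0 := inj c m (by rw [h.gk.mqa_lie, (hf.iso U hU _ hx _ hy).2, map_zero])
      rw [← h.gk.mqa_lie, this, map_zero])
    (by
      rintro z hz _ ⟨x, hx, rfl⟩
      obtain ⟨y, hy, rfl⟩ := orth_bar h hr m U z hz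
      exact ⟨⁅y, x⁆, by rw [h.gk.mqa_lie]; exact hU.perp _ hy _ hx, h.gk.mqa_lie _ _ _⟩)
    hν'
    (by
      rintro _ ⟨x, hx, rfl⟩
      have : ⁅ν, x⁆ = r • x := inj c m (by rw [h.gk.mqa_lie, act _ hx, h.gk.mqa_smul])
      rw [← h.gk.mqa_lie, this, h.gk.mqa_smul])
    (by
      intro z hz
      obtain ⟨y, hy, rfl⟩ := orth_bar h hr m U z hz
      refine ⟨⁅ν, y⁆, ?_, h.gk.mqa_lie _ _ _⟩
      rw [h.gk.mqa_lie, ← e, add_lie, smul_lie, ← lie_skew]
      exact U.add_mem (U.neg_mem (hU.perp _ hy _ hu)) (U.smul_mem _ (hμ2 _ hy)))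
  refine ⟨lam, l1, by rw [← l2, finrank_bar h hr], fun u hu hV hβ j => ?_⟩
  obtain ⟨x, rfl⟩ := lift m hV
  have h2 := l3 _ ⟨x, hu, rfl⟩ fun β hb => by
    have := hβ β hb
    rw [c.crd_mqa] at this ⊢
    exact (m.ker _).2 this
  have h3 := congrArg (c.crd j) h2
  rw [c.crd_mqa, map_zero] at h3
  rw [c.crd_mqa]
  exact (m.ker _).1 h3

end HorvA

variable (K : Type) [Field K] [CharZero K]

theorem horv (h : T0 c) (hf : S_fd c K) (hr : S_resd)
    (h0 : ∀ (k : Type) [Field k] [CharZero k], S_horv0 c k) : S_horv c K := by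
  intro V U hq hU
  by_cases hne : U = ⊥
  · subst hne
    refine ⟨0, ⟨c.isH_zero, fun α => Or.inl (map_zero _)⟩, ?_, fun u hu _ _ j => ?_⟩
    · rw [finrank_bot, eq_comm, Fintype.card_eq_zero_iff]
      exact ⟨fun β => by simpa using β.2⟩
    · rw [(Submodule.mem_bot K).1 hu, map_zero]
      exact V.nonunits.zero_mem
  letI : Algebra ℚ V := ((Rat.castHom K).codRestrict V hq).toAlgebra
  haveI : CharZero (IsLocalRing.ResidueField V) :=
    charZero_of_injective_ringHom
      (f := (IsLocalRing.residue V).comp ((Rat.castHom K).codRestrict V hq)) (RingHom.injective _)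
  exact HorvA.main (i := V.subtype) (ρ := IsLocalRing.residue V) h hf hr (h0 _)
    ⟨Subtype.val_injective, fun γ => ⟨fun hγ => ⟨⟨γ, hγ⟩, rfl⟩, fun ⟨r, e⟩ => e ▸ r.2⟩,
      IsLocalRing.residue_surjective, fun r => by
        rw [IsLocalRing.residue_eq_zero_iff]
        exact ValuationSubring.coe_mem_nonunits_iff.symm⟩ U hU hne

end Pool.Agent.P.MP_e7d440_ag.U
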