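import Pool.Agent.P.MP_e7d440_ag.U.Iface

/-! Every limit of nilradicals lies in a big cell. -/

namespace Pool.Agent.P.MP_e7d440_ag.U

open TensorProduct LieAlgebra LaurentPolynomial Set

variable {L Φ Δ : Type} [LieRing L] [LieAlgebra ℚ L] [Fintype Φ] [Fintype Δ] [DecidableEq Φ]
  [DecidableEq Δ] (c : CD L Φ Δ) {K : Type} [Field K] [CharZero K]

set_option linter.unusedSectionVars false

namespace Horv0A

open Module

/-- the component of weight `r` -/
noncomputable def pr (r : ℚ) : Module.End K (G L K) :=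
  c.diag fun i => if c.wt0 c.ρ i = r then 1 else 0

/-- the space of top components -/
def inn (W : Submodule K (G L K)) : Submodule K (G L K) where
  carrier := {x | ∀ r, ∃ w ∈ W, w ∈ c.Gr c.ρ (Iic r) ∧ pr c r w = pr c r x}
  add_mem' {x y} hx hy r := by
    obtain ⟨w, a1, a2, a3⟩ := hx r
    obtain ⟨v, b1, b2, b3⟩ := hy r
    exact ⟨w + v, add_mem a1 b1, add_mem a2 b2, by rw [map_add, map_add, a3, b3]⟩
  zero_mem' r := ⟨0, zero_mem _, zero_mem _, rfl⟩
  smul_mem' t x hx r := by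
    obtain ⟨w, a1, a2, a3⟩ := hx r
    exact ⟨t • w, W.smul_mem t a1, Submodule.smul_mem _ t a2, by rw [map_smul, map_smul, a3]⟩

variable {c} {r s : ℚ} {x y w : G L K} {W : Submodule K (G L K)} {P Q : Set ℚ}

section
omit [Fintype Φ] [Fintype Δ] [DecidableEq Φ] [DecidableEq Δ]

lemma crd_pr (r : ℚ) (i : Φ ⊕ Δ) (x : G L K) :
    c.crd i (pr c r x) = if c.wt0 c.ρ i = r then c.crd i x else 0 := by
  rw [pr, c.crd_diag]; split_ifs <;> simp

lemma pr_mem (r : ℚ) (x : G L K) : pr c r x ∈ c.Gr c.ρ {r} := fun i h => by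
  rw [crd_pr] at h
  by_contra h'
  exact h (if_neg h')

lemma pr_zero (h : x ∈ c.Gr c.ρ P) (hr : r ∉ P) : pr c r x = 0 := c.ext0 fun i => by
  rw [crd_pr, map_zero]
  split_ifs with h1
  · by_contra h2
    exact hr (h1 ▸ h i h2)
  · rfl

lemma pr_self (h : x ∈ c.Gr c.ρ {r}) : pr c r x = x := c.ext0 fun i => by
  rw [crd_pr]
  split_ifs with h1
  · rfl
  · by_contra h2
    exact h1 (h i (Ne.symm h2))

lemma sub_pr (h : x ∈ c.Gr c.ρ (Iic r)) : x - pr c r x ∈ c.Gr c.ρ (Iio r) := fun i h1 => by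
  rw [map_sub, crd_pr] at h1
  split_ifs at h1 with h2
  · exact absurd (sub_self _) h1
  · exact lt_of_le_of_ne (h i (by simpa using h1)) h2

lemma pr_eq (h : x ∈ c.Gr c.ρ {r}) (h' : y - x ∈ c.Gr c.ρ (Iio r)) : pr c r y = x := by
  have := pr_zero h' (lt_irrefl r)
  rwa [map_sub, pr_self h, sub_eq_zero] at this

lemma pr_inn (h : w ∈ W) (h' : w ∈ c.Gr c.ρ (Iic r)) : pr c r w ∈ inn c W := fun s => by
  by_cases e : s = r
  · exact ⟨w, h, e ▸ h', by rw [e, pr_self (pr_mem r w)]⟩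
  · exact ⟨0, zero_mem _, zero_mem _, by rw [map_zero, pr_zero (pr_mem r w) e]⟩

lemma rk [FiniteDimensional K (G L K)] (f : Module.End K (G L K)) (U : Submodule K (G L K)) :
    finrank K (U.map f) + finrank K (U ⊓ LinearMap.ker f : Submodule K _) = finrank K U := by
  rw [← (f.domRestrict U).finrank_range_add_finrank_ker, LinearMap.range_domRestrict,
    LinearMap.ker_domRestrict, ← Submodule.finrank_map_subtype_eq, Submodule.map_comap_subtype]

lemma rk_le [FiniteDimensional K (G L K)] (S : Finset ℚ) : ∀ W : Submodule K (G L K),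
    W ≤ c.Gr c.ρ S → finrank K W ≤ finrank K (inn c W) := by
  induction S using Finset.induction_on_max with
  | empty =>
    intro W h
    rw [show W = ⊥ from eq_bot_iff.2 fun x hx => c.ext0 fun i => by
      by_contra h1
      simpa using h hx i (by simpa using h1), finrank_bot]
    exact Nat.zero_le _
  | insert r S hr ih =>
    intro W h
    have h1 : ∀ w ∈ W, w ∈ c.Gr c.ρ (Iic r) := fun w hw i hi => by
      rcases Finset.mem_insert.1 (h hw i hi) with e | e
      exacts [e.le, (hr _ e).le]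
    rw [← rk (pr c r) W, ← rk (pr c r) (inn c W)]
    refine add_le_add (Submodule.finrank_mono ?_) ((ih _ fun w hw i hi => ?_).trans
      (Submodule.finrank_mono fun x hx => ⟨fun s => ?_, ?_⟩))
    · rintro _ ⟨w, hw, rfl⟩
      exact ⟨_, pr_inn hw (h1 w hw), pr_self (pr_mem r w)⟩
    · refine (Finset.mem_insert.1 (h hw.1 i hi)).resolve_left fun e => hi ?_
      have := crd_pr r i w (c := c)
      rw [show pr c r w = 0 from hw.2, if_pos e, map_zero] at this
      exact this.symm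
    · obtain ⟨w, a1, a2⟩ := hx s
      exact ⟨w, a1.1, a2⟩
    · obtain ⟨w, a1, -, a3⟩ := hx r
      exact a3.symm.trans a1.2

end

lemma top (h : x ≠ 0) :
    ∃ i, c.crd i x ≠ 0 ∧ x ∈ c.Gr c.ρ (Iic (c.wt0 c.ρ i)) := by
  obtain ⟨i, h1, h2⟩ := Set.exists_max_image {i | c.crd i x ≠ 0} (c.wt0 c.ρ) (toFinite _) (by
    by_contra h'
    exact h (c.ext0 fun i => by
      by_contra h1
      exact h' ⟨i, by simpa using h1⟩))
  exact ⟨i, h1, h2⟩

lemma ind (U : Submodule K (G L K)) (h : ∀ r, pr c r x ∈ U) : x ∈ U := by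
  classical
  have : x = ∑ r ∈ Finset.univ.image (c.wt0 c.ρ), pr c r x := c.ext0 fun i => by
    simp [map_sum, crd_pr]
  rw [this]
  exact U.sum_mem fun r _ => h r

lemma ind' (U : Submodule K (G L K)) (hx : x ∈ inn c W)
    (h : ∀ r, ∀ w ∈ W, w ∈ c.Gr c.ρ (Iic r) → pr c r w ∈ U) : x ∈ U := ind U fun r => by
  obtain ⟨w, a1, a2, a3⟩ := hx r
  exact a3 ▸ h r w a1 a2

lemma pr_lie (h : S_gk c) (hy : y ∈ c.Gr c.ρ (Iic s)) (hw : w ∈ c.Gr c.ρ (Iic r)) :
    ⁅y, w⁆ ∈ c.Gr c.ρ (Iic (s + r)) ∧ pr c (s + r) ⁅y, w⁆ = ⁅pr c s y, pr c r w⁆ := by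
  refine ⟨h.gr_lie _ _ _ _ _ _ hy hw fun _ a _ b => mem_Iic.2 (add_le_add a b), pr_eq
    (h.gr_lie _ _ _ _ _ _ (pr_mem s y) (pr_mem r w) fun _ a _ b => by rw [a, b]; rfl) ?_⟩
  rw [show ⁅y, w⁆ - ⁅pr c s y, pr c r w⁆ = ⁅y - pr c s y, w⁆ + ⁅pr c s y, w - pr c r w⁆ by
    rw [sub_lie, lie_sub]; abel]
  exact add_mem (h.gr_lie _ _ _ _ _ _ (sub_pr hy) hw fun _ a _ b =>
      mem_Iio.2 (add_lt_add_of_lt_of_le a b))
    (h.gr_lie _ _ _ _ _ _ (pr_mem s y) (sub_pr hw) fun _ a _ b =>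
      mem_Iio.2 (add_lt_add_of_le_of_lt a.le b))

lemma pr_kR (h : S_gk c) (hy : y ∈ c.Gr c.ρ (Iic s)) (hw : w ∈ c.Gr c.ρ (Iic r))
    (e : c.kR K y w = 0) : c.kR K (pr c s y) (pr c r w) = 0 := by
  by_cases h0 : s + r = 0
  · have h1 := h.gr_kR _ _ _ _ _ (sub_pr hy) hw fun _ a _ b =>
      ((add_lt_add_of_lt_of_le a b).trans_eq h0).ne
    have h2 := h.gr_kR _ _ _ _ _ (pr_mem s y) (sub_pr hw) fun _ a _ b =>
      ((add_lt_add_of_le_of_lt a.le b).trans_eq h0).ne
    rw [map_sub, LinearMap.sub_apply, e, zero_sub, neg_eq_zero] at h1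
    rwa [map_sub, h1, zero_sub, neg_eq_zero] at h2
  · exact h.gr_kR _ _ _ _ _ (pr_mem s y) (pr_mem r w) fun _ a _ b => by rwa [a, b]

lemma nil_pr (h : S_gk c) (hw : w ∈ c.Gr c.ρ (Iic 0)) (hn : Nil w) : Nil (pr c 0 w) := by
  obtain ⟨N, hN⟩ := hn
  have e : ∀ (k : ℕ) r, ∀ x ∈ c.Gr c.ρ (Iic r), (ad K (G L K) w ^ k) x ∈ c.Gr c.ρ (Iic r) ∧
      pr c r ((ad K (G L K) w ^ k) x) = (ad K (G L K) (pr c 0 w) ^ k) (pr c r x) := by
    intro k r x hx
    induction k with
    | zero => exact ⟨hx, rfl⟩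
    | succ k ih =>
      have := pr_lie h hw ih.1
      rw [zero_add, ih.2] at this
      simpa only [pow_succ', Module.End.mul_apply, ad_apply] using this
  refine ⟨N, (c.bs K).ext fun i => ?_⟩
  have := (e N (c.wt0 c.ρ i) _ (h.gr_bs _ _ i self_mem_Iic)).2
  rw [hN, pr_self (h.gr_bs _ _ i rfl), LinearMap.zero_apply, map_zero] at this
  exact this.symm

lemma nd (h : S_gk c) : (c.kR K).Nondegenerate := by
  have : ∀ x : G L K, (∀ y, c.kR K y x = 0) → x = 0 := fun x hx => c.ext0 fun i => by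
    obtain ⟨d, hd⟩ := h.dual i
    rw [← hd, hx, map_zero]
  exact ⟨fun x hx => this x fun y => by rw [h.symm, hx], this⟩

lemma le_orth (h : S_gk c) :
    inn c ((c.kR K).orthogonal W) ≤ (c.kR K).orthogonal (inn c W) := by
  intro y hy
  refine ind' _ hy fun s y y1 y2 => LinearMap.BilinForm.mem_orthogonal_iff.2 fun x hx => ?_
  have : x ∈ LinearMap.ker (c.kR K (pr c s y)) := ind' _ hx fun r w w1 w2 => by
    rw [LinearMap.mem_ker]
    refine pr_kR h y2 w2 ?_
    rw [h.symm]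
    exact LinearMap.BilinForm.mem_orthogonal_iff.1 y1 w w1
  rw [h.symm]
  exact LinearMap.mem_ker.1 this

lemma perp (h : S_gk c) : finrank K (inn c W) = finrank K W ∧
    ∀ y, (∀ x ∈ inn c W, c.kR K y x = 0) → y ∈ inn c ((c.kR K).orthogonal W) := by
  have : FiniteDimensional K (G L K) := Module.Finite.of_basis (c.bs K)
  have k : ∀ W : Submodule K (G L K), finrank K W ≤ finrank K (inn c W) := fun W =>
    rk_le (Finset.univ.image (c.wt0 c.ρ)) W fun x _ i _ => by simp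
  have l := le_orth (W := W) h
  have k1 := k W
  have k2 := k ((c.kR K).orthogonal W)
  have k3 := Submodule.finrank_mono l
  have k4 := Submodule.finrank_le W
  have k5 := Submodule.finrank_le (inn c W)
  have k6 := LinearMap.BilinForm.finrank_orthogonal (nd h) W
  have k7 := LinearMap.BilinForm.finrank_orthogonal (nd h) (inn c W)
  refine ⟨by omega, fun y hy => ?_⟩
  rw [Submodule.eq_of_le_of_finrank_le l (by omega)]
  exact LinearMap.BilinForm.mem_orthogonal_iff.2 fun x hx => by rw [h.symm, hy x hx]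

lemma rk_U1 (lam : L) :
    finrank K (c.U1 K lam) = Fintype.card {β // c.al β lam = 1} := by
  have h := finrank_span_eq_card ((c.bs K).linearIndependent.comp
    (fun β : {β // c.al β lam = 1} => Sum.inl β.1) fun a b e => Subtype.ext (Sum.inl.inj e))
  rw [← h, Set.range_comp]
  refine congrArg (fun U : Submodule K (G L K) => finrank K U) (Submodule.ext fun x => ?_)
  rw [Module.Basis.mem_span_image]
  refine forall_congr' fun i => imp_congr (by simp [c.crd_eq]) ?_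
  cases i <;> simp [CD.wt0]

end Horv0A

open Horv0A in
theorem horv0 (h : T0 c) (hx : S_fix c K) : S_horv0 c K := by
  intro W ν t h1 h2 h3 h4 h5 h6
  have g := h.gk
  obtain ⟨d, hp⟩ := perp (W := W) g
  have o : ∀ y ∈ (c.kR K).orthogonal W, ∀ x ∈ W, c.kR K y x = 0 := fun y hy x hx => by
    rw [g.symm, hy x hx]
  obtain ⟨Ψ, hΨ⟩ := hx.fix0 (inn c W) (fun x hx' i => ind' (LinearMap.ker (c.crd (.inr i))) hx'
      fun r w w1 w2 => by
        by_cases e : r = 0
        · subst e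
          rw [hx.nilH _ (fun β => (crd_pr ..).trans (if_neg (c.ρ_ne β))) (nil_pr g w2 (h1 w w1))]
          exact zero_mem _
        · exact (crd_pr ..).trans (if_neg (Ne.symm e)))
    fun y hy x hx' => ind' ((inn c W).comap (ad K _ y)) hx' fun r w w1 w2 => by
      have := ind' ((inn c W).comap (ad K _ (pr c r w))) (hp y hy) fun s y y1 y2 => by
        have := pr_lie g w2 y2
        rw [Submodule.mem_comap, ad_apply, ← this.2]
        exact pr_inn (by rw [← lie_skew]; exact neg_mem (h3 y (o y y1) w w1)) this.1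
      rw [Submodule.mem_comap, ad_apply, ← lie_skew]
      exact neg_mem this
  have n0 : ∀ w ∈ W, ν + w ≠ 0 := fun w hw e => h4 (eq_neg_of_add_eq_zero_left e ▸ neg_mem hw)
  obtain ⟨i, ⟨w, w1, w2⟩, hi⟩ := Set.exists_min_image
    {i | ∃ w ∈ W, ν + w ∈ c.Gr c.ρ (Iic (c.wt0 c.ρ i))} (c.wt0 c.ρ) (toFinite _)
    ((top (n0 0 (zero_mem _))).imp fun i hi => ⟨0, zero_mem _, hi.2⟩)
  generalize c.wt0 c.ρ i = r at *
  have n1 : pr c r (ν + w) ∉ inn c W := fun e => by
    obtain ⟨v, v1, v2, v3⟩ := e r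
    obtain ⟨j, j1, j2⟩ := top (c := c) (n0 _ (sub_mem w1 v1))
    have := sub_pr (sub_mem w2 v2)
    rw [map_sub, v3, pr_self (pr_mem _ _), sub_self, sub_zero, add_sub_assoc] at this
    exact (this j j1).not_ge (hi j ⟨_, sub_mem w1 v1, j2⟩)
  have a1 : ∀ x ∈ W, ⁅ν + w, x⁆ = t • x := fun x hx => by
    rw [add_lie, h5 x hx, h2 w w1 x hx, add_zero]
  have a2 : ∀ y, (∀ x ∈ inn c W, c.kR K y x = 0) → ⁅pr c r (ν + w), y⁆ ∈ inn c W := fun y hy =>
    ind' ((inn c W).comap (ad K _ (pr c r (ν + w)))) (hp y hy) fun s y y1 y2 => by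
      have := pr_lie g w2 y2
      rw [Submodule.mem_comap, ad_apply, ← this.2]
      refine pr_inn ?_ this.1
      rw [add_lie, ← lie_skew w]
      exact add_mem (h6 y (o y y1)) (neg_mem (h3 y (o y y1) w w1))
  have a3 : ∀ u : K, (∀ s, ∀ x ∈ W, x ∈ c.Gr c.ρ (Iic s) →
      ⁅pr c r (ν + w), pr c s x⁆ = u • pr c s x) → ∀ x ∈ inn c W, ⁅pr c r (ν + w), x⁆ = u • x :=
    fun u hu x hx' => ind' (LinearMap.eqLocus (ad K _ (pr c r (ν + w))) (u • 1)) hx' hu
  have r0 : r = 0 := by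
    by_contra e
    refine n1 ((hx.fix2 _ Ψ _ 0 hΨ (a3 0 fun s x x1 x2 => ?_) a2).1 rfl)
    have := pr_lie g w2 x2
    rw [a1 x x1] at this
    rw [zero_smul]
    rcases lt_or_gt_of_ne e with e | e
    · have b := pr_zero (r := s) this.1 (by simpa using e)
      rw [map_smul] at b
      rcases smul_eq_zero.1 b with b | b
      · rw [← this.2, b, zero_smul, map_zero]
      · rw [b, lie_zero]
    · rw [← this.2, map_smul, pr_zero x2 (by simpa using e), smul_zero]
  subst r0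
  have a4 := a3 t fun s x x1 x2 => by rw [← (pr_lie g w2 x2).2, a1 x x1, zero_add, map_smul]
  have t0 : t ≠ 0 := fun e => n1 ((hx.fix2 _ Ψ _ t hΨ a4 a2).1 e)
  obtain ⟨lam, l1, l2⟩ := (hx.fix2 _ Ψ (t⁻¹ • pr c 0 (ν + w)) 1 hΨ
    (fun x hx' => by rw [smul_lie, a4 x hx', smul_smul, inv_mul_cancel₀ t0])
    fun y hy => by rw [smul_lie]; exact Submodule.smul_mem _ _ (a2 y hy)).2 rfl
  refine ⟨lam, l1, by rw [← d, l2, rk_U1], fun u hu hu' => ?_⟩
  by_contra e
  obtain ⟨j, j1, j2⟩ := top (c := c) e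
  have := (l2 ▸ pr_inn hu j2 : _ ∈ c.U1 K lam) j (by rwa [crd_pr, if_pos rfl])
  cases j with
  | inl β => exact j1 (hu' β this)
  | inr i => exact zero_ne_one this

end Pool.Agent.P.MP_e7d440_ag.U
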