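import Pool.Agent.P.MP_e7d440_ag.U.Iface3

/-! Interpolation and residues. -/

namespace Pool.Agent.P.MP_e7d440_ag.U

open TensorProduct LieAlgebra LaurentPolynomial Set

variable {L Φ Δ : Type} [LieRing L] [LieAlgebra ℚ L] [Fintype Φ] [Fintype Δ] [DecidableEq Φ]
  [DecidableEq Δ] (c : CD L Φ Δ) {K : Type} [Field K] [CharZero K] (ζ : K)
  {J : Type} [Fintype J] [DecidableEq J] (s : J → K)

namespace IntA

set_option linter.unusedSectionVars false

lemma prod_ind {ι : Type} (Q : LG L K → Prop) (g : ι → LP K) (t : Finset ι)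
    (hg : ∀ i ∈ t, ∀ f, Q f → Q (g i • f)) (f : LG L K) (hf : Q f) : Q ((∏ i ∈ t, g i) • f) := by
  classical
  induction t using Finset.induction_on with
  | empty => simpa using hf
  | insert i t hi ih =>
    rw [Finset.prod_insert hi, mul_smul]
    exact hg i (Finset.mem_insert_self _ _) _
      (ih fun j hj => hg j (Finset.mem_insert_of_mem hj))

/-- the factors of the interpolation polynomials -/
noncomputable def fac (j i : J) : LP K :=
  C (s j ^ c.ℓ - s i ^ c.ℓ)⁻¹ * (T c.ℓ - C (s i ^ c.ℓ))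

lemma fac_smul (h : T2 c ζ) (j i : J) (f : LG L K) :
    fac c s j i • f = (s j ^ c.ℓ - s i ^ c.ℓ)⁻¹ • ((T c.ℓ : LP K) • f - (s i ^ c.ℓ) • f) := by
  rw [fac, mul_smul, sub_smul, h.lp.smul_C, h.lp.smul_C]

lemma ev_prod (h : T2 c ζ) (hp : c.Pt ζ s) (j k : J) :
    evL (s k) (∏ i ∈ Finset.univ.erase j, fac c s j i) = if j = k then 1 else 0 := by
  obtain ⟨F, hF, -⟩ := h.lp.evL_hom (s k) (hp.ne k)
  have e : ∀ i, F (fac c s j i) = (s j ^ c.ℓ - s i ^ c.ℓ)⁻¹ * (s k ^ c.ℓ - s i ^ c.ℓ) := fun i => by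
    rw [fac, map_mul, map_sub, hF, hF, hF, h.lp.evL_C, h.lp.evL_C, evL_T, zpow_natCast]
  rw [← hF, map_prod]
  split_ifs with hjk
  · subst hjk
    refine Finset.prod_eq_one fun i hi => ?_
    rw [e, inv_mul_cancel₀]
    exact sub_ne_zero.2 fun h1 => (Finset.mem_erase.1 hi).1 (hp.inj h1).symm
  · refine Finset.prod_eq_zero (i := k) (Finset.mem_erase.2 ⟨Ne.symm hjk, Finset.mem_univ _⟩) ?_
    rw [e, sub_self, mul_zero]

lemma int0 (h : T2 c ζ) (hp : c.Pt ζ s) (hd : S_div c ζ s) (x : L) (r : ℚ) (m : J → G L K) :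
    ∃ f ∈ c.Eqv ζ, f ∈ c.Sup x (Ici r) ∧ (∀ j, ev (s j) f = m j) ∧
      ∀ S : Subring K, c.HD ζ s S → (∀ j, c.In0 S (m j)) → c.In S f := by
  choose Y hY hYe hYi using fun j => h.eqv.surj (s j) (hp.ne j) (m j)
  let Z : J → LG L K := fun j => (∏ i ∈ Finset.univ.erase j, fac c s j i) • Y j
  have hZ : ∀ j, Z j ∈ c.Eqv ζ := fun j =>
    prod_ind (· ∈ c.Eqv ζ) _ _ (fun i _ f hf => by
      rw [fac_smul c ζ s h]
      exact Submodule.smul_mem _ _ (sub_mem ((h.eqv.T_iff _ f dvd_rfl).2 hf)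
        (Submodule.smul_mem _ _ hf))) _ (hY j)
  choose lo hi hb using fun j => h.sup.bdd x (Z j)
  choose N hN using fun j => exists_nat_ge (r - lo j)
  refine ⟨∑ j, (s j ^ (-((c.ℓ : ℤ) * N j))) • ((T ((c.ℓ : ℤ) * N j) : LP K) • Z j),
    Submodule.sum_mem _ fun j _ => Submodule.smul_mem _ _
      ((h.eqv.T_iff _ _ (dvd_mul_right _ _)).2 (hZ j)),
    Submodule.sum_mem _ fun j _ => Submodule.smul_mem _ _ ?_, fun k => ?_, fun S hS hm => ?_⟩
  · rw [h.sup.sup_T]
    refine c.Sup_mono (fun q hq => ?_) (hb j)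
    have h1 : (1 : ℚ) ≤ c.ℓ := by exact_mod_cast c.ℓ_pos
    have h2 : (0 : ℚ) ≤ N j := Nat.cast_nonneg _
    have h3 := hN j
    have h4 := hq.1
    simp only [mem_ofPred_eq, mem_Ici]
    push_cast
    nlinarith
  · rw [map_sum, Finset.sum_eq_single k]
    · rw [map_smul, h.lp.ev_smul _ (hp.ne k), h.lp.ev_smul _ (hp.ne k), ev_prod c ζ s h hp,
        if_pos rfl, one_smul, evL_T, smul_smul, ← zpow_add₀ (hp.ne k), neg_add_cancel, zpow_zero,
        one_smul, hYe]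
    · intro j _ hj
      rw [map_smul, h.lp.ev_smul _ (hp.ne k), h.lp.ev_smul _ (hp.ne k), ev_prod c ζ s h hp,
        if_neg hj, zero_smul, smul_zero, smul_zero]
    · intro hk
      exact absurd (Finset.mem_univ k) hk
  · obtain ⟨-, h1, h2, -, h4⟩ := h.sup.in_add S S (SM.self S)
    refine h4 _ _ fun j _ => h2 _ _ ?_ ((h.sup.in_T _ _ _).2 ?_)
    · rw [← Nat.cast_mul, zpow_neg, zpow_natCast, ← inv_pow]
      exact S.pow_mem (hS.inv j) _
    · refine prod_ind (c.In (S : Set K)) _ _ (fun i _ f hf => ?_) _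
        (hYi j S (hd.hd_sd S hS) (hS.inv j) (hm j))
      rw [fac_smul c ζ s h]
      exact h2 _ _ (hS.inv' j i) (h1 _ _ ((h.sup.in_T _ _ _).2 hf)
        (h2 _ _ (S.pow_mem (hS.mem i) _) hf)).2

lemma int1 (h : T2 c ζ) (hp : c.Pt ζ s) (hd : S_div c ζ s) (x : L) (r : ℚ) (m : J → G L K)
    (hx : c.Fix x) : ∃ f ∈ c.Eqv ζ, f ∈ c.Sup x (Ico r (r + c.dg J)) ∧
      (∀ j, ev (s j) f = m j) ∧
      ∀ S : Subring K, c.HD ζ s S → (∀ j, c.In0 S (m j)) → c.In S f := by
  obtain ⟨f, hf, hfs, hfe, hfi⟩ := int0 c ζ s h hp hd x r m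
  obtain ⟨q, -, hq1, hq2, hq3⟩ := hd.div (c.phi s) (c.dg J) x r f hd.mon hfs
  refine ⟨f - c.phi s • q, sub_mem hf (h.eqv.smul _ (fun n hn => (hd.mon.1 n hn).2.2) _
    (hq2 hx hf)), hq1, fun j => by rw [map_sub, hfe, (hd.ev_smul q j).1, sub_zero],
    fun S hS hm => ?_⟩
  have h1 := (hd.phi_int S hS.mem).1
  exact ((h.sup.in_add S S (SM.self S)).2.1 _ _ (hfi S hS hm)
    ((h.sup.in_smul S S _ q (SM.self S)).1 h1 (hq3 S S (SM.self S) h1 (hfi S hS hm)))).2

lemma phi_neg (hd : S_div c ζ s) (n : ℤ) (hn : n < 0) : (c.phi s).coeff n = 0 := by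
  by_contra h
  have := (hd.mon.1 n h).1
  omega

lemma coeff_T_mul (k n : ℤ) (p : LP K) : (T k * p : LP K).coeff n = p.coeff (n - k) := by
  rw [T, AddMonoidAlgebra.coeff_single_mul_apply, one_mul, neg_add_eq_sub]

/-- the sum of the residues at the legs -/
noncomputable def lam : LP K →ₗ[K] K := ∑ j, c.vp s j • evL (s j)

lemma lam_apply (p : LP K) : lam c s p = ∑ j, c.vp s j * evL (s j) p := by
  simp [lam, LinearMap.sum_apply]

lemma lam_T (hp : c.Pt ζ s) (k : ℕ) (hk : k + 1 ≤ Fintype.card J) :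
    lam c s (T ((c.ℓ : ℤ) * (k + 1 : ℕ))) = if k + 1 = Fintype.card J then 1 else 0 := by
  have h1 := Lagrange.coeff_eq_sum (s := (Finset.univ : Finset J)) (v := fun j => s j ^ c.ℓ)
    hp.inj.injOn (P := Polynomial.X ^ k) (by
      rw [Polynomial.degree_X_pow, Finset.card_univ]
      exact_mod_cast hk)
  rw [Polynomial.coeff_X_pow, Finset.card_univ] at h1
  rw [lam_apply]
  have h2 : (if k + 1 = Fintype.card J then (1 : K) else 0) =
      if Fintype.card J - 1 = k then 1 else 0 := by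
    refine if_congr ?_ rfl rfl
    omega
  rw [h2, h1]
  refine Finset.sum_congr rfl fun j _ => ?_
  have h3 : s j ^ c.ℓ ≠ 0 := pow_ne_zero _ (hp.ne j)
  rw [evL_T, ← Nat.cast_mul, zpow_natCast, pow_mul, CD.vp, Polynomial.eval_pow, Polynomial.eval_X,
    pow_succ, mul_inv, div_eq_mul_inv]
  field_simp

lemma lam_sum (h : T2 c ζ) (p : LP K) :
    lam c s p = ∑ n ∈ p.coeff.support, p.coeff n * lam c s (T n) := by
  simp only [lam_apply, evL_T, h.lp.evL_eq _ p, Finsupp.sum, Finset.mul_sum]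
  rw [Finset.sum_comm]
  refine Finset.sum_congr rfl fun n _ => Finset.sum_congr rfl fun j _ => ?_
  ring

lemma lam_low (h : T2 c ζ) (hp : c.Pt ζ s) (p : LP K)
    (hs : ∀ n, p.coeff n ≠ 0 → 0 < n ∧ n ≤ c.dg J ∧ (c.ℓ : ℤ) ∣ n) :
    lam c s p = p.coeff (c.dg J) := by
  have key : ∀ n, p.coeff n ≠ 0 → lam c s (T n) = if n = c.dg J then 1 else 0 := fun n hn => by
    obtain ⟨h1, h2, k, rfl⟩ := hs n hn
    have hl : (0 : ℤ) < c.ℓ := by exact_mod_cast c.ℓ_pos
    have hk : 0 < k := (mul_pos_iff_of_pos_left hl).1 h1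
    obtain ⟨k', rfl⟩ : ∃ k' : ℕ, k = (k' + 1 : ℕ) := ⟨(k - 1).toNat, by omega⟩
    have e : (c.dg J : ℤ) = c.ℓ * (Fintype.card J : ℕ) := by simp [CD.dg]
    rw [e] at h2 ⊢
    have h3 := le_of_mul_le_mul_left h2 hl
    rw [lam_T c ζ s hp k' (by exact_mod_cast h3)]
    refine if_congr ?_ rfl rfl
    rw [mul_right_inj' hl.ne', Nat.cast_inj]
  rw [lam_sum c ζ s h, Finset.sum_eq_single (c.dg J : ℤ)]
  · by_cases h0 : p.coeff (c.dg J) = 0
    · rw [h0, zero_mul]
    · rw [key _ h0, if_pos rfl, mul_one]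
  · intro n hn hne
    rw [key n (Finsupp.mem_support_iff.1 hn), if_neg hne, mul_zero]
  · intro hn
    rw [Finsupp.notMem_support_iff.1 hn, zero_mul]

lemma lam_phi (h : T2 c ζ) (hp : c.Pt ζ s) (hd : S_div c ζ s) (p : LP K) :
    lam c s (p * c.phi s) = 0 := by
  rw [lam_apply]
  refine Finset.sum_eq_zero fun j _ => ?_
  rw [h.lp.evL_mul _ (hp.ne j), hd.ev_phi, mul_zero, mul_zero]

lemma lam_int (h : T2 c ζ) (hp : c.Pt ζ s) (hd : S_div c ζ s) (S : Subring K) (M : Set K)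
    (hM : SM S M) (hS : ∀ j, s j ∈ S) (D : ℕ) : ∀ p : LP K,
      (∀ n, p.coeff n ≠ 0 → 0 < n ∧ n ≤ c.dg J + D ∧ (c.ℓ : ℤ) ∣ n) → (∀ n, p.coeff n ∈ M) →
        lam c s p ∈ M := by
  induction D with
  | zero =>
    intro p hs hm
    rw [lam_low c ζ s h hp p (by simpa using hs)]
    exact hm _
  | succ D ih =>
    intro p hs hm
    have hq : ∀ n, (p - p.coeff (c.dg J + (D + 1 : ℕ)) • (T (D + 1 : ℕ) * c.phi s)).coeff n =
        p.coeff n - p.coeff (c.dg J + (D + 1 : ℕ)) * (c.phi s).coeff (n - (D + 1 : ℕ)) :=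
      fun n => by
        rw [AddMonoidAlgebra.coeff_sub, Finsupp.sub_apply, AddMonoidAlgebra.coeff_smul_apply,
          coeff_T_mul, smul_eq_mul]
    have := ih (p - p.coeff (c.dg J + (D + 1 : ℕ)) • (T (D + 1 : ℕ) * c.phi s)) (fun n hn => ?_)
      fun n => ?_
    · rwa [map_sub, map_smul, lam_phi c ζ s h hp hd, smul_zero, sub_zero] at this
    · rw [hq] at hn
      have hne : n ≠ c.dg J + (D + 1 : ℕ) := by
        rintro rfl
        apply hn
        rw [add_sub_cancel_right, hd.mon.2, mul_one, sub_self]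
      by_cases h0 : p.coeff n = 0
      · rw [h0, zero_sub, neg_ne_zero] at hn
        obtain ⟨h1, h2, h3⟩ := hd.mon.1 _ (right_ne_zero_of_mul hn)
        obtain ⟨-, -, h4⟩ := hs _ (left_ne_zero_of_mul hn)
        refine ⟨by omega, by omega, ?_⟩
        have := dvd_add h3 (dvd_sub h4 hd.dg_dvd)
        rwa [show n - (D + 1 : ℕ) + (c.dg J + (D + 1 : ℕ) - c.dg J) = n by ring] at this
      · obtain ⟨h1, h2, h3⟩ := hs n h0
        exact ⟨h1, by omega, h3⟩
    · rw [hq, mul_comm]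
      exact hM.sub (hm n) (hM.mul _ ((hd.phi_int S hS).1 _) _ (hm _))

lemma kR_F (h : T2 c ζ) (b : Φ × ℤ) (f : LG L K) (hf : f ∈ c.Eqv ζ) :
    (c.kR (LP K) (c.F ζ b) f).coeff 0 = c.cE b f * (c.kp b.1 : K) := by
  refine h.rt2.ind (fun g => (c.kR (LP K) (c.F ζ b) g).coeff 0 = c.cE b g * (c.kp b.1 : K))
    (by simp) (fun f g hf hg => ?_) f hf (fun a ha _ => ?_) fun m => ?_
  · rw [map_add, AddMonoidAlgebra.coeff_add, Finsupp.add_apply, hf, hg]
    simp only [CD.cE, map_add, add_div, add_mul]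
  · have key : (c.kR (LP K) (c.F ζ b) (c.E ζ a)).coeff 0 = c.cE b (c.E ζ a) * (c.kp b.1 : K) := by
      rw [h.gk.symm]
      by_cases hab : c.Sim a b
      · have hb := h.rt1.valid_sim a b hab ha
        obtain ⟨t, -, ht⟩ := h.rt2.sim_E b a (h.rt1.sim_symm _ _ hab) hb
        rw [ht, (h.lp.kR_smul _ _ _).1, h.rt1.kREF b hb, AddMonoidAlgebra.coeff_smul_apply,
          C_apply, if_pos rfl, CD.cE, map_smul, h.rt1.co b hb, smul_eq_mul, smul_eq_mul,
          mul_div_assoc, div_self (h.rt1.th_ne b.1).2.1, mul_one]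
      · have h0 : c.co (CD.ix b) (c.E ζ a) = 0 := by
          by_contra h0
          exact hab ((h.rt1.ty_ix a b).1 (h.rt1.ty a _ h0))
        rw [h.rt1.kREE a b hab, CD.cE, h0, zero_div, zero_mul]
    rw [(h.lp.kR_smul _ _ _).2, AddMonoidAlgebra.coeff_smul_apply, key, smul_eq_mul]
    simp only [CD.cE, map_smul, smul_eq_mul]
    ring
  · have h1 : ∀ (n : ℤ) β, c.co (n, .inl β) (c.pr (Ht m) f) = 0 := fun n β => by
      rw [c.co_pr, if_neg]
      rintro ⟨-, i, hi⟩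
      exact absurd hi (by simp)
    have h2 : ∀ β, c.crd (.inl β) (c.pr (Ht m) f) = 0 := fun β => by
      ext n
      have := h1 n β
      rw [c.co_eq] at this
      simpa using this
    have h3 : ∀ i, c.crd (.inr i) (c.F ζ b) = 0 := fun i => by
      ext n
      by_contra h0
      have h4 : c.co (n, .inr i) (c.F ζ b) ≠ 0 := by
        rw [c.co_eq]
        simpa using h0
      obtain ⟨-, β, hβ, -⟩ := h.rt1.ty _ _ h4
      exact absurd hβ (by simp)
    rw [h.gk.symm, h.gk.kR_root _ _ h3, CD.cE, h1, zero_div, zero_mul]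
    simp [h2]

end IntA

theorem int (h : T2 c ζ) (hp : c.Pt ζ s) (hd : S_div c ζ s) : S_int c ζ s where
  int1 := IntA.int1 c ζ s h hp hd
  uniq1 := fun x r f hf hs he => by
    obtain ⟨g, -, rfl⟩ := hd.zero1 f hf he
    have h1 := (hd.low _ x r g (IntA.phi_neg c ζ s hd) hd.phi_ne).1
      (c.Sup_mono Ico_subset_Ici_self hs)
    rw [hd.uniq _ _ x r g hd.mon h1 (c.Sup_mono Ico_subset_Iio_self hs), smul_zero]
  int2 := fun x r m w hx => by
    obtain ⟨f, hf, hfs, hfe, hfi⟩ := IntA.int1 c ζ s h hp hd x r m hx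
    obtain ⟨g, hg, hgs, hge, hgi⟩ := IntA.int1 c ζ s h hp hd x r
      (fun j => ((c.ℓ : K)⁻¹ * c.vp s j) • (w j - ev (s j) (dd f))) hx
    have h0 : (0 : ℚ) ≤ c.dg J := Nat.cast_nonneg _
    have hl : (c.ℓ : K) ≠ 0 := by exact_mod_cast c.ℓ_pos.ne'
    refine ⟨f + c.phi s • g, add_mem hf (h.eqv.smul _ (fun n hn => (hd.mon.1 n hn).2.2) _ hg),
      add_mem (c.Sup_mono (Ico_subset_Ico_right (by linarith)) hfs)
        (h.sup.smul x _ _ _ g hgs fun n hn q hq => ?_), fun j => ⟨?_, ?_⟩, fun S hS hm => ?_⟩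
    · obtain ⟨h1, h2, -⟩ := hd.mon.1 n hn
      have h3 : (0 : ℚ) ≤ n := by exact_mod_cast h1
      have h4 : (n : ℚ) ≤ c.dg J := by exact_mod_cast h2
      exact ⟨by linarith [hq.1], by linarith [hq.2]⟩
    · rw [map_add, hfe, (hd.ev_smul g j).1, add_zero]
    · have := hd.vp_ne j
      rw [map_add, map_add, (hd.ev_smul g j).2, hge, smul_smul,
        show (c.ℓ : K) * (c.vp s j)⁻¹ * ((c.ℓ : K)⁻¹ * c.vp s j) = 1 by field_simp, one_smul,
        add_sub_cancel]
    · have h1 := hfi S hS fun j => (hm j).1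
      have h2 := hgi S hS fun j i => by
        rw [map_smul, map_sub, smul_eq_mul]
        exact S.mul_mem (S.mul_mem (hd.hd_sd S hS).2 (hd.vp_mem S hS j).1) (S.sub_mem ((hm j).2 i)
          (h.sup.in_ev S S _ _ (SM.self S) (hS.mem j) (hS.inv j)
            (h.sup.in_dd S S f (SM.self S) h1) i))
      exact ((h.sup.in_add S S (SM.self S)).2.1 _ _ h1
        ((h.sup.in_smul S S _ g (SM.self S)).1 (hd.phi_int S hS.mem).1 h2)).1
  uniq2 := fun x r f hf hs he => by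
    obtain ⟨g, -, rfl⟩ := hd.zero2 f hf he
    have h0 := c.Sup_mono Ico_subset_Ici_self hs
    rw [sq, mul_smul, hd.low _ x r _ (IntA.phi_neg c ζ s hd) hd.phi_ne,
      hd.low _ x r _ (IntA.phi_neg c ζ s hd) hd.phi_ne] at h0
    rw [hd.uniq _ _ x r g hd.mon_sq h0 (by
      push_cast
      exact c.Sup_mono Ico_subset_Iio_self hs), smul_zero]

theorem res (h : T2 c ζ) (hp : c.Pt ζ s) (hd : S_div c ζ s) : S_res c ζ s where
  res := fun p hs => by
    have hq : ∀ n, (p - (p.coeff 0 / (c.phi s).coeff 0) • c.phi s).coeff n =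
        p.coeff n - p.coeff 0 / (c.phi s).coeff 0 * (c.phi s).coeff n := fun n => by
      rw [AddMonoidAlgebra.coeff_sub, Finsupp.sub_apply, AddMonoidAlgebra.coeff_smul_apply,
        smul_eq_mul]
    have h1 := IntA.lam_low c ζ s h hp (p - (p.coeff 0 / (c.phi s).coeff 0) • c.phi s)
      fun n hn => by
        rw [hq] at hn
        have hne : n ≠ 0 := by
          rintro rfl
          exact hn (by rw [div_mul_cancel₀ _ hd.phi_ne, sub_self])
        by_cases h0 : p.coeff n = 0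
        · rw [h0, zero_sub, neg_ne_zero] at hn
          obtain ⟨h1, h2, h3⟩ := hd.mon.1 _ (right_ne_zero_of_mul hn)
          exact ⟨by omega, h2, h3⟩
        · obtain ⟨h1, h2, h3⟩ := hs n h0
          exact ⟨by omega, h2, h3⟩
    have h2 := IntA.lam_phi c ζ s h hp hd 1
    rw [one_mul] at h2
    rw [map_sub, map_smul, h2, smul_zero, sub_zero, hq, hd.mon.2, mul_one, IntA.lam_apply] at h1
    rw [h1]
    ring
  resint := fun S M p hM hS hs hm => by
    rw [← IntA.lam_apply]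
    obtain ⟨D, hD⟩ := p.coeff.support.exists_le
    refine IntA.lam_int c ζ s h hp hd S M hM hS D.toNat p (fun n hn => ?_) hm
    have := hD n (Finsupp.mem_support_iff.2 hn)
    exact ⟨(hs n hn).1, by omega, (hs n hn).2⟩
  pair := fun f g => by
    simp only [CD.pair, h.lp.ev_kR _ (hp.ne _)]
  kR_F := IntA.kR_F c ζ h

end Pool.Agent.P.MP_e7d440_ag.U
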