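import Pool.Agent.P.MP_e7d440_ag.U.Iface4

/-! Translation of the lattices of the statement to twisted loop algebras. -/

namespace Pool.Agent.P.MP_e7d440_ag.U

open TensorProduct LieAlgebra LaurentPolynomial Set

namespace LatA

set_option linter.unusedSectionVars false

section
variable {L Φ Δ : Type} [LieRing L] [LieAlgebra ℚ L] [Fintype Φ] [Fintype Δ] [DecidableEq Φ]
  [DecidableEq Δ] {c : CD L Φ Δ} {K : Type} [Field K] [CharZero K]

/-- the loop with the given coefficients -/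
noncomputable def toL (g : ℤ →₀ G L K) : LG L K := g.sum fun m v => mon m v

lemma cf_toL (h : T1 c K) (g : ℤ →₀ G L K) (m : ℤ) : cf m (toL g) = g m := by
  rw [toL, Finsupp.sum, map_sum]
  simp only [h.lp.cf_mon]
  rw [Finset.sum_ite_eq']
  split_ifs with h1
  · rfl
  · exact (Finsupp.notMem_support_iff.1 h1).symm

lemma toL_inj (h : T1 c K) {g g' : ℤ →₀ G L K} (e : toL g = toL g') : g = g' :=
  Finsupp.ext fun m => by rw [← cf_toL h, e, cf_toL h]

lemma toL_surj (h : T1 c K) (f : LG L K) : ∃ g, toL g = f := by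
  obtain ⟨t, ht, -⟩ := h.lp.sum_mon f
  refine ⟨Finsupp.onFinset t (fun m => cf m f) fun m hm => by_contra fun hn => hm (ht m hn),
    h.lp.cf_ext _ _ fun m => ?_⟩
  rw [cf_toL h, Finsupp.onFinset_apply]

lemma ev_toL (h : T1 c K) (s : K) (g : ℤ →₀ G L K) :
    ev s (toL g) = g.sum fun m v => s ^ m • v := by
  rw [toL, Finsupp.sum, map_sum]
  exact Finset.sum_congr rfl fun m _ => h.lp.ev_mon s m _

lemma ev_dd_toL (h : T1 c K) (s : K) (g : ℤ →₀ G L K) :
    ev s (dd (toL g)) = g.sum fun m v => ((m : K) * s ^ m) • v := by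
  rw [toL, Finsupp.sum, map_sum, map_sum]
  exact Finset.sum_congr rfl fun m _ => by rw [h.lp.dd_mon, map_smul, h.lp.ev_mon, smul_smul]

lemma transfer {A B : Type} (f : A → B) (hi : Function.Injective f)
    (hs : Function.Surjective f) (P : A → Prop) (Q : B → Prop) (hPQ : ∀ a, P a ↔ Q (f a)) :
    (∃! a, P a) ↔ ∃! b, Q b := by
  constructor
  · rintro ⟨a, ha, hu⟩
    refine ⟨f a, (hPQ a).1 ha, fun b hb => ?_⟩
    obtain ⟨a', rfl⟩ := hs b
    rw [hu a' ((hPQ a').2 hb)]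
  · rintro ⟨b, hb, hu⟩
    obtain ⟨a, rfl⟩ := hs b
    exact ⟨a, (hPQ a).2 hb, fun a' ha' => hi (hu _ ((hPQ a').1 ha'))⟩

end

section
open LieAlgebra.IsKilling

variable {L : Type} [LieRing L] [LieAlgebra ℚ L] [FiniteDimensional ℚ L] [IsKilling ℚ L]
  {H : LieSubalgebra ℚ L} [H.IsCartanSubalgebra] [LieModule.IsTriangularizable ℚ H L]
  {O J : Type} [CommRing O] [IsDomain O] [CharZero O] [Fintype J]
  {D : Datum H O J} {c : CD L H.root D.b.support}

lemma od (hb : Br D c) : c.OD D.ζ D.s where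
  prim := by rw [hb.ℓ]; exact D.ζ_prim
  unit := by rw [hb.ℓ]; exact D.ℓ_unit
  ne := D.s_ne
  nonunit := D.s_nonunit
  inj := by rw [hb.ℓ]; exact D.s_inj

lemma sgn (hb : Br D c) (j : J) (α : H.root) :
    (0 < c.al α c.ρ ∧ (c.al α (D.μ j) = 0 ∨ c.al α (D.μ j) = 1)) ∨
      (c.al α (D.μ j) = 0 ∨ c.al α (D.μ j) = -1) := by
  rcases lt_or_gt_of_ne (c.ρ_ne α) with h1 | h1
  · right
    have h2 : 0 < c.al (c.neg α) c.ρ := by rw [c.al_neg, LinearMap.neg_apply]; linarith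
    have h3 := D.μ_min j _ ((hb.pos _).1 h2)
    rw [← hb.al, c.al_neg, LinearMap.neg_apply] at h3
    exact h3.imp (fun e => by linarith) fun e => by linarith
  · left
    exact ⟨h1, by rw [hb.al]; exact D.μ_min j _ ((hb.pos _).1 h1)⟩

lemma co (hb : Br D c) : c.Co (fun j => (D.μ j : L)) c.ρ := by
  refine ⟨c.fix_ρ, c.ρ_ne, fun j => ⟨hb.isH _, fun α => ?_⟩, fun j α e => ?_⟩
  · rcases sgn hb j α with ⟨-, e | e⟩ | e | e <;> simp [e]
  · rcases sgn hb j α with ⟨h1, -⟩ | e' | e'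
    · exact h1
    · rw [e'] at e; norm_num at e
    · rw [e'] at e; norm_num at e

/-- the two index sets agree -/
def eqv (hb : Br D c) : c.Id (fun j => (D.μ j : L)) ≃ D.Idx :=
  Equiv.subtypeEquivRight fun p => by rw [hb.al]

/-- the generic point -/
noncomputable def XX (hb : Br D c) (p : c.Id (fun j => (D.μ j : L))) : D.FF :=
  algebraMap (MvPolynomial D.Idx O) D.FF (MvPolynomial.X (eqv hb p))

lemma aeval_XX (hb : Br D c) (F : MvPolynomial (c.Id (fun j => (D.μ j : L))) O) :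
    MvPolynomial.aeval (XX hb) F =
      algebraMap (MvPolynomial D.Idx O) D.FF (MvPolynomial.rename (eqv hb) F) := by
  have : MvPolynomial.aeval (XX hb) = (IsScalarTower.toAlgHom O (MvPolynomial D.Idx O) D.FF).comp
      (MvPolynomial.rename (eqv hb)) := MvPolynomial.algHom_ext fun p => by simp [XX]
  rw [this]; rfl

lemma gen (hb : Br D c) : Gen O (XX hb) := by
  intro γ
  obtain ⟨a, b, hb0, rfl⟩ := IsFractionRing.div_surjective (A := MvPolynomial D.Idx O) γ
  have h0 : algebraMap (MvPolynomial D.Idx O) D.FF b ≠ 0 :=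
    IsFractionRing.to_map_ne_zero_of_mem_nonZeroDivisors hb0
  refine ⟨MvPolynomial.rename (eqv hb).symm a, MvPolynomial.rename (eqv hb).symm b, ?_, ?_⟩
  · rw [aeval_XX, MvPolynomial.rename_rename, Equiv.self_comp_symm, MvPolynomial.rename_id]
    exact h0
  · rw [aeval_XX, aeval_XX, MvPolynomial.rename_rename, MvPolynomial.rename_rename,
      Equiv.self_comp_symm, MvPolynomial.rename_id]
    exact div_mul_cancel₀ _ h0

lemma indep (hb : Br D c) : AlgebraicIndependent O (XX hb) := by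
  intro F G e
  rw [aeval_XX, aeval_XX] at e
  exact MvPolynomial.rename_injective _ (eqv hb).injective (IsFractionRing.injective _ _ e)

lemma sg_eq (hb : Br D c) : c.sg D.FF = D.σ.toLinearEquiv.toLinearMap.baseChange D.FF := by
  rw [CD.sg, hb.σ]

lemma kR_eq (hb : Br D c) :
    c.kR D.FF = LinearMap.BilinForm.baseChange D.FF (killingForm ℚ L) := by
  rw [CD.kR, hb.form]

lemma bs_e (hb : Br D c) (α : H.root) : c.bs D.FF (.inl α) = 1 ⊗ₜ D.e α := by
  rw [c.bs_apply, ← hb.e]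

lemma crd_eq (hb : Br D c) (i : H.root ⊕ D.b.support) (v : G L D.FF) :
    TensorProduct.rid ℚ D.FF ((coord D.b D.e i).lTensor D.FF v) = c.crd i v := by
  induction v using TensorProduct.induction_on with
  | zero => simp
  | add x y hx hy => rw [map_add, map_add, map_add, hx, hy]
  | tmul r x => rw [LinearMap.lTensor_tmul, rid_tmul, c.crd_tmul, hb.repr]

lemma wt_eq (hb : Br D c) (x : H) (a : ℤ × (H.root ⊕ D.b.support)) : D.wt x a = c.wt x a := by
  obtain ⟨m, α | i⟩ := a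
  · rw [c.wt_inl, CD.val, hb.al]; rfl
  · rw [c.wt_inr]; rfl

open scoped Classical

lemma cl (h : T1 c D.FF) (hb : Br D c) (x : H) (hx : D.InAlc x) :
    c.Cl (algebraMap O D.FF D.ζ) c.ρ x := by
  refine ⟨⟨hb.isH x, by rw [hb.σ]; exact hx.1⟩, fun a hv hp => ?_⟩
  rw [CD.val, hb.al]
  refine hx.2 a.1 a.2 (by rw [← hb.pos]; exact (h.cd.ρ_pos a.1 a.2).1 hp) fun e => hv ?_
  rw [CD.cc, ← e, hb.ℓ]
  refine Finset.sum_congr rfl fun i _ => ?_
  rw [bs_e hb, h.gk.sg_pow_c0, smul_tmul', smul_eq_mul, mul_one, hb.σ]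

lemma gen_eq (h : T1 c D.FF) (hb : Br D c) (j : J) :
    D.gen j = c.cell (fun j => (D.μ j : L)) (XX hb) j := by
  have h1 : c.nX (fun j => (D.μ j : L)) (XX hb) j = ∑ p : D.Idx with p.1.1 = j,
      algebraMap (MvPolynomial D.Idx O) D.FF (MvPolynomial.X p) ⊗ₜ D.e (ngt p.1.2) := by
    refine Finset.sum_equiv (eqv hb) (fun p => by simp [eqv]) fun p _ => ?_
    rw [bs_e hb, smul_tmul', smul_eq_mul, mul_one, hb.neg]
    rfl
  rw [Datum.gen, CD.cell, h.fd.span, h1]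
  simp only [hb.al, bs_e hb]
  rfl

lemma co_eq (h : T1 c D.FF) (hb : Br D c) (a : ℤ × (H.root ⊕ D.b.support))
    (g : ℤ →₀ G L D.FF) : D.co a g = c.co a (toL g) := by
  rw [Datum.co, crd_eq hb, ← cf_toL h g, c.co_cf]

lemma mem_lat (h : T1 c D.FF) (hb : Br D c) (x : H) (r : ℚ) (g : ℤ →₀ G L D.FF) :
    g ∈ D.lat x r ↔ toL g ∈ c.Win (algebraMap O D.FF D.ζ) (fun j => algebraMap O D.FF (D.s j))
      (c.cell (fun j => (D.μ j : L)) (XX hb)) x r := by
  rw [CD.Win, Submodule.mem_inf, c.mem_NN, c.mem_Eqv, c.mem_Sup]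
  simp only [cf_toL h, ev_toL h, ev_dd_toL h, ← co_eq h hb, ← wt_eq hb, ← gen_eq h hb, sg_eq hb,
    kR_eq hb, CD.dg, hb.ℓ, Set.mem_Ico]
  exact ⟨fun ⟨a1, a2, a3⟩ => ⟨⟨a1, a3⟩, a2⟩, fun ⟨⟨a1, a3⟩, a2⟩ => ⟨a1, a2, a3⟩⟩

end

end LatA

section
open LieAlgebra.IsKilling

variable {L : Type} [LieRing L] [LieAlgebra ℚ L] [FiniteDimensional ℚ L] [IsKilling ℚ L]
  {H : LieSubalgebra ℚ L} [H.IsCartanSubalgebra] [LieModule.IsTriangularizable ℚ H L]

open LatA in
theorem lat (h : ∀ {Φ Δ : Type} [Fintype Φ] [Fintype Δ] [DecidableEq Φ] [DecidableEq Δ]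
    (c : CD L Φ Δ) (K : Type) [Field K] [CharZero K], T1 c K) : S_lat (H := H) := by
  classical
  intro O J _ _ _ _ D c hb
  have h1 := h c D.FF
  refine ⟨od hb, co hb, XX hb, gen hb, indep hb, cl h1 hb, fun x r C => ⟨?_, fun t => ?_⟩⟩
  · refine forall_congr' fun v => transfer toL
      (fun _ _ => toL_inj h1) (toL_surj h1) _ _ fun g => ?_
    simp only [mem_lat h1 hb, co_eq h1 hb]
  · constructor
    · rintro ⟨g, hg, b, hbC, h2, a, h3⟩
      refine ⟨toL g, (mem_lat h1 hb x r g).1 hg, b, hbC, fun a ha => ?_, a,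
        by rw [h3, co_eq h1 hb]⟩
      rw [← co_eq h1 hb, h2 a ha]
      split_ifs <;> rfl
    · rintro ⟨f, hf, b, hbC, h2, a, h3⟩
      obtain ⟨g, rfl⟩ := toL_surj h1 f
      refine ⟨g, (mem_lat h1 hb x r g).2 hf, b, hbC, fun a ha => ?_, a,
        by rw [h3, co_eq h1 hb]⟩
      rw [co_eq h1 hb, h2 a ha]
      split_ifs <;> rfl

end

end Pool.Agent.P.MP_e7d440_ag.U
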