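import Pool.Agent.P.MP_e7d440_ag.U.Iface3

/-! The action of loops on modified loop algebras. -/

namespace Pool.Agent.P.MP_e7d440_ag.U

open TensorProduct LieAlgebra LaurentPolynomial Set

variable {L Φ Δ : Type} [LieRing L] [LieAlgebra ℚ L] [Fintype Φ] [Fintype Δ] [DecidableEq Φ]
  [DecidableEq Δ] (c : CD L Φ Δ) {K : Type} [Field K] [CharZero K] (ζ : K)
  {J : Type} [Fintype J] [DecidableEq J] (s : J → K)

namespace LegA

variable {c ζ s}

/-- the logarithmic derivative of an automorphism is a linear derivation -/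
lemma logd (h : T2 c ζ) {g g' : Op L K} (hg : c.A0 g) (hg' : c.A0 g') (h1 : g' * g = 1) :
    ∃ δ : Op L K, (∀ f, δ f = g' (dd (g f)) - dd f) ∧
      ∀ f f', δ ⁅f, f'⁆ = ⁅δ f, f'⁆ + ⁅f, δ f'⁆ := by
  have e : ∀ f, g' (g f) = f := fun f => LinearMap.congr_fun h1 f
  refine ⟨⟨⟨fun f => g' (dd (g f)) - dd f, fun f f' => ?_⟩, fun p f => ?_⟩, fun _ => rfl,
    fun f f' => ?_⟩
  · simp only [map_add]
    abel
  · simp only [map_smul, h.lp.dd_smul, map_add, e, RingHom.id_apply, smul_sub]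
    abel
  · show g' (dd (g ⁅f, f'⁆)) - dd ⁅f, f'⁆ =
      ⁅g' (dd (g f)) - dd f, f'⁆ + ⁅f, g' (dd (g f')) - dd f'⁆
    rw [hg.lie, h.lp.dd_lie, h.lp.dd_lie, map_add, hg'.lie, hg'.lie, e, e, sub_lie, lie_sub]
    abel

omit [Fintype J] [DecidableEq J] in
lemma fwd (h : T2 c ζ) (hs : ∀ j, s j ≠ 0) {U : J → Submodule K (G L K)} {g : Op L K}
    (hU : ∀ j, c.FD (U j)) (hg : c.LA ζ g) {f : LG L K} (hf : f ∈ c.NN ζ s U) :
    g f ∈ c.NN ζ s (actE s g U) := by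
  obtain ⟨g', hg', h1, h2⟩ := h.la.ex_inv g hg
  obtain ⟨δ, d1, d2⟩ := logd h hg.a0 hg'.a0 h2
  refine ⟨(hg.eqv f).2 hf.1, fun j => ⟨?_, ?_⟩⟩
  · rw [h.lp.ev_op _ (hs j)]
    exact Submodule.mem_map_of_mem (hf.2 j).1
  · rintro _ ⟨u, hu, rfl⟩
    have e1 : dd (g f) = g (δ f + dd f) := by
      rw [d1, sub_add_cancel]
      exact (LinearMap.congr_fun h1 _).symm
    have e2 : ∀ y : G L K, ev (s j) (mon 0 y) = y := fun y => by
      rw [h.lp.ev_mon, zpow_zero, one_smul]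
    have e3 := h.fd.der (U j) (hU j) (evE (s j) δ).toAddMonoidHom (fun y z => by
      show evE (s j) δ ⁅y, z⁆ = ⁅evE (s j) δ y, z⁆ + ⁅y, evE (s j) δ z⁆
      rw [evE_apply, evE_apply, evE_apply, ← add_zero (0 : ℤ), ← h.lp.mon_lie, add_zero, d2,
        map_add, h.lp.ev_lie _ (hs j), h.lp.ev_lie _ (hs j), e2, e2]) _ (hf.2 j).1 u hu
    rw [e1, h.lp.ev_op _ (hs j), (h.lp.evE_a0 _ (hs j) g hg.a0).form, map_add, map_add,
      LinearMap.add_apply, (hf.2 j).2 u hu, add_zero, h.lp.ev_op _ (hs j)]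
    exact e3

omit [Fintype J] [DecidableEq J] in
lemma iff (h : T2 c ζ) (hs : ∀ j, s j ≠ 0) {U : J → Submodule K (G L K)} {g : Op L K}
    (hU : ∀ j, c.FD (U j)) (hg : c.LA ζ g) (f : LG L K) :
    g f ∈ c.NN ζ s (actE s g U) ↔ f ∈ c.NN ζ s U := by
  refine ⟨fun hf => ?_, fwd h hs hU hg⟩
  obtain ⟨g', hg', -, h2⟩ := h.la.ex_inv g hg
  have := fwd h hs (fun j => (h.la.act_fd s hs g U hg j (hU j)).1) hg' hf
  rwa [← h.la.act_mul s hs, h2, h.la.act_one, show g' (g f) = f from LinearMap.congr_fun h2 f]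
    at this

omit [Fintype J] [DecidableEq J] in
lemma left (h : T2 c ζ) (hs : ∀ j, s j ≠ 0) {U : J → Submodule K (G L K)} {H g : Op L K}
    (hU : ∀ j, c.FD (U j)) (hg : c.LA ζ g) (hH : c.Rng ζ s U H) :
    c.Rng ζ s (actE s g U) (g * H) := by
  intro f
  obtain ⟨g', -, h1, h2⟩ := h.la.ex_inv g hg
  have e : g (g' f) = f := LinearMap.congr_fun h1 f
  constructor
  · intro hf
    rw [← e] at hf
    obtain ⟨k, hk, e'⟩ := (hH _).1 ((iff h hs hU hg _).1 hf)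
    exact ⟨k, hk, by rw [Module.End.mul_apply, e', e]⟩
  · rintro ⟨k, hk, rfl⟩
    exact fwd h hs hU hg ((hH _).2 ⟨k, hk, rfl⟩)

lemma def_pf (h : T2 c ζ) (S : Subfield K) {n : ℕ} (x : Fin n → G L K) (h1 : ∀ k, Nil (x k))
    (h2 : ∀ k, c.In0 S (x k)) :
    ∀ W : Submodule K (G L K), c.Def0 S W → c.Def0 S (W.map (pf x 0)) := by
  have h3 := h.ex.pf_ind x 0
    (fun g => ∀ W : Submodule K (G L K), c.Def0 S W → c.Def0 S (W.map g))
  refine h3 (fun W hW => ?_) (fun g g' h4 h5 W hW => ?_)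
    fun k _ W hW => h.fd.def_map S W (x k) (h1 k) (h2 k) hW
  · rwa [Module.End.one_eq_id, Submodule.map_id]
  · rw [Module.End.mul_eq_comp, Submodule.map_comp]
    exact h4 _ (h5 W hW)

end LegA

open LegA

theorem leg (h : T2 c ζ) (hp : c.Pt ζ s) (ht : S_tor c ζ s) : S_leg c ζ s := by
  refine ⟨fun U g hU hg f => iff h hp.ne hU hg f, fun U H g hU hg hH => left h hp.ne hU hg hH,
    fun U H g hg hH f => ?_, fun a y lam hl => ?_, fun S n a y lam hζ hs hy j => ?_,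
    fun S lam X hl => ⟨fun hd p => ?_, fun hX j => ?_⟩, fun lam X hl => ?_⟩
  · rw [hH f]
    obtain ⟨g', hg', h1, -⟩ := h.la.ex_inv g hg
    constructor
    · rintro ⟨k, hk, rfl⟩
      exact ⟨g' k, (hg'.eqv k).2 hk, by
        rw [Module.End.mul_apply, show g (g' k) = k from LinearMap.congr_fun h1 k]⟩
    · rintro ⟨k, hk, rfl⟩
      exact ⟨g k, (hg.eqv k).2 hk, rfl⟩
  · have h1 := fun j => h.la.act_fd s hp.ne _ (fun j => c.U1 K (lam j)) (h.la.pf a y 0) j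
      (h.fd.u1 _ (hl j))
    rw [h.la.act_pU s hp.ne]
    refine ⟨fun j => (h1 j).1, ?_,
      left h hp.ne (fun j => h.fd.u1 _ (hl j)) (h.la.pf a y 0) (ht.rng lam hl)⟩
    rw [h.fd.card]
    exact Finset.sum_congr rfl fun j _ => (h1 j).2.trans (h.fd.rank _)
  · refine def_pf h S _ (fun k => ?_) (fun k i => ?_) _ (h.fd.def_u1 S (lam j))
    · have := (h.lp.evE_ex _ (hp.ne j) _ (h.rt1.nil (a k) (y k))).1
      rwa [map_smul] at this
    · rw [map_smul, smul_eq_mul]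
      exact S.mul_mem (hy k) (h.sup.in_ev S.toSubring _ (s j) _ (SM.self _) (hs j)
        (S.inv_mem (hs j)) (h.rt1.int S.toSubring ⟨hζ, S.inv_mem (natCast_mem S _)⟩ (a k)) i)
  · obtain ⟨h1, -, h2⟩ := h.fd.nX lam X p.1.1
    rw [← h2 p rfl]
    exact h.cell.sub S _ (hl _) _ h1 (hd _) _
  · refine h.fd.def_map S _ _ (h.fd.nX lam X j).2.1 (fun i => ?_) (h.fd.def_u1 S _)
    rw [CD.nX, map_sum]
    refine S.sum_mem fun p _ => ?_
    rw [map_smul, smul_eq_mul]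
    exact S.mul_mem (hX p) (h.gk.in_bs S.toSubring _ i)
  · rw [h.fd.card]
    exact Finset.sum_congr rfl fun j _ => (h.fd.cell lam X j (hl j)).2

end Pool.Agent.P.MP_e7d440_ag.U
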