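import Pool.Agent.P.MP_e7d440_ag.U.Iface3

/-! The form `BF` in logarithmic coordinates. -/

namespace Pool.Agent.P.MP_e7d440_ag.U

open TensorProduct LieAlgebra LaurentPolynomial Set

variable {L Φ Δ : Type} [LieRing L] [LieAlgebra ℚ L] [Fintype Φ] [Fintype Δ] [DecidableEq Φ]
  [DecidableEq Δ] {c : CD L Φ Δ} {K : Type} [Field K] [CharZero K] {ζ : K}
  {J : Type} [Fintype J] [DecidableEq J] {s : J → K}

namespace MainA

lemma alR_co (h : T3a c ζ s) (β : Φ) (f : LG L K) :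
    c.alR β (cf 0 f) = ∑ i, c.al β (c.cw i) • c.co (0, .inr i) f := by
  simp only [h.gk.alR_eq, c.co_cf]

lemma alR_pos (h : T3a c ζ s) (β : Φ) {f : LG L K} (hf : f ∈ c.Sup c.ρ (Ioi 0)) :
    c.alR β (cf 0 f) = 0 := by
  rw [alR_co h]
  refine Finset.sum_eq_zero fun i _ => ?_
  have : c.co (0, .inr i) f = 0 := by_contra fun e => by simpa [c.wt_inr] using hf _ e
  rw [this, smul_zero]

lemma alR_neg (h : T3a c ζ s) (β : Φ) (x : G L K) : c.alR (c.neg β) x = -c.alR β x := by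
  simp [h.gk.alR_eq, c.al_neg]

lemma pair_F (h : T3a c ζ s) {b : Φ × ℤ} {x : L} (hb : c.OnW ζ c.ρ x b) {f : LG L K}
    (h1 : f ∈ c.Eqv ζ) (h2 : f ∈ c.Sup c.ρ (Ico 0 (c.dg J : ℚ))) :
    c.pair s (fun j => ev (s j) (c.F ζ b)) (fun j => ev (s j) f) =
      -(c.cE b f * (c.kp b.1 : K) / (c.phi s).coeff 0) := by
  have hk : ∀ n, (c.kR (LP K) (c.F ζ b) f).coeff n ≠ 0 → 0 ≤ n ∧ n < c.dg J ∧ (c.ℓ : ℤ) ∣ n :=
    fun n hn => by
      obtain ⟨p, rfl, p', ⟨a1, a2⟩, e⟩ := h.sup.kR _ _ _ _ _ (h.rt1.supF b _ c.fix_ρ) h2 n hn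
      have a3 := h.eqv.kR _ (h.rt1.eqv _) f h1 n hn
      have a4 := h.wall.wall_lt _ _ _ hb
      have a5 := hb.pos
      refine ⟨?_, by exact_mod_cast (by linarith : (n : ℚ) < c.dg J), a3⟩
      have a6 : -(c.ℓ : ℤ) < n := by exact_mod_cast (by linarith : -(c.ℓ : ℚ) < n)
      by_contra a7
      have := Int.le_of_dvd (by omega : 0 < -n) ((dvd_neg).2 a3)
      omega
  rw [h.res.pair, h.res.res _ fun n hn => ⟨(hk n hn).1, (hk n hn).2.1.le, (hk n hn).2.2⟩,
    h.res.kR_F b f h1, show (c.kR (LP K) (c.F ζ b) f).coeff (c.dg J) = 0 from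
      by_contra fun e => lt_irrefl _ (hk _ e).2.1, add_zero]

lemma crd_pr (p : Φ ⊕ Δ → Prop) (i : Φ ⊕ Δ) (f : LG L K) :
    (p i → c.crd i (c.pr (fun a => p a.2) f) = c.crd i f) ∧
      (¬ p i → c.crd i (c.pr (fun a => p a.2) f) = 0) := by
  have := fun m => c.co_pr (fun a => p a.2) (m, i) f
  simp only [c.co_eq] at this
  constructor <;> intro hp <;> ext m <;> simp [this, hp]

lemma u1_gr {lam : J → L} {r : L} (hC : c.Co lam r) (j : J) {u : G L K}
    (hu : u ∈ c.U1 K (lam j)) : u ∈ c.Gr r (Ioi 0) := fun i hi => by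
  have := hu i hi
  rcases i with α | i
  · exact hC.2.2.2 j α this
  · simp [CD.wt0] at this

lemma gr_of (h : T3a c ζ s) {r : L} (hr : c.Fix r) {f : LG L K} (h1 : f ∈ c.Eqv ζ)
    (h2 : f ∈ c.Sup c.ρ (Ico 0 (c.dg J : ℚ))) (h3 : ∀ j, ev (s j) f ∈ c.Gr r (Ioi 0)) :
    f ∈ c.Gr r (Ioi 0) := by
  have b1 : c.pr (fun a => 0 < c.wt0 r a.2) f ∈ c.Eqv ζ := h.eqv.pr _ (fun _ α => by
    simp only [CD.wt0, Sum.elim_inl]
    rw [h.cd.fix_al r hr α (c.ς α) ⟨1, by simp⟩]) (fun _ _ _ => Iff.rfl) f h1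
  have := h.int.uniq1 c.ρ 0 _ (sub_mem h1 b1)
    (by rw [zero_add]; exact sub_mem h2 (h.sup.pr_sup _ _ _ _ h2)) fun j => c.ext0 fun k => by
      rw [map_sub, map_sub, map_zero, h.lp.crd_ev _ _ (c.pr _ _)]
      by_cases e : 0 < c.wt0 r k
      · rw [(crd_pr (fun i => 0 < c.wt0 r i) k f).1 e, h.lp.crd_ev, sub_self]
      · rw [(crd_pr (fun i => 0 < c.wt0 r i) k f).2 e, map_zero, sub_zero]
        exact by_contra fun e' => e (h3 j k e')
  rw [sub_eq_zero.1 this]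
  exact fun i hi => by_contra fun e => hi ((crd_pr (fun i => 0 < c.wt0 r i) i f).2 e)

lemma nilF (h : T3a c ζ s) (b : Φ × ℤ) (t : K) (j : J) : Nil (t • ev (s j) (c.F ζ b)) ∧
    ∀ f, ev (s j) (ex (t • c.F ζ b) f) = ex (t • ev (s j) (c.F ζ b)) (ev (s j) f) := by
  have := h.lp.evE_ex _ (h.pt.ne j) _ (h.rt1.nil (c.ng b) t)
  rw [map_smul] at this
  exact ⟨this.1, fun f => by rw [h.lp.ev_op _ (h.pt.ne j), CD.F, this.2]⟩

lemma bf_ex (h : T3a c ζ s) (b : Φ × ℤ) (t : K) (f : LG L K) (m : J → G L K)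
    (hm : ∀ j, ⁅ev (s j) f, m j⁆ = 0) :
    c.BF s (ex (t • c.F ζ b) f) (fun j => ex (t • ev (s j) (c.F ζ b)) (m j)) = c.BF s f m := by
  refine Finset.sum_congr rfl fun j _ => ?_
  have ha := h.ex.a0 _ (nilF h b t j).1
  have := h.ex.logd (dd (L := L) (K := K)).toAddMonoidHom (t • c.F ζ b) h.lp.dd_lie
    (h.rt1.nil (c.ng b) t) (by
      change ⁅dd _, _⁆ = _
      rw [map_smul, CD.F, h.rt1.dd, smul_comm, (h.lp.lie_smul _ _ _).1, lie_self, smul_zero]) f
  simp only [LinearMap.toAddMonoidHom_coe] at this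
  rw [this, map_add, map_add, LinearMap.add_apply, (nilF h b t j).2, ha.form,
    h.lp.ev_lie _ (h.pt.ne j), (nilF h b t j).2, h.gk.inv, ← ha.lie, hm]
  simp

end MainA

open MainA in
theorem stp (h : T3a c ζ s) : S_stp c ζ s := by
  intro b x t hb f h1 h2 p q hp hq
  have hφ := h.div.phi_ne
  have hcl := h.wall.cl_pos _ x hb.reg (h.wall.cl_on _ _ _ hb)
  have hpos := hb.pos
  rw [pair_F h hb h1 h2] at hp
  have a1 := h.wall.zero_dec _ x b hb f h1 ((hcl f h1).2 (c.Sup_mono Ico_subset_Ici_self h2))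
  have a2 : c.cE (c.ng b) f = 0 := by
    have : c.co (CD.ix (c.ng b)) f = 0 := by_contra fun e => by
      have := (h2 _ e).1
      rw [c.wt_inl, c.val_ng] at this
      linarith
    rw [CD.cE, this, zero_div]
  rw [a2, zero_smul, sub_zero] at a1
  set P := f - c.cE b f • c.E ζ b - c.pr CD.Hz f with hP
  have hPe : P ∈ c.Eqv ζ :=
    sub_mem (sub_mem h1 (Submodule.smul_mem _ _ (h.rt1.eqv b))) (h.eqv.pr_hz f h1)
  have hla := h.la.exE (c.ng b) t
  have a3 : ex (t • c.F ζ b) P ∈ c.Sup c.ρ (Ioi 0) := (hcl _ ((hla.eqv P).2 hPe)).1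
    (h.sup.ex_gt x 0 _ P (h.rt1.nil _ t) a1 (Submodule.smul_mem _ _
      (c.Sup_mono (by simp [hb.zero]) (h.rt1.supF b x hb.fix))))
  have a4 : ex (t • c.F ζ b) (c.E ζ b) = c.E ζ b - (t * (c.kp b.1 : K)) • c0 (LP K) (c.tau b.1) -
      (t ^ 2 * (c.th b.1 : K)) • c.F ζ b := by
    have := h.rt1.exE_F (c.ng b) t (h.rt1.valid_ng b hb.valid)
    rw [CD.F, h.rt1.ng_ng] at this
    rw [CD.F, this]
    simp [CD.ng, h.orb.kp_neg, h.orb.tau_neg, h.orb.th_neg, tmul_neg, sub_eq_add_neg]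
  have a5 : ⁅t • c.F ζ b, c.pr CD.Hz f⁆ = (t * c.alR b.1 (cf 0 f)) • c.F ζ b := by
    rw [(h.lp.lie_smul _ _ _).1, ← lie_skew, CD.F, h.rt2.hz_lie f h1, ← neg_smul, smul_smul]
    simp [CD.ng, alR_neg h]
  have a6 := h.ex.two (t • c.F ζ b) (c.pr CD.Hz f) (h.rt1.nil _ t) (by
    rw [a5, (h.lp.lie_smul _ _ _).1, (h.lp.lie_smul _ _ _).2, lie_self]; simp)
  have a7 : (c.phi s - C ((c.phi s).coeff 0)) • c.F ζ b ∈ c.Sup c.ρ (Ioi 0) :=
    h.sup.smul _ _ _ _ _ (h.rt1.supF b _ c.fix_ρ) fun n hn q hq => by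
      have e : n ≠ 0 := fun e => hn (by simp [e])
      have e2 : (c.phi s).coeff n ≠ 0 := fun e2 => hn (by simp [e2, C_apply, e])
      obtain ⟨b1, -, b2⟩ := h.div.mon.1 n e2
      have b3 : (c.ℓ : ℚ) ≤ n := by exact_mod_cast Int.le_of_dvd (by omega) b2
      have := h.wall.wall_lt _ _ _ hb
      rw [hq, mem_Ioi]
      linarith
  have e : ex (t • c.F ζ b) f - q • c.phi s • c.F ζ b = c.pr CD.Hz f +
      ((c.phi s).coeff 0 * p) • c0 (LP K) (c.tau b.1) + (c.cE b f • c.E ζ b +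
        ex (t • c.F ζ b) P - q • (c.phi s - C ((c.phi s).coeff 0)) • c.F ζ b) := by
    have e1 : q * (c.phi s).coeff 0 =
        t * c.alR b.1 (cf 0 f) - c.cE b f * (t ^ 2 * (c.th b.1 : K)) := by
      rw [hq, hp, CD.th]; push_cast; field_simp; ring
    have e2 : (c.phi s).coeff 0 * p = -(c.cE b f * (t * (c.kp b.1 : K))) := by
      rw [hp]; field_simp
    rw [hP, map_sub, map_sub, h.lp.op_smul, a4, a6, a5, sub_smul, ← h.lp.smul_C, smul_sub q,
      smul_smul q ((c.phi s).coeff 0), e1, e2]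
    module
  have a8 : c.cE b f • c.E ζ b + ex (t • c.F ζ b) P -
      q • (c.phi s - C ((c.phi s).coeff 0)) • c.F ζ b ∈ c.Sup c.ρ (Ioi 0) :=
    sub_mem (add_mem (Submodule.smul_mem _ _ (c.Sup_mono (by simpa using hpos)
      (h.rt1.sup b _ c.fix_ρ))) a3) (Submodule.smul_mem _ _ a7)
  refine ⟨?_, fun β => ?_⟩
  · rw [← Ici_inter_Iio]
    refine h.sup.disj _ _ _ _ ?_ (sub_mem (h.sup.ex_lt _ _ _ _ (h.rt1.nil _ t)
      (c.Sup_mono Ico_subset_Iio_self h2) (Submodule.smul_mem _ _ (c.Sup_mono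
        (by simpa using hpos.le) (h.rt1.supF b _ c.fix_ρ)))) (Submodule.smul_mem _ _
        (h.sup.smul _ _ _ _ _ (h.rt1.supF b _ c.fix_ρ) fun n hn q hq => ?_)))
    · rw [e]
      refine add_mem (add_mem (fun a ha => ?_) (Submodule.smul_mem _ _ (c.Sup_mono (by simp)
        (h.sup.c0 _ _ (h.orb.tau_fix b.1).1)))) (c.Sup_mono Ioi_subset_Ici_self a8)
      rw [c.co_pr] at ha
      obtain ⟨m, i⟩ := a
      obtain ⟨rfl, i, rfl⟩ : CD.Hz (m, i) := by_contra fun e => ha (if_neg e)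
      simp [c.wt_inr]
    · have : (n : ℚ) ≤ c.dg J := by exact_mod_cast (h.div.mon.1 n hn).2.1
      rw [hq, mem_Iio]
      linarith
  · rw [e, map_add, map_add, alR_pos h β a8, add_zero, map_add, map_add, map_smul, map_smul,
      ← h.lp.mon_c0, h.lp.cf_mon, if_pos rfl, alR_co h, alR_co h]
    simp [c.co_pr, CD.Hz]

open MainA in
theorem main (h : T3a c ζ s) : S_main c ζ s := by
  intro lam r hC n
  have hφ := h.div.phi_ne
  induction n with
  | zero =>
    intro b t _ u u' hu hu' f h1 h2 h3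
    simp only [pf_zero, Module.End.one_apply] at h3 ⊢
    have := gr_of h hC.1 h1 h2 fun j => h3 j ▸ u1_gr hC j (hu j)
    refine ⟨fun β => ?_, ?_⟩
    · rw [alR_co h]
      simp only [Finset.univ_eq_empty, Finset.sum_empty, mul_zero]
      refine Finset.sum_eq_zero fun i _ => ?_
      have : c.crd (.inr i) f = 0 := by_contra fun e => by simpa [CD.wt0] using this _ e
      simp [c.co_eq, this]
    · simp only [Finset.univ_eq_empty, Finset.sum_empty, mul_zero]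
      refine Finset.sum_eq_zero fun j _ => ?_
      rw [h.gk.gr_kR r (Ioi 0) (Ioi 0) _ _ (fun i hi => this i fun e => hi (by
        rw [h.lp.crd_ev, h.lp.crd_dd, e]; simp)) (u1_gr hC j (hu' j))
        fun p hp p' hp' => (add_pos hp hp').ne', mul_zero]
  | succ n ih =>
    intro b t hb u u' hu hu' f h1 h2 h3
    obtain ⟨x, hx⟩ := hb 0
    have hs : ∀ j, pf (fun k => t k • ev (s j) (c.F ζ (b k))) 0 = ex (t 0 • ev (s j) (c.F ζ (b 0))) *
        pf (fun k => Fin.tail t k • ev (s j) (c.F ζ (Fin.tail b k))) 0 := fun j => pf_succ _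
    have hp0 : ∀ w, c.pp ζ s b t w 0 = t 0 * c.pair s (fun j => ev (s j) (c.F ζ (b 0)))
        fun j => pf (fun k => Fin.tail t k • ev (s j) (c.F ζ (Fin.tail b k))) 0 (w j) :=
      fun w => by
        simp only [CD.pp, CD.PP, Fin.val_zero, pf_succ_succ]
        rfl
    have hp1 : ∀ w (k : Fin n), c.pp ζ s b t w k.succ =
        c.pp ζ s (Fin.tail b) (Fin.tail t) w k := fun w k => by
      simp only [CD.pp, CD.PP, Fin.val_succ, pf_succ_succ]
      rfl
    obtain ⟨f0, a1, a2, a3, -⟩ := h.int.int1 c.ρ 0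
      (fun j => pf (fun k => Fin.tail t k • ev (s j) (c.F ζ (Fin.tail b k))) 0 (u j)) c.fix_ρ
    rw [zero_add] at a2
    obtain ⟨i1, i2⟩ := ih (Fin.tail b) (Fin.tail t) (fun k => hb k.succ) u u' hu hu' f0 a1 a2 a3
    obtain ⟨q, hq⟩ : ∃ q, q = t 0 * c.alR (b 0).1 (cf 0 f0) / (c.phi s).coeff 0 +
      t 0 * (c.nu (b 0).1 : K) / 2 * c.pp ζ s b t u 0 := ⟨_, rfl⟩
    obtain ⟨b1, b2⟩ := stp h (b 0) x (t 0) hx f0 a1 a2 (c.pp ζ s b t u 0) q
      (by rw [hp0]; simp only [a3]) hq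
    have e : f = ex (t 0 • c.F ζ (b 0)) f0 - q • c.phi s • c.F ζ (b 0) :=
      sub_eq_zero.1 (h.int.uniq1 c.ρ 0 _ (sub_mem h1 (sub_mem
        (((h.la.exE (c.ng (b 0)) (t 0)).eqv f0).2 a1) (Submodule.smul_mem _ _
          (h.eqv.smul _ (fun n hn => (h.div.mon.1 n hn).2.2) _ (h.rt1.eqv _)))))
        (by rw [zero_add]; exact sub_mem h2 b1) fun j => by
          rw [map_sub, map_sub, map_smul, (h.div.ev_smul _ j).1, (nilF h _ _ j).2, h3, a3, hs]
          simp)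
    refine ⟨fun β => ?_, ?_⟩
    · rw [e, b2, i1, Fin.sum_univ_succ]
      simp only [hp1]
      simp only [Fin.tail]
      ring
    · have hfd := fun j => (h.fd.map _ _ (h.ex.a0_pf
        (fun k => Fin.tail t k • ev (s j) (c.F ζ (Fin.tail b k))) 0
          fun k => (nilF h _ _ j).1) (h.fd.u1 _ (hC.2.2.1 j))).1
      have e1 := bf_ex h (b 0) (t 0) f0
        (fun j => pf (fun k => Fin.tail t k • ev (s j) (c.F ζ (Fin.tail b k))) 0 (u' j))
        fun j => by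
          rw [a3]
          exact (h.fd.iso _ (hfd j) _ ⟨_, hu j, rfl⟩ _ ⟨_, hu' j, rfl⟩).2
      have e2 : ∀ (g g' : LG L K) (y : J → G L K),
          c.BF s (g - q • g') y = c.BF s g y - q * c.BF s g' y := fun g g' y => by
        simp only [CD.BF, map_sub, map_smul, LinearMap.sub_apply, LinearMap.smul_apply,
          smul_eq_mul, Finset.mul_sum, ← Finset.sum_sub_distrib]
        exact Finset.sum_congr rfl fun j _ => by ring
      have e3 : t 0 * c.pair s (fun j => ev (s j) (c.F ζ (b 0))) (fun j =>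
          pf (fun k => t k • ev (s j) (c.F ζ (b k))) 0 (u' j)) = c.pp ζ s b t u' 0 := by
        rw [hp0]
        congr 1
        refine Finset.sum_congr rfl fun j _ => ?_
        have hn := (nilF h (b 0) (t 0) j).1
        simp only [hs, Module.End.mul_apply]
        rw [← (h.ex.a0 _ hn).form (ev (s j) (c.F ζ (b 0))) (pf _ 0 (u' j)),
          h.ex.fix _ (ev (s j) (c.F ζ (b 0))) hn (by rw [smul_lie, lie_self, smul_zero])]
      rw [e, e2, h.div.bf_phi]
      simp only [hs, Module.End.mul_apply] at e3 ⊢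
      rw [e1, i2, hq, i1]
      simp only [Fin.sum_univ_succ, hp1, CD.Cm, Fin.succ_inj, Fin.succ_lt_succ_iff, if_true,
        Fin.succ_ne_zero, (Fin.succ_ne_zero _).symm, Fin.not_lt_zero, Fin.succ_pos, if_false,
        Finset.sum_add_distrib]
      rw [← e3]
      simp only [Fin.tail, Rat.cast_zero, zero_mul, Finset.sum_const_zero, add_zero,
        ← Finset.sum_mul, mul_comm (c.pp ζ s _ _ u _)]
      push_cast
      field_simp
      ring

end Pool.Agent.P.MP_e7d440_ag.U
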