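import Pool.Agent.P.MP_e7d440_ag.U.Iface3

/-! A long gallery gives a chart. -/

namespace Pool.Agent.P.MP_e7d440_ag.U

open TensorProduct LieAlgebra LaurentPolynomial Set

variable {L Φ Δ : Type} [LieRing L] [LieAlgebra ℚ L] [Fintype Φ] [Fintype Δ] [DecidableEq Φ]
  [DecidableEq Δ] (c : CD L Φ Δ) {K : Type} [Field K] [CharZero K] (ζ : K)
  {J : Type} [Fintype J] [DecidableEq J] (s : J → K)

namespace RankA

variable {c ζ s}

theorem inj (h : T3a c ζ s) {V : ValuationSubring K} {U : J → Submodule K (G L K)} {z : L}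
    (hH : c.Hi ζ s V U z) {f : LG L K} (h1 : f ∈ c.Eqv ζ) (h2 : f ∈ c.Sup c.ρ (Ioi 0))
    (h3 : f ∈ c.Sup z (Iio 0)) (h4 : ∀ j, ∀ u ∈ U j, c.kR K (ev (s j) f) u = 0) : f = 0 := by
  by_contra hf
  obtain ⟨r, hr, h5⟩ := h.sup.gap_lo _ _ f h2
  have w0 : c.phi s • f ≠ 0 := fun e =>
    hf (h.div.uniq _ _ _ r f h.div.mon h5 (by rw [e]; exact zero_mem _))
  have w1 := (h.div.nn_phi U f h1).2 h4
  have w2 : c.phi s • f ∈ c.Sup c.ρ (Ici r) := h.sup.smul _ _ _ _ f h5 fun n hn q hq => by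
    have : (0 : ℚ) ≤ n := by exact_mod_cast (h.div.mon.1 n hn).1
    exact le_add_of_le_of_nonneg hq this
  have w3 : c.phi s • f ∈ c.Sup z (Iio (c.dg J : ℚ)) := h.sup.smul _ _ _ _ f h3 fun n hn q hq => by
    have : (n : ℚ) ≤ (c.dg J : ℚ) := by exact_mod_cast (h.div.mon.1 n hn).2.1
    have h6 : q < 0 := hq
    show q + n < _
    linarith
  obtain ⟨t, -, t1, a, t2⟩ := h.sup.prim V _ w0
  obtain ⟨a', a1, a2⟩ := hH r _ (Submodule.smul_mem _ t w1) (Submodule.smul_mem _ t w2) t1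
    fun e => by
      have := V.mem_nonunits_iff.1 (e a)
      rw [t2, map_one] at this
      exact lt_irrefl _ this
  have a3 : c.wt z a' < c.dg J :=
    Submodule.smul_mem _ t w3 a' fun e => a1 (by rw [e]; exact V.nonunits.zero_mem)
  linarith

theorem surj (h : T3a c ζ s) {V : ValuationSubring K} {U : J → Submodule K (G L K)} {z : L}
    {n : ℕ} {a : Fin n → Φ × ℤ} (hz : c.Reg ζ z) (hG : c.Gal ζ z n c.ρ a) (hH : c.Hi ζ s V U z)
    (hle : ∑ j, Module.finrank K (U j) ≤ n) : n = ∑ j, Module.finrank K (U j) ∧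
      ∀ φ : J → G L K, ∃ f ∈ c.Eqv ζ, f ∈ c.Sup c.ρ (Ioi 0) ∧ f ∈ c.Sup z (Iio 0) ∧
        ∀ j, ∀ u ∈ U j, c.kR K (ev (s j) f) u = c.kR K (φ j) u := by
  have : Module.Finite K (G L K) := Module.Finite.of_basis (c.bs K)
  let Ψ : (Fin n → K) →ₗ[K] LG L K := Fintype.linearCombination K fun k => c.E ζ (a k)
  have Ψe : ∀ q, Ψ q = ∑ k, q k • c.E ζ (a k) := fun q => Fintype.linearCombination_apply _ _ _
  have Ψm : ∀ (N : Submodule K (LG L K)), (∀ k, c.E ζ (a k) ∈ N) → ∀ q, Ψ q ∈ N := fun N hN q => by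
    rw [Ψe]
    exact Submodule.sum_mem _ fun k _ => Submodule.smul_mem _ _ (hN k)
  have m1 := Ψm _ fun k => h.rt1.eqv (a k)
  have m2 := Ψm (c.Sup c.ρ (Ioi 0)) fun k => c.Sup_mono
    (singleton_subset_iff.2 (h.gal.mem z n _ a hz hG k).2.1) (h.rt1.sup (a k) _ c.fix_ρ)
  have m3 := Ψm (c.Sup z (Iio 0)) fun k => c.Sup_mono
    (singleton_subset_iff.2 (h.gal.mem z n _ a hz hG k).2.2) (h.rt1.sup (a k) _ hz.1)
  let Θ : (Fin n → K) →ₗ[K] ∀ j, Module.Dual K (U j) :=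
    LinearMap.pi fun j => (U j).dualRestrict ∘ₗ c.kR K ∘ₗ ev (s j) ∘ₗ Ψ
  have Θe : ∀ q j (u : U j), Θ q j u = c.kR K (ev (s j) (Ψ q)) u := fun _ _ _ => rfl
  have hi : Function.Injective Θ := (injective_iff_map_eq_zero Θ).2 fun q hq => by
    have e := inj h hH (m1 q) (m2 q) (m3 q) fun j u hu => by
      rw [← Θe q j ⟨u, hu⟩, hq]; rfl
    funext k
    have e2 : c.cE (a k) (Ψ q) = ∑ l, q l * c.cE (a k) (c.E ζ (a l)) := by
      simp only [Ψe, CD.cE, map_sum, map_smul, smul_eq_mul, Finset.sum_div, mul_div_assoc]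
    simp only [h.gal.indep z n _ a hz hG, mul_ite, mul_one, mul_zero, Finset.sum_ite_eq,
      Finset.mem_univ, if_true] at e2
    rw [← e2, e, CD.cE, map_zero, zero_div, Pi.zero_apply]
  have d1 : Module.finrank K (∀ j, Module.Dual K (U j)) = ∑ j, Module.finrank K (U j) := by
    rw [Module.finrank_pi_fintype]
    exact Finset.sum_congr rfl fun j _ => Subspace.dual_finrank_eq
  have d2 := LinearMap.finrank_le_finrank_of_injective hi
  rw [Module.finrank_fin_fun, d1] at d2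
  have d3 := le_antisymm d2 hle
  refine ⟨d3, fun φ => ?_⟩
  obtain ⟨q, hq⟩ := (LinearMap.injective_iff_surjective_of_finrank_eq_finrank
    (by rw [Module.finrank_fin_fun, d1, ← d3])).1 hi fun j => (U j).dualRestrict (c.kR K (φ j))
  exact ⟨Ψ q, m1 q, m2 q, m3 q, fun j u hu => by rw [← Θe q j ⟨u, hu⟩, hq]; rfl⟩

theorem far (h : T3a c ζ s) {d : L} (hd : c.Fix d) : ∃ r, c.Fix r ∧ (∀ α, c.al α r ≠ 0) ∧
    (∀ α, 0 < c.al α d → 0 < c.al α r) ∧ ∀ α, c.al α d < 0 → c.al α r < 0 := by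
  have key : ∀ α, c.al α d ≠ 0 → 1 ≤ (∑ β, |c.al β d|⁻¹) * |c.al α d| := fun α hα => by
    rw [← inv_mul_cancel₀ (abs_ne_zero.2 hα)]
    exact mul_le_mul_of_nonneg_right (Finset.single_le_sum (f := fun β => |c.al β d|⁻¹)
      (fun β _ => by positivity) (Finset.mem_univ α)) (abs_nonneg _)
  generalize ∑ β, |c.al β d|⁻¹ = M at key
  have p1 : ∀ α, 0 < c.al α d → 0 < c.al α (M • d + c.ρ) := fun α hα => by
    have := key α hα.ne'
    rw [abs_of_pos hα] at this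
    rw [map_add, map_smul, smul_eq_mul]
    linarith [h.cd.ρ_gt α]
  have p2 : ∀ α, c.al α d < 0 → c.al α (M • d + c.ρ) < 0 := fun α hα => by
    have := key α hα.ne
    rw [abs_of_neg hα] at this
    rw [map_add, map_smul, smul_eq_mul]
    linarith [c.ρ_lt α]
  refine ⟨M • d + c.ρ, (hd.smul M).add c.fix_ρ, fun α => ?_, p1, p2⟩
  rcases lt_trichotomy (c.al α d) 0 with e | e | e
  · exact (p2 α e).ne
  · rw [map_add, map_smul, e, smul_zero, zero_add]
    exact c.ρ_ne α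
  · exact (p1 α e).ne'

theorem lowers (h : T3a c ζ s) (r : L) {n : ℕ} (x : Fin n → G L K) (h1 : ∀ k, Nil (x k))
    (h2 : ∀ k, x k ∈ c.Gr r (Iio 0)) :
    ∀ q, ∀ v ∈ c.Gr r (Iic q), pf x 0 v - v ∈ c.Gr r (Iio q) := by
  have le : ∀ q, (c.Gr r (Iio q) : Submodule K (G L K)) ≤ c.Gr r (Iic q) :=
    fun q v hv i hi => Iio_subset_Iic_self (hv i hi)
  refine h.ex.pf_ind x 0 (fun g => ∀ q, ∀ v ∈ c.Gr r (Iic q), g v - v ∈ c.Gr r (Iio q))
    (fun q v _ => by rw [Module.End.one_apply, sub_self]; exact zero_mem _)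
    (fun g g' a b q v hv => ?_) fun k _ q v hv => ?_
  · have e1 : g' v ∈ c.Gr r (Iic q) := by
      rw [← sub_add_cancel (g' v) v]
      exact add_mem (le q (b q v hv)) hv
    rw [Module.End.mul_apply, ← sub_add_sub_cancel _ (g' v)]
    exact add_mem (a q _ e1) (b q v hv)
  · refine (h.ex.stable _ _ (x k) (h1 k) (le q) (fun y hy => ?_) v hv).1
    exact h.gk.gr_lie r _ _ _ _ _ (h2 k) hy fun p hp p' hp' => by
      have a : p < 0 := hp
      have b : p' ≤ q := hp'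
      show p + p' < q
      linarith

end RankA

open RankA in
theorem rank (h : T3a c ζ s) : S_rank c ζ s := by
  intro V U z n a hFD hz hG hH hle
  obtain ⟨hn, hs⟩ := surj h hz hG hH hle
  have hm := h.gal.mem z n _ a hz hG
  have s0 := h.pt.ne
  obtain ⟨N, N1, N2, N3, N4⟩ := hs fun _ => -c0 K c.ρ
  obtain ⟨y, hy⟩ := h.gal.conj z n _ a c.ρ hz hG c.fix_ρ (fun k => c.ρ_ne _) N N1 N2 N3
  have gl := h.la.pf a y 0
  have ga := h.la.aut_pf a y 0 c.ρ c.fix_ρ fun k => (hm k).2.1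
  have gw := h.la.low_pf a y 0 z hz.1 fun k => (hm k).2.2
  have gp := h.la.act_pU s s0 a y
  generalize pf (fun k => y k • c.E ζ (a k)) 0 = g at hy gl ga gw gp
  obtain ⟨g', gl', e1, -⟩ := h.la.ex_inv g gl
  have A := fun j => h.lp.evE_a0 _ (s0 j) g gl.a0
  have hU : U = actE s g (actE s g' U) := by rw [← h.la.act_mul s s0, e1, h.la.act_one]
  choose lam l1 l2 using fun j => h.fix.fix (actE s g' U j) c.ρ
    (h.la.act_fd s s0 g' U gl' j (hFD j)).1 c.ρ_h c.ρ_ne (by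
      rintro _ ⟨u, hu, rfl⟩
      rw [← (A j).form, ← Module.End.mul_apply, ← h.lp.evE_mul _ (s0 j), e1, h.lp.evE_one,
        Module.End.one_apply, ← h.lp.ev_c0 (s j), ← h.lp.ev_op _ (s0 j), hy, map_add, map_add,
        LinearMap.add_apply, N4 j u hu, h.lp.ev_c0, map_neg, LinearMap.neg_apply, add_neg_cancel])
  rw [funext l2] at hU
  have hP : U = c.pU s (fun k => c.E ζ (a k)) y lam := hU.trans (gp lam).symm
  obtain ⟨r, r1, r2, r3, r4⟩ := far h (hz.1.sub c.fix_ρ)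
  have hc : ∀ j, ∃ m ∈ c.Gr (lam j) {-1}, U j = (c.U1 K (lam j)).map (ex m) := fun j => by
    refine h.cell.cell (U j) (lam j) (hFD j) (l1 j) ?_ ?_
    · rw [← (h.la.act_fd s s0 g' U gl' j (hFD j)).2, l2 j, h.fd.rank]
    · rw [hP]
      refine h.cell.trans _ (lam j) r (lowers h r _ (fun k => ?_) fun k => ?_)
      · rw [← map_smul]
        exact (h.lp.evE_ex _ (s0 j) _ (h.rt1.nil (a k) (y k))).1
      · refine Submodule.smul_mem _ _ fun i hi => ?_
        rw [h.lp.crd_ev] at hi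
        have b1 : c.wt0 r i = c.al (a k).1 r :=
          h.rt1.gr (a k) r r1 i fun e => hi (by rw [e, map_zero])
        have b2 := (hm k).2.1
        have b3 := (hm k).2.2
        rw [mem_Iio, b1]
        refine r4 _ ?_
        rw [map_sub]
        unfold CD.val at b2 b3
        linarith
  choose m m1 m2 using hc
  obtain ⟨X, hX⟩ := h.fd.nX_of lam m m1
  refine ⟨lam, r, y, X, ⟨r1, r2, l1, fun j β hβ => r3 β ?_⟩, ?_, hP,
    funext fun j => by rw [CD.cell, hX, m2]⟩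
  · obtain ⟨f', f1, f2, f3, f4⟩ := hs fun _ => evE (s j) g (c.bs K (.inl (c.neg β)))
    have e2 : f' = g (g' f') := by rw [← Module.End.mul_apply, e1, Module.End.one_apply]
    have f5 := (gl'.eqv f').2 f1
    generalize g' f' = f at e2 f5
    subst e2
    have b1 := (h.la.aut_gt _ g _ ga 0 f f5).1 f2
    have b2 := (h.la.low_iff z g gw 0 f f5).2.1 f3
    have b3 := f4 j (evE (s j) g (c.bs K (.inl β)))
      (by rw [hU]; exact ⟨_, h.gk.gr_bs (lam j) {1} (.inl β) hβ, rfl⟩)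
    rw [h.lp.ev_op _ (s0 j), (A j).form, (A j).form, h.gk.kR_e, h.gk.crd_bs, if_pos rfl, h.gk.symm,
      ← h.cd.neg_neg β, h.gk.kR_e, h.cd.neg_neg β, h.lp.crd_ev] at b3
    have b4 : c.crd (.inl (c.neg β)) f ≠ 0 := fun e => by
      rw [e, map_zero, smul_zero, eq_comm, smul_eq_zero] at b3
      exact b3.elim (h.cd.kap_pos β).ne' one_ne_zero
    obtain ⟨k, hk⟩ : ∃ k, (c.crd (.inl (c.neg β)) f).coeff k ≠ 0 := by
      by_contra hk
      push Not at hk
      exact b4 (LaurentPolynomial.ext hk)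
    have b5 : c.co (k, .inl (c.neg β)) f ≠ 0 := by rwa [CD.co_eq]
    have b6 : 0 < c.al (c.neg β) c.ρ + k := b1 _ b5
    have b7 : c.al (c.neg β) z + k < 0 := b2 _ b5
    rw [c.al_neg, LinearMap.neg_apply] at b6 b7
    rw [map_sub]
    linarith
  · rw [hn, hP]
    exact (h.leg.fd_pU a y lam l1).2.1

end Pool.Agent.P.MP_e7d440_ag.U
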