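import Pool.Agent.P.MP_e7d440_ag.U.Iface3

/-! The walk for a valuation ring. -/

namespace Pool.Agent.P.MP_e7d440_ag.U

open TensorProduct LieAlgebra LaurentPolynomial Set

variable {L Φ Δ : Type} [LieRing L] [LieAlgebra ℚ L] [Fintype Φ] [Fintype Δ] [DecidableEq Φ]
  [DecidableEq Δ] {c : CD L Φ Δ} {K : Type} [Field K] [CharZero K] {ζ : K}
  {J : Type} [Fintype J] [DecidableEq J] {s : J → K}

namespace StpA

lemma nu_le (V : ValuationSubring K) : (V.nonunits : Set K) ⊆ V.toSubring := fun _ ha =>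
  V.nonunits_subset ha

lemma small (h : T3a c ζ s) (V : ValuationSubring K) (x : LG L K) (N : ℕ)
    (hN : ad (LP K) (LG L K) x ^ N = 0) (hx : c.In V.nonunits x) (f : LG L K) (hf : c.In V f) :
    c.In V.nonunits (ex (N.factorial • x) f - f) := by
  have hM := h.sup.in_add _ _ (SM.nonunits V)
  have e : ad (LP K) (LG L K) (N.factorial • x) = N.factorial • ad (LP K) (LG L K) x :=
    map_nsmul _ _ _
  have h1 : ∀ k, c.In V.nonunits ((ad (LP K) (LG L K) x ^ (k + 1)) f) := fun k => by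
    induction k with
    | zero => simpa using (h.sup.in_lie _ _ f x (SM.nonunits V) hf hx).2
    | succ k ih =>
      rw [pow_succ', Module.End.mul_apply, ad_apply]
      exact (h.sup.in_lie _ _ x _ (SM.nonunits V) (fun a => nu_le V (hx a)) ih).1
  rw [h.ex.sum _ f (N + 1) (by rw [e, smul_pow, pow_succ _ N, pow_succ _ N, hN]; simp),
    Finset.sum_range_succ']
  simp only [Nat.factorial_zero, Nat.cast_one, inv_one, pow_zero, Module.End.one_apply, one_smul,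
    add_sub_cancel_right]
  refine hM.2.2.2.2 _ _ fun k hk => ?_
  obtain ⟨m, hm⟩ : (k + 1).factorial ∣ N.factorial ^ (k + 1) :=
    (Nat.factorial_dvd_factorial (Finset.mem_range.1 hk)).trans (dvd_pow_self _ k.succ_ne_zero)
  rw [e, smul_pow, hm, LinearMap.smul_apply, mul_smul, ← Nat.cast_smul_eq_nsmul ℚ,
    inv_smul_smul₀ (by positivity), ← Nat.cast_smul_eq_nsmul K]
  exact hM.2.2.1 _ _ (natCast_mem _ m) (h1 k)

lemma crd_pr (p : Φ ⊕ Δ → Prop) (i : Φ ⊕ Δ) (f : LG L K) :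
    (p i → c.crd i (c.pr (fun a => p a.2) f) = c.crd i f) ∧
      (¬ p i → c.crd i (c.pr (fun a => p a.2) f) = 0) := by
  have := fun m => c.co_pr (fun a => p a.2) (m, i) f
  simp only [c.co_eq] at this
  constructor <;> intro hp <;> ext m <;> simp [this, hp]

lemma lift (h : T3a c ζ s) (V : ValuationSubring K) (r : L) (hV : c.VD ζ s V) (hr : c.Fix r)
    (m : J → G L K) (hm : ∀ j, m j ∈ c.Gr r (Iio 0)) : ∃ Y ∈ c.Eqv ζ, Y ∈ c.Gr r (Iio 0) ∧
      c.In V.nonunits Y ∧ ∀ j, ev (s j) Y = m j := by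
  have hM := h.sup.in_add _ _ (SM.nonunits V)
  have key : ∀ j, ∃ Y ∈ c.Eqv ζ, Y ∈ c.Gr r (Iio 0) ∧ c.In V.nonunits Y ∧
      ∀ i, ev (s i) Y = (Pi.single j (m j) : J → G L K) i := fun j => by
    obtain ⟨Z, a1, -, a2, -⟩ := h.int.int1 c.ρ 0 (Pi.single j (m j)) c.fix_ρ
    set Z' := c.pr (fun a => c.wt0 r a.2 < 0) Z with hZ
    have b1 : Z' ∈ c.Eqv ζ := h.eqv.pr _ (fun _ α => by
      simp only [CD.wt0, Sum.elim_inl]
      rw [h.cd.fix_al r hr α (c.ς α) ⟨1, by simp⟩]) (fun _ _ _ => Iff.rfl) Z a1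
    have b2 : Z' ∈ c.Gr r (Iio 0) := fun i hi =>
      by_contra fun e => hi ((crd_pr (fun i => c.wt0 r i < 0) i Z).2 e)
    have b3 : ∀ i, ev (s i) Z' = (Pi.single j (m j) : J → G L K) i := fun i => c.ext0 fun k => by
      rw [h.lp.crd_ev]
      by_cases e : c.wt0 r k < 0
      · rw [(crd_pr (fun i => c.wt0 r i < 0) k Z).1 e, ← h.lp.crd_ev, a2]
      · rw [(crd_pr (fun i => c.wt0 r i < 0) k Z).2 e, map_zero]
        by_cases e' : i = j
        · subst e'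
          rw [Pi.single_eq_same]
          exact (by_contra fun e'' => e (hm i k fun e3 => e'' e3.symm))
        · rw [Pi.single_eq_of_ne e', map_zero]
    obtain ⟨M, hM'⟩ := h.sup.arch V (s j) (nu_le V (hV.small j)) (fun γ => hV.arch γ j) Z'
    obtain ⟨M', e1, e2⟩ : ∃ M', M ≤ M' ∧ M' + 1 = c.ℓ * (M + 1) :=
      ⟨c.ℓ * (M + 1) - 1, by have := c.ℓ_pos; have : M + 1 ≤ c.ℓ * (M + 1) := by nlinarith
                             omega, by
        have := c.ℓ_pos; have : M + 1 ≤ c.ℓ * (M + 1) := by nlinarith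
        omega⟩
    refine ⟨(T (-((M' + 1 : ℕ) : ℤ)) : LP K) • s j • s j ^ M' • Z', (h.eqv.T_iff _ _ ?_).2
      (Submodule.smul_mem _ _ (Submodule.smul_mem _ _ b1)), Submodule.smul_mem _ _ ?_,
      (h.sup.in_T _ _ _).2 (hM.2.2.2.1 _ _ (hV.small j) (hM' M' e1)), fun i => ?_⟩
    · rw [e2]; simp
    · rw [h.lp.smul_C, h.lp.smul_C (s j ^ M')]
      exact Submodule.smul_mem _ _ (Submodule.smul_mem _ _ b2)
    · rw [h.lp.ev_smul _ (h.pt.ne i), map_smul, map_smul, b3, evL_T]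
      by_cases e' : i = j
      · subst e'
        rw [smul_smul, smul_smul, zpow_neg, zpow_natCast, mul_assoc, ← pow_succ',
          inv_mul_cancel₀ (pow_ne_zero _ (h.pt.ne i)), one_smul]
      · simp [Pi.single_eq_of_ne e']
  choose Y a1 a2 a3 a4 using key
  refine ⟨∑ j, Y j, sum_mem fun j _ => a1 j, sum_mem fun j _ => a2 j,
    hM.2.2.2.2 _ _ fun j _ => a3 j, fun j => ?_⟩
  simp [map_sum, a4, Pi.single_apply]

lemma far (h : T3a c ζ s) (r : L) (hr : c.Fix r) (Y : LG L K) (hY : Y ∈ c.Gr r (Iio 0)) :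
    ∃ z, c.Reg ζ z ∧ Y ∈ c.Sup z (Ioi 0) := by
  obtain ⟨r0, r1, hb⟩ := h.sup.bdd c.ρ Y
  obtain ⟨k, hk⟩ := exists_nat_gt (-r0)
  have hD : ∀ α, ∃ n : ℤ, (∏ β, (c.al β r).den : ℕ) * c.al α r = n := fun α => by
    obtain ⟨d, hd⟩ := Finset.dvd_prod_of_mem (fun β => (c.al β r).den) (Finset.mem_univ α)
    refine ⟨d * (c.al α r).num, ?_⟩
    rw [hd]; push_cast; rw [← Rat.mul_den_eq_num]; ring
  have hD0 : (0 : ℚ) < (∏ β, (c.al β r).den : ℕ) :=
    Nat.cast_pos.2 (Finset.prod_pos fun β _ => (c.al β r).den_pos)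
  generalize ((∏ β, (c.al β r).den : ℕ) : ℚ) = D at hD hD0
  refine ⟨c.ρ + (-(k * D)) • r, h.wall.reg_int _ (hr.smul _) fun α => ?_, ?_⟩
  · obtain ⟨n, hn⟩ := hD α
    exact ⟨-(k * n), by rw [map_smul, smul_eq_mul]; push_cast; rw [← hn]; ring⟩
  · rintro ⟨m, i⟩ ha
    have h1 := (hb _ ha).1
    have h2 : c.wt0 r i < 0 := hY i fun e => ha (by rw [c.co_eq, e]; simp)
    rcases i with α | i
    · obtain ⟨n, hn⟩ := hD α
      simp only [CD.wt, CD.wt0, Sum.elim_inl, map_add, map_smul, smul_eq_mul, mem_Ioi] at h1 h2 ⊢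
      have h3 : n < 0 := by
        have : (n : ℚ) < 0 := hn ▸ mul_neg_of_pos_of_neg hD0 h2
        exact_mod_cast this
      have h4 : (n : ℚ) ≤ -1 := by exact_mod_cast (by omega : n ≤ -1)
      have h5 : (0 : ℚ) ≤ k := k.cast_nonneg
      have : -(k * D) * c.al α r = -(k * n) := by rw [← hn]; ring
      rw [this]
      nlinarith
    · simp [CD.wt0] at h2

/-- the part of the state which does not depend on the alcove -/
structure W (c : CD L Φ Δ) (ζ : K) (s : J → K) (V : ValuationSubring K)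
    (U : J → Submodule K (G L K)) (H u n i : Op L K) (v : L → L) : Prop where
  rng : c.Rng ζ s U H
  eqv : ∀ f ∈ c.Eqv ζ, H f ∈ c.Eqv ζ
  int : c.IntB ζ V H
  ula : c.LA ζ u
  nla : c.LA ζ n
  ila : c.LA ζ i
  uint : c.IntB ζ V u
  nint : c.IntB ζ V n
  iint : c.IntB ζ V i
  uaut : c.Aut0 ζ 1 u c.ρ
  mono : c.Mono ζ n v
  cong : ∀ f ∈ c.Eqv ζ, c.In V f →
    c.In V.nonunits (H f - (T (c.dg J) : LP K) • u (n (i f)))

variable {V : ValuationSubring K} {U : J → Submodule K (G L K)} {H u n i : Op L K} {v : L → L}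

lemma W.st (w : W c ζ s V U H u n i v) {z : L} (h1 : c.Aut0 ζ (c.phi s) H z)
    (h2 : c.Aut0 ζ 1 i z) : c.St ζ s V U z H u n i v :=
  ⟨h1, w.rng, w.int, w.ula, w.nla, w.ila, w.uint, w.nint, w.iint, w.uaut, h2, w.mono, w.cong⟩

lemma imul (h : T3a c ζ s) {g g' : Op L K} (h1 : c.IntB ζ V g) (h2 : c.LA ζ g')
    (h3 : c.IntB ζ V g') : c.IntB ζ V (g * g') :=
  (h.la.int_mul _ g g' fun f hf => (h2.eqv f).2 hf).1 h1 h3

lemma ism (h : T3a c ζ s) {g : Op L K} (h1 : c.IntB ζ V g) : c.IntE ζ V.nonunits g :=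
  h.la.intE_m V g fun f hf hi => (h1 f hf).2 hi

lemma cancel (h : T3a c ζ s) {g i : Op L K} (h1 : c.LA ζ g) (h2 : c.IntB ζ V g)
    (h3 : c.LA ζ (g * i)) (h4 : c.IntB ζ V (g * i)) : c.LA ζ i ∧ c.IntB ζ V i := by
  obtain ⟨g', a1, a2, a3⟩ := h.la.ex_inv g h1
  have : i = g' * (g * i) := by rw [← mul_assoc, a3, one_mul]
  rw [this]
  exact ⟨h.la.mul _ _ a1 h3, imul h (h.la.int_inv _ g g' h1 a2 h2) h3 h4⟩

lemma W.right (h : T3a c ζ s) (w : W c ζ s V U H u n i v) {g : Op L K} (h1 : c.LA ζ g)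
    (h2 : c.IntB ζ V g) : W c ζ s V U (H * g) u n (i * g) v :=
  ⟨h.leg.right U H g h1 w.rng, fun f hf => w.eqv _ ((h1.eqv f).2 hf), imul h w.int h1 h2, w.ula,
    w.nla, h.la.mul _ _ w.ila h1, w.uint, w.nint, imul h w.iint h1 h2, w.uaut, w.mono,
    fun f hf hi => w.cong (g f) ((h1.eqv f).2 hf) ((h2 f hf).2 hi)⟩

lemma exs (h : T3a c ζ s) (hS : c.SD ζ V.toSubring) (b : Φ × ℤ) {t : K} (ht : t ∈ V.nonunits)
    {f : LG L K} (hf : f ∈ c.Eqv ζ) (hi : c.In V f) :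
    ex (t • c.E ζ b) f - f ∈ c.Eqv ζ ∧ c.In V.nonunits (ex (t • c.E ζ b) f - f) :=
  ⟨sub_mem (((h.la.exE b t).eqv f).2 hf) hf,
    (h.xi _ _ b t f hS (SM.nonunits V)).2 (nu_le V) ht hi⟩

lemma W.small (h : T3a c ζ s) (hS : c.SD ζ V.toSubring) (w : W c ζ s V U H u n i v) (b : Φ × ℤ)
    {t : K} (ht : t ∈ V.nonunits) : W c ζ s V U (H * ex (t • c.E ζ b)) u n i v := by
  have w' := w.right h (h.la.exE b t) (h.la.int_exE _ _ b t hS (SM.val V) (nu_le V ht))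
  refine { w with rng := w'.rng, eqv := w'.eqv, int := w'.int, cong := fun f hf hi => ?_ }
  obtain ⟨a1, a2⟩ := exs h hS b ht hf hi
  have := ((h.sup.in_add _ _ (SM.nonunits V)).2.1 _ _ (ism h w.int _ a1 a2) (w.cong f hf hi)).1
  rwa [map_sub, sub_add_sub_cancel] at this

lemma W.drop (h : T3a c ζ s) (hS : c.SD ζ V.toSubring) (b : Φ × ℤ) {t : K}
    (w : W c ζ s V U H u n (ex (t • c.E ζ b) * i) v) (ht : t ∈ V.nonunits) :
    W c ζ s V U H u n i v := by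
  obtain ⟨b1, b2⟩ := cancel h (h.la.exE b t) (h.la.int_exE _ _ b t hS (SM.val V) (nu_le V ht))
    w.ila w.iint
  refine { w with ila := b1, iint := b2, cong := fun f hf hi => ?_ }
  obtain ⟨a1, a2⟩ := exs h hS b ht ((b1.eqv f).2 hf) ((b2 f hf).2 hi)
  have := ((h.sup.in_add _ _ (SM.nonunits V)).2.1 _ _ (w.cong f hf hi)
    ((h.sup.in_T _ (c.dg J) _).2 (ism h w.uint _ ((w.nla.eqv _).2 a1) (ism h w.nint _ a1 a2)))).1
  rwa [map_sub, map_sub, smul_sub, Module.End.mul_apply, sub_add_sub_cancel] at this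

lemma W.psi (h : T3a c ζ s) (hS : c.SD ζ V.toSubring) (b : Φ × ℤ) {t : K}
    (w : W c ζ s V U H u n (c.psi ζ b t * i) v) (hb : c.Valid ζ b) (h0 : t ≠ 0) (ht : t ∈ V)
    (ht' : t⁻¹ ∈ V) : W c ζ s V U H u (n * c.psi ζ b t) i (v ∘ c.rf b) := by
  have e := h.psi.int _ _ b t hS (SM.val V) ht ht'
  obtain ⟨b1, b2⟩ := cancel h (h.psi.la b t) e w.ila w.iint
  exact { w with
    ila := b1, iint := b2, nla := h.la.mul _ _ w.nla (h.psi.la b t)
    nint := imul h w.nint (h.psi.la b t) e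
    mono := h.la.mono_mul _ _ _ _ (h.psi.la b t) w.mono (h.psi.mono b t hb h0) }

lemma W.move (h : T3a c ζ s) (hS : c.SD ζ V.toSubring) (b : Φ × ℤ) {t : K}
    (w : W c ζ s V U H u n (ex (t • c.E ζ b) * i) v) (hb : c.Valid ζ b) (ht : t ∈ V) {z : L}
    (hz : c.Fix z) (hv : v z = c.ρ) (hp : 0 < c.val b z) : ∃ u', W c ζ s V U H u' n i v := by
  obtain ⟨b1, b2⟩ := cancel h (h.la.exE b t) (h.la.int_exE _ _ b t hS (SM.val V) ht)
    w.ila w.iint
  obtain ⟨b', k, -, -, a3, a4, -, a6⟩ := h.mono.root n v b w.nla w.mono hb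
  have e := (h.ex.conj n _ w.nla.a0 (h.rt1.nil b t)).2
  rw [h.lp.op_smul, a3, smul_smul] at e
  have a7 := a4 z hz
  rw [hv] at a7
  refine ⟨u * ex ((t * k) • c.E ζ b'), { w with
    ila := b1, iint := b2, ula := h.la.mul _ _ w.ula (h.la.exE _ _)
    uint := imul h w.uint (h.la.exE _ _)
      (h.la.int_exE _ _ _ _ hS (SM.val V) (mul_mem ht (a6 _ hS w.nint).1))
    uaut := h.la.aut_right _ _ _ _ w.uaut (h.la.aut_exE _ _ _ c.fix_ρ (a7 ▸ hp))
    cong := fun f hf hi => ?_ }⟩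
  have := w.cong f hf hi
  rwa [Module.End.mul_apply, ← Module.End.mul_apply n, e] at this

lemma split (h : T3a c ζ s) (b : Φ × ℤ) {t : K} (ht : t ≠ 0) :
    ex (t • c.E ζ b) = ex (((c.th b.1 : K) * t)⁻¹ • c.E ζ (c.ng b)) *
      (c.psi ζ (c.ng b) (-((c.th b.1 : K) * t)⁻¹) *
        ex (((c.th b.1 : K) * t)⁻¹ • c.E ζ (c.ng b))) := by
  have := h.psi.exE b (-((c.th b.1 : K) * t)⁻¹)
  have e := (h.rt1.th_ne b.1).1
  rwa [show -((c.th b.1 : K) * -((c.th b.1 : K) * t)⁻¹)⁻¹ = t by field_simp, neg_neg,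
    mul_assoc] at this

end StpA

open StpA in
theorem base (h : T3a c ζ s) : S_base c ζ s := by
  intro V lam r X hV hC
  obtain ⟨N, hN⟩ := h.gk.nil_pos r
  have hq : ((N.factorial : ℕ) : K) ≠ 0 := Nat.cast_ne_zero.2 N.factorial_ne_zero
  obtain ⟨Y, a1, a2, a3, a4⟩ := lift h V r hV hC.1
    (fun j => ((N.factorial : ℕ) : K)⁻¹ • c.nX lam X j) fun j =>
      Submodule.smul_mem _ _ fun i hi => by
        have := (h.fd.nX lam X j).1 i hi
        rcases i with α | i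
        · have h2 := hC.2.2.2 j (c.neg α) (by
            rw [c.al_neg, LinearMap.neg_apply, neg_eq_iff_eq_neg]; exact this)
          rw [c.al_neg, LinearMap.neg_apply] at h2
          exact neg_pos.1 h2
        · simp [CD.wt0] at this
  have hM := h.sup.in_add _ _ (SM.nonunits V)
  have hV' := h.sup.in_add _ _ (SM.val V)
  have b1 := small h V Y N (hN Y (.inr a2)) a3
  have b2 := small h V (-Y) N (hN _ (.inr (neg_mem a2))) (by simpa using (hM.2.1 _ _ hM.1 a3).2)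
  have b3 : N.factorial • Y ∈ c.Gr r (Iio 0) := nsmul_mem a2 _
  have b4 : Nil (N.factorial • Y) := ⟨N, hN _ (.inr b3)⟩
  rw [smul_neg] at b2
  have b5 : ∀ j, ev (s j) (N.factorial • Y) = c.nX lam X j := fun j => by
    rw [map_nsmul, a4, ← Nat.cast_smul_eq_nsmul K, smul_inv_smul₀ hq]
  have b6 : N.factorial • Y ∈ c.Eqv ζ := nsmul_mem a1 _
  generalize N.factorial • Y = Z at b1 b2 b3 b4 b5 b6
  obtain ⟨z, hz, b7⟩ := far h r hC.1 Z b3
  have hm := hC.2.2.1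
  have hs : ∀ j, s j ∈ V.toSubring := fun j => nu_le V (hV.small j)
  have hla := h.la.ex Z b6 b4
  have hE : ∀ g : Op L K, (∀ f, c.In V f → c.In V.nonunits (g f - f)) → c.IntE ζ V g :=
    fun g hg f _ hf => by
      simpa using (hV'.2.1 _ _ (fun a => nu_le V (hg f hf a)) hf).1
  have ht := h.tor.int _ _ lam hV.sd (SM.val V) hs
  refine ⟨z, ex Z * c.tor ζ s lam, c.tr ζ lam, fun z => z + c.bar lam, hz,
    h.la.aut_left _ _ _ _ (h.la.aut_ex Z b6 z b4 b7) (h.tor.aut lam hm z), ?_,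
    (h.la.int_mul _ _ _ (h.tor.aut lam hm z).eqv).1
      (h.la.int_of _ _ _ hla (h.ex.inv Z b4).1 (hE _ b1) (hE _ b2)) ht,
    h.la.one, h.tor.tr_la lam hm, h.la.one, h.la.int_one _,
    h.tor.tr_int _ _ lam hm hV.sd (SM.val V), h.la.int_one _, h.la.aut_one _, h.la.aut_one _,
    h.tor.tr_mono lam hm, fun f hf hi => ?_⟩
  · have e : c.cell lam X = actE s (ex Z) fun j => c.U1 K (lam j) := funext fun j => by
      rw [actE, (h.lp.evE_ex _ (h.pt.ne j) Z b4).2, b5, CD.cell]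
    rw [e]
    exact h.leg.left _ _ _ (fun j => h.fd.u1 _ (hm j)) hla (h.tor.rng lam hm)
  · have := (hM.2.1 _ _ (b1 _ ((ht f hf).2 hi))
      (h.tor.cong _ _ lam hV.sd (SM.nonunits V) (nu_le V) hV.small f hi)).1
    rwa [sub_add_sub_cancel] at this

open StpA in
theorem step (h : T3a c ζ s) : S_step c ζ s := by
  intro V U z z₁ b H u n i v hS hA hst
  have w : W c ζ s V U H u n i v := ⟨hst.rng, hst.aut.eqv, hst.int, hst.ula, hst.nla, hst.ila,
    hst.uint, hst.nint, hst.iint, hst.uaut, hst.mono, hst.cong⟩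
  obtain ⟨q, hq⟩ := h.aut2.right _ H z z₁ b hA hst.aut
  have hθ := h.rt1.sd_th _ hS b.1
  have hθ0 := (h.rt1.th_ne b.1).1
  have hb' := h.rt1.valid_ng b hA.valid
  have hF : ∀ t : K, c.Aut0 ζ 1 (ex (t • c.E ζ (c.ng b))) z₁ := fun t =>
    h.la.aut_exE _ t z₁ hA.reg₁.1 (by rw [c.val_ng]; exact neg_pos.2 hA.neg)
  have hE : ∀ t : K, c.Aut0 ζ 1 (ex (t • c.E ζ b)) z := fun t =>
    h.la.aut_exE _ t z hA.reg.1 hA.pos
  by_cases hqV : q ∈ V
  · have w1 := w.right h (h.la.exE b q) (h.la.int_exE _ _ b q hS (SM.val V) hqV)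
    have a1 := h.la.aut_right _ _ _ _ hst.iaut (hE q)
    obtain ⟨t, a2⟩ := h.aut2.left _ _ z z₁ b hA a1
    have a3 := h.la.aut_left _ _ _ _ (hE t) a1
    have e : i * ex (q • c.E ζ b) = ex (-t • c.E ζ b) * (ex (t • c.E ζ b) *
        (i * ex (q • c.E ζ b))) := by rw [← mul_assoc, (h.rt1.exE_inv b t).2, one_mul]
    rw [e] at w1
    generalize ex (t • c.E ζ b) * (i * ex (q • c.E ζ b)) = i0 at w1 a2 a3
    have ht := h.aut2.det V i0 z z₁ b (-t) hS hA a3 a2 fun f hf hi => (w1.iint f hf).2 hi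
    generalize -t = t at w1 ht
    obtain ⟨z', hz', hv⟩ := hst.mono.surj c.ρ c.fix_ρ
    obtain ⟨b', k, a4, -, -, a5, -⟩ := h.mono.root n v b hst.nla hst.mono hA.valid
    have a6 : c.val b z' ≠ 0 := by rw [← a5 z' hz', hv]; exact h.wall.reg_ρ.2 b' a4
    rcases a6.lt_or_gt with a7 | a7
    · by_cases htm : t ∈ V.nonunits
      · exact ⟨_, _, _, _, _, (w1.drop h hS b htm).st hq a2⟩
      · have t0 : t ≠ 0 := fun e => htm (e ▸ V.nonunits.zero_mem)
        have ti : t⁻¹ ∈ V := by_contra fun e => htm ((V.mem_nonunits_iff_or).2 (.inr e))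
        have m1 : ((c.th b.1 : K) * t)⁻¹ ∈ V := by rw [mul_inv]; exact mul_mem hθ.2 ti
        rw [split h b t0, mul_assoc, mul_assoc] at w1
        obtain ⟨u', w2⟩ := w1.move h hS _ hb' m1 hz' hv (by rw [c.val_ng]; exact neg_pos.2 a7)
        exact ⟨_, _, _, _, _, (w2.psi h hS _ hb' (by simp [t0, hθ0]) (neg_mem m1)
          (by rw [inv_neg, inv_inv]; exact neg_mem (mul_mem hθ.1 ht))).st hq
            (h.la.aut_left _ _ _ _ (hF _) a2)⟩
    · obtain ⟨u', w2⟩ := w1.move h hS b hA.valid ht hz' hv a7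
      exact ⟨_, _, _, _, _, w2.st hq a2⟩
  · have q0 : q ≠ 0 := fun e => hqV (e ▸ V.zero_mem)
    have m1 : ((c.th b.1 : K) * q)⁻¹ ∈ V.nonunits := by
      rw [mul_inv]
      exact (SM.nonunits V).mul _ hθ.2 _ ((V.inv_mem_nonunits_iff).2 (.inr hqV))
    have w1 := (w.small h hS (c.ng b) m1).right h (h.psi.la b 1)
      (h.psi.int _ _ b 1 hS (SM.val V) (one_mem _) (by simp))
    have e : i * c.psi ζ b 1 = c.psi ζ b 1 * (c.psi ζ b (-1) * i * c.psi ζ b 1) := by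
      rw [← mul_assoc, ← mul_assoc, (h.psi.inv b 1).1, one_mul]
    rw [e] at w1
    refine ⟨_, _, _, _, _, (w1.psi h hS b hA.valid one_ne_zero (one_mem _) (by simp)).st ?_
      (h.aut1.same _ _ _ z₁ (h.orb.rf_fix b z hA.reg.1) hA.reg₁.1 (h.wall.same_rf z z₁ b hA).1
        (h.wall.psi_conj b b _ _ _ _ z hA.valid (.inl rfl) (by simp) one_ne_zero hA.reg.1
          hst.iaut))⟩
    have a0 : ((c.th b.1 : K) * q)⁻¹ ≠ 0 := by simp [q0, hθ0]
    rw [split h b q0] at hq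
    generalize ((c.th b.1 : K) * q)⁻¹ = a at hq a0
    have := h.la.aut_right _ _ _ _ (h.la.aut_right _ _ _ _ hq (hF (-a)))
      (h.psi.tor (c.ng b) b a 1 hb' (.inr (h.rt1.ng_ng b).symm) a0 one_ne_zero z₁ hA.reg₁.1)
    convert this using 1
    simp only [mul_assoc]
    rw [← mul_assoc (ex (a • c.E ζ (c.ng b))) (ex (-a • c.E ζ (c.ng b))),
      (h.rt1.exE_inv _ a).1, one_mul, ← mul_assoc (c.psi ζ (c.ng b) (-a)),
      (h.psi.inv _ a).2, one_mul]

end Pool.Agent.P.MP_e7d440_ag.U
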