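import Pool.Agent.P.MP_e7d440_ag.U.Iface

/-! Tangent vectors in two product charts. -/

namespace Pool.Agent.P.MP_e7d440_ag.U

open TensorProduct LieAlgebra LaurentPolynomial Set

variable {L Φ Δ : Type} [LieRing L] [LieAlgebra ℚ L] [Fintype Φ] [Fintype Δ] [DecidableEq Φ]
  [DecidableEq Δ] (c : CD L Φ Δ)

variable (K : Type) [Field K] [CharZero K]

namespace TanA

variable {c K}

theorem key (h : T0 c) (δ : K →+ K) (hδ : ∀ a b, δ (a * b) = a * δ b + b * δ a) :
    ∀ {n : ℕ} (x : Fin n → G L K) (y : Fin n → K), (∀ k, Nil (x k) ∧ mqa δ (x k) = 0) →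
      ∃ ξ : G L K, (∀ v, mqa δ (pf (fun k => y k • x k) 0 v) =
          ⁅ξ, pf (fun k => y k • x k) 0 v⁆ + pf (fun k => y k • x k) 0 (mqa δ v)) ∧
        ∀ u, c.kR K ξ (pf (fun k => y k • x k) 0 u) =
          ∑ k, δ (y k) * c.kR K (x k) (pf (fun k => y k • x k) (k + 1) u) := by
  obtain ⟨h1, h2, -⟩ := h.gk.der_lie δ hδ
  intro n
  induction n with
  | zero => exact fun x y _ => ⟨0, fun v => by simp [pf_zero], fun u => by simp⟩
  | succ n ih =>
    intro x y hx
    obtain ⟨ξ, e1, e2⟩ := ih (Fin.tail x) (Fin.tail y) fun k => hx k.succ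
    have hn := h.ex.nil_smul (y 0) _ (hx 0).1
    have hA := h.ex.a0 _ hn
    have hd : mqa δ (y 0 • x 0) = δ (y 0) • x 0 := by rw [h2, (hx 0).2, smul_zero, add_zero]
    have hl := h.ex.logd (mqa δ : G L K →ₗ[ℚ] G L K).toAddMonoidHom (y 0 • x 0) h1 hn
      (by simp [hd])
    have ht : (Fin.tail fun k => y k • x k) = fun k => Fin.tail y k • Fin.tail x k := rfl
    refine ⟨δ (y 0) • x 0 + ex (y 0 • x 0) ξ, fun v => ?_, fun u => ?_⟩
    · rw [pf_succ, ht, Module.End.mul_apply, Module.End.mul_apply]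
      refine (hl _).trans ?_
      simp only [LinearMap.toAddMonoidHom_coe]
      rw [e1, hd, map_add, hA.lie, add_lie]
      abel
    · rw [Fin.sum_univ_succ, pf_succ, ht, Module.End.mul_apply, map_add, LinearMap.add_apply,
        hA.form, e2, map_smul, LinearMap.smul_apply, smul_eq_mul]
      refine congrArg₂ _ (congrArg _ ?_) (Finset.sum_congr rfl fun k _ => ?_)
      · have e3 := hA.form (x 0) (pf (fun k => Fin.tail y k • Fin.tail x k) 0 u)
        rw [h.ex.fix _ (x 0) hn (by simp)] at e3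
        rw [e3, Fin.val_zero, pf_succ_succ, ht]
      · rw [Fin.val_succ, pf_succ_succ, ht]
        rfl

end TanA

theorem tan (h : T0 c) (hf : S_fd c K) : S_tan c K := by
  intro δ hδ n n' x y x' y' lam lam' hx hx' hl hl' hU u hu u' hu' e
  obtain ⟨ξ, a1, a2⟩ := TanA.key h δ hδ x y hx
  obtain ⟨ξ', b1, b2⟩ := TanA.key h δ hδ x' y' hx'
  have hp : ∀ lam, ∀ v ∈ c.U1 K lam, mqa δ v ∈ c.U1 K lam := fun lam v hv i hi =>
    hv i fun h0 => hi (by rw [c.crd_mqa, h0, map_zero])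
  have hFD := (hf.map _ _ (h.ex.a0_pf (fun k => y k • x k) 0
    fun k => h.ex.nil_smul _ _ (hx k).1) (hf.u1 lam hl)).1
  have hn := hf.norm _ hFD (ξ - ξ') (fun w hw => ?_) _ (Submodule.mem_map_of_mem hu)
  · rw [map_sub, LinearMap.sub_apply, sub_eq_zero] at hn
    rw [← a2, ← b2, ← e, hn]
  · obtain ⟨v', hv', e'⟩ := hU ▸ hw
    obtain ⟨v, hv, rfl⟩ := hw
    have e1 := a1 v
    rw [← e', b1, e'] at e1
    have e2 : ⁅ξ - ξ', pf (fun k => y k • x k) 0 v⁆ =
        pf (fun k => y' k • x' k) 0 (mqa δ v') - pf (fun k => y k • x k) 0 (mqa δ v) := by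
      rw [sub_lie, sub_eq_sub_iff_add_eq_add, ← e1, add_comm]
    rw [e2]
    exact sub_mem (hU ▸ Submodule.mem_map_of_mem (hp _ _ hv'))
      (Submodule.mem_map_of_mem (hp _ _ hv))

end Pool.Agent.P.MP_e7d440_ag.U
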