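import Pool.Agent.P.MP_e7d440_ag.U.Iface3

/-! Integrality of the chart at a vertical prime; charts in the generic fibre. -/

namespace Pool.Agent.P.MP_e7d440_ag.U

open TensorProduct LieAlgebra LaurentPolynomial Set

variable {L Φ Δ : Type} [LieRing L] [LieAlgebra ℚ L] [Fintype Φ] [Fintype Δ] [DecidableEq Φ]
  [DecidableEq Δ] {c : CD L Φ Δ} {K : Type} [Field K] [CharZero K] {ζ : K}
  {J : Type} [Fintype J] [DecidableEq J] {s : J → K}

namespace Top2A

omit [CharZero K] in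
lemma inv {V : ValuationSubring K} {t : K} (h : t ∉ V.nonunits) : t ≠ 0 ∧ t⁻¹ ∈ V := by
  simpa [V.mem_nonunits_iff_or] using h

omit [CharZero K] in
lemma one (V : ValuationSubring K) : (1 : K) ∉ V.nonunits := by simp [V.mem_nonunits_iff]

omit [Fintype Φ] [Fintype Δ] [DecidableEq Φ] [DecidableEq Δ] in
lemma in_smul {S : Subring K} {t : K} {x : G L K} (ht : t ∈ S) (hx : c.In0 S x) :
    c.In0 S (t • x) := fun i => by rw [map_smul]; exact S.mul_mem ht (hx i)

omit [Fintype Φ] [Fintype Δ] [DecidableEq Φ] [DecidableEq Δ] in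
lemma in_sum {S : Subring K} {ι : Type} (t : Finset ι) {x : ι → G L K}
    (hx : ∀ k ∈ t, c.In0 S (x k)) : c.In0 S (∑ k ∈ t, x k) := fun i => by
  rw [map_sum]; exact S.sum_mem fun k hk => hx k hk i

omit [Fintype Φ] [Fintype Δ] [DecidableEq Φ] [DecidableEq Δ] [Fintype J] in
lemma in_single {S : Subring K} {x : G L K} (hx : c.In0 S x) (j i : J) :
    c.In0 S ((Pi.single j x : J → G L K) i) := by
  by_cases k : i = j
  · rwa [k, Pi.single_eq_same]
  · exact fun a => by simp [k]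

lemma vec (h : T3a c ζ s) {S : Subring K} {V : ValuationSubring K}
    {U : J → Submodule K (G L K)} {x : L} {r : ℚ} {C : Finset (ℤ × (Φ ⊕ Δ))} (hc : S_chs c ζ s)
    (h1 : Dom S V) (h2 : c.HD ζ s S) (h4 : c.Fix x) (h5 : c.IsCh ζ s U x r C)
    (h6 : c.Gens ζ s U x r C ⊆ S) {j : J} {lam : L} (h7 : c.Min lam) {n : G L K}
    (h8 : n ∈ c.Gr lam {-1}) (h9 : U j = (c.U1 K lam).map (ex n))
    (h0 : ∀ u ∈ U j, c.In0 V u → (∀ β, c.al β lam = 1 → c.crd (.inl β) u ∈ V.nonunits) →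
      c.In0 V.nonunits u) {β : Φ} (hβ : c.al β lam = 1) : c.In0 S (ex n (c.bs K (.inl β))) := by
  obtain ⟨fb, b1, b2, -⟩ := hc.basis U x r C h5
  have a1 : ∀ β, c.al β lam = 1 → ex n (c.bs K (.inl β)) ∈ U j := fun β hβ =>
    h9 ▸ Submodule.mem_map_of_mem (h.gk.gr_bs _ _ (.inl β) hβ)
  have a2 := fun β hβ => (h.cell.vec lam h7 n h8 β hβ).1
  have a3 : ∀ β, c.al β lam = 1 → c.In0 V (ex n (c.bs K (.inl β))) := fun β hβ => by
    obtain ⟨t, t1, t2, i, t3⟩ := h.sup.prim0 V (ex n (c.bs K (.inl β))) fun e => by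
      simpa [e] using a2 β hβ β hβ
    have := in_smul (S := V.toSubring) (inv (t := t) fun k => one V (t3 ▸ h0 _
      ((U j).smul_mem t (a1 β hβ)) t2 (fun γ hγ => by
        rw [map_smul, a2 β hβ γ hγ]
        split_ifs
        · simpa using k
        · simp) i)).2 t2
    rwa [inv_smul_smul₀ t1] at this
  have a4 : ∀ k : C, c.In0 S (ev (s j) (fb k)) := fun k => h.sup.in_ev S S _ _ (SM.self S)
    (h2.mem j) (h2.inv j) fun a => h6 ((b1 k k.2).2.2 a)
  obtain ⟨t, q, q1, q2⟩ := h.resd.resd (ι := {β // c.al β lam = 1}) V S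
    (fun (k : C) γ => c.crd (.inl γ.1) (ev (s j) (fb k))) h1 (fun k γ => a4 k _) (fun b => by
      obtain ⟨f, f1, f2, f3, f4⟩ := h.int.int2 x r (Pi.single j (ex n (c.bs K (.inl b.1)))) 0 h4
      have f5 := f4 V.toSubring ⟨fun q => h1.le _ (h2.rat q), h1.le _ h2.zeta,
        fun j => h1.le _ (h2.mem j), fun j => h1.le _ (h2.inv j), fun i j => h1.le _ (h2.inv' i j)⟩
        fun i => ⟨in_single (S := V.toSubring) (a3 _ b.2) j i, fun a => by simp⟩
      have f6 := congrArg (ev (s j)) (b2 f ⟨⟨f1, fun i => ⟨by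
        rw [(f3 i).1]
        by_cases k : i = j
        · rw [k, Pi.single_eq_same]; exact a1 _ b.2
        · simp [k], fun u _ => by simp [(f3 i).2]⟩⟩, f2⟩)
      refine ⟨Finset.univ, fun k => c.co k f, fun k => f5 k, fun γ => ?_⟩
      have := a2 _ b.2 _ γ.2
      rw [(f3 j).1, Pi.single_eq_same, ← Finset.sum_coe_sort] at f6
      simp only [f6, map_sum, map_smul, smul_eq_mul] at this
      rw [this]
      simp [Subtype.ext_iff]) ⟨β, hβ⟩
  have a5 := h.cell.uniq lam h7 n h8 (∑ k ∈ t, q k • ev (s j) (fb k))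
    (h9 ▸ (U j).sum_mem fun k _ => (U j).smul_mem _ ((b1 k k.2).1.1.2 j).1)
  rw [Finset.sum_eq_single β (fun γ hγ e => by
    have := q2 ⟨γ, (Finset.mem_filter.1 hγ).2⟩
    simp only [map_sum, map_smul, smul_eq_mul, this, Subtype.mk.injEq, if_neg e, zero_smul])
    (by simp [hβ])] at a5
  simp only [map_sum, map_smul, smul_eq_mul, q2 ⟨β, hβ⟩, if_true, one_smul] at a5
  exact a5 ▸ in_sum t fun k _ => in_smul (q1 k) (a4 k)

end Top2A

open Top2A

theorem top (h : T3a c ζ s) : S_top c ζ s := by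
  intro V lam z n a y h1 h2 h3 h4 h5 h6
  have g1 := fun k => h.gal.mem _ _ _ _ h4 h5 k
  have g2 := h.la.low_pf a y 0 z h4.1 fun k => (g1 k).2.2
  have g3 := h.tor.aut lam h3 c.ρ
  have g4 := h.la.aut_left _ _ _ _ (h.la.aut_pf a y 0 _ c.fix_ρ fun k => (g1 k).2.1) g3
  have g5 := (h.leg.fd_pU a y lam h3).2.2
  have g6 := h.orb.bar_fix lam fun j => (h3 j).1
  have g7 := fun lam => h.tor.int V.toSubring V lam h1 (SM.val V) h2
  have key : ∀ r, ∀ f ∈ c.Eqv ζ, f ∈ c.Sup c.ρ {r} → (c.pE ζ a y * c.tor ζ s lam) f ≠ 0 →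
      ∃ t : K, c.In V (t • (c.pE ζ a y * c.tor ζ s lam) f) ∧ ∃ b,
        t * c.co b ((c.pE ζ a y * c.tor ζ s lam) f) ∉ V.nonunits ∧ r + c.dg J ≤ c.wt z b :=
    fun r f f1 f2 f3 => by
      obtain ⟨t, -, t2, b, t3⟩ := h.sup.prim V _ f3
      refine ⟨t, t2, ?_⟩
      simpa only [map_smul, smul_eq_mul] using h6 r _
        (Submodule.smul_mem _ t ((g5 _).2 ⟨f, f1, rfl⟩))
        (Submodule.smul_mem _ t ((g4.fil r f f1).2 (c.Sup_mono (by simp) f2))) t2
        fun k => one V (t3 ▸ k b)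
  have e1 : ∀ b, c.Valid ζ b → c.val b c.ρ ≤ c.val b (z - c.bar lam) := fun b hb => by
    obtain ⟨t, -, i, t1, t2⟩ := key _ _ (h.rt1.eqv b) (h.rt1.sup b _ c.fix_ρ) fun k =>
      (h.rt1.ne b).1 hb (h.la.aut_inj _ _ _ g4 _ (h.rt1.eqv b) k)
    have t3 := (h.tor.top lam h3 (z - c.bar lam) _ _).2
      (c.Sup_mono (singleton_subset_iff.2 self_mem_Iic) (h.rt1.sup b _ (h4.1.sub g6)))
    rw [sub_add_cancel] at t3
    have := (h.la.low_iff z _ g2 _ _ (g3.eqv _ (h.rt1.eqv b))).1.2 t3 i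
      (right_ne_zero_of_mul (inv t1).1)
    linarith [this.out]
  have e2 : z = c.ρ + c.bar lam := by
    have := h.cd.h_ext _ ((h4.1.sub g6).sub c.fix_ρ).1 fun α => by
      obtain ⟨m, hm⟩ := h.rt1.valid_ex α
      have e3 := e1 _ hm
      have e4 := e1 _ (h.rt1.valid_ng _ hm)
      rw [c.val_ng, c.val_ng] at e4
      simp only [CD.val] at e3 e4
      rw [map_sub]
      linarith
    rwa [sub_eq_zero, sub_eq_iff_eq_add] at this
  have e3 : c.IntE ζ V (c.pE ζ a y * c.tor ζ s lam) := fun f f1 f2 => by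
    have i1 := h.sup.in_add _ _ (SM.val V)
    refine h.sup.ind (c.wt c.ρ) (fun f => c.In V ((c.pE ζ a y * c.tor ζ s lam) f))
      (by simpa using i1.1) (fun f g hf hg => by simpa using (i1.2.1 _ _ hf hg).1) f fun b _ => ?_
    have p1 := h.eqv.pr_wt c.ρ {c.wt c.ρ b} c.fix_ρ f f1
    have p2 := (h.sup.pr_wt c.ρ {c.wt c.ρ b} f).1
    have p3 := h.sup.pr_in (fun a => c.wt c.ρ a ∈ ({c.wt c.ρ b} : Set ℚ)) V f V.zero_mem f2
    change c.In V ((c.pE ζ a y * c.tor ζ s lam)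
      (c.pr (fun a => c.wt c.ρ a ∈ ({c.wt c.ρ b} : Set ℚ)) f))
    generalize c.pr (fun a => c.wt c.ρ a ∈ ({c.wt c.ρ b} : Set ℚ)) f = f₀ at *
    by_cases k : (c.pE ζ a y * c.tor ζ s lam) f₀ = 0
    · exact k ▸ i1.1
    obtain ⟨t, t1, i, t2, t3⟩ := key _ f₀ p1 p2 k
    have t4 : c.co i (c.pE ζ a y (c.tor ζ s lam f₀) - c.tor ζ s lam f₀) = 0 := by_contra fun e =>
      t3.not_gt (g2 _ _ (g3.eqv _ p1) (e2 ▸ (h.tor.top lam h3 _ _ _).2
        (c.Sup_mono (singleton_subset_iff.2 self_mem_Iic) p2)) i e)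
    rw [map_sub, sub_eq_zero] at t4
    obtain ⟨t5, t6⟩ := inv t2
    have t7 := V.mul_mem _ _ t6 (show c.co i ((c.pE ζ a y * c.tor ζ s lam) f₀) ∈ V from
      t4 ▸ (g7 lam f₀ p1).2 p3 i)
    rw [mul_inv, inv_mul_cancel_right₀ (right_ne_zero_of_mul t5)] at t7
    have := i1.2.2.1 _ _ t7 t1
    rwa [inv_smul_smul₀ (left_ne_zero_of_mul t5)] at this
  refine ⟨e2, h.nf.coef V z n c.ρ a y h1 h4 h5 fun f f1 f2 => ?_⟩
  have := e3 _ ((h.tor.aut (-lam) (fun j => h.cd.min_neg _ (h3 j)) c.ρ).eqv f f1)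
    ((g7 (-lam) f f1).2 f2)
  rw [Module.End.mul_apply, h.tor.sq lam h3, map_smul] at this
  exact h.div.gauss _ _ _ _ _ h.div.mon_sq (SM.val V) (h.div.phi_int V.toSubring h2).2 this

theorem hor (h : T3a c ζ s) (hc : S_chs c ζ s) : S_hor c ζ s where
  h1 S V U x r C h1 h2 h3 h4 h5 h6 := by
    choose lam l1 l2 l3 using fun j => h.horv V (U j) (fun q => h1.le _ (h2.rat q)) (h3 j)
    choose n n1 n2 using fun j => h.cell.cell (U j) (lam j) (h3 j) (l1 j) (l2 j) fun u hu e =>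
      by_contra fun k => by
        obtain ⟨t, -, t2, i, t3⟩ := h.sup.prim0 V u k
        exact one V (t3 ▸ l3 j _ ((U j).smul_mem t hu) t2
          (fun β hβ => by simp [e β hβ]) i)
    obtain ⟨X, hX⟩ := h.fd.nX_of lam n n1
    refine ⟨lam, X, l1, funext fun j => by rw [CD.cell, hX, n2], fun p => ?_⟩
    have e1 := vec h hc h1 h2 h4 h5 h6 (l1 _) (n1 _) (n2 _) (l3 _) p.2
    have e2 := (h.cell.vec _ (l1 _) _ (n1 _) _ p.2).2
    have e3 := (h.fd.nX lam X _).2.2 p rfl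
    rw [hX] at e3
    rw [h.gk.alR_eq] at e2
    have := S.mul_mem (h2.rat (-1 / 2)) (show -2 * X p ∈ S from e3 ▸ e2 ▸ S.sum_mem fun i _ => by
      rw [Rat.smul_def]; exact S.mul_mem (h2.rat _) (e1 (.inr i)))
    rwa [show ((-1 / 2 : ℚ) : K) * (-2 * X p) = X p by push_cast; ring] at this
  h2 S V lam X x r C h1 h2 h3 h4 h5 h6 h7 h8 := by
    refine hc.chs0 S V _ x r C h1 h7 h8 fun f hf f1 => ⟨f, ?_, by
      simpa using (h.sup.in_add _ _ (SM.nonunits V)).1⟩
    choose I I1 I2 I3 I4 using fun m w => h.int.int2 x r m w h6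
    have n1 := fun j => (h.fd.nX lam X j).2.1
    have n2 : ∀ j, c.In0 S (c.nX lam X j) := fun j =>
      in_sum _ fun p _ => in_smul (h5 p) (h.gk.in_bs S _)
    have n3 : ∀ j i, c.In0 S (ex (c.nX lam X j) (c.bs K i)) := fun j i =>
      (h.ex.in_ex S S _ _ (fun q => by simpa using h2.rat q) (SM.self S) (n1 j)).1 (n2 j)
        (h.gk.in_bs S i)
    have n4 : ∀ j y, c.In0 V y → c.In0 V (ex (-c.nX lam X j) y) := fun j y =>
      (h.ex.in_ex V.toSubring V _ _ (fun q => by simpa using h3.rat q) (SM.val V)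
        (h.ex.nil_neg _ (n1 j))).1 fun i => by simpa using h1.le _ (n2 j i)
    have n5 := fun j => LinearMap.congr_fun (h.ex.inv _ (n1 j)).1
    have n6 := fun j => LinearMap.congr_fun (h.ex.inv _ (n1 j)).2
    simp only [Module.End.mul_apply, Module.End.one_apply] at n5 n6
    have n7 : ∀ (v : J → G L K) i, ∑ j, ∑ k, c.crd k (ex (-c.nX lam X j) (v j)) •
        (Pi.single j (ex (c.nX lam X j) (c.bs K k)) : J → G L K) i = v i := fun v i => by
      rw [Finset.sum_eq_single i (fun j _ e => by simp [e.symm]) (by simp)]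
      simp only [Pi.single_eq_same, ← map_smul, ← map_sum, c.crd_eq, Module.Basis.sum_repr, n5]
    have z0 : c.In0 S (0 : G L K) := fun a => by simp
    have e : f = ∑ j, ∑ k, (c.crd k (ex (-c.nX lam X j) (ev (s j) f)) •
        I (Pi.single j (ex (c.nX lam X j) (c.bs K k))) 0 +
        c.crd k (ex (-c.nX lam X j) (ev (s j) (dd f))) •
        I 0 (Pi.single j (ex (c.nX lam X j) (c.bs K k)))) :=
      sub_eq_zero.1 (h.int.uniq2 x r _
        (sub_mem hf.1.1 (sum_mem fun j _ => sum_mem fun k _ =>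
          add_mem (Submodule.smul_mem _ _ (I1 _ _)) (Submodule.smul_mem _ _ (I1 _ _))))
        (sub_mem hf.2 (sum_mem fun j _ => sum_mem fun k _ =>
          add_mem (Submodule.smul_mem _ _ (I2 _ _)) (Submodule.smul_mem _ _ (I2 _ _)))) fun i => by
        simp only [map_sub, map_sum, map_add, map_smul, I3, Pi.zero_apply, smul_zero, add_zero,
          zero_add, n7 fun j => ev (s j) f, n7 fun j => ev (s j) (dd f), sub_self, and_self])
    rw [e]
    refine sum_mem fun j _ => sum_mem fun k _ => add_mem ?_ ?_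
    · by_cases e1 : c.crd k (ex (-c.nX lam X j) (ev (s j) f)) = 0
      · simp [e1]
      refine Submodule.smul_mem _ (⟨_, n4 j _ (h.sup.in_ev _ _ _ _ (SM.val V) (h3.mem j)
        (h3.inv j) f1) k⟩ : V.toSubring) (Submodule.subset_span ⟨⟨⟨I1 _ _, fun i => ⟨?_, fun u _ => by
          simp [I3]⟩⟩, I2 _ _⟩, I4 _ _ S h2 fun i => ⟨in_single (n3 j k) j i, z0⟩⟩)
      rw [(I3 _ _ i).1]
      by_cases e2 : i = j
      · obtain ⟨u, hu, e3⟩ := (hf.1.2 j).1
        rw [← e3, n6] at e1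
        rw [e2, Pi.single_eq_same]
        exact Submodule.mem_map_of_mem (h.gk.gr_bs _ _ k (hu k e1))
      · simp [e2]
    · by_cases e1 : c.crd k (ex (-c.nX lam X j) (ev (s j) (dd f))) = 0
      · simp [e1]
      refine Submodule.smul_mem _ (⟨_, n4 j _ (h.sup.in_ev _ _ _ _ (SM.val V) (h3.mem j)
        (h3.inv j) (h.sup.in_dd _ _ _ (SM.val V) f1)) k⟩ : V.toSubring) (Submodule.subset_span
          ⟨⟨⟨I1 _ _, fun i => ⟨by simp [I3], ?_⟩⟩, I2 _ _⟩,
            I4 _ _ S h2 fun i => ⟨z0, in_single (n3 j k) j i⟩⟩)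
      rw [(I3 _ _ i).2]
      by_cases e2 : i = j
      · rintro _ ⟨u, hu, rfl⟩
        rw [e2] at hu ⊢
        rw [Pi.single_eq_same, (h.ex.a0 _ (n1 j)).form]
        refine (h.fd.perp _ (h4 j) _).2 (h.gk.gr_bs _ _ k ((h.fd.perp _ (h4 j) _).1
          (fun u hu => ?_) k e1)) u hu
        rw [← (h.ex.a0 _ (n1 j)).form, n5]
        exact (hf.1.2 j).2 _ (Submodule.mem_map_of_mem hu)
      · simp [e2]

end Pool.Agent.P.MP_e7d440_ag.U
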