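import Pool.Agent.P.MP_e7d440_ag.U.Iface3

/-! Torus elements and translations. -/

namespace Pool.Agent.P.MP_e7d440_ag.U

open TensorProduct LieAlgebra LaurentPolynomial Set

variable {L Φ Δ : Type} [LieRing L] [LieAlgebra ℚ L] [Fintype Φ] [Fintype Δ] [DecidableEq Φ]
  [DecidableEq Δ] {c : CD L Φ Δ} {K : Type} [Field K] [CharZero K] {ζ : K}
  {J : Type} [Fintype J] [DecidableEq J] {s : J → K}

namespace TorA

noncomputable section

set_option linter.unusedSectionVars false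

/-- the exponent -/
abbrev ep : ℚ → ℕ := fun q => ⌊1 - q⌋₊

/-- the normalizing constant -/
abbrev k0 (c : CD L Φ Δ) (ζ : K) (J : Type) [Fintype J] : K :=
  ∏ _j : J, ∏ k ∈ Finset.range c.ℓ, ζ ^ k

/-- the diagonal entries -/
abbrev Pe (c : CD L Φ Δ) (ζ : K) (s : J → K) (lam : J → L) (i : Φ ⊕ Δ) : LP K :=
  C (k0 c ζ J) * c.dgp ζ s ep lam i

lemma coeff_C_mul (a : K) (p : LP K) (n : ℤ) : (C a * p).coeff n = a * p.coeff n := by
  rw [← smul_eq_C_mul]; rfl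

lemma crd_tor (s' : J → K) (lam : J → L) (i : Φ ⊕ Δ) (f : LG L K) :
    c.crd i (c.tor ζ s' lam f) = Pe c ζ s' lam i * c.crd i f := c.crd_diag _ i f

lemma k0_eq : ∃ e : ℤ, k0 c ζ J = ζ ^ e :=
  ⟨(∑ _j : J, ∑ k ∈ Finset.range c.ℓ, k : ℕ), by
    rw [zpow_natCast, ← Finset.prod_pow_eq_pow_sum]
    exact Finset.prod_congr rfl fun _ _ => Finset.prod_pow_eq_pow_sum _ _ _⟩

lemma ze_ne (h : T2 c ζ) : ζ ≠ 0 := h.prim.ne_zero c.ℓ_pos.ne'

lemma k0_ne (h : T2 c ζ) : k0 c ζ J ≠ 0 := by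
  obtain ⟨e, he⟩ := k0_eq (c := c) (ζ := ζ) (J := J)
  rw [he]; exact zpow_ne_zero _ (ze_ne h)

lemma wmem {lam : L} (hl : c.Min lam) (i : Φ ⊕ Δ) :
    c.wt0 lam i = 0 ∨ c.wt0 lam i = 1 ∨ c.wt0 lam i = -1 := by
  rcases i with α | i
  exacts [hl.2 α, Or.inl rfl]

lemma ep_zero : ep 0 = 1 := by simp [ep]

lemma ep_one : ep 1 = 0 := by simp [ep]

lemma ep_neg : ep (-1) = 2 := by norm_num [ep]

lemma ep_cast {lam : L} (hl : c.Min lam) (i : Φ ⊕ Δ) :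
    (ep (c.wt0 lam i) : ℚ) = 1 - c.wt0 lam i := by
  rcases wmem hl i with e | e | e <;> rw [e]
  · rw [ep_zero]; norm_num
  · rw [ep_one]; norm_num
  · rw [ep_neg]; norm_num

lemma wt0_add (z z' : L) (i : Φ ⊕ Δ) : c.wt0 (z + z') i = c.wt0 z i + c.wt0 z' i := by
  rcases i with α | i <;> simp [CD.wt0]

lemma wt0_neg (z : L) (i : Φ ⊕ Δ) : c.wt0 (-z) i = -c.wt0 z i := by
  rcases i with α | i <;> simp [CD.wt0]

lemma shift (h : T2 c ζ) (k : ℕ) (z : L) :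
    ∃ z', ∀ i, c.wt0 z (Sum.map (c.ς ^ k) id i) = c.wt0 z' i := by
  induction k generalizing z with
  | zero => exact ⟨z, fun i => by simp⟩
  | succ k ih =>
    obtain ⟨z', hz⟩ := ih (c.σ.symm z)
    refine ⟨z', fun i => ?_⟩
    rw [← hz]
    rcases i with α | i
    · have := h.cd.al_σ ((c.ς ^ k) α) (c.σ.symm z)
      rw [LieEquiv.apply_symm_apply] at this
      rw [pow_succ']
      exact this
    · rfl

lemma dgp_mul (s' : J → K) {ε₁ ε₂ ε₃ ε₄ : ℚ → ℕ} {l₁ l₂ l₃ l₄ : J → L} {i₁ i₂ i₃ i₄ : Φ ⊕ Δ}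
    (e : ∀ j (k : ℕ), ε₁ (c.wt0 (l₁ j) (Sum.map (c.ς ^ k) id i₁)) +
      ε₂ (c.wt0 (l₂ j) (Sum.map (c.ς ^ k) id i₂)) =
      ε₃ (c.wt0 (l₃ j) (Sum.map (c.ς ^ k) id i₃)) + ε₄ (c.wt0 (l₄ j) (Sum.map (c.ς ^ k) id i₄))) :
    c.dgp ζ s' ε₁ l₁ i₁ * c.dgp ζ s' ε₂ l₂ i₂ = c.dgp ζ s' ε₃ l₃ i₃ * c.dgp ζ s' ε₄ l₄ i₄ := by
  simp only [CD.dgp, ← Finset.prod_mul_distrib, ← pow_add, e]

lemma P_lie (h : T2 c ζ) (hd : S_dgp c ζ s) (s' : J → K) {lam : J → L}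
    (hl : ∀ j, c.Min (lam j)) {i i' i'' : Φ ⊕ Δ}
    (e : ∀ z, c.wt0 z i'' = c.wt0 z i + c.wt0 z i') :
    Pe c ζ s' lam i * Pe c ζ s' lam i' = c.phi s' * Pe c ζ s' lam i'' := by
  rw [← hd.phi s' lam i, mul_mul_mul_comm, mul_mul_mul_comm _ (c.dgp ζ s' (fun _ => 1) lam i)]
  congr 1
  refine dgp_mul s' fun j k => Nat.cast_injective (R := ℚ) ?_
  obtain ⟨z, hz⟩ := shift h k (lam j)
  rw [Nat.cast_add, Nat.cast_add, ep_cast (hl j), ep_cast (hl j), ep_cast (hl j), hz, hz, hz, e]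
  ring

lemma P_sq (hd : S_dgp c ζ s) (s' : J → K) {lam lam' : J → L}
    (hl : ∀ j, c.Min (lam j)) (hl' : ∀ j, c.Min (lam' j)) {i i' : Φ ⊕ Δ}
    (e : ∀ j (k : ℕ), c.wt0 (lam j) (Sum.map (c.ς ^ k) id i) +
      c.wt0 (lam' j) (Sum.map (c.ς ^ k) id i') = 0) :
    Pe c ζ s' lam i * Pe c ζ s' lam' i' = c.phi s' ^ 2 := by
  rw [sq, ← hd.phi s' lam i, mul_mul_mul_comm, mul_mul_mul_comm _ (c.dgp ζ s' (fun _ => 1) lam i)]
  congr 1
  refine dgp_mul s' fun j k => Nat.cast_injective (R := ℚ) ?_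
  rw [Nat.cast_add, Nat.cast_add, ep_cast (hl j), ep_cast (hl' j), Nat.cast_one]
  linarith [e j k]

lemma P_inr (hd : S_dgp c ζ s) (s' : J → K) (lam : J → L) (i : Δ) :
    Pe c ζ s' lam (.inr i) = c.phi s' := by
  rw [← hd.phi s' lam (.inr i)]
  simp [Pe, CD.dgp, CD.wt0, ep_zero]

lemma deg (h : T2 c ζ) {lam : J → L} (hl : ∀ j, c.Min (lam j)) (i : Φ ⊕ Δ) :
    (c.dgD ep lam i : ℚ) = c.dg J - c.wt0 (c.bar lam) i := by
  have e : c.wt0 (c.bar lam) i =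
      ∑ j, ∑ k ∈ Finset.range c.ℓ, c.wt0 (lam j) (Sum.map (c.ς ^ k) id i) := by
    rcases i with α | i
    · exact h.orb.al_bar lam α
    · simp [CD.wt0]
  rw [e, CD.dgD, CD.dg]
  push_cast
  simp only [ep_cast (hl _), Finset.sum_sub_distrib, Finset.sum_const, Finset.card_range,
    Finset.card_univ, nsmul_eq_mul, mul_one]
  ring

section diag

variable {R : Type} [CommRing R] [Algebra ℚ R]

lemma diag_bs (p : Φ ⊕ Δ → R) (i : Φ ⊕ Δ) : c.diag p (c.bs R i) = p i • c.bs R i :=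
  (c.bs R).constr_basis R _ i

lemma diag_lie {p : Φ ⊕ Δ → R} {ψ : R}
    (e : ∀ i j k, c.bas.repr ⁅c.bas i, c.bas j⁆ k ≠ 0 → p i * p j = ψ * p k) (x y : G L R) :
    ⁅c.diag p x, c.diag p y⁆ = ψ • c.diag p ⁅x, y⁆ := by
  let B : G L R →ₗ[R] G L R →ₗ[R] G L R := LinearMap.mk₂ R (fun x y => ⁅x, y⁆) add_lie smul_lie
    lie_add lie_smul
  have : B.compl₁₂ (c.diag p) (c.diag p) = ψ • B.compr₂ (c.diag p) := by
    refine LinearMap.ext_basis (c.bs R) (c.bs R) fun i j => ?_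
    change ⁅c.diag p (c.bs R i), c.diag p (c.bs R j)⁆ = ψ • c.diag p ⁅c.bs R i, c.bs R j⁆
    rw [diag_bs, diag_bs, smul_lie, lie_smul]
    refine c.ext0 fun k => ?_
    rw [map_smul, map_smul, map_smul, c.crd_diag, c.bs_apply, c.bs_apply,
      LieAlgebra.ExtendScalars.bracket_tmul, c.crd_tmul]
    by_cases h0 : c.bas.repr ⁅c.bas i, c.bas j⁆ k = 0
    · simp [h0]
    · simp only [smul_eq_mul]
      rw [← mul_assoc, ← mul_assoc, e i j k h0]
  exact LinearMap.congr_fun₂ this x y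

lemma diag_form {p : Φ ⊕ Δ → R} {ψ : R}
    (e : ∀ i j, c.κ (c.bas i) (c.bas j) ≠ 0 → p i * p j = ψ) (x y : G L R) :
    c.kR R (c.diag p x) (c.diag p y) = ψ * c.kR R x y := by
  have : (c.kR R).compl₁₂ (c.diag p) (c.diag p) = ψ • c.kR R := by
    refine LinearMap.ext_basis (c.bs R) (c.bs R) fun i j => ?_
    change c.kR R (c.diag p (c.bs R i)) (c.diag p (c.bs R j)) = ψ * c.kR R (c.bs R i) (c.bs R j)
    rw [diag_bs, diag_bs, map_smul, map_smul, LinearMap.smul_apply, c.bs_apply, c.bs_apply,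
      c.kR_tmul]
    by_cases h0 : c.κ (c.bas i) (c.bas j) = 0
    · simp [h0]
    · simp only [smul_eq_mul]
      rw [← mul_assoc, mul_comm (p j), e i j h0]
  exact LinearMap.congr_fun₂ this x y

end diag

lemma tor_lie (h : T2 c ζ) (hd : S_dgp c ζ s) (s' : J → K) {lam : J → L}
    (hl : ∀ j, c.Min (lam j)) (f g : LG L K) :
    ⁅c.tor ζ s' lam f, c.tor ζ s' lam g⁆ = c.phi s' • c.tor ζ s' lam ⁅f, g⁆ :=
  diag_lie (fun i j k e => P_lie h hd s' hl (h.cd.lie_wt i j k e)) f g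

lemma tor_form (h : T2 c ζ) (hd : S_dgp c ζ s) (s' : J → K) {lam : J → L}
    (hl : ∀ j, c.Min (lam j)) (f g : LG L K) :
    c.kR _ (c.tor ζ s' lam f) (c.tor ζ s' lam g) = c.phi s' ^ 2 * c.kR _ f g :=
  diag_form (fun i i' e => P_sq hd s' hl hl fun j k => by
    obtain ⟨z, hz⟩ := shift h k (lam j)
    rw [hz, hz, h.cd.κ_wt i i' e]) f g

lemma tor_sq (h : T2 c ζ) (hd : S_dgp c ζ s) (s' : J → K) {lam : J → L}
    (hl : ∀ j, c.Min (lam j)) (g : LG L K) :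
    c.tor ζ s' lam (c.tor ζ s' (-lam) g) = c.phi s' ^ 2 • g :=
  c.ext0 fun i => by
    rw [crd_tor, crd_tor, ← mul_assoc, map_smul, smul_eq_mul,
      P_sq (lam' := -lam) hd s' hl (fun j => h.cd.min_neg _ (hl j)) fun j k => by
        rw [Pi.neg_apply, wt0_neg, add_neg_cancel]]

lemma tor_eqv (h : T2 c ζ) (hd : S_dgp c ζ s) (s' : J → K) (lam : J → L) (f : LG L K) :
    c.tor ζ s' lam f ∈ c.Eqv ζ ↔ f ∈ c.Eqv ζ := by
  have : c.tor ζ s' lam f = k0 c ζ J • c.diag (c.dgp ζ s' ep lam) f := c.ext0 fun i => by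
    rw [crd_tor, h.lp.smul_C, map_smul, c.crd_diag, smul_eq_mul, mul_assoc]
  rw [this, Submodule.smul_mem_iff _ (k0_ne h), hd.eqv]

lemma phi_pos (hp : c.Pt ζ s) (hd : S_dgp c ζ s) :
    (∀ m < 0, (c.phi s).coeff m = 0) ∧ (c.phi s).coeff 0 ≠ 0 := by
  refine Finset.prod_induction _ (fun p : LP K => (∀ m < 0, p.coeff m = 0) ∧ p.coeff 0 ≠ 0)
    (fun p q a b => ?_) ⟨fun m hm => ?_, ?_⟩ fun j _ => ⟨fun m hm => ?_, ?_⟩
  · have h1 := (hd.low p q 0 a.1 a.2).2 fun n hn => by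
      exact_mod_cast not_lt.1 fun e => hn (b.1 n e)
    refine ⟨fun m hm => not_not.1 fun e => ?_, fun e => ?_⟩
    · have : (0 : ℤ) ≤ m := by exact_mod_cast h1 m e
      omega
    · have h2 := (hd.low p q 1 a.1 a.2).1 (fun n hn => by
        have h3 : (0 : ℤ) ≤ n := by exact_mod_cast h1 n hn
        have h4 : n ≠ 0 := fun e' => hn (e' ▸ e)
        exact_mod_cast (by omega : (1 : ℤ) ≤ n)) 0 b.2
      norm_num at h2
  · rw [← T_zero, T_apply, if_neg hm.ne']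
  · rw [← T_zero, T_apply, if_pos rfl]; exact one_ne_zero
  · have : (c.ℓ : ℤ) ≠ m := by omega
    simp [this, hm.ne, -map_pow]
  · simp [c.ℓ_pos.ne', hp.ne j, -map_pow]

lemma phi_zero : c.phi (0 : J → K) = T (c.dg J : ℤ) := by
  simp [CD.phi, c.ℓ_pos.ne', CD.dg, mul_comm]

lemma P_low (h : T2 c ζ) (hd : S_dgp c ζ s) (lam : J → L) (i : Φ ⊕ Δ) :
    (∀ n < 0, (Pe c ζ s lam i).coeff n = 0) ∧ (Pe c ζ s lam i).coeff 0 ≠ 0 := by
  refine ⟨fun n hn => ?_, ?_⟩ <;> rw [coeff_C_mul]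
  · rw [not_not.1 fun e => (hd.supp s ep lam i n e).1.not_gt hn, mul_zero]
  · exact mul_ne_zero (k0_ne h) (hd.const _ _ _)

lemma P_high (h : T2 c ζ) (hd : S_dgp c ζ s) (lam : J → L) (i : Φ ⊕ Δ) :
    (∀ n > (c.dgD ep lam i : ℤ), (Pe c ζ s lam i).coeff n = 0) ∧
      ∃ e : ℤ, (Pe c ζ s lam i).coeff (c.dgD ep lam i) = ζ ^ e := by
  refine ⟨fun n hn => ?_, ?_⟩ <;> rw [coeff_C_mul]
  · rw [not_not.1 fun e => (hd.supp s ep lam i n e).2.not_gt hn, mul_zero]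
  · obtain ⟨e, -, he⟩ := hd.top ep lam i
    obtain ⟨e', he'⟩ := k0_eq (c := c) (ζ := ζ) (J := J)
    exact ⟨e' + e, by rw [he, he', zpow_add₀ (ze_ne h)]⟩

lemma sup_iff {z : L} {Q : Set ℚ} {f : LG L K} :
    f ∈ c.Sup z Q ↔ ∀ i n, (c.crd i f).coeff n ≠ 0 → c.wt0 z i + n ∈ Q := by
  simp only [CD.mem_Sup, c.co_eq]
  exact ⟨fun e i n => e (n, i), fun e a => e a.2 a.1⟩

lemma in_iff {M : Set K} {f : LG L K} : c.In M f ↔ ∀ i n, (c.crd i f).coeff n ∈ M := by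
  simp only [CD.In, c.co_eq]
  exact ⟨fun e i n => e (n, i), fun e a => e a.2 a.1⟩

lemma aut (h : T2 c ζ) (hp : c.Pt ζ s) (hd : S_dgp c ζ s) {lam : J → L}
    (hl : ∀ j, c.Min (lam j)) (z : L) : c.Aut0 ζ (c.phi s) (c.tor ζ s lam) z where
  lie := tor_lie h hd s hl
  eqv f hf := (tor_eqv h hd s lam f).2 hf
  pos := (phi_pos hp hd).1
  ne := (phi_pos hp hd).2
  hh x hx := by
    have : c.tor ζ s lam (c0 _ x) = c.phi s • c0 (LP K) x := c.ext0 fun i => by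
      rw [crd_tor, map_smul, smul_eq_mul]
      rcases i with α | i
      · simp [hx.1 α]
      · rw [P_inr hd]
    rw [this]
    exact h.sup.lead z 0 _ _ (phi_pos hp hd).1
      (c.Sup_mono (by simp) (h.sup.c0 z x hx.1))
  fil r f _ := by
    simp only [sup_iff, crd_tor, mem_Ici, ← sub_le_iff_le_add']
    exact forall_congr' fun i => hd.low _ _ _ (P_low h hd lam i).1 (P_low h hd lam i).2

lemma top (h : T2 c ζ) (hd : S_dgp c ζ s) {lam : J → L} (hl : ∀ j, c.Min (lam j)) (z : L) (r : ℚ)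
    (g : LG L K) :
    c.tor ζ s lam g ∈ c.Sup (z + c.bar lam) (Iic (r + c.dg J)) ↔ g ∈ c.Sup z (Iic r) := by
  simp only [sup_iff, crd_tor, mem_Iic, ← le_sub_iff_add_le']
  refine forall_congr' fun i => ?_
  obtain ⟨h1, e, h2⟩ := P_high h hd lam i
  rw [← hd.high _ (c.crd i g) _ (r - c.wt0 z i) h1 (h2 ▸ zpow_ne_zero _ (ze_ne h)), wt0_add,
    Int.cast_natCast, deg h hl]
  have : r + c.dg J - (c.wt0 z i + c.wt0 (c.bar lam) i) =
      r - c.wt0 z i + (c.dg J - c.wt0 (c.bar lam) i) := by ring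
  rw [this]

lemma crd_pow (h : T2 c ζ) (k : ℕ) (α : Φ) (y : G L K)
    (e : c.crd (.inl ((c.ς ^ k) α)) ((c.sg K ^ k) y) = 0) : c.crd (.inl α) y = 0 := by
  induction k with
  | zero => simpa using e
  | succ k ih =>
    obtain ⟨ε, h1, -, h2⟩ := h.gk.crd_sg ((c.ς ^ k) α)
    rw [pow_succ', pow_succ', Module.End.mul_apply, Equiv.Perm.mul_apply, h2] at e
    refine ih ((smul_eq_zero.1 e).resolve_left ?_)
    rcases h1 with rfl | rfl <;> norm_num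

lemma crd_inr (h : T2 c ζ) (k : ℕ) (y : G L K) (e : ∀ i, c.crd (.inr i) ((c.sg K ^ k) y) = 0) :
    ∀ i, c.crd (.inr i) y = 0 := by
  have h1 : ∀ m : ℕ, ∀ i, c.crd (.inr i) ((c.sg K ^ m) ((c.sg K ^ k) y)) = 0 := fun m => by
    induction m with
    | zero => simpa using e
    | succ m ih => rw [pow_succ', Module.End.mul_apply]; exact h.gk.crd_sg_inr _ ih
  have h2 := h1 ((c.ℓ - 1) * k)
  rwa [← Module.End.mul_apply, ← pow_add, ← Nat.succ_mul, Nat.succ_eq_add_one,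
    Nat.sub_add_cancel c.ℓ_pos, pow_mul, h.gk.sg_pow, one_pow, Module.End.one_apply] at h2

lemma van (h : T2 c ζ) {t : K} (ht : t ≠ 0) {f : LG L K} (hf : f ∈ c.Eqv ζ) {z : L} {Q : Set ℚ}
    (hz : ev t f ∈ c.Gr z Q) (k : ℕ) (i : Φ ⊕ Δ) (hi : c.wt0 z (Sum.map (c.ς ^ k) id i) ∉ Q) :
    evL (ζ ^ k * t) (c.crd i f) = 0 := by
  rw [← h.lp.crd_ev]
  rw [← h.eqv.ev_rot f hf k t ht] at hz
  rcases i with α | i
  · exact crd_pow h k α _ (not_not.1 fun e => hi (hz _ e))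
  · exact crd_inr h k _ (fun i' => not_not.1 fun e => hi (hz (.inr i') e)) i

lemma rng (h : T2 c ζ) (hp : c.Pt ζ s) (hd : S_dgp c ζ s) {lam : J → L}
    (hl : ∀ j, c.Min (lam j)) : c.Rng ζ s (fun j => c.U1 K (lam j)) (c.tor ζ s lam) := by
  intro f
  constructor
  · rintro ⟨hf, h1⟩
    have h2 : ∀ i, c.dgp ζ s ep lam i ∣ c.crd i f := fun i => by
      refine hd.dvd _ _ _ _ fun j k => ⟨?_, fun e => ?_, fun e => ?_⟩
      · rcases wmem (hl j) (Sum.map (c.ς ^ k) id i) with e | e | e <;> rw [e]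
        · rw [ep_zero]; norm_num
        · rw [ep_one]; norm_num
        · rw [ep_neg]
      · refine van h (hp.ne j) hf (h1 j).1 k i fun e' => ?_
        rw [mem_singleton_iff.1 e', ep_one] at e
        omega
      · rw [← h.lp.crd_dd]
        refine van h (hp.ne j) (h.eqv.dd f hf) ((h.fd.perp _ (hl j) _).1 (h1 j).2) k i fun e' => ?_
        rcases wmem (hl j) (Sum.map (c.ς ^ k) id i) with e1 | e1 | e1 <;> rw [e1] at e e'
        · rw [ep_zero] at e; omega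
        · rw [ep_one] at e; omega
        · norm_num at e'
    choose q hq using h2
    have h3 : c.tor ζ s lam ((c.bs (LP K)).equivFun.symm fun i => C (k0 c ζ J)⁻¹ * q i) = f :=
      c.ext0 fun i => by
        rw [crd_tor, hq, c.crd_eq, ← Module.Basis.equivFun_apply, LinearEquiv.apply_symm_apply,
          mul_mul_mul_comm, ← map_mul, mul_inv_cancel₀ (k0_ne h), map_one, one_mul]
    exact ⟨_, (tor_eqv h hd s lam _).1 (h3 ▸ hf), h3⟩
  · rintro ⟨g, hg, rfl⟩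
    refine ⟨(tor_eqv h hd s lam g).2 hg, fun j => ⟨fun i hi => ?_, (h.fd.perp _ (hl j) _).2
      fun i hi => ?_⟩⟩
    · rw [h.lp.crd_ev, crd_tor, Pe, mul_comm (C _), mul_assoc] at hi
      rcases wmem (hl j) i with e | e | e
      · exact absurd ((hd.van _ _ i j _).1 (by rw [e, ep_zero])) hi
      · exact e
      · exact absurd ((hd.van _ _ i j _).1 (by rw [e, ep_neg]; norm_num)) hi
    · rw [h.lp.crd_ev, h.lp.crd_dd, crd_tor, Pe, mul_comm (C _), mul_assoc] at hi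
      rcases wmem (hl j) i with e | e | e
      · exact e.ge
      · exact zero_le_one.trans e.ge
      · exact absurd ((hd.van _ _ i j _).2 (by rw [e, ep_neg])) hi

lemma tr_apply (lam : J → L) (f : LG L K) :
    c.tr ζ lam f = (T (-(c.dg J : ℤ)) : LP K) • c.tor ζ 0 lam f := rfl

lemma TT : (T (-(c.dg J : ℤ)) : LP K) * c.phi (0 : J → K) = 1 := by
  rw [phi_zero, ← T_add, neg_add_cancel, T_zero]

lemma tr_inv (h : T2 c ζ) (hd : S_dgp c ζ s) {lam : J → L} (hl : ∀ j, c.Min (lam j)) :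
    c.tr ζ lam * c.tr ζ (-lam) = 1 := LinearMap.ext fun f => by
  rw [Module.End.mul_apply, tr_apply, tr_apply, map_smul, tor_sq h hd 0 hl, smul_smul, smul_smul,
    ← sq, ← mul_pow, TT, one_pow, one_smul, Module.End.one_apply]

lemma tr_la (h : T2 c ζ) (hd : S_dgp c ζ s) {lam : J → L} (hl : ∀ j, c.Min (lam j)) :
    c.LA ζ (c.tr ζ lam) := by
  refine ⟨⟨fun x y => ?_, fun x y => ?_, isUnit_iff_exists.2 ⟨_, tr_inv h hd hl, ?_⟩⟩, fun f => ?_⟩
  · rw [tr_apply, tr_apply, tr_apply, smul_lie, lie_smul, tor_lie h hd 0 hl,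
      smul_smul _ (c.phi _), TT, one_smul]
  · rw [tr_apply, tr_apply, map_smul, map_smul, LinearMap.smul_apply, tor_form h hd 0 hl,
      smul_eq_mul, smul_eq_mul, ← mul_assoc, ← mul_assoc, ← sq, ← mul_pow, TT, one_pow, one_mul]
  · have := tr_inv h hd (lam := -lam) fun j => h.cd.min_neg _ (hl j)
    rwa [neg_neg] at this
  · rw [tr_apply, h.eqv.T_iff _ _ ⟨-Fintype.card J, by simp [CD.dg]⟩, tor_eqv h hd]

lemma co_tr (h : T2 c ζ) (hd : S_dgp c ζ s) (lam : J → L) (i : Φ ⊕ Δ) : ∃ e : ℤ, ∀ n (f : LG L K),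
    c.co (n + (c.dgD ep lam i - c.dg J), i) (c.tr ζ lam f) = ζ ^ e * c.co (n, i) f := by
  obtain ⟨e, he, -⟩ := hd.top ep lam i
  obtain ⟨e', he'⟩ := k0_eq (c := c) (ζ := ζ) (J := J)
  refine ⟨e' + e, fun n f => ?_⟩
  have h1 := h.lp.co_T (c.dgD ep lam i) (n + c.dgD ep lam i) i f
  rw [add_sub_cancel_right] at h1
  rw [tr_apply, h.lp.co_T, ← h1, c.co_eq, c.co_eq, crd_tor, Pe, he, he', mul_assoc, mul_assoc,
    coeff_C_mul, coeff_C_mul, zpow_add₀ (ze_ne h), mul_assoc, map_smul, smul_eq_mul]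
  congr 3
  ring

lemma tr_mono (h : T2 c ζ) (hd : S_dgp c ζ s) {lam : J → L} (hl : ∀ j, c.Min (lam j)) :
    c.Mono ζ (c.tr ζ lam) fun z => z + c.bar lam := by
  have hb := h.orb.bar_fix lam fun j => (hl j).1
  refine ⟨fun z hz => hz.add hb, fun z hz => ⟨_, hz.sub hb, sub_add_cancel _ _⟩,
    fun z _ Q f _ => ?_⟩
  simp only [CD.mem_Sup, Prod.forall]
  rw [forall_comm, forall_comm (α := ℤ)]
  refine forall_congr' fun i => ?_
  obtain ⟨e, he⟩ := co_tr h hd lam i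
  rw [← (Equiv.addRight ((c.dgD ep lam i : ℤ) - c.dg J)).forall_congr_right]
  refine forall_congr' fun n => ?_
  rw [Equiv.coe_addRight, he, mul_ne_zero_iff_left (zpow_ne_zero _ (ze_ne h))]
  have : c.wt (z + c.bar lam) (n + (c.dgD ep lam i - c.dg J), i) = c.wt z (n, i) := by
    simp only [CD.wt, wt0_add]
    push_cast
    rw [deg h hl]
    ring
  rw [this]

lemma tr_int (h : T2 c ζ) (hd : S_dgp c ζ s) {S : Subring K} {M : Set K} (lam : J → L)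
    (hS : c.SD ζ S) (hM : SM S M) : c.IntB ζ M (c.tr ζ lam) := by
  intro f _
  simp only [CD.In, Prod.forall]
  rw [forall_comm, forall_comm (α := ℤ)]
  refine forall_congr' fun i => ?_
  obtain ⟨e, he⟩ := co_tr h hd lam i
  rw [← (Equiv.addRight ((c.dgD ep lam i : ℤ) - c.dg J)).forall_congr_right]
  refine forall_congr' fun n => ?_
  rw [Equiv.coe_addRight, he]
  refine ⟨fun a => ?_, hM.mul _ (h.eqv.zpow_mem S hS e) _⟩
  have := hM.mul _ (h.eqv.zpow_mem S hS (-e)) _ a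
  rwa [← mul_assoc, ← zpow_add₀ (ze_ne h), neg_add_cancel, zpow_zero, one_mul] at this

lemma k0_mem (h : T2 c ζ) {S : Subring K} (hS : c.SD ζ S) : k0 c ζ J ∈ S := by
  obtain ⟨e, he⟩ := k0_eq (c := c) (ζ := ζ) (J := J)
  rw [he]; exact h.eqv.zpow_mem S hS e

lemma int (h : T2 c ζ) (hd : S_dgp c ζ s) {S : Subring K} {M : Set K} (lam : J → L)
    (hS : c.SD ζ S) (hM : SM S M) (hs : ∀ j, s j ∈ S) : c.IntB ζ M (c.tor ζ s lam) := by
  intro f _
  simp only [in_iff, crd_tor]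
  refine forall_congr' fun i => ?_
  have h1 : ∀ n, (Pe c ζ s lam i).coeff n ∈ S := fun n => by
    rw [coeff_C_mul]; exact S.mul_mem (k0_mem h hS) (hd.int S s hS hs _ _ _ n)
  obtain ⟨h2, e, h3⟩ := P_high h hd lam i
  obtain ⟨S', M', a, b, b', -⟩ := h.sup.in_lift S M hM
  refine ⟨hd.gauss S M _ _ _ hM h1 h2 (h3 ▸ zpow_ne_zero _ (ze_ne h)) ?_,
    fun e => (b' _).1 (a.mul _ ((b _).2 h1) _ ((b' _).2 e))⟩
  rw [h3, ← zpow_neg]
  exact h.eqv.zpow_mem S hS _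

lemma cong (h : T2 c ζ) (hd : S_dgp c ζ s) {S : Subring K} {M : Set K} (lam : J → L)
    (hS : c.SD ζ S) (hM : SM S M) (hMS : M ⊆ S) (hs : ∀ j, s j ∈ M) (g : LG L K)
    (hg : c.In S g) : c.In M (c.tor ζ s lam g - (T (c.dg J : ℤ) : LP K) • c.tr ζ lam g) := by
  rw [tr_apply, smul_smul, ← T_add, add_neg_cancel, T_zero, one_smul, in_iff]
  intro i n
  obtain ⟨S', M', a, b, b', -⟩ := h.sup.in_lift S M hM
  rw [map_sub, crd_tor, crd_tor, ← sub_mul, ← mul_sub, mul_assoc, coeff_C_mul,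
    mul_comm _ (c.crd i g)]
  exact hM.mul _ (k0_mem h hS) _ ((b' _).1 (a.mul _ ((b _).2 (in_iff.1 hg i)) _
    ((b' _).2 (hd.cong S M hS hM hMS hs _ _ i))) n)

end

end TorA

theorem tor (h : T2 c ζ) (hp : c.Pt ζ s) (hd : S_dgp c ζ s) : S_tor c ζ s where
  aut _ hl := TorA.aut h hp hd hl
  rng _ hl := TorA.rng h hp hd hl
  top _ hl := TorA.top h hd hl
  tr_la _ hl := TorA.tr_la h hd hl
  tr_mono _ hl := TorA.tr_mono h hd hl
  tr_int _ _ lam _ hS hM := TorA.tr_int h hd lam hS hM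
  int _ _ lam := TorA.int h hd lam
  cong _ _ lam := TorA.cong h hd lam
  sq _ hl := TorA.tor_sq h hd s hl

end Pool.Agent.P.MP_e7d440_ag.U
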