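import Pool.Agent.P.MP_e7d440_ag.U.IfaceC
import Pool.Agent.P.MP_e7d440_ag.Hor

/-! Field theory of generating families. -/

namespace Pool.Agent.P.MP_e7d440_ag.U

open IsLocalRing MvPolynomial

namespace GenA

lemma chain {O K ι : Type} [CommRing O] [Field K] [Algebra O K] [Fintype ι] [DecidableEq ι]
    (y : ι → K) (F : MvPolynomial ι O) :
    ∃ c : ι → K, ∀ D : Derivation O K K, D (aeval y F) = ∑ i, c i * D (y i) := by
  induction F using MvPolynomial.induction_on with
  | C o => exact ⟨0, fun D => by simp⟩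
  | add F G hF hG =>
    obtain ⟨c, hc⟩ := hF
    obtain ⟨c', hc'⟩ := hG
    exact ⟨c + c', fun D => by
      simp [hc D, hc' D, add_mul, Finset.sum_add_distrib]⟩
  | mul_X F i hF =>
    obtain ⟨c, hc⟩ := hF
    refine ⟨y i • c + Pi.single i (aeval y F), fun D => ?_⟩
    simp only [map_mul, aeval_X, Derivation.leibniz, hc D, smul_eq_mul, Pi.add_apply,
      Pi.smul_apply, add_mul, Finset.sum_add_distrib, Finset.mul_sum, mul_assoc]
    rw [add_comm]
    congr 1
    rw [Finset.sum_eq_single i (fun b _ hb => by simp [Pi.single_eq_of_ne hb]) (by simp)]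
    simp

lemma chain' {O K ι : Type} [CommRing O] [Field K] [Algebra O K] [Fintype ι] [DecidableEq ι]
    (y : ι → K) (h : Gen O y) (γ : K) :
    ∃ c : ι → K, ∀ D : Derivation O K K, D γ = ∑ i, c i * D (y i) := by
  obtain ⟨F, G, hG, e⟩ := h γ
  obtain ⟨c, hc⟩ := chain y F
  obtain ⟨c', hc'⟩ := chain y G
  refine ⟨fun i => (aeval y G)⁻¹ * (c i - γ * c' i), fun D => ?_⟩
  have h1 := congrArg D e
  rw [Derivation.leibniz, hc, hc'] at h1
  simp only [smul_eq_mul] at h1
  simp only [mul_assoc, ← Finset.mul_sum, sub_mul, Finset.sum_sub_distrib]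
  rw [← h1]
  field_simp
  ring

lemma aeval_mem {O K ν : Type} [CommRing O] [Field K] [Algebra O K] (y : ν → K) (R : Subring K)
    (h1 : ∀ o, algebraMap O K o ∈ R) (h2 : ∀ i, y i ∈ R) (F : MvPolynomial ν O) :
    aeval y F ∈ R := by
  induction F using MvPolynomial.induction_on with
  | C o => simpa using h1 o
  | add F G hF hG => rw [map_add]; exact R.add_mem hF hG
  | mul_X F i hF => rw [map_mul, aeval_X]; exact R.mul_mem hF (h2 i)

/-- fractions whose denominators are invertible in `R` -/
def frac (O : Type) {K ν : Type} [CommRing O] [Field K] [Algebra O K] (y : ν → K)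
    (R : Subring K) : Subring K where
  carrier := {γ | ∃ F G : MvPolynomial ν O, aeval y G ≠ 0 ∧ (aeval y G)⁻¹ ∈ R ∧
    γ * aeval y G = aeval y F}
  mul_mem' := by
    rintro a b ⟨F, G, h1, h2, h3⟩ ⟨F', G', h1', h2', h3'⟩
    refine ⟨F * F', G * G', ?_, ?_, ?_⟩ <;> simp only [map_mul]
    · exact mul_ne_zero h1 h1'
    · rw [mul_inv]; exact R.mul_mem h2 h2'
    · rw [← h3, ← h3']; ring
  one_mem' := ⟨1, 1, by simp, by simp, by simp⟩
  add_mem' := by
    rintro a b ⟨F, G, h1, h2, h3⟩ ⟨F', G', h1', h2', h3'⟩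
    refine ⟨F * G' + F' * G, G * G', ?_, ?_, ?_⟩ <;> simp only [map_mul, map_add]
    · exact mul_ne_zero h1 h1'
    · rw [mul_inv]; exact R.mul_mem h2 h2'
    · rw [← h3, ← h3']; ring
  zero_mem' := ⟨0, 1, by simp, by simp, by simp⟩
  neg_mem' := by
    rintro a ⟨F, G, h1, h2, h3⟩
    exact ⟨-F, G, h1, h2, by rw [map_neg, ← h3]; ring⟩

end GenA

open GenA

theorem gen : S_gen where
  wrne := by
    intro O K ι _ _ _ _ _ D x y hy hx h0
    choose c hc using chain' y hy
    refine hx ?_
    have : (Matrix.of fun b a => D a (x b)) =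
        (Matrix.of fun b i => c (x b) i) * Matrix.of fun i a => D a (y i) := by
      ext b a
      simp [Matrix.mul_apply, hc (x b) (D a)]
    unfold wr at h0 ⊢
    rw [this, Matrix.det_mul, h0, mul_zero]
  clos := by
    intro O K ν _ _ _ y
    constructor
    · intro h
      refine eq_top_iff.2 fun γ _ => ?_
      obtain ⟨F, G, hG, e⟩ := h γ
      have hm := aeval_mem y
        (Subfield.closure (Set.range (algebraMap O K) ∪ Set.range y)).toSubring
        (fun o => Subfield.subset_closure (Or.inl ⟨o, rfl⟩))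
        (fun i => Subfield.subset_closure (Or.inr ⟨i, rfl⟩))
      rw [← eq_div_iff hG] at e
      rw [e]
      exact div_mem (hm F) (hm G)
    · intro h γ
      let T : Subfield K :=
        { frac O y ⊤ with
          inv_mem' := by
            rintro a ⟨F, G, h1, -, h3⟩
            by_cases ha : a = 0
            · exact ⟨0, 1, by simp, by simp, by simp [ha]⟩
            · refine ⟨G, F, h3 ▸ mul_ne_zero ha h1, trivial, ?_⟩
              rw [← h3, inv_mul_cancel_left₀ ha] }
      have hT : Subfield.closure (Set.range (algebraMap O K) ∪ Set.range y) ≤ T := by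
        refine Subfield.closure_le.2 ?_
        rintro _ (⟨o, rfl⟩ | ⟨i, rfl⟩)
        · exact ⟨C o, 1, by simp, trivial, by simp⟩
        · exact ⟨X i, 1, by simp, trivial, by simp⟩
      obtain ⟨F, G, h1, -, h3⟩ := hT (h ▸ Subfield.mem_top γ)
      exact ⟨F, G, h1, h3⟩
  indep := by
    intro O K ν σ _ _ _ _ _ _ y x hy hx hc
    have : FaithfulSMul O K :=
      (faithfulSMul_iff_algebraMap_injective _ _).2 hx.algebraMap_injective
    have hm : ∀ F : MvPolynomial ν O, aeval y F ∈ Algebra.adjoin O (Set.range y) := fun F => by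
      rw [Algebra.adjoin_range_eq_range_aeval]
      exact ⟨F, rfl⟩
    have : Algebra.IsAlgebraic (Algebra.adjoin O (Set.range y)) K := ⟨fun γ => by
      obtain ⟨F, G, hG, e⟩ := hy γ
      refine ⟨Polynomial.C ⟨_, hm G⟩ * Polynomial.X - Polynomial.C ⟨_, hm F⟩, fun h0 => hG ?_, ?_⟩
      · have := congrArg (fun p => ((Polynomial.coeff p 1 : Algebra.adjoin O (Set.range y)) : K)) h0
        simpa using this
      · rw [map_sub, map_mul, Polynomial.aeval_C, Polynomial.aeval_C, Polynomial.aeval_X]
        change aeval y G * γ - aeval y F = 0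
        rw [mul_comm, e, sub_self]⟩
    refine (Algebra.IsAlgebraic.isTranscendenceBasis_of_le_trdeg_of_finite O y
      (le_trans ?_ hx.cardinalMk_le_trdeg)).1
    rw [Cardinal.mk_fintype, Cardinal.mk_fintype]
    exact_mod_cast hc
  iso := by
    intro O K K' ν _ _ _ _ _ _ y y' hy hy' hi hi'
    let := (aeval y : MvPolynomial ν O →ₐ[O] K).toRingHom.toAlgebra
    let := (aeval y' : MvPolynomial ν O →ₐ[O] K').toRingHom.toAlgebra
    have he : ∀ F, algebraMap (MvPolynomial ν O) K F = aeval y F := fun _ => rfl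
    have he' : ∀ F, algebraMap (MvPolynomial ν O) K' F = aeval y' F := fun _ => rfl
    have : IsScalarTower O (MvPolynomial ν O) K :=
      IsScalarTower.of_algebraMap_eq fun o => by rw [he, AlgHom.commutes]
    have : IsScalarTower O (MvPolynomial ν O) K' :=
      IsScalarTower.of_algebraMap_eq fun o => by rw [he', AlgHom.commutes]
    have : FaithfulSMul (MvPolynomial ν O) K := (faithfulSMul_iff_algebraMap_injective _ _).2 hi
    have : FaithfulSMul (MvPolynomial ν O) K' := (faithfulSMul_iff_algebraMap_injective _ _).2 hi'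
    have : IsFractionRing (MvPolynomial ν O) K := IsFractionRing.of_field _ _ fun z => by
      obtain ⟨F, G, h1, h2⟩ := hy z
      exact ⟨F, G, by rw [he, he, eq_div_iff h1, h2]⟩
    have : IsFractionRing (MvPolynomial ν O) K' := IsFractionRing.of_field _ _ fun z => by
      obtain ⟨F, G, h1, h2⟩ := hy' z
      exact ⟨F, G, by rw [he', he', eq_div_iff h1, h2]⟩
    refine ⟨(IsLocalization.algEquiv (nonZeroDivisors (MvPolynomial ν O)) K' K).restrictScalars O,
      fun i => ?_⟩
    have h := (IsLocalization.algEquiv (nonZeroDivisors (MvPolynomial ν O)) K' K).commutes (X i)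
    rw [he, he', aeval_X, aeval_X] at h
    exact h
  norm := by
    intro O K ν _ _ _ _ _ _ y R hy hi _ _
    refine ⟨frac O y R, fun _ => Iff.rfl, fun γ hγ => ?_⟩
    refine HorA.closed y hi hy R (frac O y R : Set K) (fun _ h => h) γ ?_
    exact hγ.map_of_comp_eq ((frac O y R).subtype.codRestrict
      (Algebra.adjoin O (frac O y R : Set K)) fun t => Algebra.subset_adjoin t.2)
      (RingHom.id K) rfl

end Pool.Agent.P.MP_e7d440_ag.U
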