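import Pool.Agent.P.MP_e7d440_ag.U.IfaceC
import Pool.Agent.P.MP_e7d440_ag.Verb

/-! Residual transcendence degree and Gauss valuations. -/

namespace Pool.Agent.P.MP_e7d440_ag.U

open IsLocalRing MvPolynomial

namespace TrdA

theorem card_le {κ k ν σ : Type} [Field κ] [Field k] [Algebra κ k] [Fintype ν] [Fintype σ]
    (t : σ → k) (y : ν → k) (ht : AlgebraicIndependent κ t)
    (h : ∀ p, ∃ F G : MvPolynomial ν κ, aeval y G ≠ 0 ∧ t p * aeval y G = aeval y F) :
    Fintype.card σ ≤ Fintype.card ν ∧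
      (Fintype.card ν ≤ Fintype.card σ → AlgebraicIndependent κ y) := by
  have hmem : ∀ F : MvPolynomial ν κ,
      IsAlgebraic (Algebra.adjoin κ (Set.range y)) (aeval y F) := fun F =>
    isAlgebraic_algebraMap (⟨aeval y F, by
      rw [Algebra.adjoin_range_eq_range_aeval]
      exact ⟨F, rfl⟩⟩ : Algebra.adjoin κ (Set.range y))
  have h1 : Set.range t ⊆ (AlgebraicIndependent.matroid κ k).closure (Set.range y) := by
    rintro _ ⟨p, rfl⟩
    obtain ⟨F, G, hG, e⟩ := h p
    rw [AlgebraicIndependent.matroid_closure_eq]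
    exact IsAlgebraic.of_mul (mem_nonZeroDivisors_of_ne_zero hG) (hmem G)
      (by rw [mul_comm, e]; exact hmem F)
  have h2 : (AlgebraicIndependent.matroid κ k).Indep (Set.range t) := ht.to_subtype_range
  have h3 : (Set.univ : Set σ).encard ≤ (AlgebraicIndependent.matroid κ k).eRk (Set.range y) := by
    rw [← Matroid.eRk_closure_eq, ← ht.injective.encard_image, Set.image_univ, ← h2.eRk_eq_encard]
    exact Matroid.eRk_mono _ h1
  have h4 : (Set.range y).encard ≤ (Set.univ : Set ν).encard := by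
    rw [← Set.image_univ]
    exact Set.encard_image_le _ _
  have h5 := (AlgebraicIndependent.matroid κ k).eRk_le_encard (Set.range y)
  have c1 : (Set.univ : Set σ).encard = Fintype.card σ := by simp
  have c2 : (Set.univ : Set ν).encard = Fintype.card ν := by simp
  refine ⟨?_, fun hc => ?_⟩
  · have := h3.trans (h5.trans h4)
    rw [c1, c2] at this
    exact_mod_cast this
  have h3' : (Set.univ : Set ν).encard ≤
      (AlgebraicIndependent.matroid κ k).eRk (Set.range y) := by
    refine le_trans ?_ h3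
    rw [c1, c2]
    exact_mod_cast hc
  have h6 : (AlgebraicIndependent.matroid κ k).Indep (Set.range y) :=
    (Matroid.indep_iff_eRk_eq_encard_of_finite (Set.finite_range y)).2
      (h5.antisymm (h4.trans h3'))
  have h7 : Function.Injective y := by
    rw [← Set.injOn_univ]
    refine Set.finite_univ.injOn_of_encard_image_eq ?_
    rw [Set.image_univ]
    exact h4.antisymm (h3'.trans h5)
  exact (algebraicIndependent_subtype_range h7).1 h6

section
variable {O K ν : Type} [CommRing O] [Field K] [Algebra O K] (V : ValuationSubring K)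

lemma aeval_mem (y : ν → K) (hO : ∀ o, algebraMap O K o ∈ V) (hy : ∀ k, y k ∈ V)
    (F : MvPolynomial ν O) : aeval y F ∈ V := by
  induction F using MvPolynomial.induction_on with
  | C a => rw [aeval_C]; exact hO a
  | add p q hp hq => rw [map_add]; exact add_mem hp hq
  | mul_X p i hp => rw [map_mul, aeval_X]; exact mul_mem hp (hy i)

lemma mul_not {a b : K} (ha : a ∉ V.nonunits) (hb : b ∉ V.nonunits) : a * b ∉ V.nonunits := by
  rw [V.mem_nonunits_iff, not_lt] at *
  rw [map_mul]
  exact one_le_mul ha hb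

lemma one_not : (1 : K) ∉ V.nonunits := by
  rw [V.mem_nonunits_iff]; simp

lemma of_eq {a b : K} (ha : a ∈ V.nonunits) (e : b = a) : b ∈ V.nonunits := e ▸ ha

lemma nmul {a b : K} (ha : a ∈ V) (hb : b ∈ V.nonunits) : a * b ∈ V.nonunits :=
  (SM.nonunits V).mul a ha b hb

theorem rr (y : ν → K) (hO : ∀ o, algebraMap O K o ∈ V) (hy : ∀ k, y k ∈ V) :
    ∃ S : Subring K, (∀ γ, γ ∈ S ↔ γ ∈ V ∧ RR O V y γ) ∧ Dom S V ∧
      (∀ γ ∈ V.nonunits, γ ∈ S) ∧ (∀ o, algebraMap O K o ∈ S) ∧ ∀ k, y k ∈ S := by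
  have hm := aeval_mem V y hO hy
  have hp : ∀ F : MvPolynomial ν O, aeval y F ∈ V ∧ RR O V y (aeval y F) := fun F =>
    ⟨hm F, F, 1, by rw [map_one]; exact one_not V, by simp⟩
  let S : Subring K :=
    { carrier := {γ | γ ∈ V ∧ RR O V y γ}
      mul_mem' := by
        rintro a b ⟨ha, F, G, hG, e⟩ ⟨hb, F', G', hG', e'⟩
        refine ⟨mul_mem ha hb, F * F', G * G', by rw [map_mul]; exact mul_not V hG hG', ?_⟩
        have := add_mem (nmul V (mul_mem hb (hm G')) e) (nmul V (hm F) e')
        rw [map_mul, map_mul]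
        exact of_eq V this (by ring)
      one_mem' := by simpa using hp 1
      add_mem' := by
        rintro a b ⟨ha, F, G, hG, e⟩ ⟨hb, F', G', hG', e'⟩
        refine ⟨add_mem ha hb, F * G' + F' * G, G * G',
          by rw [map_mul]; exact mul_not V hG hG', ?_⟩
        have := add_mem (nmul V (hm G') e) (nmul V (hm G) e')
        rw [map_add, map_mul, map_mul, map_mul]
        exact of_eq V this (by ring)
      zero_mem' := by simpa using hp 0
      neg_mem' := by
        rintro a ⟨ha, F, G, hG, e⟩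
        refine ⟨neg_mem ha, -F, G, hG, ?_⟩
        have := neg_mem e
        rw [map_neg]
        exact of_eq V this (by ring) }
  refine ⟨S, fun _ => Iff.rfl, ⟨fun γ h => h.1, ?_⟩, fun γ h => ?_, fun o => ?_, fun k => ?_⟩
  · rintro γ ⟨-, F, G, hG, e⟩ hγ
    have h1 := hγ
    rw [V.mem_nonunits_iff_or, not_or, not_not] at h1
    refine ⟨h1.2, G, F, fun hF => mul_not V hγ hG ?_, ?_⟩
    · simpa using add_mem e hF
    · have := neg_mem (nmul V h1.2 e)
      have e2 : -(γ⁻¹ * (γ * aeval y G - aeval y F)) = γ⁻¹ * aeval y F - aeval y G := by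
        have := h1.1
        field_simp
        ring
      exact e2 ▸ this
  · exact ⟨V.nonunits_subset h, 0, 1, by rw [map_one]; exact one_not V, by simpa using h⟩
  · have := hp (C o)
    rwa [aeval_C] at this
  · have := hp (X k)
    rwa [aeval_X] at this

end

theorem trd {O K ν σ : Type} [CommRing O] [IsDomain O] [IsDiscreteValuationRing O] [Field K]
    [Algebra O K] [Fintype ν] [Fintype σ] (π : O) (V : ValuationSubring K) (t : σ → K)
    (y : ν → K) (hπ : Irreducible π) (hO : ∀ o, algebraMap O K o ∈ V)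
    (hπV : algebraMap O K π ∈ V.nonunits) (htV : ∀ p, t p ∈ V) (hyV : ∀ k, y k ∈ V)
    (hind : RI π V t) (hr : ∀ p, RR O V y (t p)) :
    Fintype.card σ ≤ Fintype.card ν ∧ (Fintype.card ν ≤ Fintype.card σ → RI π V y) := by
  have hmax : ∀ o, o ∈ maximalIdeal O ↔ π ∣ o := fun o => by
    rw [hπ.maximalIdeal_eq, Ideal.mem_span_singleton]
  let : Algebra O V := ((algebraMap O K).codRestrict V hO).toAlgebra
  have : IsScalarTower O V K := IsScalarTower.of_algebraMap_eq fun _ => rfl
  have hπm : algebraMap O V π ∈ maximalIdeal V := V.coe_mem_nonunits_iff.1 hπV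
  have : IsLocalHom (algebraMap O V) := ⟨fun o ho => by
    by_contra h
    obtain ⟨o', rfl⟩ := (hmax o).1 h
    rw [map_mul] at ho
    exact hπm (isUnit_of_mul_isUnit_left ho)⟩
  let y' : ν → V := fun p => ⟨_, hyV p⟩
  let t' : σ → V := fun p => ⟨_, htV p⟩
  have hy : ∀ F : MvPolynomial ν O, ((aeval y' F : V) : K) = aeval y F := fun F =>
    (aeval_algebraMap_apply K y' F).symm
  have ht : ∀ F : MvPolynomial σ O, ((aeval t' F : V) : K) = aeval t F := fun F =>
    (aeval_algebraMap_apply K t' F).symm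
  have hd : ∀ {ι : Type} (F : MvPolynomial ι O), C π ∣ F ↔ map (residue O) F = 0 := fun F =>
    C_dvd_iff_map_hom_eq_zero _ _ (fun o => (residue_eq_zero_iff o).trans (hmax o)) F
  have h1 : AlgebraicIndependent (ResidueField O) fun p => residue V (t' p) := by
    rw [algebraicIndependent_iff]
    intro P hP
    obtain ⟨P, rfl⟩ := map_surjective (residue O) residue_surjective P
    rw [← VerbA.residue_aeval, residue_eq_zero_iff, ← V.coe_mem_nonunits_iff, ht] at hP
    exact (hd P).1 (hind P hP)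
  obtain ⟨h2, h3⟩ := card_le _ (fun k => residue V (y' k)) h1 fun p => by
    obtain ⟨F, G, hG, e⟩ := hr p
    refine ⟨map (residue O) F, map (residue O) G, ?_, ?_⟩
    · rwa [← VerbA.residue_aeval, Ne, residue_eq_zero_iff, ← V.coe_mem_nonunits_iff, hy]
    · rw [← VerbA.residue_aeval, ← VerbA.residue_aeval, ← map_mul, ← sub_eq_zero, ← map_sub,
        residue_eq_zero_iff, ← V.coe_mem_nonunits_iff]
      rw [← hy, ← hy] at e
      exact e
  refine ⟨h2, fun hc F hF => ?_⟩
  rw [hd]
  refine algebraicIndependent_iff.1 (h3 hc) _ ?_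
  rwa [← VerbA.residue_aeval, residue_eq_zero_iff, ← V.coe_mem_nonunits_iff, hy]

theorem gauss {O K ν : Type} [CommRing O] [IsDomain O] [IsDiscreteValuationRing O] [Field K]
    [Algebra O K] (π : O) (V : ValuationSubring K) (y : ν → K) (hπ : Irreducible π)
    (hinj : Function.Injective (algebraMap O K)) (hO : ∀ o, algebraMap O K o ∈ V)
    (hπV : algebraMap O K π ∈ V.nonunits) (hyV : ∀ k, y k ∈ V) (hind : RI π V y) (hg : Gen O y)
    (γ : K) (hγ : γ ∈ V) : ∃ F G : MvPolynomial ν O, aeval y G ≠ 0 ∧ (aeval y G)⁻¹ ∈ V ∧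
      γ * aeval y G = aeval y F := by
  have h0 : algebraMap O K π ≠ 0 := (map_ne_zero_iff _ hinj).2 hπ.ne_zero
  have key : ∀ F : MvPolynomial ν O, ¬ C π ∣ F → aeval y F ≠ 0 ∧ (aeval y F)⁻¹ ∈ V := by
    intro F hF
    have h1 := mt (hind F) hF
    rwa [V.mem_nonunits_iff_or, not_or, not_not] at h1
  obtain ⟨F, G, hG, hFG⟩ := hg γ
  by_cases hF : F = 0
  · refine ⟨0, 1, by simp, by simp, ?_⟩
    rw [hF, map_zero] at hFG
    simp [(mul_eq_zero.1 hFG).resolve_right hG]
  have hG0 : G ≠ 0 := fun h => hG (by rw [h, map_zero])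
  have pw : ∀ F : MvPolynomial ν O, F ≠ 0 →
      ∃ (a : ℕ) (F1 : MvPolynomial ν O), ¬ C π ∣ F1 ∧ F = C π ^ a * F1 := by
    intro F hF
    have hu : ¬ IsUnit (C π : MvPolynomial ν O) := fun h =>
      hπ.not_isUnit (by simpa using h.map constantCoeff)
    exact WfDvdMonoid.max_power_factor' hF hu
  obtain ⟨a, F1, hF1, rfl⟩ := pw F hF
  obtain ⟨b, G1, hG1, rfl⟩ := pw G hG0
  obtain ⟨f0, f1⟩ := key F1 hF1
  obtain ⟨g0, g1⟩ := key G1 hG1
  simp only [map_mul, map_pow, aeval_C] at hFG
  rcases le_or_gt b a with hab | hab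
  · obtain ⟨k, rfl⟩ := Nat.exists_eq_add_of_le hab
    refine ⟨C π ^ k * F1, G1, g0, g1, mul_left_cancel₀ (pow_ne_zero b h0) ?_⟩
    simp only [map_mul, map_pow, aeval_C]
    linear_combination hFG
  · exfalso
    obtain ⟨k, rfl⟩ := Nat.exists_eq_add_of_lt hab
    rcases (V.mem_nonunits_iff_or).1 hπV with h | h
    · exact h0 h
    refine h ?_
    have e1 : (algebraMap O K π)⁻¹ = γ * algebraMap O K π ^ k * aeval y G1 * (aeval y F1)⁻¹ := by
      field_simp
      apply mul_left_cancel₀ (pow_ne_zero a h0)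
      linear_combination -hFG
    rw [e1]
    exact mul_mem (mul_mem (mul_mem hγ (pow_mem (hO π) _)) (aeval_mem V y hO hyV G1)) f1

end TrdA

theorem trd (hg : S_gen) : S_trd where
  rr := fun V y => TrdA.rr V y
  trd := TrdA.trd
  gauss := TrdA.gauss

end Pool.Agent.P.MP_e7d440_ag.U
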