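import Pool.Agent.P.MP_e7d440_ag.U.Iface4
import Pool.Agent.P.MP_e7d440_ag.U.Gen
import Pool.Agent.P.MP_e7d440_ag.U.Trd

/-! Charts at vertical and at horizontal primes. -/

namespace Pool.Agent.P.MP_e7d440_ag.U

open TensorProduct LieAlgebra LaurentPolynomial Set

variable {L Φ Δ : Type} [LieRing L] [LieAlgebra ℚ L] [Fintype Φ] [Fintype Δ] [DecidableEq Φ]
  [DecidableEq Δ] {c : CD L Φ Δ}

namespace VertA

variable {O K J : Type} [CommRing O] [Field K] [Algebra O K]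

omit [Fintype Φ] [Fintype Δ] [DecidableEq Φ] [DecidableEq Δ] in
lemma pt [CharZero K] [Fintype J] [DecidableEq J] {ζ : O} {s : J → O} (h : c.OD ζ s)
    (hi : Function.Injective (algebraMap O K)) :
    c.Pt (algebraMap O K ζ) fun j => algebraMap O K (s j) :=
  ⟨h.prim.map_of_injective hi, fun j => (map_ne_zero_iff _ hi).2 (h.ne j), fun i j e =>
    h.inj (hi (by simpa using e))⟩

omit [Fintype Φ] [Fintype Δ] [DecidableEq Φ] [DecidableEq Δ] in
lemma sd [CharZero K] {ζ : O} {s : J → O} (h : c.OD ζ s) {S : Subring K}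
    (hS : ∀ o, algebraMap O K o ∈ S) : c.SD (algebraMap O K ζ) S := by
  refine ⟨hS _, ?_⟩
  obtain ⟨u, hu⟩ := h.unit
  have : ((c.ℓ : K))⁻¹ = algebraMap O K (↑u⁻¹ : O) := by
    refine inv_eq_of_mul_eq_one_right ?_
    rw [← map_natCast (algebraMap O K), ← hu, ← map_mul]
    simp
  rw [this]
  exact hS _

lemma gen_of [CharZero K] {ν : Type} {U : J → Submodule K (G L K)} (h : c.GenPt O U) (y : ν → K)
    (hy : ∀ S : Subfield K, (∀ o, algebraMap O K o ∈ S) → (∀ k, y k ∈ S) →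
      ∀ j, c.Def0 S (U j)) : Gen O y :=
  (gen.clos y).2 (h _ (fun o => Subfield.subset_closure (Or.inl ⟨o, rfl⟩))
    (hy _ (fun o => Subfield.subset_closure (Or.inl ⟨o, rfl⟩))
      fun k => Subfield.subset_closure (Or.inr ⟨k, rfl⟩)))

omit [Fintype Φ] [Fintype Δ] [DecidableEq Φ] [DecidableEq Δ] in
lemma hd [CharZero O] [CharZero K] [Fintype J] [DecidableEq J] {ζ : O} {s : J → O}
    {S : Subring K}
    (hS : ∀ o, algebraMap O K o ∈ S) (hS' : ∀ o, (algebraMap O K o)⁻¹ ∈ S) :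
    c.HD (algebraMap O K ζ) (fun j => algebraMap O K (s j)) S := by
  refine ⟨fun q => ?_, hS _, fun j => hS _, fun j => hS' _, fun i j => ?_⟩
  · rw [Rat.cast_def, div_eq_mul_inv, ← map_natCast (algebraMap O K)]
    exact S.mul_mem (intCast_mem S _) (hS' _)
  · have := hS' (s i ^ c.ℓ - s j ^ c.ℓ)
    simpa using this

lemma val_sq (V : ValuationSubring K) {γ : K} (h : γ ^ 2 ∈ V) : γ ∈ V := by
  rw [← V.valuation_le_one_iff] at h ⊢
  rw [map_pow] at h
  exact (pow_le_one_iff two_ne_zero).1 h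

end VertA

open VertA in
theorem vert (h : TA c) : S_vert c := by
  intro O K J ι _ _ _ _ _ _ _ _ _ π ζ s μ r₀ X d D t ν x r C V p hπ hinj hO hCo hd hG hL hCl hCh
    hGV hOV hπV harch hp hRI
  have T := h K _ J _ (pt hO hinj)
  set ζ' := algebraMap O K ζ
  set s' := fun j => algebraMap O K (s j)
  have hsV : ∀ j, s' j ∈ V := fun j => hOV _
  have hs : ∀ j, ∃ o, s j = π * o := fun j => by
    have : s j ∈ IsLocalRing.maximalIdeal O := hO.nonunit j
    rw [hπ.maximalIdeal_eq, Ideal.mem_span_singleton] at this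
    exact this
  have hVD : c.VD ζ' s' V := by
    refine ⟨sd hO hOV, fun j => ?_, fun γ j => ?_⟩
    · obtain ⟨o, e⟩ := hs j
      have := (SM.nonunits V).mul _ (hOV o) _ hπV
      simpa [s', e, mul_comm] using this
    · obtain ⟨o, e⟩ := hs j
      obtain ⟨M, hM⟩ := harch γ
      refine ⟨M, ?_⟩
      have := V.mul_mem _ _ (V.pow_mem (hOV o) M) hM
      convert this using 1
      simp only [s', e, map_mul]
      ring
  have hMin := hCo.2.2.1
  have hrr : ∀ {n : ℕ} (a : Fin n → Φ × ℤ) (y : Fin n → K), (∀ k, y k ∈ V) →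
      (∀ i, ∃ x', c.Fix x' ∧ c.Red ζ' s' V (c.cell μ X) (c.pE ζ' a y) (x i) x') →
      d ≤ n ∧ (n ≤ d → RI π V y) := by
    intro n a y hy hR
    obtain ⟨S, h1, h2, h3, h4, h5⟩ := (trd gen).rr (O := O) V y hOV hy
    have := (trd gen).trd π V p y hπ hOV hπV (fun k => by
      obtain ⟨i, hi⟩ := hp k
      exact hGV i hi) hy hRI fun k => by
      obtain ⟨i, hi⟩ := hp k
      obtain ⟨x', hx', hr⟩ := hR i
      exact ((h1 _).1 (T.chs.chs S V _ _ _ _ _ _ h2 h3 (sd hO h4) (fun j => h4 _) (hCl i).1 hx' hr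
        (fun f hf hin => (T.la.int_pf S S a y 0 (sd hO h4) (SM.self S) h5 f hf).2 hin) (hCh i)
        (hGV i) hi)).2
    simpa using this
  obtain ⟨z, n, a, y, hz, hg, hy, hHi, hR⟩ := T.bru V μ r₀ X hVD hCo
  have hdn := (hrr a y hy fun i => hR _ (hCl i)).1
  obtain ⟨lam, r', y', X', hCo', hn, hU, hU'⟩ := T.rank V (c.cell μ X) z n a
    (fun j => (T.fd.cell μ X j (hMin j)).1) hz hg hHi (by
      rw [T.leg.rank_cell μ X hMin, ← hd]; exact hdn)
  have hMin' := hCo'.2.2.1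
  have hnd : n = d := by
    rw [hn, ← T.leg.rank_cell lam X' hMin', ← hU', T.leg.rank_cell μ X hMin, hd]
  subst hnd
  obtain ⟨hz', hy'⟩ := T.top V lam z n a y' hVD.sd hsV hMin' hz hg (hU ▸ hHi)
  subst hz'
  have hRI' := (hrr a y' hy' fun i => ⟨x i + c.bar lam,
    (hCl i).1.add (T.orb.bar_fix lam fun j => (hMin' j).1), hU ▸ T.red.chart V lam a y' (x i) hVD
      hMin' hy' (fun k => (T.gal.mem _ _ _ _ hz hg k).2.1) (hCl i)⟩).2 le_rfl
  have hGen : Gen O y' := gen_of hG y' fun S h1 h2 j =>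
    hU ▸ T.leg.def_pU S a y' lam (h1 _) (fun j => h1 _) h2 j
  refine ⟨y', hy', (trd gen).gauss π V y' hπ hinj hOV hπV hy' hRI' hGen, val_sq V ?_⟩
  obtain ⟨w, hw, e⟩ := T.verw D ν lam r' a y' V.toSubring hCo' hg
    (fun i => (D i).map_algebraMap _) (fun i j => (D i).map_algebraMap _) (hU ▸ hL.vol) hVD.sd hsV
    hy'
  obtain ⟨o, ho⟩ := hL.dvd lam r' X' hCo' hU'
  rw [(T.count.count lam r' _ n a hCo' (Or.inl rfl) hg).2, ho, ← mul_assoc] at e
  rw [mul_right_cancel₀ (Rat.cast_ne_zero.2 hL.nu) e]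
  exact V.mul_mem _ _ hw (hOV o)

open VertA in
theorem horz (h : TA c) : S_horz c := by
  intro O K J ι _ _ _ _ _ _ _ _ _ _ π ζ s μ r₀ X d D t ν x r C R V hπ hO hCo hdd hI hG hL hx hCh
    hGR hRV hOR hπR
  have hinj := hI.algebraMap_injective
  have T := h K _ J _ (pt hO hinj)
  have hMin := hCo.2.2.1
  have hinv : ∀ o, (algebraMap O K o)⁻¹ ∈ R := fun o => by
    by_cases h0 : o = 0
    · simp [h0]
    obtain ⟨n, u, rfl⟩ := IsDiscreteValuationRing.eq_unit_mul_pow_irreducible h0 hπ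
    have : (algebraMap O K (u : O))⁻¹ = algebraMap O K (↑u⁻¹ : O) :=
      inv_eq_of_mul_eq_one_right (by rw [← map_mul]; simp)
    rw [map_mul, map_pow, mul_inv, this, ← inv_pow]
    exact R.mul_mem (hOR _) (R.pow_mem hπR n)
  have hR : c.HD (algebraMap O K ζ) (fun j => algebraMap O K (s j)) R := hd hOR hinv
  have hV : c.HD (algebraMap O K ζ) (fun j => algebraMap O K (s j)) V.toSubring :=
    hd (fun o => hRV.le _ (hOR o)) fun o => hRV.le _ (hinv o)
  obtain ⟨i₀⟩ := ‹Nonempty ι›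
  obtain ⟨lam, X', hMin', hU, hX⟩ := T.hor.h1 R V _ _ _ _ hRV hR
    (fun j => (T.fd.cell μ X j (hMin j)).1) (hx i₀) (hCh i₀) (hGR i₀)
  have hc : Fintype.card (c.Id lam) = d := by
    rw [← T.leg.rank_cell lam X' hMin', ← hU, T.leg.rank_cell μ X hMin, hdd]
  let e : Fin d ≃ c.Id lam := (Fintype.equivFinOfCardEq hc).symm
  have hGen : Gen O fun k => X' (e k) := gen_of hG _ fun S h1 h2 =>
    hU ▸ (T.leg.def_cell S lam X' hMin').2 fun p => by simpa using h2 (e.symm p)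
  have hI' := gen.indep _ X hGen hI (by simp [hdd])
  obtain ⟨S, hS1, hS2⟩ := gen.norm _ R hGen hI' hOR fun k => hX _
  have hO1 : ∀ o, algebraMap O K o ∈ S := fun o =>
    (hS1 _).2 ⟨MvPolynomial.C o, 1, by simp, by simpa using R.one_mem, by simp⟩
  have hO2 : ∀ o, (algebraMap O K o)⁻¹ ∈ S := fun o => by
    by_cases h0 : o = 0
    · simp [h0]
    have h1 : algebraMap O K o ≠ 0 := (map_ne_zero_iff _ hinj).2 h0
    exact (hS1 _).2 ⟨1, MvPolynomial.C o, by simpa using h1, by simpa using hinv o, by simp [h1]⟩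
  have hae : ∀ F : MvPolynomial (Fin d) O, MvPolynomial.aeval (fun k => X' (e k)) F ∈ R :=
    fun F => by
      induction F using MvPolynomial.induction_on with
      | C o => simpa using hOR o
      | add F G h1 h2 => rw [map_add]; exact R.add_mem h1 h2
      | mul_X F k h1 => rw [map_mul, MvPolynomial.aeval_X]; exact R.mul_mem h1 (hX _)
  have hSR : ∀ γ ∈ S, γ ∈ R := fun γ hγ => by
    obtain ⟨F, G, h1, h2, h3⟩ := (hS1 γ).1 hγ
    rw [(eq_mul_inv_iff_mul_eq₀ h1).2 h3]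
    exact R.mul_mem (hae F) h2
  have hSV : Dom S V := ⟨fun γ hγ => hRV.le _ (hSR γ hγ), fun γ hγ hn => by
    obtain ⟨F, G, h1, h2, h3⟩ := (hS1 γ).1 hγ
    have h0 : γ ≠ 0 := fun h0 => hn (h0 ▸ V.nonunits.zero_mem)
    refine (hS1 _).2 ⟨G, F, h3 ▸ mul_ne_zero h0 h1, ?_, ?_⟩
    · rw [← h3, mul_inv]
      exact R.mul_mem (hRV.inv _ (hSR γ hγ) hn) h2
    · rw [← h3, inv_mul_cancel_left₀ h0]⟩
  have hXS : ∀ p, X' p ∈ S := fun p => (hS1 _).2
    ⟨MvPolynomial.X (e.symm p), 1, by simp, by simpa using R.one_mem, by simp⟩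
  refine ⟨fun k => X' (e k), fun k => hX _, fun γ hγ => (hS1 γ).1 (hS2 γ ?_),
    T.horw D ν lam X' e R hL.nu hMin' (hU ▸ hL.vol) hR hX⟩
  have hle : ∀ a : Algebra.adjoin O {g | ∃ i, g ∈ c.Gens (algebraMap O K ζ)
      (fun j => algebraMap O K (s j)) (c.cell μ X) (x i) (r i) (C i)}, (a : K) ∈ S := by
    rintro ⟨a, ha⟩
    induction ha using Algebra.adjoin_induction with
    | mem g hg =>
      obtain ⟨i, hi⟩ := hg
      have := T.hor.h2 S V lam X' (x i) (r i) (C i) hSV (hd hO1 hO2) hV hMin' hXS (hx i)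
        (hU ▸ hCh i) (hU ▸ fun g hg => hRV.le _ (hGR i hg))
      exact this (hU ▸ hi)
    | algebraMap o => exact hO1 o
    | add a b _ _ h1 h2 => exact S.add_mem h1 h2
    | mul a b _ _ h1 h2 => exact S.mul_mem h1 h2
  exact IsIntegral.map_of_comp_eq ((Subalgebra.val _).toRingHom.codRestrict S hle)
    (RingHom.id K) (RingHom.ext fun _ => rfl) hγ

end Pool.Agent.P.MP_e7d440_ag.U
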