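import Pool.Agent.P.MP_e7d440_ag.U.IfaceC
import Pool.Agent.P.MP_e7d440_ag.Basic
import Pool.Agent.P.MP_e7d440_ag.Val

/-! Jacobians of local functions, Hartogs in a localization, the height of a kernel. -/

namespace Pool.Agent.P.MP_e7d440_ag.U

open IsLocalRing MvPolynomial

namespace WlocA

lemma wr_update {O L ι : Type} [CommRing O] [Field L] [Algebra O L] [Fintype ι] [DecidableEq ι]
    (D : ι → Derivation O L L) (y : ι → L) (b : ι) (x : L) :
    wr D (Function.update y b x) =
      ((Matrix.of fun b a => D a (y b)).updateRow b fun a => D a x).det := by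
  unfold wr
  congr 1
  ext i j
  by_cases h : i = b
  · subst h; simp
  · simp [Matrix.updateRow_ne h, Function.update_of_ne h]

lemma wr_split {O L ι : Type} [CommRing O] [Field L] [Algebra O L] [Fintype ι] [DecidableEq ι]
    (D : ι → Derivation O L L) (y : ι → L) (b : ι) (x t : L) (ht : t ≠ 0) (e : y b * t = x) :
    wr D y = t⁻¹ * wr D (Function.update y b x) +
      (-1 * y b * t⁻¹) * wr D (Function.update y b t) := by
  rw [wr_update, wr_update, ← Matrix.det_updateRow_smul, ← Matrix.det_updateRow_smul,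
    ← Matrix.det_updateRow_add]
  conv_lhs => rw [← Function.update_eq_self b y, wr_update]
  congr 2
  ext a
  rw [← e]
  simp only [Pi.add_apply, Pi.smul_apply, smul_eq_mul, Derivation.leibniz]
  field_simp
  ring

lemma ht_le {R κ : Type} [CommRing R] [IsDomain R] [Fintype κ] (P : Ideal (MvPolynomial κ R))
    [hP : P.IsPrime] (h : ∀ r : R, C r ∈ P → r = 0) : P.height ≤ Fintype.card κ := by
  let K := FractionRing R
  let : Algebra (MvPolynomial κ R) (MvPolynomial κ K) := MvPolynomial.algebraMvPolynomial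
  have hl := MvPolynomial.isLocalization (σ := κ) (nonZeroDivisors R) K
  have hd : Disjoint (((nonZeroDivisors R).map (C (σ := κ)) : Submonoid (MvPolynomial κ R)) :
      Set (MvPolynomial κ R)) (P : Set (MvPolynomial κ R)) := by
    rw [Set.disjoint_left]
    rintro _ ⟨r, hr, rfl⟩ hm
    exact nonZeroDivisors.ne_zero hr (h r hm)
  have h1 := IsLocalization.height_map_of_disjoint (S := MvPolynomial κ K) _ P hd
  have h2 := IsLocalization.isPrime_of_isPrime_disjoint _ (MvPolynomial κ K) P hP hd
  have h3 := Ideal.height_le_ringKrullDim_of_ne_top h2.ne_top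
  rw [h1, MvPolynomial.ringKrullDim_of_isNoetherianRing, ringKrullDim_eq_zero_of_field, zero_add,
    Nat.card_eq_fintype_card] at h3
  exact_mod_cast h3

end WlocA

open WlocA

theorem wloc : S_wloc := by
  intro O Q L ι _ _ _ _ _ _ φ D 𝔓 hP hk θ p g₀ hg y hy hy'
  classical
  have key : ∀ s : Finset ι, ∀ g : ι → Q, (∀ b, ¬ p b → g b = g₀ b) → ∀ y : ι → L,
      (∀ b ∈ s, p b ∧ loc φ 𝔓 (y b)) → (∀ b, b ∉ s → y b = φ (g b)) →
      loc φ 𝔓 (wr D y * θ) := by
    intro s
    induction s using Finset.induction_on with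
    | empty =>
      intro g hg' y _ h2
      have : y = fun b => φ (g b) := funext fun b => h2 b (by simp)
      rw [this]
      exact hg g hg'
    | insert b s hb ih =>
      intro g hg' y h1 h2
      obtain ⟨hpb, hl⟩ := h1 b (Finset.mem_insert_self _ _)
      have aux : ∀ x : Q, loc φ 𝔓 (wr D (Function.update y b (φ x)) * θ) := fun x => by
        refine ih (Function.update g b x) (fun c hc => ?_) _ (fun c hc => ?_) fun c hc => ?_
        · have : c ≠ b := fun h => hc (h ▸ hpb)
          rw [Function.update_of_ne this]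
          exact hg' c hc
        · have : c ≠ b := fun h => hb (h ▸ hc)
          rw [Function.update_of_ne this]
          exact h1 c (Finset.mem_insert_of_mem hc)
        · by_cases h : c = b
          · subst h; simp
          · rw [Function.update_of_ne h, Function.update_of_ne h]
            exact h2 c (by simp [h, hc])
      obtain ⟨a, t, ht, e⟩ := id hl
      have ht0 : φ t ≠ 0 := fun h0 => ht (hk h0)
      rw [wr_split D y b (φ a) (φ t) ht0 e, add_mul, mul_assoc, mul_assoc _ _ θ]
      have hm : loc φ 𝔓 (-1) := by simpa using loc_map φ hP (-1)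
      exact ((loc_inv φ hk ht).mul hP (aux a)).add hP
        (((hm.mul hP hl).mul hP (loc_inv φ hk ht)).mul hP (aux t))
  refine key (Finset.univ.filter p) g₀ (fun _ _ => rfl) y (fun b hb => ?_) fun b hb => ?_
  · have := (Finset.mem_filter.1 hb).2
    exact ⟨this, hy b this⟩
  · exact hy' b fun h => hb (by simp [h])

theorem hloc : S_hloc where
  hart := by
    intro A K _ _ _ _ _ _ _ 𝔭 hp γ h
    let I : Ideal A :=
      { carrier := {r | ∃ a, algebraMap A K r * γ = algebraMap A K a}
        add_mem' := by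
          rintro r s ⟨a, ha⟩ ⟨b, hb⟩
          exact ⟨a + b, by rw [map_add, map_add, add_mul, ha, hb]⟩
        zero_mem' := ⟨0, by simp⟩
        smul_mem' := by
          rintro c r ⟨a, ha⟩
          exact ⟨c * a, by rw [smul_eq_mul, map_mul, map_mul, mul_assoc, ha]⟩ }
    have hI : I ≠ ⊥ := by
      obtain ⟨⟨a, b⟩, hab⟩ := IsLocalization.surj (nonZeroDivisors A) γ
      exact (Submodule.ne_bot_iff _).2 ⟨b, ⟨a, by rw [mul_comm]; exact hab⟩,
        nonZeroDivisors.ne_zero b.2⟩
    by_cases hle : I ≤ 𝔭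
    · obtain ⟨𝔮, hq, hqp⟩ := Ideal.exists_minimalPrimes_le hle
      obtain ⟨hq', g, hg⟩ := basic.minAss hq
      have h1 : Ideal.height 𝔮 = 1 := by
        refine ValA.height_one hq' (fun h0 => hI (eq_bot_iff.2 (h0 ▸ hq.1.2)))
          (algebraMap A K g * γ) fun r => ?_
        rw [hg, ← mul_assoc, ← map_mul]
        rfl
      obtain ⟨a, b, hb, e⟩ := h 𝔮 hq' h1 hqp
      exact absurd (hq.1.2 ⟨a, by rw [mul_comm]; exact e⟩) hb
    · obtain ⟨b, ⟨a, ha⟩, hb⟩ := Set.not_subset.1 hle
      exact ⟨a, b, hb, by rw [mul_comm]; exact ha⟩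
  arch := by
    intro A K _ _ _ _ _ _ 𝔮 hq h1 t ht γ
    obtain ⟨⟨a, b⟩, hab⟩ := IsLocalization.surj (nonZeroDivisors A) γ
    have hb0 : (b : A) ≠ 0 := nonZeroDivisors.ne_zero b.2
    let S : Submonoid A :=
      { carrier := {x | ∃ s, s ∉ 𝔮 ∧ ∃ M : ℕ, x = s * t ^ M}
        mul_mem' := by
          rintro _ _ ⟨s, hs, M, rfl⟩ ⟨s', hs', M', rfl⟩
          exact ⟨s * s', fun hm => (hq.mem_or_mem hm).elim hs hs', M + M', by ring⟩
        one_mem' := ⟨1, fun h => hq.ne_top ((Ideal.eq_top_iff_one _).2 h), 0, by simp⟩ }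
    by_cases hd : Disjoint ((Ideal.span {(b : A)} : Ideal A) : Set A) S
    · obtain ⟨P, hP, hbP, hPS⟩ := Ideal.exists_le_prime_disjoint _ S hd
      have hPq : P ≤ 𝔮 := fun x hx => by
        by_contra hx'
        exact Set.disjoint_left.1 hPS hx ⟨x, hx', 0, by simp⟩
      have hP0 : P ≠ ⊥ := fun h0 => hb0 (by
        have := hbP (Ideal.mem_span_singleton_self (b : A))
        rwa [h0] at this)
      have hne : P ≠ 𝔮 := fun h0 => Set.disjoint_left.1 hPS (h0 ▸ ht : t ∈ P)
        ⟨1, fun h => hq.ne_top ((Ideal.eq_top_iff_one _).2 h), 1, by simp⟩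
      have h2 := Ideal.height_strict_mono_of_isPrime (lt_of_le_of_ne hPq hne)
      rw [h1, Order.lt_one_iff] at h2
      exact absurd (Ideal.height_eq_zero_iff_eq_bot.1 h2) hP0
    · obtain ⟨x, hx, s, hs, M, rfl⟩ := Set.not_disjoint_iff.1 hd
      obtain ⟨c, hc⟩ := Ideal.mem_span_singleton'.1 hx
      refine ⟨M, c * a, s, hs, ?_⟩
      have e : algebraMap A K c * algebraMap A K b = algebraMap A K s * algebraMap A K t ^ M := by
        rw [← map_pow, ← map_mul, ← map_mul, hc]
      simp only at hab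
      rw [map_mul, ← hab]
      linear_combination (-γ) * e

theorem gen2 : S_gen2 := by
  intro O ν ι κ F _ _ _ _ _ _ _ _ e 𝔫 _ χ v hv hi
  rw [← IsLocalization.height_under 𝔫.primeCompl]
  let E : MvPolynomial κ (MvPolynomial ι O) ≃ₐ[O] MvPolynomial ν O :=
    (sumAlgEquiv O κ ι).symm.trans (renameEquiv O ((Equiv.sumComm κ ι).trans e))
  rw [← RingEquiv.height_comap E.toRingEquiv]
  have hk : (RingHom.ker χ.toRingHom).IsPrime := RingHom.ker_isPrime _
  refine ht_le _ fun r hr => ?_
  have h1 : χ (algebraMap (MvPolynomial ν O) _ (E (C r))) = 0 := hr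
  have h2 : ((χ.comp (IsScalarTower.toAlgHom O (MvPolynomial ν O) _)).comp E.toAlgHom).comp
      (IsScalarTower.toAlgHom O (MvPolynomial ι O) (MvPolynomial κ (MvPolynomial ι O))) =
      aeval fun a => v (e (Sum.inl a)) := by
    ext i
    simp [E, hv]
  have h3 := DFunLike.congr_fun h2 r
  refine hi (a₁ := r) (a₂ := 0) ?_
  rw [← h3, map_zero]
  exact h1

end Pool.Agent.P.MP_e7d440_ag.U
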