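import Pool.Agent.P.MP_e7d440_ag.U.All2
import Pool.Agent.P.MP_e7d440_ag.U.Horv0
import Pool.Agent.P.MP_e7d440_ag.U.Horv
import Pool.Agent.P.MP_e7d440_ag.U.Tan
import Pool.Agent.P.MP_e7d440_ag.U.Dgp
import Pool.Agent.P.MP_e7d440_ag.U.Tor
import Pool.Agent.P.MP_e7d440_ag.U.Div
import Pool.Agent.P.MP_e7d440_ag.U.Int
import Pool.Agent.P.MP_e7d440_ag.U.Leg
import Pool.Agent.P.MP_e7d440_ag.U.Main
import Pool.Agent.P.MP_e7d440_ag.U.Det
import Pool.Agent.P.MP_e7d440_ag.U.Hat
import Pool.Agent.P.MP_e7d440_ag.U.Verw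
import Pool.Agent.P.MP_e7d440_ag.U.Bir
import Pool.Agent.P.MP_e7d440_ag.U.Stp2
import Pool.Agent.P.MP_e7d440_ag.U.Bru
import Pool.Agent.P.MP_e7d440_ag.U.Chs
import Pool.Agent.P.MP_e7d440_ag.U.Rank
import Pool.Agent.P.MP_e7d440_ag.U.Top2
import Pool.Agent.P.MP_e7d440_ag.U.Exl
import Pool.Agent.P.MP_e7d440_ag.U.Vert
import Pool.Agent.P.MP_e7d440_ag.U.Cy
import Pool.Agent.P.MP_e7d440_ag.U.Brg
import Pool.Agent.P.MP_e7d440_ag.U.Lat
import Pool.Agent.P.MP_e7d440_ag.U.Wloc
import Pool.Agent.P.MP_e7d440_ag.U.Gen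
import Pool.Agent.P.MP_e7d440_ag.U.Prim
import Pool.Agent.P.MP_e7d440_ag.U.Abb
import Pool.Agent.P.MP_e7d440_ag.U.CritA2
import Pool.Agent.P.MP_e7d440_ag.U.Crit2
import Pool.Agent.P.MP_e7d440_ag.U.Fin2
import Pool.Agent.P.MP_e7d440_ag.U.Desc
import Pool.Agent.P.MP_e7d440_ag.U.Final

/-! Assembly of all steps. -/

namespace Pool.Agent.P.MP_e7d440_ag.U

variable {L Φ Δ : Type} [LieRing L] [LieAlgebra ℚ L] [Fintype Φ] [Fintype Δ] [DecidableEq Φ]
  [DecidableEq Δ] (c : CD L Φ Δ)

theorem t3a {K : Type} [Field K] [CharZero K] (ζ : K) {J : Type} [Fintype J] [DecidableEq J]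
    (s : J → K) (hp : c.Pt ζ s) : T3a c ζ s := by
  have h0 := t0 c
  have h2 := t2 c ζ hp.prim
  have hf := h2.fd
  have hr : S_resd := resd
  have hv : ∀ (k : Type) [Field k] [CharZero k], S_horv0 c k := fun k _ _ => by
    have := (t1 c k).fix
    apply horv0 <;> assumption
  have a1 : S_dgp c ζ s := by apply dgp <;> assumption
  have a2 : S_tor c ζ s := by apply tor <;> assumption
  have a3 : S_div c ζ s := by apply div <;> assumption
  exact ⟨h2, hp, by apply horv <;> assumption, by apply tan <;> assumption, a1, a2, a3,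
    by apply int <;> assumption, by apply res <;> assumption, by apply leg <;> assumption⟩

theorem ta : TA c := fun K _ _ ζ J _ _ s hp => by
  have h := t3a c ζ s hp
  have a1 := main h
  have a2 : S_hat c ζ s := by apply hat; assumption
  have a3 : S_vb c ζ s := by apply vb; assumption
  have a4 : S_chs c ζ s := by apply chs; assumption
  exact ⟨h, by apply det <;> assumption, by apply horw; assumption,
    by apply verw <;> assumption, bir h, red h, bru h (base h) (step h), a4,
    by apply rank; assumption, by apply top; assumption, by apply hor <;> assumption⟩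

theorem cy' : S_cy c := by
  have h := ta c
  have h1 : S_log2 c := by apply log2; assumption
  have h2 : S_vert c := by apply vert; assumption
  have h3 : S_horz c := by apply horz; assumption
  have hr : S_resd := resd
  apply cy <;> assumption

theorem fin2' : S_fin2 :=
  fin2 (crit2 gen (prim gen) gen2 (critA2 (a1b hloc gen) (a2b wloc)))

end Pool.Agent.P.MP_e7d440_ag.U
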