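import Pool.Agent.P.MP_e7d440_ag.U.Iface2

/-! The Iwahori subgroup only depends on the alcove. -/

namespace Pool.Agent.P.MP_e7d440_ag.U

open TensorProduct LieAlgebra LaurentPolynomial Set

variable {L Φ Δ : Type} [LieRing L] [LieAlgebra ℚ L] [Fintype Φ] [Fintype Δ] [DecidableEq Φ]
  [DecidableEq Δ] (c : CD L Φ Δ) {K : Type} [Field K] [CharZero K] (ζ : K)

namespace Aut1A

/-- the degree and the restricted weight of a coordinate -/
def ty (a : ℤ × (Φ ⊕ Δ)) : ℤ × ({w // c.Fix w} → ℚ) := (a.1, fun w => c.wt0 w.1 a.2)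

/-- equivariant loops all of whose coordinates have the same type -/
def Pure (b : ℤ × (Φ ⊕ Δ)) (f : LG L K) : Prop :=
  f ∈ c.Eqv ζ ∧ ∀ a, c.co a f ≠ 0 → ty c a = ty c b

variable {c ζ} {ψ : LP K} {g : Op L K} {z z' : L} {a b : ℤ × (Φ ⊕ Δ)} {f : LG L K}

omit [Fintype Φ] [Fintype Δ] [DecidableEq Φ] [DecidableEq Δ] in
lemma ty_wt0 (e : ty c a = ty c b) (hz : c.Fix z) : c.wt0 z a.2 = c.wt0 z b.2 :=
  congrFun (congrArg Prod.snd e) ⟨z, hz⟩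

omit [Fintype Φ] [Fintype Δ] [DecidableEq Φ] [DecidableEq Δ] in
lemma ty_wt (e : ty c a = ty c b) (hz : c.Fix z) : c.wt z a = c.wt z b := by
  rw [CD.wt, CD.wt, ty_wt0 e hz, show a.1 = b.1 from (congrArg Prod.fst e :)]

omit [Fintype Φ] [Fintype Δ] [DecidableEq Φ] [DecidableEq Δ] in
lemma ty_of (e : ∀ w, c.Fix w → c.wt0 w a.2 = c.wt0 w b.2) (hz : c.Fix z)
    (e' : c.wt z a = c.wt z b) : ty c a = ty c b := by
  rw [CD.wt, CD.wt, e z hz, add_right_inj, Int.cast_inj] at e'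
  exact Prod.ext e' (funext fun w => e w.1 w.2)

lemma pure_pr (h : T2c c ζ) (hf : f ∈ c.Eqv ζ) (b : ℤ × (Φ ⊕ Δ)) :
    Pure c ζ b (c.pr (fun a => ty c a = ty c b) f) := by
  refine ⟨h.eqv.pr _ (fun m α => ?_) (fun m i i' => Iff.rfl) f hf, fun a ha => ?_⟩
  · have : ty c (m, .inl (c.ς α)) = ty c (m, .inl α) := Prod.ext rfl (funext fun w =>
      (h.cd.fix_al w.1 w.2 α (c.ς α) ⟨1, by simp⟩).symm)
    rw [this]
  · rw [c.co_pr] at ha
    exact by_contra fun e => ha (if_neg e)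

lemma key (h : T2c c ζ) (hg : c.Aut0 ζ ψ g z) (hf : Pure c ζ b f)
    (hh : ∀ w, c.Fix w → g (c0 _ w) - ψ.coeff 0 • c0 (LP K) w ∈ c.Sup z' (Ioi 0)) {r : ℚ}
    (h1 : g f ∈ c.Sup z' (Ici r)) (h2 : c.co a (g f) ≠ 0) (h3 : c.wt z' a = r) {w : L}
    (hw : c.Fix w) : c.wt0 w a.2 = c.wt0 w b.2 := by
  have e1 : ⁅c0 (LP K) w, f⁆ = (c.wt0 w b.2 : K) • f := c.ext1 fun a' => by
    rw [h.lp.co_c0 w hw.1, map_smul, smul_eq_mul]
    by_cases e : c.co a' f = 0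
    · rw [e, mul_zero, mul_zero]
    · rw [ty_wt0 (hf.2 a' e) hw]
  have z0 : ∀ f' : LG L K, f' ∈ c.Sup z' (Ioi r) → c.co a f' = 0 := fun f' hf' =>
    by_contra fun e => lt_irrefl r (h3 ▸ hf' a e)
  have e2 := z0 _ (h.sup.lie z' _ _ (Ioi r) _ _ (hh w hw) h1 fun p hp p' hp' => by
    simp only [mem_Ioi, mem_Ici] at *
    linarith)
  have e3 := z0 _ (h.sup.lead z' r ψ _ hg.pos h1)
  rw [sub_lie, hg.lie, e1, h.lp.op_smul, smul_comm, (h.lp.lie_smul _ _ _).1, map_sub, map_smul,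
    map_smul _ (ψ.coeff 0), h.lp.co_c0 w hw.1] at e2
  rw [map_sub, map_smul _ (ψ.coeff 0), sub_eq_zero] at e3
  rw [e3, smul_eq_mul, smul_eq_mul, smul_eq_mul] at e2
  have e4 : ((c.wt0 w b.2 : K) - c.wt0 w a.2) * (ψ.coeff 0 * c.co a (g f)) = 0 := by
    linear_combination e2
  exact (Rat.cast_injective (sub_eq_zero.1 ((mul_eq_zero.1 e4).resolve_right
    (mul_ne_zero hg.ne h2)))).symm

lemma lead (h : T2c c ζ) (hz : c.Fix z) (hg : c.Aut0 ζ ψ g z) (hf : Pure c ζ b f) :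
    g f ∈ c.Sup z (Ici (c.wt z b)) ∧ (f ≠ 0 → ∃ a, ty c a = ty c b ∧ c.co a (g f) ≠ 0) := by
  have h1 := (hg.fil (c.wt z b) f hf.1).2 fun a ha => (ty_wt (hf.2 a ha) hz).ge
  refine ⟨h1, fun hne => ?_⟩
  obtain ⟨r, -, a, ha, -⟩ := h.sup.low z f hne
  have h2 : g f ∉ c.Sup z (Ioi (c.wt z b)) := fun h2 =>
    (ty_wt (hf.2 a ha) hz).not_gt ((h.la.aut_gt ψ g z hg _ f hf.1).1 h2 a ha)
  rw [CD.mem_Sup] at h2
  push Not at h2
  obtain ⟨a', h3, h4⟩ := h2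
  have h5 : c.wt z a' = c.wt z b := le_antisymm (not_lt.1 h4) (h1 a' h3)
  exact ⟨a', ty_of (fun w hw => key h hg hf hg.hh h1 h3 h5 hw) hz h5, h3⟩

lemma low (h : T2c c ζ) (hz : c.Fix z) (hz' : c.Fix z') (hg : c.Aut0 ζ ψ g z) (hf : Pure c ζ b f)
    (hh : ∀ w, c.Fix w → g (c0 _ w) - ψ.coeff 0 • c0 (LP K) w ∈ c.Sup z' (Ioi 0)) :
    g f ∈ c.Sup z' (Ici (c.wt z' b)) := by
  by_cases hne : g f = 0
  · rw [hne]
    exact zero_mem _
  obtain ⟨r, h1, a, h2, h3⟩ := h.sup.low z' _ hne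
  refine c.Sup_mono (Ici_subset_Ici.2 ?_) h1
  have h4 : c.wt z b ≤ c.wt z a := (lead h hz hg hf).1 a h2
  rw [CD.wt, CD.wt, key h hg hf hh h1 h2 h3 hz] at h4
  rw [← h3, CD.wt, CD.wt, key h hg hf hh h1 h2 h3 hz']
  linarith

lemma tr (h : T2c c ζ) (hz : c.Fix z) (hz' : c.Fix z') (hg : c.Aut0 ζ ψ g z)
    (hh : ∀ w, c.Fix w → g (c0 _ w) - ψ.coeff 0 • c0 (LP K) w ∈ c.Sup z' (Ioi 0)) :
    c.Aut0 ζ ψ g z' := by
  refine ⟨hg.lie, hg.eqv, hg.pos, hg.ne, hh, fun r f hf => ⟨fun h1 => ?_, fun h1 => ?_⟩⟩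
  · by_cases hne : f = 0
    · rw [hne]
      exact zero_mem _
    obtain ⟨r0, h2, a1, h3, h4⟩ := h.sup.low z' _ hne
    refine c.Sup_mono (Ici_subset_Ici.2 ?_) h2
    have p1 := pure_pr h hf a1
    obtain ⟨a0, h5, h6⟩ := (lead h hz hg p1).2 fun e => h3 (by
      have := c.co_pr (fun a => ty c a = ty c a1) a1 f
      rw [e, map_zero, if_pos rfl] at this
      exact this.symm)
    have h7 : c.co a0 (g (f - c.pr (fun a => ty c a = ty c a1) f)) = 0 := by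
      refine h.sup.ind (ty c) (fun f' => c.co a0 (g f') = 0) (by simp)
        (fun f1 f2 e1 e2 => by rw [map_add, map_add, e1, e2, add_zero]) _ fun a ha => ?_
      have p2 := pure_pr h (sub_mem hf p1.1) a
      rw [map_sub, c.co_pr] at ha
      have n1 : ty c a ≠ ty c a1 := fun e => ha (by rw [if_pos e, sub_self])
      rw [if_neg n1, sub_zero] at ha
      by_contra n2
      have l1 := low h hz hz' hg p2 hh
      have e1 : c.wt z' a0 = c.wt z' a :=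
        le_antisymm (by rw [ty_wt h5 hz', h4]; exact h2 a ha) (l1 a0 n2)
      exact n1 ((ty_of (fun w hw => key h hg p2 hh l1 n2 e1 hw) hz' e1).symm.trans h5)
    rw [map_sub, map_sub, sub_eq_zero] at h7
    rw [← h4, ← ty_wt h5 hz']
    exact h1 a0 (h7 ▸ h6)
  · refine h.sup.ind (ty c) (fun f' => g f' ∈ c.Sup z' (Ici r)) (by simp)
      (fun f1 f2 e1 e2 => by rw [map_add]; exact add_mem e1 e2) _ fun a ha => ?_
    exact c.Sup_mono (Ici_subset_Ici.2 (h1 a ha)) (low h hz hz' hg (pure_pr h hf a) hh)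

lemma same (h : T2c c ζ) (hz : c.Fix z) (hz' : c.Fix z') (hs : c.Same ζ z z')
    (hg : c.Aut0 ζ ψ g z) : c.Aut0 ζ ψ g z' :=
  tr h hz hz' hg fun w hw => (h.wall.same_pos z z' hs _ (sub_mem (hg.eqv _ (h.eqv.c0 w hw.2))
    (Submodule.smul_mem _ _ (h.eqv.c0 w hw.2)))).1 (hg.hh w hw)

omit [DecidableEq Φ] [DecidableEq Δ] in
lemma limit {x d : L} {f1 f2 : LG L K} (H : ∀ ε : ℚ, 0 < ε → ε ≤ 1 → ∀ r,
    f1 ∈ c.Sup (x + ε • d) (Ici r) → f2 ∈ c.Sup (x + ε • d) (Ici r)) {r : ℚ}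
    (h1 : f1 ∈ c.Sup x (Ici r)) : f2 ∈ c.Sup x (Ici r) := by
  obtain ⟨B, hB⟩ := (Set.finite_range fun i => |c.wt0 d i|).bddAbove
  have hB : ∀ i, |c.wt0 d i| ≤ B := fun i => hB ⟨i, rfl⟩
  have e : ∀ (ε : ℚ) a, c.wt (x + ε • d) a = c.wt x a + ε * c.wt0 d a.2 := fun ε ⟨m, i⟩ => by
    rcases i with α | i <;> simp [CD.wt, CD.wt0, add_right_comm]
  intro a ha
  have B0 : 0 ≤ B := (abs_nonneg _).trans (hB a.2)
  refine mem_Ici.2 (le_of_forall_pos_le_add fun δ hδ => ?_)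
  have p : 0 < min 1 (δ / (2 * B + 1)) := lt_min one_pos (by positivity)
  have q : min 1 (δ / (2 * B + 1)) * (2 * B + 1) ≤ δ :=
    (le_div_iff₀ (by positivity)).1 (min_le_right _ _)
  have h2 := H _ p (min_le_left _ _) (r - min 1 (δ / (2 * B + 1)) * B) (fun a' ha' => by
    have h3 : r ≤ c.wt x a' := h1 a' ha'
    have h4 := mul_le_mul_of_nonneg_left (abs_le.1 (hB a'.2)).1 p.le
    rw [mem_Ici, e]
    linarith) a ha
  have h4 := mul_le_mul_of_nonneg_left (abs_le.1 (hB a.2)).2 p.le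
  rw [mem_Ici, e] at h2
  linarith

end Aut1A

open Aut1A in
theorem aut1 (h : T2c c ζ) : S_aut1 c ζ := by
  refine ⟨fun ψ g z z' hz hz' hg hh => tr h hz hz' hg hh,
    fun ψ g z z' hz hz' hs hg => same h hz hz' hs hg, fun ψ g z x hz hx hg r f hf => ?_⟩
  have A : ∀ ε : ℚ, 0 < ε → ε ≤ 1 → c.Aut0 ζ ψ g (x + ε • (z - x)) := fun ε h0 h1 =>
    same h hz.1 (hx.1.add ((hz.1.sub hx.1).smul ε)) (h.wall.same_of _ _ hz fun a ha hp => by
      have h2 := mul_nonneg (sub_nonneg.2 h1) (hx.2 a ha hp)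
      have h3 := mul_pos h0 hp
      simp only [CD.val, map_add, map_smul, map_sub, smul_eq_mul] at *
      linarith) hg
  have B : ∀ r, g f ∈ c.Sup x (Ici r) ↔ f ∈ c.Sup x (Ici r) := fun r =>
    ⟨limit fun ε h0 h1 r => ((A ε h0 h1).fil r f hf).1,
      limit fun ε h0 h1 r => ((A ε h0 h1).fil r f hf).2⟩
  refine ⟨B r, fun h1 => ?_, fun h1 => ?_⟩
  · obtain ⟨r', h2, h3⟩ := h.sup.gap_lo x r _ h1
    exact c.Sup_mono (Ici_subset_Ioi.2 h2) ((B r').1 h3)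
  · obtain ⟨r', h2, h3⟩ := h.sup.gap_lo x r _ h1
    exact c.Sup_mono (Ici_subset_Ioi.2 h2) ((B r').2 h3)

end Pool.Agent.P.MP_e7d440_ag.U
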