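import Pool.Agent.P.MP_e7d440_ag.U.Iface2

/-! Crossing one wall. -/

namespace Pool.Agent.P.MP_e7d440_ag.U

open TensorProduct LieAlgebra LaurentPolynomial Set

variable {L Φ Δ : Type} [LieRing L] [LieAlgebra ℚ L] [Fintype Φ] [Fintype Δ] [DecidableEq Φ]
  [DecidableEq Δ] (c : CD L Φ Δ) {K : Type} [Field K] [CharZero K] (ζ : K)

set_option linter.unusedSectionVars false

namespace Aut2A

variable {c ζ} {z z₁ x w w' : L} {b : Φ × ℤ} {ψ : LP K} {g : Op L K} {f f' : LG L K}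

lemma cE_sub (f f' : LG L K) : c.cE b (f - f') = c.cE b f - c.cE b f' := by
  simp only [CD.cE, map_sub, sub_div]

lemma cE_add (f f' : LG L K) : c.cE b (f + f') = c.cE b f + c.cE b f' := by
  simp only [CD.cE, map_add, add_div]

lemma cE_smul (t : K) (f : LG L K) : c.cE b (t • f) = t * c.cE b f := by
  simp only [CD.cE, map_smul, smul_eq_mul, mul_div_assoc]

lemma cE_P (hb : c.val b x ≤ 0) (hf : f ∈ c.Sup x (Ioi 0)) : c.cE b f = 0 := by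
  have : c.co (CD.ix b) f = 0 := by
    by_contra h
    exact absurd (hf _ h) (not_lt.2 hb)
  simp only [CD.cE, this, zero_div]

lemma cE_E (h : T2c c ζ) (hb : c.Valid ζ b) : c.cE b (c.E ζ b) = 1 := by
  simp only [CD.cE, h.rt1.co b hb]
  exact div_self (h.rt1.th_ne _).2.1

lemma cE_F (h : T2c c ζ) (b : Φ × ℤ) : c.cE b (c.F ζ b) = 0 := by
  have : c.co (CD.ix b) (c.F ζ b) = 0 := by
    by_contra h1
    exact h.rt1.not_sim_ng b (h.rt1.sim_symm _ _ ((h.rt1.ty_ix _ _).1 (h.rt1.ty _ _ h1)))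
  simp only [CD.cE, this, zero_div]

lemma cE_H (h : T2c c ζ) (hw : c.Fix w) : c.cE b (c0 (LP K) w) = 0 := by
  have : c.co (CD.ix b) (c0 (LP K) w) = 0 := by
    rw [h.lp.co_const, hw.1]
    simp
  simp only [CD.cE, this, zero_div]

lemma E_zero (h : T2c c ζ) (hx : c.Fix x) (hb : c.val b x = 0) : c.E ζ b ∈ c.Sup x {0} :=
  hb ▸ h.rt1.sup b x hx

lemma ge_of (hf : f ∈ c.Sup x {0}) : f ∈ c.Sup x (Ici 0) :=
  c.Sup_mono (by rintro _ rfl; exact le_refl (0 : ℚ)) hf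

lemma lie_P (h : T2c c ζ) {A A' : LG L K} (hA : A ∈ c.Sup x (Ici 0)) (hA' : A' ∈ c.Sup x (Ici 0))
    (hf : f - A ∈ c.Sup x (Ioi 0)) (hf' : f' - A' ∈ c.Sup x (Ioi 0)) :
    ⁅f, f'⁆ - ⁅A, A'⁆ ∈ c.Sup x (Ioi 0) := by
  have e : ⁅f, f'⁆ - ⁅A, A'⁆ = ⁅f - A, f' - A'⁆ + ⁅A, f' - A'⁆ + ⁅f - A, A'⁆ := by
    simp only [sub_lie, lie_sub]
    abel
  rw [e]
  refine add_mem (add_mem (h.sup.lie _ _ _ _ _ _ hf hf' ?_) (h.sup.lie _ _ _ _ _ _ hA hf' ?_))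
    (h.sup.lie _ _ _ _ _ _ hf hA' ?_) <;> intro p hp p' hp' <;>
    simp only [mem_Ioi, mem_Ici] at * <;> linarith

lemma ex_P (h : T2c c ζ) (o : c.OnW ζ z x b) (t : K) (hf : f - f' ∈ c.Sup x (Ioi 0)) :
    c.cE b (ex (t • c.E ζ b) f) = c.cE b (ex (t • c.E ζ b) f') := by
  have := h.sup.ex_gt x 0 _ _ (h.rt1.nil b t) hf
    (Submodule.smul_mem _ _ (ge_of (E_zero h o.fix o.zero)))
  rw [map_sub] at this
  rw [← sub_eq_zero, ← cE_sub]
  exact cE_P o.zero.le this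

lemma dec (h : T2c c ζ) (o : c.OnW ζ z x b) (a : c.Aut0 ζ ψ g z) (hw : c.Fix w) :
    g (c0 _ w) - (ψ.coeff 0 • c0 (LP K) w + c.cE b (g (c0 _ w)) • c.E ζ b) ∈ c.Sup x (Ioi 0) := by
  have e := h.eqv.c0 w hw.2
  have := h.wall.pos_dec z x b o _ (sub_mem (a.eqv _ e) (Submodule.smul_mem _ _ e)) (a.hh w hw)
  rwa [cE_sub, cE_smul, cE_H h hw, mul_zero, sub_zero, sub_sub] at this

lemma lie_HH (h : T2c c ζ) (hw : c.Fix w) (hw' : c.Fix w') :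
    ⁅c0 (LP K) w, c0 (LP K) w'⁆ = 0 := by
  rw [ExtendScalars.bracket_tmul, h.cd.lie_hh w w' hw.1 hw'.1, tmul_zero]

lemma rel (h : T2c c ζ) (o : c.OnW ζ z x b) (a : c.Aut0 ζ ψ g z) (hw : c.Fix w) :
    c.cE b (g (c0 _ w)) =
      (c.al b.1 w : K) * (c.cE b (g (c0 _ (c.tau b.1))) / (c.nu b.1 : K)) := by
  have hτ := h.orb.tau_fix b.1
  have hE := ge_of (E_zero h o.fix o.zero)
  have m : ∀ w, c.Fix w → ∀ s t : K, s • c0 (LP K) w + t • c.E ζ b ∈ c.Sup x (Ici 0) :=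
    fun w hw s t => add_mem (Submodule.smul_mem _ _ (ge_of (h.sup.c0 x w hw.1)))
      (Submodule.smul_mem _ _ hE)
  have h1 := lie_P h (m w hw _ _) (m _ hτ _ _) (dec h o a hw) (dec h o a hτ)
  rw [a.lie, lie_HH h hw hτ, map_zero, smul_zero] at h1
  have h2 := cE_P o.zero.le h1
  have e1 : ⁅c.E ζ b, c0 (LP K) (c.tau b.1)⁆ = (-(c.nu b.1 : K)) • c.E ζ b := by
    rw [← lie_skew, h.rt1.lie_h b _ hτ, neg_smul]
    rfl
  simp only [add_lie, lie_add, (h.lp.lie_smul _ _ _).1, (h.lp.lie_smul _ _ _).2, lie_HH h hw hτ,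
    lie_self, h.rt1.lie_h b _ hw, e1, cE_sub, cE_add, cE_smul, cE_E h o.valid, smul_zero,
    zero_add, add_zero] at h2
  have h3 : c.cE b (0 : LG L K) = 0 := by simp [CD.cE]
  rw [h3] at h2
  have h4 := (h.rt1.th_ne b.1).2.2.2
  have h5 := a.ne
  field_simp
  refine mul_left_cancel₀ h5 ?_
  linear_combination h2

lemma both (h : T2c c ζ) (h1 : S_aut1 c ζ) (ad : c.Adj ζ z z₁ b) (a : c.Aut0 ζ ψ g z) :
    c.Aut0 ζ ψ g z₁ ↔ ∀ w, c.Fix w → c.cE b (g (c0 _ w)) = 0 := by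
  obtain ⟨x, o, o₁⟩ := h.wall.adj_on z z₁ b ad
  refine ⟨fun a₁ w hw => ?_, fun h2 => h1.tr ψ g z z₁ ad.reg.1 ad.reg₁.1 a fun w hw => ?_⟩
  · have := cE_P ad.neg.le (a₁.hh w hw)
    rwa [cE_sub, cE_smul, cE_H h hw, mul_zero, sub_zero] at this
  · have := dec h o a hw
    rw [h2 w hw, zero_smul, add_zero] at this
    have e := h.eqv.c0 w hw.2
    exact (h.wall.cl_pos z₁ x ad.reg₁ (h.wall.cl_on _ _ _ o₁) _
      (sub_mem (a.eqv _ e) (Submodule.smul_mem _ _ e))).1 this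

lemma coefE (h : T2c c ζ) (o : c.OnW ζ z x b) (a : c.Aut0 ζ ψ g z) (hw : c.Fix w) (t : K) :
    c.cE b (ex (t • c.E ζ b) (g (c0 _ w))) =
      c.cE b (g (c0 _ w)) - t * ψ.coeff 0 * (c.al b.1 w : K) := by
  rw [ex_P h o t (dec h o a hw), map_add, h.lp.op_smul, h.lp.op_smul, h.rt1.exE_h b t w hw,
    h.rt1.exE_E, cE_add, cE_smul, cE_smul, cE_sub, cE_smul, cE_H h hw, cE_E h o.valid]
  ring

lemma decE (h : T2c c ζ) (h1 : S_aut1 c ζ) (o : c.OnW ζ z x b) (a : c.Aut0 ζ ψ g z) :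
    g (c.E ζ b) - c.cE b (g (c.E ζ b)) • c.E ζ b ∈ c.Sup x (Ioi 0) ∧ c.cE b (g (c.E ζ b)) ≠ 0 := by
  have e := h.rt1.eqv b
  have h2 := h.wall.pos_dec z x b o _ (a.eqv _ e) ((h.la.aut_gt ψ g z a 0 _ e).2
    (c.Sup_mono (by rintro _ rfl; exact o.pos) (h.rt1.sup b z o.reg.1)))
  refine ⟨h2, fun h3 => ?_⟩
  rw [h3, zero_smul, sub_zero] at h2
  have h4 := cE_P o.zero.le ((h1.cl ψ g z x o.reg (h.wall.cl_on _ _ _ o) a 0 _ e).2.1 h2)
  rw [cE_E h o.valid] at h4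
  exact one_ne_zero h4

lemma det (h : T2c c ζ) (h1 : S_aut1 c ζ) (V : ValuationSubring K) (t : K)
    (sd : c.SD ζ V.toSubring) (ad : c.Adj ζ z z₁ b) (a : c.Aut0 ζ 1 g z) (a₁ : c.Aut0 ζ 1 g z₁)
    (hi : c.IntE ζ V (ex (t • c.E ζ b) * g)) : t ∈ V := by
  obtain ⟨x, o, o₁⟩ := h.wall.adj_on z z₁ b ad
  obtain ⟨d1, -⟩ := decE h h1 o a
  obtain ⟨d2, -⟩ := decE h h1 o₁ a₁
  generalize c.cE b (g (c.E ζ b)) = κ at d1
  generalize c.cE (c.ng b) (g (c.E ζ (c.ng b))) = κ' at d2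
  change g (c.F ζ b) - κ' • c.F ζ b ∈ _ at d2
  have hτ := h.orb.tau_fix b.1
  obtain ⟨n1, n2, n3, n4⟩ := h.rt1.th_ne b.1
  have hk : κ * κ' = 1 := by
    have h2 := lie_P h (Submodule.smul_mem _ _ (ge_of (E_zero h o.fix o.zero)))
      (Submodule.smul_mem _ _ (ge_of (E_zero h o₁.fix o₁.zero))) d1 d2
    change _ - ⁅κ • c.E ζ b, κ' • c.F ζ b⁆ ∈ _ at h2
    rw [a.lie, one_smul, (h.lp.lie_smul _ _ _).1, (h.lp.lie_smul _ _ _).2,
      h.rt1.lieEF b o.valid, h.lp.op_smul] at h2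
    have h3 := dec h o a hτ
    rw [(both h h1 ad a).1 a₁ _ hτ, zero_smul, add_zero] at h3
    have h4 : (1 : LP K).coeff 0 = 1 := by
      rw [AddMonoidAlgebra.one_def]
      simp
    rw [h4, one_smul] at h3
    have h5 := sub_mem h2 (Submodule.smul_mem _ (c.kp b.1 : K) h3)
    have e : (c.kp b.1 : K) • g (c0 (LP K) (c.tau b.1)) -
        κ • κ' • (c.kp b.1 : K) • c0 (LP K) (c.tau b.1) -
        (c.kp b.1 : K) • (g (c0 (LP K) (c.tau b.1)) - c0 (LP K) (c.tau b.1)) =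
        ((1 - κ * κ') * (c.kp b.1 : K)) • c0 (LP K) (c.tau b.1) := by
      module
    rw [e] at h5
    have h6 := h.sup.empty x _ _ _ h5 (Submodule.smul_mem _ _ (h.sup.c0 x _ hτ.1))
      fun p hp hp' => absurd hp' (ne_of_gt hp)
    have h7 := congrArg (fun f => c.cE b ⁅f, c.E ζ b⁆) h6
    simp only [(h.lp.lie_smul _ _ _).1, h.rt1.lie_h b _ hτ, cE_smul, cE_E h o.valid, zero_lie,
      mul_one] at h7
    have h8 : c.cE b (0 : LG L K) = 0 := by simp [CD.cE]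
    rw [h8] at h7
    have h9 := (mul_eq_zero.1 ((mul_eq_zero.1 h7).resolve_right n4)).resolve_right n3
    exact (sub_eq_zero.1 h9).symm
  have inV : ∀ f : LG L K, c.In V f → c.cE b f ∈ V := fun f hf => by
    rw [CD.cE, div_eq_mul_inv]
    exact V.toSubring.mul_mem (hf _) (h.rt1.sd_per _ sd _)
  have i1 := inV _ (hi _ (h.rt1.eqv b) (h.rt1.int _ sd b))
  have i2 := inV _ (hi _ (h.rt1.eqv (c.ng b)) (h.rt1.int _ sd (c.ng b)))
  change c.cE b (ex _ (g (c.F ζ b))) ∈ V at i2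
  rw [Module.End.mul_apply, ex_P h o t d1, h.lp.op_smul, h.rt1.exE_E, cE_smul, cE_E h o.valid,
    mul_one] at i1
  rw [ex_P h o t d2, h.lp.op_smul, h.rt1.exE_F b t o.valid, cE_smul, cE_sub, cE_add, cE_smul,
    cE_smul, cE_F h, cE_H h hτ, cE_E h o.valid] at i2
  have i3 : t ^ 2 ∈ V := by
    have := V.toSubring.neg_mem (V.toSubring.mul_mem (V.toSubring.mul_mem i1 i2)
      (h.rt1.sd_th _ sd b.1).2)
    have e : -(κ * (κ' * (0 + t * (c.kp b.1 : K) * 0 - t ^ 2 * (c.th b.1 : K) * 1)) *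
        (c.th b.1 : K)⁻¹) = t ^ 2 := by
      field_simp
      linear_combination t ^ 2 * (c.th b.1 : K) * hk
    rw [e] at this
    exact this
  rcases V.mem_or_inv_mem t with h2 | h2
  · exact h2
  · rcases eq_or_ne t 0 with rfl | h3
    · exact V.zero_mem
    · have := V.toSubring.mul_mem i3 h2
      rwa [sq, mul_assoc, mul_inv_cancel₀ h3, mul_one] at this

end Aut2A

open Aut2A in
theorem aut2 (h : T2c c ζ) (h1 : S_aut1 c ζ) : S_aut2 c ζ where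
  both ψ g z z₁ b ad a := both h h1 ad a
  left ψ g z z₁ b ad a := by
    obtain ⟨x, o, -⟩ := h.wall.adj_on z z₁ b ad
    refine ⟨c.cE b (g (c0 _ (c.tau b.1))) / (c.nu b.1 : K) / ψ.coeff 0, (both h h1 ad
      (h.la.aut_left _ _ _ _ (h.la.aut_exE b _ z ad.reg.1 ad.pos) a)).2 fun w hw => ?_⟩
    rw [Module.End.mul_apply, coefE h o a hw, rel h o a hw, div_mul_cancel₀ _ a.ne]
    ring
  right ψ g z z₁ b ad a := by
    obtain ⟨x, o, -⟩ := h.wall.adj_on z z₁ b ad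
    refine ⟨c.cE b (g (c0 _ (c.tau b.1))) / (c.nu b.1 : K) / c.cE b (g (c.E ζ b)), (both h h1 ad
      (h.la.aut_right _ _ _ _ a (h.la.aut_exE b _ z ad.reg.1 ad.pos))).2 fun w hw => ?_⟩
    rw [Module.End.mul_apply, h.rt1.exE_h b _ w hw, map_sub, h.lp.op_smul, cE_sub, cE_smul,
      rel h o a hw, mul_right_comm, div_mul_cancel₀ _ (decE h h1 o a).2]
    ring
  coef ψ g z z₁ b t ad a a₁ w hw := by
    obtain ⟨x, o, -⟩ := h.wall.adj_on z z₁ b ad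
    rw [coefE h o a hw, (both h h1 ad a).1 a₁ w hw, zero_sub]
  det V g z z₁ b t sd ad a a₁ hi := det h h1 V t sd ad a a₁ hi

end Pool.Agent.P.MP_e7d440_ag.U
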