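import Pool.Agent.P.MP_e7d440_ag.U.Iface

/-! The big cell. -/

namespace Pool.Agent.P.MP_e7d440_ag.U

open TensorProduct LieAlgebra LaurentPolynomial Set

variable {L Φ Δ : Type} [LieRing L] [LieAlgebra ℚ L] [Fintype Φ] [Fintype Δ] [DecidableEq Φ]
  [DecidableEq Δ] {c : CD L Φ Δ} {K : Type} [Field K] [CharZero K]

namespace CellA

omit [Fintype Φ] [Fintype Δ] [DecidableEq Φ] [DecidableEq Δ] in
theorem wt_cases {lam : L} (hm : c.Min lam) (i : Φ ⊕ Δ) :
    c.wt0 lam i = 0 ∨ c.wt0 lam i = 1 ∨ c.wt0 lam i = -1 := by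
  rcases i with α | i
  · exact hm.2 α
  · exact Or.inl rfl

omit [Fintype Φ] [Fintype Δ] [DecidableEq Φ] [DecidableEq Δ] in
theorem gr_mono {z : L} {P P' : Set ℚ} (h : P ⊆ P') {x : G L K} (hx : x ∈ c.Gr z P) :
    x ∈ c.Gr z P' := fun i hi => h (hx i hi)

omit [Fintype Φ] [Fintype Δ] [DecidableEq Φ] [DecidableEq Δ] in
theorem crd_zero {z : L} {P : Set ℚ} {x : G L K} (hx : x ∈ c.Gr z P) {i : Φ ⊕ Δ}
    (h : c.wt0 z i ∉ P) : c.crd i x = 0 := by
  by_contra h0
  exact h (hx i h0)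

omit [Fintype Φ] [Fintype Δ] [DecidableEq Φ] [DecidableEq Δ] in
theorem two_zero {lam : L} (hm : c.Min lam) {x : G L K} (hx : x ∈ c.Gr lam {-2}) : x = 0 :=
  c.ext0 fun i => by
    rw [map_zero]
    refine crd_zero hx ?_
    rcases wt_cases hm i with h | h | h <;> rw [h] <;> norm_num

omit [Fintype Φ] [Fintype Δ] [DecidableEq Φ] [DecidableEq Δ] in
theorem inl_of {z : L} {i : Φ ⊕ Δ} {q : ℚ} (hq : q ≠ 0) (h : c.wt0 z i = q) :
    ∃ β, i = .inl β ∧ c.al β z = q := by
  rcases i with α | i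
  · exact ⟨α, rfl, h⟩
  · exact absurd h.symm hq

theorem lie_one (h : T0 c) {z : L} {p q r : ℚ} {x y : G L K} (hx : x ∈ c.Gr z {p})
    (hy : y ∈ c.Gr z {q}) (e : p + q = r) : ⁅x, y⁆ ∈ c.Gr z {r} :=
  h.gk.gr_lie z _ _ _ x y hx hy (by rintro _ rfl _ rfl; exact e)

theorem nil (h : T0 c) {lam : L} {n : G L K} (hn : n ∈ c.Gr lam {-1}) : Nil n := by
  obtain ⟨N, hN⟩ := h.gk.nil_pos lam
  exact ⟨N, hN n (Or.inr (gr_mono (by rintro _ rfl; norm_num) hn))⟩

theorem ex_sub (h : T0 c) {lam : L} {n : G L K} (hn : n ∈ c.Gr lam {-1}) (r : ℚ) {y : G L K}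
    (hy : y ∈ c.Gr lam (Iic r)) : ex n y - y ∈ c.Gr lam (Iio r) ∧ ex n y ∈ c.Gr lam (Iic r) :=
  h.ex.stable (K := K) (c.Gr lam (Iic r)) (c.Gr lam (Iio r)) n (nil h hn)
    (fun _ hx => gr_mono Iio_subset_Iic_self hx)
    (fun y hy => h.gk.gr_lie lam _ _ _ n y hn hy (by
      rintro _ rfl p hp
      rw [mem_Iic] at hp
      rw [mem_Iio]
      linarith)) y hy

theorem crd_ex (h : T0 c) {lam : L} {n : G L K} (hn : n ∈ c.Gr lam {-1}) {x : G L K}
    (hx : x ∈ c.U1 K lam) {β : Φ} (hβ : c.al β lam = 1) :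
    c.crd (.inl β) (ex n x) = c.crd (.inl β) x := by
  have h1 := crd_zero (ex_sub h hn 1 (gr_mono (by rintro _ rfl; exact le_refl (1 : ℚ)) hx)).1
    (i := .inl β) fun h0 => absurd hβ (ne_of_lt h0)
  rwa [map_sub, sub_eq_zero] at h1

theorem lie_gr (h : T0 c) {z : L} (hz : c.IsH z) {q : ℚ} {x : G L K} (hx : x ∈ c.Gr z {q}) :
    ⁅c0 K z, x⁆ = q • x :=
  c.ext0 fun i => by
    rw [h.gk.lie_c0 z hz, LinearMap.map_smul_of_tower]
    by_cases h0 : c.crd i x = 0
    · rw [h0, smul_zero, smul_zero]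
    · rw [show c.wt0 z i = q from hx i h0]

omit [DecidableEq Φ] [DecidableEq Δ] in
theorem expand {lam : L} {x : G L K} (hx : x ∈ c.U1 K lam) :
    x = ∑ β with c.al β lam = 1, c.crd (.inl β) x • c.bs K (.inl β) := by
  conv_lhs => rw [← (c.bs K).sum_repr x]
  rw [Fintype.sum_sum_type, Finset.sum_filter, Finset.sum_eq_zero (s := Finset.univ (α := Δ)),
    add_zero]
  · refine Finset.sum_congr rfl fun β _ => ?_
    split_ifs with hβ
    · rfl
    · rw [← c.crd_eq, crd_zero hx (i := .inl β) hβ, zero_smul]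
  · intro i _
    rw [← c.crd_eq, crd_zero hx (i := .inr i) (zero_ne_one (α := ℚ)), zero_smul]

theorem vec (h : T0 c) {lam : L} (hm : c.Min lam) {n : G L K} (hn : n ∈ c.Gr lam {-1}) {β : Φ}
    (hβ : c.al β lam = 1) :
    (∀ γ, c.al γ lam = 1 → c.crd (.inl γ) (ex n (c.bs K (.inl β))) = if γ = β then 1 else 0) ∧
    c.alR β (ex n (c.bs K (.inl β))) = -2 * c.crd (.inl (c.neg β)) n := by
  have he : c.bs K (.inl β) ∈ c.Gr lam {1} := h.gk.gr_bs lam _ _ hβ
  refine ⟨fun γ hγ => ?_, ?_⟩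
  · rw [crd_ex h hn he hγ, h.gk.crd_bs]
    simp only [Sum.inl.injEq, eq_comm]
  · have h1 := lie_one h hn he (r := 0) (by norm_num)
    have h2 := lie_one h hn h1 (r := -1) (by norm_num)
    have h3 := lie_one h hn h2 (r := -2) (by norm_num)
    have h4 : ∀ {q : ℚ} {x : G L K}, q ≠ 0 → x ∈ c.Gr lam {q} → c.alR β x = 0 := fun hq hx => by
      rw [h.gk.alR_eq]
      exact Finset.sum_eq_zero fun i _ => by rw [crd_zero hx (i := .inr i) hq.symm, smul_zero]
    rw [h.ex.three n _ (nil h hn) (two_zero hm h3), map_add, map_add, LinearMap.map_smul_of_tower,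
      h4 one_ne_zero he, h4 (by norm_num) h2, smul_zero, zero_add, add_zero]
    have h5 := h.gk.kR_cor β ⁅n, c.bs K (.inl β)⁆
    have h6 := h.gk.kR_e (c.neg β) n
    rw [h.cd.neg_neg, h.cd.kap_neg] at h6
    rw [← lie_skew, map_neg, ← h.gk.inv, lie_gr h (h.cd.isH_cor β)
      (h.gk.gr_bs _ {2} (.inl β) (c.cor_two β)), LinearMap.map_smul_of_tower,
      LinearMap.smul_apply, h6, lie_skew] at h5
    have h7 : (c.kap β : K) ≠ 0 := by exact_mod_cast (h.cd.kap_pos β).ne'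
    apply mul_left_cancel₀ h7
    simp only [Rat.smul_def] at h5
    rw [← h5]
    push_cast
    ring

theorem uniq (h : T0 c) {lam : L} {n : G L K} (hn : n ∈ c.Gr lam {-1}) {u : G L K}
    (hu : u ∈ (c.U1 K lam).map (ex n)) :
    u = ∑ β with c.al β lam = 1, c.crd (.inl β) u • ex n (c.bs K (.inl β)) := by
  obtain ⟨x, hx, rfl⟩ := hu
  conv_lhs => rw [expand hx, map_sum]
  refine Finset.sum_congr rfl fun β hβ => ?_
  rw [map_smul, crd_ex h hn hx (Finset.mem_filter.1 hβ).2]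

theorem sub (h : T0 c) (hr : S_resd) (S : Subfield K) {lam : L} (hm : c.Min lam) {n : G L K}
    (hn : n ∈ c.Gr lam {-1}) (hd : c.Def0 S ((c.U1 K lam).map (ex n))) : c.In0 S n := by
  obtain ⟨π, h1, h2, h3⟩ := hr.retr S
  have key : ∀ u ∈ (c.U1 K lam).map (ex n), ∀ a : K, mqa π (a • u) ∈ (c.U1 K lam).map (ex n) := by
    intro u hu
    refine Submodule.span_induction (fun w hw a => ?_) (fun a => ?_) (fun v w _ _ hv hw a => ?_)
      (fun b w _ hw a => ?_) (hd hu)
    · have : mqa π (a • w) = π a • w := c.ext0 fun i => by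
        rw [c.crd_mqa, map_smul (c.crd i), map_smul (c.crd i), smul_eq_mul, smul_eq_mul, mul_comm,
          h3 _ (hw.2 i), mul_comm]
      rw [this]
      exact Submodule.smul_mem _ _ hw.1
    · rw [smul_zero, map_zero]
      exact Submodule.zero_mem _
    · rw [smul_add, map_add]
      exact Submodule.add_mem _ (hv a) (hw a)
    · rw [smul_smul]
      exact hw _
  intro i
  by_cases h0 : c.crd i n = 0
  · rw [h0]
    exact S.zero_mem
  obtain ⟨α, rfl, hα⟩ := inl_of (by norm_num) (hn i h0)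
  have hβ : c.al (c.neg α) lam = 1 := by rw [c.al_neg, LinearMap.neg_apply, hα, neg_neg]
  obtain ⟨v1, v2⟩ := vec h hm hn hβ
  have hu : ex n (c.bs K (.inl (c.neg α))) ∈ (c.U1 K lam).map (ex n) :=
    ⟨_, h.gk.gr_bs lam _ (.inl _) hβ, rfl⟩
  have h4 := key _ hu 1
  rw [one_smul] at h4
  have h5 : mqa π (ex n (c.bs K (.inl (c.neg α)))) = ex n (c.bs K (.inl (c.neg α))) := by
    rw [uniq h hn h4]
    conv_rhs => rw [uniq h hn hu]
    refine Finset.sum_congr rfl fun γ hγ => ?_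
    rw [c.crd_mqa, v1 γ (Finset.mem_filter.1 hγ).2]
    split_ifs
    · rw [h2]
    · rw [map_zero]
  have h6 : c.alR (c.neg α) (ex n (c.bs K (.inl (c.neg α)))) ∈ S := by
    rw [h.gk.alR_eq]
    refine S.sum_mem fun i _ => ?_
    rw [← h5, c.crd_mqa, Rat.smul_def]
    exact S.mul_mem (SubfieldClass.ratCast_mem S _) (h1 _)
  rw [v2, h.cd.neg_neg] at h6
  have h7 := S.div_mem h6 (S.neg_mem (SubfieldClass.ratCast_mem S 2))
  rwa [Rat.cast_ofNat, mul_div_cancel_left₀ _ (by norm_num)] at h7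

theorem ex_sum (h : T0 c) {lam : L} (hm : c.Min lam) {d : ℕ} (y : Fin d → G L K)
    (hy : ∀ k, y k ∈ c.Gr lam {-1}) : ex (∑ k, y k) = pf y 0 := by
  induction d with
  | zero => rw [pf_zero, Finset.univ_eq_empty, Finset.sum_empty, h.ex.zero.2]
  | succ d ih =>
    have h1 : ∑ k : Fin d, y k.succ ∈ c.Gr lam {-1} := Submodule.sum_mem _ fun k _ => hy _
    rw [pf_succ, Fin.sum_univ_succ, (h.ex.add _ _ (nil h (hy 0)) (nil h h1)
      (two_zero hm (lie_one h (hy 0) h1 (by norm_num)))).2, ← ih (Fin.tail y) fun k => hy _]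
    rfl

theorem orth (h : T0 c) (U : Submodule K (G L K)) (lam : L)
    (hU : ∀ u ∈ U, (∀ β, c.al β lam = 1 → c.crd (.inl β) u = 0) → u = 0) (y : G L K) :
    ∃ n ∈ c.Gr lam {-1}, ∀ u ∈ U, c.kR K (y + n) u = 0 := by
  let p : U →ₗ[K] {β // c.al β lam = 1} → K :=
    LinearMap.pi fun β => c.crd (.inl β.1) ∘ₗ U.subtype
  obtain ⟨l, hl⟩ := p.exists_leftInverse_of_injective (LinearMap.ker_eq_bot'.2 fun u hu =>
    Subtype.ext (hU u u.2 fun β hβ => congrFun hu ⟨β, hβ⟩))
  let ψ := c.kR K y ∘ₗ U.subtype ∘ₗ l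
  refine ⟨∑ β : {β // c.al β lam = 1}, (-ψ (fun γ => if β = γ then 1 else 0) / c.kap β.1) •
    c.bs K (.inl (c.neg β.1)), Submodule.sum_mem _ fun β _ => Submodule.smul_mem _ _
      (h.gk.gr_bs lam _ _ ?_), fun u hu => ?_⟩
  · change c.al (c.neg β.1) lam = -1
    rw [c.al_neg, LinearMap.neg_apply, β.2]
  · have h1 : c.kR K y u = ψ (p ⟨u, hu⟩) := by
      have h2 : l (p ⟨u, hu⟩) = ⟨u, hu⟩ := LinearMap.congr_fun hl _
      simp only [ψ, LinearMap.comp_apply, h2, Submodule.subtype_apply]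
    rw [map_add, LinearMap.add_apply, h1, LinearMap.pi_apply_eq_sum_univ, map_sum,
      LinearMap.sum_apply, ← Finset.sum_add_distrib]
    refine Finset.sum_eq_zero fun β _ => ?_
    have h7 : (c.kap β.1 : K) ≠ 0 := by exact_mod_cast (h.cd.kap_pos β.1).ne'
    rw [map_smul, LinearMap.smul_apply, h.gk.kR_e, Rat.smul_def, smul_eq_mul, smul_eq_mul,
      show p ⟨u, hu⟩ β = c.crd (.inl β.1) u from rfl]
    field_simp
    ring

end CellA

open CellA in
variable (c K) in
theorem cell (h : T0 c) (hf : S_fd c K) (hr : S_resd) : S_cell c K where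
  cell U lam hU hm hd hinj := by
    have : Module.Finite K (G L K) := Module.Finite.of_basis (c.bs K)
    obtain ⟨n, hn, ho⟩ := orth h U lam hinj (c0 K lam)
    have hnil := nil h hn
    have ha := h.ex.a0 n hnil
    have h1 : ⁅n, c0 K lam⁆ = n := by
      rw [← lie_skew, lie_gr h hm.1 hn, neg_smul, one_smul, neg_neg]
    have h2 : ex n (c0 K lam) = c0 K lam + n := by
      rw [h.ex.two n _ hnil (by rw [h1, lie_self]), h1]
    refine ⟨n, hn, Submodule.eq_of_le_of_finrank_eq (fun u hu => ?_) ?_⟩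
    · obtain ⟨x, rfl⟩ : ∃ x, ex n x = u := ⟨ex (-n) u, LinearMap.congr_fun (h.ex.inv n hnil).1 u⟩
      have h3 : ∀ i, c.crd i (x - ⁅c0 K lam, x⁆) = (1 - c.wt0 lam i) • c.crd i x := fun i => by
        rw [map_sub, h.gk.lie_c0 lam hm.1, sub_smul, one_smul]
      have h4 : x - ⁅c0 K lam, x⁆ ∈ c.Gr lam (Iic 0) := fun i hi => by
        rcases wt_cases hm i with e | e | e
        · exact e.le
        · rw [h3, e, sub_self, zero_smul] at hi
          exact absurd rfl hi
        · rw [e]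
          norm_num
      have h5 : ex n (x - ⁅c0 K lam, x⁆) = 0 := hinj _ (by
          rw [map_sub, ha.lie, h2]
          exact U.sub_mem hu (hU.perp _ ho _ hu)) fun β hβ =>
        crd_zero (ex_sub h hn 0 h4).2 fun e => by
          have e' : c.al β lam ≤ 0 := e
          linarith
      have h6 : x - ⁅c0 K lam, x⁆ = 0 := by
        have h7 := LinearMap.congr_fun (h.ex.inv n hnil).2 (x - ⁅c0 K lam, x⁆)
        rw [Module.End.mul_apply, h5, map_zero] at h7
        exact h7.symm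
      refine ⟨x, fun i hi => ?_, rfl⟩
      have h8 := h3 i
      rw [h6, map_zero, eq_comm, smul_eq_zero] at h8
      exact (sub_eq_zero.1 (h8.resolve_right hi)).symm
    · rw [(hf.map _ _ ha (hf.u1 lam hm)).2, hf.rank, hd]
  trans g lam χ hg := by
    rintro _ ⟨x, hx, rfl⟩ h0
    by_cases h1 : x = 0
    · rw [h1, map_zero]
    classical
    obtain ⟨i, hi, hmax⟩ := Finset.exists_max_image (Finset.univ.filter fun i => c.crd i x ≠ 0)
      (c.wt0 χ) (by
        by_contra h2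
        refine h1 (c.ext0 fun i => ?_)
        by_contra h3
        exact h2 ⟨i, Finset.mem_filter.2 ⟨Finset.mem_univ _, by simpa using h3⟩⟩)
    have h2 := (Finset.mem_filter.1 hi).2
    have h3 := crd_zero (hg (c.wt0 χ i) x fun j hj =>
      hmax j (Finset.mem_filter.2 ⟨Finset.mem_univ _, hj⟩)) (i := i) (lt_irrefl (c.wt0 χ i))
    obtain ⟨β, rfl, hβ⟩ := inl_of one_ne_zero (hx i h2)
    rw [map_sub, h0 β hβ, zero_sub, neg_eq_zero] at h3
    exact absurd h3 h2
  vec lam hm n hn β hβ := vec h hm hn hβ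
  uniq lam _ n hn u hu := uniq h hn hu
  sub S lam hm n hn hd := sub h hr S hm hn hd
  prod lam X d e j hm := by
    rw [← ex_sum h hm]
    · congr 1
      rw [CD.nX, Finset.sum_filter, ← e.sum_comp]
      refine Finset.sum_congr rfl fun k _ => ?_
      split_ifs
      · rfl
      · rw [smul_zero]
    · intro k
      refine Submodule.smul_mem _ _ ?_
      split_ifs with hk
      · refine h.gk.gr_bs _ _ _ ?_
        change c.al (c.neg (e k).1.2) (lam j) = -1
        rw [c.al_neg, LinearMap.neg_apply, ← hk, (e k).2]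
      · exact Submodule.zero_mem _

end Pool.Agent.P.MP_e7d440_ag.U
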