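import Pool.Agent.P.MP_e7d440_ag.U.Wex

/-! The length of a translation. -/

namespace Pool.Agent.P.MP_e7d440_ag.U

open TensorProduct LieAlgebra LaurentPolynomial Set

variable {L Φ Δ : Type} [LieRing L] [LieAlgebra ℚ L] [Fintype Φ] [Fintype Δ] [DecidableEq Φ]
  [DecidableEq Δ] {c : CD L Φ Δ} {K : Type} [Field K] [CharZero K] {ζ : K}

namespace CountA

lemma orbit (σ : Equiv.Perm Φ) (α : Φ) :
    (Finset.univ.filter fun β => σ.SameCycle α β).card = Function.minimalPeriod σ α := by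
  have hp : 0 < Function.minimalPeriod σ α :=
    Function.minimalPeriod_pos_of_mem_periodicPts (σ.injective.mem_periodicPts α)
  rw [← Finset.card_range (Function.minimalPeriod σ α)]
  refine (Finset.card_nbij (fun i => σ^[i] α) (fun i _ => ?_) (fun i hi j hj e => ?_)
    fun β hβ => ?_).symm
  · simpa using ⟨(i : ℤ), by rw [zpow_natCast, Equiv.Perm.coe_pow]⟩
  · exact Function.iterate_injOn_Iio_minimalPeriod (by simpa using hi) (by simpa using hj) e
  · obtain ⟨i, -, e⟩ := (Finset.mem_filter.1 hβ).2.exists_pow_eq'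
    exact ⟨i % Function.minimalPeriod σ α, by simpa using Nat.mod_lt _ hp, by
      simp only [Function.iterate_mod_minimalPeriod_eq]
      rwa [← Equiv.Perm.coe_pow]⟩

lemma periodic (f : ℕ → ℚ) (d : ℕ) (hf : ∀ k, f (d + k) = f k) (p : ℕ) :
    ∑ k ∈ Finset.range (p * d), f k = p * ∑ k ∈ Finset.range d, f k := by
  induction p with
  | zero => simp
  | succ p ih =>
    rw [add_mul, one_mul, add_comm, Finset.sum_range_add]
    simp only [hf, ih]
    push_cast
    ring

variable {J : Type} [Fintype J] {lam : J → L} {r : L}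

omit [Fintype J] in
lemma al_pow (h : T2d c ζ) (hc : c.Co lam r) (α : Φ) (k : ℕ) :
    c.al ((c.ς ^ k) α) r = c.al α r :=
  (h.cd.fix_al r hc.1 α _ ⟨(k : ℤ), by simp⟩).symm

lemma co_bar (h : T2d c ζ) (α : Φ) (hc : c.Co lam r) (hα : 0 < c.al α r) :
    (∀ j (k : ℕ), c.al ((c.ς ^ k) α) (lam j) = 0 ∨ c.al ((c.ς ^ k) α) (lam j) = 1) ∧
      ∃ q : ℕ, c.al α (c.bar lam) = c.per α * q := by
  have h1 : ∀ j (k : ℕ), c.al ((c.ς ^ k) α) (lam j) = 0 ∨ c.al ((c.ς ^ k) α) (lam j) = 1 :=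
    fun j k => by
      rcases (hc.2.2.1 j).2 ((c.ς ^ k) α) with a | a | a
      · exact Or.inl a
      · exact Or.inr a
      · have := hc.2.2.2 j (c.neg ((c.ς ^ k) α)) (by simp [c.al_neg, a])
        rw [c.al_neg, LinearMap.neg_apply, al_pow h hc] at this
        linarith
  refine ⟨h1, ∑ j, ∑ k ∈ Finset.range (Function.minimalPeriod c.ς α),
    if c.al ((c.ς ^ k) α) (lam j) = 1 then 1 else 0, ?_⟩
  rw [h.orb.al_bar, ← h.orb.per_mul α]
  push_cast
  rw [Finset.mul_sum]
  refine Finset.sum_congr rfl fun j _ => ?_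
  rw [periodic _ _ fun k => by rw [add_comm, Function.iterate_add_minimalPeriod_eq]]
  refine congrArg _ (Finset.sum_congr rfl fun k _ => ?_)
  rcases h1 j k with a | a <;> rw [Equiv.Perm.coe_pow] at a <;> simp [a]

lemma pos_bar (h : T2d c ζ) (hc : c.Co lam r) (α : Φ) : ∃ q : ℕ,
    max 0 (c.al α (c.bar lam)) = c.per α * q ∧ (c.per α * q : ℝ) =
      ∑ j, ∑ k ∈ Finset.range c.ℓ, if c.al ((c.ς ^ k) α) (lam j) = 1 then 1 else 0 := by
  rcases lt_or_gt_of_ne (hc.2.1 α) with a | a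
  · obtain ⟨-, q, e⟩ := co_bar h (c.neg α) hc (by simpa [c.al_neg] using a)
    rw [c.al_neg, LinearMap.neg_apply] at e
    have : (0 : ℚ) ≤ c.per (c.neg α) * q := by positivity
    refine ⟨0, by rw [max_eq_left (by linarith)]; simp, ?_⟩
    rw [Finset.sum_eq_zero fun j _ => Finset.sum_eq_zero fun k _ => if_neg fun e' => ?_]
    · simp
    · have := hc.2.2.2 j _ e'
      rw [al_pow h hc] at this
      linarith
  · obtain ⟨h1, q, e⟩ := co_bar h α hc a
    refine ⟨q, by rw [e, max_eq_right (by positivity)], ?_⟩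
    rw [h.orb.al_bar] at e
    have := congrArg (Rat.cast : ℚ → ℝ) e
    push_cast at this
    rw [← this]
    refine Finset.sum_congr rfl fun j _ => Finset.sum_congr rfl fun k _ => ?_
    rw [← Equiv.Perm.coe_pow]
    rcases h1 j k with a | a <;> simp [a]

lemma fiber (h : T2d c ζ) (z : L) (α : Φ) (q : ℕ)
    (hq : max 0 (c.al α (c.ρ - z)) = c.per α * q) :
    ((WexA.fin c ζ c.ρ z).toFinset.filter fun a => a.1 = α).card = q := by
  have hp : (0 : ℚ) < c.per α := by exact_mod_cast h.orb.per_pos α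
  obtain ⟨m, m1, m2, m3⟩ : ∃ m : ℤ, c.Valid ζ (α, m) ∧ 0 < c.al α c.ρ + m ∧
      c.al α c.ρ + m < c.per α := by
    obtain ⟨m, hm⟩ := h.rt1.valid_ex α
    have a1 := Int.floor_le ((c.al α c.ρ + m) / c.per α)
    have a2 := Int.lt_floor_add_one ((c.al α c.ρ + m) / c.per α)
    rw [le_div_iff₀ hp] at a1
    rw [div_lt_iff₀ hp] at a2
    refine ⟨m - c.per α * ⌊(c.al α c.ρ + m) / c.per α⌋, (h.rt1.valid_per α m _ hm).2 (by simp),
      lt_of_le_of_ne ?_ (h.cd.ρ_int α _).symm, ?_⟩ <;> push_cast <;> linarith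
  rw [← Finset.card_range q]
  refine (Finset.card_nbij (fun i : ℕ => (α, m + c.per α * i)) (fun i hi => ?_)
    (fun i _ j _ e => ?_) fun a ha => ?_).symm
  · have a1 : (i : ℚ) + 1 ≤ q := by exact_mod_cast Finset.mem_range.1 hi
    have a2 := mul_le_mul_of_nonneg_left a1 hp.le
    have a3 : (0 : ℚ) ≤ c.per α * i := by positivity
    rw [max_eq_right (le_max_iff.1 (hq.ge.trans' (by linarith : c.al α c.ρ + m ≤ _)) |>.elim
      (fun a => absurd a (by linarith)) fun a => by linarith), map_sub] at hq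
    simp only [Finset.coe_filter, Finite.mem_toFinset, mem_ofPred_eq, and_true]
    refine ⟨(h.rt1.valid_per α m _ m1).2 (by simp), ?_, ?_⟩ <;> simp only [CD.val] <;>
      push_cast <;> linarith
  · have := h.orb.per_pos α
    simpa [this.ne'] using e
  · simp only [Finset.coe_filter, Finite.mem_toFinset, mem_ofPred_eq] at ha
    obtain ⟨β, m'⟩ := a
    obtain ⟨⟨a1, a2, a3⟩, rfl⟩ := ha
    obtain ⟨i, hi⟩ := (h.rt1.valid_per _ m m' m1).1 a1
    obtain rfl : m' = m + c.per β * i := by linarith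
    simp only [CD.val] at a2 a3 hq hp m2 m3
    push_cast at a2 a3
    rw [map_sub, max_eq_right (by linarith)] at hq
    have b1 : (-1 : ℚ) < i := lt_of_mul_lt_mul_left (by linarith) hp.le
    have b2 : (i : ℚ) < q := lt_of_mul_lt_mul_left (by linarith) hp.le
    have b3 : -1 < i := by exact_mod_cast b1
    have b4 : i < q := by exact_mod_cast b2
    exact ⟨i.toNat, by simp; omega, by simp [Int.toNat_of_nonneg (by omega : 0 ≤ i)]⟩

lemma gal_sum (h : T2d c ζ) {z : L} {n : ℕ} {a : Fin n → Φ × ℤ} (hz : c.Reg ζ z)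
    (hg : c.Gal ζ z n c.ρ a) (w : Φ → ℝ) (hw : ∀ α β, c.ς.SameCycle α β → w α = w β) :
    ∑ b ∈ (WexA.fin c ζ c.ρ z).toFinset, c.per b.1 * w b.1 = c.ℓ * ∑ k, w (a k).1 := by
  classical
  have e1 : ∀ b ∈ (WexA.fin c ζ c.ρ z).toFinset, c.per b.1 * w b.1 =
      ∑ k, if c.Sim (a k) b then c.per (a k).1 * w (a k).1 else 0 := fun b hb => by
    obtain ⟨b1, b2, b3⟩ := (Finite.mem_toFinset _).1 hb
    obtain ⟨k, hk⟩ := h.gal.all z n _ a hz c.fix_ρ hg b b1 b2 b3
    rw [Finset.sum_eq_single k (fun l _ hl => if_neg fun e => h.gal.ne z n _ a hz hg l k hl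
      (h.rt1.sim_trans _ _ _ e hk)) (by simp), if_pos (h.rt1.sim_symm _ _ hk),
      h.orb.per_cyc _ _ hk.2, hw _ _ hk.2]
  rw [Finset.sum_congr rfl e1, Finset.sum_comm, Finset.mul_sum]
  refine Finset.sum_congr rfl fun k _ => ?_
  rw [← Finset.sum_filter, Finset.sum_const, ← h.orb.per_mul (a k).1, ← orbit,
    Finset.card_nbij (t := Finset.univ.filter fun β => c.ς.SameCycle (a k).1 β) Prod.fst
      (fun b hb => by simpa using (Finset.mem_filter.1 hb).2.2) (fun b hb b' hb' e => Prod.ext e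
        ((Finset.mem_filter.1 hb).2.1.symm.trans (Finset.mem_filter.1 hb').2.1)) fun β hβ => ?_]
  · push_cast
    rw [nsmul_eq_mul]
    ring
  · have s : c.Sim (a k) (β, (a k).2) := ⟨rfl, (Finset.mem_filter.1 hβ).2⟩
    obtain ⟨b1, b2, b3⟩ := h.gal.mem z n _ a hz hg k
    have := (h.orb.sim_iff _ _).1 s
    exact ⟨_, Finset.mem_filter.2 ⟨(Finite.mem_toFinset _).2 ⟨h.rt1.valid_sim _ _ s b1,
      this _ c.fix_ρ ▸ b2, this _ hz.1 ▸ b3⟩, s⟩, rfl⟩

lemma reg (h : T2d c ζ) (hl : ∀ j, c.Min (lam j)) :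
    c.Reg ζ (c.ρ + c.bar lam) ∧ c.Reg ζ (c.ρ - c.bar lam) := by
  have a1 := h.orb.bar_fix lam fun j => (hl j).1
  have a2 := h.orb.bar_int lam hl
  refine ⟨h.wall.reg_int _ a1 a2, ?_⟩
  rw [sub_eq_add_neg]
  exact h.wall.reg_int _ a1.neg fun α => (a2 α).elim fun n hn => ⟨-n, by simp [hn]⟩

lemma main (h : T2d c ζ) {z : L} {n : ℕ} {a : Fin n → Φ × ℤ} (hc : c.Co lam r)
    (hz : z = c.ρ + c.bar lam ∨ z = c.ρ - c.bar lam) (hg : c.Gal ζ z n c.ρ a) (w : Φ → ℝ)
    (hw : ∀ α β, c.ς.SameCycle α β → w α = w β) (hn : ∀ α, w (c.neg α) = w α) :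
    ∑ k, w (a k).1 = ∑ p : c.Id lam, w p.1.2 := by
  have hr : c.Reg ζ z := by
    rcases hz with rfl | rfl
    exacts [(reg h hc.2.2.1).1, (reg h hc.2.2.1).2]
  have hl : (c.ℓ : ℝ) ≠ 0 := by exact_mod_cast c.ℓ_pos.ne'
  choose q q1 q2 using pos_bar h hc
  have e1 : ∑ b ∈ (WexA.fin c ζ c.ρ z).toFinset, c.per b.1 * w b.1 =
      ∑ α, c.per α * q α * w α := by
    rw [← Finset.sum_fiberwise _ Prod.fst]
    have e2 : ∀ α (t : ℕ), max 0 (c.al α (c.ρ - z)) = c.per α * t →
        ∑ b ∈ (WexA.fin c ζ c.ρ z).toFinset with b.1 = α, c.per b.1 * w b.1 =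
          c.per α * t * w α := fun α t ht => by
      rw [Finset.sum_congr rfl fun b hb => by rw [(Finset.mem_filter.1 hb).2], Finset.sum_const,
        fiber h z α t ht, nsmul_eq_mul]
      ring
    rcases hz with rfl | rfl
    · refine Fintype.sum_bijective c.neg (Function.Involutive.bijective h.cd.neg_neg) _ _ fun α => ?_
      rw [e2 α (q (c.neg α)) (by simpa [c.al_neg, h.orb.per_neg] using q1 (c.neg α)),
        h.orb.per_neg, hn]
    · exact Finset.sum_congr rfl fun α _ => e2 α _ (by simpa using q1 α)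
  refine mul_left_cancel₀ hl ?_
  rw [← gal_sum h hr hg w hw, e1, ← Finset.sum_subtype
    (Finset.univ.filter fun p : J × Φ => c.al p.2 (lam p.1) = 1) (by simp) fun p => w p.2,
    Finset.sum_filter, Fintype.sum_prod_type, Finset.mul_sum]
  simp only [q2, Finset.sum_mul]
  rw [Finset.sum_comm]
  refine Finset.sum_congr rfl fun j _ => ?_
  rw [Finset.sum_comm, Finset.sum_congr rfl fun k _ => Fintype.sum_equiv (c.ς ^ k) _
    (fun β => if c.al β (lam j) = 1 then w β else 0) fun α => by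
      rw [ite_mul, one_mul, zero_mul, hw α ((c.ς ^ k) α) ⟨(k : ℤ), by simp⟩]]
  simp

end CountA

theorem count (h : T2d c ζ) : S_count c ζ where
  count := fun lam r z n a hc hz hg => by
    refine ⟨?_, ?_⟩
    · have := CountA.main h hc hz hg (fun _ => 1) (fun _ _ _ => rfl) fun _ => rfl
      simpa using this
    · have p : ∀ α, (0 : ℝ) < c.nu α := fun α => by exact_mod_cast h.orb.nu_pos α
      have := CountA.main h hc hz hg (fun α => Real.log (c.nu α))
        (fun α β e => by rw [h.orb.nu_cyc α β e]) fun α => by rw [h.orb.nu_neg]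
      rw [← Real.log_prod fun k _ => (p _).ne', ← Real.log_prod fun k _ => (p _).ne'] at this
      have := Real.log_injOn_pos (Finset.prod_pos fun k _ => p _) (Finset.prod_pos fun k _ => p _)
        this
      rw [CD.cnu]
      exact_mod_cast this
  reg := fun lam hl => CountA.reg h hl
  fin := by
    refine Finite.of_finite_image (f := fun lam i => c.al (c.sim i) lam) ((Finite.pi' fun _ : Δ =>
      toFinite ({0, 1, -1} : Set ℚ)).subset ?_) fun x hx y hy e => c.bas.ext_elem fun i => ?_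
    · rintro _ ⟨lam, hl, rfl⟩ i
      exact hl.2 _
    · rcases i with β | i
      · rw [hx.1 β, hy.1 β]
      · rw [← c.al_sim, ← c.al_sim]
        exact congrFun e i
  cnu_pos := fun lam => Finset.prod_pos fun p _ => h.orb.nu_pos _
  co_bar := fun lam r α hc hα => CountA.co_bar h α hc hα

end Pool.Agent.P.MP_e7d440_ag.U
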