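import Pool.Agent.P.MP_e7d440_ag.U.Iface2

/-! Equivariant loops. -/

namespace Pool.Agent.P.MP_e7d440_ag.U

open TensorProduct LieAlgebra LaurentPolynomial Set

variable {L Φ Δ : Type} [LieRing L] [LieAlgebra ℚ L] [Fintype Φ] [Fintype Δ] [DecidableEq Φ]
  [DecidableEq Δ] (c : CD L Φ Δ) {K : Type} [Field K] [CharZero K] (ζ : K)

namespace EqvA

variable {c ζ}

lemma mon_mem (h : T1 c K) {m : ℤ} {x : G L K} (hx : c.sg K x = ζ ^ (-m) • x) :
    mon m x ∈ c.Eqv ζ := fun n => by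
  rw [h.lp.cf_mon]
  split_ifs with e
  · rw [← e, hx]
  · simp

lemma zp (hz : IsPrimitiveRoot ζ c.ℓ) {k : ℤ} (hk : (c.ℓ : ℤ) ∣ k) (n : ℤ) :
    ζ ^ (-(n - k)) = ζ ^ (-n) := by
  rw [neg_sub, sub_eq_add_neg, zpow_add₀ (hz.ne_zero c.ℓ_pos.ne'),
    (hz.zpow_eq_one_iff_dvd k).2 hk, one_mul]

lemma lie (h : T1 c K) (hz : IsPrimitiveRoot ζ c.ℓ) (f : LG L K) (hf : f ∈ c.Eqv ζ) (g : LG L K)
    (hg : g ∈ c.Eqv ζ) : ⁅f, g⁆ ∈ c.Eqv ζ := by
  obtain ⟨t, -, e⟩ := h.lp.sum_mon f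
  obtain ⟨t', -, e'⟩ := h.lp.sum_mon g
  rw [e, e', sum_lie_sum]
  refine Submodule.sum_mem _ fun m _ => Submodule.sum_mem _ fun n _ => ?_
  rw [h.lp.mon_lie]
  refine mon_mem h ?_
  rw [h.gk.sg_lie, hf, hg, smul_lie, lie_smul, smul_smul, neg_add,
    zpow_add₀ (hz.ne_zero c.ℓ_pos.ne')]

lemma cf_T (h : T1 c K) (k n : ℤ) (f : LG L K) : cf n ((T k : LP K) • f) = cf (n - k) f :=
  c.ext0 fun i => by rw [c.co_cf, c.co_cf, h.lp.co_T]

lemma diag_sg (h : T1 c K) (d : Φ ⊕ Δ → K) (h1 : ∀ α, d (.inl (c.ς α)) = d (.inl α))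
    (h2 : ∀ i i', d (.inr i) = d (.inr i')) (x : G L K) :
    c.sg K (c.diag d x) = c.diag d (c.sg K x) := by
  refine c.ext0 fun i => ?_
  rw [c.crd_diag]
  rcases i with β | j
  · obtain ⟨α, rfl⟩ := c.ς.surjective β
    obtain ⟨ε, -, -, e⟩ := h.gk.crd_sg α
    rw [e, e, c.crd_diag, h1, mul_smul_comm]
  · have := h.gk.crd_sg_inr (c.diag d x - d (.inr j) • x) (fun i => by
      rw [map_sub, map_smul, c.crd_diag, h2 i j, smul_eq_mul, sub_self]) j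
    rwa [map_sub, map_sub, map_smul, map_smul, sub_eq_zero, smul_eq_mul] at this

lemma pr (h : T1 c K) (p : ℤ × (Φ ⊕ Δ) → Prop)
    (h1 : ∀ m α, p (m, .inl (c.ς α)) ↔ p (m, .inl α))
    (h2 : ∀ m i i', p (m, .inr i) ↔ p (m, .inr i')) (f : LG L K) (hf : f ∈ c.Eqv ζ) :
    c.pr p f ∈ c.Eqv ζ := by
  classical
  intro m
  have e : cf m (c.pr p f) = c.diag (fun i => if p (m, i) then 1 else 0) (cf m f) :=
    c.ext0 fun i => by
      rw [c.crd_diag, c.co_cf, c.co_cf, c.co_pr]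
      split_ifs <;> simp
  rw [e, diag_sg h _ (fun α => by simp only [h1]) (fun i i' => by simp only [h2 m i i']), hf,
    map_smul]

lemma sg_pow {x : G L K} {a : K} (hx : c.sg K x = a • x) (i : ℕ) :
    (c.sg K ^ i) x = a ^ i • x := by
  induction i with
  | zero => simp
  | succ i ih => rw [pow_succ', Module.End.mul_apply, ih, map_smul, hx, smul_smul, pow_succ]

lemma sg_cc (h : T1 c K) (hz : IsPrimitiveRoot ζ c.ℓ) (n : ℤ) (x : G L K) :
    c.sg K (c.cc ζ x n) = ζ ^ (-n) • c.cc ζ x n := by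
  have h0 := hz.ne_zero c.ℓ_pos.ne'
  have e1 := Finset.sum_range_succ (fun i : ℕ => ζ ^ ((i : ℤ) * n) • (c.sg K ^ i) x) c.ℓ
  rw [Finset.sum_range_succ', h.gk.sg_pow, (hz.zpow_eq_one_iff_dvd _).2 (dvd_mul_right _ _)] at e1
  simp only [Nat.cast_zero, zero_mul, zpow_zero, pow_zero, add_left_inj] at e1
  rw [CD.cc, ← e1, Finset.smul_sum]
  conv_lhs => rw [e1, map_sum]
  refine Finset.sum_congr rfl fun i _ => ?_
  rw [map_smul, smul_smul, ← zpow_add₀ h0, pow_succ', Module.End.mul_apply]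
  congr 2
  push_cast
  ring

lemma avg (hz : IsPrimitiveRoot ζ c.ℓ) {x : G L K} {m : ℤ} (hx : c.sg K x = ζ ^ (-m) • x) :
    c.cc ζ x m = (c.ℓ : K) • x := by
  have h0 := hz.ne_zero c.ℓ_pos.ne'
  rw [CD.cc, Finset.sum_congr rfl (g := fun _ => x), Finset.sum_const, Finset.card_range,
    Nat.cast_smul_eq_nsmul]
  intro i _
  rw [sg_pow hx, smul_smul, ← zpow_natCast, ← zpow_mul, ← zpow_add₀ h0]
  simp [mul_comm]

lemma co_ς (h : T1 c K) (hz : IsPrimitiveRoot ζ c.ℓ) (α : Φ) :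
    ∃ ε : K, (ε = 1 ∨ ε = -1) ∧ ∀ f ∈ c.Eqv ζ, ∀ m,
      c.co (m, .inl (c.ς α)) f = ε * ζ ^ m * c.co (m, .inl α) f := by
  have h0 := hz.ne_zero c.ℓ_pos.ne'
  obtain ⟨ε, h1, -, e⟩ := h.gk.crd_sg α
  refine ⟨ε, by rcases h1 with rfl | rfl <;> simp, fun f hf m => ?_⟩
  have := e (cf m f)
  rw [hf, map_smul, c.co_cf, c.co_cf, smul_eq_mul, Rat.smul_def, zpow_neg] at this
  have h2 := zpow_ne_zero m h0
  field_simp at this
  rw [this]
  ring

lemma zpow_mem (hz : IsPrimitiveRoot ζ c.ℓ) (S : Subring K) (hS : c.SD ζ S) (n : ℤ) :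
    ζ ^ n ∈ S := by
  obtain ⟨k, rfl | rfl⟩ := n.eq_nat_or_neg
  · rw [zpow_natCast]
    exact S.pow_mem hS.1 k
  · have e : ζ⁻¹ = ζ ^ (c.ℓ - 1) := by
      refine inv_eq_of_mul_eq_one_left ?_
      rw [← pow_succ, Nat.sub_add_cancel c.ℓ_pos, hz.pow_eq_one]
    rw [zpow_neg, zpow_natCast, ← inv_pow, e]
    exact S.pow_mem (S.pow_mem hS.1 _) k

lemma cc_in (h : T1 c K) (hz : IsPrimitiveRoot ζ c.ℓ) (S : Subring K) (hS : c.SD ζ S) (n : ℤ)
    (x : G L K) (hx : c.In0 S x) : c.In0 S (c.cc ζ x n) := by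
  have e : ∀ i : ℕ, c.In0 S ((c.sg K ^ i) x) := fun i => by
    induction i with
    | zero => simpa using hx
    | succ i ih =>
      rw [pow_succ', Module.End.mul_apply]
      exact h.gk.in_sg S S _ (SM.self S) ih
  intro j
  rw [CD.cc, map_sum]
  refine S.sum_mem fun i _ => ?_
  rw [map_smul, smul_eq_mul]
  exact S.mul_mem (zpow_mem hz S hS _) (e i j)

lemma sum_cc (hz : IsPrimitiveRoot ζ c.ℓ) (v : G L K) :
    ∑ n ∈ Finset.range c.ℓ, c.cc ζ v n = (c.ℓ : K) • v := by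
  simp only [CD.cc]
  rw [Finset.sum_comm, Finset.sum_eq_single 0 (fun i hi h0 => ?_)
    (fun h => absurd (Finset.mem_range.2 c.ℓ_pos) h)]
  · simp [Nat.cast_smul_eq_nsmul]
  · have h1 : ζ ^ i ≠ 1 := hz.pow_ne_one_of_pos_of_lt h0 (Finset.mem_range.1 hi)
    have h2 := geom_sum_mul (ζ ^ i) c.ℓ
    rw [← pow_mul, mul_comm i, pow_mul, hz.pow_eq_one, one_pow, sub_self, mul_eq_zero,
      sub_eq_zero] at h2
    rw [← Finset.sum_smul]
    simp only [← Nat.cast_mul, zpow_natCast, pow_mul, h2.resolve_right h1, zero_smul]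

lemma surj (h : T1 c K) (hz : IsPrimitiveRoot ζ c.ℓ) (s : K) (hs : s ≠ 0) (v : G L K) :
    ∃ f ∈ c.Eqv ζ, ev s f = v ∧
      ∀ (S : Subring K), c.SD ζ S → s⁻¹ ∈ S → c.In0 S v → c.In S f := by
  have hl : (c.ℓ : K) ≠ 0 := Nat.cast_ne_zero.2 c.ℓ_pos.ne'
  refine ⟨∑ n ∈ Finset.range c.ℓ, ((c.ℓ : K)⁻¹ * s⁻¹ ^ n) • mon n (c.cc ζ v n),
    Submodule.sum_mem _ fun n _ => Submodule.smul_mem _ _ (mon_mem h (sg_cc h hz _ _)), ?_,
    fun S h1 h2 h3 => ?_⟩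
  · rw [map_sum, Finset.sum_congr rfl (g := fun n : ℕ => (c.ℓ : K)⁻¹ • c.cc ζ v n),
      ← Finset.smul_sum, sum_cc hz, smul_smul, inv_mul_cancel₀ hl, one_smul]
    intro n _
    rw [map_smul, h.lp.ev_mon, smul_smul, zpow_natCast, mul_assoc, ← mul_pow, inv_mul_cancel₀ hs,
      one_pow, mul_one]
  · obtain ⟨-, -, a, -, b⟩ := h.sup.in_add S S (SM.self S)
    exact b _ _ fun n _ => a _ _ (S.mul_mem h1.2 (S.pow_mem h2 n))
      ((h.sup.in_mon S _ _ S.zero_mem).2 (cc_in h hz S h1 _ v h3))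

lemma gr_sg (h : T1 c K) {z : L} (hz : c.Fix z) {P : Set ℚ} {x : G L K} (hx : x ∈ c.Gr z P) :
    c.sg K x ∈ c.Gr z P := by
  intro i hi
  rcases i with β | j
  · obtain ⟨α, rfl⟩ := c.ς.surjective β
    obtain ⟨ε, -, -, e⟩ := h.gk.crd_sg α
    have := hx (.inl α) fun h0 => hi (by rw [e, h0, smul_zero])
    have e2 : c.al α z = c.al (c.ς α) z := h.cd.fix_al z hz _ _ ⟨1, by simp⟩
    simpa only [CD.wt0, Sum.elim_inl, e2] using this
  · by_contra h1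
    exact hi (h.gk.crd_sg_inr x (fun i => by_contra fun h2 => h1 (hx (.inr i) h2)) j)

lemma span (h : T1 c K) (hz : IsPrimitiveRoot ζ c.ℓ) (f : LG L K) (hf : f ∈ c.Eqv ζ) :
    ∃ t : Finset (ℤ × (Φ ⊕ Δ)), (∀ a ∈ t, c.co a f ≠ 0) ∧
      f = ∑ a ∈ t, (c.co a f / (c.ℓ : K)) • mon a.1 (c.cc ζ (c.bs K a.2) a.1) := by
  have hl : (c.ℓ : K) ≠ 0 := Nat.cast_ne_zero.2 c.ℓ_pos.ne'
  let A : LG L K →ₗ[K] LG L K := (c.BB K).constr K fun a => mon a.1 (c.cc ζ (c.bs K a.2) a.1)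
  have e0 : ∀ (m : ℤ) (x : G L K), c.cc ζ x m =
      (∑ i ∈ Finset.range c.ℓ, ζ ^ ((i : ℤ) * m) • (c.sg K ^ i)) x := fun m x => by
    simp [CD.cc, LinearMap.sum_apply]
  have e1 : ∀ (m : ℤ) (x : G L K), A (mon m x) = mon m (c.cc ζ x m) := fun m x => by
    have : A ∘ₗ mon m = mon m ∘ₗ ∑ i ∈ Finset.range c.ℓ, ζ ^ ((i : ℤ) * m) • (c.sg K ^ i) :=
      (c.bs K).ext fun i => by
        rw [LinearMap.comp_apply, LinearMap.comp_apply, ← e0, ← c.BB_apply (m, i)]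
        exact (c.BB K).constr_basis K _ (m, i)
    rw [e0]
    exact LinearMap.congr_fun this x
  have e2 : A f = (c.ℓ : K) • f := by
    obtain ⟨t, -, e⟩ := h.lp.sum_mon f
    rw [e, map_sum, Finset.smul_sum]
    exact Finset.sum_congr rfl fun m _ => by rw [e1, avg hz (hf m), map_smul]
  refine ⟨((c.BB K).repr f).support, fun a ha => by
    rw [c.co_repr]; exact Finsupp.mem_support_iff.1 ha, ?_⟩
  have e3 : f = (c.ℓ : K)⁻¹ • A f := by rw [e2, smul_smul, inv_mul_cancel₀ hl, one_smul]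
  conv_lhs => rw [e3, Module.Basis.constr_apply, Finsupp.sum, Finset.smul_sum]
  exact Finset.sum_congr rfl fun a _ => by rw [smul_smul, div_eq_inv_mul, c.co_repr]

end EqvA

theorem eqv (h : T1 c K) (hz : IsPrimitiveRoot ζ c.ℓ) : S_eqv c ζ where
  lie := EqvA.lie h hz
  smul p hp f hf n := by
    rw [h.lp.cf_smul, Finsupp.sum, map_sum, Finset.smul_sum]
    refine Finset.sum_congr rfl fun m hm => ?_
    rw [map_smul, hf, EqvA.zp hz (hp m (Finsupp.mem_support_iff.1 hm)), smul_comm]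
  T_iff k f hk := by
    refine ⟨fun hf m => ?_, fun hf n => by rw [EqvA.cf_T h, hf, EqvA.zp hz hk]⟩
    have := hf (m + k)
    rwa [EqvA.cf_T h, ← EqvA.zp hz hk, add_sub_cancel_right] at this
  dd f hf m := by
    have e : cf m (dd f) = (m : K) • cf m f := c.ext0 fun i => by
      rw [map_smul, c.co_cf, c.co_cf, h.lp.co_dd, smul_eq_mul]
    rw [e, map_smul, hf, smul_comm]
  pr := EqvA.pr h
  pr_wt z P hf := EqvA.pr h _ (fun m α => by
      rw [c.wt_inl, c.wt_inl, CD.val, CD.val, h.cd.fix_al z hf α (c.ς α) ⟨1, by simp⟩])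
    (fun m i i' => by rw [c.wt_inr, c.wt_inr])
  pr_ty a := EqvA.pr h _ (fun m α => by simp [CD.Ty]) (fun m i i' => by simp [CD.Ty])
  pr_ht m := EqvA.pr h _ (fun m α => by simp [Ht]) (fun m i i' => by simp [Ht])
  pr_hz := EqvA.pr h _ (fun m α => by simp [CD.Hz]) (fun m i i' => by simp [CD.Hz])
  c0 x hx := by
    rw [← h.lp.mon_c0]
    exact EqvA.mon_mem h (by simp [hx])
  cc n x := EqvA.mon_mem h (EqvA.sg_cc h hz n x)
  ex x hx hn f hf :=
    (h.ex.stable (c.Eqv ζ) (c.Eqv ζ) x hn le_rfl (EqvA.lie h hz x hx) f hf).2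
  kR f hf g hg n hn := by
    by_contra h1
    refine hn ?_
    obtain ⟨t, -, e⟩ := h.lp.sum_mon f
    obtain ⟨t', -, e'⟩ := h.lp.sum_mon g
    rw [e, e', LinearMap.BilinForm.sum_left, AddMonoidAlgebra.coeff_sum, Finsupp.finsetSum_apply]
    refine Finset.sum_eq_zero fun a _ => ?_
    rw [map_sum, AddMonoidAlgebra.coeff_sum, Finsupp.finsetSum_apply]
    refine Finset.sum_eq_zero fun b _ => ?_
    rw [h.lp.mon_kR, ← single_eq_C_mul_T, AddMonoidAlgebra.coeff_single, Finsupp.single_apply]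
    split_ifs with h2
    · have := h.gk.sg_form (cf a f) (cf b g)
      rw [hf, hg, map_smul, map_smul, LinearMap.smul_apply, smul_smul,
        ← zpow_add₀ (hz.ne_zero c.ℓ_pos.ne'), smul_eq_mul] at this
      refine (mul_left_eq_self₀.1 this).resolve_left fun h3 => h1 ?_
      rw [hz.zpow_eq_one_iff_dvd] at h3
      rw [← h2, ← dvd_neg, neg_add, add_comm]
      exact h3
    · rfl
  avg f hf m := EqvA.avg hz (hf m)
  co_ς := EqvA.co_ς h hz
  co_cyc f hf m α β hc h0 := by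
    obtain ⟨n, -, rfl⟩ := hc.exists_pow_eq'
    clear hc
    induction n with
    | zero => simpa using h0
    | succ n ih =>
      obtain ⟨ε, h1, e⟩ := EqvA.co_ς h hz ((c.ς ^ n) α)
      rw [pow_succ', Equiv.Perm.mul_apply, e f hf]
      refine mul_ne_zero (mul_ne_zero ?_ (zpow_ne_zero m (hz.ne_zero c.ℓ_pos.ne'))) ih
      rcases h1 with rfl | rfl <;> simp
  ev_rot f hf i s hs := by
    have h0 := hz.ne_zero c.ℓ_pos.ne'
    obtain ⟨t, -, e⟩ := h.lp.sum_mon f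
    rw [e, map_sum, map_sum, map_sum]
    refine Finset.sum_congr rfl fun m _ => ?_
    rw [h.lp.ev_mon, h.lp.ev_mon, map_smul, EqvA.sg_pow (hf m), smul_smul, mul_zpow,
      ← zpow_natCast, ← zpow_natCast, ← zpow_mul, ← zpow_mul, mul_right_comm, ← zpow_add₀ h0]
    simp [mul_comm]
  surj := EqvA.surj h hz
  evE_ext s hs g g' e := LinearMap.ext fun v => by
    obtain ⟨f, hf, rfl, -⟩ := EqvA.surj h hz s hs v
    rw [← h.lp.ev_op s hs, ← h.lp.ev_op s hs, e f hf]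
  cc_sup z hf a := by
    rw [h.sup.mon]
    refine Submodule.sum_mem _ fun i hi => Submodule.smul_mem _ _ ?_
    clear hi
    induction i with
    | zero => exact h.gk.gr_bs z _ _ rfl
    | succ i ih =>
      rw [pow_succ', Module.End.mul_apply]
      exact EqvA.gr_sg h hf ih
  cc_in := EqvA.cc_in h hz
  span := EqvA.span h hz
  zpow_mem := EqvA.zpow_mem hz

end Pool.Agent.P.MP_e7d440_ag.U
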