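import Mathlib

/-! Exponentials in a ring: logarithmic derivative and the Heisenberg relation. -/

namespace Pool.Agent.P.MP_e7d440_ag.U.HeisA

open IsNilpotent Polynomial

variable {A : Type} [Ring A] [Module ℚ A]

lemma comm_exp {a b : A} (ha : IsNilpotent a) (h : Commute b a) : Commute b (exp a) := by
  obtain ⟨N, hN⟩ := ha
  rw [exp_eq_sum hN]
  exact Commute.sum_right _ _ _ fun i _ => (h.pow_right i).smul_right _

omit [Module ℚ A] in
lemma der_pow (D : A →+ A) (hD : ∀ x y, D (x * y) = D x * y + x * D y) {p : A}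
    (h : Commute p (D p)) (k : ℕ) : D (p ^ (k + 1)) = (k + 1) • (D p * p ^ k) := by
  induction k with
  | zero => simp
  | succ k ih =>
    rw [pow_succ' p (k + 1), hD, ih, mul_smul_comm, ← mul_assoc, h.eq, mul_assoc, ← pow_succ',
      add_smul (k + 1) 1, one_smul, add_comm]

lemma der_exp (D : A →+ A) (hD : ∀ x y, D (x * y) = D x * y + x * D y) {p : A}
    (hp : IsNilpotent p) (h : Commute p (D p)) : D (exp p) = D p * exp p := by
  obtain ⟨N, hN⟩ := hp
  have h1 : D 1 = 0 := by simpa using hD 1 1
  conv_lhs => rw [exp_eq_sum (k := N + 1) (by rw [_root_.pow_succ, hN, zero_mul])]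
  rw [exp_eq_sum hN, Finset.sum_range_succ', map_add, map_sum, Finset.mul_sum, map_rat_smul,
    pow_zero, h1, smul_zero, add_zero]
  refine Finset.sum_congr rfl fun k _ => ?_
  rw [map_rat_smul, der_pow D hD h, mul_smul_comm, ← Nat.cast_smul_eq_nsmul ℚ, smul_smul]
  congr 1
  rw [Nat.factorial_succ]
  push_cast
  field_simp

lemma exp_mul {p b : A} (hp : IsNilpotent p) (h : Commute p (p * b - b * p)) :
    exp p * b = (b + (p * b - b * p)) * exp p := by
  have := der_exp (AddMonoidHom.mulRight b - AddMonoidHom.mulLeft b)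
    (fun x y => by simp [mul_sub, sub_mul, mul_assoc]) hp (by simpa using h)
  simp only [AddMonoidHom.sub_apply, AddMonoidHom.coe_mulRight, AddMonoidHom.coe_mulLeft] at this
  rw [add_mul, ← this]
  abel

lemma dexp {p : A[X]} (hp : IsNilpotent p) (h : Commute p (derivative p)) :
    derivative (exp p) = derivative p * exp p :=
  der_exp (derivative : A[X] →ₗ[A] A[X]).toAddMonoidHom (fun _ _ => derivative_mul) hp h

omit [Module ℚ A] in
lemma nilX {a : A} (ha : IsNilpotent a) : IsNilpotent (C a * X) := by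
  simpa using isNilpotent_C_mul_pow_X_of_isNilpotent 1 ha

omit [Module ℚ A] in
lemma cc {a b : A} (h : Commute a b) (m n : ℕ) : Commute (C a * X ^ m) (C b * X ^ n) :=
  ((h.map C).mul_right (commute_X_pow _ _).symm).mul_left (commute_X_pow _ _)

lemma dexp1 {a : A} (ha : IsNilpotent a) : derivative (exp (C a * X)) = C a * exp (C a * X) := by
  have := dexp (nilX ha) (by simpa using cc (Commute.refl a) 1 0)
  simpa using this

theorem heis {a b : A} (ha : IsNilpotent a) (hb : IsNilpotent b) (hab : IsNilpotent (a + b))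
    (hc : IsNilpotent (a * b - b * a)) (h1 : Commute a (a * b - b * a))
    (h2 : Commute b (a * b - b * a)) :
    exp (a + b) = exp a * exp b * exp (-((1 / 2 : ℚ) • (a * b - b * a))) := by
  have := IsAddTorsionFree.of_module_rat A
  obtain ⟨c, hcd⟩ : ∃ c, c = a * b - b * a := ⟨_, rfl⟩
  rw [← hcd] at hc h1 h2 ⊢
  obtain ⟨d, hd⟩ : ∃ d, d = -((1 / 2 : ℚ) • c) := ⟨_, rfl⟩
  have hdn : IsNilpotent d := by rw [hd]; exact (hc.smul _).neg
  have hd2 : d * 2 = -c := by
    rw [hd, mul_two, ← neg_add, ← add_smul]; norm_num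
  rw [← hd]
  have n3 := isNilpotent_C_mul_pow_X_of_isNilpotent 2 hdn
  have e3 : derivative (C d * X ^ 2) = -(C c * X) := by
    rw [derivative_C_mul_X_pow]
    simp only [Nat.cast_ofNat, hd2, map_neg, neg_mul]
    norm_num
  have d3 : derivative (exp (C d * X ^ 2)) = -(C c * X) * exp (C d * X ^ 2) := by
    rw [dexp n3, e3]
    rw [e3]
    refine Commute.neg_right ?_
    have : Commute d c := by rw [hd]; exact ((Commute.refl c).smul_left _).neg_left
    simpa using cc this 2 1
  have hbr : C a * X * C b - C b * (C a * X) = C c * X := by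
    rw [hcd, map_sub, map_mul, map_mul, sub_mul, mul_assoc, mul_assoc, mul_assoc, X_mul]
  have m1 : exp (C a * X) * C b = (C b + C c * X) * exp (C a * X) := by
    rw [exp_mul (nilX ha), hbr]
    rw [hbr]
    simpa using cc h1 1 1
  have c1 : Commute (C c * X) (exp (C a * X)) :=
    comm_exp (nilX ha) (by simpa using cc h1.symm 1 1)
  have c2 : Commute (C c * X) (exp (C b * X)) :=
    comm_exp (nilX hb) (by simpa using cc h2.symm 1 1)
  have c3 : Commute (C (a + b)) (exp (C (-(a + b)) * X)) :=
    comm_exp (nilX hab.neg) (by simpa using cc (Commute.refl (a + b)).neg_right 0 1)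
  obtain ⟨F, hF⟩ : ∃ F, F = exp (C a * X) * exp (C b * X) * exp (C d * X ^ 2) := ⟨_, rfl⟩
  have dF : derivative F = C (a + b) * F := by
    rw [hF, derivative_mul, derivative_mul, dexp1 ha, dexp1 hb, d3, ← mul_assoc _ (C b), m1,
      ← mul_assoc _ (-_), mul_neg, ← (c1.mul_right c2).eq, map_add]
    noncomm_ring
  have dG : derivative (exp (C (-(a + b)) * X) * F) = 0 := by
    rw [derivative_mul, dexp1 hab.neg, dF, ← mul_assoc _ (C (a + b)), ← c3.eq, map_neg C (a + b)]
    noncomm_ring
  have hG := eq_C_of_derivative_eq_zero dG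
  have h0 : (exp (C (-(a + b)) * X) * F).coeff 0 = 1 := by
    rw [← constantCoeff_apply, hF, map_mul, map_mul, map_mul, (nilX hab.neg).map_exp,
      (nilX ha).map_exp, (nilX hb).map_exp, n3.map_exp]
    simp
  rw [h0, map_one] at hG
  have h3 := congrArg (eval₂RingHom' (RingHom.id A) 1 fun x => Commute.one_right _) hG
  rw [hF, map_mul, map_mul, map_mul, (nilX hab.neg).map_exp, (nilX ha).map_exp,
    (nilX hb).map_exp, n3.map_exp, map_one] at h3
  simp only [map_mul, map_pow, eval₂RingHom'_apply, eval₂_C, eval₂_X, RingHom.id_apply, mul_one,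
    one_pow] at h3
  rw [← one_mul (exp a * exp b * exp d), ← hab.exp_mul_exp_neg_self, mul_assoc, h3, mul_one]

end Pool.Agent.P.MP_e7d440_ag.U.HeisA
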