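import Pool.Agent.P.MP_e7d440_ag.U.Iface
import Pool.Agent.P.MP_e7d440_ag.U.Heis

/-! Exponentials of nilpotent inner derivations. -/

namespace Pool.Agent.P.MP_e7d440_ag.U

open TensorProduct LieAlgebra LaurentPolynomial Set

variable {L Φ Δ : Type} [LieRing L] [LieAlgebra ℚ L] [Fintype Φ] [Fintype Δ] [DecidableEq Φ]
  [DecidableEq Δ] (c : CD L Φ Δ)

namespace ExA

set_option linter.unusedSectionVars false

variable {R : Type} [CommRing R] [Algebra ℚ R]

lemma nil_smul (t : R) (x : G L R) (hx : Nil x) : Nil (t • x) := by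
  unfold Nil at *
  rw [map_smul]
  exact hx.smul t

lemma nil_neg (x : G L R) (hx : Nil x) : Nil (-x) := by
  unfold Nil at *
  rw [map_neg]
  exact hx.neg

lemma zero : Nil (0 : G L R) ∧ ex (0 : G L R) = 1 := by
  unfold Nil ex
  rw [map_zero]
  exact ⟨IsNilpotent.zero, IsNilpotent.exp_zero⟩

lemma inv (x : G L R) (hx : Nil x) : ex x * ex (-x) = 1 ∧ ex (-x) * ex x = 1 := by
  unfold ex
  rw [map_neg]
  exact ⟨IsNilpotent.exp_mul_exp_neg_self hx, IsNilpotent.exp_neg_mul_exp_self hx⟩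

lemma sum (x y : G L R) (N : ℕ) (h : ad R (G L R) x ^ N = 0) :
    ex x y = ∑ k ∈ Finset.range N, ((k.factorial : ℚ)⁻¹) • (ad R (G L R) x ^ k) y := by
  unfold ex
  rw [IsNilpotent.exp_eq_sum h, LinearMap.sum_apply]
  rfl

lemma sum' (x y : G L R) (hx : Nil x) (N : ℕ) (h : (ad R (G L R) x ^ N) y = 0) :
    ex x y = ∑ k ∈ Finset.range N, ((k.factorial : ℚ)⁻¹) • (ad R (G L R) x ^ k) y :=
  IsNilpotent.exp_smul_eq_sum (a := ad R (G L R) x) (m := y) h hx

lemma ad_succ (x y : G L R) (k : ℕ) :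
    (ad R (G L R) x ^ (k + 1)) y = ⁅x, (ad R (G L R) x ^ k) y⁆ := by
  rw [pow_succ', Module.End.mul_apply, ad_apply]

lemma fix (x y : G L R) (hx : Nil x) (h : ⁅x, y⁆ = 0) : ex x y = y := by
  rw [sum' x y hx 1 (by simpa using h)]
  simp

lemma two (x y : G L R) (hx : Nil x) (h : ⁅x, ⁅x, y⁆⁆ = 0) : ex x y = y + ⁅x, y⁆ := by
  rw [sum' x y hx 2 (by simpa [ad_succ] using h)]
  simp [Finset.sum_range_succ]

lemma three (x y : G L R) (hx : Nil x) (h : ⁅x, ⁅x, ⁅x, y⁆⁆⁆ = 0) :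
    ex x y = y + ⁅x, y⁆ + (1 / 2 : ℚ) • ⁅x, ⁅x, y⁆⁆ := by
  rw [sum' x y hx 3 (by simpa [ad_succ] using h)]
  simp [Finset.sum_range_succ, ad_succ]

lemma ex_sub (x y : G L R) (hx : Nil x) (P : G L R → Prop) (h0 : P 0)
    (ha : ∀ u v, P u → P v → P (u + v))
    (h : ∀ k : ℕ, P ((((k + 1).factorial : ℚ)⁻¹) • (ad R (G L R) x ^ (k + 1)) y)) :
    P (ex x y - y) := by
  obtain ⟨N, hN⟩ := hx
  rw [sum x y (N + 1) (by rw [pow_succ, hN, zero_mul]), Finset.sum_range_succ']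
  simp only [Nat.factorial_zero, Nat.cast_one, inv_one, pow_zero, Module.End.one_apply, one_smul,
    add_sub_cancel_right]
  exact Finset.sum_induction _ P ha h0 fun k _ => h k

lemma stable {K : Type} [CommRing K] [Algebra ℚ K] [Module K (G L R)]
    [IsScalarTower ℚ K (G L R)] (N N' : Submodule K (G L R)) (x : G L R) (hx : Nil x)
    (hle : N' ≤ N) (h : ∀ y ∈ N, ⁅x, y⁆ ∈ N') (y : G L R) (hy : y ∈ N) :
    ex x y - y ∈ N' ∧ ex x y ∈ N := by
  have h1 : ∀ k : ℕ, (ad R (G L R) x ^ k) y ∈ N := fun k => by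
    induction k with
    | zero => exact hy
    | succ k ih => rw [ad_succ]; exact hle (h _ ih)
  have h2 : ex x y - y ∈ N' := ex_sub x y hx (· ∈ N') N'.zero_mem (fun _ _ => N'.add_mem)
    fun k => N'.smul_of_tower_mem _ (by rw [ad_succ]; exact h _ (h1 k))
  exact ⟨h2, by simpa using N.add_mem (hle h2) hy⟩

lemma ad_lie (x y : G L R) : ad R (G L R) ⁅x, y⁆ =
    ad R (G L R) x * ad R (G L R) y - ad R (G L R) y * ad R (G L R) x :=
  LinearMap.ext fun z => by simp

lemma comm {x y : G L R} (h : ⁅x, y⁆ = 0) : Commute (ad R (G L R) x) (ad R (G L R) y) := by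
  have := ad_lie x y
  rw [h, map_zero] at this
  exact (sub_eq_zero.1 this.symm)

lemma add (x y : G L R) (hx : Nil x) (hy : Nil y) (h : ⁅x, y⁆ = 0) :
    Nil (x + y) ∧ ex (x + y) = ex x * ex y := by
  unfold Nil ex
  rw [map_add]
  exact ⟨(comm h).isNilpotent_add hx hy, IsNilpotent.exp_add_of_commute (comm h) hx hy⟩

lemma heis (x y : G L R) (hx : Nil x) (hy : Nil y) (hxy : Nil (x + y)) (hc : Nil ⁅x, y⁆)
    (h1 : ⁅x, ⁅x, y⁆⁆ = 0) (h2 : ⁅y, ⁅x, y⁆⁆ = 0) :
    ex (x + y) = ex x * ex y * ex (-((1 / 2 : ℚ) • ⁅x, y⁆)) := by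
  unfold Nil at hxy hc
  have h3 := comm h1
  have h4 := comm h2
  rw [map_add] at hxy
  rw [ad_lie] at hc h3 h4
  unfold ex
  rw [map_add, map_neg, map_rat_smul, ad_lie]
  exact HeisA.heis hx hy hxy hc h3 h4

lemma ex_lie (x : G L R) (hx : Nil x) (y z : G L R) : ex x ⁅y, z⁆ = ⁅ex x y, ex x z⁆ := by
  let D : LieDerivation R (G L R) (G L R) :=
    { toLinearMap := ad R (G L R) x
      leibniz' := fun a b => by
        rw [ad_apply, ad_apply, ad_apply, leibniz_lie, sub_eq_add_neg, lie_skew, add_comm] }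
  exact (D.exp hx).map_lie y z

section hom
variable {R' : Type} [CommRing R'] [Algebra ℚ R']

variable {c}

lemma nat0 (hg : S_gk c) (f : R →+* R') (x y : G L R) (k : ℕ) :
    mqa (f : R →+ R') ((ad R (G L R) x ^ k) y) =
      (ad R' (G L R') (mqa (f : R →+ R') x) ^ k) (mqa (f : R →+ R') y) := by
  induction k with
  | zero => rfl
  | succ k ih => rw [ad_succ, ad_succ, hg.mqa_lie, ih]

lemma nat (hg : S_gk c) (f : R →+* R') (x : G L R) (hx : Nil x) : Nil (mqa (f : R →+ R') x) ∧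
    ∀ y, mqa (f : R →+ R') (ex x y) = ex (mqa (f : R →+ R') x) (mqa (f : R →+ R') y) := by
  obtain ⟨N, hN⟩ := hx
  have h1 : ad R' (G L R') (mqa (f : R →+ R') x) ^ N = 0 := by
    refine (c.bs R').ext fun i => ?_
    have h2 : c.bs R' i = mqa (f : R →+ R') (c.bs R i) := by
      rw [c.bs_apply, c.bs_apply, mqa_tmul, AddMonoidHom.coe_coe, map_one]
    rw [h2, ← nat0 hg, hN]
    simp
  refine ⟨⟨N, h1⟩, fun y => ?_⟩
  rw [sum x y N hN, sum _ _ N h1, map_sum]
  exact Finset.sum_congr rfl fun k _ => by rw [map_smul, nat0 hg]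

lemma nat_pf (hg : S_gk c) (f : R →+* R') {n : ℕ} (x : Fin n → G L R) (k : ℕ)
    (hx : ∀ i, Nil (x i)) (y : G L R) : mqa (f : R →+ R') (pf x k y) =
      pf (fun i => mqa (f : R →+ R') (x i)) k (mqa (f : R →+ R') y) := by
  induction n generalizing k with
  | zero => rw [pf_zero, pf_zero]; rfl
  | succ n ih =>
    rcases k with _ | k
    · rw [pf_succ, pf_succ, Module.End.mul_apply, Module.End.mul_apply, (nat hg f _ (hx 0)).2,
        ih (Fin.tail x) 0 fun i => hx i.succ]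
      rfl
    · rw [pf_succ_succ, pf_succ_succ, ih (Fin.tail x) k fun i => hx i.succ]
      rfl

end hom

/-- restriction of scalars for operators -/
def res : Module.End R (G L R) →+* Module.End ℚ (G L R) where
  toFun f := f.restrictScalars ℚ
  map_one' := rfl
  map_mul' _ _ := rfl
  map_zero' := rfl
  map_add' _ _ := rfl

lemma logd (δ : G L R →+ G L R) (x : G L R) (hδ : ∀ y z, δ ⁅y, z⁆ = ⁅δ y, z⁆ + ⁅y, δ z⁆)
    (hx : Nil x) (h : ⁅δ x, x⁆ = 0) (y : G L R) : δ (ex x y) = ex x (δ y) + ⁅δ x, ex x y⁆ := by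
  let d : Module.End ℚ (G L R) := δ.toRatLinearMap
  have h1 : res (ad R (G L R) x) * d - d * res (ad R (G L R) x) = -res (ad R (G L R) (δ x)) :=
    LinearMap.ext fun z => by
      change ⁅x, δ z⁆ - δ ⁅x, z⁆ = -⁅δ x, z⁆
      rw [hδ]; abel
  have h2 := HeisA.exp_mul (b := d) (IsNilpotent.map hx res)
    (by rw [h1]; exact ((comm h).symm.map res).neg_right)
  rw [h1, ← IsNilpotent.map_exp hx res] at h2
  have h3 : ex x (δ y) = δ (ex x y) + -⁅δ x, ex x y⁆ := LinearMap.congr_fun h2 y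
  rw [h3]; abel

lemma a0_one : c.A0 (1 : Module.End R (G L R)) := ⟨fun _ _ => rfl, fun _ _ => rfl, isUnit_one⟩

lemma a0_mul (g g' : Module.End R (G L R)) (h : c.A0 g) (h' : c.A0 g') : c.A0 (g * g') :=
  ⟨fun x y => by simp only [Module.End.mul_apply, h'.lie, h.lie],
    fun x y => by simp only [Module.End.mul_apply, h.form, h'.form], h.unit.mul h'.unit⟩

lemma a0_ex (g : Module.End R (G L R)) (h : c.A0 g) : ∃ g', g * g' = 1 ∧ g' * g = 1 :=
  isUnit_iff_exists.1 h.unit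

lemma a0_inv (g g' : Module.End R (G L R)) (h : c.A0 g) (e : g * g' = 1) :
    c.A0 g' ∧ g' * g = 1 := by
  obtain ⟨g'', _, e2⟩ := a0_ex c g h
  have e3 : g' * g = 1 := by
    rw [← one_mul g', ← e2, mul_assoc g'' g g', e, mul_one, e2]
  have h1 : ∀ x, g (g' x) = x := fun x => LinearMap.congr_fun e x
  have h2 : ∀ x, g' (g x) = x := fun x => LinearMap.congr_fun e3 x
  refine ⟨⟨fun x y => ?_, fun x y => ?_, isUnit_iff_exists.2 ⟨g, e3, e⟩⟩, e3⟩
  · rw [← h2 ⁅g' x, g' y⁆, h.lie, h1, h1]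
  · rw [← h.form, h1, h1]

lemma conj (g : Module.End R (G L R)) (x : G L R) (h : c.A0 g) (hx : Nil x) :
    Nil (g x) ∧ g * ex x = ex (g x) * g := by
  have h1 : ad R (G L R) (g x) ∘ₗ g = g ∘ₗ ad R (G L R) x :=
    LinearMap.ext fun y => (h.lie x y).symm
  have h2 : Nil (g x) := by
    obtain ⟨N, hN⟩ := hx
    obtain ⟨g', e, _⟩ := a0_ex c g h
    have h3 : ad R (G L R) (g x) ^ N * g = g * ad R (G L R) x ^ N :=
      Module.End.commute_pow_left_of_commute h1 N
    refine ⟨N, ?_⟩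
    rw [← mul_one (_ ^ N), ← e, ← mul_assoc, h3, hN, mul_zero, zero_mul]
  exact ⟨h2, (Module.End.commute_exp_left_of_commute hx h2 h1).symm⟩

lemma pf_step {n : ℕ} (x : Fin n → G L R) (k : Fin n) : pf x k = ex (x k) * pf x (k + 1) := by
  unfold pf pe
  rw [List.drop_eq_getElem_cons (by simp), List.map_cons, List.prod_cons, List.getElem_ofFn]

lemma pf_top {n : ℕ} (x : Fin n → G L R) (k : ℕ) (h : n ≤ k) : pf x k = 1 := by
  unfold pf pe
  rw [List.drop_eq_nil_of_le (by simpa using h)]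
  rfl

lemma pf_ind {n : ℕ} (x : Fin n → G L R) (k : ℕ) (Q : Module.End R (G L R) → Prop) (h1 : Q 1)
    (hm : ∀ g g', Q g → Q g' → Q (g * g')) (h : ∀ i : Fin n, k ≤ i → Q (ex (x i))) :
    Q (pf x k) := by
  induction n generalizing k with
  | zero => rw [pf_zero]; exact h1
  | succ n ih =>
    rcases k with _ | k
    · rw [pf_succ]
      exact hm _ _ (h 0 (Nat.zero_le _)) (ih (Fin.tail x) 0 fun i _ => h i.succ (Nat.zero_le _))
    · rw [pf_succ_succ]
      exact ih (Fin.tail x) k fun i hi => h i.succ (by simpa using hi)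

variable {c}

lemma kR_ad (hg : S_gk c) (x : G L R) (k : ℕ) (y z : G L R) :
    c.kR R ((ad R (G L R) x ^ k) y) z = c.kR R y ((ad R (G L R) (-x) ^ k) z) := by
  induction k generalizing z with
  | zero => rfl
  | succ k ih =>
    rw [ad_succ, ← lie_skew, map_neg, LinearMap.neg_apply, hg.inv, ← map_neg, ← neg_lie, ih,
      pow_succ, Module.End.mul_apply, ad_apply]

lemma kR_ex (hg : S_gk c) (x : G L R) (hx : Nil x) (y z : G L R) :
    c.kR R (ex x y) z = c.kR R y (ex (-x) z) := by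
  obtain ⟨N, hN⟩ := hx
  have h1 : ad R (G L R) (-x) ^ N = 0 := by rw [map_neg, neg_pow, hN, mul_zero]
  rw [sum x y N hN, sum (-x) z N h1, map_sum, map_sum, LinearMap.sum_apply]
  refine Finset.sum_congr rfl fun k _ => ?_
  rw [map_rat_smul, map_rat_smul, LinearMap.smul_apply, kR_ad hg]

lemma a0 (hg : S_gk c) (x : G L R) (hx : Nil x) : c.A0 (ex x) :=
  ⟨ex_lie x hx, fun y z => by
    rw [kR_ex hg x hx, ← Module.End.mul_apply, (inv x hx).2, Module.End.one_apply],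
    IsNilpotent.isUnit_exp hx⟩

lemma in_zero {S : Subring R} {M : Set R} (hM : SM S M) : c.In0 M (0 : G L R) := fun i => by
  rw [map_zero]; exact hM.zero

lemma in_add {S : Subring R} {M : Set R} (hM : SM S M) (u v : G L R) (hu : c.In0 M u)
    (hv : c.In0 M v) : c.In0 M (u + v) := fun i => by
  rw [map_add]; exact hM.add _ (hu i) _ (hv i)

lemma in_ex (hg : S_gk c) (S : Subring R) (M : Set R) (x y : G L R)
    (hq : ∀ q : ℚ, algebraMap ℚ R q ∈ S) (hM : SM S M) (hx : Nil x) :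
    (c.In0 S x → c.In0 M y → c.In0 M (ex x y)) ∧
      (M ⊆ S → c.In0 M x → c.In0 S y → c.In0 M (ex x y - y)) := by
  have hs : ∀ (q : ℚ) (u : G L R), c.In0 M u → c.In0 M (q • u) := fun q u hu i => by
    rw [map_rat_smul, Algebra.smul_def]; exact hM.mul _ (hq q) _ (hu i)
  have key : ∀ M' : Set R, SM S M' → c.In0 S x → c.In0 M' y →
      ∀ k : ℕ, c.In0 M' ((ad R (G L R) x ^ k) y) := fun M' hM' h1 h2 k => by
    induction k with
    | zero => exact h2
    | succ k ih => rw [ad_succ]; exact (hg.in_lie S M' _ _ hM' h1 ih).1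
  refine ⟨fun h1 h2 => ?_, fun hle h1 h2 => ?_⟩
  · have := in_add hM _ _ (ex_sub x y hx (c.In0 M) (in_zero hM) (in_add hM)
      fun k => hs _ _ (key M hM h1 h2 _)) h2
    simpa using this
  · refine ex_sub x y hx (c.In0 M) (in_zero hM) (in_add hM) fun k => hs _ _ ?_
    rw [ad_succ]
    exact (hg.in_lie S M _ _ hM (key S (SM.self S) (fun i => hle (h1 i)) h2 k) h1).2

lemma ad_c0 (a b : L) (k : ℕ) :
    (ad R (G L R) (c0 R a) ^ k) (c0 R b) = c0 R ((ad ℚ L a ^ k) b) := by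
  induction k with
  | zero => rfl
  | succ k ih =>
    rw [ad_succ, ih, LieAlgebra.ExtendScalars.bracket_tmul, one_mul, pow_succ',
      Module.End.mul_apply, ad_apply]

lemma in_div {S : Subring R} {M : Set R} (hM : SM S M) (α : Φ) (k : ℕ) (y : G L R)
    (hy : c.In0 M y) :
    c.In0 M (((k.factorial : ℚ)⁻¹) • (ad R (G L R) (c.bs R (.inl α)) ^ k) y) := fun j => by
  rw [← (c.bs R).sum_repr y, map_sum, Finset.smul_sum, map_sum]
  refine hM.sum _ _ fun i _ => ?_
  obtain ⟨n, hn⟩ := c.int α k i j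
  have h1 : (k.factorial : ℚ) ≠ 0 := Nat.cast_ne_zero.2 k.factorial_ne_zero
  rw [map_rat_smul, map_smul, map_smul, c.bs_apply, c.bs_apply, ad_c0, c.crd_tmul, hn,
    smul_eq_mul, mul_smul_comm, mul_one, smul_smul, inv_mul_cancel_left₀ h1,
    Int.cast_smul_eq_zsmul, zsmul_eq_mul]
  exact hM.mul _ (intCast_mem S n) _ (hy i)

lemma in_e (hg : S_gk c) (S : Subring R) (M : Set R) (r : R) (α : Φ) (y : G L R) (hM : SM S M) :
    (r ∈ S → c.In0 M y → c.In0 M (ex (r • c.bs R (.inl α)) y)) ∧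
      (M ⊆ S → r ∈ M → c.In0 S y → c.In0 M (ex (r • c.bs R (.inl α)) y - y)) := by
  have h0 : ∀ (k : ℕ) i, c.crd i
      (((k.factorial : ℚ)⁻¹) • (ad R (G L R) (r • c.bs R (.inl α)) ^ k) y) = r ^ k *
        c.crd i (((k.factorial : ℚ)⁻¹) • (ad R (G L R) (c.bs R (.inl α)) ^ k) y) := fun k i => by
    rw [map_smul (ad R (G L R)), smul_pow, LinearMap.smul_apply, smul_comm, map_smul, smul_eq_mul]
  refine ⟨fun h1 h2 => ?_, fun hle h1 h2 => ?_⟩
  · have := in_add hM _ _ (ex_sub _ y (hg.nil_e r α) (c.In0 M) (in_zero hM) (in_add hM)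
      fun k i => by
        rw [h0]; exact hM.mul _ (S.pow_mem h1 _) _ (in_div hM α _ y h2 i)) h2
    simpa using this
  · refine ex_sub _ y (hg.nil_e r α) (c.In0 M) (in_zero hM) (in_add hM) fun k i => ?_
    rw [h0, pow_succ, mul_right_comm]
    exact hM.mul _ (S.mul_mem (S.pow_mem (hle h1) _) (in_div (SM.self S) α _ y h2 i)) _ h1

end ExA

theorem exs (h : S_cd c) (hg : S_gk c) : S_ex c where
  nil_smul := ExA.nil_smul
  nil_neg := ExA.nil_neg
  zero := ExA.zero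
  a0 := ExA.a0 hg
  inv := ExA.inv
  sum := ExA.sum
  fix := ExA.fix
  two := ExA.two
  three := ExA.three
  stable := ExA.stable
  add := ExA.add
  heis := ExA.heis
  conj := ExA.conj c
  nat := ExA.nat hg
  nat_pf := ExA.nat_pf hg
  logd := ExA.logd
  a0_one := ExA.a0_one c
  a0_mul := ExA.a0_mul c
  a0_inv := ExA.a0_inv c
  a0_ex := ExA.a0_ex c
  a0_pf := fun x k hx => ExA.pf_ind x k c.A0 (ExA.a0_one c) (ExA.a0_mul c)
    fun i _ => ExA.a0 hg _ (hx i)
  pf_step := ExA.pf_step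
  pf_top := ExA.pf_top
  pf_ind := ExA.pf_ind
  in_ex := ExA.in_ex hg
  in_e := ExA.in_e hg

end Pool.Agent.P.MP_e7d440_ag.U
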