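import Pool.Agent.P.MP_e7d440_ag.U.Iface

/-! Nilradicals of minuscule parabolic subalgebras. -/

namespace Pool.Agent.P.MP_e7d440_ag.U

open TensorProduct LieAlgebra LaurentPolynomial Set

variable {L Φ Δ : Type} [LieRing L] [LieAlgebra ℚ L] [Fintype Φ] [Fintype Δ] [DecidableEq Φ]
  [DecidableEq Δ] {c : CD L Φ Δ} {K : Type} [Field K] [CharZero K]

namespace FdA

lemma skew (h : T0 c) (μ x y : G L K) : c.kR K ⁅μ, x⁆ y = -c.kR K x ⁅μ, y⁆ := by
  rw [← h.gk.inv, ← lie_skew x μ, map_neg, LinearMap.neg_apply, neg_neg]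

lemma iso (h : T0 c) (U : Submodule K (G L K)) (hU : c.FD U) (x : G L K) (hx : x ∈ U)
    (y : G L K) (hy : y ∈ U) : c.kR K x y = 0 ∧ ⁅x, y⁆ = 0 := by
  obtain ⟨μ, h1, -⟩ := hU.gr
  have k : ∀ y ∈ U, c.kR K x y = 0 := fun y hy => by
    have := skew h μ x y
    rw [h1 x hx, h1 y hy] at this
    exact CharZero.eq_neg_self_iff.1 this
  have := leibniz_lie μ x y
  rw [h1 _ (hU.perp x k y hy), h1 x hx, h1 y hy] at this
  exact ⟨k y hy, left_eq_add.1 this⟩

lemma norm (h : T0 c) (U : Submodule K (G L K)) (hU : c.FD U) (η : G L K)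
    (hη : ∀ x ∈ U, ⁅η, x⁆ ∈ U) (x : G L K) (hx : x ∈ U) : c.kR K η x = 0 := by
  obtain ⟨μ, h1, -⟩ := hU.gr
  have := skew h μ η x
  rw [h.gk.inv, h1 x hx, ← h1 _ (hη x hx), ← h.gk.inv, lie_self] at this
  simpa using this

lemma der (h : T0 c) (U : Submodule K (G L K)) (hU : c.FD U) (δ : G L K →+ G L K)
    (hδ : ∀ y z, δ ⁅y, z⁆ = ⁅δ y, z⁆ + ⁅y, δ z⁆) (x : G L K) (hx : x ∈ U) (y : G L K)
    (hy : y ∈ U) : c.kR K (δ x) y = 0 := by
  obtain ⟨μ, h1, -⟩ := hU.gr
  have := congrArg (fun z => c.kR K z y) (hδ μ x)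
  simp only [map_add, LinearMap.add_apply] at this
  rw [h1 x hx, h.gk.inv, (iso h U hU x hx y hy).2, skew h, h1 y hy, map_zero, zero_add] at this
  exact CharZero.eq_neg_self_iff.1 this

lemma map (h : T0 c) (U : Submodule K (G L K)) (g : Module.End K (G L K)) (hg : c.A0 g)
    (hU : c.FD U) : c.FD (U.map g) ∧ Module.finrank K (U.map g) = Module.finrank K U := by
  obtain ⟨g', h1, h2⟩ := h.ex.a0_ex g hg
  have e : ∀ y, g (g' y) = y := fun y => LinearMap.congr_fun h1 y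
  have k : ∀ y, (∀ x ∈ U.map g, c.kR K y x = 0) → ∀ x ∈ U, c.kR K (g' y) x = 0 :=
    fun y hy x hx => by rw [← hg.form, e, hy _ (Submodule.mem_map_of_mem hx)]
  obtain ⟨μ, h3, h4⟩ := hU.gr
  refine ⟨⟨?_, ?_, g μ, ?_, fun y hy => ⟨_, h4 _ (k y hy), by rw [hg.lie, e]⟩⟩,
    (Submodule.equivMapOfInjective g (Function.LeftInverse.injective (g := g')
      fun y => LinearMap.congr_fun h2 y) U).finrank_eq.symm⟩
  · rintro _ ⟨x, hx, rfl⟩
    exact (h.ex.conj g x hg (hU.nil x hx)).1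
  · rintro y hy _ ⟨x, hx, rfl⟩
    exact ⟨_, hU.perp _ (k y hy) x hx, by rw [hg.lie, e]⟩
  · rintro _ ⟨x, hx, rfl⟩
    rw [← hg.lie, h3 x hx]

omit [Fintype Φ] [Fintype Δ] [DecidableEq Φ] [DecidableEq Δ] in
lemma wt_neg (z : L) (α : Φ) : c.wt0 z (.inl (c.neg α)) = -c.al α z := by
  simp [CD.wt0, c.al_neg]

omit [Fintype Φ] [Fintype Δ] [DecidableEq Φ] [DecidableEq Δ] in
lemma wt_min {lam : L} (hl : c.Min lam) (i : Φ ⊕ Δ) :
    c.wt0 lam i = 0 ∨ c.wt0 lam i = 1 ∨ c.wt0 lam i = -1 := by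
  rcases i with α | i
  · exact hl.2 α
  · exact Or.inl rfl

lemma perp (h : T0 c) (lam : L) (hl : c.Min lam) (y : G L K) :
    (∀ x ∈ c.U1 K lam, c.kR K y x = 0) ↔ y ∈ c.Gr lam (Ici 0) := by
  refine ⟨fun hy i hi => ?_, fun hy x hx => h.gk.gr_kR lam _ _ y x hy hx fun p hp q hq => ?_⟩
  · rcases i with α | i
    · rcases hl.2 α with a | a | a
      · exact a.ge
      · exact zero_le_one.trans a.ge
      · have := hy _ (h.gk.gr_bs lam {1} (.inl (c.neg α)) (by simp [wt_neg, a]))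
        rw [h.gk.symm, h.gk.kR_e] at this
        exact (hi ((smul_eq_zero.1 this).resolve_left (h.cd.kap_pos α).ne')).elim
    · exact le_refl (0 : ℚ)
  · rw [mem_singleton_iff.1 hq]
    exact (add_pos_of_nonneg_of_pos hp one_pos).ne'

lemma nil (h : T0 c) (z : L) (x : G L K) (hx : x ∈ c.Gr z {1} ∨ x ∈ c.Gr z {-1}) : Nil x := by
  obtain ⟨N, hN⟩ := h.gk.nil_pos z
  refine ⟨N, hN x (hx.imp (fun a i hi => ?_) fun a i hi => ?_)⟩ <;>
    simp [mem_singleton_iff.1 (a i hi)]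

lemma u1 (h : T0 c) (lam : L) (hl : c.Min lam) : c.FD (c.U1 K lam) := by
  refine ⟨fun x hx => nil h lam x (Or.inl hx), fun y hy x hx i hi => ?_, c0 K lam,
    fun x hx => c.ext0 fun i => ?_, fun y hy i hi => ?_⟩
  · have : (1 : ℚ) ≤ c.wt0 lam i := h.gk.gr_lie lam _ _ (Ici 1) y x ((perp h lam hl y).1 hy) hx
      (fun p hp q hq => by rw [mem_singleton_iff.1 hq]; exact mem_Ici.2 (le_add_of_nonneg_left hp)) i hi
    rcases wt_min hl i with a | a | a
    · linarith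
    · exact a
    · linarith
  · rw [h.gk.lie_c0 lam hl.1]
    by_cases a : c.crd i x = 0
    · rw [a, smul_zero]
    · rw [mem_singleton_iff.1 (hx i a), one_smul]
  · rw [h.gk.lie_c0 lam hl.1] at hi
    have : (0 : ℚ) ≤ c.wt0 lam i := (perp h lam hl y).1 hy i (right_ne_zero_of_smul hi)
    rcases wt_min hl i with a | a | a
    · exact (left_ne_zero_of_smul hi a).elim
    · exact a
    · linarith

lemma span (h : T0 c) (lam : L) : c.U1 K lam =
    Submodule.span K {v | ∃ β, c.al β lam = 1 ∧ v = c.bs K (.inl β)} := by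
  refine le_antisymm (fun x hx => ?_) (Submodule.span_le.2 ?_)
  · rw [← (c.bs K).sum_repr x]
    refine Submodule.sum_mem _ fun i _ => ?_
    by_cases a : c.crd i x = 0
    · rw [← c.crd_eq, a, zero_smul]
      exact zero_mem _
    · rcases i with β | i
      · exact Submodule.smul_mem _ _ (Submodule.subset_span ⟨β, hx _ a, rfl⟩)
      · exact (zero_ne_one (α := ℚ) (hx _ a)).elim
  · rintro _ ⟨β, a, rfl⟩
    exact h.gk.gr_bs lam {1} (.inl β) a

lemma rank (h : T0 c) (lam : L) :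
    Module.finrank K (c.U1 K lam) = Fintype.card {β // c.al β lam = 1} := by
  have e : {v | ∃ β, c.al β lam = 1 ∧ v = c.bs K (.inl β)} =
      range (c.bs K ∘ fun β : {β // c.al β lam = 1} => .inl β.1) := by
    ext v
    simp [eq_comm]
  rw [span h, e]
  exact finrank_span_eq_card ((c.bs K).linearIndependent.comp _
    (Sum.inl_injective.comp Subtype.val_injective))

lemma nX (h : T0 c) {J : Type} [Fintype J] [DecidableEq J] (lam : J → L) (X : c.Id lam → K)
    (j : J) : c.nX lam X j ∈ c.Gr (lam j) {-1} ∧ Nil (c.nX lam X j) ∧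
      ∀ p : c.Id lam, p.1.1 = j → c.crd (.inl (c.neg p.1.2)) (c.nX lam X j) = X p := by
  have k : c.nX lam X j ∈ c.Gr (lam j) {-1} := Submodule.sum_mem _ fun p hp =>
    Submodule.smul_mem _ _ (h.gk.gr_bs _ _ _ (by
      rw [wt_neg, ← (Finset.mem_filter.1 hp).2, p.2]; rfl))
  refine ⟨k, nil h _ _ (Or.inr k), fun p hp => ?_⟩
  rw [CD.nX, map_sum, Finset.sum_eq_single_of_mem p (by simpa using hp)]
  · rw [map_smul, h.gk.crd_bs, if_pos rfl, smul_eq_mul, mul_one]
  · intro q hq a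
    rw [map_smul, h.gk.crd_bs, if_neg, smul_zero]
    intro b
    have := congrArg c.neg (Sum.inl_injective b)
    rw [h.cd.neg_neg, h.cd.neg_neg] at this
    exact a (Subtype.ext (Prod.ext ((Finset.mem_filter.1 hq).2.trans hp.symm) this))

lemma nX_of (h : T0 c) {J : Type} [Fintype J] [DecidableEq J] (lam : J → L) (n : J → G L K)
    (hn : ∀ j, n j ∈ c.Gr (lam j) {-1}) : ∃ X : c.Id lam → K, ∀ j, c.nX lam X j = n j := by
  refine ⟨fun p => c.crd (.inl (c.neg p.1.2)) (n p.1.1), fun j => c.ext0 fun i => ?_⟩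
  obtain ⟨h1, -, h2⟩ := nX h lam (fun p => c.crd (.inl (c.neg p.1.2)) (n p.1.1)) j
  by_cases a : c.wt0 (lam j) i = -1
  · rcases i with α | i
    · have := h2 ⟨(j, c.neg α), (wt_neg _ _).trans (neg_eq_iff_eq_neg.2 a)⟩ rfl
      rwa [h.cd.neg_neg] at this
    · simp [CD.wt0] at a
  · rw [not_not.1 (mt (h1 i) a), not_not.1 (mt (hn j i) a)]

end FdA

variable (c K)

theorem fd (h : T0 c) (_hr : S_resd) : S_fd c K where
  iso := FdA.iso h
  norm := FdA.norm h
  der := FdA.der h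
  map := FdA.map h
  u1 := FdA.u1 h
  perp := FdA.perp h
  span := FdA.span h
  rank := FdA.rank h
  card lam := (Fintype.card_congr
    (Equiv.subtypeProdEquivSigmaSubtype fun j β => c.al β (lam j) = 1)).trans Fintype.card_sigma
  nX := FdA.nX h
  nX_of := FdA.nX_of h
  cell lam X j hl :=
    (FdA.map h _ _ (h.ex.a0 _ (FdA.nX h lam X j).2.1) (FdA.u1 h _ hl)).imp id
      fun a => a.trans (FdA.rank h _)
  def_map S U x hx hS hU := (Submodule.map_mono hU).trans (by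
    rw [Submodule.map_span]
    refine Submodule.span_mono ?_
    rintro _ ⟨u, ⟨a, b⟩, rfl⟩
    exact ⟨Submodule.mem_map_of_mem a, (h.ex.in_ex S.toSubring S x u
      (fun q => SubfieldClass.ratCast_mem S q) (SM.self S.toSubring) hx).1 hS b⟩)
  def_u1 S lam := (FdA.span h lam).le.trans (Submodule.span_mono (by
    rintro _ ⟨β, a, rfl⟩
    exact ⟨h.gk.gr_bs lam {1} (.inl β) a, h.gk.in_bs S.toSubring _⟩))

end Pool.Agent.P.MP_e7d440_ag.U
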