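import Pool.Agent.P.MP_e7d440_ag.U.Iface

/-! Subspaces normalized by a regular element. -/

namespace Pool.Agent.P.MP_e7d440_ag.U

open TensorProduct LieAlgebra LaurentPolynomial Set

variable {L Φ Δ : Type} [LieRing L] [LieAlgebra ℚ L] [Fintype Φ] [Fintype Δ] [DecidableEq Φ]
  [DecidableEq Δ] {c : CD L Φ Δ} {K : Type} [Field K] [CharZero K]

namespace FixA

variable {U : Submodule K (G L K)} {p q : Φ ⊕ Δ → K}

omit [Fintype Φ] [Fintype Δ] [DecidableEq Φ] [DecidableEq Δ] in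
lemma ext {x y : G L K} (h : ∀ i, c.crd i x = c.crd i y) : x = y := (c.bs K).ext_elem h

omit [Fintype Φ] [Fintype Δ] [DecidableEq Φ] [DecidableEq Δ] in
lemma mono {z : L} {P P' : Set ℚ} (h : P ⊆ P') : (c.Gr z P : Submodule K _) ≤ c.Gr z P' :=
  fun _ hf a ha => h (hf a ha)

variable (c) in
/-- the diagonal operator preserves `U` -/
def Pres (U : Submodule K (G L K)) (p : Φ ⊕ Δ → K) : Prop := ∀ u ∈ U, c.diag p u ∈ U

omit [Fintype Φ] [Fintype Δ] [DecidableEq Φ] [DecidableEq Δ] in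
lemma Pres.prod {ι : Type} (t : Finset ι) (f : ι → Φ ⊕ Δ → K) (h : ∀ i ∈ t, Pres c U (f i)) :
    Pres c U fun j => ∏ i ∈ t, f i j := by
  classical
  induction t using Finset.induction_on with
  | empty => exact fun u hu => mem_of_eq_of_mem (ext (c := c) fun i => by simp [c.crd_diag]) hu
  | insert a t ha ih =>
    intro u hu
    refine mem_of_eq_of_mem (ext (c := c) fun i => ?_) (h a (Finset.mem_insert_self _ _) _
      (ih (fun i hi => h i (Finset.mem_insert_of_mem hi)) u hu))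
    simp only [c.crd_diag, Finset.prod_insert ha, mul_assoc]

omit [DecidableEq Φ] [DecidableEq Δ] in
open scoped Classical in
lemma Pres.ind (h : Pres c U p) (a : K) : Pres c U fun i => if p i = a then 1 else 0 := by
  have := Pres.prod (c := c) (U := U) (Finset.univ.filter fun j => p j ≠ a) (fun j i => (a - p j)⁻¹ * (p i - p j))
    fun j _ u hu => mem_of_eq_of_mem (ext (c := c) fun i => by
      simp only [c.crd_diag, map_smul, map_sub, smul_eq_mul]; ring)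
      (U.smul_mem (a - p j)⁻¹ (U.sub_mem (h u hu) (U.smul_mem (p j) hu)))
  refine fun u hu => mem_of_eq_of_mem (congrArg (c.diag · u) (funext fun i => Eq.symm ?_))
    (this u hu)
  split_ifs with k
  · exact Finset.prod_eq_one fun j hj => by
      rw [k, inv_mul_cancel₀ (sub_ne_zero.2 (Finset.mem_filter.1 hj).2.symm)]
  · exact Finset.prod_eq_zero (i := i) (by simpa using k) (by simp)

lemma pres (h : T0 c) {z : L} (hz : c.IsH z) (hU : ∀ x ∈ U, ⁅c0 K z, x⁆ ∈ U) :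
    Pres c U fun i => (c.wt0 z i : K) := fun u hu =>
  mem_of_eq_of_mem (ext (c := c) fun i => by
    rw [c.crd_diag, h.gk.lie_c0 z hz, Rat.smul_def]) (hU u hu)

lemma perp (h : T0 c) {z : L} (hz : c.IsH z) {x : G L K} (hx : ∀ i, c.crd (.inr i) x = 0) :
    c.kR K (c0 K z) x = 0 := by
  rw [h.gk.kR_root _ _ hx]
  exact Finset.sum_eq_zero fun β _ => by simp [hz _]

lemma fix0 (h : T0 c) (h1 : ∀ x ∈ U, ∀ i, c.crd (.inr i) x = 0)
    (h2 : ∀ y : G L K, (∀ x ∈ U, c.kR K y x = 0) → ∀ x ∈ U, ⁅y, x⁆ ∈ U) :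
    ∃ Ψ : Set Φ, ∀ x : G L K, x ∈ U ↔ ∀ i, c.crd i x ≠ 0 → ∃ β ∈ Ψ, i = .inl β := by
  classical
  refine ⟨{β | c.bs K (.inl β) ∈ U}, fun x => ⟨fun hx i hi => ?_, fun hx => ?_⟩⟩
  · obtain β | i := i
    · have := Pres.prod Finset.univ _ (fun k _ => (pres h (h.cd.isH_cw k) (h2 _ fun x hx =>
        perp h (h.cd.isH_cw k) (h1 x hx))).ind (c.al β (c.cw k))) x hx
      refine ⟨β, show _ ∈ U from mem_of_eq_of_mem (ext (c := c) fun j => ?_)
        (U.smul_mem (c.crd (.inl β) x)⁻¹ this), rfl⟩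
      rw [h.gk.crd_bs, map_smul, c.crd_diag, smul_eq_mul]
      obtain α | j := j
      · by_cases k : β = α
        · simp [← k, CD.wt0, hi]
        · have : ∃ i, c.al α (c.cw i) ≠ c.al β (c.cw i) := by_contra fun e => k (c.al_inj
            (LinearMap.ext fun y => by
              rw [h.cd.al_eq, h.cd.al_eq α]
              simp only [not_exists, not_not] at e
              simp only [e]))
          obtain ⟨i, e⟩ := this
          rw [Finset.prod_eq_zero (Finset.mem_univ i) (by simpa [CD.wt0] using e)]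
          simp [k]
      · simp [h1 x hx]
    · exact (hi (h1 x hx i)).elim
  · rw [← (c.bs K).sum_repr x]
    refine U.sum_mem fun i _ => ?_
    by_cases k : c.crd i x = 0
    · rw [show (c.bs K).repr x i = 0 from k, zero_smul]
      exact U.zero_mem
    · obtain ⟨β, e, rfl⟩ := hx i k
      exact U.smul_mem _ e

lemma nilH (h : T0 c) (x : G L K) (h1 : ∀ β, c.crd (.inl β) x = 0) (h2 : Nil x) : x = 0 := by
  have key : ∀ α, c.alR α x = 0 := fun α => by
    obtain ⟨N, hN⟩ := h2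
    have : ∀ n, c.crd (.inl α) ((ad K (G L K) x ^ n) (c.bs K (.inl α))) = c.alR α x ^ n :=
      fun n => by
        induction n with
        | zero => simp [h.gk.crd_bs]
        | succ n ih => rw [pow_succ', Module.End.mul_apply, ad_apply, (h.gk.lie_H x h1 _).1, ih,
            pow_succ']
    exact eq_zero_of_pow_eq_zero (n := N) (by rw [← this, hN]; simp)
  exact ext (c := c) fun i => by
    obtain β | i := i
    · simp [h1]
    · rw [← h.gk.alR_sim, key, map_zero]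

lemma fix1 (h : T0 c) {χ : L} (h1 : ∀ x ∈ U, Nil x)
    (h2 : ∀ y : G L K, (∀ x ∈ U, c.kR K y x = 0) → ∀ x ∈ U, ⁅y, x⁆ ∈ U) (h3 : c.IsH χ)
    (h4 : ∀ α, c.al α χ ≠ 0) (h5 : ∀ x ∈ U, c.kR K (c0 K χ) x = 0) :
    ∃ Ψ : Set Φ, ∀ x : G L K, x ∈ U ↔ ∀ i, c.crd i x ≠ 0 → ∃ β ∈ Ψ, i = .inl β :=
  fix0 h (fun x hx i => by
    have := congrArg (c.crd (.inr i)) (nilH h _ (fun β => by simp [c.crd_diag, CD.wt0, h4])
      (h1 _ ((pres h h3 (h2 _ h5)).ind 0 x hx)))
    simpa [c.crd_diag, CD.wt0] using this) h2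

lemma lie_bs (h : T0 c) (ν : G L K) (β : Φ) :
    c.crd (.inl β) ⁅ν, c.bs K (.inl β)⁆ = c.alR β ν := by
  obtain ⟨a, ha⟩ : ∃ a : G L K, ∀ i, c.crd i a = Sum.elim (fun _ => 0) (fun _ => 1) i * c.crd i ν :=
    ⟨_, fun i => c.crd_diag _ i ν⟩
  have h1 : c.crd (.inl β) ⁅ν - a, c.bs K (.inl β)⁆ = 0 := by_contra fun k =>
    h.gk.gr_lie c.ρ {0}ᶜ {c.al β c.ρ} {c.al β c.ρ}ᶜ _ _ (fun i hi => by
      obtain α | i := i
      · exact c.ρ_ne α
      · simp [ha] at hi) (h.gk.gr_bs _ _ (.inl β) rfl)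
      (fun p hp p' hp' => by rw [show p' = _ from hp']; simpa using hp)
      _ k rfl
  rw [sub_lie, map_sub, sub_eq_zero] at h1
  rw [h1, (h.gk.lie_H a (fun β => by simp [ha]) _).1, h.gk.crd_bs, h.gk.alR_eq, h.gk.alR_eq]
  simp [ha]

lemma fix2 (h : T0 c) {Ψ : Set Φ} {ν : G L K} {t : K}
    (h1 : ∀ x : G L K, x ∈ U ↔ ∀ i, c.crd i x ≠ 0 → ∃ β ∈ Ψ, i = .inl β)
    (h2 : ∀ x ∈ U, ⁅ν, x⁆ = t • x) (h3 : ∀ y : G L K, (∀ x ∈ U, c.kR K y x = 0) → ⁅ν, y⁆ ∈ U) :
    (t = 0 → ν ∈ U) ∧ (t = 1 → ∃ lam, c.Min lam ∧ U = c.U1 K lam) := by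
  classical
  have a0 : ∀ x ∈ U, ∀ β ∉ Ψ, c.crd (.inl β) x = 0 := fun x hx β hβ => by_contra fun k => by
    obtain ⟨γ, e, e'⟩ := (h1 x).1 hx _ k
    exact hβ (Sum.inl_injective e' ▸ e)
  have a1 : ∀ β ∈ Ψ, c.alR β ν = t := fun β hβ => by
    rw [← lie_bs h, h2 _ ((h1 _).2 fun i hi => ⟨β, hβ, by_contra fun k => hi (by
      rw [h.gk.crd_bs, if_neg (Ne.symm k)])⟩), map_smul, h.gk.crd_bs]
    simp
  have a2 : ∀ β ∉ Ψ, c.alR β ν = 0 ∨ c.alR β ν = -t := fun β hβ => by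
    by_cases k : c.neg β ∈ Ψ
    · rw [← a1 _ k, h.gk.alR_eq, h.gk.alR_eq, c.al_neg]
      simp
    · refine .inl ((lie_bs h ν β).symm.trans (a0 _ (h3 _ fun x hx => ?_) β hβ))
      rw [← h.cd.neg_neg β, h.gk.kR_e, a0 x hx _ k, smul_zero]
  refine ⟨fun ht => (h1 ν).2 fun i hi => ?_, fun ht => ?_⟩
  · obtain β | i := i
    · refine ⟨β, by_contra fun k => ?_, rfl⟩
      have := a0 _ (h3 _ fun x hx => perp h c.ρ_h fun i => by_contra fun e => by
        simpa using (h1 x).1 hx _ e) β k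
      rw [← lie_skew, map_neg, h.gk.lie_c0 _ c.ρ_h] at this
      simp [hi, CD.wt0, c.ρ_ne] at this
    · refine (hi ?_).elim
      rw [← h.gk.alR_sim]
      by_cases k : c.sim i ∈ Ψ
      · rw [a1 _ k, ht]
      · simpa [ht] using a2 _ k
  · have : ∀ β, ∃ q : ℚ, (q : K) = c.alR β ν ∧ (q = 0 ∨ q = 1 ∨ q = -1) ∧ (q = 1 ↔ β ∈ Ψ) :=
      fun β => by
        by_cases k : β ∈ Ψ
        · exact ⟨1, by simp [a1 β k, ht], by simp, by simp [k]⟩
        · rcases a2 β k with e | e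
          · exact ⟨0, by simp [e], by simp, by simp [k]⟩
          · exact ⟨-1, by simp [e, ht], by simp, iff_of_false (by norm_num) k⟩
    choose q q1 q2 q3 using this
    have b1 : ∀ β, c.al β (∑ i, q (c.sim i) • c.cw i) = q β := fun β =>
      Rat.cast_injective (α := K) (by
        rw [q1, h.gk.alR_eq, map_sum, Rat.cast_sum]
        exact Finset.sum_congr rfl fun i _ => by
          rw [← h.gk.alR_sim, ← q1, map_smul, smul_eq_mul, Rat.smul_def, Rat.cast_mul, mul_comm])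
    refine ⟨_, ⟨CD.IsH.sum _ _ fun i _ => (h.cd.isH_cw i).smul _, fun β => b1 β ▸ q2 β⟩,
      Submodule.ext fun x => (h1 x).trans (forall₂_congr fun i _ => ?_)⟩
    obtain β | i := i
    · simp only [CD.wt0, Sum.elim_inl, b1, mem_singleton_iff, q3]
      simp
    · simp [CD.wt0]

lemma conj (h : T0 c) {n : G L K} (hn : n ∈ c.Gr c.ρ (Iio 0)) (k : ℕ) : ∀ r ≤ 0,
    (Finset.univ.filter fun i => c.wt0 c.ρ i < r).card ≤ k → ∀ g : Module.End K (G L K), c.A0 g →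
    (∀ r, ∀ x ∈ c.Gr c.ρ (Iic r), g x - x ∈ c.Gr c.ρ (Iio r)) →
    c0 K c.ρ + n - g (c0 K c.ρ) ∈ c.Gr c.ρ (Iio r) → ∃ g : Module.End K (G L K), c.A0 g ∧
      g (c0 K c.ρ) = c0 K c.ρ + n ∧ ∀ r, ∀ x ∈ c.Gr c.ρ (Iic r), g x - x ∈ c.Gr c.ρ (Iio r) := by
  induction k using Nat.strong_induction_on with
  | _ k ih =>
  intro r hr hk g g1 g2 g3
  obtain e | e := (Finset.univ.filter fun i => c.wt0 c.ρ i < r).eq_empty_or_nonempty
  · exact ⟨g, g1, (sub_eq_zero.1 (ext (c := c) fun i => by_contra fun k =>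
      Finset.filter_eq_empty_iff.1 e (Finset.mem_univ i) (g3 i (by simpa using k)))).symm, g2⟩
  obtain ⟨j, j1, j2⟩ := Finset.exists_max_image _ (c.wt0 c.ρ) e
  simp only [Finset.mem_filter, Finset.mem_univ, true_and] at j1 j2
  set s := c.wt0 c.ρ j
  set m := c0 K c.ρ + n - g (c0 K c.ρ) with hm
  have s0 : s < 0 := j1.trans_le hr
  obtain ⟨a, ha⟩ : ∃ a : G L K, ∀ i, c.crd i a = (if c.wt0 c.ρ i = s then 1 else 0) * c.crd i m :=
    ⟨_, fun i => c.crd_diag _ i m⟩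
  have a1 : (-(s : K)⁻¹) • a ∈ c.Gr c.ρ {s} :=
    Submodule.smul_mem _ _ fun i hi => by_contra fun k => hi ((ha i).trans (by
      rw [if_neg (show ¬ _ = s from k), zero_mul]))
  have a2 : ⁅(-(s : K)⁻¹) • a, c0 K c.ρ⁆ = a := ext (c := c) fun i => by
    rw [← lie_skew, map_neg, h.gk.lie_c0 _ c.ρ_h, map_smul, ha, Rat.smul_def]
    split_ifs with k
    · simp [k, s0.ne]
    · simp
  have a3 : Nil ((-(s : K)⁻¹) • a) := by
    obtain ⟨N, hN⟩ := h.gk.nil_pos c.ρ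
    exact ⟨N, hN _ (.inr (mono (by simpa using s0) a1))⟩
  have a4 := h.ex.two _ (c0 K c.ρ) a3 (by rw [a2]; simp)
  rw [a2] at a4
  set x := (-(s : K)⁻¹) • a
  refine ih _ ((Finset.card_lt_card ((Finset.ssubset_iff_of_subset (Finset.monotone_filter_right _
    fun i _ hi => hi.trans j1)).2 ⟨j, by simpa using j1, by simp [s]⟩)).trans_le hk) s s0.le le_rfl (ex x * g)
    (h.ex.a0_mul _ _ (h.ex.a0 x a3) g1) (fun r y hy => ?_) ?_
  · have := (h.ex.stable (c.Gr c.ρ (Iic r)) (c.Gr c.ρ (Iio r)) x a3 (mono Iio_subset_Iic_self)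
      (fun y hy => h.gk.gr_lie _ _ _ _ _ _ a1 hy fun p hp p' hp' => by
        rw [show p = s from hp]; exact (add_lt_add_of_lt_of_le s0 hp').trans_eq (zero_add r)) (g y)
      (by simpa using add_mem (mono Iio_subset_Iic_self (g2 r y hy)) hy)).1
    simpa using add_mem this (g2 r y hy)
  · have b1 := (h.ex.stable (c.Gr c.ρ (Iio 0)) (c.Gr c.ρ (Iio s)) x a3 (mono (Iio_subset_Iio s0.le))
      (fun y hy => h.gk.gr_lie _ _ _ _ _ _ a1 hy fun p hp p' hp' => by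
        rw [show p = s from hp]; simpa using hp') (n - m)
      (sub_mem hn (mono (Iio_subset_Iio hr) g3))).1
    have b2 : m - a ∈ c.Gr c.ρ (Iio s) := fun i hi => by
      rw [map_sub, ha] at hi
      split_ifs at hi with k
      · simp at hi
      · exact lt_of_le_of_ne (j2 i (g3 i (by simpa using hi))) k
    refine mem_of_eq_of_mem ?_ (sub_mem b2 b1)
    rw [Module.End.mul_apply, show g (c0 K c.ρ) = c0 K c.ρ + (n - m) by rw [hm]; abel, map_add, a4]
    abel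

end FixA

theorem fix (h : T0 c) (_hf : S_fd c K) : S_fix c K where
  fix0 _ := FixA.fix0 h
  nilH := FixA.nilH h
  fix1 _ _ := FixA.fix1 h
  fix2 _ _ _ _ := FixA.fix2 h
  fix _ _ hU h1 h2 h3 := by
    obtain ⟨Ψ, hΨ⟩ := FixA.fix1 h hU.nil hU.perp h1 h2 h3
    obtain ⟨μ, a, b⟩ := hU.gr
    exact (FixA.fix2 h hΨ (by simpa using a) b).2 rfl
  conj0 n hn := FixA.conj h hn _ 0 le_rfl le_rfl 1 h.ex.a0_one (by simp) (by simpa using hn)

end Pool.Agent.P.MP_e7d440_ag.U
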