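import Pool.Agent.P.MP_e7d440_ag.U.Iface2

/-! Galleries. -/

namespace Pool.Agent.P.MP_e7d440_ag.U

open TensorProduct LieAlgebra LaurentPolynomial Set

variable {L Φ Δ : Type} [LieRing L] [LieAlgebra ℚ L] [Fintype Φ] [Fintype Δ] [DecidableEq Φ]
  [DecidableEq Δ] {c : CD L Φ Δ} {K : Type} [Field K] [CharZero K] {ζ : K}

namespace GalA

variable {z z₁ z' χ : L} {a' b : Φ × ℤ} {n : ℕ} {a : Fin n → Φ × ℤ}

lemma back (h : T2c c ζ) (h1 : c.Adj ζ z z₁ b) (h2 : c.val b z' < 0) (h3 : c.Fix z')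
    (h4 : c.Valid ζ a' ∧ 0 < c.val a' z₁ ∧ c.val a' z' < 0) :
    (c.Valid ζ a' ∧ 0 < c.val a' z ∧ c.val a' z' < 0) ∧ ¬ c.Sim a' b := by
  refine ⟨⟨h4.1, (h.wall.adj_symm _ _ _ h1).oth _ h4.1 (fun k => ?_) h4.2.1, h4.2.2⟩, fun k => ?_⟩
  · have := (h.orb.sim_iff _ _).1 k _ h3
    rw [c.val_ng] at this
    linarith [h4.2.2]
  · linarith [(h.orb.sim_iff _ _).1 k _ h1.reg₁.1, h1.neg, h4.2.1]

omit [Fintype Δ] [DecidableEq Φ] [DecidableEq Δ] in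
lemma fin (z z' : L) : {a | c.Valid ζ a ∧ 0 < c.val a z ∧ c.val a z' < 0}.Finite := by
  refine (finite_univ.biUnion fun α _ =>
    (finite_Icc ⌊-c.al α z⌋ ⌈-c.al α z'⌉).image (α, ·)).subset fun a ha => ?_
  obtain ⟨-, h1, h2⟩ := ha
  rw [CD.val] at h1 h2
  exact mem_biUnion (mem_univ a.1) ⟨a.2, ⟨Int.floor_le_iff.2 (by linarith),
    Int.le_ceil_iff.2 (by linarith)⟩, rfl⟩

lemma ex (h : T2c c ζ) (hz' : c.Reg ζ z') (k : ℕ) : ∀ z, c.Reg ζ z →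
    {a | c.Valid ζ a ∧ 0 < c.val a z ∧ c.val a z' < 0}.ncard = k → ∃ n a, c.Gal ζ z' n z a := by
  induction k using Nat.strong_induction_on with
  | _ k ih =>
  intro z hz e
  by_cases hs : c.Same ζ z z'
  · exact ⟨0, Fin.elim0, hs⟩
  obtain ⟨b, z₁, h1, h2⟩ := h.wex z z' hz hz' hs
  obtain ⟨n, a, h3⟩ := ih _ (e ▸ ncard_lt_ncard ((ssubset_iff_of_subset fun a ha =>
    (back h h1 h2 hz'.1 ha).1).2 ⟨b, ⟨h1.valid, h1.pos, h2⟩, fun k => h1.neg.not_gt k.2.1⟩)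
    (fin z z')) z₁ h1.reg₁ rfl
  exact ⟨n + 1, Fin.cons b a, z₁, h1, h2, h3⟩

lemma mem (h : T2c c ζ) (hz' : c.Reg ζ z') (hg : c.Gal ζ z' n z a) (k : Fin n) :
    c.Valid ζ (a k) ∧ 0 < c.val (a k) z ∧ c.val (a k) z' < 0 := by
  induction n generalizing z with
  | zero => exact k.elim0
  | succ n ih =>
    obtain ⟨z₁, h1, h2, h3⟩ := hg
    exact k.cases ⟨h1.valid, h1.pos, h2⟩ fun k => (back h h1 h2 hz'.1 (ih h3 k)).1

lemma ne (h : T2c c ζ) (hz' : c.Reg ζ z') (hg : c.Gal ζ z' n z a) (k l : Fin n) (e : k ≠ l) :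
    ¬ c.Sim (a k) (a l) := by
  induction n generalizing z with
  | zero => exact k.elim0
  | succ n ih =>
    obtain ⟨z₁, h1, h2, h3⟩ := hg
    have := fun k => (back h h1 h2 hz'.1 (mem h hz' h3 k)).2
    cases k using Fin.cases <;> cases l using Fin.cases
    · exact (e rfl).elim
    · exact fun k => this _ (h.rt1.sim_symm _ _ k)
    · exact this _
    · exact ih h3 _ _ fun k => e (congrArg _ k)

omit [Fintype Φ] [Fintype Δ] [DecidableEq Φ] [DecidableEq Δ] in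
lemma all (hg : c.Gal ζ z' n z a) (h1 : c.Valid ζ a') (h2 : 0 < c.val a' z)
    (h3 : c.val a' z' < 0) : ∃ k, c.Sim a' (a k) := by
  induction n generalizing z with
  | zero => exact (h3.not_gt ((hg a' h1).1 h2)).elim
  | succ n ih =>
    obtain ⟨z₁, h4, -, h5⟩ := hg
    by_cases k : c.Sim a' (a 0)
    · exact ⟨0, k⟩
    · obtain ⟨l, hl⟩ := ih h5 (h4.oth _ h1 k h2)
      exact ⟨l.succ, hl⟩

lemma span (h : T2c c ζ) (hz' : c.Reg ζ z') (hg : c.Gal ζ z' n z a) {f : LG L K}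
    (hf : f ∈ c.Eqv ζ) (h1 : f ∈ c.Sup z (Ioi 0)) (h2 : f ∈ c.Sup z' (Iio 0)) :
    f = ∑ k, c.cE (a k) f • c.E ζ (a k) := by
  classical
  refine c.ext1 fun i => ?_
  simp only [← h.rt2.pure f hf, map_sum, c.co_pr]
  by_cases e : c.co i f = 0
  · simp [e]
  obtain ⟨m, α | j⟩ := i
  · obtain ⟨k, hk⟩ := all (a' := (α, m)) hg (h.rt2.of_co f hf _ e) (h1 _ e) (h2 _ e)
    rw [Finset.sum_eq_single k (fun l _ hl => if_neg fun t => ne h hz' hg l k hl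
      (h.rt1.sim_trans _ _ _ ((h.rt1.ty_ix _ (α, m)).1 t) hk)) (by simp),
      if_pos ((h.rt1.ty_ix _ (α, m)).2 (h.rt1.sim_symm _ _ hk))]
  · have e1 := h1 _ e
    have e2 := h2 _ e
    rw [c.wt_inr] at e1 e2
    exact (lt_asymm e1.out e2.out).elim

lemma conj (h : T2c c ζ) (hz' : c.Reg ζ z') (hg : c.Gal ζ z' n z a) (h0 : c.Fix χ)
    (h1 : ∀ k, c.al (a k).1 χ ≠ 0) {N : LG L K} (h2 : N ∈ c.Eqv ζ) (h3 : N ∈ c.Sup z (Ioi 0))
    (h4 : N ∈ c.Sup z' (Iio 0)) :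
    ∃ y : Fin n → K, pf (fun k => y k • c.E ζ (a k)) 0 (c0 _ χ) = c0 _ χ + N := by
  induction n generalizing z N with
  | zero =>
    rw [h.sup.empty z' _ _ N ((h.wall.same_pos _ _ hg N h2).1 h3) h4 fun _ a b => lt_asymm a.out b.out]
    exact ⟨Fin.elim0, by rw [pf_zero, add_zero]; rfl⟩
  | succ n ih =>
    obtain ⟨z₁, h5, h6, h7⟩ := hg
    obtain ⟨x, x1, x2⟩ := h.wall.adj_on _ _ _ h5
    have e1 := h.wall.pos_dec _ _ _ x1 N h2 h3
    have e2 := h.rt1.eqv (a 0)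
    have e3 : c.E ζ (a 0) ∈ c.Sup z' (Iio 0) :=
      c.Sup_mono (by simpa using h6) (h.rt1.sup _ _ hz'.1)
    set t := c.cE (a 0) N / (c.al (a 0).1 χ : K) with ht
    have e4 := h.rt1.nil (a 0) t
    have e5 := h.eqv.ex _ (Submodule.smul_mem _ t e2) e4 _
      (sub_mem h2 (Submodule.smul_mem _ (c.cE (a 0) N) e2))
    obtain ⟨y, hy⟩ := ih h7 (fun k => h1 k.succ) e5
      ((h.wall.cl_pos _ _ h5.reg₁ (h.wall.cl_on _ _ _ x2) _ e5).1 (h.sup.ex_gt x 0 _ _ e4 e1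
        (Submodule.smul_mem _ _ (c.Sup_mono (by simp [x1.zero]) (h.rt1.sup _ _ x1.fix)))))
      (h.sup.ex_lt z' 0 _ _ e4 (sub_mem h4 (Submodule.smul_mem _ _ e3))
        (Submodule.smul_mem _ _ (c.Sup_mono Iio_subset_Iic_self e3)))
    refine ⟨Fin.cons (-t) y, ?_⟩
    have e6 := LinearMap.congr_fun (h.rt1.exE_inv (a 0) t).2 (c0 _ χ + N)
    rw [Module.End.mul_apply, map_add, h.rt1.exE_h _ _ _ h0,
      div_mul_cancel₀ _ (Rat.cast_ne_zero.2 (h1 0))] at e6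
    rw [map_sub, h.lp.op_smul, h.rt1.exE_E] at hy
    rw [pf_succ, Module.End.mul_apply]
    refine (congrArg _ (hy.trans ?_)).trans e6
    abel

end GalA

theorem gal (h : T2c c ζ) : S_gal c ζ where
  ex z _ hz hz' := GalA.ex h hz' _ z hz rfl
  mem _ _ _ _ := GalA.mem h
  ne _ _ _ _ := GalA.ne h
  all _ _ _ _ _ _ hg _ := GalA.all hg
  indep _ _ _ a hz' hg k l := by
    split_ifs with e
    · rw [← e, CD.cE, h.rt1.co _ (GalA.mem h hz' hg k).1, div_self (h.rt1.th_ne _).2.1]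
    · exact div_eq_zero_iff.2 (.inl (by_contra fun t => GalA.ne h hz' hg l k (Ne.symm e)
        ((h.rt1.ty_ix _ _).1 (h.rt1.ty _ _ t))))
  span _ _ _ _ hz' _ hg _ := GalA.span h hz' hg
  left _ n _ _ _ h0 h1 hg := by
    cases n with
    | zero => exact h.wall.same_trans _ _ _ h1 hg
    | succ n => exact hg.imp fun z₁ e => ⟨h.wall.adj_left _ _ _ _ h0 h1 e.1, e.2⟩
  conj _ _ _ _ _ hz' hg h0 h1 _ := GalA.conj h hz' hg h0 h1

end Pool.Agent.P.MP_e7d440_ag.U
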