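import Pool.Agent.P.MP_e7d440_ag.U.Iface

/-! Extension of scalars for a Chevalley datum. -/

namespace Pool.Agent.P.MP_e7d440_ag.U

open TensorProduct LieAlgebra LaurentPolynomial Set

variable {L Φ Δ : Type} [LieRing L] [LieAlgebra ℚ L] [Fintype Φ] [Fintype Δ] [DecidableEq Φ]
  [DecidableEq Δ] (c : CD L Φ Δ)

namespace GkA

set_option linter.unusedSectionVars false

variable {R : Type} [CommRing R] [Algebra ℚ R]

lemma rb (i k : Φ ⊕ Δ) : c.bas.repr (c.bas i) k = if i = k then 1 else 0 := by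
  rw [c.bas.repr_self, Finsupp.single_apply]

lemma expand (x : G L R) : x = ∑ i, c.crd i x • c.bs R i := ((c.bs R).sum_repr x).symm

lemma crd_lie (k : Φ ⊕ Δ) (x y : G L R) : c.crd k ⁅x, y⁆ =
    ∑ i, ∑ j, c.bas.repr ⁅c.bas i, c.bas j⁆ k • (c.crd i x * c.crd j y) := by
  conv_lhs => rw [expand c x, expand c y, sum_lie, map_sum]
  refine Finset.sum_congr rfl fun i _ => ?_
  rw [lie_sum, map_sum]
  refine Finset.sum_congr rfl fun j _ => ?_
  rw [smul_lie, lie_smul, map_smul, map_smul, c.bs_apply, c.bs_apply,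
    LieAlgebra.ExtendScalars.bracket_tmul, c.crd_tmul]
  simp [mul_assoc]

lemma kR_eq (x y : G L R) : c.kR R x y =
    ∑ i, ∑ j, c.κ (c.bas i) (c.bas j) • (c.crd i x * c.crd j y) := by
  conv_lhs => rw [expand c x, expand c y, map_sum (c.kR R), LinearMap.sum_apply]
  refine Finset.sum_congr rfl fun i _ => ?_
  rw [map_sum]
  refine Finset.sum_congr rfl fun j _ => ?_
  rw [map_smul, map_smul, LinearMap.smul_apply, c.bs_apply, c.bs_apply, c.kR_tmul]
  simp [mul_comm]

lemma crd_sg' (k : Φ ⊕ Δ) (x : G L R) :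
    c.crd k (c.sg R x) = ∑ i, c.bas.repr (c.σ (c.bas i)) k • c.crd i x := by
  conv_lhs => rw [expand c x, map_sum, map_sum]
  refine Finset.sum_congr rfl fun i _ => ?_
  rw [map_smul, map_smul, c.bs_apply, c.sg_tmul, c.crd_tmul]
  simp

lemma symm (x y : G L R) : c.kR R x y = c.kR R y x := by
  rw [kR_eq, kR_eq, Finset.sum_comm]
  exact Finset.sum_congr rfl fun i _ => Finset.sum_congr rfl fun j _ => by
    rw [c.κ_symm, mul_comm]

lemma inv (x y z : G L R) : c.kR R ⁅x, y⁆ z = c.kR R x ⁅y, z⁆ := by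
  induction x using TensorProduct.induction_on with
  | zero => simp
  | add x x' hx hx' => simp [hx, hx']
  | tmul r x =>
    induction y using TensorProduct.induction_on with
    | zero => simp
    | add y y' hy hy' => simp only [lie_add, add_lie, map_add, LinearMap.add_apply, hy, hy']
    | tmul r' y =>
      induction z using TensorProduct.induction_on with
      | zero => simp
      | add z z' hz hz' => simp only [lie_add, map_add, hz, hz']
      | tmul r'' z =>
        simp only [LieAlgebra.ExtendScalars.bracket_tmul, CD.kR_tmul, c.κ_lie, mul_assoc]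

lemma sg_lie (x y : G L R) : c.sg R ⁅x, y⁆ = ⁅c.sg R x, c.sg R y⁆ := by
  induction x using TensorProduct.induction_on with
  | zero => simp
  | add x x' hx hx' => simp only [add_lie, map_add, hx, hx']
  | tmul r x =>
    induction y using TensorProduct.induction_on with
    | zero => simp
    | add y y' hy hy' => simp only [lie_add, map_add, hy, hy']
    | tmul r' y =>
      simp only [LieAlgebra.ExtendScalars.bracket_tmul, CD.sg_tmul, LieEquiv.map_lie]

lemma sg_form (x y : G L R) : c.kR R (c.sg R x) (c.sg R y) = c.kR R x y := by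
  induction x using TensorProduct.induction_on with
  | zero => simp
  | add x x' hx hx' => simp only [map_add, LinearMap.add_apply, hx, hx']
  | tmul r x =>
    induction y using TensorProduct.induction_on with
    | zero => simp
    | add y y' hy hy' => simp only [map_add, hy, hy']
    | tmul r' y => simp only [CD.sg_tmul, CD.kR_tmul, c.κ_σ]

lemma sg_pow_c0 (i : ℕ) (r : R) (x : L) : (c.sg R ^ i) (r ⊗ₜ[ℚ] x) = r ⊗ₜ[ℚ] c.σ^[i] x := by
  induction i with
  | zero => rfl
  | succ i ih => rw [pow_succ', Module.End.mul_apply, ih, c.sg_tmul, Function.iterate_succ_apply']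

lemma sg_pow : c.sg R ^ c.ℓ = 1 := LinearMap.ext fun x => by
  induction x using TensorProduct.induction_on with
  | zero => simp
  | add x x' hx hx' => rw [map_add, map_add, hx, hx']
  | tmul r x => rw [sg_pow_c0, c.σ_pow]; rfl

lemma σ_e0 (β : Φ) (k : Φ ⊕ Δ) (hk : Sum.inl (c.ς β) ≠ k) :
    c.bas.repr (c.σ (c.bas (.inl β))) k = 0 := by
  rcases c.σ_e β with e | e <;> rw [e]
  · rw [rb, if_neg hk]
  · rw [map_neg, Finsupp.neg_apply, rb, if_neg hk, neg_zero]

lemma crd_sg0 (α : Φ) (ε : ℚ) (e : c.σ (c.e α) = ε • c.e (c.ς α)) (x : G L R) :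
    c.crd (.inl (c.ς α)) (c.sg R x) = ε • c.crd (.inl α) x := by
  rw [crd_sg', Finset.sum_eq_single (.inl α)]
  · rw [e, map_smul, Finsupp.smul_apply, rb, if_pos rfl, smul_eq_mul, mul_one]
  · rintro (β | i) _ hne
    · rw [σ_e0 c β _ fun e' => hne (by rw [c.ς.injective (Sum.inl_injective e')]), zero_smul]
    · rw [c.σ_h, zero_smul]
  · simp

lemma crd_sg_inr (x : G L R) (hx : ∀ i, c.crd (.inr i) x = 0) (i : Δ) :
    c.crd (.inr i) (c.sg R x) = 0 := by
  rw [crd_sg']
  refine Finset.sum_eq_zero ?_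
  rintro (β | j) _
  · rw [σ_e0 c β _ (by simp), zero_smul]
  · rw [hx, smul_zero]

lemma alR_sim (i : Δ) (x : G L R) : c.alR (c.sim i) x = c.crd (.inr i) x := by
  induction x using TensorProduct.induction_on with
  | zero => simp
  | add x x' hx hx' => rw [map_add, map_add, hx, hx']
  | tmul r x => rw [c.alR_tmul, c.crd_tmul, c.al_sim]

lemma crd_bs (i j : Φ ⊕ Δ) : c.crd i (c.bs R j) = if j = i then 1 else 0 := by
  rw [c.crd_eq, Module.Basis.repr_self, Finsupp.single_apply]

lemma gr_bs (z : L) (P : Set ℚ) (i : Φ ⊕ Δ) (hi : c.wt0 z i ∈ P) : c.bs R i ∈ c.Gr z P :=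
  fun j hj => by
    rw [crd_bs] at hj
    by_cases e : i = j
    · rw [← e]; exact hi
    · exact absurd (if_neg e) hj

lemma in_bs (S : Subring R) (i : Φ ⊕ Δ) : c.In0 S (c.bs R i) := fun j => by
  rw [crd_bs]
  split_ifs
  · exact S.one_mem
  · exact S.zero_mem

lemma in_kR (S : Subring R) (M : Set R) (x y : G L R) (hq : ∀ q : ℚ, algebraMap ℚ R q ∈ S)
    (hM : SM S M) (hx : c.In0 S x) (hy : c.In0 M y) : c.kR R x y ∈ M := by
  rw [kR_eq]
  refine hM.sum _ _ fun i _ => hM.sum _ _ fun j _ => ?_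
  rw [Algebra.smul_def]
  exact hM.mul _ (hq _) _ (hM.mul _ (hx i) _ (hy j))

lemma int_mem {S : Subring R} {M : Set R} (hM : SM S M) {q : ℚ} (hq : ∃ n : ℤ, q = n) {a : R}
    (ha : a ∈ M) : q • a ∈ M := by
  obtain ⟨n, rfl⟩ := hq
  rw [Int.cast_smul_eq_zsmul, zsmul_eq_mul]
  exact hM.mul _ (intCast_mem S n) _ ha

section hom
variable {R' : Type} [CommRing R'] [Algebra ℚ R']

lemma mqa_lie (f : R →+* R') (x y : G L R) :
    mqa (f : R →+ R') ⁅x, y⁆ = ⁅mqa (f : R →+ R') x, mqa (f : R →+ R') y⁆ := by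
  induction x using TensorProduct.induction_on with
  | zero => simp
  | add x x' hx hx' => simp only [add_lie, map_add, hx, hx']
  | tmul r x =>
    induction y using TensorProduct.induction_on with
    | zero => simp
    | add y y' hy hy' => simp only [lie_add, map_add, hy, hy']
    | tmul r' y =>
      simp only [LieAlgebra.ExtendScalars.bracket_tmul, mqa_tmul, AddMonoidHom.coe_coe, map_mul]

lemma mqa_kR (f : R →+* R') (x y : G L R) :
    c.kR R' (mqa (f : R →+ R') x) (mqa (f : R →+ R') y) = f (c.kR R x y) := by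
  induction x using TensorProduct.induction_on with
  | zero => simp
  | add x x' hx hx' => simp only [map_add, LinearMap.add_apply, hx, hx']
  | tmul r x =>
    induction y using TensorProduct.induction_on with
    | zero => simp
    | add y y' hy hy' => simp only [map_add, hy, hy']
    | tmul r' y =>
      simp only [mqa_tmul, AddMonoidHom.coe_coe, CD.kR_tmul, map_rat_smul, map_mul]

lemma mqa_smul (f : R →+* R') (r : R) (x : G L R) :
    mqa (f : R →+ R') (r • x) = f r • mqa (f : R →+ R') x := by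
  induction x using TensorProduct.induction_on with
  | zero => simp
  | add x x' hx hx' => simp only [smul_add, map_add, hx, hx']
  | tmul r' x =>
    simp only [smul_tmul', mqa_tmul, AddMonoidHom.coe_coe, smul_eq_mul, map_mul]

lemma mqa_sg (f : R →+ R') (x : G L R) : mqa f (c.sg R x) = c.sg R' (mqa f x) := by
  induction x using TensorProduct.induction_on with
  | zero => simp
  | add x x' hx hx' => simp only [map_add, hx, hx']
  | tmul r' x => rfl

end hom

lemma der_lie (δ : R →+ R) (hδ : ∀ a b, δ (a * b) = a * δ b + b * δ a) :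
    (∀ x y : G L R, mqa δ ⁅x, y⁆ = ⁅mqa δ x, y⁆ + ⁅x, mqa δ y⁆) ∧
      (∀ (r : R) (x : G L R), mqa δ (r • x) = δ r • x + r • mqa δ x) ∧
      ∀ x : L, mqa δ (c0 R x) = 0 := by
  refine ⟨fun x y => ?_, fun r x => ?_, fun x => ?_⟩
  · induction x using TensorProduct.induction_on with
    | zero => simp
    | add x x' hx hx' => simp only [add_lie, map_add, hx, hx']; abel
    | tmul r x =>
      induction y using TensorProduct.induction_on with
      | zero => simp
      | add y y' hy hy' => simp only [lie_add, map_add, hy, hy']; abel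
      | tmul r' y =>
        simp only [LieAlgebra.ExtendScalars.bracket_tmul, mqa_tmul, hδ, ← add_tmul]
        congr 1
        ring
  · induction x using TensorProduct.induction_on with
    | zero => simp
    | add x x' hx hx' => simp only [smul_add, map_add, hx, hx']; abel
    | tmul r' x =>
      simp only [smul_tmul', mqa_tmul, smul_eq_mul, hδ, ← add_tmul]
      congr 1
      ring
  · have h1 := hδ 1 1
    rw [one_mul, one_mul] at h1
    have h2 : δ 1 = 0 := by simpa using h1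
    rw [mqa_tmul, h2, zero_tmul]

variable {c}

lemma alR_sg (h : S_cd c) (α : Φ) (x : G L R) : c.alR (c.ς α) (c.sg R x) = c.alR α x := by
  induction x using TensorProduct.induction_on with
  | zero => simp
  | add x x' hx hx' => simp only [map_add, hx, hx']
  | tmul r x => rw [c.sg_tmul, c.alR_tmul, c.alR_tmul, h.al_σ]

lemma alR_eq (h : S_cd c) (α : Φ) (x : G L R) :
    c.alR α x = ∑ i, c.al α (c.cw i) • c.crd (.inr i) x := by
  induction x using TensorProduct.induction_on with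
  | zero => simp
  | add x x' hx hx' => simp only [map_add, hx, hx', smul_add, Finset.sum_add_distrib]
  | tmul r x =>
    rw [c.alR_tmul, h.al_eq, Finset.sum_smul]
    simp only [CD.crd_tmul, smul_smul]

lemma lie_b (h : S_cd c) {z : L} (hz : c.IsH z) (i : Φ ⊕ Δ) :
    ⁅z, c.bas i⁆ = c.wt0 z i • c.bas i := by
  rcases i with α | i
  · exact h.lie_h z hz α
  · rw [h.lie_hh z _ hz (h.isH_cw i)]; simp [CD.wt0]

lemma lie_c0 (h : S_cd c) (z : L) (hz : c.IsH z) (i : Φ ⊕ Δ) (x : G L R) :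
    c.crd i ⁅c0 R z, x⁆ = c.wt0 z i • c.crd i x := by
  conv_lhs => rw [expand c x, lie_sum, map_sum]
  rw [Finset.sum_eq_single i]
  · rw [lie_smul, map_smul, c.bs_apply, LieAlgebra.ExtendScalars.bracket_tmul, lie_b h hz,
      c.crd_tmul, map_smul, Finsupp.smul_apply, rb, if_pos rfl]
    simp
  · intro j _ hne
    rw [lie_smul, map_smul, c.bs_apply, LieAlgebra.ExtendScalars.bracket_tmul, lie_b h hz,
      c.crd_tmul, map_smul, Finsupp.smul_apply, rb, if_neg hne]
    simp
  · simp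

lemma lie_H0 (h : S_cd c) (z : G L R) (hz : ∀ β, c.crd (.inl β) z = 0) (x : G L R) (k : Φ ⊕ Δ) :
    c.crd k ⁅z, x⁆ = (∑ i, c.wt0 (c.cw i) k • c.crd (.inr i) z) * c.crd k x := by
  conv_lhs => rw [expand c z, Fintype.sum_sum_type]
  simp only [hz, zero_smul, Finset.sum_const_zero, zero_add]
  rw [sum_lie, map_sum, Finset.sum_mul]
  refine Finset.sum_congr rfl fun i _ => ?_
  rw [smul_lie, map_smul, c.bs_apply, lie_c0 h _ (h.isH_cw i)]
  simp

lemma lie_H (h : S_cd c) (z : G L R) (hz : ∀ β, c.crd (.inl β) z = 0) (x : G L R) :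
    (∀ α, c.crd (.inl α) ⁅z, x⁆ = c.alR α z * c.crd (.inl α) x) ∧
      ∀ i, c.crd (.inr i) ⁅z, x⁆ = 0 := by
  refine ⟨fun α => ?_, fun i => ?_⟩
  · rw [lie_H0 h z hz, alR_eq h]; rfl
  · rw [lie_H0 h z hz]; simp [CD.wt0]

lemma gr_lie (h : S_cd c) (z : L) (P P' Q : Set ℚ) (x y : G L R) (hx : x ∈ c.Gr z P)
    (hy : y ∈ c.Gr z P') (hQ : ∀ p ∈ P, ∀ p' ∈ P', p + p' ∈ Q) : ⁅x, y⁆ ∈ c.Gr z Q := by
  intro k hk
  rw [crd_lie] at hk
  obtain ⟨i, _, hi⟩ := Finset.exists_ne_zero_of_sum_ne_zero hk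
  obtain ⟨j, _, hj⟩ := Finset.exists_ne_zero_of_sum_ne_zero hi
  rw [h.lie_wt i j k (fun e => hj (by rw [e, zero_smul])) z]
  exact hQ _ (hx i fun e => hj (by rw [e, zero_mul, smul_zero])) _
    (hy j fun e => hj (by rw [e, mul_zero, smul_zero]))

lemma gr_kR (h : S_cd c) (z : L) (P P' : Set ℚ) (x y : G L R) (hx : x ∈ c.Gr z P)
    (hy : y ∈ c.Gr z P') (hQ : ∀ p ∈ P, ∀ p' ∈ P', p + p' ≠ 0) : c.kR R x y = 0 := by
  rw [kR_eq]
  refine Finset.sum_eq_zero fun i _ => Finset.sum_eq_zero fun j _ => ?_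
  by_contra hj
  exact hQ _ (hx i fun e => hj (by rw [e, zero_mul, smul_zero])) _
    (hy j fun e => hj (by rw [e, mul_zero, smul_zero]))
    (h.κ_wt i j (fun e => hj (by rw [e, zero_smul])) z)

lemma gap {ι : Type} [Fintype ι] (f : ι → ℚ) : ∃ δ : ℚ, 0 < δ ∧ ∀ i, 0 < f i → δ ≤ f i := by
  classical
  by_cases h0 : (Finset.univ.filter fun i => 0 < f i).Nonempty
  · obtain ⟨i, hi, hm⟩ := Finset.exists_min_image _ f h0
    exact ⟨f i, (Finset.mem_filter.1 hi).2, fun j hj => hm j (by simpa using hj)⟩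
  · exact ⟨1, one_pos, fun i hi => absurd ⟨i, by simpa using hi⟩ h0⟩

lemma nil_pos0 (h : S_cd c) (z : L) : ∃ N : ℕ, ∀ {R : Type} [CommRing R] [Algebra ℚ R]
    (x : G L R), x ∈ c.Gr z (Ioi 0) → ad R (G L R) x ^ N = 0 := by
  obtain ⟨δ, hδ, h1⟩ := gap (c.wt0 z)
  obtain ⟨B, hB⟩ : ∃ B : ℚ, ∀ i, |c.wt0 z i| ≤ B :=
    ⟨∑ i, |c.wt0 z i|, fun i =>
      Finset.single_le_sum (f := fun i => |c.wt0 z i|) (fun _ _ => abs_nonneg _)
        (Finset.mem_univ i)⟩
  obtain ⟨N, hN⟩ := exists_nat_gt (2 * B / δ)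
  rw [div_lt_iff₀ hδ] at hN
  refine ⟨N, fun {R} _ _ x hx => LinearMap.ext fun y => ?_⟩
  have hx' : x ∈ c.Gr z (Ici δ) := fun i hi => h1 i (hx i hi)
  have key : ∀ k : ℕ, (ad R (G L R) x ^ k) y ∈ c.Gr z (Ici (-B + k * δ)) := by
    intro k
    induction k with
    | zero =>
      intro i _
      have := (abs_le.1 (hB i)).1
      simpa using this
    | succ k ih =>
      rw [pow_succ', Module.End.mul_apply, ad_apply]
      refine gr_lie h z _ _ _ _ _ hx' ih fun p hp p' hp' => ?_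
      simp only [mem_Ici] at hp hp' ⊢
      push_cast
      linarith
  refine c.ext0 fun i => ?_
  by_contra hne
  have h2 : -B + N * δ ≤ c.wt0 z i := key N i (by simpa using hne)
  have h3 := (abs_le.1 (hB i)).2
  linarith

lemma nil_pos (h : S_cd c) (z : L) : ∃ N : ℕ, ∀ {R : Type} [CommRing R] [Algebra ℚ R]
    (x : G L R), x ∈ c.Gr z (Ioi 0) ∨ x ∈ c.Gr z (Iio 0) → ad R (G L R) x ^ N = 0 := by
  obtain ⟨N, hN⟩ := nil_pos0 h z
  obtain ⟨N', hN'⟩ := nil_pos0 h (-z)
  refine ⟨N + N', fun {R} _ _ x hx => ?_⟩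
  rcases hx with hx | hx
  · rw [pow_add, hN x hx, zero_mul]
  · rw [pow_add, hN' x ?_, mul_zero]
    intro i hi
    have h1 : c.wt0 z i < 0 := hx i hi
    have h2 : c.wt0 (-z) i = -c.wt0 z i := by rcases i with α | i <;> simp [CD.wt0]
    rw [h2]
    exact neg_pos.2 h1

lemma nil_e (h : S_cd c) (r : R) (α : Φ) : Nil (r • c.bs R (.inl α)) := by
  obtain ⟨N, hN⟩ := nil_pos h c.ρ
  refine ⟨N, hN _ ?_⟩
  rcases lt_or_gt_of_ne (c.ρ_ne α) with e | e
  · exact Or.inr (Submodule.smul_mem _ _ (gr_bs c _ _ _ e))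
  · exact Or.inl (Submodule.smul_mem _ _ (gr_bs c _ _ _ e))

lemma κ_e (h : S_cd c) (α : Φ) (x : L) :
    c.κ (c.e (c.neg α)) x = c.kap α * c.bas.repr x (.inl α) := by
  have : c.κ (c.e (c.neg α)) = c.kap α • c.bas.coord (.inl α) := by
    refine c.bas.ext ?_
    rintro (β | i)
    · rw [h.κ_ee, h.neg_neg, h.kap_neg, LinearMap.smul_apply, Module.Basis.coord_apply, rb]
      by_cases e : β = α <;> simp [e]
    · rw [h.κ_eh _ _ (h.isH_cw i), LinearMap.smul_apply, Module.Basis.coord_apply, rb]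
      simp
  exact LinearMap.congr_fun this x

lemma kR_e (h : S_cd c) (α : Φ) (x : G L R) :
    c.kR R (c.bs R (.inl (c.neg α))) x = c.kap α • c.crd (.inl α) x := by
  induction x using TensorProduct.induction_on with
  | zero => simp
  | add x x' hx hx' => simp only [map_add, hx, hx', smul_add]
  | tmul r x => rw [c.bs_apply, c.kR_tmul, c.crd_tmul, κ_e h, one_mul, smul_smul]

lemma kR_cor (h : S_cd c) (α : Φ) (x : G L R) :
    c.kR R (c0 R (c.cor α)) x = c.kap α • c.alR α x := by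
  induction x using TensorProduct.induction_on with
  | zero => simp
  | add x x' hx hx' => simp only [map_add, hx, hx', smul_add]
  | tmul r x => rw [c.kR_tmul, c.alR_tmul, h.κ_cor, one_mul, smul_smul]

lemma kR_root (h : S_cd c) (x y : G L R) (hy : ∀ i, c.crd (.inr i) y = 0) :
    c.kR R x y = ∑ β, c.kap β • (c.crd (.inl (c.neg β)) x * c.crd (.inl β) y) := by
  conv_lhs => rw [expand c y, Fintype.sum_sum_type]
  simp only [hy, zero_smul, Finset.sum_const_zero, add_zero]
  rw [map_sum]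
  refine Finset.sum_congr rfl fun β _ => ?_
  have h1 := kR_e h (c.neg β) x
  rw [h.neg_neg, h.kap_neg] at h1
  rw [map_smul, symm c x, h1]
  simp [mul_comm]

lemma dual (h : S_cd c) (i : Φ ⊕ Δ) : ∃ d : L, ∀ {R : Type} [CommRing R] [Algebra ℚ R]
    (x : G L R), c.kR R (c0 R d) x = c.crd i x := by
  obtain ⟨d, hd⟩ := h.κ_dual i
  refine ⟨d, fun {R} _ _ x => ?_⟩
  induction x using TensorProduct.induction_on with
  | zero => simp
  | add x x' hx hx' => simp only [map_add, hx, hx']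
  | tmul r x => rw [c.kR_tmul, c.crd_tmul, hd, one_mul]

lemma in_lie (h : S_cd c) (S : Subring R) (M : Set R) (x y : G L R) (hM : SM S M)
    (hx : c.In0 S x) (hy : c.In0 M y) : c.In0 M ⁅x, y⁆ ∧ c.In0 M ⁅y, x⁆ := by
  have h1 : c.In0 M ⁅x, y⁆ := fun k => by
    rw [crd_lie]
    exact hM.sum _ _ fun i _ => hM.sum _ _ fun j _ =>
      int_mem hM (h.lie_int i j k) (hM.mul _ (hx i) _ (hy j))
  refine ⟨h1, fun k => ?_⟩
  rw [← lie_skew, map_neg]
  exact hM.neg (h1 k)

lemma in_sg (h : S_cd c) (S : Subring R) (M : Set R) (x : G L R) (hM : SM S M)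
    (hx : c.In0 M x) : c.In0 M (c.sg R x) := fun k => by
  rw [crd_sg']
  exact hM.sum _ _ fun i _ => int_mem hM (h.σ_int i k) (hx i)

end GkA

theorem gk (h : S_cd c) : S_gk c where
  symm := GkA.symm c
  inv := GkA.inv c
  sg_lie := GkA.sg_lie c
  sg_form := GkA.sg_form c
  sg_pow := GkA.sg_pow c
  sg_pow_c0 := GkA.sg_pow_c0 c
  crd_sg := fun α => by
    rcases c.σ_e α with e | e
    · exact ⟨1, Or.inl rfl, by rw [e, one_smul], GkA.crd_sg0 c α 1 (by rw [e, one_smul])⟩
    · exact ⟨-1, Or.inr rfl, by rw [e, neg_one_smul],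
        GkA.crd_sg0 c α (-1) (by rw [e, neg_one_smul])⟩
  crd_sg_inr := GkA.crd_sg_inr c
  alR_sg := GkA.alR_sg h
  alR_eq := GkA.alR_eq h
  alR_sim := GkA.alR_sim c
  crd_bs := GkA.crd_bs c
  lie_c0 := GkA.lie_c0 h
  lie_H := GkA.lie_H h
  gr_lie := GkA.gr_lie h
  gr_kR := GkA.gr_kR h
  gr_bs := GkA.gr_bs c
  nil_pos := GkA.nil_pos h
  nil_e := GkA.nil_e h
  kR_e := GkA.kR_e h
  kR_cor := GkA.kR_cor h
  kR_root := GkA.kR_root h
  dual := GkA.dual h
  in_lie := GkA.in_lie h
  in_sg := GkA.in_sg h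
  in_bs := GkA.in_bs c
  in_kR := GkA.in_kR c
  mqa_lie := GkA.mqa_lie
  mqa_kR := GkA.mqa_kR c
  mqa_smul := GkA.mqa_smul
  mqa_sg := GkA.mqa_sg c
  der_lie := GkA.der_lie

end Pool.Agent.P.MP_e7d440_ag.U
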