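import Pool.Agent.P.MP_e7d440_ag.U.Iface2

/-! Closure properties. -/

namespace Pool.Agent.P.MP_e7d440_ag.U

open TensorProduct LieAlgebra LaurentPolynomial Set

variable {L Φ Δ : Type} [LieRing L] [LieAlgebra ℚ L] [Fintype Φ] [Fintype Δ] [DecidableEq Φ]
  [DecidableEq Δ] (c : CD L Φ Δ) {K : Type} [Field K] [CharZero K] (ζ : K)

namespace LaA

variable {c ζ} {g g' : Op L K} {ψ ψ' : LP K} {z : L}

theorem ap (e : g * g' = 1) (f : LG L K) : g (g' f) = f := LinearMap.congr_fun e f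

omit [CharZero K] in
theorem coeff_mul (h : ∀ m < 0, ψ.coeff m = 0) (h' : ∀ m < 0, ψ'.coeff m = 0) {m : ℤ}
    (hm : m ≤ 0) : (ψ * ψ').coeff m = ψ.coeff 0 * ψ'.coeff m := by
  rw [AddMonoidAlgebra.coeff_mul_apply_left, Finsupp.sum_eq_single 0 (fun a _ a0 => ?_) (by simp),
    neg_zero, zero_add]
  rcases a0.lt_or_gt with e | e
  · rw [h a e, zero_mul]
  · rw [h' _ (by omega), mul_zero]

omit [CharZero K] in
theorem one_pos (m : ℤ) (hm : m < 0) : (1 : LP K).coeff m = 0 := by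
  rw [← T_zero, T_apply, if_neg hm.ne']

omit [CharZero K] in
theorem one_zero : (1 : LP K).coeff 0 = 1 := by rw [← T_zero, T_apply, if_pos rfl]

theorem mul (h : T2a c ζ) (a : c.LA ζ g) (b : c.LA ζ g') : c.LA ζ (g * g') :=
  ⟨h.ex.a0_mul _ _ a.a0 b.a0, fun f => (a.eqv _).trans (b.eqv f)⟩

theorem inv (h : T2a c ζ) (a : c.LA ζ g) (e : g * g' = 1) : c.LA ζ g' ∧ g' * g = 1 :=
  (h.ex.a0_inv g g' a.a0 e).imp_left fun b => ⟨b, fun f => by rw [← a.eqv, ap e]⟩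

theorem ex (h : T2a c ζ) {x : LG L K} (hx : x ∈ c.Eqv ζ) (n : Nil x) : c.LA ζ (U.ex x) :=
  ⟨h.ex.a0 x n, fun f => ⟨fun e => ap (h.ex.inv x n).2 f ▸
    h.eqv.ex _ (neg_mem hx) (h.ex.nil_neg x n) _ e, h.eqv.ex x hx n f⟩⟩

theorem exE (h : T2a c ζ) (a : Φ × ℤ) (t : K) : c.LA ζ (U.ex (t • c.E ζ a)) :=
  ex h (Submodule.smul_mem _ t (h.rt1.eqv a)) (h.rt1.nil a t)

theorem aut_mk (a : c.LA ζ g) (h1 : ∀ x, c.Fix x → g (c0 _ x) - c0 _ x ∈ c.Sup z (Ioi 0))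
    (h2 : ∀ r, ∀ f ∈ c.Eqv ζ, g f ∈ c.Sup z (Ici r) ↔ f ∈ c.Sup z (Ici r)) : c.Aut0 ζ 1 g z :=
  ⟨fun f f' => by rw [one_smul, a.a0.lie], fun f => (a.eqv f).2, one_pos,
    one_zero (K := K) ▸ one_ne_zero, fun x hx => by rw [one_zero, one_smul]; exact h1 x hx, h2⟩

theorem aut_gt (h : T2a c ζ) (a : c.Aut0 ζ ψ g z) (r : ℚ) (f : LG L K) (hf : f ∈ c.Eqv ζ) :
    g f ∈ c.Sup z (Ioi r) ↔ f ∈ c.Sup z (Ioi r) :=
  ⟨fun e => let ⟨s, h1, h2⟩ := h.sup.gap_lo z r _ e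
    c.Sup_mono (Ici_subset_Ioi.2 h1) ((a.fil s f hf).1 h2),
   fun e => let ⟨s, h1, h2⟩ := h.sup.gap_lo z r _ e
    c.Sup_mono (Ici_subset_Ioi.2 h1) ((a.fil s f hf).2 h2)⟩

theorem aut_mul (h : T2a c ζ) (a : c.Aut0 ζ ψ g z) (b : c.Aut0 ζ ψ' g' z) :
    c.Aut0 ζ (ψ * ψ') (g * g') z where
  lie f f' := by simp only [Module.End.mul_apply, a.lie, b.lie, map_smul, mul_smul]
  eqv f hf := a.eqv _ (b.eqv f hf)
  pos m hm := by rw [coeff_mul a.pos b.pos hm.le, b.pos m hm, mul_zero]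
  ne := by rw [coeff_mul a.pos b.pos le_rfl]; exact mul_ne_zero a.ne b.ne
  hh x hx := by
    have e := h.eqv.c0 x hx.2
    have := add_mem ((aut_gt h a 0 _ (sub_mem (b.eqv _ e) (Submodule.smul_mem _ _ e))).2 (b.hh x hx))
      (Submodule.smul_mem _ (ψ'.coeff 0) (a.hh x hx))
    rwa [map_sub, h.lp.op_smul, smul_sub, sub_add_sub_cancel, smul_smul, mul_comm,
      ← coeff_mul a.pos b.pos le_rfl] at this
  fil r f hf := (a.fil r _ (b.eqv f hf)).trans (b.fil r f hf)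

theorem aut_ex (h : T2a c ζ) {x : LG L K} (hx : x ∈ c.Eqv ζ) (n : Nil x)
    (s : x ∈ c.Sup z (Ioi 0)) : c.Aut0 ζ 1 (U.ex x) z :=
  have s' := c.Sup_mono Ioi_subset_Ici_self s
  aut_mk (ex h hx n) (fun y hy => (h.sup.ex_ge z 0 x _ n
    (c.Sup_mono (singleton_subset_iff.2 self_mem_Ici) (h.sup.c0 z y hy.1))).2 s) fun r f _ =>
    ⟨fun e => ap (h.ex.inv x n).2 f ▸ (h.sup.ex_ge z r _ _ (h.ex.nil_neg x n) e).1 (neg_mem s'),
      fun e => (h.sup.ex_ge z r x f n e).1 s'⟩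

theorem supE (h : T2a c ζ) (a : Φ × ℤ) (t : K) (hz : c.Fix z) {P : Set ℚ} (e : c.val a z ∈ P) :
    t • c.E ζ a ∈ c.Sup z P :=
  Submodule.smul_mem _ t (c.Sup_mono (singleton_subset_iff.2 e) (h.rt1.sup a z hz))

theorem aut_exE (h : T2a c ζ) (a : Φ × ℤ) (t : K) (hz : c.Fix z) (e : 0 < c.val a z) :
    c.Aut0 ζ 1 (U.ex (t • c.E ζ a)) z :=
  aut_ex h (Submodule.smul_mem _ t (h.rt1.eqv a)) (h.rt1.nil a t) (supE h a t hz e)

theorem low_le (a : c.Low ζ z g) {r : ℚ} {f : LG L K} (hf : f ∈ c.Eqv ζ)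
    (e : f ∈ c.Sup z (Iic r)) : g f ∈ c.Sup z (Iic r) :=
  sub_add_cancel (g f) f ▸ add_mem (c.Sup_mono Iio_subset_Iic_self (a r f hf e)) e

theorem low_iff (h : T2a c ζ) (a : c.Low ζ z g) {P : Set ℚ} (hP : IsLowerSet P) {f : LG L K}
    (hf : f ∈ c.Eqv ζ) : g f ∈ c.Sup z P ↔ f ∈ c.Sup z P := by
  by_cases h0 : f = 0
  · simp [h0]
  obtain ⟨_, h1, i, h2, rfl⟩ := h.sup.high z f h0
  refine ⟨fun e => c.Sup_mono (hP.Iic_subset (e i fun h3 => ?_)) h1,
    fun e => c.Sup_mono (hP.Iic_subset (e i h2)) (low_le a hf h1)⟩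
  exact (mem_Iio.1 (a _ f hf h1 i (by simpa [h3] using h2))).false

theorem low_mul (b : c.LA ζ g') (a : c.Low ζ z g) (a' : c.Low ζ z g') : c.Low ζ z (g * g') :=
  fun r f hf e => sub_add_sub_cancel (g (g' f)) (g' f) f ▸
    add_mem (a r _ ((b.eqv f).2 hf) (low_le a' hf e)) (a' r f hf e)

theorem low_exE (h : T2a c ζ) (a : Φ × ℤ) (t : K) (hz : c.Fix z) (e : c.val a z < 0) :
    c.Low ζ z (U.ex (t • c.E ζ a)) :=
  fun r f _ s => (h.sup.ex_le z r _ f (h.rt1.nil a t) s).2 (supE h a t hz e)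

theorem int_of (h : T2a c ζ) {M : Set K} (a : c.LA ζ g) (e : g * g' = 1) (b : c.IntE ζ M g)
    (b' : c.IntE ζ M g') : c.IntB ζ M g :=
  fun f hf => ⟨fun s => ap (inv h a e).2 f ▸ b' _ ((a.eqv f).2 hf) s, b f hf⟩

theorem int_exE (h : T2a c ζ) {S : Subring K} {M : Set K} (a : Φ × ℤ) {t : K} (h1 : c.SD ζ S)
    (h2 : SM S M) (h3 : t ∈ S) : c.IntB ζ M (U.ex (t • c.E ζ a)) :=
  int_of h (exE h a t) (h.rt1.exE_inv a t).1 (fun f _ => (h.xi S M a t f h1 h2).1 h3)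
    fun f _ => (h.xi S M a (-t) f h1 h2).1 (neg_mem h3)

theorem nu (h : T2a c ζ) (V : ValuationSubring K) {f f' : LG L K} (h0 : f ≠ 0)
    (h1 : c.In V.nonunits f) (h2 : ∀ t : K, c.In V (t • f) → c.In V (t • f')) :
    c.In V.nonunits f' := by
  obtain ⟨t, t0, h3, a, e⟩ := h.sup.prim V f h0
  rw [map_smul, smul_eq_mul] at e
  rw [← inv_smul_smul₀ t0 f']
  exact (h.sup.in_add _ _ (SM.nonunits V)).2.2.2.1 _ _ (eq_inv_of_mul_eq_one_right e ▸ h1 a) (h2 t h3)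

theorem intE_m (h : T2a c ζ) (V : ValuationSubring K) (a : c.IntE ζ V g) :
    c.IntE ζ V.nonunits g := fun f hf e => by
  by_cases h0 : f = 0
  · rwa [h0, map_zero, ← h0]
  exact nu h V h0 e fun t s => h.lp.op_smul g t f ▸ a _ (Submodule.smul_mem _ t hf) s

end LaA

open LaA in
theorem la (h : T2a c ζ) : S_la c ζ :=
  have one : c.LA ζ 1 := ⟨h.ex.a0_one, fun _ => Iff.rfl⟩
  have aut_one : ∀ z, c.Aut0 ζ 1 1 z := fun _ =>
    aut_mk one (fun _ _ => by simp) fun _ _ _ => Iff.rfl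
  { one := one
    mul := fun _ _ => mul h
    inv := fun _ _ => inv h
    ex_inv := fun g a => let ⟨g', e, e'⟩ := h.ex.a0_ex g a.a0; ⟨g', (inv h a e).1, e, e'⟩
    ex := fun _ => LaA.ex h
    exE := exE h
    pf := fun _ _ k => h.ex.pf_ind _ k _ one (fun _ _ => mul h) fun _ _ => exE h _ _
    aut_one := aut_one
    aut_mul := fun _ _ _ _ _ => aut_mul h
    aut_left := fun ψ _ _ _ a b => one_mul ψ ▸ aut_mul h a b
    aut_right := fun ψ _ _ _ a b => mul_one ψ ▸ aut_mul h a b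
    aut_inv := fun g g' z a e b => by
      have i := (inv h a e).1
      refine aut_mk i (fun x hx => ?_) fun r f hf => by rw [← b.fil r _ ((i.eqv f).2 hf), ap e]
      have m := h.eqv.c0 x hx.2
      rw [← aut_gt h b 0 _ (sub_mem ((i.eqv _).2 m) m), map_sub, ap e, ← neg_mem_iff, neg_sub]
      simpa only [one_zero, one_smul] using b.hh x hx
    aut_ex := fun _ hx _ => aut_ex h hx
    aut_exE := fun a t _ => aut_exE h a t
    aut_pf := fun _ _ k z hz e => h.ex.pf_ind _ k (c.Aut0 ζ 1 · z) (aut_one z)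
      (fun _ _ a b => one_mul (1 : LP K) ▸ aut_mul h a b) fun i _ => aut_exE h _ _ hz (e i)
    aut_gt := fun _ _ _ => aut_gt h
    aut_inj := fun ψ g z a f hf e => c.ext1 fun i => by_contra fun n =>
      (lt_add_one _).not_ge
        (mem_Ici.1 ((a.fil (c.wt z i + 1) f hf).1 (e ▸ zero_mem _) i (by simpa using n)))
    aut_of := fun g a b e z hz => aut_mk a (fun x hx => by simp [e x hx]) fun r => b.sup z hz _
    low_one := fun _ _ _ _ _ => by simp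
    low_mul := fun _ _ _ => low_mul
    low_iff := fun _ _ a r _ hf =>
      ⟨low_iff h a (isLowerSet_Iic r) hf, low_iff h a (isLowerSet_Iio r) hf⟩
    low_inv := fun z g g' a e b r f hf s => by
      have m := ((inv h a e).1.eqv f).2 hf
      have := b r _ m ((low_iff h b (isLowerSet_Iic r) m).1 (by rwa [ap e]))
      rwa [ap e, ← neg_mem_iff, neg_sub] at this
    low_exE := fun a t _ => low_exE h a t
    low_pf := fun _ _ k z hz e => (h.ex.pf_ind _ k (fun g => c.LA ζ g ∧ c.Low ζ z g)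
      ⟨one, fun _ _ _ _ => by simp⟩ (fun _ _ a b => ⟨mul h a.1 b.1, low_mul b.1 a.2 b.2⟩)
      fun i _ => ⟨exE h _ _, low_exE h _ _ hz (e i)⟩).2
    low_aut := fun z g hz a b f hf => h.sup.ind (c.wt z) (fun f => g f = f) (map_zero g)
      (fun f f' e e' => by rw [map_add, e, e']) f fun i _ => by
        have m := h.eqv.pr_wt z {c.wt z i} hz f hf
        have s := (h.sup.pr_wt z {c.wt z i} f).1
        have s' := c.Sup_mono (singleton_subset_iff.2 self_mem_Ici) s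
        exact sub_eq_zero.1 (h.sup.empty z _ _ _
          (a _ _ m (c.Sup_mono (singleton_subset_iff.2 self_mem_Iic) s))
          (sub_mem ((b.fil _ _ m).2 s') s') fun p hp => (mem_Iio.1 hp).not_ge)
    int_one := fun _ _ _ => Iff.rfl
    int_mul := fun M g g' e => ⟨fun a b f hf => (a _ (e f hf)).trans (b f hf),
      fun a b f hf s => a _ (e f hf) (b f hf s)⟩
    int_inv := fun M g g' a e b f hf => by rw [← b _ (((inv h a e).1.eqv f).2 hf), ap e]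
    int_of := fun _ _ _ => int_of h
    int_exE := fun _ _ a _ => int_exE h a
    int_pf := fun S M _ _ _ k h1 h2 e => (h.ex.pf_ind _ k (fun g => c.LA ζ g ∧ c.IntB ζ M g)
      ⟨one, fun _ _ => Iff.rfl⟩ (fun _ _ a b => ⟨mul h a.1 b.1, fun f hf =>
        (a.2 _ ((b.1.eqv f).2 hf)).trans (b.2 f hf)⟩)
      fun i _ => ⟨exE h _ _, int_exE h _ h1 h2 (e i)⟩).2
    intE_m := fun V _ => intE_m h V
    intB_m := fun V g i a f hf => ⟨fun e => by
      by_cases h0 : g f = 0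
      · rwa [i f hf h0, ← h0]
      exact nu h V h0 e fun t s => (a _ (Submodule.smul_mem _ t hf)).1 (h.lp.op_smul g t f ▸ s),
      intE_m h V (fun f hf => (a f hf).2) f hf⟩
    mono_one := ⟨fun _ e => e, fun z e => ⟨z, e, rfl⟩, fun _ _ _ _ _ => Iff.rfl⟩
    mono_mul := fun n n' v v' i a b => ⟨fun z e => a.fix _ (b.fix z e), fun z e =>
      let ⟨y, e1, e2⟩ := a.surj z e; let ⟨x, e3, e4⟩ := b.surj y e1
      ⟨x, e3, (congrArg v e4).trans e2⟩, fun z e P f hf =>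
        (a.sup _ (b.fix z e) P _ ((i.eqv f).2 hf)).trans (b.sup z e P f hf)⟩
    mono_congr := fun n v v' a e => ⟨fun z s => e z s ▸ a.fix z s, fun z s =>
      let ⟨y, e1, e2⟩ := a.surj z s; ⟨y, e1, (e y e1).trans e2⟩, fun z s => e z s ▸ a.sup z s⟩
    act_one := fun s U => funext fun j => by rw [actE, h.lp.evE_one]; exact Submodule.map_id _
    act_mul := fun s hs g g' U => funext fun j => by
      rw [actE, h.lp.evE_mul _ (hs j)]; exact Submodule.map_comp _ _ _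
    act_ext := fun s hs g g' U e => funext fun j => by
      rw [actE, h.eqv.evE_ext _ (hs j) g g' e, actE]
    act_fd := fun s hs g U a j => h.fd.map _ _ (h.lp.evE_a0 _ (hs j) g a.a0)
    act_pU := fun s hs n a y lam => funext fun j => by
      simp only [actE, h.lp.evE_pf _ (hs j) _ 0 fun i => h.rt1.nil (a i) (y i), map_smul] }

end Pool.Agent.P.MP_e7d440_ag.U
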