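import Pool.Agent.P.MP_e7d440_ag.U.Iface

/-! Algebra of loops. -/

namespace Pool.Agent.P.MP_e7d440_ag.U

open TensorProduct LieAlgebra LaurentPolynomial Set

variable {L Φ Δ : Type} [LieRing L] [LieAlgebra ℚ L] [Fintype Φ] [Fintype Δ] [DecidableEq Φ]
  [DecidableEq Δ] (c : CD L Φ Δ)

variable (K : Type) [Field K] [CharZero K]

namespace LpA

variable {K}

omit [CharZero K] in
theorem indL {Q : LP K → Prop} (p : LP K) (add : ∀ p q, Q p → Q q → Q (p + q))
    (h : ∀ (n : ℤ) (a : K), Q (a • T n)) : Q p :=
  p.induction_on' add fun n a => smul_eq_C_mul a (T n : LP K) ▸ h n a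

omit [CharZero K] in
theorem TT (a b : K) (m n : ℤ) : (a • T m * b • T n : LP K) = (a * b) • T (m + n) := by
  rw [smul_mul_smul_comm, T_add]

omit [CharZero K] in
theorem C_eq (a : K) : (C a : LP K) = a • T 0 := by rw [smul_eq_C_mul, T_zero, mul_one]

omit [CharZero K] in
theorem coeff_sT (a : K) (n : ℤ) : (a • T n : LP K).coeff = Finsupp.single n a := by
  rw [smul_eq_C_mul, ← single_eq_C_mul_T]; rfl

theorem indG {Q : LG L K → Prop} (f : LG L K) (add : ∀ f g, Q f → Q g → Q (f + g))
    (h : ∀ (n : ℤ) (x : G L K), Q (mon n x)) : Q f := by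
  induction f using TensorProduct.induction_on with
  | zero => exact map_zero (mon (L := L) (K := K) 0) ▸ h 0 0
  | add x y hx hy => exact add _ _ hx hy
  | tmul p x =>
    induction p using indL with
    | add p q hp hq => rw [add_tmul]; exact add _ _ hp hq
    | h n a => exact h n (a ⊗ₜ[ℚ] x)

theorem evL_mul {s : K} (hs : s ≠ 0) (p q : LP K) : evL s (p * q) = evL s p * evL s q := by
  induction p using indL with
  | add p p' hp hp' => simp only [add_mul, map_add, hp, hp']
  | h m a =>
    induction q using indL with
    | add q q' hq hq' => simp only [mul_add, map_add, hq, hq']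
    | h n b => simp only [TT, map_smul, evL_T, smul_eq_mul, zpow_add₀ hs, mul_mul_mul_comm]

theorem evL_one (s : K) : evL s 1 = 1 := by rw [← T_zero, evL_T, zpow_zero]

theorem mqa_eq {R R' : Type} [CommRing R] [Algebra ℚ R] [Algebra K R] [IsScalarTower ℚ K R]
    [CommRing R'] [Algebra ℚ R'] [Algebra K R'] [IsScalarTower ℚ K R'] (φ : R →ₗ[K] R')
    (f : R →+ R') (e : ∀ p, f p = φ p) (x : G L R) : mqa f x = mq φ x := by
  induction x using TensorProduct.induction_on with
  | zero => simp
  | add x y hx hy => simp only [map_add, hx, hy]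
  | tmul r x => simp [e]

theorem evL_hom {s : K} (hs : s ≠ 0) : ∃ f : LP K →+* K, (∀ p, f p = evL s p) ∧
    ∀ x : LG L K, mqa (f : LP K →+ K) x = ev s x :=
  ⟨⟨⟨⟨evL s, evL_one s⟩, evL_mul hs⟩, map_zero _, map_add _⟩, fun _ => rfl,
    mqa_eq _ _ fun _ => rfl⟩

theorem ddL_coeff (p : LP K) (m : ℤ) : (ddL p).coeff m = m * p.coeff m := by
  induction p using indL with
  | add p q hp hq => simp [hp, hq, mul_add]
  | h n a =>
    rw [map_smul, ddL_T, smul_smul, coeff_sT, coeff_sT, Finsupp.single_apply, Finsupp.single_apply]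
    split_ifs with h <;> simp [h, mul_comm]

theorem ddL_mul (p q : LP K) : ddL (p * q) = p * ddL q + q * ddL p := by
  induction p using indL with
  | add p p' hp hp' => simp only [add_mul, mul_add, map_add, hp, hp']; abel
  | h m a =>
    induction q using indL with
    | add q q' hq hq' => simp only [add_mul, mul_add, map_add, hq, hq']; abel
    | h n b =>
      simp only [TT, map_smul, ddL_T, smul_smul, add_comm n m, ← add_smul]
      congr 1
      push_cast
      ring

theorem smul_C (t : K) (f : LG L K) : t • f = (C t : LP K) • f :=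
  (algebraMap_smul (LP K) t f).symm

theorem mon_T (k m : ℤ) (x : G L K) : (T k : LP K) • mon m x = mon (k + m) x := by
  induction x using TensorProduct.induction_on with
  | zero => simp
  | add x y hx hy => simp only [map_add, smul_add, hx, hy]
  | tmul a x => simp only [mon_tmul, smul_tmul', smul_eq_mul, mul_smul_comm, T_add]

theorem cf_mon (m n : ℤ) (x : G L K) : cf m (mon n x) = if n = m then x else 0 := by
  induction x using TensorProduct.induction_on with
  | zero => simp
  | add x y hx hy => simp only [map_add, hx, hy]; split_ifs <;> simp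
  | tmul a x =>
    rw [mon_tmul, cf_tmul, coeff_sT, Finsupp.single_apply]
    split_ifs <;> simp

theorem cf_T (k n : ℤ) (f : LG L K) : cf n ((T k : LP K) • f) = cf (n - k) f := by
  induction f using indG with
  | add f g hf hg => simp only [smul_add, map_add, hf, hg]
  | h m x => simp only [mon_T, cf_mon, eq_sub_iff_add_eq']

theorem ev_mon (s : K) (m : ℤ) (x : G L K) : ev s (mon m x) = s ^ m • x := by
  induction x using TensorProduct.induction_on with
  | zero => simp
  | add x y hx hy => simp only [map_add, smul_add, hx, hy]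
  | tmul a x => simp [smul_tmul', mul_comm]

theorem ev_mon0 (s : K) (x : G L K) : ev s (mon 0 x) = x := by rw [ev_mon, zpow_zero, one_smul]

theorem dd_mon (m : ℤ) (x : G L K) : dd (mon m x) = (m : K) • mon m x := by
  induction x using TensorProduct.induction_on with
  | zero => simp
  | add x y hx hy => simp only [map_add, smul_add, hx, hy]
  | tmul a x => simp only [mon_tmul, dd_tmul, map_smul, ddL_T, smul_tmul', smul_comm a]

theorem mon_lie (m n : ℤ) (x y : G L K) : ⁅mon m x, mon n y⁆ = mon (m + n) ⁅x, y⁆ := by
  induction x using TensorProduct.induction_on with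
  | zero => simp
  | add x x' hx hx' => simp only [map_add, add_lie, hx, hx']
  | tmul a x =>
    induction y using TensorProduct.induction_on with
    | zero => simp
    | add y y' hy hy' => simp only [map_add, lie_add, hy, hy']
    | tmul b y => simp only [mon_tmul, ExtendScalars.bracket_tmul, TT]

omit [Fintype Φ] [Fintype Δ] [DecidableEq Φ] [DecidableEq Δ] in
theorem mon_kR (m n : ℤ) (x y : G L K) :
    c.kR (LP K) (mon m x) (mon n y) = C (c.kR K x y) * T (m + n) := by
  induction x using TensorProduct.induction_on with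
  | zero => simp
  | add x x' hx hx' => simp only [map_add, LinearMap.add_apply, add_mul, hx, hx']
  | tmul a x =>
    induction y using TensorProduct.induction_on with
    | zero => simp
    | add y y' hy hy' => simp only [map_add, add_mul, hy, hy']
    | tmul b y => simp only [mon_tmul, CD.kR_tmul, TT, ← smul_eq_C_mul, smul_assoc]

theorem cf_fin (f : LG L K) : {m | cf m f ≠ 0}.Finite := by
  induction f using indG with
  | add f g hf hg =>
    exact (hf.union hg).subset fun m h => by
      by_contra! e
      simp only [mem_union, mem_ofPred, not_or, not_not] at e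
      exact h (by rw [map_add, e.1, e.2, add_zero])
  | h n x =>
    exact (finite_singleton n).subset fun m h => by_contra fun e =>
      h (by rw [cf_mon, if_neg (Ne.symm e)])

theorem ev_smul {s : K} (hs : s ≠ 0) (p : LP K) (f : LG L K) :
    ev s (p • f) = evL s p • ev s f := by
  induction f using TensorProduct.induction_on with
  | zero => simp
  | add x y hx hy => simp only [map_add, smul_add, hx, hy]
  | tmul a x => simp only [smul_tmul', smul_eq_mul, ev_tmul, evL_mul hs]

theorem ev_op {s : K} (hs : s ≠ 0) (g : Op L K) (f : LG L K) : ev s (g f) = evE s g (ev s f) := by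
  induction f using indG with
  | add f f' hf hf' => simp only [map_add, hf, hf']
  | h n x =>
    rw [ev_mon, map_smul, evE_apply, ← add_zero n, ← mon_T, map_smul, ev_smul hs, evL_T, add_zero]

theorem evE_one (s : K) : evE s (1 : Op L K) = 1 := LinearMap.ext (ev_mon0 s)

theorem evE_mul {s : K} (hs : s ≠ 0) (g g' : Op L K) : evE s (g * g') = evE s g * evE s g' :=
  LinearMap.ext fun _ => ev_op hs g _

end LpA

open LpA in
theorem lp (h : T0 c) : S_lp c K := by
  have ext : ∀ f g : LG L K, (∀ m, cf m f = cf m g) → f = g := fun f g e =>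
    c.ext1 fun a => by rw [← c.co_cf a.1 a.2, ← c.co_cf a.1 a.2, e]
  have hd := h.gk.der_lie (ddL (K := K)).toAddMonoidHom ddL_mul
  simp only [mqa_eq ddL (ddL (K := K)).toAddMonoidHom fun _ => rfl] at hd
  have lie : ∀ s : K, s ≠ 0 → ∀ f g : LG L K, ev s ⁅f, g⁆ = ⁅ev s f, ev s g⁆ := fun s hs f g => by
    obtain ⟨φ, -, e⟩ := evL_hom (L := L) hs
    simpa only [e] using h.gk.mqa_lie φ f g
  have kR : ∀ s : K, s ≠ 0 → ∀ f g : LG L K,
      evL s (c.kR (LP K) f g) = c.kR K (ev s f) (ev s g) := fun s hs f g => by
    obtain ⟨φ, e', e⟩ := evL_hom (L := L) hs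
    simpa only [e, e'] using (h.gk.mqa_kR φ f g).symm
  exact {
    evL_C := fun s a => by simp [C_eq, evL_one]
    evL_mul := fun _ => evL_mul
    evL_eq := fun s p => by
      simp only [evL, Module.Basis.constr_apply, smul_eq_mul]
      rfl
    evL_hom := fun _ => evL_hom
    ddL_coeff := ddL_coeff
    ddL_mul := ddL_mul
    smul_C := smul_C
    crd_ev := fun _ => c.crd_mq _
    crd_dd := c.crd_mq _
    co_dd := fun a f => by rw [c.co_eq, c.co_eq, dd, c.crd_mq, ddL_coeff]
    co_c0 := fun x hx a f => by
      rw [c.co_eq, c.co_eq, h.gk.lie_c0 x hx, AddMonoidAlgebra.coeff_smul, Finsupp.smul_apply,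
        Rat.smul_def]
    co_T := fun k m i f => by rw [← c.co_cf, ← c.co_cf, cf_T]
    co_const := fun a x => by
      rw [c.co_eq, c.crd_tmul, AddMonoidAlgebra.coeff_smul, Finsupp.smul_apply, ← T_zero, T_apply]
      simp [eq_comm, Rat.smul_def]
    dd_lie := hd.1
    dd_smul := hd.2.1
    dd_mon := dd_mon
    dd_c0 := hd.2.2
    ev_lie := lie
    ev_smul := fun _ => ev_smul
    ev_kR := kR
    ev_mon := ev_mon
    ev_c0 := fun s x => by rw [ev_tmul, evL_one]
    cf_mon := cf_mon
    cf_ext := ext
    cf_smul := fun p f n => by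
      induction p using indL with
      | add p q hp hq =>
        rw [add_smul, map_add, hp, hq, AddMonoidAlgebra.coeff_add,
          Finsupp.sum_add_index' (by simp) fun _ _ _ => add_smul _ _ _]
      | h m a => rw [smul_assoc, map_smul, cf_T, coeff_sT, Finsupp.sum_single_index (by simp)]
    mon_lie := mon_lie
    mon_kR := mon_kR c
    mon_T := mon_T
    mon_c0 := fun x => by rw [mon_tmul, one_smul, T_zero]
    sum_mon := fun f => ⟨(cf_fin f).toFinset, fun m hm => by simpa using hm, ext _ _ fun m => by
      simp only [map_sum, cf_mon, Finset.sum_ite_eq']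
      split_ifs with e
      exacts [rfl, by simpa using e]⟩
    lie_smul := fun t f g => by simp only [smul_C, smul_lie, lie_smul, and_self]
    kR_smul := fun t f g => by
      simp only [smul_C, map_smul, LinearMap.smul_apply, smul_eq_mul, smul_eq_C_mul, and_self]
    nil_smul := fun t f e => smul_C t f ▸ h.ex.nil_smul _ f e
    op_smul := fun g t f => by rw [smul_C, smul_C, map_smul]
    ev_op := fun _ => ev_op
    evE_one := evE_one
    evE_mul := fun _ => evE_mul
    evE_ex := fun s hs x hx => by
      obtain ⟨φ, -, e⟩ := evL_hom (L := L) hs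
      have := h.ex.nat φ x hx
      simp only [e] at this
      exact ⟨this.1, LinearMap.ext fun y => by rw [evE_apply, this.2, ev_mon0]⟩
    evE_pf := fun s hs n x k hx => by
      obtain ⟨φ, -, e⟩ := evL_hom (L := L) hs
      have := h.ex.nat_pf φ x k hx
      simp only [e] at this
      exact LinearMap.ext fun y => by rw [evE_apply, this, ev_mon0]
    evE_a0 := fun s hs g hg => ⟨fun x y => by
      rw [← ev_mon0 s x, ← ev_mon0 s y, ← lie s hs, ← ev_op hs, ← ev_op hs, ← ev_op hs, hg.lie,
        lie s hs], fun x y => by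
      rw [← ev_mon0 s x, ← ev_mon0 s y, ← ev_op hs, ← ev_op hs, ← kR s hs, ← kR s hs, hg.form],
      hg.unit.map (⟨⟨evE s, evE_one s⟩, evE_mul hs⟩ : Op L K →* Module.End K (G L K))⟩ }

end Pool.Agent.P.MP_e7d440_ag.U
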