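import Pool.Agent.P.MP_e7d440_ag.U.Iface2

/-! Normal forms along a gallery. -/

namespace Pool.Agent.P.MP_e7d440_ag.U

open TensorProduct LieAlgebra LaurentPolynomial Set

variable {L Φ Δ : Type} [LieRing L] [LieAlgebra ℚ L] [Fintype Φ] [Fintype Δ] [DecidableEq Φ]
  [DecidableEq Δ] (c : CD L Φ Δ) {K : Type} [Field K] [CharZero K] (ζ : K)

namespace NfA

variable {c ζ}

omit [Fintype Φ] [Fintype Δ] [DecidableEq Φ] [DecidableEq Δ] in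
theorem intE {M : Set K} {g : Op L K} (h : c.IntB ζ M g) : c.IntE ζ M g :=
  fun f hf a => (h f hf).2 a

theorem nf (h : T2d c ζ) (z' : L) (n : ℕ) : ∀ z (a : Fin n → Φ × ℤ) u, c.Reg ζ z' → c.Fix z →
    c.Gal ζ z' n z a → c.LA ζ u → c.Aut0 ζ 1 u z →
    ∃ (y : Fin n → K) (u' : Op L K), u = pf (fun k => y k • c.E ζ (a k)) 0 * u' ∧ c.LA ζ u' ∧
      c.Aut0 ζ 1 u' z' ∧ ∀ V : ValuationSubring K, c.SD ζ V.toSubring → c.IntB ζ V u →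
        (∀ k, y k ∈ V) ∧ c.IntB ζ V u' := by
  induction n with
  | zero =>
    intro z a u hz' hz hg hu ha
    exact ⟨fun k => k.elim0, u, by rw [pf_zero, one_mul], hu, h.aut1.same _ _ _ _ hz hz'.1 hg ha,
      fun V _ hV => ⟨fun k => k.elim0, hV⟩⟩
  | succ n ih =>
    rintro z a u hz' hz ⟨z₁, hadj, -, hg⟩ hu ha
    obtain ⟨t, ht⟩ := h.aut2.left 1 u z z₁ _ hadj ha
    obtain ⟨y, u', e, h1, h2, h3⟩ := ih z₁ _ _ hz' hadj.reg₁.1 hg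
      (h.la.mul _ _ (h.la.exE _ t) hu) ht
    have e1 : ex (-t • c.E ζ (a 0)) * (ex (t • c.E ζ (a 0)) * u) = u := by
      rw [← mul_assoc, (h.rt1.exE_inv _ t).2, one_mul]
    refine ⟨Fin.cons (-t) y, u', ?_, h1, h2, fun V hV hi => ?_⟩
    · rw [pf_succ, mul_assoc, ← e1, e]
      rfl
    · have k1 : -t ∈ V := h.aut2.det V _ z z₁ _ _ hV hadj
        (h.la.aut_left _ _ _ _ (h.la.aut_exE _ t z hz hadj.pos) ha) ht (e1.symm ▸ intE hi)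
      obtain ⟨k2, k3⟩ := h3 V hV ((h.la.int_mul _ _ _ fun f hf => (hu.eqv f).2 hf).1
        (h.la.int_exE _ _ _ t hV (SM.val V) (by simpa using V.neg_mem _ k1)) hi)
      exact ⟨fun k => Fin.cases k1 k2 k, k3⟩

theorem nf2 (h : T2d c ζ) (z' : L) (n : ℕ) (z : L) (a : Fin n → Φ × ℤ) (u : Op L K)
    (hz' : c.Reg ζ z') (hz : c.Fix z) (hg : c.Gal ζ z' n z a) (hu : c.LA ζ u)
    (ha : c.Aut0 ζ 1 u z) (hl : c.Low ζ z' u) :
    ∃ y : Fin n → K, ∀ f ∈ c.Eqv ζ, u f = pf (fun k => y k • c.E ζ (a k)) 0 f := by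
  obtain ⟨y, u', e, -, h2, -⟩ := nf h z' n z a u hz' hz hg hu ha
  obtain ⟨P, -, p1, p2⟩ := h.la.ex_inv _ (h.la.pf a y 0)
  have e1 : P * u = u' := by rw [e, ← mul_assoc, p2, one_mul]
  have h3 : c.Low ζ z' u' := e1 ▸ h.la.low_mul z' P u hu (h.la.low_inv z' _ P (h.la.pf a y 0) p1
    (h.la.low_pf a y 0 z' hz'.1 fun i => (h.gal.mem z' n z a hz' hg i).2.2)) hl
  refine ⟨y, fun f hf => ?_⟩
  conv_lhs => rw [e, Module.End.mul_apply, h.la.low_aut z' u' hz'.1 h3 h2 f hf]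

theorem coef (h : T2d c ζ) (V : ValuationSubring K) (z' : L) (n : ℕ) :
    ∀ z (a : Fin n → Φ × ℤ) (y : Fin n → K), c.SD ζ V.toSubring → c.Reg ζ z' →
    c.Gal ζ z' n z a → c.IntE ζ V (pf (fun k => y k • c.E ζ (a k)) 0) → ∀ k, y k ∈ V := by
  induction n with
  | zero => exact fun _ _ _ _ _ _ _ k => k.elim0
  | succ n ih =>
    intro z a y hV hz' hg hi
    have m := h.gal.mem z' _ z a hz' hg
    have hla := h.la.pf a y 0
    obtain ⟨z₁, hadj, -, hg⟩ := hg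
    have m1 := h.gal.mem z' _ z₁ _ hz' hg
    rw [pf_succ] at hi hla
    have k1 : y 0 ∈ V := h.aut2.det V _ z z₁ _ _ hV hadj
      (h.la.aut_pf (Fin.tail a) (Fin.tail y) 0 z hadj.reg.1 fun i => (m i.succ).2.1)
      (h.la.aut_pf (Fin.tail a) (Fin.tail y) 0 z₁ hadj.reg₁.1 fun i => (m1 i).2.1) hi
    have k2 := (h.la.int_mul _ _ _ fun f hf => (hla.eqv f).2 hf).2
      (intE (h.la.int_exE _ _ (a 0) (-y 0) hV (SM.val V) (V.neg_mem _ k1))) hi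
    rw [← mul_assoc, (h.rt1.exE_inv _ _).2, one_mul] at k2
    exact fun k => Fin.cases k1 (ih z₁ (Fin.tail a) (Fin.tail y) hV hz' hg k2) k

omit [Fintype Φ] [Fintype Δ] [DecidableEq Φ] [DecidableEq Δ] in
theorem first {z x : L} {a0 : Φ × ℤ} (hz : c.Fix z) (hx : c.OnW ζ c.ρ x a0) (hv : c.val a0 z < 0)
    (n : ℕ) : ∀ (b' : Fin n → Φ × ℤ) z₁, c.Wk ζ (c.rf a0 z) n b' z₁ →
      ∃ b : Fin (n + 1) → Φ × ℤ, c.Wk ζ z (n + 1) b z₁ ∧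
        ∏ k, c.nu (b k).1 = c.nu a0.1 * ∏ k, c.nu (b' k).1 := by
  induction n with
  | zero => exact fun b' z₁ h => ⟨fun _ => a0, ⟨z, rfl, hz, ⟨x, hx⟩, hv, h⟩, by simp⟩
  | succ n ih =>
    rintro b' z₁ ⟨z', h1, h2⟩
    obtain ⟨b, h3, h4⟩ := ih _ _ h1
    refine ⟨Fin.cons (b' 0) b, ⟨z', h3, h2⟩, ?_⟩
    rw [Fin.prod_univ_succ, Fin.prod_univ_succ (fun k => c.nu (b' k).1), mul_left_comm]
    exact congrArg _ h4

theorem walk (h : T2d c ζ) (n : ℕ) : ∀ z (a : Fin n → Φ × ℤ), c.Reg ζ z → c.Gal ζ z n c.ρ a →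
    ∃ (b : Fin n → Φ × ℤ) (z₁ : L), c.Wk ζ z n b z₁ ∧ ∏ k, c.nu (b k).1 = ∏ k, c.nu (a k).1 := by
  induction n with
  | zero => exact fun z a _ _ => ⟨a, z, rfl, rfl⟩
  | succ n ih =>
    rintro z a hz ⟨z₁, hadj, hv, hg⟩
    obtain ⟨x, hx, -⟩ := h.wall.adj_on _ _ _ hadj
    have hm := h.psi.mono (a 0) 1 hadj.valid one_ne_zero
    obtain ⟨a', g1, g2⟩ := h.mono.gal _ _ z (h.psi.la _ _) hm hz.1 n z₁ _ hadj.reg₁.1 hg
    obtain ⟨b', z₂, w1, w2⟩ := ih _ a' (h.mono.reg _ _ z (h.psi.la _ _) hm hz)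
      (h.gal.left _ _ _ _ _ hadj.reg (h.wall.same_symm _ _ (h.wall.same_rf _ _ _ hadj).2) g1)
    obtain ⟨b, w3, w4⟩ := first hz.1 hx hv n b' z₂ w1
    refine ⟨b, z₂, w3, ?_⟩
    rw [w4, w2, Fin.prod_univ_succ]
    exact congrArg _ (Finset.prod_congr rfl fun i _ => g2 i)

end NfA

theorem nf (h : T2d c ζ) : S_nf c ζ :=
  ⟨NfA.nf h, NfA.nf2 h, NfA.coef h, fun z n a => NfA.walk h n z a⟩

end Pool.Agent.P.MP_e7d440_ag.U
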