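import Pool.Agent.P.MP_e7d440_ag.U.Iface

/-! Orbits of roots under the pinned automorphism. -/

namespace Pool.Agent.P.MP_e7d440_ag.U

open TensorProduct LieAlgebra LaurentPolynomial Set

variable {L Φ Δ : Type} [LieRing L] [LieAlgebra ℚ L] [Fintype Φ] [Fintype Δ] [DecidableEq Φ]
  [DecidableEq Δ] (c : CD L Φ Δ)

namespace OrbA

open Function

variable {c}

lemma periodic (h : S_cd c) (α : Φ) : IsPeriodicPt c.ς c.ℓ α := by
  change c.ς^[c.ℓ] α = α
  rw [← Equiv.Perm.coe_pow, h.ς_pow]; rfl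

lemma mem_per (h : S_cd c) (α : Φ) : α ∈ periodicPts c.ς := ⟨c.ℓ, c.ℓ_pos, periodic h α⟩

lemma dvd (h : S_cd c) (α : Φ) : minimalPeriod c.ς α ∣ c.ℓ := (periodic h α).minimalPeriod_dvd

lemma per_mul (h : S_cd c) (α : Φ) : c.per α * minimalPeriod c.ς α = c.ℓ :=
  Nat.div_mul_cancel (dvd h α)

lemma per_pos (h : S_cd c) (α : Φ) : 0 < c.per α := by
  refine Nat.pos_of_ne_zero fun e => ?_
  have := per_mul h α
  rw [e, zero_mul] at this
  exact c.ℓ_pos.ne this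

lemma pow_neg (h : S_cd c) (i : ℕ) (α : Φ) : (c.ς ^ i) (c.neg α) = c.neg ((c.ς ^ i) α) := by
  induction i with
  | zero => rfl
  | succ i ih => rw [pow_succ', Equiv.Perm.mul_apply, Equiv.Perm.mul_apply, ih, h.ς_neg]

lemma neg_inj (h : S_cd c) {α β : Φ} (e : c.neg α = c.neg β) : α = β := by
  rw [← h.neg_neg α, e, h.neg_neg]

lemma per_neg (h : S_cd c) (α : Φ) : c.per (c.neg α) = c.per α := by
  unfold CD.per
  congr 1
  refine minimalPeriod_eq_minimalPeriod_iff.2 fun n => ?_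
  change c.ς^[n] (c.neg α) = c.neg α ↔ c.ς^[n] α = α
  rw [← Equiv.Perm.coe_pow, pow_neg h]
  exact ⟨neg_inj h, fun e => by rw [e]⟩

omit [Fintype Δ] [DecidableEq Δ] [DecidableEq Φ] in
lemma ex_pow {α β : Φ} (e : c.ς.SameCycle α β) : ∃ i : ℕ, (c.ς ^ i) α = β := by
  obtain ⟨i, _, hi⟩ := e.exists_pow_eq'
  exact ⟨i, hi⟩

omit [Fintype Φ] [Fintype Δ] [DecidableEq Δ] [DecidableEq Φ] in
lemma cyc_pow (i : ℕ) (α : Φ) : c.ς.SameCycle α ((c.ς ^ i) α) := ⟨i, by simp⟩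

lemma per_cyc (h : S_cd c) (α β : Φ) (e : c.ς.SameCycle α β) : c.per α = c.per β := by
  obtain ⟨i, rfl⟩ := ex_pow e
  unfold CD.per
  rw [Equiv.Perm.coe_pow, minimalPeriod_apply_iterate (mem_per h α)]

lemma kap_pow (h : S_cd c) (i : ℕ) (α : Φ) : c.kap ((c.ς ^ i) α) = c.kap α := by
  induction i with
  | zero => rfl
  | succ i ih => rw [pow_succ', Equiv.Perm.mul_apply, h.kap_ς, ih]

lemma kap_cyc (h : S_cd c) (α β : Φ) (e : c.ς.SameCycle α β) : c.kap α = c.kap β := by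
  obtain ⟨i, rfl⟩ := ex_pow e
  exact (kap_pow h i α).symm

lemma it_cor (h : S_cd c) (i : ℕ) (α : Φ) : c.σ^[i] (c.cor α) = c.cor ((c.ς ^ i) α) := by
  induction i with
  | zero => rfl
  | succ i ih => rw [iterate_succ_apply', ih, h.σ_cor, pow_succ', Equiv.Perm.mul_apply]

lemma al_pow (h : S_cd c) (i : ℕ) (α β : Φ) :
    c.al ((c.ς ^ i) α) (c.cor ((c.ς ^ i) β)) = c.al α (c.cor β) := by
  induction i with
  | zero => rfl
  | succ i ih =>
    rw [pow_succ', Equiv.Perm.mul_apply, Equiv.Perm.mul_apply, ← h.σ_cor, h.al_σ, ih]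

lemma tau_eq (h : S_cd c) (α : Φ) : c.tau α =
    ((c.ℓ : ℚ)⁻¹ * (c.kap α)⁻¹) • ∑ i ∈ Finset.range c.ℓ, c.cor ((c.ς ^ i) α) := by
  simp only [CD.tau, it_cor h]

lemma tau_fix (h : S_cd c) (α : Φ) : c.Fix (c.tau α) := (h.fix_avg _ (h.isH_cor α)).smul _

lemma κ_tau (h : S_cd c) (α : Φ) (z : L) (hz : c.Fix z) : c.κ (c.tau α) z = c.al α z := by
  have h1 : ∀ i ∈ Finset.range c.ℓ, c.κ (c.cor ((c.ς ^ i) α)) z = c.kap α * c.al α z :=
    fun i _ => by rw [h.κ_cor, kap_pow h, ← h.fix_al z hz α _ (cyc_pow i α)]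
  have h2 := (h.kap_pos α).ne'
  have h3 : (c.ℓ : ℚ) ≠ 0 := Nat.cast_ne_zero.2 c.ℓ_pos.ne'
  rw [tau_eq h, map_smul, map_sum, LinearMap.smul_apply, LinearMap.sum_apply,
    Finset.sum_congr rfl h1, Finset.sum_const, Finset.card_range, nsmul_eq_mul, smul_eq_mul]
  field_simp

omit [Fintype Φ] [Fintype Δ] [DecidableEq Δ] [DecidableEq Φ] in
lemma tau_ext (x y : L) (hx : c.Fix x) (hy : c.Fix y) (e : ∀ z, c.Fix z → c.κ x z = c.κ y z) :
    x = y := by
  by_contra hne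
  have h1 := c.κ_pos (x - y) (hx.sub hy).1 (sub_ne_zero.2 hne)
  rw [map_sub c.κ, LinearMap.sub_apply, e _ (hx.sub hy), sub_self] at h1
  exact lt_irrefl _ h1

lemma tau_of (h : S_cd c) (α β : Φ) (e : ∀ z, c.Fix z → c.al α z = c.al β z) :
    c.tau α = c.tau β :=
  tau_ext _ _ (tau_fix h α) (tau_fix h β) fun z hz => by rw [κ_tau h _ z hz, κ_tau h _ z hz, e z hz]

lemma tau_cyc (h : S_cd c) (α β : Φ) (e : c.ς.SameCycle α β) : c.tau α = c.tau β :=
  tau_of h α β fun z hz => h.fix_al z hz α β e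

lemma nu_cyc (h : S_cd c) (α β : Φ) (e : c.ς.SameCycle α β) : c.nu α = c.nu β := by
  unfold CD.nu
  rw [h.fix_al _ (tau_fix h α) α β e, tau_cyc h α β e]

lemma tau_neg (h : S_cd c) (α : Φ) : c.tau (c.neg α) = -c.tau α :=
  tau_ext _ _ (tau_fix h _) (tau_fix h α).neg fun z hz => by
    rw [map_neg, LinearMap.neg_apply, κ_tau h _ z hz, κ_tau h _ z hz, c.al_neg]; rfl

lemma nu_neg (h : S_cd c) (α : Φ) : c.nu (c.neg α) = c.nu α := by
  unfold CD.nu
  rw [tau_neg h, c.al_neg]; simp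

lemma nu_pos (h : S_cd c) (α : Φ) : 0 < c.nu α := by
  unfold CD.nu
  rw [← κ_tau h α _ (tau_fix h α)]
  refine c.κ_pos _ (tau_fix h α).1 fun e => c.ρ_ne α ?_
  rw [← κ_tau h α _ c.fix_ρ, e]; simp

lemma kp_pos (h : S_cd c) (α : Φ) : 0 < c.kp α :=
  mul_pos (mul_pos (Nat.cast_pos.2 c.ℓ_pos) (Nat.cast_pos.2 (per_pos h α))) (h.kap_pos α)

lemma kp_neg (h : S_cd c) (α : Φ) : c.kp (c.neg α) = c.kp α := by
  unfold CD.kp
  rw [per_neg h, h.kap_neg]

lemma th_neg (h : S_cd c) (α : Φ) : c.th (c.neg α) = c.th α := by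
  unfold CD.th
  rw [kp_neg h, nu_neg h]

omit [Fintype Φ] [Fintype Δ] [DecidableEq Δ] [DecidableEq Φ] in
lemma sum_mul (α : Φ) (f : Φ → L) (q : ℕ) :
    ∑ i ∈ Finset.range (q * minimalPeriod c.ς α), f ((c.ς ^ i) α) =
      (q : ℚ) • ∑ i ∈ Finset.range (minimalPeriod c.ς α), f ((c.ς ^ i) α) := by
  induction q with
  | zero => simp
  | succ q ih =>
    rw [Nat.succ_mul, Finset.sum_range_add, ih, Nat.cast_succ, add_smul, one_smul]
    congr 1
    refine Finset.sum_congr rfl fun i _ => ?_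
    have h1 : c.ς^[q * minimalPeriod c.ς α] α = α :=
      (isPeriodicPt_minimalPeriod c.ς α).const_mul q
    rw [add_comm, pow_add, Equiv.Perm.mul_apply, Equiv.Perm.coe_pow c.ς (q * _), h1]

lemma kp_tau (h : S_cd c) (α : Φ) : c.kp α • c.tau α = (c.per α : ℚ) ^ 2 •
    ∑ i ∈ Finset.range (minimalPeriod c.ς α), c.cor ((c.ς ^ i) α) := by
  have h2 := (h.kap_pos α).ne'
  have h3 : (c.ℓ : ℚ) ≠ 0 := Nat.cast_ne_zero.2 c.ℓ_pos.ne'
  have h4 := sum_mul (c := c) α c.cor (c.per α)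
  rw [per_mul h] at h4
  rw [tau_eq h, h4, smul_smul, smul_smul]
  congr 1
  unfold CD.kp
  field_simp

variable (c) in
/-- the orbit -/
noncomputable def O (α : Φ) : Finset Φ :=
  (Finset.range (minimalPeriod c.ς α)).image fun i => (c.ς ^ i) α

lemma mem_O (h : S_cd c) {α β : Φ} : β ∈ O c α ↔ c.ς.SameCycle α β := by
  unfold O
  rw [Finset.mem_image]
  constructor
  · rintro ⟨i, _, rfl⟩
    exact cyc_pow i α
  · intro e
    obtain ⟨i, rfl⟩ := ex_pow e
    refine ⟨i % minimalPeriod c.ς α, Finset.mem_range.2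
      (Nat.mod_lt _ (minimalPeriod_pos_of_mem_periodicPts (mem_per h α))), ?_⟩
    rw [Equiv.Perm.coe_pow, Equiv.Perm.coe_pow, iterate_mod_minimalPeriod_eq]

variable (c) in
/-- the sum of the coroots of the orbit -/
noncomputable def S (α : Φ) : L := ∑ β ∈ O c α, c.cor β

omit [Fintype Φ] [Fintype Δ] [DecidableEq Δ] in
lemma S_eq (α : Φ) :
    S c α = ∑ i ∈ Finset.range (minimalPeriod c.ς α), c.cor ((c.ς ^ i) α) := by
  unfold S O
  refine Finset.sum_image fun i hi j hj e => ?_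
  refine iterate_injOn_Iio_minimalPeriod (f := c.ς) (x := α) (by simpa using hi)
    (by simpa using hj) ?_
  simpa only [Equiv.Perm.coe_pow] using e

lemma S_tau (h : S_cd c) (α : Φ) : (c.kp α / (c.per α : ℚ) ^ 2) • c.tau α = S c α := by
  have h1 : (c.per α : ℚ) ^ 2 ≠ 0 := pow_ne_zero _ (Nat.cast_ne_zero.2 (per_pos h α).ne')
  rw [div_eq_inv_mul, mul_smul, kp_tau h, smul_smul, inv_mul_cancel₀ h1, one_smul, S_eq]

lemma S_fix (h : S_cd c) (α : Φ) : c.Fix (S c α) := by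
  rw [← S_tau h]; exact (tau_fix h α).smul _

lemma co_pos (h : S_cd c) (α : Φ) : 0 < c.kp α / (c.per α : ℚ) ^ 2 :=
  div_pos (kp_pos h α) (pow_pos (Nat.cast_pos.2 (per_pos h α)) _)

lemma T_eq (h : S_cd c) (α : Φ) : c.al α (S c α) = c.kp α / (c.per α : ℚ) ^ 2 * c.nu α := by
  rw [← S_tau h, map_smul, smul_eq_mul]; rfl

lemma T_pos (h : S_cd c) (α : Φ) : 0 < c.al α (S c α) := by
  rw [T_eq h]; exact mul_pos (co_pos h α) (nu_pos h α)

omit [Fintype Φ] [Fintype Δ] [DecidableEq Δ] [DecidableEq Φ] in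
lemma int_sum {ι : Type} (t : Finset ι) (f : ι → ℚ) (hf : ∀ i ∈ t, ∃ n : ℤ, f i = n) :
    ∃ n : ℤ, ∑ i ∈ t, f i = n :=
  Finset.sum_induction f (fun x => ∃ n : ℤ, x = n)
    (fun _ _ ⟨m, hm⟩ ⟨n, hn⟩ => ⟨m + n, by rw [hm, hn, Int.cast_add]⟩) ⟨0, by simp⟩ hf

lemma S_int (h : S_cd c) (α β : Φ) : ∃ n : ℤ, c.al β (S c α) = n := by
  unfold S
  rw [map_sum]
  exact int_sum _ _ fun γ _ => h.cartan γ β

lemma sum_int (h : S_cd c) (α : Φ) (i : Φ ⊕ Δ) :
    ∃ n : ℤ, c.bas.repr ((c.kp α / (c.per α : ℚ) ^ 2) • c.tau α) i = n := by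
  rw [S_tau h]
  unfold S
  rw [map_sum, Finsupp.finset_sum_apply]
  exact int_sum _ _ fun γ _ => h.lie_int _ _ _

lemma no_sub (h : S_cd c) (α β γ : Φ) (e : c.ς.SameCycle α β) : c.al γ ≠ c.al α - c.al β :=
  fun e' => c.ρ_ne γ (by rw [e', LinearMap.sub_apply, h.fix_al _ c.fix_ρ α β e, sub_self])

lemma le0 (h : S_cd c) (α β : Φ) (e : c.ς.SameCycle α β) (hne : β ≠ α) :
    c.al β (c.cor α) ≤ 0 := by
  by_contra hp
  obtain ⟨γ, hγ⟩ := c.str α β (not_le.1 hp) hne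
  exact no_sub h β α γ e.symm hγ

lemma symm (h : S_cd c) (α β : Φ) (e : c.ς.SameCycle α β) :
    c.al β (c.cor α) = c.al α (c.cor β) := by
  have h1 := c.κ_symm (c.cor α) (c.cor β)
  rw [h.κ_cor, h.κ_cor, kap_cyc h α β e] at h1
  exact (mul_left_cancel₀ (h.kap_pos β).ne' h1).symm

lemma T_le (h : S_cd c) (α : Φ) (A : Finset Φ) (hA : ∀ β ∈ A, c.ς.SameCycle α β) (ha : α ∈ A) :
    c.al α (S c α) ≤ ∑ β ∈ A, c.al α (c.cor β) := by
  unfold S
  rw [map_sum]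
  have := Finset.sum_le_sum_of_subset_of_nonneg (f := fun β => -c.al α (c.cor β))
    (s := A) (t := O c α) (fun β hβ => (mem_O h).2 (hA β hβ)) fun β hβ hn =>
      neg_nonneg.2 (le0 h β α ((mem_O h).1 hβ).symm fun e => hn (e ▸ ha))
  rw [Finset.sum_neg_distrib, Finset.sum_neg_distrib] at this
  linarith

lemma orb_le (h : S_cd c) (α β : Φ) (e : c.ς.SameCycle α β) (hne : β ≠ α) :
    c.al β (c.cor α) = 0 ∨ c.al β (c.cor α) = -1 := by
  have h1 := T_le h α {α, β} (by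
    intro γ hγ
    rcases Finset.mem_insert.1 hγ with rfl | hγ
    · exact Equiv.Perm.SameCycle.refl _ _
    · rw [Finset.mem_singleton.1 hγ]; exact e) (by simp)
  rw [Finset.sum_pair hne.symm, c.cor_two, ← symm h α β e] at h1
  have h2 := T_pos h α
  have h3 := le0 h α β e hne
  obtain ⟨n, hn⟩ := h.cartan α β
  rw [hn] at h1 h3 ⊢
  have h4 : (-2 : ℤ) < n := by
    have : ((-2 : ℤ) : ℚ) < n := by push_cast; linarith
    exact_mod_cast this
  have h5 : n ≤ 0 := by exact_mod_cast h3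
  have : n = 0 ∨ n = -1 := by omega
  rcases this with rfl | rfl <;> simp

omit [Fintype Φ] [Fintype Δ] [DecidableEq Δ] [DecidableEq Φ] in
lemma ne_of {α β : Φ} (e : c.al β (c.cor α) = -1) : β ≠ α := by
  rintro rfl
  rw [c.cor_two] at e
  norm_num at e

lemma uniq (h : S_cd c) (α β γ : Φ) (e : c.ς.SameCycle α β) (e1 : c.al β (c.cor α) = -1)
    (e' : c.ς.SameCycle α γ) (e2 : c.al γ (c.cor α) = -1) : γ = β := by
  by_contra hne
  have hb := ne_of e1
  have hg := ne_of e2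
  have h1 := T_le h α {α, β, γ} (by
    intro δ hδ
    simp only [Finset.mem_insert, Finset.mem_singleton] at hδ
    rcases hδ with rfl | rfl | rfl
    · exact Equiv.Perm.SameCycle.refl _ _
    · exact e
    · exact e') (by simp)
  rw [Finset.sum_insert (by simp [hb.symm, hg.symm]), Finset.sum_pair (Ne.symm hne), c.cor_two,
    ← symm h α β e, ← symm h α γ e', e1, e2] at h1
  have h2 := T_pos h α
  linarith

lemma two_dvd (h : S_cd c) (α β : Φ) (e : c.ς.SameCycle α β) (e1 : c.al β (c.cor α) = -1) :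
    2 ∣ c.ℓ := by
  obtain ⟨k, rfl⟩ := ex_pow e
  have h1 : c.al α (c.cor ((c.ς ^ k) α)) = -1 := by rw [← symm h α _ e, e1]
  have h2 : c.al ((c.ς ^ k) ((c.ς ^ k) α)) (c.cor ((c.ς ^ k) α)) = -1 := by rw [al_pow h, e1]
  have h3 := uniq h ((c.ς ^ k) α) α _ e.symm h1 (cyc_pow k _) h2
  have h4 : minimalPeriod c.ς α ∣ 2 * k := by
    refine IsPeriodicPt.minimalPeriod_dvd ?_
    change c.ς^[2 * k] α = α
    rw [← Equiv.Perm.coe_pow, two_mul, pow_add, Equiv.Perm.mul_apply, h3]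
  refine Dvd.dvd.trans ?_ (dvd h α)
  by_contra h5
  have h6 : minimalPeriod c.ς α ∣ k :=
    ((Nat.prime_two.coprime_iff_not_dvd.2 h5).symm).dvd_of_dvd_mul_left h4
  refine ne_of e1 ?_
  rw [Equiv.Perm.coe_pow]
  exact isPeriodicPt_iff_minimalPeriod_dvd.2 h6

lemma T_cases (h : S_cd c) (α : Φ) : c.al α (S c α) = 2 ∨ (c.al α (S c α) = 1 ∧ 2 ∣ c.ℓ) := by
  by_cases h0 : ∃ β, c.ς.SameCycle α β ∧ c.al β (c.cor α) = -1
  · obtain ⟨β, e, e1⟩ := h0
    refine Or.inr ⟨?_, two_dvd h α β e e1⟩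
    have h1 := T_le h α {α, β} (by
      intro γ hγ
      rcases Finset.mem_insert.1 hγ with rfl | hγ
      · exact Equiv.Perm.SameCycle.refl _ _
      · rw [Finset.mem_singleton.1 hγ]; exact e) (by simp)
    rw [Finset.sum_pair (ne_of e1).symm, c.cor_two, ← symm h α β e, e1] at h1
    have h2 := T_pos h α
    obtain ⟨n, hn⟩ := S_int h α α
    rw [hn] at h1 h2 ⊢
    have h3 : 0 < n := by exact_mod_cast h2
    have h4 : n ≤ 1 := by
      have : (n : ℚ) ≤ ((1 : ℤ) : ℚ) := by push_cast; linarith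
      exact_mod_cast this
    obtain rfl : n = 1 := by omega
    simp
  · left
    unfold S
    rw [map_sum, Finset.sum_eq_single_of_mem α ((mem_O h).2 (Equiv.Perm.SameCycle.refl _ _)),
      c.cor_two]
    intro β hβ hne
    have e := (mem_O h).1 hβ
    rw [← symm h α β e]
    exact (orb_le h α β e hne).resolve_right fun e1 => h0 ⟨β, e, e1⟩

lemma th_eq (h : S_cd c) (α : Φ) :
    c.th α = (c.per α : ℚ) ^ 2 ∨ (c.th α = (c.per α : ℚ) ^ 2 / 2 ∧ 2 ∣ c.ℓ) := by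
  have h1 : (c.per α : ℚ) ≠ 0 := Nat.cast_ne_zero.2 (per_pos h α).ne'
  have h2 : c.th α = (c.per α : ℚ) ^ 2 * c.al α (S c α) / 2 := by
    rw [T_eq h]
    unfold CD.th
    field_simp
  rcases T_cases h α with e | ⟨e, e'⟩
  · left; rw [h2, e]; ring
  · right; exact ⟨by rw [h2, e]; ring, e'⟩

lemma inj (h : S_cd c) (α β : Φ) (e : ∀ z, c.Fix z → c.al α z = c.al β z) :
    c.ς.SameCycle α β := by
  have h1 : 0 < c.al α (S c β) := by rw [e _ (S_fix h β)]; exact T_pos h β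
  unfold S at h1
  rw [map_sum] at h1
  obtain ⟨γ, hγ, h2⟩ : ∃ γ ∈ O c β, 0 < c.al α (c.cor γ) := by
    by_contra hn
    push Not at hn
    exact absurd (Finset.sum_nonpos hn) (not_le.2 h1)
  have e' := (mem_O h).1 hγ
  by_cases h3 : α = γ
  · rw [h3]; exact e'.symm
  · obtain ⟨δ, hδ⟩ := c.str γ α h2 h3
    refine absurd ?_ (c.ρ_ne δ)
    rw [hδ, LinearMap.sub_apply, e _ c.fix_ρ, h.fix_al _ c.fix_ρ β γ e', sub_self]

lemma sim_iff (h : S_cd c) (a a' : Φ × ℤ) :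
    c.Sim a a' ↔ ∀ z, c.Fix z → c.val a z = c.val a' z := by
  constructor
  · rintro ⟨e1, e2⟩ z hz
    unfold CD.val
    rw [e1, h.fix_al z hz _ _ e2]
  · intro e
    have h1 : (a.2 : ℚ) = a'.2 := by simpa [CD.val] using e 0 c.fix_zero
    refine ⟨by exact_mod_cast h1, inj h _ _ fun z hz => ?_⟩
    have := e z hz
    unfold CD.val at this
    linarith

lemma ratio (h : S_cd c) (α β : Φ) (q : ℚ) (hq : 1 < q)
    (e : ∀ z, c.Fix z → c.al β z = q * c.al α z) : q = 2 := by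
  have h1 := e _ (S_fix h β)
  obtain ⟨n, hn⟩ := S_int h β α
  rw [hn] at h1
  have h2 := T_pos h β
  have h3 : c.al β (S c β) ≤ 2 := by
    rcases T_cases h β with e | ⟨e, _⟩ <;> rw [e] <;> norm_num
  have h4 : (0 : ℚ) < n := by
    by_contra hn0
    have := mul_nonpos_of_nonneg_of_nonpos (by linarith : (0 : ℚ) ≤ q) (not_lt.1 hn0)
    linarith
  have h5 : (n : ℚ) < 2 := by nlinarith
  have h6 : 0 < n := by exact_mod_cast h4
  have h7 : n < 2 := by exact_mod_cast h5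
  obtain rfl : n = 1 := by omega
  rcases T_cases h β with e | ⟨e, _⟩ <;> rw [e] at h1 <;> push_cast at h1 <;> linarith

lemma rf_val (h : S_cd c) (b : Φ × ℤ) (z : L) : c.val b (c.rf b z) = -c.val b z := by
  have h1 := (nu_pos h b.1).ne'
  have h2 : c.val b (c.rf b z) = c.val b z - c.val b z * 2 / c.nu b.1 * c.nu b.1 := by
    conv_lhs => rw [CD.val, CD.rf, map_sub, map_smul, smul_eq_mul]
    unfold CD.val CD.nu
    ring
  rw [h2]
  field_simp
  ring

lemma rf_rf (h : S_cd c) (b : Φ × ℤ) (z : L) : c.rf b (c.rf b z) = z := by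
  rw [CD.rf, rf_val h, CD.rf, neg_mul, neg_div, neg_smul, sub_neg_eq_add, sub_add_cancel]

lemma rf_ng (h : S_cd c) (b : Φ × ℤ) (z : L) : c.rf (c.ng b) z = c.rf b z := by
  rw [CD.rf, CD.rf, c.val_ng]
  change z - (-c.val b z * 2 / c.nu (c.neg b.1)) • c.tau (c.neg b.1) = _
  rw [nu_neg h, tau_neg h, neg_mul, neg_div, neg_smul, smul_neg, neg_neg]

omit [Fintype Φ] [Fintype Δ] [DecidableEq Δ] [DecidableEq Φ] in
lemma it_neg (k : ℕ) (x : L) : c.σ^[k] (-x) = -c.σ^[k] x := by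
  induction k with
  | zero => rfl
  | succ k ih => rw [iterate_succ_apply', iterate_succ_apply', ih, map_neg]

lemma al_bar (h : S_cd c) {J : Type} [Fintype J] (lam : J → L) (α : Φ) : c.al α (c.bar lam) =
    ∑ j, ∑ k ∈ Finset.range c.ℓ, c.al ((c.ς ^ k) α) (lam j) := by
  unfold CD.bar
  rw [map_sum]
  exact Finset.sum_congr rfl fun j _ => h.al_avg α (lam j)

end OrbA

open OrbA in
theorem orb (h : S_cd c) : S_orb c where
  per_pos := per_pos h
  per_mul := per_mul h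
  per_neg := per_neg h
  per_cyc := per_cyc h
  kap_cyc := kap_cyc h
  tau_cyc := tau_cyc h
  nu_cyc := nu_cyc h
  tau_neg := tau_neg h
  nu_neg := nu_neg h
  nu_pos := nu_pos h
  kp_pos := kp_pos h
  kp_neg := kp_neg h
  th_neg := th_neg h
  tau_fix := tau_fix h
  κ_tau := κ_tau h
  tau_ext := tau_ext
  th_eq := th_eq h
  kp_tau := kp_tau h
  sum_int := sum_int h
  no_sub := no_sub h
  orb_le := orb_le h
  orb_two := fun α β e e1 => ⟨two_dvd h α β e e1, by rw [← OrbA.symm h α β e, e1],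
    fun γ e' e2 => uniq h α β γ e e1 e' e2⟩
  inj := inj h
  sim_iff := sim_iff h
  ratio := ratio h
  rf_fix := fun b _ hz => hz.sub ((tau_fix h b.1).smul _)
  rf_val := rf_val h
  rf_rf := rf_rf h
  rf_ng := rf_ng h
  rf_wall := fun b x e => by rw [CD.rf, e]; simp
  bar_fix := fun lam hl => Finset.sum_induction _ c.Fix (fun _ _ => CD.Fix.add) c.fix_zero
    fun j _ => h.fix_avg _ (hl j)
  al_bar := al_bar h
  bar_int := fun lam hl α => by
    rw [al_bar h]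
    refine int_sum _ _ fun j _ => int_sum _ _ fun k _ => ?_
    rcases (hl j).2 ((c.ς ^ k) α) with e | e | e
    · exact ⟨0, by simp [e]⟩
    · exact ⟨1, by simp [e]⟩
    · exact ⟨-1, by simp [e]⟩
  bar_neg := fun lam => by
    simp only [CD.bar, Pi.neg_apply, it_neg, Finset.sum_neg_distrib]

end Pool.Agent.P.MP_e7d440_ag.U
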