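import Pool.Agent.P.MP_e7d440_ag.U.Iface2

/-! Lifts of affine reflections and elements normalizing the torus. -/

namespace Pool.Agent.P.MP_e7d440_ag.U

open TensorProduct LieAlgebra LaurentPolynomial Set

variable {L Φ Δ : Type} [LieRing L] [LieAlgebra ℚ L] [Fintype Φ] [Fintype Δ] [DecidableEq Φ]
  [DecidableEq Δ] (c : CD L Φ Δ) {K : Type} [Field K] [CharZero K] (ζ : K)

namespace PsiA

set_option linter.unusedSectionVars false

variable {c ζ}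

lemma c0_smul (q : ℚ) (x : L) : c0 (LP K) (q • x) = (q : K) • c0 (LP K) x := by
  rw [Rat.cast_smul_eq_qsmul, c0, tmul_smul]

lemma c0_sub (x y : L) : c0 (LP K) (x - y) = c0 (LP K) x - c0 (LP K) y := tmul_sub _ _ _

lemma c0_rf (b : Φ × ℤ) (z : L) : c0 (LP K) (c.rf b z) =
    c0 (LP K) z - ((c.val b z : K) * (2 / (c.nu b.1 : K))) • c0 (LP K) (c.tau b.1) := by
  rw [CD.rf, c0_sub, c0_smul]
  push_cast
  rw [mul_div_assoc]

lemma th_cast (α : Φ) : (c.th α : K) = (c.kp α : K) * (c.nu α : K) / 2 := by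
  rw [CD.th]; push_cast; rfl

lemma F_ng (h : T2a c ζ) (b : Φ × ℤ) : c.F ζ (c.ng b) = c.E ζ b := by
  rw [CD.F, h.rt1.ng_ng]

lemma exF_h (h : T2a c ζ) (b : Φ × ℤ) (s : K) (x : L) (hx : c.Fix x) :
    ex (s • c.F ζ b) (c0 (LP K) x) = c0 (LP K) x + (s * (c.al b.1 x : K)) • c.F ζ b := by
  have := h.rt1.exE_h (c.ng b) s x hx
  rw [CD.F, this, CD.ng, c.al_neg]
  simp

lemma exF_F (h : T2a c ζ) (b : Φ × ℤ) (s : K) : ex (s • c.F ζ b) (c.F ζ b) = c.F ζ b :=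
  h.rt1.exE_E (c.ng b) s

lemma exF_E (h : T2a c ζ) (b : Φ × ℤ) (s : K) (hb : c.Valid ζ b) :
    ex (s • c.F ζ b) (c.E ζ b) = c.E ζ b - (s * (c.kp b.1 : K)) • c0 (LP K) (c.tau b.1) -
      (s ^ 2 * (c.th b.1 : K)) • c.F ζ b := by
  have := h.rt1.exE_F (c.ng b) s (h.rt1.valid_ng b hb)
  rw [F_ng h] at this
  change ex (s • c.F ζ b) (c.E ζ b) = c.E ζ b + (s * (c.kp (c.neg b.1) : K)) •
    c0 (LP K) (c.tau (c.neg b.1)) - (s ^ 2 * (c.th (c.neg b.1) : K)) • c.F ζ b at this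
  rw [this, h.orb.kp_neg, h.orb.th_neg, h.orb.tau_neg, c0, tmul_neg, smul_neg, ← sub_eq_add_neg]

lemma la (hl : S_la c ζ) (b : Φ × ℤ) (t : K) : c.LA ζ (c.psi ζ b t) :=
  hl.mul _ _ (hl.mul _ _ (hl.exE b t) (hl.exE (c.ng b) _)) (hl.exE b t)

lemma BE (h : T2a c ζ) (b : Φ × ℤ) (t : K) (hb : c.Valid ζ b) (ht : t ≠ 0) :
    ex (-((c.th b.1 : K) * t)⁻¹ • c.F ζ b) (t • c.E ζ b) = t • c.E ζ b +
      (2 / (c.nu b.1 : K)) • c0 (LP K) (c.tau b.1) + -((c.th b.1 : K) * t)⁻¹ • c.F ζ b := by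
  obtain ⟨h1, _, h3, h4⟩ := h.rt1.th_ne b.1
  rw [h.lp.op_smul, exF_E h b _ hb, smul_sub, smul_sub, smul_smul, smul_smul, sub_eq_add_neg,
    sub_eq_add_neg, ← neg_smul, ← neg_smul]
  congr 2
  · congr 1
    rw [th_cast]
    field_simp
  · field_simp

lemma hh (h : T2a c ζ) (b : Φ × ℤ) (t : K) (hb : c.Valid ζ b) (ht : t ≠ 0) (x : L)
    (hx : c.Fix x) : c.psi ζ b t (c0 _ x) = c0 _ (c.rf (b.1, 0) x) := by
  obtain ⟨h1, _, h3, h4⟩ := h.rt1.th_ne b.1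
  have hv : ∀ y, c.val (b.1, 0) y = c.al b.1 y := fun y => by simp [CD.val]
  have e1 : ex (-((c.th b.1 : K) * t)⁻¹ • c.F ζ b) (ex (t • c.E ζ b) (c0 (LP K) x)) =
      c0 _ (c.rf (b.1, 0) x) - (t * (c.al b.1 x : K)) • c.E ζ b := by
    rw [h.rt1.exE_h b t x hx, map_sub, exF_h h b _ x hx, mul_comm t, mul_smul (c.al b.1 x : K),
      h.lp.op_smul, BE h b t hb ht, c0_rf, hv]
    module
  have e2 : c.al b.1 (c.rf (b.1, 0) x) = -c.al b.1 x := by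
    rw [← hv, ← hv, h.orb.rf_val]
  rw [CD.psi, Module.End.mul_apply, Module.End.mul_apply, e1, map_sub,
    h.rt1.exE_h b t _ (h.orb.rf_fix _ x hx), h.lp.op_smul, h.rt1.exE_E, e2]
  push_cast
  module

lemma inv0 (h : T2a c ζ) (b : Φ × ℤ) (t : K) : c.psi ζ b t * c.psi ζ b (-t) = 1 := by
  have e1 := (h.rt1.exE_inv b t).1
  have e2 := (h.rt1.exE_inv (c.ng b) (-((c.th b.1 : K) * t)⁻¹)).1
  rw [CD.psi, CD.psi, mul_neg, inv_neg, CD.F]
  calc _ = ex (t • c.E ζ b) * (ex (-((c.th b.1 : K) * t)⁻¹ • c.E ζ (c.ng b)) *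
        (ex (t • c.E ζ b) * ex (-t • c.E ζ b)) *
        ex (- -((c.th b.1 : K) * t)⁻¹ • c.E ζ (c.ng b))) * ex (-t • c.E ζ b) := by
        simp only [mul_assoc]
    _ = 1 := by rw [e1, mul_one, e2, mul_one, e1]

lemma inv (h : T2a c ζ) (b : Φ × ℤ) (t : K) :
    c.psi ζ b t * c.psi ζ b (-t) = 1 ∧ c.psi ζ b (-t) * c.psi ζ b t = 1 :=
  ⟨inv0 h b t, by simpa using inv0 h b (-t)⟩

lemma exF (h : T2a c ζ) (b : Φ × ℤ) (t : K) : ex (-((c.th b.1 : K) * t)⁻¹ • c.F ζ b) =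
    ex (-t • c.E ζ b) * c.psi ζ b t * ex (-t • c.E ζ b) := by
  obtain ⟨e1, e2⟩ := h.rt1.exE_inv b t
  rw [CD.psi, ← mul_assoc, ← mul_assoc, e2, one_mul, mul_assoc, e1, mul_one]

lemma exE (h : T2a c ζ) (b : Φ × ℤ) (t : K) : ex (-((c.th b.1 : K) * t)⁻¹ • c.E ζ b) =
    ex (-t • c.F ζ b) * c.psi ζ (c.ng b) t * ex (-t • c.F ζ b) := by
  have := exF h (c.ng b) t
  rw [F_ng h] at this
  rw [← h.orb.th_neg]
  exact this

lemma int (h : T2a c ζ) (hl : S_la c ζ) (S : Subring K) (M : Set K) (b : Φ × ℤ) (t : K)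
    (hS : c.SD ζ S) (hM : SM S M) (ht : t ∈ S) (ht' : t⁻¹ ∈ S) : c.IntB ζ M (c.psi ζ b t) := by
  have h1 : -((c.th b.1 : K) * t)⁻¹ ∈ S := by
    rw [mul_inv]
    exact S.neg_mem (S.mul_mem (h.rt1.sd_th S hS b.1).2 ht')
  exact (hl.int_mul M _ _ fun f hf => ((hl.exE b t).eqv f).2 hf).1
    ((hl.int_mul M _ _ fun f hf => ((hl.exE (c.ng b) _).eqv f).2 hf).1
      (hl.int_exE S M b t hS hM ht) (hl.int_exE S M (c.ng b) _ hS hM h1))
    (hl.int_exE S M b t hS hM ht)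

/-- the grading operator -/
noncomputable def D (z : L) : LG L K →+ LG L K :=
  (dd : LG L K →ₗ[K] LG L K).toAddMonoidHom + (ad (LP K) (LG L K) (c0 (LP K) z)).toAddMonoidHom

lemma D_apply (z : L) (f : LG L K) : D z f = dd f + ⁅c0 (LP K) z, f⁆ := rfl

lemma D_ex (h : T2a c ζ) (a : Φ × ℤ) (t : K) (z : L) (hz : c.Fix z) (y : LG L K) :
    D z (ex (t • c.E ζ a) y) =
      ex (t • c.E ζ a) (D z y) + (c.val a z : K) • ⁅t • c.E ζ a, ex (t • c.E ζ a) y⁆ := by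
  have e : D z (t • c.E ζ a) = (c.val a z : K) • (t • c.E ζ a) :=
    (h.sup.eig z hz.1 _ _).1 (Submodule.smul_mem _ _ (h.rt1.sup a z hz))
  rw [h.ex.logd (D z) (t • c.E ζ a) (fun y w => by
    simp only [D_apply, h.lp.dd_lie, add_lie, lie_add, leibniz_lie (c0 (LP K) z)]
    abel) (h.rt1.nil a t) (by rw [e, (h.lp.lie_smul _ _ _).1, lie_self, smul_zero]), e,
    (h.lp.lie_smul _ _ _).1]

lemma D_psi (h : T2a c ζ) (b : Φ × ℤ) (t : K) (hb : c.Valid ζ b) (ht : t ≠ 0) (z : L)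
    (hz : c.Fix z) (y : LG L K) : D (c.rf b z) (c.psi ζ b t y) = c.psi ζ b t (D z y) := by
  obtain ⟨h1, _, h3, h4⟩ := h.rt1.th_ne b.1
  have lA := (h.ex.a0 _ (h.rt1.nil b t)).lie
  have lB := (h.ex.a0 _ (h.rt1.nil (c.ng b) (-((c.th b.1 : K) * t)⁻¹))).lie
  have dA := D_ex h b t z hz
  have dB := D_ex h (c.ng b) (-((c.th b.1 : K) * t)⁻¹) z hz
  have be := BE h b t hb ht
  have ae : ex (t • c.E ζ b) (t • c.E ζ b) = t • c.E ζ b := by rw [h.lp.op_smul, h.rt1.exE_E]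
  have at' : ex (t • c.E ζ b) ((2 / (c.nu b.1 : K)) • c0 (LP K) (c.tau b.1)) =
      (2 / (c.nu b.1 : K)) • c0 (LP K) (c.tau b.1) - t • c.E ζ b - t • c.E ζ b := by
    rw [h.lp.op_smul, h.rt1.exE_h b t _ (h.orb.tau_fix _), smul_sub, smul_smul, sub_sub,
      ← add_smul]
    congr 2
    change 2 / (c.nu b.1 : K) * (t * (c.nu b.1 : K)) = _
    field_simp
    norm_num
  have e0 : ∀ w : LG L K, D (c.rf b z) w =
      D z w - (c.val b z : K) • ⁅(2 / (c.nu b.1 : K)) • c0 (LP K) (c.tau b.1), w⁆ := fun w => by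
    rw [D_apply, D_apply, c0_rf, sub_lie, mul_smul, (h.lp.lie_smul (c.val b z : K) _ _).1,
      add_sub_assoc]
  rw [c.val_ng] at dB
  rw [CD.F] at be
  rw [e0, CD.psi, CD.F]
  simp only [Module.End.mul_apply]
  generalize ex (t • c.E ζ b) = A at *
  generalize ex (-((c.th b.1 : K) * t)⁻¹ • c.E ζ (c.ng b)) = B at *
  rw [dA, dB, dA, map_add, map_add, map_add, h.lp.op_smul, h.lp.op_smul, h.lp.op_smul, lB, lA, lA,
    be, map_add, map_add, ae, at']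
  simp only [add_lie, sub_lie]
  push_cast
  module

lemma psi_sup (h : T2a c ζ) (b : Φ × ℤ) (t : K) (hb : c.Valid ζ b) (ht : t ≠ 0) (z : L)
    (hz : c.Fix z) (P : Set ℚ) (y : LG L K) (hy : y ∈ c.Sup z P) :
    c.psi ζ b t y ∈ c.Sup (c.rf b z) P := by
  refine h.sup.ind (c.wt z) (fun f => c.psi ζ b t f ∈ c.Sup (c.rf b z) P) (by simp)
    (fun f g hf hg => by rw [map_add]; exact add_mem hf hg) y fun a ha => ?_
  refine c.Sup_mono (singleton_subset_iff.2 (hy a ha)) ?_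
  have h1 := (h.sup.eig z hz.1 _ _).1 (h.sup.pr_wt z {c.wt z a} y).1
  refine (h.sup.eig _ (h.orb.rf_fix b z hz).1 _ _).2 ?_
  rw [← D_apply, D_psi h b t hb ht z hz, ← h.lp.op_smul]
  exact congrArg _ h1

lemma pmono (h : T2a c ζ) (b : Φ × ℤ) (t : K) (hb : c.Valid ζ b) (ht : t ≠ 0) :
    c.Mono ζ (c.psi ζ b t) (c.rf b) where
  fix := h.orb.rf_fix b
  surj := fun z hz => ⟨c.rf b z, h.orb.rf_fix b z hz, h.orb.rf_rf b z⟩
  sup := fun z hz P f _ => ⟨fun hf => by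
    have := psi_sup h b (-t) hb (neg_ne_zero.2 ht) _ (h.orb.rf_fix b z hz) P _ hf
    rwa [h.orb.rf_rf, ← Module.End.mul_apply, (inv h b t).2, Module.End.one_apply] at this,
    psi_sup h b t hb ht z hz P f⟩

lemma tor (h : T2a c ζ) (hl : S_la c ζ) (b b' : Φ × ℤ) (t t' : K) (hb : c.Valid ζ b)
    (e : b' = b ∨ b' = c.ng b) (ht : t ≠ 0) (ht' : t' ≠ 0) (z : L) (hz : c.Fix z) :
    c.Aut0 ζ 1 (c.psi ζ b t * c.psi ζ b' t') z := by
  have hb' : c.Valid ζ b' := by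
    rcases e with rfl | rfl
    · exact hb
    · exact h.rt1.valid_ng b hb
  refine hl.aut_of _ (hl.mul _ _ (la hl b t) (la hl b' t')) (hl.mono_congr _ _ _
    (hl.mono_mul _ _ _ _ (la hl b' t') (pmono h b t hb ht) (pmono h b' t' hb' ht'))
    fun y _ => ?_) (fun x hx => ?_) z hz
  · rcases e with rfl | rfl
    · exact (h.orb.rf_rf _ y).symm
    · rw [Function.comp_apply, h.orb.rf_ng, h.orb.rf_rf]; rfl
  · rw [Module.End.mul_apply, hh h b' t' hb' ht' x hx, hh h b t hb ht _ (h.orb.rf_fix _ x hx)]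
    rcases e with rfl | rfl
    · rw [h.orb.rf_rf]
    · have : ((c.ng b).1, (0 : ℤ)) = c.ng (b.1, 0) := rfl
      rw [this, h.orb.rf_ng, h.orb.rf_rf]

lemma find (h : T2a c ζ) (f : LG L K) (hf : f ∈ c.Eqv ζ) (h0 : f ≠ 0) (u : L → L) (w : L → ℚ)
    (hu : ∀ z, c.Fix z → f ∈ c.Sup (u z) {w z})
    (hs : ∀ z, c.Fix z → ∃ z', c.Fix z' ∧ u z' = z)
    (nc : ∃ z z', c.Fix z ∧ c.Fix z' ∧ w z ≠ w z') :
    ∃ (b : Φ × ℤ) (t : K), c.Valid ζ b ∧ t ≠ 0 ∧ f = t • c.E ζ b ∧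
      ∀ z, c.Fix z → c.val b (u z) = w z := by
  obtain ⟨⟨m, i⟩, ha⟩ : ∃ a, c.co a f ≠ 0 := by
    by_contra hn
    push Not at hn
    exact h0 (c.ext1 fun a => by rw [hn, map_zero])
  have h1 : ∀ z, c.Fix z → c.wt (u z) (m, i) = w z := fun z hz => hu z hz _ ha
  rcases i with β | i
  · have h2 : f = c.cE (β, m) f • c.E ζ (β, m) := h.rt2.of_sup f hf _ fun z hz => by
      obtain ⟨z', hz', rfl⟩ := hs z hz
      rw [← c.wt_inl, h1 z' hz']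
      exact hu z' hz'
    exact ⟨(β, m), _, h.rt2.of_co f hf (β, m) ha, fun e => h0 (by rw [h2, e, zero_smul]), h2, h1⟩
  · obtain ⟨z, z', hz, hz', hne⟩ := nc
    exact absurd (by rw [← h1 z hz, ← h1 z' hz', c.wt_inr, c.wt_inr]) hne

lemma val_ne (b : Φ × ℤ) : c.val b 0 ≠ c.val b c.ρ := fun e =>
  c.ρ_ne b.1 (by simpa [CD.val] using e.symm)

lemma root0 (h : T2a c ζ) (hl : S_la c ζ) (n : Op L K) (v : L → L) (b : Φ × ℤ) (hn : c.LA ζ n)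
    (hm : c.Mono ζ n v) (hb : c.Valid ζ b) : ∃ (b' : Φ × ℤ) (t : K), c.Valid ζ b' ∧ t ≠ 0 ∧
      n (c.E ζ b) = t • c.E ζ b' ∧ ∀ z, c.Fix z → c.val b' (v z) = c.val b z := by
  obtain ⟨n', _, _, e⟩ := hl.ex_inv n hn
  refine find h _ ((hn.eqv _).2 (h.rt1.eqv b)) (fun e0 => (h.rt1.ne b).1 hb ?_) v _
    (fun z hz => (hm.sup z hz _ _ (h.rt1.eqv b)).2 (h.rt1.sup b z hz)) hm.surj
    ⟨0, c.ρ, c.fix_zero, c.fix_ρ, val_ne b⟩
  have : n' (n (c.E ζ b)) = c.E ζ b := LinearMap.congr_fun e _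
  rw [← this, e0, map_zero]

lemma root' (h : T2a c ζ) (hl : S_la c ζ) (n : Op L K) (v : L → L) (b' : Φ × ℤ) (hn : c.LA ζ n)
    (hm : c.Mono ζ n v) (hb : c.Valid ζ b') :
    ∃ b, c.Valid ζ b ∧ ∀ z, c.Fix z → c.val b' (v z) = c.val b z := by
  obtain ⟨n', hn', e, _⟩ := hl.ex_inv n hn
  have e1 : n (n' (c.E ζ b')) = c.E ζ b' := LinearMap.congr_fun e _
  have hf := (hn'.eqv _).2 (h.rt1.eqv b')
  obtain ⟨z₀, hz₀, e₀⟩ := hm.surj 0 c.fix_zero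
  obtain ⟨z₁, hz₁, e₁⟩ := hm.surj c.ρ c.fix_ρ
  obtain ⟨b, _, hb, _, _, h2⟩ := find h _ hf
    (fun e0 => (h.rt1.ne b').1 hb (by rw [← e1, e0, map_zero])) id (fun z => c.val b' (v z))
    (fun z hz => (hm.sup z hz _ _ hf).1 (by rw [e1]; exact h.rt1.sup b' _ (hm.fix z hz)))
    (fun z hz => ⟨z, hz, rfl⟩) ⟨z₀, z₁, hz₀, hz₁, by rw [e₀, e₁]; exact val_ne b'⟩
  exact ⟨b, hb, fun z hz => (h2 z hz).symm⟩

lemma sim_of (h : T2a c ζ) {n : Op L K} {v : L → L} (hm : c.Mono ζ n v) {a a' : Φ × ℤ}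
    (e : ∀ z, c.Fix z → c.val a (v z) = c.val a' (v z)) : c.Sim a a' :=
  (h.orb.sim_iff a a').2 fun z hz => by
    obtain ⟨z', hz', rfl⟩ := hm.surj z hz
    exact e z' hz'

lemma mem_of (h : T2a c ζ) (S : Subring K) (hS : c.SD ζ S) (b : Φ × ℤ) (hb : c.Valid ζ b) (t : K)
    (ht : c.In S (t • c.E ζ b)) : t ∈ S := by
  have h1 := ht (CD.ix b)
  rw [map_smul, h.rt1.co b hb, smul_eq_mul] at h1
  have := S.mul_mem h1 (h.rt1.sd_per S hS b.1)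
  rwa [mul_inv_cancel_right₀ (h.rt1.th_ne b.1).2.1] at this

lemma root (h : T2a c ζ) (hl : S_la c ζ) (n : Op L K) (v : L → L) (b : Φ × ℤ) (hn : c.LA ζ n)
    (hm : c.Mono ζ n v) (hb : c.Valid ζ b) : ∃ (b' : Φ × ℤ) (t : K), c.Valid ζ b' ∧
    t ≠ 0 ∧ n (c.E ζ b) = t • c.E ζ b' ∧ (∀ z, c.Fix z → c.val b' (v z) = c.val b z) ∧
    c.nu b'.1 = c.nu b.1 ∧
    ∀ S : Subring K, c.SD ζ S → c.IntB ζ S n → t ∈ S ∧ t⁻¹ ∈ S := by
  obtain ⟨b', t, hb', ht, e1, e2⟩ := root0 h hl n v b hn hm hb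
  refine ⟨b', t, hb', ht, e1, e2, ?_, fun S hS hi => ⟨?_, ?_⟩⟩
  · obtain ⟨b₂, t₂, hb₂, _, e3, e4⟩ := root0 h hl n v _ hn hm (h.rt1.valid_ng b hb)
    obtain ⟨t₃, _, e5⟩ := h.rt2.sim_E (c.ng b') b₂
      (sim_of h hm fun z hz => by rw [e4 z hz, c.val_ng, c.val_ng, e2 z hz]) (h.rt1.valid_ng _ hb')
    have e6 : n (c.F ζ b) = (t₂ * t₃) • c.F ζ b' := by rw [CD.F, e3, e5, smul_smul]; rfl
    have f1 := hn.a0.form (c.E ζ b) (c.F ζ b)
    rw [e1, e6, (h.lp.kR_smul _ _ _).1, (h.lp.kR_smul _ _ _).2, h.rt1.kREF _ hb, h.rt1.kREF _ hb',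
      smul_smul] at f1
    have f2 : t * (t₂ * t₃) * (c.kp b'.1 : K) = c.kp b.1 := by
      have := congrArg (evL (1 : K)) f1
      rwa [map_smul, h.lp.evL_C, h.lp.evL_C, smul_eq_mul] at this
    have f3 := hn.a0.lie (c.E ζ b) (c.F ζ b)
    rw [e1, e6, (h.lp.lie_smul _ _ _).1, (h.lp.lie_smul _ _ _).2, h.rt1.lieEF _ hb,
      h.rt1.lieEF _ hb', smul_smul, smul_smul, f2, h.lp.op_smul] at f3
    have f4 := smul_right_injective _ (h.rt1.th_ne b.1).2.2.1 f3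
    have f5 := hn.a0.form (c0 _ (c.tau b.1)) (c0 _ (c.tau b.1))
    rw [f4, c.kR_tmul, c.kR_tmul, h.orb.κ_tau _ _ (h.orb.tau_fix _),
      h.orb.κ_tau _ _ (h.orb.tau_fix _), one_mul] at f5
    exact smul_left_injective ℚ one_ne_zero f5
  · refine mem_of h S hS b' hb' t ?_
    rw [← e1]
    exact (hi _ (h.rt1.eqv b)).2 (h.rt1.int S hS b)
  · refine mem_of h S hS b hb _ ((hi _ (Submodule.smul_mem _ _ (h.rt1.eqv b))).1 ?_)
    rw [h.lp.op_smul, e1, smul_smul, inv_mul_cancel₀ ht, one_smul]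
    exact h.rt1.int S hS b'

lemma reg (h : T2a c ζ) (hl : S_la c ζ) (n : Op L K) (v : L → L) (z : L) (hn : c.LA ζ n)
    (hm : c.Mono ζ n v) (hz : c.Reg ζ z) : c.Reg ζ (v z) :=
  ⟨hm.fix z hz.1, fun a ha => by
    obtain ⟨b, hb, e⟩ := root' h hl n v a hn hm ha
    rw [e z hz.1]
    exact hz.2 b hb⟩

lemma cl (h : T2a c ζ) (hl : S_la c ζ) (n : Op L K) (v : L → L) (z x : L) (hn : c.LA ζ n)
    (hm : c.Mono ζ n v) (hz : c.Fix z) (hx : c.Cl ζ z x) : c.Cl ζ (v z) (v x) :=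
  ⟨hm.fix x hx.1, fun a ha => by
    obtain ⟨b, hb, e⟩ := root' h hl n v a hn hm ha
    rw [e z hz, e x hx.1]
    exact hx.2 b hb⟩

lemma same (h : T2a c ζ) (hl : S_la c ζ) (n : Op L K) (v : L → L) (z z' : L) (hn : c.LA ζ n)
    (hm : c.Mono ζ n v) (hz : c.Fix z) (hz' : c.Fix z') (hs : c.Same ζ z z') :
    c.Same ζ (v z) (v z') := fun a ha => by
  obtain ⟨b, hb, e⟩ := root' h hl n v a hn hm ha
  rw [e z hz, e z' hz']
  exact hs b hb

lemma gal (h : T2a c ζ) (hl : S_la c ζ) (n : Op L K) (v : L → L) (z' : L) (hn : c.LA ζ n)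
    (hm : c.Mono ζ n v) (hz' : c.Fix z') (k : ℕ) (z : L) (a : Fin k → Φ × ℤ) (hz : c.Fix z)
    (hg : c.Gal ζ z' k z a) :
    ∃ a' : Fin k → Φ × ℤ, c.Gal ζ (v z') k (v z) a' ∧ ∀ i, c.nu (a' i).1 = c.nu (a i).1 := by
  induction k generalizing z with
  | zero => exact ⟨a, same h hl n v z z' hn hm hz hz' hg, fun _ => rfl⟩
  | succ k ih =>
    obtain ⟨z₁, hadj, hneg, hg'⟩ := hg
    obtain ⟨a'', h1, h2⟩ := ih z₁ (Fin.tail a) hadj.reg₁.1 hg'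
    obtain ⟨b', _, hb', _, _, e, hnu, _⟩ := root h hl n v (a 0) hn hm hadj.valid
    refine ⟨Fin.cons b' a'', ⟨v z₁, ⟨reg h hl n v z hn hm hadj.reg, reg h hl n v z₁ hn hm hadj.reg₁,
      hb', ?_, ?_, fun a₁ ha₁ hns hp => ?_⟩, ?_, h1⟩, fun i => Fin.cases hnu h2 i⟩
    · exact (e z hz).symm ▸ hadj.pos
    · exact (e z₁ hadj.reg₁.1).symm ▸ hadj.neg
    · obtain ⟨a₀, ha₀, e'⟩ := root' h hl n v a₁ hn hm ha₁
      rw [e' z hz] at hp
      rw [e' z₁ hadj.reg₁.1]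
      refine hadj.oth a₀ ha₀ (fun hs => hns (sim_of h hm fun y hy => ?_)) hp
      rw [e' y hy, (h.orb.sim_iff _ _).1 hs y hy]
      exact (e y hy).symm
    · exact (e z' hz').symm ▸ hneg

lemma conj (h : T2a c ζ) (hl : S_la c ζ) (n n' : Op L K) (v : L → L) (ψ : LP K) (g : Op L K)
    (z : L) (hn : c.LA ζ n) (hm : c.Mono ζ n v) (e : n * n' = 1) (hz : c.Fix z)
    (hg : c.Aut0 ζ ψ g z) : c.Aut0 ζ ψ (n * g * n') (v z) := by
  obtain ⟨hn', _⟩ := hl.inv n n' hn e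
  have e1 : ∀ f, n (n' f) = f := fun f => LinearMap.congr_fun e f
  refine ⟨fun f f' => ?_, fun f hf => (hn.eqv _).2 (hg.eqv _ ((hn'.eqv _).2 hf)), hg.pos, hg.ne,
    fun x hx => ?_, fun r f hf => ?_⟩
  · simp only [Module.End.mul_apply]
    rw [← hn.a0.lie, hg.lie, map_smul, hn'.a0.lie]
  · have hw := (hn'.eqv _).2 (h.eqv.c0 x hx.2)
    have h1 : ∀ y, c.Fix y → n' (c0 _ x) ∈ c.Sup y {0} := fun y hy =>
      (hm.sup y hy _ _ hw).1 (by rw [e1]; exact h.sup.c0 _ x hx.1)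
    have h2 := h.rt2.hz _ hw fun a ha => by
      obtain ⟨m, β | i⟩ := a
      · exact absurd (h1 c.ρ c.fix_ρ _ ha) (h.cd.ρ_int β m)
      · have := h1 0 c.fix_zero _ ha
        rw [c.wt_inr, mem_singleton_iff, Int.cast_eq_zero] at this
        exact ⟨this, i, rfl⟩
    have h3 : ∀ w ∈ Submodule.span K {g | ∃ h, c.Fix h ∧ g = c0 (LP K) h},
        g w - ψ.coeff 0 • w ∈ c.Sup z (Ioi 0) := fun w hw => by
      induction hw using Submodule.span_induction with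
      | mem w hw =>
        obtain ⟨y, hy, rfl⟩ := hw
        exact hg.hh y hy
      | zero => simp
      | add w w' _ _ a a' =>
        have := add_mem a a'
        rw [map_add, smul_add]
        convert this using 1
        abel
      | smul t w _ a =>
        have := Submodule.smul_mem _ t a
        rwa [smul_sub, smul_comm t, ← h.lp.op_smul] at this
    have h4 := (hm.sup z hz _ _ (sub_mem (hg.eqv _ hw) (Submodule.smul_mem _ _ hw))).2 (h3 _ h2)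
    rwa [map_sub, h.lp.op_smul, e1] at h4
  · have hw := (hn'.eqv _).2 hf
    simp only [Module.End.mul_apply]
    rw [hm.sup z hz _ _ (hg.eqv _ hw), hg.fil r _ hw, ← hm.sup z hz _ _ hw, e1]

end PsiA

theorem psi (h : T2a c ζ) (hl : S_la c ζ) : S_psi c ζ where
  la := PsiA.la hl
  mono := PsiA.pmono h
  hh := PsiA.hh h
  inv := PsiA.inv h
  tor := PsiA.tor h hl
  int := PsiA.int h hl
  exF := PsiA.exF h
  exE := PsiA.exE h

theorem mono (h : T2a c ζ) (hl : S_la c ζ) : S_mono c ζ where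
  root := PsiA.root h hl
  root' := PsiA.root' h hl
  reg := PsiA.reg h hl
  cl := PsiA.cl h hl
  same := PsiA.same h hl
  gal := PsiA.gal h hl
  conj := PsiA.conj h hl

end Pool.Agent.P.MP_e7d440_ag.U
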