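import Pool.Agent.P.MP_e7d440_ag.U.IfaceC
import Pool.Agent.P.MP_e7d440_ag.Val

/-! Linear algebra over valuation rings and dominated local rings. -/

namespace Pool.Agent.P.MP_e7d440_ag.U

open IsLocalRing MvPolynomial

namespace ResdA

lemma pick {F ι κ : Type} [Field F] [Fintype ι] [DecidableEq ι] (w : κ → ι → F)
    (h : Submodule.span F (Set.range w) = ⊤) :
    ∃ p : ι → κ, (Matrix.of fun b a => w (p b) a).det ≠ 0 := by
  obtain ⟨κ', a, -, h1, h2⟩ := exists_linearIndependent' F w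
  let e := (Module.Basis.mk h2 (by rw [h1, h])).indexEquiv (Pi.basisFun F ι)
  refine ⟨a ∘ e.symm, ?_⟩
  have h3 : LinearIndependent F (Matrix.of fun b c => w ((a ∘ e.symm) b) c).row :=
    h2.comp e.symm e.symm.injective
  exact ((Matrix.isUnit_iff_isUnit_det _).1 (Matrix.linearIndependent_rows_iff_isUnit.1 h3)).ne_zero

theorem resd {K ι κ : Type} [Field K] [Fintype ι] [DecidableEq ι] (V : ValuationSubring K)
    (S : Subring K) (w : κ → ι → K) (hd : Dom S V) (hw : ∀ k a, w k a ∈ S)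
    (h : ∀ b, ∃ (t : Finset κ) (q : κ → K), (∀ k, q k ∈ V) ∧
      ∀ a, ∑ k ∈ t, q k * w k a - (if a = b then 1 else 0) ∈ V.nonunits) (b : ι) :
    ∃ (t : Finset κ) (q : κ → K), (∀ k, q k ∈ S) ∧
      ∀ a, ∑ k ∈ t, q k * w k a = if a = b then 1 else 0 := by
  classical
  let ρ : S →+* V := S.subtype.codRestrict V fun x => hd.le _ x.2
  let w' : κ → ι → S := fun k a => ⟨w k a, hw k a⟩
  obtain ⟨p, hp⟩ := pick (fun k a => residue V (ρ (w' k a))) (by
    rw [eq_top_iff, ← (Pi.basisFun (ResidueField V) ι).span_eq, Submodule.span_le]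
    rintro _ ⟨b, rfl⟩
    obtain ⟨t, q, hq, e⟩ := h b
    have : Pi.basisFun (ResidueField V) ι b =
        ∑ k ∈ t, residue V ⟨q k, hq k⟩ • fun a => residue V (ρ (w' k a)) := by
      funext a
      have e1 : (∑ k ∈ t, ⟨q k, hq k⟩ * ρ (w' k a) - (if a = b then 1 else 0) : V) ∈
          maximalIdeal V := by
        rw [← V.coe_mem_nonunits_iff]
        have := e a
        split_ifs at this ⊢ <;> simpa [ρ, w'] using this
      rw [← residue_eq_zero_iff, map_sub, sub_eq_zero, map_sum] at e1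
      simp only [map_mul] at e1
      simp only [Finset.sum_apply, Pi.smul_apply, smul_eq_mul, e1, Pi.basisFun_apply,
        Pi.single_apply]
      split_ifs <;> simp
    rw [this]
    exact Submodule.sum_mem _ fun k _ =>
      Submodule.smul_mem _ _ (Submodule.subset_span ⟨k, rfl⟩))
  let M : Matrix ι ι S := Matrix.of fun b a => w' (p b) a
  have h1 : ((M.det : S) : K) ∉ V.nonunits := by
    intro hn
    apply hp
    have : ρ M.det ∈ maximalIdeal V := V.coe_mem_nonunits_iff.1 hn
    rw [← residue_eq_zero_iff, ← RingHom.comp_apply, RingHom.map_det] at this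
    exact this
  have h2 := hd.inv _ M.det.2 h1
  have h3 : ((M.det : S) : K) ≠ 0 := fun h0 => h1 (h0 ▸ V.nonunits.zero_mem)
  refine ⟨Finset.univ.image p, fun k => ∑ c ∈ Finset.univ.filter (fun c => p c = k),
    ((M.det : S) : K)⁻¹ * (M.adjugate b c : S), fun k =>
      S.sum_mem fun c _ => S.mul_mem h2 (M.adjugate b c).2, fun a => ?_⟩
  have h4 : ∑ c, ((M.adjugate b c : S) : K) * w (p c) a =
      (M.det : S) * if a = b then 1 else 0 := by
    have := congrArg (fun x : S => (x : K)) (congrFun (congrFun M.adjugate_mul b) a)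
    simp only [Matrix.mul_apply, Matrix.smul_apply, Matrix.one_apply, smul_eq_mul] at this
    by_cases hab : a = b
    · simpa [hab, M, w'] using this
    · simpa [hab, Ne.symm hab, M, w'] using this
  calc _ = ∑ k ∈ Finset.univ.image p, ∑ c ∈ Finset.univ.filter (fun c => p c = k),
        ((M.det : S) : K)⁻¹ * ((M.adjugate b c : S) * w (p c) a) := by
        refine Finset.sum_congr rfl fun k _ => ?_
        rw [Finset.sum_mul]
        refine Finset.sum_congr rfl fun c hc => ?_
        rw [(Finset.mem_filter.1 hc).2, mul_assoc]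
    _ = _ := by
        rw [Finset.sum_fiberwise_of_maps_to fun c hc => Finset.mem_image_of_mem p hc,
          ← Finset.mul_sum, h4, inv_mul_cancel_left₀ h3]

lemma piv0 {K ι : Type} [Field K] [Fintype ι] [DecidableEq ι] (V : ValuationSubring K) (d : ℕ) :
    ∀ N : Submodule K (ι → K), Module.finrank K N = d →
      ∃ (C : Finset ι) (n : ι → ι → K), (∀ b ∈ C, n b ∈ N) ∧
        (∀ b a, n b a ∈ V) ∧ (∀ b ∈ C, ∀ a ∈ C, n b a = if a = b then 1 else 0) ∧
        ∀ u ∈ N, u = ∑ b ∈ C, u b • n b := by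
  induction d using Nat.strong_induction_on with
  | _ d ih =>
  intro N hN
  by_cases h0 : N = ⊥
  · refine ⟨∅, fun _ _ => 0, by simp, fun _ _ => V.zero_mem, by simp, fun u hu => ?_⟩
    rw [h0] at hu
    simpa using hu
  obtain ⟨u₀, hu₀, hne⟩ := (Submodule.ne_bot_iff N).1 h0
  obtain ⟨a₀, ha₀⟩ := Function.ne_iff.1 hne
  obtain ⟨b, -, hb⟩ := Finset.exists_max_image Finset.univ (fun a => V.valuation (u₀ a))
    ⟨a₀, Finset.mem_univ _⟩
  have hb0 : u₀ b ≠ 0 := by
    intro h
    have := hb a₀ (Finset.mem_univ _)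
    rw [h, map_zero, le_zero_iff, map_eq_zero] at this
    exact ha₀ this
  let u : ι → K := (u₀ b)⁻¹ • u₀
  have hu : u ∈ N := N.smul_mem _ hu₀
  have hub : u b = 1 := inv_mul_cancel₀ hb0
  have huV : ∀ a, u a ∈ V := fun a => by
    rw [← V.valuation_le_one_iff]
    change V.valuation ((u₀ b)⁻¹ * u₀ a) ≤ 1
    rw [map_mul, map_inv₀, inv_mul_le_one₀ (zero_lt_iff.2 (by simpa using hb0))]
    exact hb a (Finset.mem_univ _)
  let N' : Submodule K (ι → K) := N ⊓ LinearMap.ker (LinearMap.proj b)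
  have hN' : ∀ v, v ∈ N' ↔ v ∈ N ∧ v b = 0 := fun v => Iff.rfl
  have hlt : N' < N := lt_of_le_of_ne inf_le_left fun h => by
    have : u ∈ N' := h ▸ hu
    exact one_ne_zero (hub.symm.trans ((hN' u).1 this).2)
  obtain ⟨C, n, c1, c2, c3, c4⟩ := ih _ (hN ▸ Submodule.finrank_lt_finrank_of_lt hlt) N' rfl
  have hbC : b ∉ C := fun h => by
    have := c3 b h b h
    rw [((hN' _).1 (c1 b h)).2, if_pos rfl] at this
    exact zero_ne_one this
  have hne' : ∀ c ∈ C, c ≠ b := fun c hc h => hbC (h ▸ hc)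
  refine ⟨insert b C, Function.update n b (u - ∑ c ∈ C, u c • n c), ?_, ?_, ?_, ?_⟩
  · intro c hc
    rcases Finset.mem_insert.1 hc with rfl | hc
    · rw [Function.update_self]
      exact N.sub_mem hu (N.sum_mem fun c hc => N.smul_mem _ ((hN' _).1 (c1 c hc)).1)
    · rw [Function.update_of_ne (hne' c hc)]
      exact ((hN' _).1 (c1 c hc)).1
  · intro c a
    by_cases h : c = b
    · subst h
      rw [Function.update_self, Pi.sub_apply, Finset.sum_apply]
      exact sub_mem (huV a) (sum_mem fun c _ => mul_mem (huV c) (c2 c a))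
    · rw [Function.update_of_ne h]; exact c2 c a
  · intro c hc0 a ha
    rcases Finset.mem_insert.1 hc0 with rfl | hc
    · rw [Function.update_self, Pi.sub_apply, Finset.sum_apply]
      rcases Finset.mem_insert.1 ha with rfl | ha
      · rw [Finset.sum_eq_zero fun c hc => by simp [((hN' _).1 (c1 c hc)).2], hub]
        simp
      · rw [Finset.sum_eq_single a (fun c hc hca => by simp [c3 c hc a ha, Ne.symm hca])
          (fun h => absurd ha h), if_neg (hne' a ha)]
        simp [c3 a ha a ha]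
    · rw [Function.update_of_ne (hne' c hc)]
      have c5 := ((hN' _).1 (c1 c hc)).2
      rcases Finset.mem_insert.1 ha with rfl | ha
      · rw [c5, if_neg (hne' c hc).symm]
      · exact c3 c hc a ha
  · intro v hv
    have h1 := c4 (v - v b • u) ((hN' _).2 ⟨N.sub_mem hv (N.smul_mem _ hu), by simp [hub]⟩)
    have h2 : ∑ c ∈ C, v c • Function.update n b (u - ∑ c ∈ C, u c • n c) c =
        ∑ c ∈ C, v c • n c :=
      Finset.sum_congr rfl fun c hc => by rw [Function.update_of_ne (hne' c hc)]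
    rw [Finset.sum_insert hbC, Function.update_self, h2]
    simp only [Pi.sub_apply, Pi.smul_apply, smul_eq_mul, sub_smul, Finset.sum_sub_distrib,
      mul_smul, ← Finset.smul_sum] at h1
    rw [smul_sub]
    linear_combination (exp := 1) h1

theorem piv {K ι : Type} [Field K] [Fintype ι] [DecidableEq ι] (V : ValuationSubring K)
    (N : Submodule K (ι → K)) : ∃ (C : Finset ι) (n : ι → ι → K), (∀ b ∈ C, n b ∈ N) ∧
      (∀ b a, n b a ∈ V) ∧ (∀ b ∈ C, ∀ a ∈ C, n b a = if a = b then 1 else 0) ∧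
      (∀ u ∈ N, u = ∑ b ∈ C, u b • n b) ∧ C.card = Module.finrank K N := by
  obtain ⟨C, n, c1, c2, c3, c4⟩ := piv0 V _ N rfl
  refine ⟨C, n, c1, c2, c3, c4, ?_⟩
  let f : N →ₗ[K] (C → K) := LinearMap.pi fun c => LinearMap.proj c.1 ∘ₗ N.subtype
  have hf : Function.Bijective f := by
    constructor
    · intro u v h
      refine Subtype.ext ?_
      rw [c4 u u.2, c4 v v.2]
      refine Finset.sum_congr rfl fun c hc => ?_
      have : u.1 c = v.1 c := congrFun h ⟨c, hc⟩
      rw [this]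
    · intro x
      refine ⟨⟨∑ c : C, x c • n c, N.sum_mem fun c _ => N.smul_mem _ (c1 c c.2)⟩, ?_⟩
      funext a
      change (∑ c : C, x c • n c) a = x a
      rw [Finset.sum_apply, Finset.sum_eq_single a (fun c _ hca => by
        simp [c3 c c.2 a a.2, Subtype.coe_ne_coe.2 (Ne.symm hca)]) (by simp)]
      simp [c3 a a.2 a a.2]
  rw [(LinearEquiv.ofBijective f hf).finrank_eq, Module.finrank_fintype_fun_eq_card,
    Fintype.card_coe]

theorem retr {K : Type} [Field K] (K₀ : Subfield K) : ∃ π : K →+ K, (∀ a, π a ∈ K₀) ∧ π 1 = 1 ∧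
    ∀ a ∈ K₀, ∀ b, π (a * b) = a * π b := by
  obtain ⟨g, hg⟩ := (Algebra.linearMap K₀ K).exists_leftInverse_of_injective
    (LinearMap.ker_eq_bot.2 (algebraMap K₀ K).injective)
  refine ⟨K₀.subtype.toAddMonoidHom.comp g.toAddMonoidHom, fun a => (g a).2, ?_, fun a ha b => ?_⟩
  · have := LinearMap.congr_fun hg 1
    simp only [LinearMap.comp_apply, Algebra.linearMap_apply, map_one, LinearMap.id_apply] at this
    simp [this]
  · exact congrArg Subtype.val (g.map_smul ⟨a, ha⟩ b)

theorem tri {K ι : Type} [Field K] [Fintype ι] [DecidableEq ι] (w : ι → ℚ) (M : Matrix ι ι K)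
    (h : ∀ k l, k ≠ l → M k l ≠ 0 → w l < w k) : M.det = ∏ k, M k k := by
  rw [Matrix.det_apply, Finset.sum_eq_single 1 (fun σ _ hσ => ?_) (by simp)]
  · simp
  by_contra hn
  have h1 : ∀ i, M (σ i) i ≠ 0 := fun i h0 =>
    hn (by
      rw [Finset.prod_eq_zero (f := fun i => M (σ i) i) (Finset.mem_univ i) h0, smul_zero])
  obtain ⟨i, hi⟩ : ∃ i, σ i ≠ i := by
    by_contra hc
    push Not at hc
    exact hσ (Equiv.ext hc)
  have h2 : ∑ i, w i < ∑ i, w (σ i) := by
    refine Finset.sum_lt_sum (fun j _ => ?_) ⟨i, Finset.mem_univ _, h _ _ hi (h1 i)⟩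
    by_cases hj : σ j = j
    · rw [hj]
    · exact (h _ _ hj (h1 j)).le
  rw [Equiv.sum_comp σ w] at h2
  exact lt_irrefl _ h2

theorem dom {A K : Type} [CommRing A] [Field K] [Algebra A K] (𝔭 : Ideal A) (hp : 𝔭.IsPrime)
    (hi : Function.Injective (algebraMap A K)) : ∃ (R : Subring K) (V : ValuationSubring K),
      (∀ γ, γ ∈ R ↔ loc (algebraMap A K) 𝔭 γ) ∧ Dom R V := by
  obtain ⟨V, v1, v2⟩ := ValA.center (algebraMap A K) 𝔭 hp (by
    rw [(RingHom.injective_iff_ker_eq_bot _).1 hi]; exact bot_le)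
  let R : Subring K :=
    { carrier := {γ | loc (algebraMap A K) 𝔭 γ}
      mul_mem' := loc.mul hp
      one_mem' := by simpa using loc_map (algebraMap A K) hp 1
      add_mem' := loc.add hp
      zero_mem' := by simpa using loc_map (algebraMap A K) hp 0
      neg_mem' := by
        rintro γ ⟨a, b, hb, e⟩
        exact ⟨-a, b, hb, by rw [map_neg, ← e, neg_mul]⟩ }
  have hu : ∀ b, b ∉ 𝔭 → algebraMap A K b ≠ 0 ∧ (algebraMap A K b)⁻¹ ∈ V := fun b hb => by
    have := mt (v2 b).1 hb
    rwa [V.mem_nonunits_iff_or, not_or, not_not] at this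
  refine ⟨R, V, fun _ => Iff.rfl, ?_, ?_⟩
  · rintro γ ⟨a, b, hb, e⟩
    rw [← eq_mul_inv_iff_mul_eq₀ (hu b hb).1] at e
    rw [e]
    exact mul_mem (v1 a) (hu b hb).2
  · rintro γ ⟨a, b, hb, e⟩ hγ
    have h0 : γ ≠ 0 := fun h => hγ (h ▸ V.nonunits.zero_mem)
    refine ⟨b, a, fun ha => hγ ?_, by rw [← e, inv_mul_cancel_left₀ h0]⟩
    rw [← eq_mul_inv_iff_mul_eq₀ (hu b hb).1] at e
    rw [e, mul_comm]
    exact (SM.nonunits V).mul _ (hu b hb).2 _ ((v2 a).2 ha)

theorem sq {A K : Type} [CommRing A] [IsDomain A] [IsIntegrallyClosed A] [Field K] [Algebra A K]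
    [IsFractionRing A K] (𝔭 : Ideal A) (_ : 𝔭.IsPrime) (γ : K)
    (h : loc (algebraMap A K) 𝔭 (γ ^ 2)) : loc (algebraMap A K) 𝔭 γ := by
  obtain ⟨a, b, hb, e⟩ := h
  obtain ⟨c, hc⟩ := IsIntegrallyClosed.exists_algebraMap_eq_of_isIntegral_pow (R := A)
    (x := γ * algebraMap A K b) two_pos (by
      have : (γ * algebraMap A K b) ^ 2 = algebraMap A K (a * b) := by
        rw [map_mul, ← e]; ring
      rw [this]; exact isIntegral_algebraMap)
  exact ⟨c, b, hb, hc.symm⟩

end ResdA

theorem resd : S_resd where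
  resd := ResdA.resd
  piv := ResdA.piv
  retr := ResdA.retr
  tri := ResdA.tri
  dom := ResdA.dom
  sq := ResdA.sq

end Pool.Agent.P.MP_e7d440_ag.U
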