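import Pool.Agent.P.MP_e7d440_ag.U.Iface2

/-! Affine root vectors of the twisted loop algebra. -/

namespace Pool.Agent.P.MP_e7d440_ag.U

open TensorProduct LieAlgebra LaurentPolynomial Set

variable {L Φ Δ : Type} [LieRing L] [LieAlgebra ℚ L] [Fintype Φ] [Fintype Δ] [DecidableEq Φ]
  [DecidableEq Δ] (c : CD L Φ Δ) {K : Type} [Field K] [CharZero K] (ζ : K)

namespace Rt1A

set_option linter.unusedSectionVars false

/-- the size of the orbit of a root -/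
noncomputable abbrev dm (α : Φ) : ℕ := Function.minimalPeriod c.ς α

/-- the sign of the action of a power of the automorphism on a root vector -/
noncomputable def sgn (α : Φ) (i : ℕ) : ℚ :=
  c.bas.repr (c.σ^[i] (c.e α)) (.inl ((c.ς ^ i) α))

lemma iter_smul (i : ℕ) (q : ℚ) (x : L) : c.σ^[i] (q • x) = q • c.σ^[i] x := by
  induction i with
  | zero => rfl
  | succ i ih => rw [Function.iterate_succ_apply', Function.iterate_succ_apply', ih, map_smul]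

lemma iter_κ (i : ℕ) (x y : L) : c.κ (c.σ^[i] x) (c.σ^[i] y) = c.κ x y := by
  induction i with
  | zero => rfl
  | succ i ih => rw [Function.iterate_succ_apply', Function.iterate_succ_apply', c.κ_σ, ih]

lemma ex_sgn (α : Φ) (i : ℕ) :
    ∃ ε : ℚ, (ε = 1 ∨ ε = -1) ∧ c.σ^[i] (c.e α) = ε • c.e ((c.ς ^ i) α) := by
  induction i with
  | zero => exact ⟨1, Or.inl rfl, by simp⟩
  | succ i ih =>
    obtain ⟨ε, h1, h2⟩ := ih
    rw [Function.iterate_succ_apply', h2, map_smul, pow_succ', Equiv.Perm.mul_apply]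
    rcases c.σ_e ((c.ς ^ i) α) with h3 | h3
    · exact ⟨ε, h1, by rw [h3]⟩
    · refine ⟨-ε, ?_, by rw [h3]; simp⟩
      rcases h1 with rfl | rfl <;> simp

lemma sgn_of (α : Φ) (i : ℕ) (ε : ℚ) (h : c.σ^[i] (c.e α) = ε • c.e ((c.ς ^ i) α)) :
    sgn c α i = ε := by
  simp [sgn, h]

lemma sgn_pm (α : Φ) (i : ℕ) : sgn c α i = 1 ∨ sgn c α i = -1 := by
  obtain ⟨ε, h1, h2⟩ := ex_sgn c α i
  rw [sgn_of c α i ε h2]; exact h1

lemma iter_e (α : Φ) (i : ℕ) : c.σ^[i] (c.e α) = sgn c α i • c.e ((c.ς ^ i) α) := by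
  obtain ⟨ε, -, h2⟩ := ex_sgn c α i
  rw [sgn_of c α i ε h2]; exact h2

lemma sgn_sq (α : Φ) (i : ℕ) : sgn c α i * sgn c α i = 1 := by
  rcases sgn_pm c α i with h | h <;> simp [h]

lemma sgn_zero (α : Φ) : sgn c α 0 = 1 := sgn_of c α 0 1 (by simp)

lemma sgn_add (α : Φ) (i j : ℕ) : sgn c α (i + j) = sgn c α i * sgn c ((c.ς ^ i) α) j := by
  refine sgn_of c α _ _ ?_
  rw [add_comm, Function.iterate_add_apply, iter_e, iter_smul, iter_e, smul_smul, pow_add,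
    Equiv.Perm.mul_apply]

lemma pow_dm (α : Φ) : (c.ς ^ dm c α) α = α := by
  rw [Equiv.Perm.coe_pow]; exact Function.iterate_minimalPeriod

lemma pow_mul_dm (α : Φ) (q : ℕ) : (c.ς ^ (q * dm c α)) α = α := by
  rw [Equiv.Perm.coe_pow]; exact (Function.isPeriodicPt_minimalPeriod c.ς α).const_mul q

lemma sgn_mul (α : Φ) (q : ℕ) : sgn c α (q * dm c α) = sgn c α (dm c α) ^ q := by
  induction q with
  | zero => simp [sgn_zero]
  | succ q ih => rw [Nat.succ_mul, sgn_add, ih, pow_mul_dm, pow_succ]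

lemma pow_inj (α : Φ) {i j : ℕ} (hi : i < dm c α) (hj : j < dm c α)
    (h : (c.ς ^ i) α = (c.ς ^ j) α) : i = j := by
  rw [Equiv.Perm.coe_pow, Equiv.Perm.coe_pow] at h
  exact Function.iterate_injOn_Iio_minimalPeriod (f := c.ς) (x := α) hi hj h

lemma cyc_pow (α : Φ) (i : ℕ) : c.ς.SameCycle α ((c.ς ^ i) α) := ⟨i, by simp⟩

variable {c}

lemma pow_neg (h : T0 c) (α : Φ) (i : ℕ) : (c.ς ^ i) (c.neg α) = c.neg ((c.ς ^ i) α) := by
  induction i with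
  | zero => simp
  | succ i ih => rw [pow_succ', Equiv.Perm.mul_apply, Equiv.Perm.mul_apply, ih, h.cd.ς_neg]

lemma neg_inj (h : T0 c) {α β : Φ} (e : c.neg α = c.neg β) : α = β := by
  rw [← h.cd.neg_neg α, e, h.cd.neg_neg]

lemma sgn_neg (h : T0 c) (α : Φ) (i : ℕ) : sgn c (c.neg α) i = sgn c α i := by
  have h1 := iter_κ c i (c.e α) (c.e (c.neg α))
  rw [iter_e, iter_e, pow_neg h, map_smul, map_smul, LinearMap.smul_apply, h.cd.κ_ee, h.cd.κ_ee,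
    if_pos rfl, if_pos rfl, ← h.orb.kap_cyc α _ (cyc_pow c α i)] at h1
  have h2 := h.cd.kap_pos α
  simp only [smul_eq_mul] at h1
  rcases sgn_pm c α i with a | a <;> rcases sgn_pm c (c.neg α) i with b | b <;>
    rw [a, b] at h1 <;> rw [a, b] <;> linarith

lemma sgn_ell (h : T0 c) (α : Φ) : sgn c α c.ℓ = 1 :=
  sgn_of c α _ _ (by rw [c.σ_pow, h.cd.ς_pow]; simp)

lemma dm_pos (h : T0 c) (α : Φ) : 0 < dm c α := by
  have h1 := h.orb.per_mul α
  have h2 := c.ℓ_pos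
  rcases Nat.eq_zero_or_pos (dm c α) with h3 | h3
  · rw [show Function.minimalPeriod c.ς α = 0 from h3] at h1; omega
  · exact h3

lemma dm_eq (h : T0 c) {α β : Φ} (e : c.per α = c.per β) : dm c α = dm c β := by
  have h1 := h.orb.per_mul α
  have h2 := h.orb.per_mul β
  rw [← e] at h2
  exact Nat.eq_of_mul_eq_mul_left (h.orb.per_pos α) (h1.trans h2.symm)

lemma sgn_per (h : T0 c) (α : Φ) : sgn c α (dm c α) ^ c.per α = 1 := by
  rw [← sgn_mul, h.orb.per_mul, sgn_ell h]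

lemma sgn_cyc (α : Φ) (k : ℕ) : sgn c ((c.ς ^ k) α) (dm c α) = sgn c α (dm c α) := by
  have h1 := sgn_add c α k (dm c α)
  have h2 := sgn_add c α (dm c α) k
  rw [pow_dm, add_comm, h1] at h2
  have h3 := sgn_sq c α k
  calc _ = sgn c α k * (sgn c α k * sgn c ((c.ς ^ k) α) (dm c α)) := by
        rw [← mul_assoc, h3, one_mul]
    _ = _ := by rw [h2, mul_left_comm, h3, mul_one]

variable (c)

/-- the coefficient of the average of a root vector -/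
noncomputable def cfi (α : Φ) (m : ℤ) (i : ℕ) : K := ζ ^ ((i : ℤ) * m) * (sgn c α i : K)

/-- the sum over one orbit -/
noncomputable def vv (α : Φ) (m : ℤ) : G L K :=
  ∑ r ∈ Finset.range (dm c α), cfi c ζ α m r • c.bs K (.inl ((c.ς ^ r) α))

lemma sum_mul {M : Type} [AddCommMonoid M] (f : ℕ → M) (p d : ℕ) :
    ∑ i ∈ Finset.range (p * d), f i =
      ∑ q ∈ Finset.range p, ∑ r ∈ Finset.range d, f (q * d + r) := by
  induction p with
  | zero => simp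
  | succ p ih => rw [Nat.succ_mul, Finset.sum_range_add, ih, Finset.sum_range_succ]

variable {c}

lemma sg_bs (h : T0 c) (α : Φ) (i : ℕ) :
    (c.sg K ^ i) (c.bs K (.inl α)) = (sgn c α i : K) • c.bs K (.inl ((c.ς ^ i) α)) := by
  rw [c.bs_apply, c.bs_apply, h.gk.sg_pow_c0, iter_e, tmul_smul, Rat.cast_smul_eq_qsmul]

lemma cc_sum (h : T0 c) (α : Φ) (m : ℤ) : c.cc ζ (c.bs K (.inl α)) m =
    ∑ i ∈ Finset.range c.ℓ, cfi c ζ α m i • c.bs K (.inl ((c.ς ^ i) α)) :=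
  Finset.sum_congr rfl fun i _ => by rw [sg_bs h, smul_smul, cfi]

variable {ζ}

lemma cfi_add (hz : ζ ≠ 0) (α : Φ) (m : ℤ) (q r : ℕ) :
    cfi c ζ α m (q * dm c α + r) = cfi c ζ α m (dm c α) ^ q * cfi c ζ α m r := by
  simp only [cfi]
  rw [sgn_add, sgn_mul, pow_mul_dm, mul_pow, ← zpow_natCast (ζ ^ _), ← zpow_mul]
  push_cast
  rw [add_mul, zpow_add₀ hz, show (q : ℤ) * dm c α * m = dm c α * m * q by ring]
  ring

lemma cc_eq (h : T0 c) (hz : ζ ≠ 0) (α : Φ) (m : ℤ) : c.cc ζ (c.bs K (.inl α)) m =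
    (∑ q ∈ Finset.range (c.per α), cfi c ζ α m (dm c α) ^ q) • vv c ζ α m := by
  rw [cc_sum ζ h, ← h.orb.per_mul α, sum_mul, Finset.sum_smul]
  refine Finset.sum_congr rfl fun q _ => ?_
  rw [vv, Finset.smul_sum]
  refine Finset.sum_congr rfl fun r _ => ?_
  rw [cfi_add hz, smul_smul, add_comm, pow_add, Equiv.Perm.mul_apply, pow_mul_dm]

lemma cfi_zero (α : Φ) (m : ℤ) : cfi c ζ α m 0 = 1 := by simp [cfi, sgn_zero]

lemma crd_vv (h : T0 c) (α : Φ) (m : ℤ) : c.crd (.inl α) (vv c ζ α m) = 1 := by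
  rw [vv, map_sum, Finset.sum_eq_single 0]
  · simp [h.gk.crd_bs, cfi_zero]
  · intro r hr h0
    rw [map_smul, h.gk.crd_bs, if_neg, smul_zero]
    intro e
    exact h0 (pow_inj c α (Finset.mem_range.1 hr) (dm_pos h α) (by simpa using e))
  · intro hn
    exact absurd (Finset.mem_range.2 (dm_pos h α)) hn

lemma eta_pow (h : T0 c) (hz : IsPrimitiveRoot ζ c.ℓ) (α : Φ) (m : ℤ) :
    cfi c ζ α m (dm c α) ^ c.per α = 1 := by
  rw [cfi, mul_pow, ← Rat.cast_pow, sgn_per h, ← zpow_natCast, ← zpow_mul, Rat.cast_one, mul_one,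
    hz.zpow_eq_one_iff_dvd, ← h.orb.per_mul α]
  exact ⟨m, by push_cast; ring⟩

lemma cc_one (h : T0 c) (hz : IsPrimitiveRoot ζ c.ℓ) {α : Φ} {m : ℤ}
    (e : cfi c ζ α m (dm c α) = 1) :
    c.cc ζ (c.bs K (.inl α)) m = (c.per α : K) • vv c ζ α m := by
  rw [cc_eq h (hz.ne_zero c.ℓ_pos.ne'), e]; simp

lemma valid_iff (h : T0 c) (hz : IsPrimitiveRoot ζ c.ℓ) (α : Φ) (m : ℤ) :
    c.Valid ζ (α, m) ↔ cfi c ζ α m (dm c α) = 1 := by
  constructor
  · intro hv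
    by_contra e
    refine hv ?_
    have h1 := geom_sum_mul (cfi c ζ α m (dm c α)) (c.per α)
    rw [eta_pow h hz, sub_self] at h1
    have h2 := (mul_eq_zero.1 h1).resolve_right (sub_ne_zero.2 e)
    simp only
    rw [cc_eq h (hz.ne_zero c.ℓ_pos.ne'), h2, zero_smul]
  · intro e hv
    simp only at hv
    have h1 := congrArg (c.crd (.inl α)) hv
    rw [cc_one h hz e, map_smul, crd_vv h, map_zero, smul_eq_mul, mul_one] at h1
    exact (h.orb.per_pos α).ne' (by exact_mod_cast h1)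

lemma cc_valid (h : T0 c) (hz : IsPrimitiveRoot ζ c.ℓ) {a : Φ × ℤ} (hv : c.Valid ζ a) :
    c.cc ζ (c.bs K (.inl a.1)) a.2 = (c.per a.1 : K) • vv c ζ a.1 a.2 :=
  cc_one h hz ((valid_iff h hz a.1 a.2).1 hv)

lemma cfi_neg (h : T0 c) (hz : ζ ≠ 0) (α : Φ) (m : ℤ) (r : ℕ) :
    cfi c ζ α m r * cfi c ζ (c.neg α) (-m) r = 1 := by
  simp only [cfi]
  rw [sgn_neg h, mul_mul_mul_comm, ← zpow_add₀ hz, ← Rat.cast_mul, sgn_sq]
  simp

lemma valid_ng (h : T0 c) (hz : IsPrimitiveRoot ζ c.ℓ) (a : Φ × ℤ) (hv : c.Valid ζ a) :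
    c.Valid ζ (c.ng a) := by
  have h1 := (valid_iff h hz a.1 a.2).1 hv
  have h2 := cfi_neg h (hz.ne_zero c.ℓ_pos.ne') a.1 a.2 (dm c a.1)
  rw [h1, one_mul] at h2
  refine (valid_iff h hz _ _).2 ?_
  rwa [dm_eq h (h.orb.per_neg a.1)]

lemma valid_sim (h : T0 c) (hz : IsPrimitiveRoot ζ c.ℓ) (a a' : Φ × ℤ) (hs : c.Sim a a')
    (hv : c.Valid ζ a) : c.Valid ζ a' := by
  obtain ⟨α, m⟩ := a
  obtain ⟨β, m'⟩ := a'
  obtain ⟨h1, h2⟩ := hs
  simp only at h1 h2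
  subst h1
  rw [valid_iff h hz] at hv ⊢
  rw [← dm_eq h (h.orb.per_cyc α β h2)]
  obtain ⟨k, rfl⟩ := h2.exists_nat_pow_eq
  rwa [cfi, sgn_cyc]

lemma valid_per (h : T0 c) (hz : IsPrimitiveRoot ζ c.ℓ) (α : Φ) (m m' : ℤ)
    (hv : c.Valid ζ (α, m)) : c.Valid ζ (α, m') ↔ (c.per α : ℤ) ∣ m' - m := by
  rw [valid_iff h hz] at hv ⊢
  have h0 := hz.ne_zero c.ℓ_pos.ne'
  have h1 : cfi c ζ α m' (dm c α) = ζ ^ ((dm c α : ℤ) * (m' - m)) := by
    rw [← mul_one (ζ ^ _), ← hv, cfi, cfi, ← mul_assoc, ← zpow_add₀ h0]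
    congr 2; ring
  rw [h1, hz.zpow_eq_one_iff_dvd, ← h.orb.per_mul α, Nat.cast_mul, mul_comm]
  exact mul_dvd_mul_iff_left (by exact_mod_cast (dm_pos h α).ne')

lemma valid_ex (h : T0 c) (hz : IsPrimitiveRoot ζ c.ℓ) (α : Φ) : ∃ m, c.Valid ζ (α, m) := by
  have h1 : IsPrimitiveRoot (ζ ^ dm c α) (c.per α) :=
    hz.pow c.ℓ_pos (by rw [← h.orb.per_mul α, mul_comm])
  have : NeZero (c.per α) := ⟨(h.orb.per_pos α).ne'⟩
  obtain ⟨i, -, hi⟩ := h1.eq_pow_of_pow_eq_one (ξ := (sgn c α (dm c α) : K))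
    (by rw [← Rat.cast_pow, sgn_per h, Rat.cast_one])
  refine ⟨i, (valid_iff h hz _ _).2 ?_⟩
  rw [cfi, ← Nat.cast_mul, zpow_natCast, pow_mul, hi, ← Rat.cast_mul, sgn_sq, Rat.cast_one]

lemma lie_bs {R : Type} [CommRing R] [Algebra ℚ R] (i j : Φ ⊕ Δ) :
    ⁅c.bs R i, c.bs R j⁆ = c0 R ⁅c.bas i, c.bas j⁆ := by
  rw [c.bs_apply, c.bs_apply, LieAlgebra.ExtendScalars.bracket_tmul, one_mul]

lemma lie_vv (h : T0 c) (hz : ζ ≠ 0) (α : Φ) (m : ℤ) :
    ⁅vv c ζ α m, vv c ζ (c.neg α) (-m)⁆ =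
      c0 K (∑ i ∈ Finset.range (dm c α), c.cor ((c.ς ^ i) α)) := by
  rw [vv, vv, dm_eq h (h.orb.per_neg α), sum_lie, c0, tmul_sum]
  refine Finset.sum_congr rfl fun r hr => ?_
  rw [lie_sum, Finset.sum_eq_single r]
  · rw [smul_lie, lie_smul, smul_smul, cfi_neg h hz, one_smul, lie_bs, pow_neg h]
  · intro r' hr' hne
    rw [smul_lie, lie_smul, lie_bs, pow_neg h]
    have hβ : c.neg ((c.ς ^ r') α) ≠ c.neg ((c.ς ^ r) α) := fun e =>
      hne (pow_inj c α (Finset.mem_range.1 hr') (Finset.mem_range.1 hr) (neg_inj h e))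
    rcases h.cd.lie_ee ((c.ς ^ r) α) _ hβ with ⟨γ, hγ, -⟩ | ⟨-, h0⟩
    · refine absurd ?_ (h.orb.no_sub ((c.ς ^ r) α) ((c.ς ^ r') α) γ
        ((cyc_pow c α r).symm.trans (cyc_pow c α r')))
      rw [hγ, c.al_neg, sub_eq_add_neg]
    · rw [show ⁅c.bas (.inl ((c.ς ^ r) α)), c.bas (.inl (c.neg ((c.ς ^ r') α)))⁆ = 0 from h0]
      simp
  · intro hn
    exact absurd hr hn

lemma kR_vv (h : T0 c) (hz : ζ ≠ 0) (α : Φ) (m : ℤ) :
    c.kR K (vv c ζ α m) (vv c ζ (c.neg α) (-m)) = (dm c α : K) * (c.kap α : K) := by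
  rw [vv, vv, dm_eq h (h.orb.per_neg α), map_sum (c.kR K), LinearMap.sum_apply,
    Finset.sum_congr rfl (g := fun _ => (c.kap α : K)) fun r hr => ?_]
  · simp
  rw [map_sum, Finset.sum_eq_single r]
  · rw [map_smul, map_smul, LinearMap.smul_apply, smul_smul, mul_comm, cfi_neg h hz, one_smul,
      c.bs_apply, c.bs_apply, c.kR_tmul, pow_neg h, h.cd.κ_ee, if_pos rfl,
      ← h.orb.kap_cyc α _ (cyc_pow c α r), mul_one, Rat.smul_one_eq_cast]
  · intro r' hr' hne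
    rw [map_smul, map_smul, LinearMap.smul_apply, c.bs_apply, c.bs_apply, c.kR_tmul, pow_neg h,
      h.cd.κ_ee, if_neg]
    · simp
    · exact fun e =>
        hne (pow_inj c α (Finset.mem_range.1 hr') (Finset.mem_range.1 hr) (neg_inj h e))
  · intro hn
    exact absurd hr hn

lemma ty (h : T0 c) (a : Φ × ℤ) (a' : ℤ × (Φ ⊕ Δ)) (hn : c.co a' (c.E ζ a) ≠ 0) : c.Ty a a' := by
  rw [CD.E, c.co_mon] at hn
  split_ifs at hn with h1
  · refine ⟨h1.symm, ?_⟩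
    rw [cc_sum ζ h, map_sum] at hn
    obtain ⟨i, -, hi⟩ := Finset.exists_ne_zero_of_sum_ne_zero hn
    rw [map_smul, h.gk.crd_bs] at hi
    split_ifs at hi with h2
    · exact ⟨_, h2.symm, cyc_pow c a.1 i⟩
    · simp at hi
  · exact absurd rfl hn

lemma gr (h : T0 c) (a : Φ × ℤ) (z : L) (hz : c.Fix z) : c.E ζ a ∈ c.Gr z {c.al a.1 z} := by
  intro i hi
  obtain ⟨n, hn⟩ : ∃ n, (c.crd i (c.E ζ a)).coeff n ≠ 0 := by
    by_contra hc
    exact hi (LaurentPolynomial.ext fun n => by simpa using not_exists.1 hc n)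
  obtain ⟨-, β, e, hβ⟩ := ty (ζ := ζ) h a (n, i) (by rwa [c.co_eq])
  simp only at e
  subst e
  exact (h.cd.fix_al z hz _ _ hβ).symm

lemma nil (h : T1 c K) (a : Φ × ℤ) (t : K) : Nil (t • c.E ζ a) := by
  refine h.lp.nil_smul t _ ?_
  obtain ⟨N, hN⟩ := h.gk.nil_pos c.ρ
  refine ⟨N, hN _ ?_⟩
  have h1 := gr (ζ := ζ) h.toT0 a c.ρ c.fix_ρ
  rcases lt_or_gt_of_ne (c.ρ_ne a.1) with h2 | h2
  · exact Or.inr fun i hi => by rw [show c.wt0 c.ρ i = _ from h1 i hi]; exact h2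
  · exact Or.inl fun i hi => by rw [show c.wt0 c.ρ i = _ from h1 i hi]; exact h2

lemma mon_q (q : ℚ) (x : L) (h : T1 c K) :
    mon 0 (c0 K (q • x)) = (q : K) • c0 (LP K) x := by
  rw [c0, tmul_smul, ← Rat.cast_smul_eq_qsmul K, map_smul, h.lp.mon_c0]

lemma lieEF (h : T1 c K) (hz : IsPrimitiveRoot ζ c.ℓ) (a : Φ × ℤ) (hv : c.Valid ζ a) :
    ⁅c.E ζ a, c.F ζ a⁆ = (c.kp a.1 : K) • c0 (LP K) (c.tau a.1) := by
  rw [CD.F, CD.E, CD.E, h.lp.mon_lie, cc_valid h.toT0 hz hv,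
    cc_valid h.toT0 hz (valid_ng h.toT0 hz a hv), ← mon_q _ _ h, h.orb.kp_tau]
  simp only [CD.ng]
  rw [smul_lie, lie_smul, lie_vv h.toT0 (hz.ne_zero c.ℓ_pos.ne'), h.orb.per_neg, smul_smul,
    add_neg_cancel, mon_q _ _ h, map_smul, h.lp.mon_c0]
  congr 1
  push_cast; ring

lemma kREF (h : T1 c K) (hz : IsPrimitiveRoot ζ c.ℓ) (a : Φ × ℤ) (hv : c.Valid ζ a) :
    c.kR (LP K) (c.E ζ a) (c.F ζ a) = C (c.kp a.1 : K) := by
  rw [CD.F, CD.E, CD.E, h.lp.mon_kR, cc_valid h.toT0 hz hv,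
    cc_valid h.toT0 hz (valid_ng h.toT0 hz a hv)]
  simp only [CD.ng]
  rw [map_smul (c.kR K), LinearMap.smul_apply, map_smul (c.kR K _),
    kR_vv h.toT0 (hz.ne_zero c.ℓ_pos.ne'), h.orb.per_neg, add_neg_cancel, T_zero, mul_one, CD.kp, ← h.orb.per_mul a.1]
  congr 1
  simp only [smul_eq_mul]
  push_cast; ring

lemma lie_h (h : T1 c K) (a : Φ × ℤ) (x : L) (hx : c.Fix x) :
    ⁅c0 (LP K) x, c.E ζ a⁆ = (c.al a.1 x : K) • c.E ζ a := by
  refine c.ext1 fun a' => ?_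
  rw [h.lp.co_c0 x hx.1, map_smul, smul_eq_mul]
  by_cases h0 : c.co a' (c.E ζ a) = 0
  · rw [h0, mul_zero, mul_zero]
  · obtain ⟨-, β, e, hβ⟩ := ty h.toT0 a a' h0
    rw [e, h.cd.fix_al x hx _ _ hβ]
    rfl

lemma lie_EE (h : T1 c K) (f : LG L K) (t t' : K) : ⁅t • f, t' • f⁆ = 0 := by
  rw [(h.lp.lie_smul t _ _).1, (h.lp.lie_smul t' _ _).2, lie_self, smul_zero, smul_zero]

lemma lie_Eh (h : T1 c K) (a : Φ × ℤ) (t : K) (x : L) (hx : c.Fix x) :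
    ⁅t • c.E ζ a, c0 (LP K) x⁆ = (-(t * (c.al a.1 x : K))) • c.E ζ a := by
  rw [(h.lp.lie_smul t _ _).1, ← lie_skew, lie_h h a x hx, smul_neg, smul_smul, neg_smul]

lemma exE_add (h : T1 c K) (a : Φ × ℤ) (t t' : K) :
    ex (t • c.E ζ a) * ex (t' • c.E ζ a) = ex ((t + t') • c.E ζ a) := by
  rw [add_smul, (h.ex.add _ _ (nil h a t) (nil h a t') (lie_EE h _ t t')).2]

lemma exE_F (h : T1 c K) (hz : IsPrimitiveRoot ζ c.ℓ) (a : Φ × ℤ) (t : K) (hv : c.Valid ζ a) :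
    ex (t • c.E ζ a) (c.F ζ a) = c.F ζ a + (t * (c.kp a.1 : K)) • c0 (LP K) (c.tau a.1) -
      (t ^ 2 * (c.th a.1 : K)) • c.E ζ a := by
  have h1 : ⁅t • c.E ζ a, c.F ζ a⁆ = (t * (c.kp a.1 : K)) • c0 (LP K) (c.tau a.1) := by
    rw [(h.lp.lie_smul t _ _).1, lieEF h hz a hv, smul_smul]
  have h2 : ⁅t • c.E ζ a, ⁅t • c.E ζ a, c.F ζ a⁆⁆ =
      (-(2 * (t ^ 2 * (c.th a.1 : K)))) • c.E ζ a := by
    rw [h1, (h.lp.lie_smul _ _ _).2, lie_Eh h a t _ (h.orb.tau_fix a.1), smul_smul]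
    congr 1
    simp only [CD.th, CD.nu]
    push_cast; ring
  rw [h.ex.three _ _ (nil h a t) (by rw [h2, lie_EE h]), h2, h1, ← Rat.cast_smul_eq_qsmul K,
    smul_smul, sub_eq_add_neg, ← neg_smul]
  congr 2
  push_cast; ring

lemma sd_per (h : T0 c) (S : Subring K) (hS : c.SD ζ S) (α : Φ) :
    ((c.per α : ℕ) : K)⁻¹ ∈ S := by
  have h1 : ((c.per α : ℕ) : K)⁻¹ = (dm c α : K) * (c.ℓ : K)⁻¹ := by
    have h2 : (c.per α : K) ≠ 0 := by exact_mod_cast (h.orb.per_pos α).ne'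
    have h3 : (dm c α : K) ≠ 0 := by exact_mod_cast (dm_pos h α).ne'
    rw [← h.orb.per_mul α]
    push_cast; field_simp
  rw [h1]
  exact S.mul_mem (natCast_mem S _) hS.2

lemma sd_th (h : T0 c) (S : Subring K) (hS : c.SD ζ S) (α : Φ) :
    (c.th α : K) ∈ S ∧ (c.th α : K)⁻¹ ∈ S := by
  have h1 := S.pow_mem (sd_per h S hS α) 2
  have h2 := S.pow_mem (natCast_mem S (c.per α)) 2
  rcases h.orb.th_eq α with e | ⟨e, k, hk⟩
  · rw [e]
    push_cast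
    exact ⟨h2, by rwa [← inv_pow]⟩
  · have h3 : (2 : K)⁻¹ = (k : K) * (c.ℓ : K)⁻¹ := by
      have h4 : (k : K) ≠ 0 := by
        have := c.ℓ_pos
        exact_mod_cast (show k ≠ 0 by omega)
      rw [hk]
      push_cast; field_simp
    rw [e]
    push_cast
    refine ⟨?_, ?_⟩
    · rw [div_eq_mul_inv, h3]
      exact S.mul_mem h2 (S.mul_mem (natCast_mem S _) hS.2)
    · rw [inv_div, div_eq_mul_inv, ← inv_pow]
      exact S.mul_mem (ofNat_mem S 2) h1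

lemma ev_mon (s : K) (m : ℤ) (x : G L K) : ev s (mon m x) = s ^ m • x := by
  induction x using TensorProduct.induction_on with
  | zero => simp
  | add x y hx hy => rw [map_add, map_add, hx, hy, smul_add]
  | tmul r x => rw [mon_tmul, ev_tmul, map_smul, evL_T, smul_tmul', smul_eq_mul, smul_eq_mul,
      mul_comm]

lemma mqa_cc (h : T0 c) {K' : Type} [Field K'] [CharZero K'] (f : K →+* K') (α : Φ) (m : ℤ) :
    mqa (f : K →+ K') (c.cc ζ (c.bs K (.inl α)) m) = c.cc (f ζ) (c.bs K' (.inl α)) m := by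
  rw [cc_sum _ h, cc_sum _ h, map_sum]
  refine Finset.sum_congr rfl fun i _ => ?_
  rw [h.gk.mqa_smul, c.bs_apply, c.bs_apply, mqa_tmul]
  simp [cfi]

lemma der_zpow (δ : K →+ K) (hδ : ∀ a b, δ (a * b) = a * δ b + b * δ a) (s : K) (hs : δ s = 0)
    (m : ℤ) : δ (s ^ m) = 0 := by
  have h1 : δ 1 = 0 := by simpa using hδ 1 1
  have h2 : ∀ n : ℕ, δ (s ^ n) = 0 := fun n => by
    induction n with
    | zero => simpa using h1
    | succ n ih => rw [pow_succ, hδ, hs, ih]; simp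
  obtain ⟨n, rfl | rfl⟩ := m.eq_nat_or_neg
  · simpa using h2 n
  · rw [zpow_neg, zpow_natCast]
    by_cases h0 : s ^ n = 0
    · rw [h0, inv_zero, map_zero]
    · have h3 := hδ (s ^ n) (s ^ n)⁻¹
      rw [mul_inv_cancel₀ h0, h1, h2, mul_zero, add_zero] at h3
      exact (mul_eq_zero.1 h3.symm).resolve_left h0

lemma der (h : T0 c) (δ : K →+ K) (hδ : ∀ a b, δ (a * b) = a * δ b + b * δ a) (h0 : δ ζ = 0)
    (s : K) (hs : δ s = 0) (a : Φ × ℤ) : mqa δ (ev s (c.E ζ a)) = 0 := by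
  obtain ⟨-, h1, h2⟩ := h.gk.der_lie δ hδ
  have h3 : δ 1 = 0 := by simpa using hδ 1 1
  rw [CD.E, ev_mon, h1, der_zpow δ hδ s hs, zero_smul, zero_add, cc_sum _ h, map_sum,
    Finset.sum_eq_zero, smul_zero]
  intro i _
  rw [h1, c.bs_apply, h2, smul_zero, add_zero, cfi, hδ, der_zpow δ hδ ζ h0]
  rcases sgn_pm c a.1 i with e | e <;> simp [e, h3]

end Rt1A

open Rt1A in
theorem rt1 (h : T1 c K) (hz : IsPrimitiveRoot ζ c.ℓ) (he : S_eqv c ζ) : S_rt1 c ζ where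
  eqv a := he.cc _ _
  co a hv := by
    rw [CD.E, c.co_mon, if_pos rfl, cc_valid h.toT0 hz hv, map_smul, crd_vv h.toT0, smul_eq_mul,
      mul_one]
  ne a := by
    refine not_congr ⟨fun e => by rw [CD.E, e, map_zero], fun e => ?_⟩
    have h1 := h.lp.cf_mon a.2 a.2 (c.cc ζ (c.bs K (.inl a.1)) a.2)
    rw [if_pos rfl] at h1
    rw [← h1, ← CD.E, e, map_zero]
  ty := ty h.toT0
  sup a z hz := he.cc_sup z hz (CD.ix a)
  supF a z hz := by
    rw [← c.val_ng]; exact he.cc_sup z hz (CD.ix (c.ng a))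
  gr := gr h.toT0
  nil := nil h
  ng_ng a := by simp [CD.ng, h.cd.neg_neg]
  valid_ng := valid_ng h.toT0 hz
  valid_sim := valid_sim h.toT0 hz
  valid_per := valid_per h.toT0 hz
  valid_ex := valid_ex h.toT0 hz
  sim_refl a := ⟨rfl, Equiv.Perm.SameCycle.refl _ _⟩
  sim_symm a a' e := ⟨e.1.symm, e.2.symm⟩
  sim_trans a a' a'' e e' := ⟨e.1.trans e'.1, e.2.trans e'.2⟩
  sim_ng a a' := by
    refine ⟨fun e => ⟨neg_injective e.1, ?_⟩, fun e => ⟨congrArg Neg.neg e.1, h.cd.cyc_neg _ _ e.2⟩⟩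
    have h1 := h.cd.cyc_neg _ _ e.2
    simpa only [CD.ng, h.cd.neg_neg] using h1
  not_sim_ng a e := by
    have h1 := h.cd.fix_al c.ρ c.fix_ρ _ _ e.2
    simp only [CD.ng, c.al_neg, LinearMap.neg_apply] at h1
    exact c.ρ_ne a.1 (by linarith)
  ty_ix a a' := by
    refine ⟨fun ⟨e, β, e1, e2⟩ => ⟨e.symm, ?_⟩, fun e => ⟨e.1.symm, a'.1, rfl, e.2⟩⟩
    rwa [Sum.inl_injective e1]
  lieEF := lieEF h hz
  kREF := kREF h hz
  kREE a a' hn := by
    by_contra h0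
    refine hn ((h.orb.sim_iff a a').2 fun z hf => ?_)
    obtain ⟨p, hp, p', hp', e⟩ := h.sup.kR z _ _ _ _ (he.cc_sup z hf (CD.ix a))
      (he.cc_sup z hf (CD.ix (c.ng a'))) 0 h0
    rw [Set.mem_singleton_iff, c.wt_inl] at hp hp'
    have h1 := c.val_ng a' z
    rw [hp, hp'] at e
    push_cast at e
    change c.val a z + c.val (c.ng a') z = 0 at e
    linarith
  lie_h := lie_h h
  dd a := h.lp.dd_mon _ _
  T_E α m k hk := by
    rw [CD.E, CD.E, h.lp.mon_T, add_comm]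
    congr 1
    refine Finset.sum_congr rfl fun i _ => ?_
    simp only
    rw [mul_add, zpow_add₀ (hz.ne_zero c.ℓ_pos.ne'),
      (hz.zpow_eq_one_iff_dvd _).2 (hk.mul_left _), mul_one]
  int S hS a := (h.sup.in_mon _ _ _ S.zero_mem).2 (he.cc_in S hS _ _ (h.gk.in_bs S _))
  sd_per := sd_per h.toT0
  sd_th := sd_th h.toT0
  th_ne α := by
    have h1 := h.orb.kp_pos α
    have h2 := h.orb.nu_pos α
    have h3 : 0 < c.th α := by rw [CD.th]; positivity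
    exact ⟨by exact_mod_cast h3.ne', by exact_mod_cast (h.orb.per_pos α).ne',
      by exact_mod_cast h1.ne', by exact_mod_cast h2.ne'⟩
  exE_h a t x hx := by
    rw [h.ex.two _ _ (nil h a t) (by rw [lie_Eh h a t x hx, lie_EE h]), lie_Eh h a t x hx,
      neg_smul, sub_eq_add_neg]
  exE_E a t := h.ex.fix _ _ (nil h a t) (by simpa using lie_EE h (c.E ζ a) t 1)
  exE_F := exE_F h hz
  exE_add := exE_add h
  exE_inv a t := by
    rw [exE_add h, exE_add h, add_neg_cancel, neg_add_cancel, zero_smul]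
    exact ⟨h.ex.zero.2, h.ex.zero.2⟩
  nat f a := by
    refine ⟨not_congr ⟨fun e => c.ext0 fun i => ?_, fun e => ?_⟩, fun s => ?_⟩
    · rw [← mqa_cc h.toT0] at e
      have h1 := congrArg (c.crd i) e
      rw [c.crd_mqa, map_zero] at h1
      rw [map_zero]
      exact f.injective (by simpa using h1)
    · rw [← mqa_cc h.toT0, e, map_zero]
    · rw [CD.E, CD.E, ev_mon, ev_mon, h.gk.mqa_smul, mqa_cc h.toT0, map_zpow₀]
  der := der h.toT0

end Pool.Agent.P.MP_e7d440_ag.U
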