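import Pool.Agent.P.MP_e7d440_ag.U.Iface

/-! Supports and integrality of loops. -/

namespace Pool.Agent.P.MP_e7d440_ag.U

open TensorProduct LieAlgebra LaurentPolynomial Set

variable {L Φ Δ : Type} [LieRing L] [LieAlgebra ℚ L] [Fintype Φ] [Fintype Δ] [DecidableEq Φ]
  [DecidableEq Δ] (c : CD L Φ Δ)

variable (K : Type) [Field K] [CharZero K]

namespace SupA

set_option linter.unusedSectionVars false

omit [Fintype Φ] [Fintype Δ] [DecidableEq Φ] [DecidableEq Δ] in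
lemma mem_supp (f : LG L K) (a : ℤ × (Φ ⊕ Δ)) :
    a ∈ ((c.BB K).repr f).support ↔ c.co a f ≠ 0 := by
  rw [Finsupp.mem_support_iff, c.co_repr]

omit [Fintype Φ] [Fintype Δ] [DecidableEq Φ] [DecidableEq Δ] in
lemma fin (f : LG L K) : {a | c.co a f ≠ 0}.Finite := by
  refine (((c.BB K).repr f).support.finite_toSet).subset fun a ha => ?_
  exact (mem_supp c K f a).2 ha

omit [Fintype Φ] [Fintype Δ] [DecidableEq Φ] [DecidableEq Δ] in
lemma ex_ne {f : LG L K} (hf : f ≠ 0) : ∃ a, c.co a f ≠ 0 := by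
  by_contra h
  push Not at h
  exact hf (c.ext1 fun a => by rw [h a, map_zero])

omit [Fintype Φ] [Fintype Δ] [DecidableEq Φ] [DecidableEq Δ] in
lemma ind {X : Type} (t : ℤ × (Φ ⊕ Δ) → X) (Q : LG L K → Prop) (h0 : Q 0)
    (hadd : ∀ f g, Q f → Q g → Q (f + g)) (f : LG L K)
    (hf : ∀ a, c.co a f ≠ 0 → Q (c.pr (fun a' => t a' = t a) f)) : Q f := by
  classical
  have key : f = ∑ x ∈ ((c.BB K).repr f).support.image t, c.pr (fun a' => t a' = x) f := by
    refine c.ext1 fun a => ?_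
    rw [map_sum]
    simp only [c.co_pr]
    by_cases ha : c.co a f = 0
    · simp [ha]
    · rw [Finset.sum_eq_single (t a)]
      · simp
      · intro b _ hb
        rw [if_neg (Ne.symm hb)]
      · intro hn
        exact absurd (Finset.mem_image_of_mem t ((mem_supp c K f a).2 ha)) hn
  rw [key]
  refine Finset.sum_induction _ Q hadd h0 fun x hx => ?_
  obtain ⟨a, ha, rfl⟩ := Finset.mem_image.1 hx
  exact hf a ((mem_supp c K f a).1 ha)

omit [Fintype Φ] [Fintype Δ] [DecidableEq Φ] [DecidableEq Δ] in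
lemma sup_cf (z : L) (P : Set ℚ) (f : LG L K) :
    f ∈ c.Sup z P ↔ ∀ m : ℤ, cf m f ∈ c.Gr z {q | q + m ∈ P} := by
  constructor
  · intro hf m i hi
    rw [c.co_cf] at hi
    exact hf (m, i) hi
  · intro hf a ha
    exact hf a.1 a.2 (by rw [c.co_cf]; exact ha)

omit [Fintype Φ] [Fintype Δ] in
lemma mon_iff (z : L) (P : Set ℚ) (m : ℤ) (x : G L K) :
    mon m x ∈ c.Sup z P ↔ x ∈ c.Gr z {q | q + m ∈ P} := by
  constructor
  · intro hf i hi
    exact hf (m, i) (by rw [c.co_mon, if_pos rfl]; exact hi)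
  · intro hf a ha
    rw [c.co_mon] at ha
    split_ifs at ha with hm
    · have := hf a.2 ha
      rw [hm] at this
      exact this
    · exact absurd rfl ha

lemma lie (h : T0 c) (hl : S_lp c K) (z : L) (P P' Q : Set ℚ) (f g : LG L K)
    (hf : f ∈ c.Sup z P) (hg : g ∈ c.Sup z P') (hP : ∀ p ∈ P, ∀ p' ∈ P', p + p' ∈ Q) :
    ⁅f, g⁆ ∈ c.Sup z Q := by
  obtain ⟨t, -, ht⟩ := hl.sum_mon f
  obtain ⟨t', -, ht'⟩ := hl.sum_mon g
  rw [ht, ht', sum_lie_sum]
  refine Submodule.sum_mem _ fun m _ => Submodule.sum_mem _ fun n _ => ?_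
  rw [hl.mon_lie, mon_iff]
  refine h.gk.gr_lie z _ _ _ _ _ ((sup_cf c K z P f).1 hf m) ((sup_cf c K z P' g).1 hg n) ?_
  intro p hp p' hp'
  have := hP _ hp _ hp'
  simp only [mem_ofPred_eq]
  push_cast
  rwa [show p + p' + ((m : ℚ) + n) = p + m + (p' + n) by ring]

lemma coeff_CT (a : K) (m n : ℤ) : (C a * T m : LP K).coeff n = if m = n then a else 0 := by
  rw [← single_eq_C_mul_T, AddMonoidAlgebra.coeff_single, Finsupp.single_apply]

lemma kR (h : T0 c) (hl : S_lp c K) (z : L) (P P' : Set ℚ) (f g : LG L K)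
    (hf : f ∈ c.Sup z P) (hg : g ∈ c.Sup z P') (n : ℤ)
    (hn : (c.kR (LP K) f g).coeff n ≠ 0) : ∃ p ∈ P, ∃ p' ∈ P', p + p' = n := by
  by_contra hc
  push Not at hc
  apply hn
  obtain ⟨t, -, ht⟩ := hl.sum_mon f
  obtain ⟨t', -, ht'⟩ := hl.sum_mon g
  rw [ht, ht', LinearMap.BilinForm.sum_left, AddMonoidAlgebra.coeff_sum, Finsupp.finsetSum_apply]
  refine Finset.sum_eq_zero fun m _ => ?_
  rw [LinearMap.BilinForm.sum_right, AddMonoidAlgebra.coeff_sum, Finsupp.finsetSum_apply]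
  refine Finset.sum_eq_zero fun m' _ => ?_
  rw [hl.mon_kR, coeff_CT]
  split_ifs with hm
  · refine h.gk.gr_kR z _ _ _ _ ((sup_cf c K z P f).1 hf m) ((sup_cf c K z P' g).1 hg m') ?_
    intro p hp p' hp' he
    refine hc _ hp _ hp' ?_
    rw [← hm]
    push_cast
    linear_combination he
  · rfl

lemma co_smul (hl : S_lp c K) (p : LP K) (f : LG L K) (a : ℤ × (Φ ⊕ Δ)) :
    c.co a (p • f) = ∑ m ∈ p.coeff.support, p.coeff m * c.co (a.1 - m, a.2) f := by
  have := c.co_cf a.1 a.2 (p • f)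
  rw [hl.cf_smul, Finsupp.sum, map_sum] at this
  rw [show a = (a.1, a.2) from rfl, ← this]
  refine Finset.sum_congr rfl fun m _ => ?_
  rw [map_smul, c.co_cf, smul_eq_mul]

lemma smul (hl : S_lp c K) (z : L) (P Q : Set ℚ) (p : LP K) (f : LG L K) (hf : f ∈ c.Sup z P)
    (hp : ∀ n, p.coeff n ≠ 0 → ∀ q ∈ P, q + n ∈ Q) : p • f ∈ c.Sup z Q := by
  intro a ha
  rw [co_smul c K hl] at ha
  obtain ⟨m, -, hm⟩ := Finset.exists_ne_zero_of_sum_ne_zero ha
  have h1 := hp m (left_ne_zero_of_mul hm) _ (hf _ (right_ne_zero_of_mul hm))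
  have : c.wt z (a.1 - m, a.2) + m = c.wt z a := by
    simp only [CD.wt]
    push_cast
    ring
  rwa [this] at h1

lemma lead (hl : S_lp c K) (z : L) (r : ℚ) (p : LP K) (f : LG L K)
    (hp : ∀ n < 0, p.coeff n = 0) (hf : f ∈ c.Sup z (Ici r)) :
    p • f - p.coeff 0 • f ∈ c.Sup z (Ioi r) := by
  rw [hl.smul_C, ← sub_smul]
  refine smul c K hl z (Ici r) _ _ f hf fun n hn q hq => ?_
  have hn0 : 0 < n := by
    rcases lt_trichotomy n 0 with h1 | h1 | h1
    · exfalso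
      apply hn
      rw [AddMonoidAlgebra.coeff_sub, Finsupp.sub_apply, C_apply, hp n h1, if_neg h1.ne, sub_zero]
    · exfalso
      apply hn
      rw [AddMonoidAlgebra.coeff_sub, Finsupp.sub_apply, C_apply, if_pos h1, h1, sub_self]
    · exact h1
  have : (0 : ℚ) < n := by exact_mod_cast hn0
  simp only [mem_Ici, mem_Ioi] at hq ⊢
  linarith

lemma sup_T (hl : S_lp c K) (z : L) (P : Set ℚ) (k : ℤ) (f : LG L K) :
    (T k : LP K) • f ∈ c.Sup z P ↔ f ∈ c.Sup z {q | q + k ∈ P} := by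
  constructor
  · intro hf a ha
    have := hf (a.1 + k, a.2) (by rw [hl.co_T, add_sub_cancel_right]; exact ha)
    simp only [CD.wt, mem_ofPred_eq] at this ⊢
    push_cast at this
    rwa [add_assoc]
  · intro hf a ha
    rw [show a = (a.1, a.2) from rfl, hl.co_T] at ha
    have := hf _ ha
    simp only [CD.wt, mem_ofPred_eq] at this ⊢
    push_cast at this
    rwa [show c.wt0 z a.2 + ((a.1 : ℚ) - k) + k = c.wt0 z a.2 + a.1 by ring] at this

lemma c0_mem (hl : S_lp c K) (z h : L) (hh : c.IsH h) :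
    c0 (LP K) h ∈ (c.Sup z {0} : Submodule K _) := by
  intro a ha
  rw [hl.co_const] at ha
  split_ifs at ha with h1
  · obtain ⟨m, i | i⟩ := a
    · exact absurd (by simp [hh i]) ha
    · simp only at h1
      simp [c.wt_inr, h1]
  · exact absurd rfl ha

omit [Fintype Φ] [Fintype Δ] [DecidableEq Φ] [DecidableEq Δ] in
lemma low (z : L) (f : LG L K) (hf : f ≠ 0) :
    ∃ r, f ∈ c.Sup z (Ici r) ∧ ∃ a, c.co a f ≠ 0 ∧ c.wt z a = r := by
  obtain ⟨a0, ha0⟩ := ex_ne c K hf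
  obtain ⟨a, ha, hmin⟩ := Finset.exists_min_image ((c.BB K).repr f).support (c.wt z)
    ⟨a0, (mem_supp c K f a0).2 ha0⟩
  exact ⟨c.wt z a, fun b hb => hmin b ((mem_supp c K f b).2 hb), a, (mem_supp c K f a).1 ha, rfl⟩

omit [Fintype Φ] [Fintype Δ] [DecidableEq Φ] [DecidableEq Δ] in
lemma high (z : L) (f : LG L K) (hf : f ≠ 0) :
    ∃ r, f ∈ c.Sup z (Iic r) ∧ ∃ a, c.co a f ≠ 0 ∧ c.wt z a = r := by
  obtain ⟨a0, ha0⟩ := ex_ne c K hf
  obtain ⟨a, ha, hmax⟩ := Finset.exists_max_image ((c.BB K).repr f).support (c.wt z)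
    ⟨a0, (mem_supp c K f a0).2 ha0⟩
  exact ⟨c.wt z a, fun b hb => hmax b ((mem_supp c K f b).2 hb), a, (mem_supp c K f a).1 ha, rfl⟩

omit [Fintype Φ] [Fintype Δ] [DecidableEq Φ] [DecidableEq Δ] in
lemma gap_lo (z : L) (r : ℚ) (f : LG L K) (hf : f ∈ c.Sup z (Ioi r)) :
    ∃ r', r < r' ∧ f ∈ c.Sup z (Ici r') := by
  by_cases h0 : f = 0
  · exact ⟨r + 1, by linarith, h0 ▸ Submodule.zero_mem _⟩
  · obtain ⟨r', h1, a, ha, rfl⟩ := low c K z f h0
    exact ⟨_, hf a ha, h1⟩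

omit [Fintype Φ] [Fintype Δ] [DecidableEq Φ] [DecidableEq Δ] in
lemma gap_hi (z : L) (r : ℚ) (f : LG L K) (hf : f ∈ c.Sup z (Iio r)) :
    ∃ r', r' < r ∧ f ∈ c.Sup z (Iic r') := by
  by_cases h0 : f = 0
  · exact ⟨r - 1, by linarith, h0 ▸ Submodule.zero_mem _⟩
  · obtain ⟨r', h1, a, ha, rfl⟩ := high c K z f h0
    exact ⟨_, hf a ha, h1⟩

omit [Fintype Φ] [Fintype Δ] [DecidableEq Φ] [DecidableEq Δ] in
lemma bdd (z : L) (f : LG L K) : ∃ r r', f ∈ c.Sup z (Icc r r') := by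
  by_cases h0 : f = 0
  · exact ⟨0, 0, h0 ▸ Submodule.zero_mem _⟩
  · obtain ⟨r, h1, -⟩ := low c K z f h0
    obtain ⟨r', h2, -⟩ := high c K z f h0
    exact ⟨r, r', fun a ha => ⟨h1 a ha, h2 a ha⟩⟩

lemma eig (hl : S_lp c K) (z : L) (hz : c.IsH z) (r : ℚ) (f : LG L K) :
    f ∈ c.Sup z {r} ↔ dd f + ⁅c0 (LP K) z, f⁆ = (r : K) • f := by
  have key : ∀ a, c.co a (dd f + ⁅c0 (LP K) z, f⁆) = (c.wt z a : K) * c.co a f := fun a => by
    rw [map_add, hl.co_dd, hl.co_c0 z hz, CD.wt]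
    push_cast
    ring
  constructor
  · intro hf
    refine c.ext1 fun a => ?_
    rw [key, map_smul, smul_eq_mul]
    by_cases ha : c.co a f = 0
    · simp [ha]
    · rw [mem_singleton_iff.1 (hf a ha)]
  · intro hf a ha
    have := key a
    rw [hf, map_smul, smul_eq_mul] at this
    have h2 := mul_right_cancel₀ ha this
    exact (Rat.cast_injective h2).symm

lemma ex_gen (h : T0 c) (hl : S_lp c K) (z : L) (P P' Q : Set ℚ) (x f : LG L K) (hx : Nil x)
    (hQ : Q ⊆ P') (hxP : x ∈ c.Sup z P) (hP : ∀ p ∈ P, ∀ p' ∈ P', p + p' ∈ Q)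
    (hf : f ∈ c.Sup z P') : ex x f - f ∈ c.Sup z Q ∧ ex x f ∈ c.Sup z P' :=
  h.ex.stable (c.Sup z P' : Submodule K _) (c.Sup z Q) x hx (c.Sup_mono hQ)
    (fun y hy => lie c K h hl z P P' Q x y hxP hy hP) f hf

lemma coeff_mul_mem {S : Subring K} {M : Set K} (hM : SM S M) (p q : LP K)
    (hp : ∀ n, p.coeff n ∈ S) (hq : ∀ n, q.coeff n ∈ M) (n : ℤ) : (p * q).coeff n ∈ M := by
  classical
  rw [AddMonoidAlgebra.coeff_mul, Finsupp.sum]
  refine hM.sum _ _ fun a _ => ?_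
  rw [Finsupp.sum]
  refine hM.sum _ _ fun b _ => ?_
  split_ifs
  · exact hM.mul _ (hp a) _ (hq b)
  · exact hM.zero

/-- Laurent polynomials with coefficients in a subring -/
def liftS (S : Subring K) : Subring (LP K) where
  carrier := {p | ∀ n, p.coeff n ∈ S}
  mul_mem' := fun {p q} hp hq n => coeff_mul_mem K (SM.self S) p q hp hq n
  one_mem' := fun n => by
    rw [← map_one (C : K →+* LP K), C_apply]
    split_ifs
    · exact S.one_mem
    · exact S.zero_mem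
  add_mem' := fun {p q} hp hq n => by
    rw [AddMonoidAlgebra.coeff_add, Finsupp.add_apply]
    exact S.add_mem (hp n) (hq n)
  zero_mem' := fun n => by simp
  neg_mem' := fun {p} hp n => by
    rw [AddMonoidAlgebra.coeff_neg, Finsupp.neg_apply]
    exact S.neg_mem (hp n)

omit [Fintype Φ] [Fintype Δ] [DecidableEq Φ] [DecidableEq Δ] in
lemma in0_iff (M : Set K) (f : LG L K) :
    c.In0 {p : LP K | ∀ n, p.coeff n ∈ M} f ↔ c.In M f := by
  constructor
  · intro hf a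
    rw [c.co_eq]
    exact hf a.2 a.1
  · intro hf i n
    have := hf (n, i)
    rwa [c.co_eq] at this

omit [Fintype Φ] [Fintype Δ] [DecidableEq Φ] [DecidableEq Δ] in
lemma in_lift (S : Subring K) (M : Set K) (hM : SM S M) :
    ∃ (S' : Subring (LP K)) (M' : Set (LP K)),
      SM S' M' ∧ (∀ p, p ∈ S' ↔ ∀ n, p.coeff n ∈ S) ∧ (∀ p, p ∈ M' ↔ ∀ n, p.coeff n ∈ M) ∧
      (∀ f : LG L K, c.In0 S' f ↔ c.In S f) ∧ ∀ f : LG L K, c.In0 M' f ↔ c.In M f := by
  refine ⟨liftS K S, {p | ∀ n, p.coeff n ∈ M}, ⟨fun n => ?_, fun p hp q hq n => ?_,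
    fun p hp q hq n => coeff_mul_mem K hM p q hp hq n⟩, fun _ => Iff.rfl, fun _ => Iff.rfl,
    fun f => in0_iff c K S f, fun f => in0_iff c K M f⟩
  · simpa using hM.zero
  · rw [AddMonoidAlgebra.coeff_add, Finsupp.add_apply]
    exact hM.add _ (hp n) _ (hq n)

lemma in_lie (h : T0 c) (S : Subring K) (M : Set K) (f g : LG L K) (hM : SM S M)
    (hf : c.In S f) (hg : c.In M g) : c.In M ⁅f, g⁆ ∧ c.In M ⁅g, f⁆ := by
  obtain ⟨S', M', h1, -, -, h4, h5⟩ := in_lift c K S M hM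
  have := h.gk.in_lie S' M' f g h1 ((h4 f).2 hf) ((h5 g).2 hg)
  exact ⟨(h5 _).1 this.1, (h5 _).1 this.2⟩

lemma in_smul (hl : S_lp c K) (S : Subring K) (M : Set K) (p : LP K) (f : LG L K)
    (hM : SM S M) : ((∀ n, p.coeff n ∈ S) → c.In M f → c.In M (p • f)) ∧
      ((∀ n, p.coeff n ∈ M) → c.In S f → c.In M (p • f)) := by
  constructor
  · intro hp hf a
    rw [co_smul c K hl]
    exact hM.sum _ _ fun m _ => hM.mul _ (hp m) _ (hf _)
  · intro hp hf a
    rw [co_smul c K hl]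
    exact hM.sum _ _ fun m _ => by rw [mul_comm]; exact hM.mul _ (hf _) _ (hp m)

lemma in_T (hl : S_lp c K) (M : Set K) (k : ℤ) (f : LG L K) :
    c.In M ((T k : LP K) • f) ↔ c.In M f := by
  constructor
  · intro hf a
    have := hf (a.1 + k, a.2)
    rwa [hl.co_T, add_sub_cancel_right] at this
  · intro hf a
    rw [show a = (a.1, a.2) from rfl, hl.co_T]
    exact hf _

lemma in_ev (hl : S_lp c K) (S : Subring K) (M : Set K) (s : K) (f : LG L K) (hM : SM S M)
    (hs : s ∈ S) (hs' : s⁻¹ ∈ S) (hf : c.In M f) : c.In0 M (ev s f) := by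
  intro i
  rw [hl.crd_ev, hl.evL_eq, Finsupp.sum]
  refine hM.sum _ _ fun m _ => ?_
  rw [mul_comm]
  refine hM.mul _ ?_ _ ?_
  · obtain ⟨n, rfl | rfl⟩ := Int.eq_nat_or_neg m
    · rw [zpow_natCast]
      exact S.pow_mem hs n
    · rw [zpow_neg, zpow_natCast, ← inv_pow]
      exact S.pow_mem hs' n
  · have := hf (m, i)
    rwa [c.co_eq] at this

omit [CharZero K] in
lemma prim_gen {ι : Type} (V : ValuationSubring K) (v : ι →₀ K) (hv : v ≠ 0) :
    ∃ t : K, t ≠ 0 ∧ (∀ i, t * v i ∈ V) ∧ ∃ i, t * v i = 1 := by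
  obtain ⟨a, ha, hmax⟩ := Finset.exists_max_image v.support (fun i => V.valuation (v i))
    (Finsupp.support_nonempty_iff.2 hv)
  have h0 : v a ≠ 0 := Finsupp.mem_support_iff.1 ha
  refine ⟨(v a)⁻¹, inv_ne_zero h0, fun i => ?_, a, inv_mul_cancel₀ h0⟩
  by_cases hi : v i = 0
  · rw [hi, mul_zero]
    exact V.zero_mem
  · rw [← V.valuation_le_one_iff, map_mul, map_inv₀]
    have h1 : V.valuation (v a) ≠ 0 := by simpa using h0
    rw [inv_mul_le_one₀ (zero_lt_iff.2 h1)]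
    exact hmax i (Finsupp.mem_support_iff.2 hi)

omit [Fintype Φ] [Fintype Δ] [DecidableEq Φ] [DecidableEq Δ] in
lemma arch (V : ValuationSubring K) (s : K) (hs : s ∈ V)
    (ha : ∀ γ : K, ∃ M : ℕ, s ^ M * γ ∈ V) (f : LG L K) :
    ∃ M : ℕ, ∀ M', M ≤ M' → c.In V (s ^ M' • f) := by
  choose N hN using ha
  refine ⟨((c.BB K).repr f).support.sup fun a => N (c.co a f), fun M' hM' a => ?_⟩
  rw [map_smul, smul_eq_mul]
  by_cases h0 : c.co a f = 0
  · rw [h0, mul_zero]
    exact V.zero_mem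
  · have h1 : N (c.co a f) ≤ M' :=
      le_trans (Finset.le_sup (f := fun a => N (c.co a f)) ((mem_supp c K f a).2 h0)) hM'
    obtain ⟨d, rfl⟩ := Nat.exists_eq_add_of_le h1
    rw [pow_add, mul_comm (s ^ _) (s ^ d), mul_assoc]
    exact V.mul_mem _ _ (V.toSubring.pow_mem hs d) (hN _)

end SupA

theorem sups (h : T0 c) (hl : S_lp c K) : S_sup c K where
  fin := SupA.fin c K
  ind := fun t Q h0 hadd f hf => SupA.ind c K t Q h0 hadd f hf
  pr_sup := fun p z P f hf a ha => by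
    rw [c.co_pr] at ha
    split_ifs at ha
    · exact hf a ha
    · exact absurd rfl ha
  pr_in := fun p M f h0 hf a => by
    rw [c.co_pr]
    split_ifs
    · exact hf a
    · exact h0
  pr_wt := fun z P f => ⟨fun a ha => by
    rw [c.co_pr] at ha
    split_ifs at ha with h1
    · exact h1
    · exact absurd rfl ha, fun a ha => by
    rw [map_sub, c.co_pr] at ha
    split_ifs at ha with h1
    · exact absurd (sub_self _) ha
    · exact h1⟩
  disj := fun z P P' f hf hf' a ha => ⟨hf a ha, hf' a ha⟩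
  empty := fun z P P' f hf hf' hP => by
    by_contra h0
    obtain ⟨a, ha⟩ := SupA.ex_ne c K h0
    exact hP _ (hf a ha) (hf' a ha)
  lie := SupA.lie c K h hl
  kR := SupA.kR c K h hl
  smul := SupA.smul c K hl
  lead := SupA.lead c K hl
  sup_T := SupA.sup_T c K hl
  dd := fun z P f hf a ha => by
    rw [hl.co_dd] at ha
    exact hf a (right_ne_zero_of_mul ha)
  c0 := SupA.c0_mem c K hl
  mon := SupA.mon_iff c K
  gap_lo := SupA.gap_lo c K
  gap_hi := SupA.gap_hi c K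
  bdd := SupA.bdd c K
  low := SupA.low c K
  high := SupA.high c K
  eig := SupA.eig c K hl
  ex_ge := fun z r x f hx hf =>
    ⟨fun hx0 => (SupA.ex_gen c K h hl z (Ici 0) (Ici r) (Ici r) x f hx subset_rfl hx0
        (fun p hp p' hp' => by simp only [mem_Ici] at *; linarith) hf).2,
      fun hx0 => (SupA.ex_gen c K h hl z (Ioi 0) (Ici r) (Ioi r) x f hx Ioi_subset_Ici_self hx0
        (fun p hp p' hp' => by simp only [mem_Ici, mem_Ioi] at *; linarith) hf).1⟩
  ex_gt := fun z r x f hx hf hx0 =>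
    (SupA.ex_gen c K h hl z (Ici 0) (Ioi r) (Ioi r) x f hx subset_rfl hx0
      (fun p hp p' hp' => by simp only [mem_Ici, mem_Ioi] at *; linarith) hf).2
  ex_le := fun z r x f hx hf =>
    ⟨fun hx0 => (SupA.ex_gen c K h hl z (Iic 0) (Iic r) (Iic r) x f hx subset_rfl hx0
        (fun p hp p' hp' => by simp only [mem_Iic] at *; linarith) hf).2,
      fun hx0 => (SupA.ex_gen c K h hl z (Iio 0) (Iic r) (Iio r) x f hx Iio_subset_Iic_self hx0
        (fun p hp p' hp' => by simp only [mem_Iic, mem_Iio] at *; linarith) hf).1⟩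
  ex_lt := fun z r x f hx hf hx0 =>
    (SupA.ex_gen c K h hl z (Iic 0) (Iio r) (Iio r) x f hx subset_rfl hx0
      (fun p hp p' hp' => by simp only [mem_Iic, mem_Iio] at *; linarith) hf).2
  in_add := fun S M hM =>
    ⟨fun a => by rw [map_zero]; exact hM.zero,
      fun f g hf hg => ⟨fun a => by rw [map_add]; exact hM.add _ (hf a) _ (hg a),
        fun a => by rw [map_sub]; exact hM.sub (hf a) (hg a)⟩,
      fun t f ht hf a => by rw [map_smul, smul_eq_mul]; exact hM.mul _ ht _ (hf a),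
      fun t f ht hf a => by rw [map_smul, smul_eq_mul, mul_comm]; exact hM.mul _ (hf a) _ ht,
      fun t f hf a => by rw [map_sum]; exact hM.sum _ _ fun i hi => hf i hi a⟩
  in_lie := SupA.in_lie c K h
  in_smul := SupA.in_smul c K hl
  in_T := SupA.in_T c K hl
  in_dd := fun S M f hM hf a => by
    rw [hl.co_dd]
    exact hM.mul _ (intCast_mem S _) _ (hf a)
  in_mon := fun M m x h0 =>
    ⟨fun hf i => by
      have := hf (m, i)
      rwa [c.co_mon, if_pos rfl] at this, fun hx a => by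
      rw [c.co_mon]
      split_ifs
      · exact hx _
      · exact h0⟩
  in_cf := fun M f =>
    ⟨fun hf m i => by rw [c.co_cf]; exact hf _, fun hf a => by
      have := hf a.1 a.2
      rwa [c.co_cf] at this⟩
  in_ev := SupA.in_ev c K hl
  in_lift := SupA.in_lift c K
  prim := fun V f hf => by
    obtain ⟨t, ht, h1, a, h2⟩ := SupA.prim_gen K V ((c.BB K).repr f) (by simpa using hf)
    refine ⟨t, ht, fun b => ?_, a, ?_⟩
    · rw [map_smul, smul_eq_mul, c.co_repr]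
      exact h1 b
    · rw [map_smul, smul_eq_mul, c.co_repr]
      exact h2
  prim0 := fun V x hx => by
    obtain ⟨t, ht, h1, a, h2⟩ := SupA.prim_gen K V ((c.bs K).repr x) (by simpa using hx)
    refine ⟨t, ht, fun b => ?_, a, ?_⟩
    · rw [map_smul, smul_eq_mul, c.crd_eq]
      exact h1 b
    · rw [map_smul, smul_eq_mul, c.crd_eq]
      exact h2
  arch := SupA.arch c K

end Pool.Agent.P.MP_e7d440_ag.U
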