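import Pool.Agent.P.MP_e7d440_ag.U.Iface2

/-! Walls of alcoves. -/

namespace Pool.Agent.P.MP_e7d440_ag.U

open TensorProduct LieAlgebra LaurentPolynomial Set

variable {L Φ Δ : Type} [LieRing L] [LieAlgebra ℚ L] [Fintype Φ] [Fintype Δ] [DecidableEq Φ]
  [DecidableEq Δ] (c : CD L Φ Δ) {K : Type} [Field K] [CharZero K] (ζ : K)

namespace WallA

variable {c ζ}

lemma sim_val (h : T2b c ζ) {a b : Φ × ℤ} (hs : c.Sim a b) {z : L} (hz : c.Fix z) :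
    c.val a z = c.val b z := (h.orb.sim_iff a b).1 hs z hz

lemma sim_ng' (h : T2b c ζ) (a b : Φ × ℤ) : c.Sim (c.ng a) b ↔ c.Sim a (c.ng b) := by
  rw [← h.rt1.sim_ng a, h.rt1.ng_ng]

lemma pos_or (h : T2b c ζ) {z : L} (hz : c.Reg ζ z) {a : Φ × ℤ} (ha : c.Valid ζ a) :
    0 < c.val a z ∨ (c.Valid ζ (c.ng a) ∧ 0 < c.val (c.ng a) z) := by
  rcases lt_or_gt_of_ne (hz.2 a ha) with h1 | h1
  · exact Or.inr ⟨h.rt1.valid_ng a ha, by rw [c.val_ng]; linarith⟩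
  · exact Or.inl h1

lemma reg_int (h : T2b c ζ) (w : L) (hw : c.Fix w) (hi : ∀ α, ∃ n : ℤ, c.al α w = n) :
    c.Reg ζ (c.ρ + w) := by
  refine ⟨c.fix_ρ.add hw, fun a _ h0 => ?_⟩
  obtain ⟨n, hn⟩ := hi a.1
  rw [CD.val, map_add, hn] at h0
  refine h.cd.ρ_int a.1 (n + a.2) ?_
  push_cast
  linarith

lemma same_of (h : T2b c ζ) (z z' : L) (hz : c.Reg ζ z)
    (hp : ∀ a, c.Valid ζ a → 0 < c.val a z → 0 < c.val a z') : c.Same ζ z z' := by
  refine fun a ha => ⟨hp a ha, fun h1 => (pos_or h hz ha).resolve_right fun h2 => ?_⟩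
  have := hp _ h2.1 h2.2
  rw [c.val_ng] at this
  linarith

lemma same_neg (h : T2b c ζ) (z z' : L) (a : Φ × ℤ) (hs : c.Same ζ z z') (ha : c.Valid ζ a) :
    c.val a z < 0 ↔ c.val a z' < 0 := by
  have := hs _ (h.rt1.valid_ng a ha)
  rwa [c.val_ng, c.val_ng, neg_pos, neg_pos] at this

lemma adj_symm (h : T2b c ζ) (z z₁ : L) (b : Φ × ℤ) (ha : c.Adj ζ z z₁ b) :
    c.Adj ζ z₁ z (c.ng b) where
  reg := ha.reg₁
  reg₁ := ha.reg
  valid := h.rt1.valid_ng b ha.valid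
  pos := by rw [c.val_ng]; linarith [ha.neg]
  neg := by rw [c.val_ng]; linarith [ha.pos]
  oth := fun a hv hs hp => (pos_or h ha.reg hv).resolve_right fun h2 => by
    have := ha.oth _ h2.1 (fun h3 => hs ((sim_ng' h a b).1 h3)) h2.2
    rw [c.val_ng] at this
    linarith

lemma adj_on (h : T2b c ζ) (z z₁ : L) (b : Φ × ℤ) (ha : c.Adj ζ z z₁ b) :
    ∃ x, c.OnW ζ z x b ∧ c.OnW ζ z₁ x (c.ng b) := by
  have hp := ha.pos
  have hn := ha.neg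
  have hd : 0 < c.val b z - c.val b z₁ := by linarith
  obtain ⟨θ, hθ⟩ : ∃ θ, θ = c.val b z / (c.val b z - c.val b z₁) := ⟨_, rfl⟩
  have h0 : 0 < θ := hθ ▸ div_pos hp hd
  have h1 : θ < 1 := hθ ▸ (div_lt_one hd).2 (by linarith)
  have hv : ∀ a, c.val a (z + θ • (z₁ - z)) = (1 - θ) * c.val a z + θ * c.val a z₁ := fun a => by
    simp only [CD.val, map_add, map_smul, map_sub, smul_eq_mul]
    ring
  have hx : c.Fix (z + θ • (z₁ - z)) := ha.reg.1.add ((ha.reg₁.1.sub ha.reg.1).smul θ)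
  have hz : c.val b (z + θ • (z₁ - z)) = 0 := by
    rw [hv, hθ]
    field_simp
    ring
  have hpos : ∀ a, 0 < c.val a z → 0 < c.val a z₁ → 0 < c.val a (z + θ • (z₁ - z)) :=
    fun a h2 h3 => by
      rw [hv]
      exact add_pos (mul_pos (by linarith) h2) (mul_pos h0 h3)
  have ha' := adj_symm h z z₁ b ha
  exact ⟨z + θ • (z₁ - z), ⟨ha.reg, hx, ha.valid, hp, hz, fun a h2 h3 h4 =>
    hpos a h4 (ha.oth a h2 h3 h4)⟩, ⟨ha'.reg, hx, ha'.valid, ha'.pos, by rw [c.val_ng, hz, neg_zero],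
    fun a h2 h3 h4 => hpos a (ha'.oth a h2 h3 h4) h4⟩⟩

lemma cl_on (h : T2b c ζ) (z x : L) (b : Φ × ℤ) (ho : c.OnW ζ z x b) : c.Cl ζ z x := by
  refine ⟨ho.fix, fun a ha hp => ?_⟩
  by_cases hs : c.Sim a b
  · rw [sim_val h hs ho.fix, ho.zero]
  · exact (ho.oth a ha hs hp).le

lemma cl_lt (h : T2b c ζ) {z x : L} (hz : c.Reg ζ z) (hc : c.Cl ζ z x) {a : Φ × ℤ}
    (ha : c.Valid ζ a) (hp : 0 < c.val a x) : 0 < c.val a z :=
  (pos_or h hz ha).resolve_right fun h2 => by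
    have := hc.2 _ h2.1 h2.2
    rw [c.val_ng] at this
    linarith

lemma on_rf (h : T2b c ζ) (z x : L) (b : Φ × ℤ) (ho : c.OnW ζ z x b) :
    c.Adj ζ z (c.rf b z) b ∧ c.OnW ζ (c.rf b z) x (c.ng b) := by
  have hl := h.psi.la b 1
  have hm := h.psi.mono b 1 ho.valid one_ne_zero
  have hn : c.val b (c.rf b z) < 0 := by rw [h.orb.rf_val]; linarith [ho.pos]
  have ha : c.Adj ζ z (c.rf b z) b := by
    refine ⟨ho.reg, h.mono.reg _ _ z hl hm ho.reg, ho.valid, ho.pos, hn, fun a hv hs hp => ?_⟩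
    obtain ⟨a', hv', he⟩ := h.mono.root' _ _ a hl hm hv
    rw [he z ho.reg.1]
    refine cl_lt h ho.reg (cl_on h z x b ho) hv' ?_
    rw [← he x ho.fix, h.orb.rf_wall b x ho.zero]
    exact ho.oth a hv hs hp
  have ha' := adj_symm h _ _ _ ha
  refine ⟨ha, ha'.reg, ho.fix, ha'.valid, ha'.pos, by rw [c.val_ng, ho.zero, neg_zero],
    fun a hv hs hp => ho.oth a hv (fun h2 => ?_) (ha'.oth a hv hs hp)⟩
  rw [sim_val h h2 ha.reg₁.1] at hp
  linarith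

lemma same_adj (h : T2b c ζ) (z z₁ z₂ : L) (b : Φ × ℤ) (h1 : c.Adj ζ z z₁ b)
    (h2 : c.Adj ζ z z₂ b) : c.Same ζ z₁ z₂ := by
  refine same_of h _ _ h1.reg₁ fun a hv hp => ?_
  by_cases hs : c.Sim a (c.ng b)
  · rw [sim_val h hs h2.reg₁.1, c.val_ng]
    linarith [h2.neg]
  · refine h2.oth a hv (fun h3 => ?_) ((adj_symm h _ _ _ h1).oth a hv hs hp)
    rw [sim_val h h3 h1.reg₁.1] at hp
    linarith [h1.neg]

lemma same_rf1 (h : T2b c ζ) (z z₁ : L) (b : Φ × ℤ) (ha : c.Adj ζ z z₁ b) :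
    c.Same ζ (c.rf b z) z₁ := by
  obtain ⟨x, hx, -⟩ := adj_on h z z₁ b ha
  exact same_adj h z _ _ b (on_rf h z x b hx).1 ha

/-- transfer of supports between two points -/
lemma sup_tr (h : T2b c ζ) {z z' : L} {P : Set ℚ} {f : LG L K} (hf : f ∈ c.Eqv ζ)
    (hp : ∀ a, c.Valid ζ a → c.val a z ∈ P → c.val a z' ∈ P) (hs : f ∈ c.Sup z P) :
    f ∈ c.Sup z' P := by
  rintro ⟨m, i⟩ ha
  have h1 := hs _ ha
  cases i with
  | inl α => exact hp (α, m) (h.rt2.of_co f hf (α, m) ha) h1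
  | inr i =>
    rw [CD.wt_inr] at h1 ⊢
    exact h1

lemma co_sub_pr (p : ℤ × (Φ ⊕ Δ) → Prop) (f : LG L K) (a : ℤ × (Φ ⊕ Δ))
    (ha : c.co a (f - c.pr p f) ≠ 0) : ¬ p a ∧ c.co a f ≠ 0 := by
  rw [map_sub, c.co_pr] at ha
  split_ifs at ha with h1
  · exact absurd (sub_self _) ha
  · exact ⟨h1, by rwa [sub_zero] at ha⟩

lemma reg_ne (h : T2b c ζ) (z : L) (hz : c.Reg ζ z) (f : LG L K) (hf : f ∈ c.Eqv ζ)
    (a : ℤ × (Φ ⊕ Δ)) (h1 : ¬ CD.Hz a) (h2 : c.co a f ≠ 0) : c.wt z a ≠ 0 := by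
  obtain ⟨m, i⟩ := a
  cases i with
  | inl α => exact hz.2 (α, m) (h.rt2.of_co f hf (α, m) h2)
  | inr i =>
    rw [CD.wt_inr]
    exact fun h3 => h1 ⟨by exact_mod_cast h3, i, rfl⟩

lemma pos_dec (h : T2b c ζ) (z x : L) (b : Φ × ℤ) (ho : c.OnW ζ z x b) (f : LG L K)
    (hf : f ∈ c.Eqv ζ) (hs : f ∈ c.Sup z (Ioi 0)) : f - c.cE b f • c.E ζ b ∈ c.Sup x (Ioi 0) := by
  rw [← h.rt2.pure f hf]
  rintro ⟨m, i⟩ ha
  obtain ⟨h1, h2⟩ := co_sub_pr _ _ _ ha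
  have h3 := hs _ h2
  cases i with
  | inl α =>
    exact ho.oth (α, m) (h.rt2.of_co f hf (α, m) h2)
      (fun h4 => h1 ((h.rt1.ty_ix b (α, m)).2 (h.rt1.sim_symm _ _ h4))) h3
  | inr i =>
    rw [CD.wt_inr] at h3 ⊢
    exact h3

lemma zero_dec (h : T2b c ζ) (z x : L) (b : Φ × ℤ) (ho : c.OnW ζ z x b) (f : LG L K)
    (hf : f ∈ c.Eqv ζ) (hs : f ∈ c.Sup x (Ici 0)) :
    f - c.cE b f • c.E ζ b - c.cE (c.ng b) f • c.F ζ b - c.pr CD.Hz f ∈ c.Sup x (Ioi 0) := by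
  classical
  rw [CD.F, ← h.rt2.pure f hf, ← h.rt2.pure f hf]
  rintro ⟨m, i⟩ ha
  rw [map_sub, map_sub, map_sub, c.co_pr, c.co_pr, c.co_pr] at ha
  have h2 : c.co (m, i) f ≠ 0 := fun h0 => ha (by simp only [h0, ite_self, sub_self])
  have h3 : 0 ≤ c.wt x (m, i) := hs _ h2
  refine lt_of_le_of_ne h3 (Ne.symm fun h0 => ?_)
  cases i with
  | inl α =>
    have e1 := h.rt1.ty_ix b (α, m)
    have e2 := h.rt1.ty_ix (c.ng b) (α, m)
    have e3 : ¬ CD.Hz (Φ := Φ) (Δ := Δ) (m, .inl α) := fun h4 => by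
      obtain ⟨-, j, hj⟩ := h4
      exact Sum.inl_ne_inr hj
    have hv := h.rt2.of_co f hf (α, m) h2
    have h0' : c.val (α, m) x = 0 := h0
    rw [if_neg e3, sub_zero] at ha
    by_cases s1 : c.Sim b (α, m)
    · have s2 : ¬ c.Sim (c.ng b) (α, m) := fun h4 =>
        h.rt1.not_sim_ng b (h.rt1.sim_trans _ _ _ s1 (h.rt1.sim_symm _ _ h4))
      rw [if_pos (e1.2 s1), if_neg (fun h4 => s2 (e2.1 h4)), sub_self, sub_self] at ha
      exact ha rfl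
    · by_cases s2 : c.Sim (c.ng b) (α, m)
      · rw [if_neg (fun h4 => s1 (e1.1 h4)), if_pos (e2.2 s2), sub_zero, sub_self] at ha
        exact ha rfl
      · rcases pos_or h ho.reg hv with h4 | ⟨h4, h5⟩
        · exact (ho.oth _ hv (fun h5 => s1 (h.rt1.sim_symm _ _ h5)) h4).ne' h0'
        · have := ho.oth _ h4 (fun h6 => s2 (h.rt1.sim_symm _ _ ((sim_ng' h _ _).1 h6))) h5
          rw [c.val_ng, h0', neg_zero] at this
          exact lt_irrefl _ this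
  | inr i =>
    have e1 : ∀ a, ¬ c.Ty a (m, .inr i) := fun a h4 => by
      obtain ⟨-, j, hj, -⟩ := h4
      exact Sum.inr_ne_inl hj
    rw [CD.wt_inr] at h0
    rw [if_neg (e1 _), if_neg (e1 _), if_pos ⟨by exact_mod_cast h0, i, rfl⟩, sub_zero, sub_zero,
      sub_self] at ha
    exact ha rfl

lemma wall_lt (h : T2b c ζ) (z x : L) (b : Φ × ℤ) (ho : c.OnW ζ z x b) : c.val b z < c.ℓ := by
  have hl : (0 : ℚ) < c.ℓ := by exact_mod_cast c.ℓ_pos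
  have hv : c.Valid ζ (b.1, b.2 - c.ℓ) := by
    refine (h.rt1.valid_per b.1 b.2 _ ho.valid).2 ?_
    rw [sub_sub_cancel_left, dvd_neg, ← h.orb.per_mul b.1]
    push_cast
    exact dvd_mul_right _ _
  have he : ∀ w, c.val (b.1, b.2 - c.ℓ) w = c.val b w - c.ℓ := fun w => by
    simp only [CD.val]
    push_cast
    ring
  by_contra hc
  have h1 : 0 < c.val (b.1, b.2 - c.ℓ) z :=
    lt_of_le_of_ne (by rw [he]; linarith) (ho.reg.2 _ hv).symm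
  have h2 := ho.oth _ hv (fun hs => by
    have h3 := hs.1
    have := c.ℓ_pos
    dsimp only at h3
    omega) h1
  rw [he, ho.zero] at h2
  linarith

lemma psi_conj (h : T2b c ζ) (b b' : Φ × ℤ) (t t' : K) (ψ : LP K) (g : Op L K) (z : L)
    (hb : c.Valid ζ b) (hb' : b' = b ∨ b' = c.ng b) (ht : t ≠ 0) (ht' : t' ≠ 0) (hz : c.Fix z)
    (hg : c.Aut0 ζ ψ g z) : c.Aut0 ζ ψ (c.psi ζ b t * g * c.psi ζ b' t') (c.rf b z) := by
  have h1 := h.la.aut_right ψ _ _ _ (h.mono.conj _ _ _ ψ g z (h.psi.la b t)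
    (h.psi.mono b t hb ht) (h.psi.inv b t).1 hz hg)
    (h.psi.tor b b' t t' hb hb' ht ht' _ (h.orb.rf_fix b z hz))
  rwa [mul_assoc _ (c.psi ζ b (-t)), ← mul_assoc (c.psi ζ b (-t)), (h.psi.inv b t).2,
    one_mul] at h1

end WallA

theorem wall (h : T2b c ζ) : S_wall c ζ where
  reg_ρ := ⟨c.fix_ρ, fun a _ => h.cd.ρ_int a.1 a.2⟩
  reg_int := WallA.reg_int h
  same_refl := fun _ _ _ => Iff.rfl
  same_symm := fun _ _ hs a ha => (hs a ha).symm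
  same_trans := fun _ _ _ hs hs' a ha => (hs a ha).trans (hs' a ha)
  same_of := WallA.same_of h
  same_neg := WallA.same_neg h
  adj_on := WallA.adj_on h
  adj_symm := WallA.adj_symm h
  on_rf := WallA.on_rf h
  same_adj := WallA.same_adj h
  same_rf := fun z z₁ b ha => ⟨WallA.same_rf1 h z z₁ b ha, by
    rw [← h.orb.rf_ng]
    exact WallA.same_rf1 h _ _ _ (WallA.adj_symm h _ _ _ ha)⟩
  adj_left := fun _ _ _ b h0 hs ha => ⟨h0, ha.reg₁, ha.valid, (hs b ha.valid).2 ha.pos, ha.neg,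
    fun a hv h1 hp => ha.oth a hv h1 ((hs a hv).1 hp)⟩
  cl_on := WallA.cl_on h
  cl_self := fun _ hz => ⟨hz, fun _ _ hp => hp.le⟩
  cl_same := fun _ _ _ hs hc => ⟨hc.1, fun a ha hp => hc.2 a ha ((hs a ha).2 hp)⟩
  cl_pos := fun _ _ hz hc _ hf => ⟨WallA.sup_tr h hf fun _ ha hp => WallA.cl_lt h hz hc ha hp,
    WallA.sup_tr h hf fun a ha hp => hc.2 a ha (lt_of_le_of_ne hp (hz.2 a ha).symm)⟩
  same_pos := fun z z' hs _ hf => ⟨WallA.sup_tr h hf fun a ha hp => (hs a ha).1 hp,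
    WallA.sup_tr h hf fun a ha hp => (WallA.same_neg h z z' a hs ha).1 hp⟩
  reg_zero := fun z hz f hf => ⟨fun hs a ha => by
      obtain ⟨h1, h2⟩ := WallA.co_sub_pr _ _ _ ha
      exact lt_of_le_of_ne (hs a h2) (WallA.reg_ne h z hz f hf a h1 h2).symm,
    fun hs a ha => by
      obtain ⟨h1, h2⟩ := WallA.co_sub_pr _ _ _ ha
      exact lt_of_le_of_ne (hs a h2) (WallA.reg_ne h z hz f hf a h1 h2)⟩
  pos_dec := WallA.pos_dec h
  zero_dec := WallA.zero_dec h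
  wall_lt := WallA.wall_lt h
  psi_conj := WallA.psi_conj h

end Pool.Agent.P.MP_e7d440_ag.U
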