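import Pool.Agent.P.MP_e7d440_ag.U.Iface2

/-! Existence of a separating wall. -/

namespace Pool.Agent.P.MP_e7d440_ag.U

open TensorProduct LieAlgebra LaurentPolynomial Set

variable {L Φ Δ : Type} [LieRing L] [LieAlgebra ℚ L] [Fintype Φ] [Fintype Δ] [DecidableEq Φ]
  [DecidableEq Δ] (c : CD L Φ Δ) {K : Type} [Field K] [CharZero K] (ζ : K)

namespace WexA

omit [Fintype Φ] [Fintype Δ] [DecidableEq Φ] [DecidableEq Δ] in
lemma val_add (a : Φ × ℤ) (x u : L) (t : ℚ) :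
    c.val a (x + t • u) = c.val a x + t * c.al a.1 u := by
  simp only [CD.val, map_add, map_smul, smul_eq_mul]
  ring

omit [Fintype Φ] [Fintype Δ] [DecidableEq Φ] [DecidableEq Δ] in
lemma al_sub (a : Φ × ℤ) (x u : L) : c.al a.1 (x - u) = c.val a x - c.val a u := by
  simp only [CD.val, map_sub]
  ring

omit [Fintype Δ] [DecidableEq Φ] [DecidableEq Δ] in
lemma near (x u : L) : ∃ t : ℚ, 0 < t ∧ ∀ a, (0 < c.val a x → 0 < c.val a (x + t • u)) ∧
    (c.val a x < 0 → c.val a (x + t • u) < 0) := by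
  have h1 : ∀ α, ∀ᶠ t in nhds (0 : ℚ), 0 < c.al α x + 1 - ⌈c.al α x⌉ + t * c.al α u := fun α => by
    have := Int.ceil_lt_add_one (c.al α x)
    exact continuousAt_const.eventually_lt (by fun_prop) (by simp only [zero_mul]; linarith)
  obtain ⟨t, h2, h3⟩ := (((Filter.eventually_all.2 h1).filter_mono nhdsWithin_le_nhds).and
    (self_mem_nhdsWithin (s := Ioi (0 : ℚ)))).exists
  have key : ∀ a, 0 < c.val a x → 0 < c.val a (x + t • u) := fun a ha => by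
    have a1 := h2 a.1
    have a2 : -a.2 < ⌈c.al a.1 x⌉ := Int.lt_ceil.2 (by simp only [CD.val] at ha; push_cast; linarith)
    have a3 : (1 : ℚ) - ⌈c.al a.1 x⌉ ≤ a.2 := by exact_mod_cast (by omega : 1 - ⌈c.al a.1 x⌉ ≤ a.2)
    rw [val_add, CD.val]
    linarith
  refine ⟨t, h3, fun a => ⟨key a, fun ha => ?_⟩⟩
  have := key (c.ng a) (by rw [c.val_ng]; linarith)
  rw [c.val_ng] at this
  linarith

/-- the walls between two points -/
def Sep (z w : L) : Set (Φ × ℤ) := {a | c.Valid ζ a ∧ 0 < c.val a z ∧ c.val a w < 0}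

omit [Fintype Δ] [DecidableEq Φ] [DecidableEq Δ] in
lemma fin (z w : L) : (Sep c ζ z w).Finite := by
  refine (finite_iUnion fun α => (finite_singleton α).prod
    (finite_Icc ⌊-c.al α z⌋ ⌈-c.al α w⌉)).subset fun a ha => mem_iUnion.2 ⟨a.1, rfl, ?_, ?_⟩
  · have := ha.2.1
    exact Int.floor_le_iff.2 (by simp only [CD.val] at this; linarith)
  · have := ha.2.2
    exact Int.le_ceil_iff.2 (by simp only [CD.val] at this; linarith)

lemma split (h : T2b c ζ) {z w : L} (hz : c.Fix z) (hw : c.Fix w) {a a' : Φ × ℤ}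
    (ha : a ∈ Sep c ζ z w) (ha' : a' ∈ Sep c ζ z w) (hn : ¬ c.Sim a a') :
    ∃ y, c.Fix y ∧ (∀ b, 0 < c.val b z → 0 < c.val b w → 0 < c.val b y) ∧
      c.val a y * c.val a' y < 0 := by
  obtain ⟨v1, p1, n1⟩ := ha
  obtain ⟨v2, p2, n2⟩ := ha'
  have hD : 0 < c.val a z - c.val a w := by linarith
  obtain ⟨θ, t1, t2, t3⟩ : ∃ θ : ℚ, 0 < θ ∧ θ < 1 ∧ θ * (c.val a z - c.val a w) = c.val a z :=
    ⟨_, div_pos p1 hD, (div_lt_one hD).2 (by linarith), div_mul_cancel₀ _ hD.ne'⟩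
  obtain ⟨x, hx, x1, x2⟩ : ∃ x, c.Fix x ∧ c.val a x = 0 ∧
      ∀ b, 0 < c.val b z → 0 < c.val b w → 0 < c.val b x := by
    refine ⟨z + θ • (w - z), hz.add ((hw.sub hz).smul θ), ?_, fun b b1 b2 => ?_⟩
    · rw [val_add, al_sub]
      linarith
    · rw [val_add, al_sub]
      nlinarith
  suffices ∃ u, c.Fix u ∧ ∀ t : ℚ, 0 < t → (0 < c.val a' x → 0 < c.val a' (x + t • u)) →
      (c.val a' x < 0 → c.val a' (x + t • u) < 0) →
        c.val a (x + t • u) * c.val a' (x + t • u) < 0 by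
    obtain ⟨u, hu, h1⟩ := this
    obtain ⟨t, ht, h2⟩ := near c x u
    exact ⟨_, hx.add (hu.smul t), fun b b1 b2 => (h2 b).1 (x2 b b1 b2),
      h1 t ht (h2 a').1 (h2 a').2⟩
  rcases lt_trichotomy (c.val a' x) 0 with h0 | h0 | h0
  · refine ⟨z - w, hz.sub hw, fun t ht _ h2 => mul_neg_of_pos_of_neg ?_ (h2 h0)⟩
    rw [val_add, al_sub, x1, zero_add]
    exact mul_pos ht hD
  · obtain ⟨v, hv, h1⟩ : ∃ v, c.Fix v ∧ c.val a' v ≠ c.val a' z / c.val a z * c.val a v := by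
      by_contra hc
      push Not at hc
      exact hn (h.rt2.red a a' _ v1 v2 (div_pos p2 p1) hc)
    have h2 : c.val a v / c.val a z - c.val a' v / c.val a' z ≠ 0 := fun e => h1 (by
      field_simp at e ⊢
      linarith)
    refine ⟨v - x + (-(c.val a v / c.val a z + c.val a' v / c.val a' z) / 2) • (z - x),
      (hv.sub hx).add ((hz.sub hx).smul _), fun t ht _ _ => ?_⟩
    simp only [val_add, map_add, map_smul, al_sub, x1, h0, smul_eq_mul, zero_add, sub_zero]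
    have h3 := mul_pos (mul_pos (mul_pos ht ht) (mul_pos p1 p2)) (sq_pos_of_ne_zero h2)
    have e1 : c.val a v = c.val a v / c.val a z * c.val a z := (div_mul_cancel₀ _ p1.ne').symm
    have e2 : c.val a' v = c.val a' v / c.val a' z * c.val a' z := (div_mul_cancel₀ _ p2.ne').symm
    generalize c.val a v / c.val a z = p at *
    generalize c.val a' v / c.val a' z = q at *
    rw [e1, e2]
    linarith
  · refine ⟨w - z, hw.sub hz, fun t ht h2 _ => mul_neg_of_neg_of_pos ?_ (h2 h0)⟩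
    rw [val_add, al_sub, x1, zero_add]
    exact mul_neg_of_pos_of_neg ht (by linarith)

lemma step (h : T2b c ζ) {z w : L} (hz : c.Reg ζ z) (hw : c.Reg ζ w) {a a' : Φ × ℤ}
    (ha : a ∈ Sep c ζ z w) (ha' : a' ∈ Sep c ζ z w) (hn : ¬ c.Sim a a') :
    ∃ y, c.Reg ζ y ∧ (Sep c ζ z y).Nonempty ∧ Sep c ζ z y ⊂ Sep c ζ z w := by
  obtain ⟨y, hy, h1, h2⟩ := split c ζ h hz.1 hw.1 ha ha' hn
  obtain ⟨t, ht, h3⟩ := near c y (z - y)
  have sub : Sep c ζ z (y + t • (z - y)) ⊆ Sep c ζ z w := fun b hb =>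
    ⟨hb.1, hb.2.1, lt_of_le_of_ne (not_lt.1 fun e =>
      lt_asymm hb.2.2 ((h3 b).1 (h1 b hb.2.1 e))) (hw.2 b hb.1)⟩
  refine ⟨y + t • (z - y), ⟨hy.add ((hz.1.sub hy).smul t), fun b hb => ?_⟩, ?_, sub, fun e => ?_⟩
  · rcases lt_trichotomy (c.val b y) 0 with h0 | h0 | h0
    · exact ((h3 b).2 h0).ne
    · rw [val_add, al_sub, h0, zero_add, sub_zero]
      exact mul_ne_zero ht.ne' (hz.2 b hb)
    · exact ((h3 b).1 h0).ne'
  · rcases mul_neg_iff.1 h2 with h4 | h4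
    · exact ⟨a', ha'.1, ha'.2.1, (h3 a').2 h4.2⟩
    · exact ⟨a, ha.1, ha.2.1, (h3 a).2 h4.1⟩
  · rcases mul_neg_iff.1 h2 with h4 | h4
    · exact lt_asymm (e ha).2.2 ((h3 a).1 h4.1)
    · exact lt_asymm (e ha').2.2 ((h3 a').1 h4.2)

end WexA

theorem wex (h : T2b c ζ) : S_wex c ζ := by
  intro z z' hz hz' hn
  have h0 : (WexA.Sep c ζ z z').Nonempty := by
    by_contra hc
    refine hn fun a ha => ⟨fun h1 => lt_of_le_of_ne (not_lt.1 fun h2 => hc ⟨a, ha, h1, h2⟩)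
      (hz'.2 a ha).symm, fun h1 => lt_of_le_of_ne (not_lt.1 fun h2 => hc
        ⟨c.ng a, h.rt1.valid_ng a ha, ?_, ?_⟩) (hz.2 a ha).symm⟩ <;> rw [c.val_ng] <;> linarith
  have key : ∀ n : ℕ, ∀ w, (WexA.Sep c ζ z w).ncard < n → c.Reg ζ w → (WexA.Sep c ζ z w).Nonempty →
      ∃ b z₁, c.Adj ζ z z₁ b ∧ c.val b w < 0 := by
    intro n
    induction n with
    | zero => exact fun w hw => absurd hw (Nat.not_lt_zero _)
    | succ n ih =>
      intro w hc hw ⟨b, hb⟩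
      by_cases h1 : ∀ a ∈ WexA.Sep c ζ z w, c.Sim a b
      · exact ⟨b, w, ⟨hz, hw, hb.1, hb.2.1, hb.2.2, fun a a1 a2 a3 => lt_of_le_of_ne
          (not_lt.1 fun e => a2 (h1 a ⟨a1, a3, e⟩)) (hw.2 a a1).symm⟩, hb.2.2⟩
      push Not at h1
      obtain ⟨a, ha, h1⟩ := h1
      obtain ⟨y, y1, y2, y3⟩ := WexA.step c ζ h hz hw ha hb h1
      have := ncard_lt_ncard y3 (WexA.fin c ζ z w)
      obtain ⟨b', z₁, h2, h3⟩ := ih y (by omega) y1 y2
      exact ⟨b', z₁, h2, (y3.1 ⟨h2.valid, h2.pos, h3⟩).2.2⟩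
  exact key _ z' (Nat.lt_succ_self _) hz' h0

end Pool.Agent.P.MP_e7d440_ag.U
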