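import Pool.Agent.P.MP_e7d440_ag.U.Iface2

/-! Integrality of affine root subgroups. -/

namespace Pool.Agent.P.MP_e7d440_ag.U

open TensorProduct LieAlgebra LaurentPolynomial Set

variable {L Φ Δ : Type} [LieRing L] [LieAlgebra ℚ L] [Fintype Φ] [Fintype Δ] [DecidableEq Φ]
  [DecidableEq Δ] (c : CD L Φ Δ) {K : Type} [Field K] [CharZero K] (ζ : K)

namespace XiA

variable {R : Type} [CommRing R] [Algebra ℚ R]

/-- vectors of weight `p` times the restricted root -/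
def Wt (α : Φ) (p : ℚ) (x : G L R) : Prop := ∀ z, c.Fix z → x ∈ c.Gr z {p * c.al α z}

variable {c}

lemma Wt.lie (h : T0 c) {α : Φ} {p q : ℚ} {x y : G L R} (hx : Wt c α p x) (hy : Wt c α q y) :
    Wt c α (p + q) ⁅x, y⁆ := fun z hz =>
  h.gk.gr_lie z _ _ _ x y (hx z hz) (hy z hz) fun a ha b hb => by
    rw [mem_singleton_iff] at ha hb ⊢
    rw [ha, hb]; ring

omit [Fintype Φ] [Fintype Δ] [DecidableEq Φ] [DecidableEq Δ] in
lemma Wt.smul {α : Φ} {p : ℚ} {x : G L R} (r : R) (hx : Wt c α p x) : Wt c α p (r • x) :=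
  fun z hz => Submodule.smul_mem _ r (hx z hz)

omit [Fintype Φ] [Fintype Δ] [DecidableEq Φ] [DecidableEq Δ] in
lemma Wt.add {α : Φ} {p : ℚ} {x y : G L R} (hx : Wt c α p x) (hy : Wt c α p y) :
    Wt c α p (x + y) := fun z hz => add_mem (hx z hz) (hy z hz)

omit [Fintype Φ] [Fintype Δ] [DecidableEq Φ] [DecidableEq Δ] in
lemma Wt.sum {α : Φ} {p : ℚ} {ι : Type} (T : Finset ι) (x : ι → G L R)
    (hx : ∀ i ∈ T, Wt c α p (x i)) : Wt c α p (∑ i ∈ T, x i) :=
  fun z hz => Submodule.sum_mem _ fun i hi => hx i hi z hz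

omit [Fintype Φ] [Fintype Δ] [DecidableEq Φ] [DecidableEq Δ] in
lemma Wt.inr {α : Φ} {p : ℚ} {x : G L R} (hp : p ≠ 0) (hx : Wt c α p x) (i : Δ) :
    c.crd (.inr i) x = 0 := by
  by_contra hne
  have h1 := hx c.ρ c.fix_ρ _ hne
  rw [mem_singleton_iff] at h1
  exact mul_ne_zero hp (c.ρ_ne α) h1.symm

omit [Fintype Φ] [Fintype Δ] [DecidableEq Φ] [DecidableEq Δ] in
lemma Wt.inl {α β : Φ} {p : ℚ} {x : G L R} (hx : Wt c α p x) (hβ : c.crd (.inl β) x ≠ 0)
    (z : L) (hz : c.Fix z) : c.al β z = p * c.al α z := hx z hz _ hβ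

lemma Wt.eq_zero (h : T0 c) {α : Φ} {p : ℚ} {x : G L R} (hp : 2 < p) (hx : Wt c α p x) :
    x = 0 := by
  refine c.ext0 fun i => ?_
  rw [map_zero]
  rcases i with β | i
  · by_contra hne
    have := h.orb.ratio α β p (by linarith) (hx.inl hne)
    linarith
  · exact hx.inr (by linarith) i

lemma Wt.nil (h : T0 c) {α : Φ} {p : ℚ} {x : G L R} (hp : 0 < p) (hx : Wt c α p x) : Nil x := by
  obtain ⟨N, hN⟩ := h.gk.nil_pos c.ρ
  refine ⟨N, hN x ?_⟩
  rcases lt_or_gt_of_ne (c.ρ_ne α) with h1 | h1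
  · refine Or.inr fun i hi => ?_
    have h2 := hx c.ρ c.fix_ρ i hi
    rw [mem_singleton_iff] at h2
    rw [h2]
    exact mul_neg_of_pos_of_neg hp h1
  · refine Or.inl fun i hi => ?_
    have h2 := hx c.ρ c.fix_ρ i hi
    rw [mem_singleton_iff] at h2
    rw [h2]
    exact mul_pos hp h1

lemma wt_bs (h : T0 c) {α β : Φ} {p : ℚ} (hβ : ∀ z, c.Fix z → c.al β z = p * c.al α z) :
    Wt c α p (c.bs R (.inl β)) := fun z hz => h.gk.gr_bs z _ _ (hβ z hz)

omit [DecidableEq Φ] [DecidableEq Δ] in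
open scoped Classical in
lemma Wt.dec {α : Φ} {p : ℚ} {x : G L R} (hp : p ≠ 0) (hx : Wt c α p x) :
    x = ∑ β ∈ Finset.univ.filter (fun β => c.crd (.inl β) x ≠ 0),
      c.crd (.inl β) x • c.bs R (.inl β) := by
  rw [Finset.sum_filter_of_ne (p := fun β => c.crd (.inl β) x ≠ 0)
    (f := fun β => c.crd (.inl β) x • c.bs R (.inl β))
    fun β _ hne h0 => hne (by rw [h0, zero_smul])]
  conv_lhs => rw [← (c.bs R).sum_repr x, Fintype.sum_sum_type]
  have : ∑ i : Δ, (c.bs R).repr x (.inr i) • c.bs R (.inr i) = 0 :=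
    Finset.sum_eq_zero fun i _ => by rw [← c.crd_eq, hx.inr hp i, zero_smul]
  rw [this, add_zero]
  rfl

/-- roots in one orbit commute when the order is odd -/
lemma comm_of_odd (h : T0 c) (h2 : ¬ 2 ∣ c.ℓ) {β β' : Φ} (hs : c.ς.SameCycle β β') :
    ⁅c.e β, c.e β'⁆ = 0 := by
  by_cases he : β' = β
  · rw [he, lie_self]
  have hn : β' ≠ c.neg β := fun hn => by
    have h1 := h.cd.fix_al c.ρ c.fix_ρ β β' hs
    rw [hn, c.al_neg, LinearMap.neg_apply] at h1
    exact c.ρ_ne β (by linarith)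
  rcases h.cd.lie_ee β β' hn with ⟨γ, hγ, -⟩ | h0
  · rcases h.orb.orb_le β β' hs he with h3 | h3
    · exfalso
      obtain ⟨δ, hδ⟩ := c.refl β γ
      have h4 : c.al γ ⁅c.bas (.inl β), c.bas (.inl (c.neg β))⁆ = 2 := by
        rw [hγ, LinearMap.add_apply, c.cor_two]
        have : c.al β' ⁅c.bas (.inl β), c.bas (.inl (c.neg β))⁆ = 0 := h3
        rw [this, add_zero]
      refine h.orb.no_sub β' β δ hs.symm ?_
      rw [hδ, h4, hγ, two_smul]
      abel
    · exact absurd (h.orb.orb_two β β' hs h3).1 h2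
  · exact h0.2

omit [Fintype Φ] [Fintype Δ] [DecidableEq Φ] [DecidableEq Δ] in
lemma in0_sum {S : Subring R} {N : Set R} (hN : SM S N) {ι : Type} (T : Finset ι)
    (x : ι → G L R) (hx : ∀ i ∈ T, c.In0 N (x i)) : c.In0 N (∑ i ∈ T, x i) := fun j => by
  rw [map_sum]
  exact hN.sum T _ fun i hi => hx i hi j

lemma in0_e (h : T0 c) {S : Subring R} {N : Set R} (hN : SM S N) {r : R} (hr : r ∈ N)
    (i : Φ ⊕ Δ) : c.In0 N (r • c.bs R i) := fun j => by
  rw [map_smul, smul_eq_mul, mul_comm]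
  exact hN.mul _ (h.gk.in_bs S i j) _ hr

section main

variable (h : T0 c) {S : Subring R} {N : Set R} (hN : SM S N)
  {Q : Module.End R (G L R) → Prop} (q1 : Q 1) (qm : ∀ g g', Q g → Q g' → Q (g * g'))
  (qe : ∀ r ∈ N, ∀ β, Q (ex (r • c.bs R (.inl β))))

include h q1 qm qe

/-- sums of commuting root vectors of weight two -/
lemma lemA {α : Φ} (r : Φ → R) (T : Finset Φ) (hr : ∀ β ∈ T, r β ∈ N)
    (hT : ∀ β ∈ T, ∀ z, c.Fix z → c.al β z = 2 * c.al α z) :
    Q (ex (∑ β ∈ T, r β • c.bs R (.inl β))) := by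
  induction T using Finset.induction_on with
  | empty => rw [Finset.sum_empty, h.ex.zero.2]; exact q1
  | insert β T hβ ih =>
    rw [Finset.sum_insert hβ]
    have hx : Wt c α 2 (r β • c.bs R (.inl β)) :=
      (wt_bs h (hT β (Finset.mem_insert_self _ _))).smul _
    have hy : Wt c α 2 (∑ β ∈ T, r β • c.bs R (.inl β)) :=
      Wt.sum _ _ fun β' hβ' => (wt_bs h (hT β' (Finset.mem_insert_of_mem hβ'))).smul _
    rw [(h.ex.add _ _ (hx.nil h two_pos) (hy.nil h two_pos)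
      ((hx.lie h hy).eq_zero h (by norm_num))).2]
    exact qm _ _ (qe _ (hr β (Finset.mem_insert_self _ _)) β)
      (ih (fun β' hβ' => hr β' (Finset.mem_insert_of_mem hβ'))
        fun β' hβ' => hT β' (Finset.mem_insert_of_mem hβ'))

lemma lemA' {α : Φ} {x : G L R} (hx : Wt c α 2 x) (hi : c.In0 N x) : Q (ex x) := by
  classical
  rw [hx.dec two_ne_zero]
  convert lemA h q1 qm qe (α := α) (fun β => c.crd (.inl β) x) _ (fun β _ => hi _)
    fun β hβ => hx.inl (Finset.mem_filter.1 hβ).2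

include hN

/-- sums of root vectors in one orbit -/
lemma lemB (hNS : N ⊆ S) (hh : 2 ∣ c.ℓ → ∀ r ∈ N, (1 / 2 : ℚ) • r ∈ N) {α : Φ} (r : Φ → R)
    (T : Finset Φ) (hr : ∀ β ∈ T, r β ∈ N)
    (hT : ∀ β ∈ T, ∀ z, c.Fix z → c.al β z = 1 * c.al α z) :
    Q (ex (∑ β ∈ T, r β • c.bs R (.inl β))) := by
  induction T using Finset.induction_on with
  | empty => rw [Finset.sum_empty, h.ex.zero.2]; exact q1
  | insert β T hβ ih =>
    rw [Finset.sum_insert hβ]
    have hb := Finset.mem_insert_self β T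
    have hx : Wt c α 1 (r β • c.bs R (.inl β)) := (wt_bs h (hT β hb)).smul _
    have hy : Wt c α 1 (∑ β ∈ T, r β • c.bs R (.inl β)) :=
      Wt.sum _ _ fun β' hβ' => (wt_bs h (hT β' (Finset.mem_insert_of_mem hβ'))).smul _
    have hxy := hx.lie h hy
    rw [h.ex.heis _ _ (hx.nil h one_pos) (hy.nil h one_pos) ((hx.add hy).nil h one_pos)
      (hxy.nil h (by norm_num)) ((hx.lie h hxy).eq_zero h (by norm_num))
      ((hy.lie h hxy).eq_zero h (by norm_num))]
    refine qm _ _ (qm _ _ (qe _ (hr β hb) β)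
      (ih (fun β' hβ' => hr β' (Finset.mem_insert_of_mem hβ'))
        fun β' hβ' => hT β' (Finset.mem_insert_of_mem hβ'))) ?_
    by_cases h2 : 2 ∣ c.ℓ
    · refine lemA' h q1 qm qe (α := α) ?_ fun i => ?_
      · rw [← neg_smul, ← algebraMap_smul R, ← one_add_one_eq_two]
        exact hxy.smul _
      · rw [map_neg, LinearMap.map_smul_of_tower]
        refine hN.neg (hh h2 _ ?_)
        exact (h.gk.in_lie S N _ _ hN (fun j => hNS (in0_e h hN (hr β hb) _ j))
          (in0_sum hN _ _ fun β' hβ' => in0_e h hN (hr β' (Finset.mem_insert_of_mem hβ')) _)).1 i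
    · have : ⁅r β • c.bs R (.inl β), ∑ β ∈ T, r β • c.bs R (.inl β)⁆ = 0 := by
        rw [lie_sum]
        refine Finset.sum_eq_zero fun β' hβ' => ?_
        have hs : c.ς.SameCycle β β' := h.orb.inj β β' fun z hz => by
          rw [hT β hb z hz, hT β' (Finset.mem_insert_of_mem hβ') z hz]
        rw [smul_lie, lie_smul, c.bs_apply, c.bs_apply, LieAlgebra.ExtendScalars.bracket_tmul,
          comm_of_odd h h2 hs, tmul_zero, smul_zero, smul_zero]
      rw [this, smul_zero, neg_zero, h.ex.zero.2]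
      exact q1

lemma lemB' (hNS : N ⊆ S) (hh : 2 ∣ c.ℓ → ∀ r ∈ N, (1 / 2 : ℚ) • r ∈ N) {α : Φ} {x : G L R}
    (hx : Wt c α 1 x) (hi : c.In0 N x) : Q (ex x) := by
  classical
  rw [hx.dec one_ne_zero]
  convert lemB h hN q1 qm qe hNS hh (α := α) (fun β => c.crd (.inl β) x) _ (fun β _ => hi _)
    fun β hβ => hx.inl (Finset.mem_filter.1 hβ).2

end main

omit [Fintype Φ] [Fintype Δ] [DecidableEq Φ] [DecidableEq Δ] in
lemma half {ζ : K} {S : Subring K} {M : Set K} (hS : c.SD ζ S) (hM : SM S M) {M' : Set (LP K)}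
    (hM' : ∀ p, p ∈ M' ↔ ∀ n, p.coeff n ∈ M) (h2 : 2 ∣ c.ℓ) (r : LP K) (hr : r ∈ M') :
    (1 / 2 : ℚ) • r ∈ M' := by
  obtain ⟨k, hk⟩ := h2
  have hk0 : (k : K) ≠ 0 := Nat.cast_ne_zero.2 fun h0 => by
    have := c.ℓ_pos
    rw [hk, h0] at this
    exact absurd this (by norm_num)
  have h1 : ((1 / 2 : ℚ) : K) ∈ S := by
    have : ((1 / 2 : ℚ) : K) = (c.ℓ : K)⁻¹ * k := by
      rw [hk]; push_cast; field_simp
    rw [this]
    exact S.mul_mem hS.2 (natCast_mem S k)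
  refine (hM' _).2 fun n => ?_
  have : ((1 / 2 : ℚ) • r).coeff n = ((1 / 2 : ℚ) : K) * r.coeff n := by
    rw [← Rat.smul_def]; rfl
  rw [this]
  exact hM.mul _ h1 _ ((hM' r).1 hr n)

end XiA

open XiA in
theorem xi (h : T1 c K) (_he : S_eqv c ζ) (h1 : S_rt1 c ζ) : S_xi c ζ := by
  intro S M a t f hS hM
  obtain ⟨S', M', hSM, hS', hM', iS, iM⟩ := h.sup.in_lift S M hM
  have hw : Wt c a.1 1 (t • c.E ζ a) := by
    rw [h.lp.smul_C]
    exact Wt.smul _ fun z hz => by rw [one_mul]; exact h1.gr a z hz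
  constructor
  · intro ht hf
    rw [← iM] at hf ⊢
    refine lemB' h.toT0 (SM.self S') (Q := fun g => ∀ y, c.In0 M' y → c.In0 M' (g y))
      (fun y hy => hy) (fun g g' hg hg' y hy => hg _ (hg' y hy))
      (fun r hr β y hy => (h.ex.in_e S' M' r β y hSM).1 hr hy) Subset.rfl
      (half hS (SM.self S) hS') hw ?_ f hf
    exact (iS _).2 ((h.sup.in_add S S (SM.self S)).2.2.1 t _ ht (h1.int S hS a))
  · intro hMS ht hf
    have hMS' : M' ⊆ S' := fun p hp => (hS' p).2 fun n => hMS ((hM' p).1 hp n)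
    rw [← iS] at hf
    rw [← iM]
    refine (lemB' h.toT0 hSM
      (Q := fun g => ∀ y, c.In0 S' y → c.In0 S' (g y) ∧ c.In0 M' (g y - y))
      (fun y hy => ⟨hy, fun i => ?_⟩) (fun g g' hg hg' y hy => ⟨(hg _ (hg' y hy).1).1, fun i => ?_⟩)
      (fun r hr β y hy => ⟨(h.ex.in_e S' S' r β y (SM.self S')).1 (hMS' hr) hy,
        (h.ex.in_e S' M' r β y hSM).2 hMS' hr hy⟩) hMS' (half hS hM hM') hw ?_ f hf).2
    · rw [Module.End.one_apply, sub_self, map_zero]
      exact hSM.zero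
    · have : (g * g') y - y = (g (g' y) - g' y) + (g' y - y) := by
        rw [Module.End.mul_apply]; abel
      rw [this, map_add]
      exact hSM.add _ ((hg _ (hg' y hy).1).2 i) _ ((hg' y hy).2 i)
    · exact (iM _).2 ((h.sup.in_add S M hM).2.2.2.1 t _ ht (h1.int S hS a))

end Pool.Agent.P.MP_e7d440_ag.U
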