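import Pool.Agent.P.MP_e7d440_ag.U.Cd
import Pool.Agent.P.MP_e7d440_ag.U.Orb
import Pool.Agent.P.MP_e7d440_ag.U.Gk
import Pool.Agent.P.MP_e7d440_ag.U.Ex
import Pool.Agent.P.MP_e7d440_ag.U.Lp
import Pool.Agent.P.MP_e7d440_ag.U.Sup
import Pool.Agent.P.MP_e7d440_ag.U.Fd
import Pool.Agent.P.MP_e7d440_ag.U.Fix
import Pool.Agent.P.MP_e7d440_ag.U.Cell
import Pool.Agent.P.MP_e7d440_ag.U.Resd
import Pool.Agent.P.MP_e7d440_ag.U.Eqv
import Pool.Agent.P.MP_e7d440_ag.U.Rt1
import Pool.Agent.P.MP_e7d440_ag.U.Rt2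
import Pool.Agent.P.MP_e7d440_ag.U.Xi
import Pool.Agent.P.MP_e7d440_ag.U.La
import Pool.Agent.P.MP_e7d440_ag.U.Psi
import Pool.Agent.P.MP_e7d440_ag.U.Wall
import Pool.Agent.P.MP_e7d440_ag.U.Wex
import Pool.Agent.P.MP_e7d440_ag.U.Gal
import Pool.Agent.P.MP_e7d440_ag.U.Aut1
import Pool.Agent.P.MP_e7d440_ag.U.Aut2
import Pool.Agent.P.MP_e7d440_ag.U.Nf
import Pool.Agent.P.MP_e7d440_ag.U.Count

/-! Assembly of the layers 0, 1, 2. -/

namespace Pool.Agent.P.MP_e7d440_ag.U

variable {L Φ Δ : Type} [LieRing L] [LieAlgebra ℚ L] [Fintype Φ] [Fintype Δ] [DecidableEq Φ]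
  [DecidableEq Δ] (c : CD L Φ Δ)

theorem t0 : T0 c := by
  have h1 : S_cd c := by apply cd
  have h2 : S_gk c := by apply gk; assumption
  exact ⟨h1, by apply orb; assumption, h2, by apply exs <;> assumption⟩

theorem t1 (K : Type) [Field K] [CharZero K] : T1 c K := by
  have h0 := t0 c
  have hr : S_resd := resd
  have h1 : S_lp c K := by apply lp; assumption
  have h2 : S_fd c K := by apply fd <;> assumption
  exact ⟨h0, h1, by apply sups <;> assumption, h2, by apply fix <;> assumption,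
    by apply cell <;> assumption, hr⟩

theorem t2 {K : Type} [Field K] [CharZero K] (ζ : K) (hz : IsPrimitiveRoot ζ c.ℓ) : T2 c ζ := by
  have h1 := t1 c K
  have a1 : S_eqv c ζ := by apply eqv <;> assumption
  have a2 : S_rt1 c ζ := by apply rt1 <;> assumption
  have ha : T2a c ζ := ⟨h1, hz, a1, a2, by apply rt2 <;> assumption, by apply xi <;> assumption⟩
  have a3 : S_la c ζ := by apply la; assumption
  have hb : T2b c ζ := ⟨ha, a3, by apply psi <;> assumption, by apply mono <;> assumption⟩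
  have hc : T2c c ζ := ⟨hb, by apply wall; assumption, by apply wex; assumption⟩
  have a4 : S_aut1 c ζ := by apply aut1; assumption
  have hd : T2d c ζ := ⟨hc, by apply gal; assumption, a4, by apply aut2 <;> assumption⟩
  exact ⟨hd, by apply nf; assumption, by apply count; assumption⟩

end Pool.Agent.P.MP_e7d440_ag.U
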