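import Pool.Agent.P.MP_e7d440_ag.Iface

/-! Internal definitions: Chevalley data, twisted loop algebras, lattices. -/

namespace Pool.Agent.P.MP_e7d440_ag.U

open TensorProduct LieAlgebra LaurentPolynomial

noncomputable section

/-- A split semisimple Lie algebra over the rationals with a Chevalley basis `bas`
(root vectors `bas (inl α)`, fundamental coweights `bas (inr i)`), a pinned automorphism `σ` and
a point `ρ` of the base alcove. -/
structure CD (L Φ Δ : Type) [LieRing L] [LieAlgebra ℚ L] where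
  bas : Module.Basis (Φ ⊕ Δ) ℚ L
  al : Φ → L →ₗ[ℚ] ℚ
  sim : Δ → Φ
  neg : Φ → Φ
  κ : LinearMap.BilinForm ℚ L
  ρ : L
  σ : L ≃ₗ⁅ℚ⁆ L
  ς : Equiv.Perm Φ
  ℓ : ℕ
  al_e : ∀ α β, al α (bas (.inl β)) = 0
  al_sim : ∀ i x, al (sim i) x = bas.repr x (.inr i)
  al_int : ∀ α i, ∃ n : ℤ, al α (bas (.inr i)) = n
  al_inj : Function.Injective al
  al_neg : ∀ α, al (neg α) = -al α
  lie_cw_e : ∀ i α, ⁅bas (.inr i), bas (.inl α)⁆ = al α (bas (.inr i)) • bas (.inl α)
  lie_cw_cw : ∀ i j, ⁅bas (.inr i), bas (.inr j)⁆ = 0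
  cor_two : ∀ α, al α ⁅bas (.inl α), bas (.inl (neg α))⁆ = 2
  int : ∀ α (k : ℕ) i j, ∃ n : ℤ,
    bas.repr ((ad ℚ L (bas (.inl α)) ^ k) (bas i)) j = k.factorial * n
  refl : ∀ α β, ∃ γ, al γ = al β - al β ⁅bas (.inl α), bas (.inl (neg α))⁆ • al α
  str : ∀ α β, 0 < al β ⁅bas (.inl α), bas (.inl (neg α))⁆ → β ≠ α → ∃ γ, al γ = al β - al α
  κ_symm : ∀ x y, κ x y = κ y x
  κ_lie : ∀ x y z, κ ⁅x, y⁆ z = κ x ⁅y, z⁆
  κ_pos : ∀ h, (∀ β, bas.repr h (.inl β) = 0) → h ≠ 0 → 0 < κ h h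
  κ_σ : ∀ x y, κ (σ x) (σ y) = κ x y
  σ_e : ∀ α, σ (bas (.inl α)) = bas (.inl (ς α)) ∨ σ (bas (.inl α)) = -bas (.inl (ς α))
  σ_h : ∀ i β, bas.repr (σ (bas (.inr i))) (.inl β) = 0
  σ_pow : ∀ x, σ^[ℓ] x = x
  ℓ_pos : 0 < ℓ
  ρ_h : ∀ β, bas.repr ρ (.inl β) = 0
  ρ_σ : σ ρ = ρ
  ρ_ne : ∀ α, al α ρ ≠ 0
  ρ_lt : ∀ α, al α ρ < 1

/-- extension of scalars -/
abbrev G (L R : Type) [LieRing L] [LieAlgebra ℚ L] [CommRing R] [Algebra ℚ R] : Type := R ⊗[ℚ] L

/-- Laurent polynomials -/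
abbrev LP (K : Type) [Field K] : Type := LaurentPolynomial K

/-- the loop algebra -/
abbrev LG (L K : Type) [LieRing L] [LieAlgebra ℚ L] [Field K] [CharZero K] : Type := G L (LP K)

/-- operators on the loop algebra -/
abbrev Op (L K : Type) [LieRing L] [LieAlgebra ℚ L] [Field K] [CharZero K] : Type :=
  Module.End (LP K) (LG L K)

section gen
variable {L : Type} [LieRing L] [LieAlgebra ℚ L]

/-- the map induced by a linear map on the coefficients -/
def mq {K R R' : Type} [CommRing K] [Algebra ℚ K] [CommRing R] [Algebra ℚ R] [Algebra K R]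
    [IsScalarTower ℚ K R] [CommRing R'] [Algebra ℚ R'] [Algebra K R'] [IsScalarTower ℚ K R']
    (φ : R →ₗ[K] R') : G L R →ₗ[K] G L R' :=
  AlgebraTensorModule.map φ LinearMap.id

@[simp] lemma mq_tmul {K R R' : Type} [CommRing K] [Algebra ℚ K] [CommRing R] [Algebra ℚ R]
    [Algebra K R] [IsScalarTower ℚ K R] [CommRing R'] [Algebra ℚ R'] [Algebra K R']
    [IsScalarTower ℚ K R'] (φ : R →ₗ[K] R') (r : R) (x : L) :
    mq φ (r ⊗ₜ[ℚ] x) = φ r ⊗ₜ[ℚ] x := rfl

/-- the map induced by an additive map on the coefficients -/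
def mqa {R R' : Type} [CommRing R] [Algebra ℚ R] [CommRing R'] [Algebra ℚ R'] (φ : R →+ R') :
    G L R →ₗ[ℚ] G L R' :=
  mq (K := ℚ) φ.toRatLinearMap

@[simp] lemma mqa_tmul {R R' : Type} [CommRing R] [Algebra ℚ R] [CommRing R'] [Algebra ℚ R']
    (φ : R →+ R') (r : R) (x : L) : mqa φ (r ⊗ₜ[ℚ] x) = φ r ⊗ₜ[ℚ] x := rfl

variable {R : Type} [CommRing R] [Algebra ℚ R]

/-- constants -/
abbrev c0 (R : Type) [CommRing R] [Algebra ℚ R] (x : L) : G L R := 1 ⊗ₜ[ℚ] x

/-- `ad x` is nilpotent -/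
def Nil (x : G L R) : Prop := IsNilpotent (ad R (G L R) x)

/-- the exponential of `ad x` -/
def ex (x : G L R) : Module.End R (G L R) := IsNilpotent.exp (ad R (G L R) x)

/-- a product of exponentials -/
def pe (l : List (G L R)) : Module.End R (G L R) := (l.map ex).prod

/-- the product of the exponentials of `x k0, x (k0 + 1), ...` -/
def pf {n : ℕ} (x : Fin n → G L R) (k0 : ℕ) : Module.End R (G L R) := pe ((List.ofFn x).drop k0)

lemma pf_zero (x : Fin 0 → G L R) (k : ℕ) : pf x k = 1 := by simp [pf, pe]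

lemma pf_succ {n : ℕ} (x : Fin (n + 1) → G L R) : pf x 0 = ex (x 0) * pf (Fin.tail x) 0 := by
  simp only [pf, pe, List.ofFn_succ, List.drop_zero, List.map_cons, List.prod_cons]
  rfl

lemma pf_succ_succ {n : ℕ} (x : Fin (n + 1) → G L R) (k : ℕ) :
    pf x (k + 1) = pf (Fin.tail x) k := by
  simp only [pf, List.ofFn_succ, List.drop_succ_cons]
  rfl

variable {K : Type} [Field K] [CharZero K]

/-- the coefficient of `s ^ m` -/
def cf (m : ℤ) : LG L K →ₗ[K] G L K :=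
  mq ((Finsupp.lapply m).comp (AddMonoidAlgebra.coeffLinearEquiv K).toLinearMap)

/-- `x * s ^ m` -/
def mon (m : ℤ) : G L K →ₗ[K] LG L K := mq (LinearMap.toSpanSingleton K (LP K) (T m))

/-- evaluation of a Laurent polynomial -/
def evL (c : K) : LP K →ₗ[K] K := (AddMonoidAlgebra.basis ℤ K).constr K fun m => c ^ m

/-- the derivation `s d/ds` on Laurent polynomials -/
def ddL : LP K →ₗ[K] LP K := (AddMonoidAlgebra.basis ℤ K).constr K fun m => (m : K) • T m

/-- evaluation of a loop -/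
def ev (c : K) : LG L K →ₗ[K] G L K := mq (evL c)

/-- the derivation `s d/ds` on loops -/
def dd : LG L K →ₗ[K] LG L K := mq ddL

/-- evaluation of an operator -/
def evE (c : K) (g : Op L K) : Module.End K (G L K) :=
  ev c ∘ₗ g.restrictScalars K ∘ₗ mon 0

@[simp] lemma cf_tmul (m : ℤ) (p : LP K) (x : L) : cf m (p ⊗ₜ[ℚ] x) = p.coeff m ⊗ₜ[ℚ] x := rfl

@[simp] lemma mon_tmul (m : ℤ) (a : K) (x : L) :
    mon m (a ⊗ₜ[ℚ] x) = (a • T m : LP K) ⊗ₜ[ℚ] x := rfl

@[simp] lemma ev_tmul (c : K) (p : LP K) (x : L) : ev c (p ⊗ₜ[ℚ] x) = evL c p ⊗ₜ[ℚ] x := rfl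

@[simp] lemma dd_tmul (p : LP K) (x : L) : dd (p ⊗ₜ[ℚ] x) = ddL p ⊗ₜ[ℚ] x := rfl

@[simp] lemma evL_T (c : K) (m : ℤ) : evL c (T m) = c ^ m :=
  (AddMonoidAlgebra.basis ℤ K).constr_basis K (fun m => c ^ m) m

@[simp] lemma ddL_T (m : ℤ) : ddL (T m : LP K) = (m : K) • T m :=
  (AddMonoidAlgebra.basis ℤ K).constr_basis K (fun m => (m : K) • (T m : LP K)) m

lemma evE_apply (c : K) (g : Op L K) (x : G L K) : evE c g x = ev c (g (mon 0 x)) := rfl

/-- the action of a loop on a family of subspaces by evaluation at the legs -/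
def actE {J : Type} (s : J → K) (g : Op L K) (U : J → Submodule K (G L K)) (j : J) :
    Submodule K (G L K) := (U j).map (evE (s j) g)

end gen

/-- `M` is an `S`-submodule of the ring -/
structure SM {R : Type} [CommRing R] (S : Subring R) (M : Set R) : Prop where
  zero : (0 : R) ∈ M
  add : ∀ a ∈ M, ∀ b ∈ M, a + b ∈ M
  mul : ∀ a ∈ S, ∀ b ∈ M, a * b ∈ M

lemma SM.self {R : Type} [CommRing R] (S : Subring R) : SM S S :=
  ⟨S.zero_mem, fun _ ha _ hb => S.add_mem ha hb, fun _ ha _ hb => S.mul_mem ha hb⟩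

lemma SM.neg {R : Type} [CommRing R] {S : Subring R} {M : Set R} (h : SM S M) {a : R}
    (ha : a ∈ M) : -a ∈ M := by
  simpa using h.mul (-1) (S.neg_mem S.one_mem) a ha

lemma SM.sub {R : Type} [CommRing R] {S : Subring R} {M : Set R} (h : SM S M) {a b : R}
    (ha : a ∈ M) (hb : b ∈ M) : a - b ∈ M := by
  rw [sub_eq_add_neg]; exact h.add _ ha _ (h.neg hb)

lemma SM.sum {R ι : Type} [CommRing R] {S : Subring R} {M : Set R} (h : SM S M) (t : Finset ι)
    (f : ι → R) (hf : ∀ i ∈ t, f i ∈ M) : ∑ i ∈ t, f i ∈ M :=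
  Finset.sum_induction f (· ∈ M) (fun a b ha hb => h.add a ha b hb) h.zero hf

lemma SM.val {K : Type} [Field K] (V : ValuationSubring K) : SM V.toSubring (V : Set K) :=
  SM.self V.toSubring

lemma SM.nonunits {K : Type} [Field K] (V : ValuationSubring K) :
    SM V.toSubring (V.nonunits : Set K) :=
  ⟨V.nonunits.zero_mem, fun _ ha _ hb => V.nonunits.add_mem ha hb, fun a ha b hb => by
    have h1 := (V.valuation_le_one_iff a).2 ha
    have h2 := V.mem_nonunits_iff.1 hb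
    exact V.mem_nonunits_iff.2 (by
      rw [map_mul]; exact lt_of_le_of_lt (mul_le_of_le_one_left' h1) h2)⟩

/-- `S` is a local subring dominated by `V` -/
structure Dom {K : Type} [Field K] (S : Subring K) (V : ValuationSubring K) : Prop where
  le : ∀ γ ∈ S, γ ∈ V
  inv : ∀ γ ∈ S, γ ∉ V.nonunits → γ⁻¹ ∈ S

/-- `y` generates the field `K` over `O` -/
def Gen (O : Type) {K ν : Type} [CommRing O] [Field K] [Algebra O K] (y : ν → K) : Prop :=
  ∀ γ : K, ∃ F G : MvPolynomial ν O, MvPolynomial.aeval y G ≠ 0 ∧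
    γ * MvPolynomial.aeval y G = MvPolynomial.aeval y F

/-- the residue of `γ` is a rational function of the residues of `y` -/
def RR (O : Type) {K ν : Type} [CommRing O] [Field K] [Algebra O K] (V : ValuationSubring K)
    (y : ν → K) (γ : K) : Prop :=
  ∃ F G : MvPolynomial ν O, MvPolynomial.aeval y G ∉ V.nonunits ∧
    γ * MvPolynomial.aeval y G - MvPolynomial.aeval y F ∈ V.nonunits

/-- the residues of `y` are algebraically independent -/
def RI {O K ν : Type} [CommRing O] [Field K] [Algebra O K] (π : O) (V : ValuationSubring K)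
    (y : ν → K) : Prop :=
  ∀ F : MvPolynomial ν O, MvPolynomial.aeval y F ∈ V.nonunits → MvPolynomial.C π ∣ F

/-- `y` is a system of coordinates at `𝔭` in which the form `Θ` has no zero -/
def Chart {O A K σ : Type} [CommRing O] [CommRing A] [Field K] [Algebra O K] [Algebra A K]
    [Fintype σ] [DecidableEq σ] (D : σ → Derivation O K K) (Θ : K) (𝔭 : Ideal A) : Prop :=
  ∃ y : σ → K, (∀ b, loc (algebraMap A K) 𝔭 (y b)) ∧
    (∀ a : A, ∃ F G : MvPolynomial σ O, MvPolynomial.aeval y G ≠ 0 ∧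
      loc (algebraMap A K) 𝔭 (MvPolynomial.aeval y G)⁻¹ ∧
      algebraMap A K a * MvPolynomial.aeval y G = MvPolynomial.aeval y F) ∧
    ∃ t, loc (algebraMap A K) 𝔭 t ∧ wr D y = t * Θ

/-- the logarithmic Calabi-Yau condition with local charts -/
def LogCY2 (O : Type) [CommRing O] (π : O) (A K : Type) [CommRing A] [Field K] [Algebra O A]
    [Algebra O K] [Algebra A K] : Prop :=
  ∃ (σ : Type) (_ : Fintype σ) (_ : DecidableEq σ) (D : σ → Derivation O K K) (g : σ → K),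
    (∀ a, g a ≠ 0) ∧ lwr D g ≠ 0 ∧ ∀ 𝔭 : Ideal A, 𝔭.IsPrime →
      (algebraMap O A π ∉ 𝔭 ∨ 𝔭.height = 1) → Chart D (lwr D g) 𝔭

namespace CD

variable {L Φ Δ : Type} [LieRing L] [LieAlgebra ℚ L] (c : CD L Φ Δ)

/-- root vectors -/
abbrev e (α : Φ) : L := c.bas (.inl α)

/-- fundamental coweights -/
abbrev cw (i : Δ) : L := c.bas (.inr i)

/-- coroots -/
abbrev cor (α : Φ) : L := ⁅c.e α, c.e (c.neg α)⁆

/-- the Cartan subalgebra -/
def IsH (h : L) : Prop := ∀ β, c.bas.repr h (.inl β) = 0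

/-- the fixed points of `σ` in the Cartan subalgebra -/
def Fix (h : L) : Prop := c.IsH h ∧ c.σ h = h

variable {c} in
lemma IsH.add {h h' : L} (a : c.IsH h) (b : c.IsH h') : c.IsH (h + h') := fun β => by
  simp [a β, b β]

variable {c} in
lemma IsH.smul {h : L} (q : ℚ) (a : c.IsH h) : c.IsH (q • h) := fun β => by simp [a β]

variable {c} in
lemma IsH.neg {h : L} (a : c.IsH h) : c.IsH (-h) := fun β => by simp [a β]

variable {c} in
lemma IsH.sub {h h' : L} (a : c.IsH h) (b : c.IsH h') : c.IsH (h - h') := fun β => by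
  simp [a β, b β]

lemma isH_zero : c.IsH 0 := fun β => by simp

variable {c} in
lemma IsH.sum {ι : Type} (t : Finset ι) (f : ι → L) (h : ∀ i ∈ t, c.IsH (f i)) :
    c.IsH (∑ i ∈ t, f i) :=
  Finset.sum_induction f c.IsH (fun _ _ => IsH.add) c.isH_zero h

variable {c} in
lemma Fix.add {h h' : L} (a : c.Fix h) (b : c.Fix h') : c.Fix (h + h') :=
  ⟨a.1.add b.1, by rw [map_add, a.2, b.2]⟩

variable {c} in
lemma Fix.smul {h : L} (q : ℚ) (a : c.Fix h) : c.Fix (q • h) :=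
  ⟨a.1.smul q, by rw [map_smul, a.2]⟩

variable {c} in
lemma Fix.neg {h : L} (a : c.Fix h) : c.Fix (-h) := ⟨a.1.neg, by rw [map_neg, a.2]⟩

variable {c} in
lemma Fix.sub {h h' : L} (a : c.Fix h) (b : c.Fix h') : c.Fix (h - h') :=
  ⟨a.1.sub b.1, by rw [map_sub, a.2, b.2]⟩

lemma fix_zero : c.Fix 0 := ⟨c.isH_zero, map_zero _⟩

lemma fix_ρ : c.Fix c.ρ := ⟨c.ρ_h, c.ρ_σ⟩

/-- the pairing of opposite root vectors -/
def kap (α : Φ) : ℚ := c.κ (c.e α) (c.e (c.neg α))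

/-- the vector dual to the restriction of `α` to `Fix` -/
def tau (α : Φ) : L := ((c.ℓ : ℚ)⁻¹ * (c.kap α)⁻¹) • ∑ i ∈ Finset.range c.ℓ, c.σ^[i] (c.cor α)

/-- the square length of the restricted root -/
def nu (α : Φ) : ℚ := c.al α (c.tau α)

/-- `ℓ` divided by the size of the orbit -/
def per (α : Φ) : ℕ := c.ℓ / Function.minimalPeriod c.ς α

/-- the pairing of opposite affine root vectors -/
def kp (α : Φ) : ℚ := c.ℓ * c.per α * c.kap α

/-- the normalizing constant of the `sl_2`-triple -/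
def th (α : Φ) : ℚ := c.kp α * c.nu α / 2

/-- the weight of a basis vector -/
def wt0 (z : L) : Φ ⊕ Δ → ℚ := Sum.elim (fun α => c.al α z) fun _ => 0

/-- the weight of a basis vector of the loop algebra -/
def wt (z : L) (a : ℤ × (Φ ⊕ Δ)) : ℚ := c.wt0 z a.2 + a.1

/-- the value of an affine root -/
def val (a : Φ × ℤ) (z : L) : ℚ := c.al a.1 z + a.2

/-- the opposite affine root -/
def ng (a : Φ × ℤ) : Φ × ℤ := (c.neg a.1, -a.2)

/-- affine roots in the same orbit -/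
def Sim (a a' : Φ × ℤ) : Prop := a.2 = a'.2 ∧ c.ς.SameCycle a.1 a'.1

lemma wt_inl (z : L) (m : ℤ) (α : Φ) : c.wt z (m, .inl α) = c.val (α, m) z := rfl

lemma wt_inr (z : L) (m : ℤ) (i : Δ) : c.wt z (m, .inr i) = m := by simp [wt, wt0]

lemma val_ng (a : Φ × ℤ) (z : L) : c.val (c.ng a) z = -c.val a z := by
  simp [val, ng, c.al_neg]; ring

/-- the coordinates of the constant loops with values in the Cartan subalgebra -/
def Hz (a : ℤ × (Φ ⊕ Δ)) : Prop := a.1 = 0 ∧ ∃ i, a.2 = .inr i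

/-- the coordinate of the loop algebra attached to an affine root -/
abbrev ix (a : Φ × ℤ) : ℤ × (Φ ⊕ Δ) := (a.2, .inl a.1)

/-- the coordinates in the orbit of an affine root -/
def Ty (a : Φ × ℤ) (a' : ℤ × (Φ ⊕ Δ)) : Prop :=
  a'.1 = a.2 ∧ ∃ β, a'.2 = .inl β ∧ c.ς.SameCycle a.1 β

/-- the affine reflection -/
def rf (a : Φ × ℤ) (z : L) : L := z - (c.val a z * 2 / c.nu a.1) • c.tau a.1

/-- minuscule coweights -/
def Min (lam : L) : Prop := c.IsH lam ∧ ∀ α, c.al α lam = 0 ∨ c.al α lam = 1 ∨ c.al α lam = -1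

/-- all `lam j` are minuscule and dominant for the stable chamber of `r` -/
def Co {J : Type} (lam : J → L) (r : L) : Prop :=
  c.Fix r ∧ (∀ α, c.al α r ≠ 0) ∧ (∀ j, c.Min (lam j)) ∧ ∀ j α, c.al α (lam j) = 1 → 0 < c.al α r

/-- the norm of a family of coweights -/
def bar {J : Type} [Fintype J] (lam : J → L) : L :=
  ∑ j, ∑ k ∈ Finset.range c.ℓ, c.σ^[k] (lam j)

/-- the coordinates of the big cell -/
abbrev Id {J : Type} (lam : J → L) : Type := {p : J × Φ // c.al p.2 (lam p.1) = 1}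

/-- the degree of `φ` -/
def dg (J : Type) [Fintype J] : ℕ := c.ℓ * Fintype.card J

section R
variable (R : Type) [CommRing R] [Algebra ℚ R]

/-- the basis after extension of scalars -/
def bs : Module.Basis (Φ ⊕ Δ) R (G L R) := Algebra.TensorProduct.basis R c.bas

/-- the invariant form -/
def kR : LinearMap.BilinForm R (G L R) := LinearMap.BilinForm.baseChange R c.κ

/-- the automorphism -/
def sg : Module.End R (G L R) := c.σ.toLinearEquiv.toLinearMap.baseChange R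

variable {R}

/-- coordinates -/
def crd (i : Φ ⊕ Δ) : G L R →ₗ[R] R := (c.bs R).coord i

/-- the roots after extension of scalars -/
def alR (α : Φ) : G L R →ₗ[R] R :=
  (AlgebraTensorModule.rid ℚ R R).toLinearMap ∘ₗ (c.al α).baseChange R

/-- vectors with weights in `P` -/
def Gr (z : L) (P : Set ℚ) : Submodule R (G L R) where
  carrier := {x | ∀ i, c.crd i x ≠ 0 → c.wt0 z i ∈ P}
  add_mem' := fun {x y} hx hy i h => by
    by_cases h1 : c.crd i x = 0
    · exact hy i fun h2 => h (by rw [map_add, h1, h2, add_zero])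
    · exact hx i h1
  zero_mem' := fun i h => absurd (map_zero _) h
  smul_mem' := fun t x hx i h => hx i fun h1 => h (by rw [map_smul, h1, smul_zero])

/-- vectors with coordinates in `S` -/
def In0 (S : Set R) (x : G L R) : Prop := ∀ i, c.crd i x ∈ S

/-- diagonal operators -/
def diag (p : Φ ⊕ Δ → R) : Module.End R (G L R) := (c.bs R).constr R fun i => p i • c.bs R i

/-- automorphisms preserving the form -/
structure A0 (g : Module.End R (G L R)) : Prop where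
  lie : ∀ x y, g ⁅x, y⁆ = ⁅g x, g y⁆
  form : ∀ x y, c.kR R (g x) (g y) = c.kR R x y
  unit : IsUnit g

lemma bs_apply (i : Φ ⊕ Δ) : c.bs R i = c0 R (c.bas i) :=
  Algebra.TensorProduct.basis_apply c.bas i

@[simp] lemma crd_tmul (i : Φ ⊕ Δ) (r : R) (x : L) :
    c.crd i (r ⊗ₜ[ℚ] x) = c.bas.repr x i • r := by
  simp [crd, bs, Algebra.TensorProduct.basis_repr_tmul, Algebra.smul_def, mul_comm]

lemma crd_eq (i : Φ ⊕ Δ) (x : G L R) : c.crd i x = (c.bs R).repr x i := rfl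

lemma ext0 {x y : G L R} (h : ∀ i, c.crd i x = c.crd i y) : x = y := (c.bs R).ext_elem h

@[simp] lemma kR_tmul (r r' : R) (x y : L) :
    c.kR R (r ⊗ₜ[ℚ] x) (r' ⊗ₜ[ℚ] y) = c.κ x y • (r * r') := by
  simp [kR]

@[simp] lemma sg_tmul (r : R) (x : L) : c.sg R (r ⊗ₜ[ℚ] x) = r ⊗ₜ[ℚ] c.σ x := rfl

@[simp] lemma alR_tmul (α : Φ) (r : R) (x : L) : c.alR α (r ⊗ₜ[ℚ] x) = c.al α x • r := by
  simp [alR]

lemma mem_Gr {z : L} {P : Set ℚ} {x : G L R} :
    x ∈ c.Gr z P ↔ ∀ i, c.crd i x ≠ 0 → c.wt0 z i ∈ P := Iff.rfl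

lemma crd_diag (p : Φ ⊕ Δ → R) (i : Φ ⊕ Δ) (x : G L R) :
    c.crd i (c.diag p x) = p i * c.crd i x := by
  classical
  have : c.crd i ∘ₗ c.diag p = p i • c.crd i := (c.bs R).ext fun k => by
    simp only [diag, LinearMap.comp_apply, Module.Basis.constr_basis, map_smul, crd,
      Module.Basis.coord_apply, Module.Basis.repr_self, LinearMap.smul_apply, smul_eq_mul,
      Finsupp.single_apply]
    split_ifs with h
    · rw [h]
    · simp
  exact LinearMap.congr_fun this x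

lemma crd_mq {K R' : Type} [CommRing K] [Algebra ℚ K] [Algebra K R] [IsScalarTower ℚ K R]
    [CommRing R'] [Algebra ℚ R'] [Algebra K R'] [IsScalarTower ℚ K R'] (φ : R →ₗ[K] R')
    (i : Φ ⊕ Δ) (x : G L R) : c.crd i (mq φ x) = φ (c.crd i x) := by
  induction x using TensorProduct.induction_on with
  | zero => simp
  | add x y hx hy => simp [hx, hy]
  | tmul r x => simp [map_rat_smul]

lemma crd_mqa {R' : Type} [CommRing R'] [Algebra ℚ R'] (φ : R →+ R') (i : Φ ⊕ Δ) (x : G L R) :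
    c.crd i (mqa φ x) = φ (c.crd i x) := c.crd_mq _ i x

end R

section K
variable {K : Type} [Field K] [CharZero K]

/-- the nilradical attached to a minuscule coweight -/
abbrev U1 (K : Type) [Field K] [CharZero K] (lam : L) : Submodule K (G L K) := c.Gr lam {1}

/-- the abstract properties of the nilradical of a minuscule parabolic subalgebra -/
structure FD (U : Submodule K (G L K)) : Prop where
  nil : ∀ x ∈ U, Nil x
  perp : ∀ y : G L K, (∀ x ∈ U, c.kR K y x = 0) → ∀ x ∈ U, ⁅y, x⁆ ∈ U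
  gr : ∃ μ : G L K, (∀ x ∈ U, ⁅μ, x⁆ = x) ∧
    ∀ y : G L K, (∀ x ∈ U, c.kR K y x = 0) → ⁅μ, y⁆ ∈ U

/-- `U` is spanned by vectors with coordinates in `S` -/
def Def0 (S : Set K) (U : Submodule K (G L K)) : Prop :=
  U ≤ Submodule.span K {u | u ∈ U ∧ c.In0 S u}

/-- the basis of the loop algebra over `K` -/
def BB (K : Type) [Field K] [CharZero K] : Module.Basis (ℤ × (Φ ⊕ Δ)) K (LG L K) :=
  (AddMonoidAlgebra.basis ℤ K).smulTower (c.bs (LP K))

/-- coordinates of loops -/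
def co (a : ℤ × (Φ ⊕ Δ)) : LG L K →ₗ[K] K := (c.BB K).coord a

lemma co_eq (a : ℤ × (Φ ⊕ Δ)) (f : LG L K) : c.co a f = (c.crd a.2 f).coeff a.1 :=
  Module.Basis.smulTower_repr _ _ f a

lemma co_repr (a : ℤ × (Φ ⊕ Δ)) (f : LG L K) : c.co a f = (c.BB K).repr f a := rfl

lemma co_cf (m : ℤ) (i : Φ ⊕ Δ) (f : LG L K) : c.crd i (cf m f) = c.co (m, i) f := by
  rw [co_eq]; exact c.crd_mq _ i f

lemma ext1 {f g : LG L K} (h : ∀ a, c.co a f = c.co a g) : f = g := (c.BB K).ext_elem h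

lemma BB_apply (a : ℤ × (Φ ⊕ Δ)) : c.BB K a = mon a.1 (c.bs K a.2) := by
  rw [BB, Module.Basis.smulTower_apply, bs_apply, bs_apply, mon_tmul, smul_tmul', one_smul,
    smul_eq_mul, mul_one]
  rfl

lemma co_mon [DecidableEq Φ] [DecidableEq Δ] (a : ℤ × (Φ ⊕ Δ)) (m : ℤ) (x : G L K) :
    c.co a (mon m x) = if m = a.1 then c.crd a.2 x else 0 := by
  rw [co_eq, mon, crd_mq]
  simp [T_apply]

/-- loops with weights in `P` -/
def Sup (z : L) (P : Set ℚ) : Submodule K (LG L K) where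
  carrier := {f | ∀ a, c.co a f ≠ 0 → c.wt z a ∈ P}
  add_mem' := fun {x y} hx hy i h => by
    by_cases h1 : c.co i x = 0
    · exact hy i fun h2 => h (by rw [map_add, h1, h2, add_zero])
    · exact hx i h1
  zero_mem' := fun i h => absurd (map_zero _) h
  smul_mem' := fun t x hx i h => hx i fun h1 => h (by rw [map_smul, h1, smul_zero])

lemma mem_Sup {z : L} {P : Set ℚ} {f : LG L K} :
    f ∈ c.Sup z P ↔ ∀ a, c.co a f ≠ 0 → c.wt z a ∈ P := Iff.rfl

lemma Sup_mono {z : L} {P P' : Set ℚ} (h : P ⊆ P') : (c.Sup z P : Submodule K _) ≤ c.Sup z P' :=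
  fun _ hf a ha => h (hf a ha)

/-- loops with coordinates in `S` -/
def In (S : Set K) (f : LG L K) : Prop := ∀ a, c.co a f ∈ S

open scoped Classical in
/-- the projection to the coordinates satisfying `p` -/
def pr (p : ℤ × (Φ ⊕ Δ) → Prop) : LG L K →ₗ[K] LG L K :=
  (c.BB K).constr K fun a => if p a then c.BB K a else 0

open scoped Classical in
lemma co_pr (p : ℤ × (Φ ⊕ Δ) → Prop) (a : ℤ × (Φ ⊕ Δ)) (f : LG L K) :
    c.co a (c.pr p f) = if p a then c.co a f else 0 := by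
  have : (c.co a ∘ₗ c.pr p : LG L K →ₗ[K] K) = if p a then c.co a else 0 :=
    (c.BB K).ext fun k => by
      simp only [pr, LinearMap.comp_apply, Module.Basis.constr_basis]
      by_cases h : k = a
      · subst h
        split_ifs <;> simp
      · have : c.co a (c.BB K k) = 0 := by simp [co, Finsupp.single_apply, h]
        split_ifs <;> simp [this]
  have h2 := LinearMap.congr_fun this f
  rw [LinearMap.comp_apply] at h2
  rw [h2]
  split_ifs <;> simp

/-- equivariant loops -/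
def Eqv (ζ : K) : Submodule K (LG L K) where
  carrier := {f | ∀ m, c.sg K (cf m f) = ζ ^ (-m) • cf m f}
  add_mem' := fun {x y} hx hy m => by rw [map_add, map_add, hx, hy, smul_add]
  zero_mem' := fun m => by simp
  smul_mem' := fun t x hx m => by rw [map_smul, map_smul, hx, smul_comm]

lemma mem_Eqv {ζ : K} {f : LG L K} :
    f ∈ c.Eqv ζ ↔ ∀ m, c.sg K (cf m f) = ζ ^ (-m) • cf m f := Iff.rfl

/-- averaging -/
def cc (ζ : K) (x : G L K) (n : ℤ) : G L K :=
  ∑ i ∈ Finset.range c.ℓ, ζ ^ ((i : ℤ) * n) • (c.sg K ^ i) x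

/-- the affine root vector -/
def E (ζ : K) (a : Φ × ℤ) : LG L K := mon a.2 (c.cc ζ (c.bs K (.inl a.1)) a.2)

/-- the opposite affine root vector -/
def F (ζ : K) (a : Φ × ℤ) : LG L K := c.E ζ (c.ng a)

/-- `a` is an affine root -/
def Valid (ζ : K) (a : Φ × ℤ) : Prop := c.cc ζ (c.bs K (.inl a.1)) a.2 ≠ 0

/-- a lift of the affine reflection -/
def psi (ζ : K) (a : Φ × ℤ) (t : K) : Op L K :=
  ex (t • c.E ζ a) * ex (-((c.th a.1 : K) * t)⁻¹ • c.F ζ a) * ex (t • c.E ζ a)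

/-- regular points -/
def Reg (ζ : K) (z : L) : Prop := c.Fix z ∧ ∀ a, c.Valid ζ a → c.val a z ≠ 0

/-- points of the same alcove -/
def Same (ζ : K) (z z' : L) : Prop := ∀ a, c.Valid ζ a → (0 < c.val a z ↔ 0 < c.val a z')

/-- `x` is in the closure of the alcove of `z` -/
def Cl (ζ : K) (z x : L) : Prop := c.Fix x ∧ ∀ a, c.Valid ζ a → 0 < c.val a z → 0 ≤ c.val a x

/-- points of alcoves adjacent along the wall `b` -/
structure Adj (ζ : K) (z z₁ : L) (b : Φ × ℤ) : Prop where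
  reg : c.Reg ζ z
  reg₁ : c.Reg ζ z₁
  valid : c.Valid ζ b
  pos : 0 < c.val b z
  neg : c.val b z₁ < 0
  oth : ∀ a, c.Valid ζ a → ¬ c.Sim a b → 0 < c.val a z → 0 < c.val a z₁

/-- `x` is a generic point of the wall `b` of the alcove of `z` -/
structure OnW (ζ : K) (z x : L) (b : Φ × ℤ) : Prop where
  reg : c.Reg ζ z
  fix : c.Fix x
  valid : c.Valid ζ b
  pos : 0 < c.val b z
  zero : c.val b x = 0
  oth : ∀ a, c.Valid ζ a → ¬ c.Sim a b → 0 < c.val a z → 0 < c.val a x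

/-- a minimal gallery from the alcove of `z` to the alcove of `z'` crossing the walls `a` -/
def Gal (ζ : K) (z' : L) : (n : ℕ) → L → (Fin n → Φ × ℤ) → Prop
  | 0, z, _ => c.Same ζ z z'
  | n + 1, z, a => ∃ z₁, c.Adj ζ z z₁ (a 0) ∧ c.val (a 0) z' < 0 ∧ Gal ζ z' n z₁ (Fin.tail a)

/-- a walk from `z₀` by reflections in walls of the base alcove; the last step is `b 0` -/
def Wk (ζ : K) (z₀ : L) : (n : ℕ) → (Fin n → Φ × ℤ) → L → Prop
  | 0, _, z => z = z₀
  | n + 1, b, z => ∃ z', Wk ζ z₀ n (Fin.tail b) z' ∧ c.Fix z' ∧ (∃ x, c.OnW ζ c.ρ x (b 0)) ∧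
      c.val (b 0) z' < 0 ∧ z = c.rf (b 0) z'

/-- automorphisms of the twisted loop algebra -/
structure LA (ζ : K) (g : Op L K) : Prop where
  a0 : c.A0 g
  eqv : ∀ f, g f ∈ c.Eqv ζ ↔ f ∈ c.Eqv ζ

/-- `g / ψ` belongs to the Iwahori subgroup of `z` -/
structure Aut0 (ζ : K) (ψ : LP K) (g : Op L K) (z : L) : Prop where
  lie : ∀ f f', ⁅g f, g f'⁆ = ψ • g ⁅f, f'⁆
  eqv : ∀ f ∈ c.Eqv ζ, g f ∈ c.Eqv ζ
  pos : ∀ m < 0, ψ.coeff m = 0
  ne : ψ.coeff 0 ≠ 0
  hh : ∀ h, c.Fix h → g (c0 _ h) - ψ.coeff 0 • c0 (LP K) h ∈ c.Sup z (Set.Ioi 0)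
  fil : ∀ r, ∀ f ∈ c.Eqv ζ, g f ∈ c.Sup z (Set.Ici r) ↔ f ∈ c.Sup z (Set.Ici r)

/-- `n` normalizes the torus and induces `v` on the apartment -/
structure Mono (ζ : K) (n : Op L K) (v : L → L) : Prop where
  fix : ∀ z, c.Fix z → c.Fix (v z)
  surj : ∀ z, c.Fix z → ∃ z', c.Fix z' ∧ v z' = z
  sup : ∀ z, c.Fix z → ∀ P, ∀ f ∈ c.Eqv ζ, n f ∈ c.Sup (v z) P ↔ f ∈ c.Sup z P

/-- `g` lowers the weights of `z` -/
def Low (ζ : K) (z : L) (g : Op L K) : Prop :=
  ∀ r, ∀ f ∈ c.Eqv ζ, f ∈ c.Sup z (Set.Iic r) → g f - f ∈ c.Sup z (Set.Iio r)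

/-- `g` preserves integrality -/
def IntE (ζ : K) (S : Set K) (g : Op L K) : Prop := ∀ f ∈ c.Eqv ζ, c.In S f → c.In S (g f)

/-- `g` preserves and reflects integrality -/
def IntB (ζ : K) (S : Set K) (g : Op L K) : Prop := ∀ f ∈ c.Eqv ζ, c.In S (g f) ↔ c.In S f

/-- `S` contains `ζ` and the inverse of `ℓ` -/
def SD (ζ : K) (S : Subring K) : Prop := ζ ∈ S ∧ (c.ℓ : K)⁻¹ ∈ S

section J
variable {J : Type} [Fintype J] [DecidableEq J]

/-- monic polynomials in `s ^ ℓ` of degree `M` in `s` -/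
def Mon (ψ : LP K) (M : ℕ) : Prop :=
  (∀ n, ψ.coeff n ≠ 0 → 0 ≤ n ∧ n ≤ M ∧ (c.ℓ : ℤ) ∣ n) ∧ ψ.coeff M = 1

/-- the legs -/
structure Pt (ζ : K) (s : J → K) : Prop where
  prim : IsPrimitiveRoot ζ c.ℓ
  ne : ∀ j, s j ≠ 0
  inj : Function.Injective fun j => s j ^ c.ℓ

/-- the polynomial vanishing at the legs -/
def phi (s : J → K) : LP K := ∏ j, (T c.ℓ - C (s j ^ c.ℓ))

/-- the weights of the residue pairing -/
def vp (s : J → K) (j : J) : K :=
  (s j ^ c.ℓ * ∏ i ∈ Finset.univ.erase j, (s j ^ c.ℓ - s i ^ c.ℓ))⁻¹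

/-- the residue pairing -/
def pair (s : J → K) (x y : J → G L K) : K := ∑ j, c.vp s j * c.kR K (x j) (y j)

/-- the bilinear form whose determinant is the inverse square of the volume form -/
def BF (s : J → K) (h : LG L K) (y : J → G L K) : K :=
  ∑ j, c.vp s j ^ 2 * c.kR K (ev (s j) (dd h)) (y j)

/-- the covector dual to the coordinate number `k` of a product chart -/
def PP (s : J → K) {n : ℕ} (x : Fin n → J → G L K) (y : Fin n → K) (k : Fin n)
    (u : J → G L K) : K :=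
  c.pair s (x k) fun j => pf (fun l => y l • x l j) (k + 1) (u j)

/-- the diagonal entries of torus elements -/
def dgp (ζ : K) (s : J → K) (ε : ℚ → ℕ) (lam : J → L) (i : Φ ⊕ Δ) : LP K :=
  ∏ j, ∏ k ∈ Finset.range c.ℓ,
    (C (ζ ^ (-(k : ℤ))) * T 1 - C (s j)) ^ ε (c.wt0 (lam j) (Sum.map (c.ς ^ k) id i))

/-- `φ` times the torus element attached to `lam` -/
def tor (ζ : K) (s : J → K) (lam : J → L) : Op L K :=
  c.diag fun i => C (∏ _j : J, ∏ k ∈ Finset.range c.ℓ, ζ ^ k) *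
    c.dgp ζ s (fun q => ⌊1 - q⌋₊) lam i

/-- the translation attached to `lam` -/
def tr (ζ : K) (lam : J → L) : Op L K := (T (-(c.dg J : ℤ)) : LP K) • c.tor ζ 0 lam

/-- the modified loop algebra -/
def NN (ζ : K) (s : J → K) (U : J → Submodule K (G L K)) : Submodule K (LG L K) where
  carrier := {f | f ∈ c.Eqv ζ ∧ ∀ j, ev (s j) f ∈ U j ∧
    ∀ x ∈ U j, c.kR K (ev (s j) (dd f)) x = 0}
  add_mem' := fun {x y} hx hy => ⟨add_mem hx.1 hy.1, fun j =>
    ⟨by rw [map_add]; exact add_mem (hx.2 j).1 (hy.2 j).1, fun u hu => by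
      rw [map_add, map_add, map_add, LinearMap.add_apply, (hx.2 j).2 u hu, (hy.2 j).2 u hu,
        add_zero]⟩⟩
  zero_mem' := ⟨zero_mem _, fun j => ⟨by simp, fun u _ => by simp⟩⟩
  smul_mem' := fun t x hx => ⟨Submodule.smul_mem _ _ hx.1, fun j =>
    ⟨by rw [map_smul]; exact Submodule.smul_mem _ _ (hx.2 j).1, fun u hu => by
      rw [map_smul, map_smul, map_smul, LinearMap.smul_apply, (hx.2 j).2 u hu, smul_zero]⟩⟩

lemma mem_NN {ζ : K} {s : J → K} {U : J → Submodule K (G L K)} {f : LG L K} :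
    f ∈ c.NN ζ s U ↔ f ∈ c.Eqv ζ ∧ ∀ j, ev (s j) f ∈ U j ∧
      ∀ x ∈ U j, c.kR K (ev (s j) (dd f)) x = 0 := Iff.rfl

/-- the window of the modified lattice -/
def Win (ζ : K) (s : J → K) (U : J → Submodule K (G L K)) (x : L) (r : ℚ) :
    Submodule K (LG L K) :=
  c.NN ζ s U ⊓ c.Sup x (Set.Ico r (r + 2 * c.dg J))

/-- `C` is a chart of the Grassmannian containing the window -/
def IsCh (ζ : K) (s : J → K) (U : J → Submodule K (G L K)) (x : L) (r : ℚ)
    (C : Finset (ℤ × (Φ ⊕ Δ))) : Prop :=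
  ∀ v : ℤ × (Φ ⊕ Δ) → K, ∃! f, f ∈ c.Win ζ s U x r ∧ ∀ a ∈ C, c.co a f = v a

open scoped Classical in
/-- the coordinates of the window in the chart `C` -/
def Gens (ζ : K) (s : J → K) (U : J → Submodule K (G L K)) (x : L) (r : ℚ)
    (C : Finset (ℤ × (Φ ⊕ Δ))) : Set K :=
  {t | ∃ f ∈ c.Win ζ s U x r, ∃ b ∈ C, (∀ a ∈ C, c.co a f = if a = b then 1 else 0) ∧
    ∃ a, t = c.co a f}

/-- modulo the maximal ideal of `V` the lattices of `x` are the images under `u` of the lattices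
of `x'` -/
def Red (ζ : K) (s : J → K) (V : ValuationSubring K) (U : J → Submodule K (G L K)) (u : Op L K)
    (x x' : L) : Prop :=
  ∀ r : ℚ, (∀ f ∈ c.NN ζ s U, f ∈ c.Sup x (Set.Ici r) → c.In V f →
      ∃ f₀ ∈ c.Eqv ζ, f₀ ∈ c.Sup x' (Set.Ici (r + c.dg J)) ∧ c.In V f₀ ∧
        c.In V.nonunits (f - u f₀)) ∧
    ∀ f₀ ∈ c.Eqv ζ, f₀ ∈ c.Sup x' (Set.Ici (r + c.dg J)) → c.In V f₀ →
      ∃ f ∈ c.NN ζ s U, f ∈ c.Sup x (Set.Ici r) ∧ c.In V f ∧ c.In V.nonunits (f - u f₀)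

/-- the state of the walk for a valuation ring `V` -/
structure St (ζ : K) (s : J → K) (V : ValuationSubring K) (U : J → Submodule K (G L K)) (z : L)
    (H u n i : Op L K) (v : L → L) : Prop where
  aut : c.Aut0 ζ (c.phi s) H z
  rng : ∀ f, f ∈ c.NN ζ s U ↔ ∃ g ∈ c.Eqv ζ, H g = f
  int : c.IntB ζ V H
  ula : c.LA ζ u
  nla : c.LA ζ n
  ila : c.LA ζ i
  uint : c.IntB ζ V u
  nint : c.IntB ζ V n
  iint : c.IntB ζ V i
  uaut : c.Aut0 ζ 1 u c.ρ
  iaut : c.Aut0 ζ 1 i z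
  mono : c.Mono ζ n v
  cong : ∀ f ∈ c.Eqv ζ, c.In V f →
    c.In V.nonunits (H f - (T (c.dg J) : LP K) • u (n (i f)))

/-- the state of the walk for the logarithmic coordinates -/
structure St1 (ζ : K) (s : J → K) (U : J → Submodule K (G L K)) (z : L) (H : Op L K) : Prop where
  aut : c.Aut0 ζ (c.phi s) H c.ρ
  rng : ∀ f, f ∈ c.NN ζ s U ↔ ∃ g ∈ c.Eqv ζ, H g = f
  top : ∀ r, ∀ f ∈ c.Eqv ζ,
    H f ∈ c.Sup c.ρ (Set.Iic (r + c.dg J)) ↔ f ∈ c.Sup z (Set.Iic r)

/-- a valuation ring above the closed point -/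
structure VD (ζ : K) (s : J → K) (V : ValuationSubring K) : Prop where
  sd : c.SD ζ V.toSubring
  small : ∀ j, s j ∈ V.nonunits
  arch : ∀ (γ : K) j, ∃ M : ℕ, s j ^ M * γ ∈ V

/-- a subring containing all constants of the generic fibre -/
structure HD (ζ : K) (s : J → K) (S : Subring K) : Prop where
  rat : ∀ q : ℚ, (q : K) ∈ S
  zeta : ζ ∈ S
  mem : ∀ j, s j ∈ S
  inv : ∀ j, (s j)⁻¹ ∈ S
  inv' : ∀ i j, (s i ^ c.ℓ - s j ^ c.ℓ)⁻¹ ∈ S

variable [Fintype Φ] [DecidableEq Φ]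

/-- the point of a product chart -/
abbrev pU (s : J → K) {n : ℕ} (x : Fin n → LG L K) (y : Fin n → K) (lam : J → L) (j : J) :
    Submodule K (G L K) :=
  (c.U1 K (lam j)).map (pf (fun k => y k • ev (s j) (x k)) 0)

/-- the element of the opposite nilradical with coordinates `X` -/
def nX (lam : J → L) (X : c.Id lam → K) (j : J) : G L K :=
  ∑ p : c.Id lam with p.1.1 = j, X p • c.bs K (.inl (c.neg p.1.2))

/-- the point of the big cell with coordinates `X` -/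
def cell (lam : J → L) (X : c.Id lam → K) (j : J) : Submodule K (G L K) :=
  (c.U1 K (lam j)).map (ex (c.nX lam X j))

/-- the product of the square lengths over the big cell -/
def cnu (lam : J → L) : ℚ := ∏ p : c.Id lam, c.nu p.1.2

end J

end K

end CD

end

end Pool.Agent.P.MP_e7d440_ag.U
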