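import Pool.Agent.P.MP_e7d440_ag.U.Iface

/-! Consequences of the axioms of a Chevalley datum over the rationals. -/

namespace Pool.Agent.P.MP_e7d440_ag.U

open TensorProduct LieAlgebra LaurentPolynomial Set

variable {L Φ Δ : Type} [LieRing L] [LieAlgebra ℚ L] [Fintype Φ] [Fintype Δ] [DecidableEq Φ]
  [DecidableEq Δ] (c : CD L Φ Δ)

namespace CdA

omit [Fintype Φ] [Fintype Δ] in
lemma rb (i k : Φ ⊕ Δ) : c.bas.repr (c.bas i) k = if i = k then 1 else 0 := by
  rw [c.bas.repr_self, Finsupp.single_apply]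

omit [Fintype Φ] [Fintype Δ] [DecidableEq Φ] [DecidableEq Δ] in
lemma neg_neg' (α : Φ) : c.neg (c.neg α) = α := c.al_inj (by rw [c.al_neg, c.al_neg, neg_neg])

omit [Fintype Φ] [Fintype Δ] [DecidableEq Φ] [DecidableEq Δ] in
lemma al_ng (α : Φ) (x : L) : c.al (c.neg α) x = -c.al α x := by rw [c.al_neg]; rfl

omit [Fintype Φ] [Fintype Δ] [DecidableEq Φ] [DecidableEq Δ] in
lemma neg_ne (α : Φ) : c.neg α ≠ α := fun h => c.ρ_ne α (by
  have := al_ng c α c.ρ
  rw [h] at this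
  linarith)

omit [Fintype Φ] [Fintype Δ] in
lemma isH_cw (i : Δ) : c.IsH (c.cw i) := fun β => by rw [rb]; simp

omit [DecidableEq Φ] [DecidableEq Δ] in
lemma expand {h : L} (hh : c.IsH h) : h = ∑ i, c.bas.repr h (.inr i) • c.cw i := by
  conv_lhs => rw [← c.bas.sum_repr h, Fintype.sum_sum_type]
  simp [hh _]

omit [DecidableEq Φ] [DecidableEq Δ] in
lemma al_eq (α : Φ) (x : L) : c.al α x = ∑ i, c.al α (c.cw i) * c.bas.repr x (.inr i) := by
  conv_lhs => rw [← c.bas.sum_repr x, Fintype.sum_sum_type]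
  simp [c.al_e, mul_comm]

omit [DecidableEq Φ] [DecidableEq Δ] in
lemma lie_h (h : L) (hh : c.IsH h) (α : Φ) : ⁅h, c.e α⁆ = c.al α h • c.e α := by
  rw [al_eq, Finset.sum_smul]
  conv_lhs => rw [expand c hh, sum_lie]
  refine Finset.sum_congr rfl fun i _ => ?_
  rw [smul_lie, c.lie_cw_e, smul_smul, mul_comm]

omit [DecidableEq Φ] [DecidableEq Δ] in
lemma lie_hh (h h' : L) (hh : c.IsH h) (hh' : c.IsH h') : ⁅h, h'⁆ = 0 := by
  rw [expand c hh, expand c hh', sum_lie]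
  refine Finset.sum_eq_zero fun i _ => ?_
  rw [lie_sum]
  refine Finset.sum_eq_zero fun j _ => ?_
  rw [smul_lie, lie_smul, c.lie_cw_cw, smul_zero, smul_zero]

omit [DecidableEq Φ] [DecidableEq Δ] in
lemma h_ext (h : L) (hh : c.IsH h) (h0 : ∀ α, c.al α h = 0) : h = 0 := by
  rw [expand c hh]
  refine Finset.sum_eq_zero fun i _ => ?_
  rw [← c.al_sim, h0, zero_smul]

lemma lie_b {h : L} (hh : c.IsH h) (i : Φ ⊕ Δ) : ⁅h, c.bas i⁆ = c.wt0 h i • c.bas i := by
  rcases i with α | i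
  · exact lie_h c h hh α
  · rw [lie_hh c h _ hh (isH_cw c i)]; simp [CD.wt0]

lemma key {h : L} (hh : c.IsH h) (x : L) (k : Φ ⊕ Δ) :
    c.bas.repr ⁅h, x⁆ k = c.wt0 h k * c.bas.repr x k := by
  have : c.bas.coord k ∘ₗ ad ℚ L h = c.wt0 h k • c.bas.coord k := by
    refine c.bas.ext fun i => ?_
    simp only [LinearMap.comp_apply, ad_apply, lie_b c hh, map_smul, Module.Basis.coord_apply,
      LinearMap.smul_apply, rb, smul_eq_mul]
    split_ifs with e
    · rw [e]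
    · simp
  exact LinearMap.congr_fun this x

lemma hpart (z : L) : ∃ h, c.IsH h ∧ c.wt0 z = c.wt0 h := by
  refine ⟨∑ i, c.bas.repr z (.inr i) • c.cw i,
    CD.IsH.sum _ _ fun i _ => (isH_cw c i).smul _, funext ?_⟩
  rintro (α | i)
  · simp only [CD.wt0, Sum.elim_inl, map_sum, map_smul, smul_eq_mul]
    rw [al_eq]
    simp [mul_comm]
  · rfl

lemma lie_wt (i j k : Φ ⊕ Δ) (h0 : c.bas.repr ⁅c.bas i, c.bas j⁆ k ≠ 0) (z : L) :
    c.wt0 z k = c.wt0 z i + c.wt0 z j := by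
  obtain ⟨h, hh, e⟩ := hpart c z
  have := key c hh ⁅c.bas i, c.bas j⁆ k
  rw [leibniz_lie, lie_b c hh, lie_b c hh, smul_lie, lie_smul, ← add_smul, map_smul,
    Finsupp.smul_apply, smul_eq_mul] at this
  rw [e]
  exact (mul_right_cancel₀ h0 this).symm

lemma isH_cor (α : Φ) : c.IsH (c.cor α) := fun β => by
  by_contra h
  have := lie_wt c _ _ _ h c.ρ
  simp only [CD.wt0, Sum.elim_inl, al_ng, add_neg_cancel] at this
  exact c.ρ_ne β this

omit [Fintype Φ] [Fintype Δ] in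
lemma rb_int (i k : Φ ⊕ Δ) : ∃ n : ℤ, c.bas.repr (c.bas i) k = n := by
  rw [rb]
  split_ifs
  · exact ⟨1, by simp⟩
  · exact ⟨0, by simp⟩

omit [Fintype Φ] [Fintype Δ] in
lemma lie_int (i j k : Φ ⊕ Δ) : ∃ n : ℤ, c.bas.repr ⁅c.bas i, c.bas j⁆ k = n := by
  rcases i with α | i
  · simpa using c.int α 1 j k
  rcases j with α | j
  · obtain ⟨n, hn⟩ := c.al_int α i
    obtain ⟨m, hm⟩ := rb_int c (.inl α) k
    exact ⟨n * m, by rw [c.lie_cw_e, map_smul, Finsupp.smul_apply, hn, hm]; simp⟩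
  · exact ⟨0, by rw [c.lie_cw_cw]; simp⟩

lemma lie_ee (α β : Φ) (hβ : β ≠ c.neg α) : (∃ γ, c.al γ = c.al α + c.al β ∧
    ∃ n : ℤ, ⁅c.e α, c.e β⁆ = (n : ℚ) • c.e γ) ∨
    ((∀ γ, c.al γ ≠ c.al α + c.al β) ∧ ⁅c.e α, c.e β⁆ = 0) := by
  have h1 : ∀ i, c.bas.repr ⁅c.e α, c.e β⁆ (.inr i) = 0 := fun i => by
    by_contra h
    refine hβ (c.al_inj (LinearMap.ext fun z => ?_))
    have := lie_wt c _ _ _ h z
    simp only [CD.wt0, Sum.elim_inl, Sum.elim_inr] at this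
    rw [al_ng]; linarith
  have h2 : ∀ γ, c.bas.repr ⁅c.e α, c.e β⁆ (.inl γ) ≠ 0 → c.al γ = c.al α + c.al β :=
    fun γ h => LinearMap.ext fun z => lie_wt c _ _ _ h z
  by_cases h : ∃ γ, c.al γ = c.al α + c.al β
  · obtain ⟨γ, hγ⟩ := h
    obtain ⟨n, hn⟩ := lie_int c (.inl α) (.inl β) (.inl γ)
    refine Or.inl ⟨γ, hγ, n, c.bas.ext_elem ?_⟩
    rintro (δ | i)
    · rw [map_smul, Finsupp.smul_apply, rb]
      by_cases e : γ = δ
      · subst e; simpa using hn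
      · by_contra hne
        refine e (c.al_inj (hγ.trans (h2 δ fun h0 => hne ?_).symm))
        simp [h0, e]
    · rw [h1, map_smul, Finsupp.smul_apply, rb]; simp
  · push Not at h
    refine Or.inr ⟨h, c.bas.ext_elem ?_⟩
    rintro (δ | i)
    · by_contra hne
      exact h δ (h2 δ (by simpa using hne))
    · simpa using h1 i

lemma cartan (α β : Φ) : ∃ n : ℤ, c.al β (c.cor α) = n := by
  choose n hn using c.al_int β
  choose m hm using fun i => lie_int c (.inl α) (.inl (c.neg α)) (.inr i)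
  refine ⟨∑ i, n i * m i, ?_⟩
  rw [al_eq]
  push_cast
  exact Finset.sum_congr rfl fun i _ => by rw [← hn, ← hm]

omit [Fintype Φ] [Fintype Δ] [DecidableEq Φ] [DecidableEq Δ] in
lemma cor_neg (α : Φ) : c.cor (c.neg α) = -c.cor α := by
  rw [CD.cor, neg_neg', lie_skew]

omit [Fintype Φ] [Fintype Δ] [DecidableEq Φ] [DecidableEq Δ] in
lemma κ_ad (h x y : L) : c.κ ⁅h, x⁆ y + c.κ x ⁅h, y⁆ = 0 := by
  rw [← c.κ_lie, ← lie_skew h x, map_neg, LinearMap.neg_apply, neg_add_cancel]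

lemma κ_wt (i j : Φ ⊕ Δ) (h0 : c.κ (c.bas i) (c.bas j) ≠ 0) (z : L) :
    c.wt0 z i + c.wt0 z j = 0 := by
  obtain ⟨h, hh, e⟩ := hpart c z
  have := κ_ad c h (c.bas i) (c.bas j)
  rw [lie_b c hh, lie_b c hh, map_smul, map_smul, LinearMap.smul_apply, ← add_smul,
    smul_eq_mul] at this
  rw [e]
  exact (mul_eq_zero.1 this).resolve_right h0

lemma κ_ee (α β : Φ) : c.κ (c.e α) (c.e β) = if β = c.neg α then c.kap α else 0 := by
  split_ifs with h
  · rw [h]; rfl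
  · by_contra h0
    refine h (c.al_inj (LinearMap.ext fun z => ?_))
    have := κ_wt c _ _ h0 z
    simp only [CD.wt0, Sum.elim_inl] at this
    rw [al_ng]; linarith

omit [DecidableEq Φ] [DecidableEq Δ] in
lemma κ_eh (α : Φ) (h : L) (hh : c.IsH h) : c.κ (c.e α) h = 0 := by
  have := κ_ad c c.ρ (c.e α) h
  rw [lie_h c _ c.ρ_h, lie_hh c _ _ c.ρ_h hh, map_zero, add_zero, map_smul, LinearMap.smul_apply,
    smul_eq_mul] at this
  exact (mul_eq_zero.1 this).resolve_left (c.ρ_ne α)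

lemma κ_cor (α : Φ) (x : L) : c.κ (c.cor α) x = c.kap α * c.al α x := by
  have : c.κ (c.cor α) = c.kap α • c.al α := by
    refine c.bas.ext ?_
    rintro (β | i)
    · rw [c.κ_symm, κ_eh c _ _ (isH_cor c α), LinearMap.smul_apply, c.al_e, smul_zero]
    · rw [c.κ_lie, ← lie_skew, c.lie_cw_e, al_ng, neg_smul, neg_neg, map_smul,
        LinearMap.smul_apply, smul_eq_mul, smul_eq_mul, mul_comm]
      rfl
  exact LinearMap.congr_fun this x

lemma kap_pos (α : Φ) : 0 < c.kap α := by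
  have h2 : c.al α (c.cor α) = 2 := c.cor_two α
  have := c.κ_pos _ (isH_cor c α) fun h => by rw [h, map_zero] at h2; norm_num at h2
  rw [κ_cor, h2] at this
  linarith

omit [Fintype Φ] [Fintype Δ] [DecidableEq Φ] [DecidableEq Δ] in
lemma kap_neg (α : Φ) : c.kap (c.neg α) = c.kap α := by
  rw [CD.kap, neg_neg', c.κ_symm]; rfl

lemma κ_dual (i : Φ ⊕ Δ) : ∃ d, ∀ x, c.κ d x = c.bas.repr x i := by
  rcases i with α | i
  · refine ⟨(c.kap α)⁻¹ • c.e (c.neg α), fun x => ?_⟩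
    have : c.κ ((c.kap α)⁻¹ • c.e (c.neg α)) = c.bas.coord (.inl α) := by
      refine c.bas.ext ?_
      rintro (β | j)
      · rw [map_smul, LinearMap.smul_apply, κ_ee, neg_neg', kap_neg, Module.Basis.coord_apply, rb]
        by_cases e : β = α
        · simp [e, (kap_pos c α).ne']
        · simp [e]
      · rw [map_smul, LinearMap.smul_apply, κ_eh c _ _ (isH_cw c j), Module.Basis.coord_apply, rb]
        simp
    exact LinearMap.congr_fun this x
  · refine ⟨(c.kap (c.sim i))⁻¹ • c.cor (c.sim i), fun x => ?_⟩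
    rw [map_smul, LinearMap.smul_apply, κ_cor, c.al_sim, smul_eq_mul,
      inv_mul_cancel_left₀ (kap_pos c _).ne']

omit [DecidableEq Φ] [DecidableEq Δ] in
lemma σ_isH (h : L) (hh : c.IsH h) : c.IsH (c.σ h) := by
  rw [expand c hh, map_sum]
  refine CD.IsH.sum _ _ fun i _ => ?_
  rw [map_smul]
  exact CD.IsH.smul _ (c.σ_h i)

lemma al_σ (α : Φ) (x : L) : c.al (c.ς α) (c.σ x) = c.al α x := by
  have : c.al (c.ς α) ∘ₗ c.σ.toLinearEquiv.toLinearMap = c.al α := by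
    refine c.bas.ext ?_
    rintro (β | i)
    · change c.al (c.ς α) (c.σ (c.bas (.inl β))) = _
      rcases c.σ_e β with h | h <;> simp [h, c.al_e]
    · change c.al (c.ς α) (c.σ (c.bas (.inr i))) = _
      have h1 := congrArg c.σ (c.lie_cw_e i α)
      have h2 := lie_h c _ (c.σ_h i) (c.ς α)
      rw [LieEquiv.map_lie, map_smul] at h1
      refine smul_left_injective ℚ (c.bas.ne_zero (.inl (c.ς α))) ?_
      rcases c.σ_e α with h | h
      · rw [h] at h1; exact h2.symm.trans h1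
      · rw [h, lie_neg, smul_neg, neg_inj] at h1; exact h2.symm.trans h1
  exact LinearMap.congr_fun this x

lemma ς_neg (α : Φ) : c.ς (c.neg α) = c.neg (c.ς α) := by
  refine c.al_inj (LinearMap.ext fun z => ?_)
  obtain ⟨x, rfl⟩ := c.σ.surjective z
  change c.al _ (c.σ x) = c.al _ (c.σ x)
  rw [al_σ, al_ng, al_ng, al_σ]

lemma σ_both (α : Φ) : c.kap (c.ς α) = c.kap α ∧ c.σ (c.cor α) = c.cor (c.ς α) := by
  have h0 : c.κ (c.σ (c.e α)) (c.σ (c.e (c.neg α))) = c.kap α := c.κ_σ _ _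
  have p1 := kap_pos c α
  have p2 := kap_pos c (c.ς α)
  have e : c.κ (c.e (c.ς α)) (c.e (c.neg (c.ς α))) = c.kap (c.ς α) := rfl
  rw [CD.cor, LieEquiv.map_lie]
  rcases c.σ_e α with h | h <;> rcases c.σ_e (c.neg α) with h' | h' <;>
    rw [ς_neg] at h' <;> rw [h, h'] at h0 ⊢
  · exact ⟨h0, rfl⟩
  · rw [map_neg, e] at h0; linarith
  · rw [map_neg, LinearMap.neg_apply, e] at h0; linarith
  · rw [map_neg, map_neg, LinearMap.neg_apply, neg_neg] at h0
    exact ⟨h0, by rw [neg_lie, lie_neg, neg_neg]⟩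

lemma al_pow (n : ℕ) (α : Φ) (x : L) : c.al ((c.ς ^ n) α) (c.σ^[n] x) = c.al α x := by
  induction n with
  | zero => rfl
  | succ n ih => rw [pow_succ', Function.iterate_succ_apply', Equiv.Perm.mul_apply, al_σ, ih]

lemma ς_pow : c.ς ^ c.ℓ = 1 := by
  refine Equiv.ext fun α => c.al_inj (LinearMap.ext fun x => ?_)
  have := al_pow c c.ℓ α x
  rwa [c.σ_pow] at this

lemma σ_int (i j : Φ ⊕ Δ) : ∃ n : ℤ, c.bas.repr (c.σ (c.bas i)) j = n := by
  rcases i with α | i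
  · obtain ⟨m, hm⟩ := rb_int c (.inl (c.ς α)) j
    rcases c.σ_e α with h | h
    · exact ⟨m, by rw [h, hm]⟩
    · exact ⟨-m, by rw [h, map_neg, Finsupp.neg_apply, hm]; simp⟩
  rcases j with β | j
  · exact ⟨0, by rw [c.σ_h]; simp⟩
  · rw [← c.al_sim, ← c.ς.apply_symm_apply (c.sim j), al_σ]
    exact c.al_int _ _

omit [Fintype Φ] [Fintype Δ] [DecidableEq Φ] [DecidableEq Δ] in
lemma ρ_gt (α : Φ) : -1 < c.al α c.ρ := by
  have := c.ρ_lt (c.neg α)
  rw [al_ng] at this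
  linarith

omit [Fintype Φ] [Fintype Δ] [DecidableEq Φ] [DecidableEq Δ] in
lemma ρ_int (α : Φ) (m : ℤ) : c.al α c.ρ + m ≠ 0 := fun h => by
  have h1 := ρ_gt c α
  have h2 := c.ρ_lt α
  have h3 : (m : ℚ) < 1 := by linarith
  have h4 : (-1 : ℚ) < m := by linarith
  have h5 : m < 1 := by exact_mod_cast h3
  have h6 : -1 < m := by exact_mod_cast h4
  obtain rfl : m = 0 := by omega
  exact c.ρ_ne α (by simpa using h)

omit [Fintype Φ] [Fintype Δ] [DecidableEq Φ] [DecidableEq Δ] in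
lemma ρ_pos (α : Φ) (m : ℤ) : 0 < c.al α c.ρ + m ↔ 0 < m ∨ (m = 0 ∧ 0 < c.al α c.ρ) := by
  have h1 := ρ_gt c α
  have h2 := c.ρ_lt α
  constructor
  · intro h
    have h4 : (-1 : ℚ) < m := by linarith
    have h6 : -1 < m := by exact_mod_cast h4
    by_cases h0 : m = 0
    · exact Or.inr ⟨h0, by simpa [h0] using h⟩
    · exact Or.inl (by omega)
  · rintro (h | ⟨rfl, h⟩)
    · have : (1 : ℚ) ≤ m := by exact_mod_cast h
      linarith
    · simpa using h

lemma fix_al (h : L) (hh : c.Fix h) (α β : Φ) (hc : c.ς.SameCycle α β) :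
    c.al α h = c.al β h := by
  obtain ⟨n, -, rfl⟩ := hc.exists_pow_eq'
  rw [← al_pow c n α h, Function.iterate_fixed hh.2]

lemma shift {M : Type} [AddCommGroup M] (f : ℕ → M) (n : ℕ) (h : f n = f 0) :
    ∑ i ∈ Finset.range n, f (i + 1) = ∑ i ∈ Finset.range n, f i := by
  have h1 := Finset.sum_range_succ f n
  rw [Finset.sum_range_succ', h] at h1
  exact add_right_cancel h1

omit [DecidableEq Φ] [DecidableEq Δ] in
lemma fix_avg (h : L) (hh : c.IsH h) : c.Fix (∑ i ∈ Finset.range c.ℓ, c.σ^[i] h) := by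
  refine ⟨CD.IsH.sum _ _ fun i _ => ?_, ?_⟩
  · induction i with
    | zero => exact hh
    | succ n ih =>
      rw [Function.iterate_succ_apply']
      exact σ_isH c _ (ih (Finset.mem_range.2 (Nat.lt_of_succ_lt (Finset.mem_range.1 ‹_›))))
  · rw [map_sum, ← shift (fun i => c.σ^[i] h) _ (c.σ_pow h)]
    exact Finset.sum_congr rfl fun i _ => (Function.iterate_succ_apply' _ _ _).symm

lemma al_avg (α : Φ) (x : L) : c.al α (∑ i ∈ Finset.range c.ℓ, c.σ^[i] x) =
    ∑ i ∈ Finset.range c.ℓ, c.al ((c.ς ^ i) α) x := by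
  rw [map_sum, ← shift (fun i => c.al ((c.ς ^ i) α) x) _ (by simp only [ς_pow, pow_zero]),
    ← Finset.sum_range_reflect (fun i => c.al ((c.ς ^ (i + 1)) α) x)]
  refine Finset.sum_congr rfl fun i hi => ?_
  have := Finset.mem_range.1 hi
  rw [← al_pow c i _ x, ← Equiv.Perm.mul_apply, ← pow_add,
    show i + (c.ℓ - 1 - i + 1) = c.ℓ by omega, ς_pow, Equiv.Perm.one_apply]

lemma cyc_neg (α β : Φ) (hc : c.ς.SameCycle α β) : c.ς.SameCycle (c.neg α) (c.neg β) := by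
  obtain ⟨n, -, rfl⟩ := hc.exists_pow_eq'
  refine ⟨n, ?_⟩
  rw [zpow_natCast]
  clear hc
  induction n with
  | zero => rfl
  | succ n ih => rw [pow_succ', Equiv.Perm.mul_apply, Equiv.Perm.mul_apply, ih, ς_neg]

omit [Fintype Φ] [Fintype Δ] [DecidableEq Φ] [DecidableEq Δ] in
lemma min_neg (lam : L) (h : c.Min lam) : c.Min (-lam) := by
  refine ⟨h.1.neg, fun α => ?_⟩
  rw [map_neg]
  rcases h.2 α with e | e | e <;> simp [e]

end CdA

open CdA in
theorem cd : S_cd c where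
  neg_neg := neg_neg' c
  neg_ne := neg_ne c
  isH_cw := isH_cw c
  isH_cor := isH_cor c
  lie_h := lie_h c
  lie_hh := lie_hh c
  h_ext := h_ext c
  al_eq := al_eq c
  lie_wt := lie_wt c
  lie_int := lie_int c
  lie_ee := lie_ee c
  cartan := cartan c
  cor_neg := cor_neg c
  kap_pos := kap_pos c
  kap_neg := kap_neg c
  kap_ς := fun α => (σ_both c α).1
  κ_ee := κ_ee c
  κ_eh := κ_eh c
  κ_cor := κ_cor c
  κ_wt := κ_wt c
  κ_dual := κ_dual c
  σ_isH := σ_isH c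
  al_σ := al_σ c
  ς_neg := ς_neg c
  σ_cor := fun α => (σ_both c α).2
  ς_pow := ς_pow c
  σ_int := σ_int c
  ρ_gt := ρ_gt c
  ρ_int := ρ_int c
  ρ_pos := ρ_pos c
  fix_al := fix_al c
  fix_avg := fix_avg c
  al_avg := al_avg c
  cyc_neg := cyc_neg c
  min_neg := min_neg c

end Pool.Agent.P.MP_e7d440_ag.U
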