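import Pool.Agent.P.MP_e7d440_ag.Defs

/-! Definitions used in the statement on pseudo-rationality of local models of tame groups. -/

namespace Pool.Agent.P.MP_e7d440_ag.U

open TensorProduct LieAlgebra LieAlgebra.IsKilling

noncomputable section

variable {L : Type} [LieRing L] [LieAlgebra ℚ L] [FiniteDimensional ℚ L] [IsKilling ℚ L]
  {H : LieSubalgebra ℚ L} [H.IsCartanSubalgebra] [LieModule.IsTriangularizable ℚ H L]

/-- The opposite root. -/
def ngt (α : H.root) : H.root :=
  ⟨-α.1, by simpa using H.isNonZero_coe_root α⟩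

/-- The coordinates of `L` in the basis formed by the root vectors `e α` and the fundamental
coweights of the base `b`. -/
def coord (b : (rootSystem H).Base) (e : H.root → L) : H.root ⊕ b.support → L →ₗ[ℚ] ℚ
  | .inl α => (killingForm ℚ L (e α) (e (ngt α)))⁻¹ • killingForm ℚ L (e (ngt α))
  | .inr i => (killingForm ℚ L (e i.1) (e (ngt i.1)))⁻¹ • killingForm ℚ L (coroot i.1.1 : H)

variable (H) in
/-- The data of a tamely ramified group, of its legs and of a minuscule coweight:
a base `b` of the root system, a Chevalley system `e`, an automorphism `σ` of order dividing `ℓ`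
preserving the pinning, a primitive `ℓ`-th root of unity `ζ`, roots `s j` of order `ℓ` of the
conjugates of the uniformizers and a dominant minuscule coweight `μ j` for every leg `j`. -/
structure Datum (O J : Type) [CommRing O] where
  b : (rootSystem H).Base
  e : H.root → L
  e_mem : ∀ α, e α ∈ rootSpace H α.1
  e_lie : ∀ α, ⁅e α, e (ngt α)⁆ = (coroot α.1 : H)
  e_int : ∀ (α : H.root) (k : ℕ) (x : L), (∀ i, ∃ n : ℤ, coord b e i x = n) →
    ∀ i, ∃ n : ℤ, coord b e i ((ad ℚ L (e α) ^ k) x) = k.factorial * n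
  σ : L ≃ₗ⁅ℚ⁆ L
  ς : Equiv.Perm H.root
  σ_e : ∀ α, σ (e α) = e (ς α) ∨ σ (e α) = -e (ς α)
  σ_h : ∀ h ∈ H, σ h ∈ H
  ς_pos : ∀ α, b.IsPos (ς α) ↔ b.IsPos α
  ℓ : ℕ
  σ_pow : ∀ x, σ^[ℓ] x = x
  ζ : O
  ζ_prim : IsPrimitiveRoot ζ ℓ
  ℓ_unit : IsUnit (ℓ : O)
  s : J → O
  s_ne : ∀ j, s j ≠ 0
  s_nonunit : ∀ j, ¬ IsUnit (s j)
  s_inj : Function.Injective fun j => s j ^ ℓ
  μ : J → H
  μ_min : ∀ j α, b.IsPos α → α.1 (μ j) = 0 ∨ α.1 (μ j) = 1

namespace Datum

variable {O J : Type} [CommRing O] [IsDomain O] [CharZero O] [Fintype J] (D : Datum H O J)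

/-- The index set of the coordinates on the big cell of the flag variety of `μ`. -/
abbrev Idx : Type := {p : J × H.root // p.2.1 (D.μ p.1) = 1}

/-- The function field of the flag variety of `μ`. -/
abbrev FF : Type := FractionRing (MvPolynomial D.Idx O)

open scoped Classical in
/-- The generic point of the flag variety of `μ j`, as the nilradical of the parabolic
subalgebra: the image of the span of the `e β` with `β (μ j) = 1` under the exponential of the
generic element of the opposite nilradical. -/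
def gen (j : J) : Submodule D.FF (D.FF ⊗[ℚ] L) :=
  (Submodule.span D.FF {v | ∃ β : H.root, β.1 (D.μ j) = 1 ∧ v = 1 ⊗ₜ D.e β}).map
    (IsNilpotent.exp (ad D.FF (D.FF ⊗[ℚ] L) (∑ p : D.Idx with p.1.1 = j,
      algebraMap (MvPolynomial D.Idx O) D.FF (MvPolynomial.X p) ⊗ₜ D.e (ngt p.1.2))))

/-- The coordinate of the loop `f = ∑ f m s ^ m` at the basis vector number `a.2` times
`s ^ a.1`. -/
def co (a : ℤ × (H.root ⊕ D.b.support)) (f : ℤ →₀ D.FF ⊗[ℚ] L) : D.FF :=
  TensorProduct.rid ℚ D.FF ((coord D.b D.e a.2).lTensor D.FF (f a.1))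

/-- The value at `x` of the affine function attached to a basis vector times a power of `s`. -/
def wt (x : H) : ℤ × (H.root ⊕ D.b.support) → ℚ
  | (m, .inl α) => α.1 x + m
  | (m, .inr _) => m

/-- The modification of the Moy-Prasad lattice `Λ(x, r)` of the twisted loop algebra along the
legs by the generic point, modulo `φ ^ 2 Λ(x, r)`, `φ = ∏ (s ^ ℓ - s j ^ ℓ)`: the equivariant
loops `f` with weights in `[r, r + 2 deg φ)` whose value at `s j` is in the nilradical `gen j`
and whose derivative at `s j` is in the parabolic subalgebra, its orthogonal. -/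
def lat (x : H) (r : ℚ) : Set (ℤ →₀ D.FF ⊗[ℚ] L) :=
  {f | (∀ m, D.σ.toLinearEquiv.toLinearMap.baseChange D.FF (f m) =
        algebraMap O D.FF D.ζ ^ (-m) • f m) ∧
    (∀ a, D.co a f ≠ 0 → r ≤ D.wt x a ∧ D.wt x a < r + 2 * (D.ℓ * Fintype.card J : ℕ)) ∧
    ∀ j, (f.sum fun m v => algebraMap O D.FF (D.s j) ^ m • v) ∈ D.gen j ∧
      ∀ u ∈ D.gen j, LinearMap.BilinForm.baseChange D.FF (killingForm ℚ L)
        (f.sum fun m v => ((m : D.FF) * algebraMap O D.FF (D.s j) ^ m) • v) u = 0}

/-- The generic point lies in the standard affine chart of the Grassmannian of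
`Λ(x, r) / φ ^ 2 Λ(x, r)` given by the set `C` of coordinates. -/
def IsChart (x : H) (r : ℚ) (C : Finset (ℤ × (H.root ⊕ D.b.support))) : Prop :=
  ∀ v : ℤ × (H.root ⊕ D.b.support) → D.FF, ∃! f, f ∈ D.lat x r ∧ ∀ a ∈ C, D.co a f = v a

open scoped Classical in
/-- The coordinate ring of the flat closure of the flag variety in the product of the affine
charts `C i` of the Grassmannians of the lattices `Λ(x i, r i)`. -/
def chart {ι : Type} (x : ι → H) (r : ι → ℚ) (C : ι → Finset (ℤ × (H.root ⊕ D.b.support))) :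
    Subalgebra O D.FF :=
  Algebra.adjoin O {t | ∃ i, ∃ f ∈ D.lat (x i) (r i), ∃ b ∈ C i,
    (∀ a ∈ C i, D.co a f = if a = b then 1 else 0) ∧ ∃ c, t = D.co c f}

/-- The normalization of `chart`. -/
def nchart {ι : Type} (x : ι → H) (r : ι → ℚ) (C : ι → Finset (ℤ × (H.root ⊕ D.b.support))) :
    Subalgebra O D.FF :=
  (integralClosure (D.chart x r C) D.FF).restrictScalars O

/-- `x` is a point of the closed base alcove of the twisted loop group: it is fixed by `σ` and
every positive affine root is nonnegative at `x`. -/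
def InAlc (x : H) : Prop :=
  D.σ x = x ∧ ∀ (α : H.root) (m : ℤ), 0 < m ∨ (m = 0 ∧ D.b.IsPos α) →
    ∑ i ∈ Finset.range D.ℓ, (algebraMap O D.FF D.ζ ^ ((i : ℤ) * m)) ⊗ₜ[ℚ] D.σ^[i] (D.e α) ≠ 0 →
      0 ≤ α.1 x + m

end Datum

/-- `γ` lies in the localization of `A` at `𝔭`. -/
def Loc {O K : Type} [CommRing O] [Field K] [Algebra O K] (A : Subalgebra O K) (𝔭 : Ideal A)
    (γ : K) : Prop :=
  ∃ a b : A, b ∉ 𝔭 ∧ γ * b = a

end

end Pool.Agent.P.MP_e7d440_ag.U
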