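import Pool.Agent.P.MP_e7d440_ag.U.IfaceC

/-! Exact statements of the steps on Lie algebras and twisted loop algebras, first part. -/

namespace Pool.Agent.P.MP_e7d440_ag.U

open TensorProduct LieAlgebra LaurentPolynomial Set

variable {L Φ Δ : Type} [LieRing L] [LieAlgebra ℚ L] [Fintype Φ] [Fintype Δ] [DecidableEq Φ]
  [DecidableEq Δ] (c : CD L Φ Δ)

/-! ## Layer 0 -/

/-- Consequences of the axioms over the rationals. -/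
structure S_cd : Prop where
  neg_neg : ∀ α, c.neg (c.neg α) = α
  neg_ne : ∀ α, c.neg α ≠ α
  isH_cw : ∀ i, c.IsH (c.cw i)
  isH_cor : ∀ α, c.IsH (c.cor α)
  lie_h : ∀ h, c.IsH h → ∀ α, ⁅h, c.e α⁆ = c.al α h • c.e α
  lie_hh : ∀ h h', c.IsH h → c.IsH h' → ⁅h, h'⁆ = 0
  h_ext : ∀ h, c.IsH h → (∀ α, c.al α h = 0) → h = 0
  al_eq : ∀ α x, c.al α x = ∑ i, c.al α (c.cw i) * c.bas.repr x (.inr i)
  lie_wt : ∀ i j k, c.bas.repr ⁅c.bas i, c.bas j⁆ k ≠ 0 →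
    ∀ z, c.wt0 z k = c.wt0 z i + c.wt0 z j
  lie_int : ∀ i j k, ∃ n : ℤ, c.bas.repr ⁅c.bas i, c.bas j⁆ k = n
  lie_ee : ∀ α β, β ≠ c.neg α → (∃ γ, c.al γ = c.al α + c.al β ∧
    ∃ n : ℤ, ⁅c.e α, c.e β⁆ = (n : ℚ) • c.e γ) ∨
    ((∀ γ, c.al γ ≠ c.al α + c.al β) ∧ ⁅c.e α, c.e β⁆ = 0)
  cartan : ∀ α β, ∃ n : ℤ, c.al β (c.cor α) = n
  cor_neg : ∀ α, c.cor (c.neg α) = -c.cor α
  kap_pos : ∀ α, 0 < c.kap α
  kap_neg : ∀ α, c.kap (c.neg α) = c.kap α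
  kap_ς : ∀ α, c.kap (c.ς α) = c.kap α
  κ_ee : ∀ α β, c.κ (c.e α) (c.e β) = if β = c.neg α then c.kap α else 0
  κ_eh : ∀ α h, c.IsH h → c.κ (c.e α) h = 0
  κ_cor : ∀ α x, c.κ (c.cor α) x = c.kap α * c.al α x
  κ_wt : ∀ i j, c.κ (c.bas i) (c.bas j) ≠ 0 → ∀ z, c.wt0 z i + c.wt0 z j = 0
  κ_dual : ∀ i, ∃ d, ∀ x, c.κ d x = c.bas.repr x i
  σ_isH : ∀ h, c.IsH h → c.IsH (c.σ h)
  al_σ : ∀ α x, c.al (c.ς α) (c.σ x) = c.al α x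
  ς_neg : ∀ α, c.ς (c.neg α) = c.neg (c.ς α)
  σ_cor : ∀ α, c.σ (c.cor α) = c.cor (c.ς α)
  ς_pow : c.ς ^ c.ℓ = 1
  σ_int : ∀ i j, ∃ n : ℤ, c.bas.repr (c.σ (c.bas i)) j = n
  ρ_gt : ∀ α, -1 < c.al α c.ρ
  ρ_int : ∀ α (m : ℤ), c.al α c.ρ + m ≠ 0
  ρ_pos : ∀ α (m : ℤ), 0 < c.al α c.ρ + m ↔ 0 < m ∨ (m = 0 ∧ 0 < c.al α c.ρ)
  fix_al : ∀ h, c.Fix h → ∀ α β, c.ς.SameCycle α β → c.al α h = c.al β h
  fix_avg : ∀ h, c.IsH h → c.Fix (∑ i ∈ Finset.range c.ℓ, c.σ^[i] h)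
  al_avg : ∀ α x, c.al α (∑ i ∈ Finset.range c.ℓ, c.σ^[i] x) =
    ∑ i ∈ Finset.range c.ℓ, c.al ((c.ς ^ i) α) x
  cyc_neg : ∀ α β, c.ς.SameCycle α β → c.ς.SameCycle (c.neg α) (c.neg β)
  min_neg : ∀ lam, c.Min lam → c.Min (-lam)

/-- Orbits of roots. -/
structure S_orb : Prop where
  per_pos : ∀ α, 0 < c.per α
  per_mul : ∀ α, c.per α * Function.minimalPeriod c.ς α = c.ℓ
  per_neg : ∀ α, c.per (c.neg α) = c.per α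
  per_cyc : ∀ α β, c.ς.SameCycle α β → c.per α = c.per β
  kap_cyc : ∀ α β, c.ς.SameCycle α β → c.kap α = c.kap β
  tau_cyc : ∀ α β, c.ς.SameCycle α β → c.tau α = c.tau β
  nu_cyc : ∀ α β, c.ς.SameCycle α β → c.nu α = c.nu β
  tau_neg : ∀ α, c.tau (c.neg α) = -c.tau α
  nu_neg : ∀ α, c.nu (c.neg α) = c.nu α
  nu_pos : ∀ α, 0 < c.nu α
  kp_pos : ∀ α, 0 < c.kp α
  kp_neg : ∀ α, c.kp (c.neg α) = c.kp α
  th_neg : ∀ α, c.th (c.neg α) = c.th α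
  tau_fix : ∀ α, c.Fix (c.tau α)
  κ_tau : ∀ α h, c.Fix h → c.κ (c.tau α) h = c.al α h
  tau_ext : ∀ h h', c.Fix h → c.Fix h' → (∀ z, c.Fix z → c.κ h z = c.κ h' z) → h = h'
  th_eq : ∀ α, c.th α = (c.per α : ℚ) ^ 2 ∨ (c.th α = (c.per α : ℚ) ^ 2 / 2 ∧ 2 ∣ c.ℓ)
  kp_tau : ∀ α, c.kp α • c.tau α = (c.per α : ℚ) ^ 2 •
    ∑ i ∈ Finset.range (Function.minimalPeriod c.ς α), c.cor ((c.ς ^ i) α)
  sum_int : ∀ α i, ∃ n : ℤ, c.bas.repr ((c.kp α / (c.per α : ℚ) ^ 2) • c.tau α) i = n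
  no_sub : ∀ α β γ, c.ς.SameCycle α β → c.al γ ≠ c.al α - c.al β
  orb_le : ∀ α β, c.ς.SameCycle α β → β ≠ α → c.al β (c.cor α) = 0 ∨ c.al β (c.cor α) = -1
  orb_two : ∀ α β, c.ς.SameCycle α β → c.al β (c.cor α) = -1 → 2 ∣ c.ℓ ∧
    c.al α (c.cor β) = -1 ∧ ∀ γ, c.ς.SameCycle α γ → c.al γ (c.cor α) = -1 → γ = β
  inj : ∀ α β, (∀ h, c.Fix h → c.al α h = c.al β h) → c.ς.SameCycle α β
  sim_iff : ∀ a a', c.Sim a a' ↔ ∀ z, c.Fix z → c.val a z = c.val a' z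
  ratio : ∀ α β (q : ℚ), 1 < q → (∀ h, c.Fix h → c.al β h = q * c.al α h) → q = 2
  rf_fix : ∀ b z, c.Fix z → c.Fix (c.rf b z)
  rf_val : ∀ b z, c.val b (c.rf b z) = -c.val b z
  rf_rf : ∀ b z, c.rf b (c.rf b z) = z
  rf_ng : ∀ b z, c.rf (c.ng b) z = c.rf b z
  rf_wall : ∀ b x, c.val b x = 0 → c.rf b x = x
  bar_fix : ∀ {J : Type} [Fintype J] (lam : J → L), (∀ j, c.IsH (lam j)) → c.Fix (c.bar lam)
  al_bar : ∀ {J : Type} [Fintype J] (lam : J → L) α, c.al α (c.bar lam) =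
    ∑ j, ∑ k ∈ Finset.range c.ℓ, c.al ((c.ς ^ k) α) (lam j)
  bar_int : ∀ {J : Type} [Fintype J] (lam : J → L), (∀ j, c.Min (lam j)) →
    ∀ α, ∃ n : ℤ, c.al α (c.bar lam) = n
  bar_neg : ∀ {J : Type} [Fintype J] (lam : J → L), c.bar (-lam) = -c.bar lam

/-- Extension of scalars. -/
structure S_gk : Prop where
  symm : ∀ {R : Type} [CommRing R] [Algebra ℚ R] (x y : G L R), c.kR R x y = c.kR R y x
  inv : ∀ {R : Type} [CommRing R] [Algebra ℚ R] (x y z : G L R),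
    c.kR R ⁅x, y⁆ z = c.kR R x ⁅y, z⁆
  sg_lie : ∀ {R : Type} [CommRing R] [Algebra ℚ R] (x y : G L R),
    c.sg R ⁅x, y⁆ = ⁅c.sg R x, c.sg R y⁆
  sg_form : ∀ {R : Type} [CommRing R] [Algebra ℚ R] (x y : G L R),
    c.kR R (c.sg R x) (c.sg R y) = c.kR R x y
  sg_pow : ∀ {R : Type} [CommRing R] [Algebra ℚ R], c.sg R ^ c.ℓ = 1
  sg_pow_c0 : ∀ {R : Type} [CommRing R] [Algebra ℚ R] (i : ℕ) (r : R) (x : L),
    (c.sg R ^ i) (r ⊗ₜ[ℚ] x) = r ⊗ₜ[ℚ] c.σ^[i] x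
  crd_sg : ∀ α, ∃ ε : ℚ, (ε = 1 ∨ ε = -1) ∧ c.σ (c.e α) = ε • c.e (c.ς α) ∧
    ∀ {R : Type} [CommRing R] [Algebra ℚ R] (x : G L R),
      c.crd (.inl (c.ς α)) (c.sg R x) = ε • c.crd (.inl α) x
  crd_sg_inr : ∀ {R : Type} [CommRing R] [Algebra ℚ R] (x : G L R),
    (∀ i, c.crd (.inr i) x = 0) → ∀ i, c.crd (.inr i) (c.sg R x) = 0
  alR_sg : ∀ {R : Type} [CommRing R] [Algebra ℚ R] α (x : G L R),
    c.alR (c.ς α) (c.sg R x) = c.alR α x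
  alR_eq : ∀ {R : Type} [CommRing R] [Algebra ℚ R] α (x : G L R),
    c.alR α x = ∑ i, c.al α (c.cw i) • c.crd (.inr i) x
  alR_sim : ∀ {R : Type} [CommRing R] [Algebra ℚ R] i (x : G L R),
    c.alR (c.sim i) x = c.crd (.inr i) x
  crd_bs : ∀ {R : Type} [CommRing R] [Algebra ℚ R] i j,
    c.crd i (c.bs R j) = if j = i then 1 else 0
  lie_c0 : ∀ {R : Type} [CommRing R] [Algebra ℚ R] h, c.IsH h → ∀ i (x : G L R),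
    c.crd i ⁅c0 R h, x⁆ = c.wt0 h i • c.crd i x
  lie_H : ∀ {R : Type} [CommRing R] [Algebra ℚ R] (h : G L R), (∀ β, c.crd (.inl β) h = 0) →
    ∀ x : G L R, (∀ α, c.crd (.inl α) ⁅h, x⁆ = c.alR α h * c.crd (.inl α) x) ∧
      ∀ i, c.crd (.inr i) ⁅h, x⁆ = 0
  gr_lie : ∀ {R : Type} [CommRing R] [Algebra ℚ R] z (P P' Q : Set ℚ) (x y : G L R),
    x ∈ c.Gr z P → y ∈ c.Gr z P' → (∀ p ∈ P, ∀ p' ∈ P', p + p' ∈ Q) → ⁅x, y⁆ ∈ c.Gr z Q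
  gr_kR : ∀ {R : Type} [CommRing R] [Algebra ℚ R] z (P P' : Set ℚ) (x y : G L R),
    x ∈ c.Gr z P → y ∈ c.Gr z P' → (∀ p ∈ P, ∀ p' ∈ P', p + p' ≠ 0) → c.kR R x y = 0
  gr_bs : ∀ {R : Type} [CommRing R] [Algebra ℚ R] z (P : Set ℚ) i, c.wt0 z i ∈ P →
    c.bs R i ∈ c.Gr z P
  nil_pos : ∀ z, ∃ N : ℕ, ∀ {R : Type} [CommRing R] [Algebra ℚ R] (x : G L R),
    x ∈ c.Gr z (Ioi 0) ∨ x ∈ c.Gr z (Iio 0) → ad R (G L R) x ^ N = 0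
  nil_e : ∀ {R : Type} [CommRing R] [Algebra ℚ R] (r : R) α, Nil (r • c.bs R (.inl α))
  kR_e : ∀ {R : Type} [CommRing R] [Algebra ℚ R] α (x : G L R),
    c.kR R (c.bs R (.inl (c.neg α))) x = c.kap α • c.crd (.inl α) x
  kR_cor : ∀ {R : Type} [CommRing R] [Algebra ℚ R] α (x : G L R),
    c.kR R (c0 R (c.cor α)) x = c.kap α • c.alR α x
  kR_root : ∀ {R : Type} [CommRing R] [Algebra ℚ R] (x y : G L R), (∀ i, c.crd (.inr i) y = 0) →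
    c.kR R x y = ∑ β, c.kap β • (c.crd (.inl (c.neg β)) x * c.crd (.inl β) y)
  dual : ∀ i, ∃ d : L, ∀ {R : Type} [CommRing R] [Algebra ℚ R] (x : G L R),
    c.kR R (c0 R d) x = c.crd i x
  in_lie : ∀ {R : Type} [CommRing R] [Algebra ℚ R] (S : Subring R) (M : Set R) (x y : G L R),
    SM S M → c.In0 S x → c.In0 M y → c.In0 M ⁅x, y⁆ ∧ c.In0 M ⁅y, x⁆
  in_sg : ∀ {R : Type} [CommRing R] [Algebra ℚ R] (S : Subring R) (M : Set R) (x : G L R),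
    SM S M → c.In0 M x → c.In0 M (c.sg R x)
  in_bs : ∀ {R : Type} [CommRing R] [Algebra ℚ R] (S : Subring R) i, c.In0 S (c.bs R i)
  in_kR : ∀ {R : Type} [CommRing R] [Algebra ℚ R] (S : Subring R) (M : Set R) (x y : G L R),
    (∀ q : ℚ, algebraMap ℚ R q ∈ S) → SM S M → c.In0 S x → c.In0 M y → c.kR R x y ∈ M
  mqa_lie : ∀ {R R' : Type} [CommRing R] [Algebra ℚ R] [CommRing R'] [Algebra ℚ R']
    (f : R →+* R') (x y : G L R), mqa (f : R →+ R') ⁅x, y⁆ = ⁅mqa (f : R →+ R') x, mqa (f : R →+ R') y⁆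
  mqa_kR : ∀ {R R' : Type} [CommRing R] [Algebra ℚ R] [CommRing R'] [Algebra ℚ R']
    (f : R →+* R') (x y : G L R),
      c.kR R' (mqa (f : R →+ R') x) (mqa (f : R →+ R') y) = f (c.kR R x y)
  mqa_smul : ∀ {R R' : Type} [CommRing R] [Algebra ℚ R] [CommRing R'] [Algebra ℚ R']
    (f : R →+* R') (r : R) (x : G L R), mqa (f : R →+ R') (r • x) = f r • mqa (f : R →+ R') x
  mqa_sg : ∀ {R R' : Type} [CommRing R] [Algebra ℚ R] [CommRing R'] [Algebra ℚ R']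
    (f : R →+ R') (x : G L R), mqa f (c.sg R x) = c.sg R' (mqa f x)
  der_lie : ∀ {R : Type} [CommRing R] [Algebra ℚ R] (δ : R →+ R),
    (∀ a b, δ (a * b) = a * δ b + b * δ a) →
      (∀ x y : G L R, mqa δ ⁅x, y⁆ = ⁅mqa δ x, y⁆ + ⁅x, mqa δ y⁆) ∧
      (∀ (r : R) (x : G L R), mqa δ (r • x) = δ r • x + r • mqa δ x) ∧
      ∀ x : L, mqa δ (c0 R x) = 0

/-- Exponentials. -/
structure S_ex : Prop where
  nil_smul : ∀ {R : Type} [CommRing R] [Algebra ℚ R] (t : R) (x : G L R), Nil x → Nil (t • x)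
  nil_neg : ∀ {R : Type} [CommRing R] [Algebra ℚ R] (x : G L R), Nil x → Nil (-x)
  zero : ∀ {R : Type} [CommRing R] [Algebra ℚ R], Nil (0 : G L R) ∧ ex (0 : G L R) = 1
  a0 : ∀ {R : Type} [CommRing R] [Algebra ℚ R] (x : G L R), Nil x → c.A0 (ex x)
  inv : ∀ {R : Type} [CommRing R] [Algebra ℚ R] (x : G L R), Nil x →
    ex x * ex (-x) = 1 ∧ ex (-x) * ex x = 1
  sum : ∀ {R : Type} [CommRing R] [Algebra ℚ R] (x y : G L R) (N : ℕ), ad R (G L R) x ^ N = 0 →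
    ex x y = ∑ k ∈ Finset.range N, ((k.factorial : ℚ)⁻¹) • (ad R (G L R) x ^ k) y
  fix : ∀ {R : Type} [CommRing R] [Algebra ℚ R] (x y : G L R), Nil x → ⁅x, y⁆ = 0 → ex x y = y
  two : ∀ {R : Type} [CommRing R] [Algebra ℚ R] (x y : G L R), Nil x → ⁅x, ⁅x, y⁆⁆ = 0 →
    ex x y = y + ⁅x, y⁆
  three : ∀ {R : Type} [CommRing R] [Algebra ℚ R] (x y : G L R), Nil x → ⁅x, ⁅x, ⁅x, y⁆⁆⁆ = 0 →
    ex x y = y + ⁅x, y⁆ + (1 / 2 : ℚ) • ⁅x, ⁅x, y⁆⁆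
  stable : ∀ {R K : Type} [CommRing R] [Algebra ℚ R] [CommRing K] [Algebra ℚ K]
    [Module K (G L R)] [IsScalarTower ℚ K (G L R)] (N N' : Submodule K (G L R)) (x : G L R),
      Nil x → N' ≤ N → (∀ y ∈ N, ⁅x, y⁆ ∈ N') → ∀ y ∈ N, ex x y - y ∈ N' ∧ ex x y ∈ N
  add : ∀ {R : Type} [CommRing R] [Algebra ℚ R] (x y : G L R), Nil x → Nil y → ⁅x, y⁆ = 0 →
    Nil (x + y) ∧ ex (x + y) = ex x * ex y
  heis : ∀ {R : Type} [CommRing R] [Algebra ℚ R] (x y : G L R), Nil x → Nil y → Nil (x + y) →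
    Nil ⁅x, y⁆ → ⁅x, ⁅x, y⁆⁆ = 0 → ⁅y, ⁅x, y⁆⁆ = 0 →
      ex (x + y) = ex x * ex y * ex (-((1 / 2 : ℚ) • ⁅x, y⁆))
  conj : ∀ {R : Type} [CommRing R] [Algebra ℚ R] (g : Module.End R (G L R)) (x : G L R),
    c.A0 g → Nil x → Nil (g x) ∧ g * ex x = ex (g x) * g
  nat : ∀ {R R' : Type} [CommRing R] [Algebra ℚ R] [CommRing R'] [Algebra ℚ R']
    (f : R →+* R') (x : G L R), Nil x → Nil (mqa (f : R →+ R') x) ∧
      ∀ y, mqa (f : R →+ R') (ex x y) = ex (mqa (f : R →+ R') x) (mqa (f : R →+ R') y)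
  nat_pf : ∀ {R R' : Type} [CommRing R] [Algebra ℚ R] [CommRing R'] [Algebra ℚ R']
    (f : R →+* R') {n : ℕ} (x : Fin n → G L R) (k : ℕ), (∀ i, Nil (x i)) → ∀ y,
      mqa (f : R →+ R') (pf x k y) = pf (fun i => mqa (f : R →+ R') (x i)) k (mqa (f : R →+ R') y)
  logd : ∀ {R : Type} [CommRing R] [Algebra ℚ R] (δ : G L R →+ G L R) (x : G L R),
    (∀ y z, δ ⁅y, z⁆ = ⁅δ y, z⁆ + ⁅y, δ z⁆) → Nil x → ⁅δ x, x⁆ = 0 →
      ∀ y, δ (ex x y) = ex x (δ y) + ⁅δ x, ex x y⁆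
  a0_one : ∀ {R : Type} [CommRing R] [Algebra ℚ R], c.A0 (1 : Module.End R (G L R))
  a0_mul : ∀ {R : Type} [CommRing R] [Algebra ℚ R] (g g' : Module.End R (G L R)),
    c.A0 g → c.A0 g' → c.A0 (g * g')
  a0_inv : ∀ {R : Type} [CommRing R] [Algebra ℚ R] (g g' : Module.End R (G L R)),
    c.A0 g → g * g' = 1 → c.A0 g' ∧ g' * g = 1
  a0_ex : ∀ {R : Type} [CommRing R] [Algebra ℚ R] (g : Module.End R (G L R)),
    c.A0 g → ∃ g', g * g' = 1 ∧ g' * g = 1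
  a0_pf : ∀ {R : Type} [CommRing R] [Algebra ℚ R] {n : ℕ} (x : Fin n → G L R) (k : ℕ),
    (∀ i, Nil (x i)) → c.A0 (pf x k)
  pf_step : ∀ {R : Type} [CommRing R] [Algebra ℚ R] {n : ℕ} (x : Fin n → G L R) (k : Fin n),
    pf x k = ex (x k) * pf x (k + 1)
  pf_top : ∀ {R : Type} [CommRing R] [Algebra ℚ R] {n : ℕ} (x : Fin n → G L R) (k : ℕ),
    n ≤ k → pf x k = 1
  pf_ind : ∀ {R : Type} [CommRing R] [Algebra ℚ R] {n : ℕ} (x : Fin n → G L R) (k : ℕ)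
    (Q : Module.End R (G L R) → Prop), Q 1 → (∀ g g', Q g → Q g' → Q (g * g')) →
      (∀ i : Fin n, k ≤ i → Q (ex (x i))) → Q (pf x k)
  in_ex : ∀ {R : Type} [CommRing R] [Algebra ℚ R] (S : Subring R) (M : Set R) (x y : G L R),
    (∀ q : ℚ, algebraMap ℚ R q ∈ S) → SM S M → Nil x →
      (c.In0 S x → c.In0 M y → c.In0 M (ex x y)) ∧
      (M ⊆ S → c.In0 M x → c.In0 S y → c.In0 M (ex x y - y))
  in_e : ∀ {R : Type} [CommRing R] [Algebra ℚ R] (S : Subring R) (M : Set R) (r : R) α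
    (y : G L R), SM S M → (r ∈ S → c.In0 M y → c.In0 M (ex (r • c.bs R (.inl α)) y)) ∧
      (M ⊆ S → r ∈ M → c.In0 S y → c.In0 M (ex (r • c.bs R (.inl α)) y - y))

/-- everything in layer 0 -/
structure T0 : Prop where
  cd : S_cd c
  orb : S_orb c
  gk : S_gk c
  ex : S_ex c

/-! ## Layer 1: over a field -/

variable (K : Type) [Field K] [CharZero K]

/-- Algebra of loops. -/
structure S_lp : Prop where
  evL_C : ∀ (s a : K), evL s (C a) = a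
  evL_mul : ∀ s : K, s ≠ 0 → ∀ p q : LP K, evL s (p * q) = evL s p * evL s q
  evL_eq : ∀ (s : K) (p : LP K), evL s p = p.coeff.sum fun m a => a * s ^ m
  evL_hom : ∀ s : K, s ≠ 0 → ∃ f : LP K →+* K, (∀ p, f p = evL s p) ∧
    ∀ x : LG L K, mqa (f : LP K →+ K) x = ev s x
  ddL_coeff : ∀ (p : LP K) m, (ddL p).coeff m = m * p.coeff m
  ddL_mul : ∀ p q : LP K, ddL (p * q) = p * ddL q + q * ddL p
  smul_C : ∀ (t : K) (f : LG L K), t • f = (C t : LP K) • f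
  crd_ev : ∀ (s : K) i (f : LG L K), c.crd i (ev s f) = evL s (c.crd i f)
  crd_dd : ∀ i (f : LG L K), c.crd i (dd f) = ddL (c.crd i f)
  co_dd : ∀ a (f : LG L K), c.co a (dd f) = a.1 * c.co a f
  co_c0 : ∀ h, c.IsH h → ∀ a (f : LG L K), c.co a ⁅c0 (LP K) h, f⁆ = c.wt0 h a.2 * c.co a f
  co_T : ∀ (k m : ℤ) i (f : LG L K), c.co (m, i) ((T k : LP K) • f) = c.co (m - k, i) f
  co_const : ∀ a (x : L), c.co a (c0 (LP K) x) = if a.1 = 0 then (c.bas.repr x a.2 : K) else 0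
  dd_lie : ∀ f g : LG L K, dd ⁅f, g⁆ = ⁅dd f, g⁆ + ⁅f, dd g⁆
  dd_smul : ∀ (p : LP K) (f : LG L K), dd (p • f) = ddL p • f + p • dd f
  dd_mon : ∀ m (x : G L K), dd (mon m x) = (m : K) • mon m x
  dd_c0 : ∀ x : L, dd (c0 (LP K) x) = 0
  ev_lie : ∀ s : K, s ≠ 0 → ∀ f g : LG L K, ev s ⁅f, g⁆ = ⁅ev s f, ev s g⁆
  ev_smul : ∀ s : K, s ≠ 0 → ∀ (p : LP K) (f : LG L K), ev s (p • f) = evL s p • ev s f
  ev_kR : ∀ s : K, s ≠ 0 → ∀ f g : LG L K, evL s (c.kR (LP K) f g) = c.kR K (ev s f) (ev s g)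
  ev_mon : ∀ (s : K) m (x : G L K), ev s (mon m x) = s ^ m • x
  ev_c0 : ∀ (s : K) (x : L), ev s (c0 (LP K) x) = c0 K x
  cf_mon : ∀ m n (x : G L K), cf m (mon n x) = if n = m then x else 0
  cf_ext : ∀ f g : LG L K, (∀ m, cf m f = cf m g) → f = g
  cf_smul : ∀ (p : LP K) (f : LG L K) n, cf n (p • f) = p.coeff.sum fun m a => a • cf (n - m) f
  mon_lie : ∀ m n (x y : G L K), ⁅mon m x, mon n y⁆ = mon (m + n) ⁅x, y⁆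
  mon_kR : ∀ m n (x y : G L K), c.kR (LP K) (mon m x) (mon n y) = C (c.kR K x y) * T (m + n)
  mon_T : ∀ k m (x : G L K), (T k : LP K) • mon m x = mon (k + m) x
  mon_c0 : ∀ x : L, mon 0 (c0 K x) = c0 (LP K) x
  sum_mon : ∀ f : LG L K, ∃ t : Finset ℤ, (∀ m ∉ t, cf m f = 0) ∧ f = ∑ m ∈ t, mon m (cf m f)
  lie_smul : ∀ (t : K) (f g : LG L K), ⁅t • f, g⁆ = t • ⁅f, g⁆ ∧ ⁅f, t • g⁆ = t • ⁅f, g⁆
  kR_smul : ∀ (t : K) (f g : LG L K), c.kR (LP K) (t • f) g = t • c.kR (LP K) f g ∧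
    c.kR (LP K) f (t • g) = t • c.kR (LP K) f g
  nil_smul : ∀ (t : K) (f : LG L K), Nil f → Nil (t • f)
  op_smul : ∀ (g : Op L K) (t : K) (f : LG L K), g (t • f) = t • g f
  ev_op : ∀ s : K, s ≠ 0 → ∀ (g : Op L K) f, ev s (g f) = evE s g (ev s f)
  evE_one : ∀ s : K, evE s (1 : Op L K) = 1
  evE_mul : ∀ s : K, s ≠ 0 → ∀ g g' : Op L K, evE s (g * g') = evE s g * evE s g'
  evE_ex : ∀ s : K, s ≠ 0 → ∀ x : LG L K, Nil x → Nil (ev s x) ∧ evE s (ex x) = ex (ev s x)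
  evE_pf : ∀ s : K, s ≠ 0 → ∀ {n : ℕ} (x : Fin n → LG L K) (k : ℕ), (∀ i, Nil (x i)) →
    evE s (pf x k) = pf (fun i => ev s (x i)) k
  evE_a0 : ∀ s : K, s ≠ 0 → ∀ g : Op L K, c.A0 g → c.A0 (evE s g)

/-- Supports and integrality of loops. -/
structure S_sup : Prop where
  fin : ∀ f : LG L K, {a | c.co a f ≠ 0}.Finite
  ind : ∀ {X : Type} (t : ℤ × (Φ ⊕ Δ) → X) (Q : LG L K → Prop), Q 0 →
    (∀ f g, Q f → Q g → Q (f + g)) → ∀ f, (∀ a, c.co a f ≠ 0 → Q (c.pr (fun a' => t a' = t a) f)) →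
      Q f
  pr_sup : ∀ p z P (f : LG L K), f ∈ c.Sup z P → c.pr p f ∈ c.Sup z P
  pr_in : ∀ p (M : Set K) (f : LG L K), 0 ∈ M → c.In M f → c.In M (c.pr p f)
  pr_wt : ∀ z (P : Set ℚ) (f : LG L K), c.pr (fun a => c.wt z a ∈ P) f ∈ c.Sup z P ∧
    f - c.pr (fun a => c.wt z a ∈ P) f ∈ c.Sup z Pᶜ
  disj : ∀ z (P P' : Set ℚ) (f : LG L K), f ∈ c.Sup z P → f ∈ c.Sup z P' → f ∈ c.Sup z (P ∩ P')
  empty : ∀ z (P P' : Set ℚ) (f : LG L K), f ∈ c.Sup z P → f ∈ c.Sup z P' →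
    (∀ p ∈ P, p ∉ P') → f = 0
  lie : ∀ z (P P' Q : Set ℚ) (f g : LG L K), f ∈ c.Sup z P → g ∈ c.Sup z P' →
    (∀ p ∈ P, ∀ p' ∈ P', p + p' ∈ Q) → ⁅f, g⁆ ∈ c.Sup z Q
  kR : ∀ z (P P' : Set ℚ) (f g : LG L K), f ∈ c.Sup z P → g ∈ c.Sup z P' →
    ∀ n, (c.kR (LP K) f g).coeff n ≠ 0 → ∃ p ∈ P, ∃ p' ∈ P', p + p' = n
  smul : ∀ z (P Q : Set ℚ) (p : LP K) (f : LG L K), f ∈ c.Sup z P →
    (∀ n, p.coeff n ≠ 0 → ∀ q ∈ P, q + n ∈ Q) → p • f ∈ c.Sup z Q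
  lead : ∀ z r (p : LP K) (f : LG L K), (∀ n < 0, p.coeff n = 0) → f ∈ c.Sup z (Ici r) →
    p • f - p.coeff 0 • f ∈ c.Sup z (Ioi r)
  sup_T : ∀ z (P : Set ℚ) (k : ℤ) (f : LG L K),
    (T k : LP K) • f ∈ c.Sup z P ↔ f ∈ c.Sup z {q | q + k ∈ P}
  dd : ∀ z P (f : LG L K), f ∈ c.Sup z P → dd f ∈ c.Sup z P
  c0 : ∀ z h, c.IsH h → c0 (LP K) h ∈ c.Sup z {0}
  mon : ∀ z (P : Set ℚ) m (x : G L K), mon m x ∈ c.Sup z P ↔ x ∈ c.Gr z {q | q + m ∈ P}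
  gap_lo : ∀ z r (f : LG L K), f ∈ c.Sup z (Ioi r) → ∃ r', r < r' ∧ f ∈ c.Sup z (Ici r')
  gap_hi : ∀ z r (f : LG L K), f ∈ c.Sup z (Iio r) → ∃ r', r' < r ∧ f ∈ c.Sup z (Iic r')
  bdd : ∀ z (f : LG L K), ∃ r r', f ∈ c.Sup z (Icc r r')
  low : ∀ z (f : LG L K), f ≠ 0 → ∃ r, f ∈ c.Sup z (Ici r) ∧ ∃ a, c.co a f ≠ 0 ∧ c.wt z a = r
  high : ∀ z (f : LG L K), f ≠ 0 → ∃ r, f ∈ c.Sup z (Iic r) ∧ ∃ a, c.co a f ≠ 0 ∧ c.wt z a = r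
  eig : ∀ z, c.IsH z → ∀ (r : ℚ) (f : LG L K),
    f ∈ c.Sup z {r} ↔ U.dd f + ⁅U.c0 (LP K) z, f⁆ = (r : K) • f
  ex_ge : ∀ z r (x f : LG L K), Nil x → f ∈ c.Sup z (Ici r) →
    (x ∈ c.Sup z (Ici 0) → ex x f ∈ c.Sup z (Ici r)) ∧
    (x ∈ c.Sup z (Ioi 0) → ex x f - f ∈ c.Sup z (Ioi r))
  ex_gt : ∀ z r (x f : LG L K), Nil x → f ∈ c.Sup z (Ioi r) → x ∈ c.Sup z (Ici 0) →
    ex x f ∈ c.Sup z (Ioi r)
  ex_le : ∀ z r (x f : LG L K), Nil x → f ∈ c.Sup z (Iic r) →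
    (x ∈ c.Sup z (Iic 0) → ex x f ∈ c.Sup z (Iic r)) ∧
    (x ∈ c.Sup z (Iio 0) → ex x f - f ∈ c.Sup z (Iio r))
  ex_lt : ∀ z r (x f : LG L K), Nil x → f ∈ c.Sup z (Iio r) → x ∈ c.Sup z (Iic 0) →
    ex x f ∈ c.Sup z (Iio r)
  in_add : ∀ (S : Subring K) (M : Set K), SM S M → c.In M (0 : LG L K) ∧
    (∀ f g : LG L K, c.In M f → c.In M g → c.In M (f + g) ∧ c.In M (f - g)) ∧
    (∀ (t : K) (f : LG L K), t ∈ S → c.In M f → c.In M (t • f)) ∧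
    (∀ (t : K) (f : LG L K), t ∈ M → c.In S f → c.In M (t • f)) ∧
    ∀ {ι : Type} (t : Finset ι) (f : ι → LG L K), (∀ i ∈ t, c.In M (f i)) → c.In M (∑ i ∈ t, f i)
  in_lie : ∀ (S : Subring K) (M : Set K) (f g : LG L K), SM S M → c.In S f → c.In M g →
    c.In M ⁅f, g⁆ ∧ c.In M ⁅g, f⁆
  in_smul : ∀ (S : Subring K) (M : Set K) (p : LP K) (f : LG L K), SM S M →
    ((∀ n, p.coeff n ∈ S) → c.In M f → c.In M (p • f)) ∧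
    ((∀ n, p.coeff n ∈ M) → c.In S f → c.In M (p • f))
  in_T : ∀ (M : Set K) (k : ℤ) (f : LG L K), c.In M ((T k : LP K) • f) ↔ c.In M f
  in_dd : ∀ (S : Subring K) (M : Set K) (f : LG L K), SM S M → c.In M f → c.In M (U.dd f)
  in_mon : ∀ (M : Set K) m (x : G L K), 0 ∈ M → (c.In M (U.mon m x) ↔ c.In0 M x)
  in_cf : ∀ (M : Set K) (f : LG L K), c.In M f ↔ ∀ m, c.In0 M (cf m f)
  in_ev : ∀ (S : Subring K) (M : Set K) (s : K) (f : LG L K), SM S M → s ∈ S → s⁻¹ ∈ S →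
    c.In M f → c.In0 M (ev s f)
  in_lift : ∀ (S : Subring K) (M : Set K), SM S M → ∃ (S' : Subring (LP K)) (M' : Set (LP K)),
    SM S' M' ∧ (∀ p, p ∈ S' ↔ ∀ n, p.coeff n ∈ S) ∧ (∀ p, p ∈ M' ↔ ∀ n, p.coeff n ∈ M) ∧
      (∀ f : LG L K, c.In0 S' f ↔ c.In S f) ∧ ∀ f : LG L K, c.In0 M' f ↔ c.In M f
  prim : ∀ (V : ValuationSubring K) (f : LG L K), f ≠ 0 →
    ∃ t : K, t ≠ 0 ∧ c.In V (t • f) ∧ ∃ a, c.co a (t • f) = 1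
  prim0 : ∀ (V : ValuationSubring K) (x : G L K), x ≠ 0 →
    ∃ t : K, t ≠ 0 ∧ c.In0 V (t • x) ∧ ∃ i, c.crd i (t • x) = 1
  arch : ∀ (V : ValuationSubring K) (s : K), s ∈ V → (∀ γ : K, ∃ M : ℕ, s ^ M * γ ∈ V) →
    ∀ f : LG L K, ∃ M : ℕ, ∀ M', M ≤ M' → c.In V (s ^ M' • f)

/-- Nilradicals of minuscule parabolic subalgebras. -/
structure S_fd : Prop where
  iso : ∀ U : Submodule K (G L K), c.FD U → ∀ x ∈ U, ∀ y ∈ U, c.kR K x y = 0 ∧ ⁅x, y⁆ = 0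
  norm : ∀ U : Submodule K (G L K), c.FD U → ∀ η : G L K, (∀ x ∈ U, ⁅η, x⁆ ∈ U) →
    ∀ x ∈ U, c.kR K η x = 0
  der : ∀ U : Submodule K (G L K), c.FD U → ∀ δ : G L K →+ G L K,
    (∀ y z, δ ⁅y, z⁆ = ⁅δ y, z⁆ + ⁅y, δ z⁆) → ∀ x ∈ U, ∀ y ∈ U, c.kR K (δ x) y = 0
  map : ∀ (U : Submodule K (G L K)) g, c.A0 g → c.FD U → c.FD (U.map g) ∧
    Module.finrank K (U.map g) = Module.finrank K U
  u1 : ∀ lam, c.Min lam → c.FD (c.U1 K lam)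
  perp : ∀ lam, c.Min lam → ∀ y : G L K,
    (∀ x ∈ c.U1 K lam, c.kR K y x = 0) ↔ y ∈ c.Gr lam (Ici 0)
  span : ∀ lam, c.U1 K lam =
    Submodule.span K {v | ∃ β, c.al β lam = 1 ∧ v = c.bs K (.inl β)}
  rank : ∀ lam, Module.finrank K (c.U1 K lam) = Fintype.card {β // c.al β lam = 1}
  card : ∀ {J : Type} [Fintype J] (lam : J → L),
    Fintype.card (c.Id lam) = ∑ j, Fintype.card {β // c.al β (lam j) = 1}
  nX : ∀ {J : Type} [Fintype J] [DecidableEq J] (lam : J → L) (X : c.Id lam → K) j,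
    c.nX lam X j ∈ c.Gr (lam j) {-1} ∧ Nil (c.nX lam X j) ∧
      ∀ p : c.Id lam, p.1.1 = j → c.crd (.inl (c.neg p.1.2)) (c.nX lam X j) = X p
  nX_of : ∀ {J : Type} [Fintype J] [DecidableEq J] (lam : J → L) (n : J → G L K),
    (∀ j, n j ∈ c.Gr (lam j) {-1}) → ∃ X : c.Id lam → K, ∀ j, c.nX lam X j = n j
  cell : ∀ {J : Type} [Fintype J] [DecidableEq J] (lam : J → L) (X : c.Id lam → K) j,
    c.Min (lam j) → c.FD (c.cell lam X j) ∧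
      Module.finrank K (c.cell lam X j) = Fintype.card {β // c.al β (lam j) = 1}
  def_map : ∀ (S : Subfield K) (U : Submodule K (G L K)) (x : G L K), Nil x → c.In0 S x →
    c.Def0 S U → c.Def0 S (U.map (ex x))
  def_u1 : ∀ (S : Subfield K) lam, c.Def0 S (c.U1 K lam)

/-- Subspaces normalized by a regular element. -/
structure S_fix : Prop where
  fix0 : ∀ U : Submodule K (G L K), (∀ x ∈ U, ∀ i, c.crd (.inr i) x = 0) →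
    (∀ y : G L K, (∀ x ∈ U, c.kR K y x = 0) → ∀ x ∈ U, ⁅y, x⁆ ∈ U) →
    ∃ Ψ : Set Φ, ∀ x : G L K, x ∈ U ↔ ∀ i, c.crd i x ≠ 0 → ∃ β ∈ Ψ, i = .inl β
  nilH : ∀ x : G L K, (∀ β, c.crd (.inl β) x = 0) → Nil x → x = 0
  fix1 : ∀ (U : Submodule K (G L K)) χ, (∀ x ∈ U, Nil x) →
    (∀ y : G L K, (∀ x ∈ U, c.kR K y x = 0) → ∀ x ∈ U, ⁅y, x⁆ ∈ U) → c.IsH χ →
    (∀ α, c.al α χ ≠ 0) → (∀ x ∈ U, c.kR K (c0 K χ) x = 0) →
    ∃ Ψ : Set Φ, ∀ x : G L K, x ∈ U ↔ ∀ i, c.crd i x ≠ 0 → ∃ β ∈ Ψ, i = .inl β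
  fix2 : ∀ (U : Submodule K (G L K)) (Ψ : Set Φ) (ν : G L K) (t : K),
    (∀ x : G L K, x ∈ U ↔ ∀ i, c.crd i x ≠ 0 → ∃ β ∈ Ψ, i = .inl β) →
    (∀ x ∈ U, ⁅ν, x⁆ = t • x) → (∀ y : G L K, (∀ x ∈ U, c.kR K y x = 0) → ⁅ν, y⁆ ∈ U) →
    (t = 0 → ν ∈ U) ∧ (t = 1 → ∃ lam, c.Min lam ∧ U = c.U1 K lam)
  fix : ∀ (U : Submodule K (G L K)) χ, c.FD U → c.IsH χ → (∀ α, c.al α χ ≠ 0) →
    (∀ x ∈ U, c.kR K (c0 K χ) x = 0) → ∃ lam, c.Min lam ∧ U = c.U1 K lam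
  conj0 : ∀ n : G L K, n ∈ c.Gr c.ρ (Iio 0) → ∃ g : Module.End K (G L K), c.A0 g ∧
    g (c0 K c.ρ) = c0 K c.ρ + n ∧ ∀ r, ∀ x ∈ c.Gr c.ρ (Iic r), g x - x ∈ c.Gr c.ρ (Iio r)

/-- The big cell. -/
structure S_cell : Prop where
  cell : ∀ (U : Submodule K (G L K)) lam, c.FD U → c.Min lam →
    Module.finrank K U = Fintype.card {β // c.al β lam = 1} →
    (∀ u ∈ U, (∀ β, c.al β lam = 1 → c.crd (.inl β) u = 0) → u = 0) →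
    ∃ n ∈ c.Gr lam {-1}, U = (c.U1 K lam).map (ex n)
  trans : ∀ (g : Module.End K (G L K)) lam χ,
    (∀ r, ∀ x ∈ c.Gr χ (Iic r), g x - x ∈ c.Gr χ (Iio r)) →
    ∀ u ∈ (c.U1 K lam).map g, (∀ β, c.al β lam = 1 → c.crd (.inl β) u = 0) → u = 0
  vec : ∀ lam, c.Min lam → ∀ n ∈ (c.Gr lam {-1} : Submodule K _), ∀ β, c.al β lam = 1 →
    (∀ γ, c.al γ lam = 1 → c.crd (.inl γ) (ex n (c.bs K (.inl β))) = if γ = β then 1 else 0) ∧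
    c.alR β (ex n (c.bs K (.inl β))) = -2 * c.crd (.inl (c.neg β)) n
  uniq : ∀ lam, c.Min lam → ∀ n ∈ (c.Gr lam {-1} : Submodule K _),
    ∀ u ∈ (c.U1 K lam).map (ex n),
      u = ∑ β with c.al β lam = 1, c.crd (.inl β) u • ex n (c.bs K (.inl β))
  sub : ∀ (S : Subfield K) lam, c.Min lam → ∀ n ∈ (c.Gr lam {-1} : Submodule K _),
    c.Def0 S ((c.U1 K lam).map (ex n)) → c.In0 S n
  prod : ∀ {J : Type} [Fintype J] [DecidableEq J] (lam : J → L) (X : c.Id lam → K) {d : ℕ}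
    (e : Fin d ≃ c.Id lam) j, c.Min (lam j) → ex (c.nX lam X j) = pf (fun k => X (e k) •
      if (e k).1.1 = j then c.bs K (.inl (c.neg (e k).1.2)) else 0) 0

/-- Every limit of nilradicals lies in a big cell. -/
def S_horv0 : Prop := ∀ (W : Submodule K (G L K)) (ν : G L K) (t : K), (∀ x ∈ W, Nil x) →
  (∀ x ∈ W, ∀ y ∈ W, ⁅x, y⁆ = 0) →
  (∀ y : G L K, (∀ x ∈ W, c.kR K y x = 0) → ∀ x ∈ W, ⁅y, x⁆ ∈ W) → ν ∉ W →
  (∀ x ∈ W, ⁅ν, x⁆ = t • x) → (∀ y : G L K, (∀ x ∈ W, c.kR K y x = 0) → ⁅ν, y⁆ ∈ W) →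
    ∃ lam, c.Min lam ∧ Module.finrank K W = Fintype.card {β // c.al β lam = 1} ∧
      ∀ u ∈ W, (∀ β, c.al β lam = 1 → c.crd (.inl β) u = 0) → u = 0

/-- Every point of the flag variety with values in a valuation ring lies in a big cell. -/
def S_horv : Prop := ∀ (V : ValuationSubring K) (U : Submodule K (G L K)),
  (∀ q : ℚ, (q : K) ∈ V) → c.FD U → ∃ lam, c.Min lam ∧
    Module.finrank K U = Fintype.card {β // c.al β lam = 1} ∧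
    ∀ u ∈ U, c.In0 V u → (∀ β, c.al β lam = 1 → c.crd (.inl β) u ∈ V.nonunits) →
      c.In0 V.nonunits u

/-- Tangent vectors in two product charts. -/
def S_tan : Prop := ∀ (δ : K →+ K), (∀ a b, δ (a * b) = a * δ b + b * δ a) →
  ∀ {n n' : ℕ} (x : Fin n → G L K) (y : Fin n → K) (x' : Fin n' → G L K) (y' : Fin n' → K)
    (lam lam' : L), (∀ k, Nil (x k) ∧ mqa δ (x k) = 0) → (∀ k, Nil (x' k) ∧ mqa δ (x' k) = 0) →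
    c.Min lam → c.Min lam' →
    (c.U1 K lam).map (pf (fun k => y k • x k) 0) =
      (c.U1 K lam').map (pf (fun k => y' k • x' k) 0) →
    ∀ u ∈ c.U1 K lam, ∀ u' ∈ c.U1 K lam',
      pf (fun k => y k • x k) 0 u = pf (fun k => y' k • x' k) 0 u' →
      ∑ k, δ (y k) * c.kR K (x k) (pf (fun k => y k • x k) (k + 1) u) =
        ∑ k, δ (y' k) * c.kR K (x' k) (pf (fun k => y' k • x' k) (k + 1) u')

/-- everything in layers 0 and 1 -/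
structure T1 : Prop extends T0 c where
  lp : S_lp c K
  sup : S_sup c K
  fd : S_fd c K
  fix : S_fix c K
  cell : S_cell c K
  resd : S_resd

end Pool.Agent.P.MP_e7d440_ag.U
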