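import Pool.Agent.P.MP_e7d440_ag.U.Iface

/-! Exact statements of the steps on twisted loop algebras, second part. -/

namespace Pool.Agent.P.MP_e7d440_ag.U

open TensorProduct LieAlgebra LaurentPolynomial Set

variable {L Φ Δ : Type} [LieRing L] [LieAlgebra ℚ L] [Fintype Φ] [Fintype Δ] [DecidableEq Φ]
  [DecidableEq Δ] (c : CD L Φ Δ) {K : Type} [Field K] [CharZero K] (ζ : K)

/-- the coordinates of the Cartan subalgebra in degree `m` -/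
def Ht {Φ Δ : Type} (m : ℤ) (a : ℤ × (Φ ⊕ Δ)) : Prop := a.1 = m ∧ ∃ i, a.2 = .inr i

/-- the normalized coefficient of the affine root vector `E a` in `f` -/
noncomputable abbrev CD.cE (a : Φ × ℤ) (f : LG L K) : K := c.co (CD.ix a) f / (c.per a.1 : K)

/-! ## Layer 2: a primitive root of unity `ζ` of order `ℓ` is given -/

/-- Equivariant loops. -/
structure S_eqv : Prop where
  lie : ∀ f ∈ c.Eqv ζ, ∀ g ∈ c.Eqv ζ, ⁅f, g⁆ ∈ c.Eqv ζ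
  smul : ∀ (p : LP K), (∀ n, p.coeff n ≠ 0 → (c.ℓ : ℤ) ∣ n) → ∀ f ∈ c.Eqv ζ, p • f ∈ c.Eqv ζ
  T_iff : ∀ (k : ℤ) (f : LG L K), (c.ℓ : ℤ) ∣ k → ((T k : LP K) • f ∈ c.Eqv ζ ↔ f ∈ c.Eqv ζ)
  dd : ∀ f ∈ c.Eqv ζ, dd f ∈ c.Eqv ζ
  pr : ∀ p : ℤ × (Φ ⊕ Δ) → Prop, (∀ m α, p (m, .inl (c.ς α)) ↔ p (m, .inl α)) →
    (∀ m i i', p (m, .inr i) ↔ p (m, .inr i')) → ∀ f ∈ c.Eqv ζ, c.pr p f ∈ c.Eqv ζ
  pr_wt : ∀ z (P : Set ℚ), c.Fix z → ∀ f ∈ c.Eqv ζ, c.pr (fun a => c.wt z a ∈ P) f ∈ c.Eqv ζ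
  pr_ty : ∀ a, ∀ f ∈ c.Eqv ζ, c.pr (c.Ty a) f ∈ c.Eqv ζ
  pr_ht : ∀ m, ∀ f ∈ c.Eqv ζ, c.pr (Ht m) f ∈ c.Eqv ζ
  pr_hz : ∀ f ∈ c.Eqv ζ, c.pr CD.Hz f ∈ c.Eqv ζ
  c0 : ∀ x : L, c.σ x = x → c0 (LP K) x ∈ c.Eqv ζ
  cc : ∀ n (x : G L K), mon n (c.cc ζ x n) ∈ c.Eqv ζ
  ex : ∀ x ∈ c.Eqv ζ, Nil x → ∀ f ∈ c.Eqv ζ, ex x f ∈ c.Eqv ζ
  kR : ∀ f ∈ c.Eqv ζ, ∀ g ∈ c.Eqv ζ, ∀ n, (c.kR (LP K) f g).coeff n ≠ 0 → (c.ℓ : ℤ) ∣ n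
  avg : ∀ f ∈ c.Eqv ζ, ∀ m, c.cc ζ (cf m f) m = (c.ℓ : K) • cf m f
  co_ς : ∀ α, ∃ ε : K, (ε = 1 ∨ ε = -1) ∧ ∀ f ∈ c.Eqv ζ, ∀ m,
    c.co (m, .inl (c.ς α)) f = ε * ζ ^ m * c.co (m, .inl α) f
  co_cyc : ∀ f ∈ c.Eqv ζ, ∀ m α β, c.ς.SameCycle α β → c.co (m, .inl α) f ≠ 0 →
    c.co (m, .inl β) f ≠ 0
  ev_rot : ∀ f ∈ c.Eqv ζ, ∀ (i : ℕ) (s : K), s ≠ 0 →
    (c.sg K ^ i) (ev (ζ ^ i * s) f) = ev s f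
  surj : ∀ s : K, s ≠ 0 → ∀ v : G L K, ∃ f ∈ c.Eqv ζ, ev s f = v ∧
    ∀ (S : Subring K), c.SD ζ S → s⁻¹ ∈ S → c.In0 S v → c.In S f
  evE_ext : ∀ s : K, s ≠ 0 → ∀ g g' : Op L K, (∀ f ∈ c.Eqv ζ, g f = g' f) → evE s g = evE s g'
  cc_sup : ∀ z, c.Fix z → ∀ (a : ℤ × (Φ ⊕ Δ)),
    mon a.1 (c.cc ζ (c.bs K a.2) a.1) ∈ c.Sup z {c.wt z a}
  cc_in : ∀ S : Subring K, c.SD ζ S → ∀ n (x : G L K), c.In0 S x → c.In0 S (c.cc ζ x n)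
  span : ∀ f ∈ c.Eqv ζ, ∃ t : Finset (ℤ × (Φ ⊕ Δ)), (∀ a ∈ t, c.co a f ≠ 0) ∧
    f = ∑ a ∈ t, (c.co a f / (c.ℓ : K)) • mon a.1 (c.cc ζ (c.bs K a.2) a.1)
  zpow_mem : ∀ S : Subring K, c.SD ζ S → ∀ n : ℤ, ζ ^ n ∈ S

/-- Affine root vectors. -/
structure S_rt1 : Prop where
  eqv : ∀ a, c.E ζ a ∈ c.Eqv ζ
  co : ∀ a, c.Valid ζ a → c.co (CD.ix a) (c.E ζ a) = c.per a.1
  ne : ∀ a, c.Valid ζ a ↔ c.E ζ a ≠ 0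
  ty : ∀ a a', c.co a' (c.E ζ a) ≠ 0 → c.Ty a a'
  sup : ∀ a z, c.Fix z → c.E ζ a ∈ c.Sup z {c.val a z}
  supF : ∀ a z, c.Fix z → c.F ζ a ∈ c.Sup z {-c.val a z}
  gr : ∀ a z, c.Fix z → c.E ζ a ∈ c.Gr z {c.al a.1 z}
  nil : ∀ a (t : K), Nil (t • c.E ζ a)
  ng_ng : ∀ a, c.ng (c.ng a) = a
  valid_ng : ∀ a, c.Valid ζ a → c.Valid ζ (c.ng a)
  valid_sim : ∀ a a', c.Sim a a' → c.Valid ζ a → c.Valid ζ a'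
  valid_per : ∀ α m m', c.Valid ζ (α, m) → (c.Valid ζ (α, m') ↔ (c.per α : ℤ) ∣ m' - m)
  valid_ex : ∀ α, ∃ m, c.Valid ζ (α, m)
  sim_refl : ∀ a, c.Sim a a
  sim_symm : ∀ a a', c.Sim a a' → c.Sim a' a
  sim_trans : ∀ a a' a'', c.Sim a a' → c.Sim a' a'' → c.Sim a a''
  sim_ng : ∀ a a', c.Sim (c.ng a) (c.ng a') ↔ c.Sim a a'
  not_sim_ng : ∀ a, ¬ c.Sim a (c.ng a)
  ty_ix : ∀ a a', c.Ty a (CD.ix a') ↔ c.Sim a a'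
  lieEF : ∀ a, c.Valid ζ a → ⁅c.E ζ a, c.F ζ a⁆ = (c.kp a.1 : K) • c0 (LP K) (c.tau a.1)
  kREF : ∀ a, c.Valid ζ a → c.kR (LP K) (c.E ζ a) (c.F ζ a) = C (c.kp a.1 : K)
  kREE : ∀ a a', ¬ c.Sim a a' → (c.kR (LP K) (c.E ζ a) (c.F ζ a')).coeff 0 = 0
  lie_h : ∀ a h, c.Fix h → ⁅c0 (LP K) h, c.E ζ a⁆ = (c.al a.1 h : K) • c.E ζ a
  dd : ∀ a, dd (c.E ζ a) = (a.2 : K) • c.E ζ a
  T_E : ∀ (α : Φ) (m k : ℤ), (c.ℓ : ℤ) ∣ k → (T k : LP K) • c.E ζ (α, m) = c.E ζ (α, m + k)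
  int : ∀ S : Subring K, c.SD ζ S → ∀ a, c.In S (c.E ζ a)
  sd_per : ∀ S : Subring K, c.SD ζ S → ∀ α, ((c.per α : ℕ) : K)⁻¹ ∈ S
  sd_th : ∀ S : Subring K, c.SD ζ S → ∀ α, (c.th α : K) ∈ S ∧ (c.th α : K)⁻¹ ∈ S
  th_ne : ∀ α, (c.th α : K) ≠ 0 ∧ ((c.per α : ℕ) : K) ≠ 0 ∧ (c.kp α : K) ≠ 0 ∧ (c.nu α : K) ≠ 0
  exE_h : ∀ a (t : K) h, c.Fix h →
    ex (t • c.E ζ a) (c0 (LP K) h) = c0 (LP K) h - (t * (c.al a.1 h : K)) • c.E ζ a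
  exE_E : ∀ a (t : K), ex (t • c.E ζ a) (c.E ζ a) = c.E ζ a
  exE_F : ∀ a (t : K), c.Valid ζ a → ex (t • c.E ζ a) (c.F ζ a) = c.F ζ a +
    (t * (c.kp a.1 : K)) • c0 (LP K) (c.tau a.1) - (t ^ 2 * (c.th a.1 : K)) • c.E ζ a
  exE_add : ∀ a (t t' : K), ex (t • c.E ζ a) * ex (t' • c.E ζ a) = ex ((t + t') • c.E ζ a)
  exE_inv : ∀ a (t : K), ex (t • c.E ζ a) * ex (-t • c.E ζ a) = 1 ∧
    ex (-t • c.E ζ a) * ex (t • c.E ζ a) = 1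
  nat : ∀ {K' : Type} [Field K'] [CharZero K'] (f : K →+* K') a,
    (c.Valid (f ζ) a ↔ c.Valid ζ a) ∧
      ∀ s : K, mqa (f : K →+ K') (ev s (c.E ζ a)) = ev (f s) (c.E (f ζ) a)
  der : ∀ (δ : K →+ K), (∀ a b, δ (a * b) = a * δ b + b * δ a) → δ ζ = 0 → ∀ s : K, δ s = 0 →
    ∀ a, mqa δ (ev s (c.E ζ a)) = 0

/-- Decomposition of equivariant loops. -/
structure S_rt2 : Prop where
  of_co : ∀ f ∈ c.Eqv ζ, ∀ a, c.co (CD.ix a) f ≠ 0 → c.Valid ζ a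
  pure : ∀ f ∈ c.Eqv ζ, ∀ a, c.pr (c.Ty a) f = c.cE a f • c.E ζ a
  of_ty : ∀ f ∈ c.Eqv ζ, ∀ a, (∀ a', c.co a' f ≠ 0 → c.Ty a a') → f = c.cE a f • c.E ζ a
  of_sup : ∀ f ∈ c.Eqv ζ, ∀ a, (∀ z, c.Fix z → f ∈ c.Sup z {c.val a z}) → f = c.cE a f • c.E ζ a
  sim_E : ∀ a a', c.Sim a a' → c.Valid ζ a → ∃ t : K, t ≠ 0 ∧ c.E ζ a' = t • c.E ζ a
  hz : ∀ f ∈ c.Eqv ζ, (∀ a, c.co a f ≠ 0 → CD.Hz a) →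
    f ∈ Submodule.span K {g | ∃ h, c.Fix h ∧ g = c0 (LP K) h}
  hz_lie : ∀ f ∈ c.Eqv ζ, ∀ a, ⁅c.pr CD.Hz f, c.E ζ a⁆ = c.alR a.1 (cf 0 f) • c.E ζ a
  ind : ∀ Q : LG L K → Prop, Q 0 → (∀ f g, Q f → Q g → Q (f + g)) → ∀ f ∈ c.Eqv ζ,
    (∀ a, c.Valid ζ a → c.co (CD.ix a) f ≠ 0 → Q (c.cE a f • c.E ζ a)) →
    (∀ m, Q (c.pr (Ht m) f)) → Q f
  red : ∀ a a' (q : ℚ), c.Valid ζ a → c.Valid ζ a' → 0 < q →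
    (∀ z, c.Fix z → c.val a' z = q * c.val a z) → c.Sim a a'

/-- Integrality of affine root subgroups. -/
def S_xi : Prop := ∀ (S : Subring K) (M : Set K) (a : Φ × ℤ) (t : K) (f : LG L K), c.SD ζ S →
  SM S M → (t ∈ S → c.In M f → c.In M (ex (t • c.E ζ a) f)) ∧
    (M ⊆ S → t ∈ M → c.In S f → c.In M (ex (t • c.E ζ a) f - f))

/-- first part of layer 2 -/
structure T2a : Prop extends T1 c K where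
  prim : IsPrimitiveRoot ζ c.ℓ
  eqv : S_eqv c ζ
  rt1 : S_rt1 c ζ
  rt2 : S_rt2 c ζ
  xi : S_xi c ζ

/-- Closure properties. -/
structure S_la : Prop where
  one : c.LA ζ 1
  mul : ∀ g g', c.LA ζ g → c.LA ζ g' → c.LA ζ (g * g')
  inv : ∀ g g', c.LA ζ g → g * g' = 1 → c.LA ζ g' ∧ g' * g = 1
  ex_inv : ∀ g, c.LA ζ g → ∃ g', c.LA ζ g' ∧ g * g' = 1 ∧ g' * g = 1
  ex : ∀ x ∈ c.Eqv ζ, Nil x → c.LA ζ (ex x)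
  exE : ∀ a (t : K), c.LA ζ (U.ex (t • c.E ζ a))
  pf : ∀ {n : ℕ} (a : Fin n → Φ × ℤ) (y : Fin n → K) k, c.LA ζ (pf (fun i => y i • c.E ζ (a i)) k)
  aut_one : ∀ z, c.Aut0 ζ 1 1 z
  aut_mul : ∀ ψ ψ' g g' z, c.Aut0 ζ ψ g z → c.Aut0 ζ ψ' g' z → c.Aut0 ζ (ψ * ψ') (g * g') z
  aut_left : ∀ ψ g g' z, c.Aut0 ζ 1 g z → c.Aut0 ζ ψ g' z → c.Aut0 ζ ψ (g * g') z
  aut_right : ∀ ψ g g' z, c.Aut0 ζ ψ g z → c.Aut0 ζ 1 g' z → c.Aut0 ζ ψ (g * g') z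
  aut_inv : ∀ g g' z, c.LA ζ g → g * g' = 1 → c.Aut0 ζ 1 g z → c.Aut0 ζ 1 g' z
  aut_ex : ∀ x ∈ c.Eqv ζ, ∀ z, Nil x → x ∈ c.Sup z (Ioi 0) → c.Aut0 ζ 1 (U.ex x) z
  aut_exE : ∀ a (t : K) z, c.Fix z → 0 < c.val a z → c.Aut0 ζ 1 (U.ex (t • c.E ζ a)) z
  aut_pf : ∀ {n : ℕ} (a : Fin n → Φ × ℤ) (y : Fin n → K) k z, c.Fix z →
    (∀ i, 0 < c.val (a i) z) → c.Aut0 ζ 1 (U.pf (fun i => y i • c.E ζ (a i)) k) z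
  aut_gt : ∀ ψ g z, c.Aut0 ζ ψ g z → ∀ r, ∀ f ∈ c.Eqv ζ,
    g f ∈ c.Sup z (Ioi r) ↔ f ∈ c.Sup z (Ioi r)
  aut_inj : ∀ ψ g z, c.Aut0 ζ ψ g z → ∀ f ∈ c.Eqv ζ, g f = 0 → f = 0
  aut_of : ∀ g, c.LA ζ g → c.Mono ζ g id → (∀ h, c.Fix h → g (c0 _ h) = c0 _ h) →
    ∀ z, c.Fix z → c.Aut0 ζ 1 g z
  low_one : ∀ z, c.Low ζ z 1
  low_mul : ∀ z g g', c.LA ζ g' → c.Low ζ z g → c.Low ζ z g' → c.Low ζ z (g * g')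
  low_iff : ∀ z g, c.Low ζ z g → ∀ r, ∀ f ∈ c.Eqv ζ,
    (g f ∈ c.Sup z (Iic r) ↔ f ∈ c.Sup z (Iic r)) ∧ (g f ∈ c.Sup z (Iio r) ↔ f ∈ c.Sup z (Iio r))
  low_inv : ∀ z g g', c.LA ζ g → g * g' = 1 → c.Low ζ z g → c.Low ζ z g'
  low_exE : ∀ a (t : K) z, c.Fix z → c.val a z < 0 → c.Low ζ z (U.ex (t • c.E ζ a))
  low_pf : ∀ {n : ℕ} (a : Fin n → Φ × ℤ) (y : Fin n → K) k z, c.Fix z →
    (∀ i, c.val (a i) z < 0) → c.Low ζ z (U.pf (fun i => y i • c.E ζ (a i)) k)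
  low_aut : ∀ z g, c.Fix z → c.Low ζ z g → c.Aut0 ζ 1 g z → ∀ f ∈ c.Eqv ζ, g f = f
  int_one : ∀ M : Set K, c.IntB ζ M 1
  int_mul : ∀ (M : Set K) (g g' : Op L K), (∀ f ∈ c.Eqv ζ, g' f ∈ c.Eqv ζ) →
    (c.IntB ζ M g → c.IntB ζ M g' → c.IntB ζ M (g * g')) ∧
    (c.IntE ζ M g → c.IntE ζ M g' → c.IntE ζ M (g * g'))
  int_inv : ∀ (M : Set K) g g', c.LA ζ g → g * g' = 1 → c.IntB ζ M g → c.IntB ζ M g'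
  int_of : ∀ (M : Set K) g g', c.LA ζ g → g * g' = 1 → c.IntE ζ M g → c.IntE ζ M g' →
    c.IntB ζ M g
  int_exE : ∀ (S : Subring K) (M : Set K) a (t : K), c.SD ζ S → SM S M → t ∈ S →
    c.IntB ζ M (U.ex (t • c.E ζ a))
  int_pf : ∀ (S : Subring K) (M : Set K) {n : ℕ} (a : Fin n → Φ × ℤ) (y : Fin n → K) k,
    c.SD ζ S → SM S M → (∀ i, y i ∈ S) → c.IntB ζ M (U.pf (fun i => y i • c.E ζ (a i)) k)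
  intE_m : ∀ (V : ValuationSubring K) g, c.IntE ζ V g → c.IntE ζ V.nonunits g
  intB_m : ∀ (V : ValuationSubring K) (g : Op L K), (∀ f ∈ c.Eqv ζ, g f = 0 → f = 0) →
    c.IntB ζ V g → c.IntB ζ V.nonunits g
  mono_one : c.Mono ζ 1 id
  mono_mul : ∀ n n' v v', c.LA ζ n' → c.Mono ζ n v → c.Mono ζ n' v' → c.Mono ζ (n * n') (v ∘ v')
  mono_congr : ∀ n v v', c.Mono ζ n v → (∀ z, c.Fix z → v' z = v z) → c.Mono ζ n v'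
  act_one : ∀ {J : Type} (s : J → K) (U : J → Submodule K (G L K)), actE s (1 : Op L K) U = U
  act_mul : ∀ {J : Type} (s : J → K), (∀ j, s j ≠ 0) → ∀ (g g' : Op L K)
    (U : J → Submodule K (G L K)), actE s (g * g') U = actE s g (actE s g' U)
  act_ext : ∀ {J : Type} (s : J → K), (∀ j, s j ≠ 0) → ∀ (g g' : Op L K)
    (U : J → Submodule K (G L K)), (∀ f ∈ c.Eqv ζ, g f = g' f) → actE s g U = actE s g' U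
  act_fd : ∀ {J : Type} (s : J → K), (∀ j, s j ≠ 0) → ∀ (g : Op L K)
    (U : J → Submodule K (G L K)), c.LA ζ g → ∀ j, c.FD (U j) → c.FD (actE s g U j) ∧
      Module.finrank K (actE s g U j) = Module.finrank K (U j)
  act_pU : ∀ {J : Type} [Fintype J] [DecidableEq J] (s : J → K), (∀ j, s j ≠ 0) →
    ∀ {n : ℕ} (a : Fin n → Φ × ℤ) (y : Fin n → K) (lam : J → L),
      c.pU s (fun i => c.E ζ (a i)) y lam =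
        actE s (U.pf (fun i => y i • c.E ζ (a i)) 0) fun j => c.U1 K (lam j)

/-- Lifts of affine reflections. -/
structure S_psi : Prop where
  la : ∀ b (t : K), c.LA ζ (c.psi ζ b t)
  mono : ∀ b (t : K), c.Valid ζ b → t ≠ 0 → c.Mono ζ (c.psi ζ b t) (c.rf b)
  hh : ∀ b (t : K), c.Valid ζ b → t ≠ 0 → ∀ h, c.Fix h →
    c.psi ζ b t (c0 _ h) = c0 _ (c.rf (b.1, 0) h)
  inv : ∀ b (t : K), c.psi ζ b t * c.psi ζ b (-t) = 1 ∧ c.psi ζ b (-t) * c.psi ζ b t = 1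
  tor : ∀ b b' (t t' : K), c.Valid ζ b → (b' = b ∨ b' = c.ng b) → t ≠ 0 → t' ≠ 0 →
    ∀ z, c.Fix z → c.Aut0 ζ 1 (c.psi ζ b t * c.psi ζ b' t') z
  int : ∀ (S : Subring K) (M : Set K) b (t : K), c.SD ζ S → SM S M → t ∈ S → t⁻¹ ∈ S →
    c.IntB ζ M (c.psi ζ b t)
  exF : ∀ b (t : K), ex (-((c.th b.1 : K) * t)⁻¹ • c.F ζ b) =
    ex (-t • c.E ζ b) * c.psi ζ b t * ex (-t • c.E ζ b)
  exE : ∀ b (t : K), ex (-((c.th b.1 : K) * t)⁻¹ • c.E ζ b) =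
    ex (-t • c.F ζ b) * c.psi ζ (c.ng b) t * ex (-t • c.F ζ b)

/-- Elements normalizing the torus. -/
structure S_mono : Prop where
  root : ∀ n v b, c.LA ζ n → c.Mono ζ n v → c.Valid ζ b → ∃ (b' : Φ × ℤ) (t : K), c.Valid ζ b' ∧
    t ≠ 0 ∧ n (c.E ζ b) = t • c.E ζ b' ∧ (∀ z, c.Fix z → c.val b' (v z) = c.val b z) ∧
    c.nu b'.1 = c.nu b.1 ∧
    ∀ S : Subring K, c.SD ζ S → c.IntB ζ S n → t ∈ S ∧ t⁻¹ ∈ S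
  root' : ∀ n v b', c.LA ζ n → c.Mono ζ n v → c.Valid ζ b' → ∃ b, c.Valid ζ b ∧
    ∀ z, c.Fix z → c.val b' (v z) = c.val b z
  reg : ∀ n v z, c.LA ζ n → c.Mono ζ n v → c.Reg ζ z → c.Reg ζ (v z)
  cl : ∀ n v z x, c.LA ζ n → c.Mono ζ n v → c.Fix z → c.Cl ζ z x → c.Cl ζ (v z) (v x)
  same : ∀ n v z z', c.LA ζ n → c.Mono ζ n v → c.Fix z → c.Fix z' → c.Same ζ z z' →
    c.Same ζ (v z) (v z')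
  gal : ∀ n v z', c.LA ζ n → c.Mono ζ n v → c.Fix z' → ∀ (k : ℕ) z (a : Fin k → Φ × ℤ),
    c.Fix z → c.Gal ζ z' k z a →
      ∃ a' : Fin k → Φ × ℤ, c.Gal ζ (v z') k (v z) a' ∧ ∀ i, c.nu (a' i).1 = c.nu (a i).1
  conj : ∀ n n' v ψ g z, c.LA ζ n → c.Mono ζ n v → n * n' = 1 → c.Fix z → c.Aut0 ζ ψ g z →
    c.Aut0 ζ ψ (n * g * n') (v z)

/-- second part of layer 2 -/
structure T2b : Prop extends T2a c ζ where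
  la : S_la c ζ
  psi : S_psi c ζ
  mono : S_mono c ζ

/-- Walls. -/
structure S_wall : Prop where
  reg_ρ : c.Reg ζ c.ρ
  reg_int : ∀ w, c.Fix w → (∀ α, ∃ n : ℤ, c.al α w = n) → c.Reg ζ (c.ρ + w)
  same_refl : ∀ z, c.Same ζ z z
  same_symm : ∀ z z', c.Same ζ z z' → c.Same ζ z' z
  same_trans : ∀ z z' z'', c.Same ζ z z' → c.Same ζ z' z'' → c.Same ζ z z''
  same_of : ∀ z z', c.Reg ζ z → (∀ a, c.Valid ζ a → 0 < c.val a z → 0 < c.val a z') →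
    c.Same ζ z z'
  same_neg : ∀ z z' a, c.Same ζ z z' → c.Valid ζ a → (c.val a z < 0 ↔ c.val a z' < 0)
  adj_on : ∀ z z₁ b, c.Adj ζ z z₁ b → ∃ x, c.OnW ζ z x b ∧ c.OnW ζ z₁ x (c.ng b)
  adj_symm : ∀ z z₁ b, c.Adj ζ z z₁ b → c.Adj ζ z₁ z (c.ng b)
  on_rf : ∀ z x b, c.OnW ζ z x b → c.Adj ζ z (c.rf b z) b ∧ c.OnW ζ (c.rf b z) x (c.ng b)
  same_adj : ∀ z z₁ z₂ b, c.Adj ζ z z₁ b → c.Adj ζ z z₂ b → c.Same ζ z₁ z₂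
  same_rf : ∀ z z₁ b, c.Adj ζ z z₁ b → c.Same ζ (c.rf b z) z₁ ∧ c.Same ζ (c.rf b z₁) z
  adj_left : ∀ z₀ z z₁ b, c.Reg ζ z₀ → c.Same ζ z₀ z → c.Adj ζ z z₁ b → c.Adj ζ z₀ z₁ b
  cl_on : ∀ z x b, c.OnW ζ z x b → c.Cl ζ z x
  cl_self : ∀ z, c.Fix z → c.Cl ζ z z
  cl_same : ∀ z z' x, c.Same ζ z z' → c.Cl ζ z x → c.Cl ζ z' x
  cl_pos : ∀ z x, c.Reg ζ z → c.Cl ζ z x → ∀ f ∈ c.Eqv ζ,
    (f ∈ c.Sup x (Ioi 0) → f ∈ c.Sup z (Ioi 0)) ∧ (f ∈ c.Sup z (Ici 0) → f ∈ c.Sup x (Ici 0))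
  same_pos : ∀ z z', c.Same ζ z z' → ∀ f ∈ c.Eqv ζ,
    (f ∈ c.Sup z (Ioi 0) → f ∈ c.Sup z' (Ioi 0)) ∧ (f ∈ c.Sup z (Iio 0) → f ∈ c.Sup z' (Iio 0))
  reg_zero : ∀ z, c.Reg ζ z → ∀ f ∈ c.Eqv ζ,
    (f ∈ c.Sup z (Ici 0) → f - c.pr CD.Hz f ∈ c.Sup z (Ioi 0)) ∧
    (f ∈ c.Sup z (Iic 0) → f - c.pr CD.Hz f ∈ c.Sup z (Iio 0))
  pos_dec : ∀ z x b, c.OnW ζ z x b → ∀ f ∈ c.Eqv ζ, f ∈ c.Sup z (Ioi 0) →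
    f - c.cE b f • c.E ζ b ∈ c.Sup x (Ioi 0)
  zero_dec : ∀ z x b, c.OnW ζ z x b → ∀ f ∈ c.Eqv ζ, f ∈ c.Sup x (Ici 0) →
    f - c.cE b f • c.E ζ b - c.cE (c.ng b) f • c.F ζ b - c.pr CD.Hz f ∈ c.Sup x (Ioi 0)
  wall_lt : ∀ z x b, c.OnW ζ z x b → c.val b z < c.ℓ
  psi_conj : ∀ b b' (t t' : K) ψ g z, c.Valid ζ b → (b' = b ∨ b' = c.ng b) → t ≠ 0 → t' ≠ 0 →
    c.Fix z → c.Aut0 ζ ψ g z → c.Aut0 ζ ψ (c.psi ζ b t * g * c.psi ζ b' t') (c.rf b z)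

/-- Existence of a separating wall. -/
def S_wex : Prop := ∀ z z', c.Reg ζ z → c.Reg ζ z' → ¬ c.Same ζ z z' →
  ∃ b z₁, c.Adj ζ z z₁ b ∧ c.val b z' < 0

/-- third part of layer 2 -/
structure T2c : Prop extends T2b c ζ where
  wall : S_wall c ζ
  wex : S_wex c ζ

/-- Galleries. -/
structure S_gal : Prop where
  ex : ∀ z z', c.Reg ζ z → c.Reg ζ z' → ∃ n a, c.Gal ζ z' n z a
  mem : ∀ z' n z a, c.Reg ζ z' → c.Gal ζ z' n z a → ∀ k,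
    c.Valid ζ (a k) ∧ 0 < c.val (a k) z ∧ c.val (a k) z' < 0
  ne : ∀ z' n z a, c.Reg ζ z' → c.Gal ζ z' n z a → ∀ k l, k ≠ l → ¬ c.Sim (a k) (a l)
  all : ∀ z' n z a, c.Reg ζ z' → c.Fix z → c.Gal ζ z' n z a → ∀ a', c.Valid ζ a' →
    0 < c.val a' z → c.val a' z' < 0 → ∃ k, c.Sim a' (a k)
  indep : ∀ z' n z a, c.Reg ζ z' → c.Gal ζ z' n z a → ∀ k l,
    c.cE (a k) (c.E ζ (a l)) = if k = l then 1 else 0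
  span : ∀ z' n z a, c.Reg ζ z' → c.Fix z → c.Gal ζ z' n z a → ∀ f ∈ c.Eqv ζ,
    f ∈ c.Sup z (Ioi 0) → f ∈ c.Sup z' (Iio 0) → f = ∑ k, c.cE (a k) f • c.E ζ (a k)
  left : ∀ z' n z₀ z a, c.Reg ζ z₀ → c.Same ζ z₀ z → c.Gal ζ z' n z a → c.Gal ζ z' n z₀ a
  conj : ∀ z' n z a χ, c.Reg ζ z' → c.Gal ζ z' n z a → c.Fix χ → (∀ k, c.al (a k).1 χ ≠ 0) →
    ∀ N ∈ c.Eqv ζ, N ∈ c.Sup z (Ioi 0) → N ∈ c.Sup z' (Iio 0) → ∃ y : Fin n → K,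
      pf (fun k => y k • c.E ζ (a k)) 0 (c0 _ χ) = c0 _ χ + N

/-- The Iwahori subgroup only depends on the alcove. -/
structure S_aut1 : Prop where
  tr : ∀ ψ g z z', c.Fix z → c.Fix z' → c.Aut0 ζ ψ g z →
    (∀ h, c.Fix h → g (c0 _ h) - ψ.coeff 0 • c0 (LP K) h ∈ c.Sup z' (Ioi 0)) → c.Aut0 ζ ψ g z'
  same : ∀ ψ g z z', c.Fix z → c.Fix z' → c.Same ζ z z' → c.Aut0 ζ ψ g z → c.Aut0 ζ ψ g z'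
  cl : ∀ ψ g z x, c.Reg ζ z → c.Cl ζ z x → c.Aut0 ζ ψ g z → ∀ r, ∀ f ∈ c.Eqv ζ,
    (g f ∈ c.Sup x (Ici r) ↔ f ∈ c.Sup x (Ici r)) ∧ (g f ∈ c.Sup x (Ioi r) ↔ f ∈ c.Sup x (Ioi r))

/-- Crossing one wall. -/
structure S_aut2 : Prop where
  both : ∀ ψ g z z₁ b, c.Adj ζ z z₁ b → c.Aut0 ζ ψ g z →
    (c.Aut0 ζ ψ g z₁ ↔ ∀ h, c.Fix h → c.cE b (g (c0 _ h)) = 0)
  left : ∀ ψ g z z₁ b, c.Adj ζ z z₁ b → c.Aut0 ζ ψ g z →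
    ∃ t : K, c.Aut0 ζ ψ (ex (t • c.E ζ b) * g) z₁
  right : ∀ ψ g z z₁ b, c.Adj ζ z z₁ b → c.Aut0 ζ ψ g z →
    ∃ t : K, c.Aut0 ζ ψ (g * ex (t • c.E ζ b)) z₁
  coef : ∀ ψ g z z₁ b (t : K), c.Adj ζ z z₁ b → c.Aut0 ζ ψ g z → c.Aut0 ζ ψ g z₁ →
    ∀ h, c.Fix h → c.cE b (ex (t • c.E ζ b) (g (c0 _ h))) = -(t * ψ.coeff 0 * (c.al b.1 h : K))
  det : ∀ (V : ValuationSubring K) g z z₁ b (t : K), c.SD ζ V.toSubring → c.Adj ζ z z₁ b →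
    c.Aut0 ζ 1 g z → c.Aut0 ζ 1 g z₁ → c.IntE ζ V (ex (t • c.E ζ b) * g) → t ∈ V

/-- fourth part of layer 2 -/
structure T2d : Prop extends T2c c ζ where
  gal : S_gal c ζ
  aut1 : S_aut1 c ζ
  aut2 : S_aut2 c ζ

/-- Normal forms along a gallery. -/
structure S_nf : Prop where
  nf : ∀ z' n z a u, c.Reg ζ z' → c.Fix z → c.Gal ζ z' n z a → c.LA ζ u → c.Aut0 ζ 1 u z →
    ∃ (y : Fin n → K) (u' : Op L K), u = pf (fun k => y k • c.E ζ (a k)) 0 * u' ∧ c.LA ζ u' ∧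
      c.Aut0 ζ 1 u' z' ∧ ∀ V : ValuationSubring K, c.SD ζ V.toSubring → c.IntB ζ V u →
        (∀ k, y k ∈ V) ∧ c.IntB ζ V u'
  nf2 : ∀ z' n z a u, c.Reg ζ z' → c.Fix z → c.Gal ζ z' n z a → c.LA ζ u → c.Aut0 ζ 1 u z →
    c.Low ζ z' u → ∃ y : Fin n → K, ∀ f ∈ c.Eqv ζ, u f = pf (fun k => y k • c.E ζ (a k)) 0 f
  coef : ∀ (V : ValuationSubring K) z' n z a (y : Fin n → K), c.SD ζ V.toSubring → c.Reg ζ z' →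
    c.Gal ζ z' n z a → c.IntE ζ V (pf (fun k => y k • c.E ζ (a k)) 0) → ∀ k, y k ∈ V
  walk : ∀ z n a, c.Reg ζ z → c.Gal ζ z n c.ρ a → ∃ (b : Fin n → Φ × ℤ) (z₁ : L),
    c.Wk ζ z n b z₁ ∧ ∏ k, c.nu (b k).1 = ∏ k, c.nu (a k).1

/-- The length of a translation. -/
structure S_count : Prop where
  count : ∀ {J : Type} [Fintype J] [DecidableEq J] (lam : J → L) r z n a, c.Co lam r →
    (z = c.ρ + c.bar lam ∨ z = c.ρ - c.bar lam) → c.Gal ζ z n c.ρ a →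
      n = Fintype.card (c.Id lam) ∧ ∏ k, c.nu (a k).1 = c.cnu lam
  reg : ∀ {J : Type} [Fintype J] (lam : J → L), (∀ j, c.Min (lam j)) →
    c.Reg ζ (c.ρ + c.bar lam) ∧ c.Reg ζ (c.ρ - c.bar lam)
  fin : {lam | c.Min lam}.Finite
  cnu_pos : ∀ {J : Type} [Fintype J] [DecidableEq J] (lam : J → L), 0 < c.cnu lam
  co_bar : ∀ {J : Type} [Fintype J] (lam : J → L) r α, c.Co lam r → 0 < c.al α r →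
    (∀ j (k : ℕ), c.al ((c.ς ^ k) α) (lam j) = 0 ∨ c.al ((c.ς ^ k) α) (lam j) = 1) ∧
      ∃ q : ℕ, c.al α (c.bar lam) = c.per α * q

/-- everything in layers 0, 1, 2 -/
structure T2 : Prop extends T2d c ζ where
  nf : S_nf c ζ
  count : S_count c ζ

end Pool.Agent.P.MP_e7d440_ag.U
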