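import Pool.Agent.P.MP_e7d440_ag.U.Iface2

/-! Exact statements of the steps on twisted loop algebras with legs, third part. -/

namespace Pool.Agent.P.MP_e7d440_ag.U

open TensorProduct LieAlgebra LaurentPolynomial Set

variable {L Φ Δ : Type} [LieRing L] [LieAlgebra ℚ L] [Fintype Φ] [Fintype Δ] [DecidableEq Φ]
  [DecidableEq Δ] (c : CD L Φ Δ) {K : Type} [Field K] [CharZero K] (ζ : K)
  {J : Type} [Fintype J] [DecidableEq J] (s : J → K)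

noncomputable section

/-- the degree of `dgp` -/
def CD.dgD (ε : ℚ → ℕ) (lam : J → L) (i : Φ ⊕ Δ) : ℕ :=
  ∑ j, ∑ k ∈ Finset.range c.ℓ, ε (c.wt0 (lam j) (Sum.map (c.ς ^ k) id i))

/-- the modified loop algebra is the image of the twisted loop algebra under `H` -/
def CD.Rng (U : J → Submodule K (G L K)) (H : Op L K) : Prop :=
  ∀ f, f ∈ c.NN ζ s U ↔ ∃ g ∈ c.Eqv ζ, H g = f

/-- a product of affine root subgroups -/
abbrev CD.pE {n : ℕ} (a : Fin n → Φ × ℤ) (y : Fin n → K) : Op L K :=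
  pf (fun k => y k • c.E ζ (a k)) 0

/-- a derivation as an additive map -/
def dA {O : Type} [CommRing O] [Algebra O K] (D : Derivation O K K) : K →+ K :=
  D.toLinearMap.toAddMonoidHom

/-- the covectors dual to the logarithmic coordinates -/
def CD.pp {n : ℕ} (b : Fin n → Φ × ℤ) (t : Fin n → K) (u : J → G L K) (k : Fin n) : K :=
  t k * c.PP s (fun l j => ev (s j) (c.F ζ (b l))) t k u

/-- the matrix of `BF` in logarithmic coordinates -/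
def CD.Cm {n : ℕ} (b : Fin n → Φ × ℤ) (k l : Fin n) : ℚ :=
  if k = l then c.nu (b k).1 / 2 else if l < k then c.al (b l).1 (c.tau (b k).1) else 0

/-- the formula for the square of the volume form dual to `D` in every product chart -/
def CD.Vol {O : Type} [CommRing O] [Algebra O K] {d : ℕ} (D : Fin d → Derivation O K K)
    (U : J → Submodule K (G L K)) (ν : ℚ) : Prop :=
  ∀ (x : Fin d → J → G L K) (y : Fin d → K) (lam : J → L) (u : Fin d → J → G L K)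
    (h : Fin d → LG L K), (∀ j, c.Min (lam j)) →
    (∀ k j, Nil (x k j) ∧ ∀ i, mqa (dA (D i)) (x k j) = 0) →
    (∀ j, U j = (c.U1 K (lam j)).map (pf (fun k => y k • x k j) 0)) →
    (∀ k j, u k j ∈ c.U1 K (lam j)) →
    (∀ k, h k ∈ c.Eqv ζ ∧ h k ∈ c.Sup c.ρ (Ico 0 (c.dg J : ℚ)) ∧
      ∀ j, ev (s j) (h k) = pf (fun k => y k • x k j) 0 (u k j)) →
    (Matrix.of fun k l => c.BF s (h k) fun j => pf (fun k => y k • x k j) 0 (u l j)).det =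
      (-(c.ℓ : K) / 2) ^ d * ν * wr D y ^ 2 * (Matrix.of fun k l => c.PP s x y l (u k)).det ^ 2

/-- primitive vectors of the lattices of `ρ` have a unit coordinate of large weight at `z` -/
def CD.Hi (V : ValuationSubring K) (U : J → Submodule K (G L K)) (z : L) : Prop :=
  ∀ r : ℚ, ∀ f ∈ c.NN ζ s U, f ∈ c.Sup c.ρ (Ici r) → c.In V f → ¬ c.In V.nonunits f →
    ∃ a, c.co a f ∉ V.nonunits ∧ r + c.dg J ≤ c.wt z a

/-- the properties of the sections used at a vertical prime -/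
structure CD.Hat (lam : J → L) (a : Φ × ℤ) (h : LG L K) : Prop where
  nn : h ∈ c.NN ζ s fun j => c.U1 K (lam j)
  pos : h ∈ c.Sup c.ρ (Ioi 0)
  int : ∀ S : Subring K, c.SD ζ S → (∀ j, s j ∈ S) → c.In S h
  ty : ∀ a', c.co a' h ≠ 0 → ∃ β, a'.2 = .inl β ∧ c.ς.SameCycle (c.neg a.1) β
  top : ∀ z, c.Fix z →
    h - (T (c.dg J : ℤ) : LP K) • c.F ζ a ∈ c.Sup z (Iio (c.dg J - c.val a z))

end

/-! ## Layer 3 -/

/-- Diagonal entries of torus elements. -/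
structure S_dgp : Prop where
  supp : ∀ (s' : J → K) ε lam i n, (c.dgp ζ s' ε lam i).coeff n ≠ 0 →
    0 ≤ n ∧ n ≤ c.dgD ε lam i
  top : ∀ ε (lam : J → L) i, ∃ e : ℤ,
    c.dgp ζ (0 : J → K) ε lam i = C (ζ ^ e) * T (c.dgD ε lam i : ℤ) ∧
      ∀ s' : J → K, (c.dgp ζ s' ε lam i).coeff (c.dgD ε lam i) = ζ ^ e
  const : ∀ ε lam i, (c.dgp ζ s ε lam i).coeff 0 ≠ 0
  int : ∀ (S : Subring K) (s' : J → K), c.SD ζ S → (∀ j, s' j ∈ S) → ∀ ε lam i n,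
    (c.dgp ζ s' ε lam i).coeff n ∈ S
  cong : ∀ (S : Subring K) (M : Set K), c.SD ζ S → SM S M → M ⊆ S → (∀ j, s j ∈ M) →
    ∀ ε lam i n, (c.dgp ζ s ε lam i - c.dgp ζ (0 : J → K) ε lam i).coeff n ∈ M
  rot : ∀ (s' : J → K) ε lam i n, (c.dgp ζ s' ε lam (Sum.map c.ς id i)).coeff n =
    ζ ^ n * (c.dgp ζ s' ε lam i).coeff n
  inr : ∀ (s' : J → K) ε lam i i', c.dgp ζ s' ε lam (.inr i) = c.dgp ζ s' ε lam (.inr i')
  eqv : ∀ (s' : J → K) ε lam (f : LG L K), c.diag (c.dgp ζ s' ε lam) f ∈ c.Eqv ζ ↔ f ∈ c.Eqv ζ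
  phi : ∀ (s' : J → K) lam i,
    C (∏ _j : J, ∏ k ∈ Finset.range c.ℓ, ζ ^ k) * c.dgp ζ s' (fun _ => 1) lam i = c.phi s'
  van : ∀ ε lam i j (q : LP K),
    (1 ≤ ε (c.wt0 (lam j) i) → evL (s j) (c.dgp ζ s ε lam i * q) = 0) ∧
    (2 ≤ ε (c.wt0 (lam j) i) → evL (s j) (ddL (c.dgp ζ s ε lam i * q)) = 0)
  dvd : ∀ ε lam i (q : LP K), (∀ j (k : ℕ), ε (c.wt0 (lam j) (Sum.map (c.ς ^ k) id i)) ≤ 2 ∧
    (1 ≤ ε (c.wt0 (lam j) (Sum.map (c.ς ^ k) id i)) → evL (ζ ^ k * s j) q = 0) ∧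
    (2 ≤ ε (c.wt0 (lam j) (Sum.map (c.ς ^ k) id i)) → evL (ζ ^ k * s j) (ddL q) = 0)) →
      c.dgp ζ s ε lam i ∣ q
  low : ∀ (p q : LP K) (m : ℚ), (∀ n < 0, p.coeff n = 0) → p.coeff 0 ≠ 0 →
    ((∀ n, (p * q).coeff n ≠ 0 → m ≤ n) ↔ ∀ n, q.coeff n ≠ 0 → m ≤ n)
  high : ∀ (p q : LP K) (D : ℤ) (m : ℚ), (∀ n > D, p.coeff n = 0) → p.coeff D ≠ 0 →
    ((∀ n, (p * q).coeff n ≠ 0 → n ≤ m + D) ↔ ∀ n, q.coeff n ≠ 0 → n ≤ m)
  gauss : ∀ (S : Subring K) (M : Set K) (p q : LP K) (D : ℤ), SM S M → (∀ n, p.coeff n ∈ S) →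
    (∀ n > D, p.coeff n = 0) → p.coeff D ≠ 0 → (p.coeff D)⁻¹ ∈ S →
    (∀ n, (p * q).coeff n ∈ M) → ∀ n, q.coeff n ∈ M

/-- Torus elements and translations. -/
structure S_tor : Prop where
  aut : ∀ lam : J → L, (∀ j, c.Min (lam j)) → ∀ z, c.Aut0 ζ (c.phi s) (c.tor ζ s lam) z
  rng : ∀ lam : J → L, (∀ j, c.Min (lam j)) →
    c.Rng ζ s (fun j => c.U1 K (lam j)) (c.tor ζ s lam)
  top : ∀ lam : J → L, (∀ j, c.Min (lam j)) → ∀ z (r : ℚ) (g : LG L K),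
    c.tor ζ s lam g ∈ c.Sup (z + c.bar lam) (Iic (r + c.dg J)) ↔ g ∈ c.Sup z (Iic r)
  tr_la : ∀ lam : J → L, (∀ j, c.Min (lam j)) → c.LA ζ (c.tr ζ lam)
  tr_mono : ∀ lam : J → L, (∀ j, c.Min (lam j)) → c.Mono ζ (c.tr ζ lam) fun z => z + c.bar lam
  tr_int : ∀ (S : Subring K) (M : Set K) (lam : J → L), (∀ j, c.Min (lam j)) → c.SD ζ S →
    SM S M → c.IntB ζ M (c.tr ζ lam)
  int : ∀ (S : Subring K) (M : Set K) (lam : J → L), c.SD ζ S → SM S M → (∀ j, s j ∈ S) →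
    c.IntB ζ M (c.tor ζ s lam)
  cong : ∀ (S : Subring K) (M : Set K) (lam : J → L), c.SD ζ S → SM S M → M ⊆ S →
    (∀ j, s j ∈ M) → ∀ g, c.In S g →
      c.In M (c.tor ζ s lam g - (T (c.dg J : ℤ) : LP K) • c.tr ζ lam g)
  sq : ∀ lam : J → L, (∀ j, c.Min (lam j)) → ∀ g,
    c.tor ζ s lam (c.tor ζ s (-lam) g) = c.phi s ^ 2 • g

/-- Division by powers of `φ`. -/
structure S_div : Prop where
  mon : c.Mon (c.phi s) (c.dg J)
  mon_sq : c.Mon (c.phi s ^ 2) (2 * c.dg J)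
  phi_ne : (c.phi s).coeff 0 ≠ 0
  phi_int : ∀ S : Subring K, (∀ j, s j ∈ S) →
    (∀ n, (c.phi s).coeff n ∈ S) ∧ ∀ n, (c.phi s ^ 2).coeff n ∈ S
  dg_dvd : (c.ℓ : ℤ) ∣ (c.dg J : ℤ)
  ev_phi : ∀ j, evL (s j) (c.phi s) = 0
  ev_dphi : ∀ j, evL (s j) (ddL (c.phi s)) = c.ℓ * (c.vp s j)⁻¹
  vp_ne : ∀ j, c.vp s j ≠ 0
  vp_mem : ∀ S : Subring K, c.HD ζ s S → ∀ j, c.vp s j ∈ S ∧ (c.vp s j)⁻¹ ∈ S
  hd_sd : ∀ S : Subring K, c.HD ζ s S → c.SD ζ S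
  div : ∀ (ψ : LP K) (M : ℕ) x (r : ℚ) (f : LG L K), c.Mon ψ M → f ∈ c.Sup x (Ici r) →
    ∃ q ∈ c.Sup x (Ici r), f - ψ • q ∈ c.Sup x (Ico r (r + M)) ∧
      (c.Fix x → f ∈ c.Eqv ζ → q ∈ c.Eqv ζ) ∧
      ∀ (S : Subring K) (M' : Set K), SM S M' → (∀ n, ψ.coeff n ∈ S) → c.In M' f → c.In M' q
  uniq : ∀ (ψ : LP K) (M : ℕ) x (r : ℚ) (q : LG L K), c.Mon ψ M → q ∈ c.Sup x (Ici r) →
    ψ • q ∈ c.Sup x (Iio (r + M)) → q = 0
  low : ∀ (ψ : LP K) x (r : ℚ) (q : LG L K), (∀ n < 0, ψ.coeff n = 0) → ψ.coeff 0 ≠ 0 →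
    (ψ • q ∈ c.Sup x (Ici r) ↔ q ∈ c.Sup x (Ici r))
  gauss : ∀ (ψ : LP K) (M : ℕ) (S : Subring K) (M' : Set K) (q : LG L K), c.Mon ψ M → SM S M' →
    (∀ n, ψ.coeff n ∈ S) → c.In M' (ψ • q) → c.In M' q
  zero1 : ∀ f ∈ c.Eqv ζ, (∀ j, ev (s j) f = 0) → ∃ g ∈ c.Eqv ζ, f = c.phi s • g
  zero2 : ∀ f ∈ c.Eqv ζ, (∀ j, ev (s j) f = 0 ∧ ev (s j) (dd f) = 0) →
    ∃ g ∈ c.Eqv ζ, f = c.phi s ^ 2 • g
  ev_smul : ∀ (f : LG L K) j, ev (s j) (c.phi s • f) = 0 ∧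
    ev (s j) (dd (c.phi s • f)) = (c.ℓ * (c.vp s j)⁻¹) • ev (s j) f
  nn_phi : ∀ (U : J → Submodule K (G L K)), ∀ f ∈ c.Eqv ζ,
    c.phi s • f ∈ c.NN ζ s U ↔ ∀ j, ∀ u ∈ U j, c.kR K (ev (s j) f) u = 0
  nn_sq : ∀ (U : J → Submodule K (G L K)), ∀ f ∈ c.Eqv ζ, c.phi s ^ 2 • f ∈ c.NN ζ s U
  bf_phi : ∀ (f : LG L K) (y : J → G L K),
    c.BF s (c.phi s • f) y = c.ℓ * c.pair s (fun j => ev (s j) f) y

/-- Interpolation. -/
structure S_int : Prop where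
  int1 : ∀ x (r : ℚ) (m : J → G L K), c.Fix x → ∃ h ∈ c.Eqv ζ,
    h ∈ c.Sup x (Ico r (r + c.dg J)) ∧ (∀ j, ev (s j) h = m j) ∧
      ∀ S : Subring K, c.HD ζ s S → (∀ j, c.In0 S (m j)) → c.In S h
  uniq1 : ∀ x (r : ℚ), ∀ h ∈ c.Eqv ζ, h ∈ c.Sup x (Ico r (r + c.dg J)) →
    (∀ j, ev (s j) h = 0) → h = 0
  int2 : ∀ x (r : ℚ) (m w : J → G L K), c.Fix x → ∃ h ∈ c.Eqv ζ,
    h ∈ c.Sup x (Ico r (r + 2 * c.dg J)) ∧ (∀ j, ev (s j) h = m j ∧ ev (s j) (dd h) = w j) ∧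
      ∀ S : Subring K, c.HD ζ s S → (∀ j, c.In0 S (m j) ∧ c.In0 S (w j)) → c.In S h
  uniq2 : ∀ x (r : ℚ), ∀ h ∈ c.Eqv ζ, h ∈ c.Sup x (Ico r (r + 2 * c.dg J)) →
    (∀ j, ev (s j) h = 0 ∧ ev (s j) (dd h) = 0) → h = 0

/-- Residues. -/
structure S_res : Prop where
  res : ∀ p : LP K, (∀ n, p.coeff n ≠ 0 → 0 ≤ n ∧ n ≤ c.dg J ∧ (c.ℓ : ℤ) ∣ n) →
    ∑ j, c.vp s j * evL (s j) p = -(p.coeff 0 / (c.phi s).coeff 0) + p.coeff (c.dg J)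
  resint : ∀ (S : Subring K) (M : Set K) (p : LP K), SM S M → (∀ j, s j ∈ S) →
    (∀ n, p.coeff n ≠ 0 → 0 < n ∧ (c.ℓ : ℤ) ∣ n) → (∀ n, p.coeff n ∈ M) →
      ∑ j, c.vp s j * evL (s j) p ∈ M
  pair : ∀ f g : LG L K, c.pair s (fun j => ev (s j) f) (fun j => ev (s j) g) =
    ∑ j, c.vp s j * evL (s j) (c.kR (LP K) f g)
  kR_F : ∀ b, ∀ f ∈ c.Eqv ζ, (c.kR (LP K) (c.F ζ b) f).coeff 0 = c.cE b f * (c.kp b.1 : K)

/-- The action of loops on modified loop algebras. -/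
structure S_leg : Prop where
  leg : ∀ (U : J → Submodule K (G L K)) g, (∀ j, c.FD (U j)) → c.LA ζ g → ∀ f,
    g f ∈ c.NN ζ s (actE s g U) ↔ f ∈ c.NN ζ s U
  left : ∀ (U : J → Submodule K (G L K)) H g, (∀ j, c.FD (U j)) → c.LA ζ g → c.Rng ζ s U H →
    c.Rng ζ s (actE s g U) (g * H)
  right : ∀ (U : J → Submodule K (G L K)) H g, c.LA ζ g → c.Rng ζ s U H → c.Rng ζ s U (H * g)
  fd_pU : ∀ {n : ℕ} (a : Fin n → Φ × ℤ) (y : Fin n → K) (lam : J → L), (∀ j, c.Min (lam j)) →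
    (∀ j, c.FD (c.pU s (fun k => c.E ζ (a k)) y lam j)) ∧
    (∑ j, Module.finrank K (c.pU s (fun k => c.E ζ (a k)) y lam j) = Fintype.card (c.Id lam)) ∧
    c.Rng ζ s (c.pU s (fun k => c.E ζ (a k)) y lam) (c.pE ζ a y * c.tor ζ s lam)
  def_pU : ∀ (S : Subfield K) {n : ℕ} (a : Fin n → Φ × ℤ) (y : Fin n → K) (lam : J → L), ζ ∈ S →
    (∀ j, s j ∈ S) → (∀ k, y k ∈ S) → ∀ j, c.Def0 S (c.pU s (fun k => c.E ζ (a k)) y lam j)
  def_cell : ∀ (S : Subfield K) (lam : J → L) (X : c.Id lam → K), (∀ j, c.Min (lam j)) →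
    ((∀ j, c.Def0 S (c.cell lam X j)) ↔ ∀ p, X p ∈ S)
  rank_cell : ∀ (lam : J → L) (X : c.Id lam → K), (∀ j, c.Min (lam j)) →
    ∑ j, Module.finrank K (c.cell lam X j) = Fintype.card (c.Id lam)

/-- first part of layer 3 -/
structure T3a : Prop extends T2 c ζ where
  pt : c.Pt ζ s
  horv : S_horv c K
  tan : S_tan c K
  dgp : S_dgp c ζ s
  tor : S_tor c ζ s
  div : S_div c ζ s
  int : S_int c ζ s
  res : S_res c ζ s
  leg : S_leg c ζ s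

/-- One step of the computation of `BF`. -/
def S_stp : Prop := ∀ b x (t : K), c.OnW ζ c.ρ x b → ∀ h ∈ c.Eqv ζ,
  h ∈ c.Sup c.ρ (Ico 0 (c.dg J : ℚ)) → ∀ p q : K,
    p = t * c.pair s (fun j => ev (s j) (c.F ζ b)) (fun j => ev (s j) h) →
    q = t * c.alR b.1 (cf 0 h) / (c.phi s).coeff 0 + t * (c.nu b.1 : K) / 2 * p →
    ex (t • c.F ζ b) h - q • c.phi s • c.F ζ b ∈ c.Sup c.ρ (Ico 0 (c.dg J : ℚ)) ∧
      ∀ β, c.alR β (cf 0 (ex (t • c.F ζ b) h - q • c.phi s • c.F ζ b)) =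
        c.alR β (cf 0 h) + (c.phi s).coeff 0 * p * (c.al β (c.tau b.1) : K)

/-- The form `BF` is triangular in logarithmic coordinates. -/
def S_main : Prop := ∀ (lam : J → L) r, c.Co lam r → ∀ (n : ℕ) (b : Fin n → Φ × ℤ)
  (t : Fin n → K), (∀ k, ∃ x, c.OnW ζ c.ρ x (b k)) → ∀ u u' : J → G L K,
    (∀ j, u j ∈ c.U1 K (lam j)) → (∀ j, u' j ∈ c.U1 K (lam j)) → ∀ h ∈ c.Eqv ζ,
    h ∈ c.Sup c.ρ (Ico 0 (c.dg J : ℚ)) →
    (∀ j, ev (s j) h = pf (fun k => t k • ev (s j) (c.F ζ (b k))) 0 (u j)) →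
    (∀ β, c.alR β (cf 0 h) =
      (c.phi s).coeff 0 * ∑ k, c.pp ζ s b t u k * (c.al β (c.tau (b k).1) : K)) ∧
    c.BF s h (fun j => pf (fun k => t k • ev (s j) (c.F ζ (b k))) 0 (u' j)) =
      -(c.ℓ : K) * ∑ k, ∑ l, (c.Cm b k l : K) * c.pp ζ s b t u k * c.pp ζ s b t u' l

/-- The square of the logarithmic volume form. -/
def S_det : Prop := ∀ {O : Type} [CommRing O] [Algebra O K] {d : ℕ}
  (D : Fin d → Derivation O K K) (lam : J → L) r (b : Fin d → Φ × ℤ) (t : Fin d → K),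
    c.Co lam r → (∀ k, ∃ x, c.OnW ζ c.ρ x (b k)) → (∀ i, D i ζ = 0) → (∀ i j, D i (s j) = 0) →
    (∀ k l, D k (t l) = if k = l then t l else 0) →
    c.Vol ζ s D (c.pU s (fun k => c.F ζ (b k)) t lam) (∏ k, c.nu (b k).1)

/-- The volume form in a big cell. -/
def S_horw : Prop := ∀ {O : Type} [CommRing O] [Algebra O K] {d : ℕ}
  (D : Fin d → Derivation O K K) (ν : ℚ) (lam : J → L) (X : c.Id lam → K) (e : Fin d ≃ c.Id lam)
  (S : Subring K), ν ≠ 0 → (∀ j, c.Min (lam j)) → c.Vol ζ s D (c.cell lam X) ν → c.HD ζ s S →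
    (∀ p, X p ∈ S) → wr D (fun k => X (e k)) ^ 2 ∈ S

/-- The sections used at a vertical prime. -/
def S_hat : Prop := ∀ (lam : J → L) r a, c.Co lam r → c.Valid ζ a → 0 < c.val a c.ρ →
  c.val a (c.ρ + c.bar lam) < 0 → ∃ h, c.Hat ζ s lam a h

/-- The pairing of these sections with the coordinate vector fields. -/
def S_vb : Prop := ∀ (lam : J → L) (n : ℕ) (a : Fin n → Φ × ℤ) (y : Fin n → K)
  (h : Fin n → LG L K), (∀ j, c.Min (lam j)) → c.Gal ζ (c.ρ + c.bar lam) n c.ρ a →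
    (∀ k, c.Hat ζ s lam (a k) (h k)) →
    (Matrix.of fun k l => c.PP s (fun k j => ev (s j) (c.E ζ (a k))) y l
      fun j => ev (s j) (h k)).det = ∏ k, (c.kp (a k).1 : K)

/-- The volume form in the chart at a vertical prime. -/
def S_verw : Prop := ∀ {O : Type} [CommRing O] [Algebra O K] {d : ℕ}
  (D : Fin d → Derivation O K K) (ν : ℚ) (lam : J → L) r (a : Fin d → Φ × ℤ) (y : Fin d → K)
  (S : Subring K), c.Co lam r → c.Gal ζ (c.ρ + c.bar lam) d c.ρ a → (∀ i, D i ζ = 0) →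
    (∀ i j, D i (s j) = 0) → c.Vol ζ s D (c.pU s (fun k => c.E ζ (a k)) y lam) ν →
    c.SD ζ S → (∀ j, s j ∈ S) → (∀ k, y k ∈ S) →
    ∃ w ∈ S, wr D y ^ 2 * ν = w * (∏ k, c.nu (a k).1 : ℚ)

/-- One step of the walk for the logarithmic coordinates. -/
structure S_fwd : Prop where
  base : ∀ lam : J → L, (∀ j, c.Min (lam j)) →
    c.St1 ζ s (fun j => c.U1 K (lam j)) (c.ρ - c.bar lam) (c.tor ζ s lam)
  step : ∀ (U : J → Submodule K (G L K)) z H b x (t : K), (∀ j, c.FD (U j)) → c.Fix z →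
    c.St1 ζ s U z H → c.OnW ζ c.ρ x b → c.val b z < 0 → t ≠ 0 →
    ∃ H', c.St1 ζ s (actE s (ex (t • c.F ζ b)) U) (c.rf b z) H' ∧ ∀ w, c.Fix w →
      c.cE b (H' (c0 _ w)) * (c.th b.1 : K) * t = -((c.phi s).coeff 0 * (c.al b.1 w : K))

/-- Fields of definition. -/
structure S_chr : Prop where
  retr : ∀ (S : Subfield K) (U : J → Submodule K (G L K)), ζ ∈ S → (∀ j, s j ∈ S) →
    (∀ j, c.Def0 S (U j)) → ∃ (π : K →+ K) (P : LG L K →+ LG L K), (∀ a, π a ∈ S) ∧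
      (∀ a ∈ S, π a = a) ∧ (∀ a f, c.co a (P f) = π (c.co a f)) ∧
      ∀ f ∈ c.NN ζ s U, P f ∈ c.NN ζ s U
  chr : ∀ (S : Subfield K) (U : J → Submodule K (G L K)) z H b x, ζ ∈ S → (∀ j, s j ∈ S) →
    (∀ j, c.Def0 S (U j)) → c.St1 ζ s U z H → c.OnW ζ c.ρ x b → 0 < c.val b z →
    ∀ w, c.Fix w → c.cE b (H (c0 _ w)) ∈ S

/-- The logarithmic coordinates are rational functions. -/
def S_bir : Prop := ∀ (lam : J → L) (n : ℕ) (b : Fin n → Φ × ℤ) (t : Fin n → K) z,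
  (∀ j, c.Min (lam j)) → c.Wk ζ (c.ρ - c.bar lam) n b z → (∀ k, t k ≠ 0) →
    (∀ k, ∃ x, c.OnW ζ c.ρ x (b k)) ∧
    (∃ H, c.St1 ζ s (c.pU s (fun k => c.F ζ (b k)) t lam) z H) ∧
    ∀ S : Subfield K, ζ ∈ S → (∀ j, s j ∈ S) →
      (∀ j, c.Def0 S (c.pU s (fun k => c.F ζ (b k)) t lam j)) → ∀ k, t k ∈ S

/-- The start of the walk for a valuation ring. -/
def S_base : Prop := ∀ (V : ValuationSubring K) (lam : J → L) r (X : c.Id lam → K),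
  c.VD ζ s V → c.Co lam r → ∃ z H n v, c.Reg ζ z ∧ c.St ζ s V (c.cell lam X) z H 1 n 1 v

/-- One step of the walk for a valuation ring. -/
def S_step : Prop := ∀ (V : ValuationSubring K) (U : J → Submodule K (G L K)) z z₁ b H u n i v,
  c.SD ζ V.toSubring → c.Adj ζ z z₁ b → c.St ζ s V U z H u n i v →
    ∃ H' u' n' i' v', c.St ζ s V U z₁ H' u' n' i' v'

/-- Reduction of the lattices. -/
structure S_red : Prop where
  of : ∀ (V : ValuationSubring K) (U : J → Submodule K (G L K)) (H u n : Op L K) x x',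
    c.Rng ζ s U H → c.IntB ζ V H →
    (∀ r, ∀ f ∈ c.Eqv ζ, H f ∈ c.Sup x (Ici r) ↔ f ∈ c.Sup x (Ici r)) → c.LA ζ n →
    c.IntB ζ V n → (∀ r, ∀ f ∈ c.Eqv ζ, n f ∈ c.Sup x' (Ici r) ↔ f ∈ c.Sup x (Ici r)) →
    (∀ f ∈ c.Eqv ζ, c.In V f → c.In V.nonunits (H f - (T (c.dg J : ℤ) : LP K) • u (n f))) →
    c.Red ζ s V U u x x'
  hi : ∀ (V : ValuationSubring K) (U : J → Submodule K (G L K)) u z, c.Fix z →
    c.Red ζ s V U u c.ρ z → c.Low ζ z u → c.IntE ζ V u → c.Hi ζ s V U z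
  chart : ∀ (V : ValuationSubring K) (lam : J → L) {n : ℕ} (a : Fin n → Φ × ℤ) (y : Fin n → K) x,
    c.VD ζ s V → (∀ j, c.Min (lam j)) → (∀ k, y k ∈ V) → (∀ k, 0 < c.val (a k) c.ρ) →
    c.Cl ζ c.ρ x →
      c.Red ζ s V (c.pU s (fun k => c.E ζ (a k)) y lam) (c.pE ζ a y) x (x + c.bar lam)

/-- The Bruhat decomposition of the reduction. -/
def S_bru : Prop := ∀ (V : ValuationSubring K) (lam : J → L) r (X : c.Id lam → K),
  c.VD ζ s V → c.Co lam r → ∃ (z : L) (n : ℕ) (a : Fin n → Φ × ℤ) (y : Fin n → K), c.Reg ζ z ∧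
    c.Gal ζ z n c.ρ a ∧ (∀ k, y k ∈ V) ∧ c.Hi ζ s V (c.cell lam X) z ∧
    ∀ x, c.Cl ζ c.ρ x → ∃ x', c.Fix x' ∧ c.Red ζ s V (c.cell lam X) (c.pE ζ a y) x x'

/-- Coordinates of the window. -/
structure S_chs : Prop where
  basis : ∀ (U : J → Submodule K (G L K)) x r C, c.IsCh ζ s U x r C →
    ∃ fb : ℤ × (Φ ⊕ Δ) → LG L K, (∀ b ∈ C, fb b ∈ c.Win ζ s U x r ∧
      (∀ a ∈ C, c.co a (fb b) = if a = b then 1 else 0) ∧ ∀ a, c.co a (fb b) ∈ c.Gens ζ s U x r C) ∧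
      (∀ f ∈ c.Win ζ s U x r, f = ∑ b ∈ C, c.co b f • fb b) ∧
      ∀ t ∈ c.Gens ζ s U x r C, ∃ b ∈ C, ∃ a, t = c.co a (fb b)
  fin : ∀ (U : J → Submodule K (G L K)) x r C, c.IsCh ζ s U x r C → (c.Gens ζ s U x r C).Finite
  frac : ∀ (S : Subfield K) (U : J → Submodule K (G L K)) x r C, c.Fix x → c.IsCh ζ s U x r C →
    (∀ j, s j ∈ S) → c.Gens ζ s U x r C ⊆ S → ∀ j, c.Def0 S (U j)
  chs0 : ∀ (S : Subring K) (V : ValuationSubring K) (U : J → Submodule K (G L K)) x r C,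
    Dom S V → c.IsCh ζ s U x r C → c.Gens ζ s U x r C ⊆ V →
    (∀ f ∈ c.Win ζ s U x r, c.In V f → ∃ g ∈ Submodule.span V.toSubring
      {w | w ∈ c.Win ζ s U x r ∧ c.In S w}, c.In V.nonunits (f - g)) → c.Gens ζ s U x r C ⊆ S
  chs : ∀ (S : Subring K) (V : ValuationSubring K) (U : J → Submodule K (G L K)) u x x' r C,
    Dom S V → (∀ γ ∈ V.nonunits, γ ∈ S) → c.SD ζ S → (∀ j, s j ∈ S) → c.Fix x → c.Fix x' →
    c.Red ζ s V U u x x' → c.IntE ζ S u → c.IsCh ζ s U x r C → c.Gens ζ s U x r C ⊆ V →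
    c.Gens ζ s U x r C ⊆ S

/-- A long gallery gives a chart. -/
def S_rank : Prop := ∀ (V : ValuationSubring K) (U : J → Submodule K (G L K)) z (n : ℕ)
  (a : Fin n → Φ × ℤ), (∀ j, c.FD (U j)) → c.Reg ζ z → c.Gal ζ z n c.ρ a → c.Hi ζ s V U z →
    ∑ j, Module.finrank K (U j) ≤ n → ∃ (lam : J → L) (r : L) (y : Fin n → K) (X : c.Id lam → K),
      c.Co lam r ∧ n = Fintype.card (c.Id lam) ∧ U = c.pU s (fun k => c.E ζ (a k)) y lam ∧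
        U = c.cell lam X

/-- This chart is integral. -/
def S_top : Prop := ∀ (V : ValuationSubring K) (lam : J → L) z (n : ℕ) (a : Fin n → Φ × ℤ)
  (y : Fin n → K), c.SD ζ V.toSubring → (∀ j, s j ∈ V) → (∀ j, c.Min (lam j)) → c.Reg ζ z →
    c.Gal ζ z n c.ρ a → c.Hi ζ s V (c.pU s (fun k => c.E ζ (a k)) y lam) z →
    z = c.ρ + c.bar lam ∧ ∀ k, y k ∈ V

/-- Charts in the generic fibre. -/
structure S_hor : Prop where
  h1 : ∀ (S : Subring K) (V : ValuationSubring K) (U : J → Submodule K (G L K)) x r C, Dom S V →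
    c.HD ζ s S → (∀ j, c.FD (U j)) → c.Fix x → c.IsCh ζ s U x r C → c.Gens ζ s U x r C ⊆ S →
    ∃ (lam : J → L) (X : c.Id lam → K), (∀ j, c.Min (lam j)) ∧ U = c.cell lam X ∧ ∀ p, X p ∈ S
  h2 : ∀ (S : Subring K) (V : ValuationSubring K) (lam : J → L) (X : c.Id lam → K) x r C,
    Dom S V → c.HD ζ s S → c.HD ζ s V.toSubring → (∀ j, c.Min (lam j)) → (∀ p, X p ∈ S) →
    c.Fix x → c.IsCh ζ s (c.cell lam X) x r C → c.Gens ζ s (c.cell lam X) x r C ⊆ V →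
    c.Gens ζ s (c.cell lam X) x r C ⊆ S

/-- everything in layers 0 to 3 -/
structure T3 : Prop extends T3a c ζ s where
  det : S_det c ζ s
  horw : S_horw c ζ s
  verw : S_verw c ζ s
  bir : S_bir c ζ s
  red : S_red c ζ s
  bru : S_bru c ζ s
  chs : S_chs c ζ s
  rank : S_rank c ζ s
  top : S_top c ζ s
  hor : S_hor c ζ s

end Pool.Agent.P.MP_e7d440_ag.U
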