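import Pool.Agent.P.MP_e7d440_ag.U.Iface3
import Pool.Agent.P.MP_e7d440_ag.U.Defs

/-! Exact statements of the global steps. -/

namespace Pool.Agent.P.MP_e7d440_ag.U

open TensorProduct LieAlgebra LaurentPolynomial Set

section
variable {L Φ Δ : Type} [LieRing L] [LieAlgebra ℚ L] [Fintype Φ] [Fintype Δ] [DecidableEq Φ]
  [DecidableEq Δ] (c : CD L Φ Δ)

/-- all steps over all fields -/
def TA : Prop := ∀ (K : Type) [Field K] [CharZero K] (ζ : K) (J : Type) [Fintype J]
  [DecidableEq J] (s : J → K), c.Pt ζ s → T3 c ζ s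

/-- the data over the base ring -/
structure CD.OD {O J : Type} [CommRing O] (ζ : O) (s : J → O) : Prop where
  prim : IsPrimitiveRoot ζ c.ℓ
  unit : IsUnit (c.ℓ : O)
  ne : ∀ j, s j ≠ 0
  nonunit : ∀ j, ¬ IsUnit (s j)
  inj : Function.Injective fun j => s j ^ c.ℓ

/-- `U` is a generic point: it is defined over no proper subfield -/
def CD.GenPt (O : Type) {K J : Type} [CommRing O] [Field K] [CharZero K] [Algebra O K]
    (U : J → Submodule K (G L K)) : Prop :=
  ∀ S : Subfield K, (∀ o, algebraMap O K o ∈ S) → (∀ j, c.Def0 S (U j)) → S = ⊤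

/-- logarithmic coordinates `t` with the dual derivations `D` and the constant `ν` -/
structure CD.Log {O K J : Type} [CommRing O] [Field K] [CharZero K] [Algebra O K] [Fintype J]
    [DecidableEq J] (ζ : O) (s : J → O) (U : J → Submodule K (G L K)) {d : ℕ}
    (D : Fin d → Derivation O K K) (t : Fin d → K) (ν : ℚ) : Prop where
  ne : ∀ k, t k ≠ 0
  der : ∀ k l, D k (t l) = if k = l then t l else 0
  vol : c.Vol (algebraMap O K ζ) (fun j => algebraMap O K (s j)) D U ν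
  nu : ν ≠ 0
  dvd : ∀ (lam : J → L) r (X : c.Id lam → K), c.Co lam r → U = c.cell lam X →
    ∃ o : O, (c.cnu lam : K) = algebraMap O K o * ν

/-- Existence of logarithmic coordinates. -/
def S_exl : Prop := ∀ {O K J : Type} [CommRing O] [IsDomain O] [CharZero O] [Field K]
  [CharZero K] [Algebra O K] [Fintype J] [DecidableEq J] (ζ : O) (s : J → O) (lam : J → L) r
  (X : c.Id lam → K), c.OD ζ s → Function.Injective (algebraMap O K) → c.Co lam r → Gen O X →
    AlgebraicIndependent O X →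
    ∃ (b : Fin (Fintype.card (c.Id lam)) → Φ × ℤ) (t : Fin (Fintype.card (c.Id lam)) → K),
      (∀ k, ∃ x, c.OnW (algebraMap O K ζ) c.ρ x (b k)) ∧ (∀ k, t k ≠ 0) ∧ Gen O t ∧
      c.cell lam X = c.pU (fun j => algebraMap O K (s j))
        (fun k => c.F (algebraMap O K ζ) (b k)) t lam ∧
      ∏ k, c.nu (b k).1 = c.cnu lam

/-- The logarithmic volume form. -/
def S_log2 : Prop := ∀ {O K J : Type} [CommRing O] [IsDomain O] [IsDiscreteValuationRing O]
  [CharZero O] [Field K] [CharZero K] [Algebra O K] [Fintype J] [DecidableEq J] (ζ : O)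
  (s : J → O) (μ : J → L) r (X : c.Id μ → K), c.OD ζ s → c.Co μ r → Gen O X →
    AlgebraicIndependent O X → c.GenPt O (c.cell μ X) ∧
      ∃ (D : Fin (Fintype.card (c.Id μ)) → Derivation O K K)
        (t : Fin (Fintype.card (c.Id μ)) → K) (ν : ℚ), c.Log ζ s (c.cell μ X) D t ν

/-- The chart at a vertical prime of height one. -/
def S_vert : Prop := ∀ {O K J ι : Type} [CommRing O] [IsDomain O] [IsDiscreteValuationRing O]
  [CharZero O] [Field K] [CharZero K] [Algebra O K] [Fintype J] [DecidableEq J] (π ζ : O)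
  (s : J → O) (μ : J → L) r₀ (X : c.Id μ → K) {d : ℕ} (D : Fin d → Derivation O K K)
  (t : Fin d → K) (ν : ℚ) (x : ι → L) (r : ι → ℚ) (C : ι → Finset (ℤ × (Φ ⊕ Δ)))
  (V : ValuationSubring K) (p : Fin d → K), Irreducible π →
    Function.Injective (algebraMap O K) → c.OD ζ s → c.Co μ r₀ → d = Fintype.card (c.Id μ) →
    c.GenPt O (c.cell μ X) → c.Log ζ s (c.cell μ X) D t ν →
    (∀ i, c.Cl (algebraMap O K ζ) c.ρ (x i)) →
    (∀ i, c.IsCh (algebraMap O K ζ) (fun j => algebraMap O K (s j)) (c.cell μ X) (x i) (r i)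
      (C i)) →
    (∀ i, c.Gens (algebraMap O K ζ) (fun j => algebraMap O K (s j)) (c.cell μ X) (x i) (r i)
      (C i) ⊆ V) →
    (∀ o, algebraMap O K o ∈ V) → algebraMap O K π ∈ V.nonunits →
    (∀ γ : K, ∃ M : ℕ, algebraMap O K π ^ M * γ ∈ V) →
    (∀ k, ∃ i, p k ∈ c.Gens (algebraMap O K ζ) (fun j => algebraMap O K (s j)) (c.cell μ X) (x i)
      (r i) (C i)) → RI π V p →
    ∃ y : Fin d → K, (∀ k, y k ∈ V) ∧ (∀ γ ∈ V, ∃ F G : MvPolynomial (Fin d) O,
      MvPolynomial.aeval y G ≠ 0 ∧ (MvPolynomial.aeval y G)⁻¹ ∈ V ∧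
        γ * MvPolynomial.aeval y G = MvPolynomial.aeval y F) ∧ wr D y ∈ V

/-- The chart at a prime of the generic fibre. -/
def S_horz : Prop := ∀ {O K J ι : Type} [CommRing O] [IsDomain O] [IsDiscreteValuationRing O]
  [CharZero O] [Field K] [CharZero K] [Algebra O K] [Fintype J] [DecidableEq J] [Nonempty ι]
  (π ζ : O) (s : J → O) (μ : J → L) r₀ (X : c.Id μ → K) {d : ℕ} (D : Fin d → Derivation O K K)
  (t : Fin d → K) (ν : ℚ) (x : ι → L) (r : ι → ℚ) (C : ι → Finset (ℤ × (Φ ⊕ Δ)))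
  (R : Subring K) (V : ValuationSubring K), Irreducible π →
    c.OD ζ s → c.Co μ r₀ → d = Fintype.card (c.Id μ) → AlgebraicIndependent O X →
    c.GenPt O (c.cell μ X) → c.Log ζ s (c.cell μ X) D t ν → (∀ i, c.Fix (x i)) →
    (∀ i, c.IsCh (algebraMap O K ζ) (fun j => algebraMap O K (s j)) (c.cell μ X) (x i) (r i)
      (C i)) →
    (∀ i, c.Gens (algebraMap O K ζ) (fun j => algebraMap O K (s j)) (c.cell μ X) (x i) (r i)
      (C i) ⊆ R) →
    Dom R V → (∀ o, algebraMap O K o ∈ R) → (algebraMap O K π)⁻¹ ∈ R →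
    ∃ y : Fin d → K, (∀ k, y k ∈ R) ∧ (∀ γ : K, IsIntegral (Algebra.adjoin O {g | ∃ i, g ∈
      c.Gens (algebraMap O K ζ) (fun j => algebraMap O K (s j)) (c.cell μ X) (x i) (r i) (C i)}) γ →
      ∃ F G : MvPolynomial (Fin d) O, MvPolynomial.aeval y G ≠ 0 ∧
        (MvPolynomial.aeval y G)⁻¹ ∈ R ∧
        γ * MvPolynomial.aeval y G = MvPolynomial.aeval y F) ∧ wr D y ^ 2 ∈ R

/-- The normalized chart satisfies the logarithmic Calabi-Yau condition. -/
def S_cy : Prop := ∀ {O K J ι : Type} [CommRing O] [IsDomain O] [IsDiscreteValuationRing O]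
  [CharZero O] [Field K] [CharZero K] [Algebra O K] [Fintype J] [DecidableEq J] [Finite ι]
  [Nonempty ι] (π ζ : O) (s : J → O) (μ : J → L) r₀ (X : c.Id μ → K) (x : ι → L) (r : ι → ℚ)
  (C : ι → Finset (ℤ × (Φ ⊕ Δ))) (A₀ A : Subalgebra O K), Irreducible π → c.OD ζ s →
    c.Co μ r₀ → Gen O X → AlgebraicIndependent O X →
    (∀ i, c.Cl (algebraMap O K ζ) c.ρ (x i)) →
    (∀ i, c.IsCh (algebraMap O K ζ) (fun j => algebraMap O K (s j)) (c.cell μ X) (x i) (r i)
      (C i)) →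
    A₀ = Algebra.adjoin O {g | ∃ i, g ∈
      c.Gens (algebraMap O K ζ) (fun j => algebraMap O K (s j)) (c.cell μ X) (x i) (r i) (C i)} →
    (∀ γ, γ ∈ A ↔ IsIntegral A₀ γ) →
    Algebra.FiniteType O A ∧ IsFractionRing A K ∧ IsIntegrallyClosed A ∧ LogCY2 O π A K

end

section
open LieAlgebra.IsKilling

variable {L : Type} [LieRing L] [LieAlgebra ℚ L] [FiniteDimensional ℚ L] [IsKilling ℚ L]
  {H : LieSubalgebra ℚ L} [H.IsCartanSubalgebra] [LieModule.IsTriangularizable ℚ H L]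

/-- The Chevalley basis. -/
def S_bas : Prop := ∀ (b : (rootSystem H).Base) (e : H.root → L),
  (∀ α, e α ∈ rootSpace H α.1) → (∀ α, ⁅e α, e (ngt α)⁆ = (coroot α.1 : H)) →
    ∃ bas : Module.Basis (H.root ⊕ b.support) ℚ L, (∀ i x, bas.repr x i = coord b e i x) ∧
      (∀ α, bas (.inl α) = e α) ∧ (∀ i, bas (.inr i) ∈ H) ∧
      (∀ x : L, x ∈ H ↔ ∀ α, coord b e (.inl α) x = 0) ∧
      (∀ α, killingForm ℚ L (e α) (e (ngt α)) ≠ 0) ∧
      ∀ (α : H.root) (h : H), killingForm ℚ L (coroot α.1 : H) h =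
        killingForm ℚ L (e α) (e (ngt α)) * α.1 h

/-- `c` is the Chevalley datum attached to `D` -/
structure Br {O J : Type} [CommRing O] (D : Datum H O J) (c : CD L H.root D.b.support) :
    Prop where
  repr : ∀ i x, c.bas.repr x i = coord D.b D.e i x
  e : ∀ α, c.e α = D.e α
  form : c.κ = killingForm ℚ L
  σ : c.σ = D.σ
  ℓ : c.ℓ = D.ℓ
  neg : c.neg = ngt
  al : ∀ α (h : H), c.al α h = α.1 h
  isH : ∀ h : H, c.IsH h
  pos : ∀ α, 0 < c.al α c.ρ ↔ D.b.IsPos α

/-- The bridge from the data of the statement to Chevalley data. -/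
def S_brg : Prop := ∀ {O J : Type} [CommRing O] [Nontrivial O] (D : Datum H O J),
  ∃ c : CD L H.root D.b.support, Br D c

open scoped Classical in
/-- Translation of the lattices of the statement. -/
def S_lat : Prop := ∀ {O J : Type} [CommRing O] [IsDomain O] [CharZero O] [Fintype J]
  (D : Datum H O J) (c : CD L H.root D.b.support), Br D c →
    c.OD D.ζ D.s ∧ c.Co (fun j => (D.μ j : L)) c.ρ ∧
    ∃ X : c.Id (fun j => (D.μ j : L)) → D.FF, Gen O X ∧ AlgebraicIndependent O X ∧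
      (∀ x : H, D.InAlc x → c.Cl (algebraMap O D.FF D.ζ) c.ρ x) ∧
      ∀ (x : H) (r : ℚ) (C : Finset (ℤ × (H.root ⊕ D.b.support))),
        (D.IsChart x r C ↔ c.IsCh (algebraMap O D.FF D.ζ) (fun j => algebraMap O D.FF (D.s j))
          (c.cell (fun j => (D.μ j : L)) X) x r C) ∧
        ∀ t, (∃ f ∈ D.lat x r, ∃ b ∈ C, (∀ a ∈ C, D.co a f = if a = b then 1 else 0) ∧
          ∃ a, t = D.co a f) ↔ t ∈ c.Gens (algebraMap O D.FF D.ζ)
            (fun j => algebraMap O D.FF (D.s j)) (c.cell (fun j => (D.μ j : L)) X) x r C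

end

end Pool.Agent.P.MP_e7d440_ag.U
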