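import Pool.Agent.P.MP_e7d440_ag.U.Base

/-! Exact statements of the commutative algebra steps (criterion with local charts). -/

namespace Pool.Agent.P.MP_e7d440_ag.U

open IsLocalRing MvPolynomial

/-- Jacobians of families of local functions. -/
def S_wloc : Prop := ∀ {O Q L ι : Type} [CommRing O] [CommRing Q] [Field L] [Algebra O L]
  [Fintype ι] [DecidableEq ι] (φ : Q →+* L) (D : ι → Derivation O L L) (𝔓 : Ideal Q),
    𝔓.IsPrime → RingHom.ker φ ≤ 𝔓 → ∀ (θ : L) (p : ι → Prop) (g₀ : ι → Q),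
    (∀ g : ι → Q, (∀ b, ¬ p b → g b = g₀ b) → loc φ 𝔓 (wr D (fun b => φ (g b)) * θ)) →
    ∀ y : ι → L, (∀ b, p b → loc φ 𝔓 (y b)) → (∀ b, ¬ p b → y b = φ (g₀ b)) →
      loc φ 𝔓 (wr D y * θ)

/-- Hartogs in a localization; powers of a vertical element at a prime of height one. -/
structure S_hloc : Prop where
  hart : ∀ {A K : Type} [CommRing A] [IsDomain A] [IsNoetherianRing A] [IsIntegrallyClosed A]
    [Field K] [Algebra A K] [IsFractionRing A K] (𝔭 : Ideal A), 𝔭.IsPrime → ∀ γ : K,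
      (∀ 𝔮 : Ideal A, 𝔮.IsPrime → 𝔮.height = 1 → 𝔮 ≤ 𝔭 → loc (algebraMap A K) 𝔮 γ) →
      loc (algebraMap A K) 𝔭 γ
  arch : ∀ {A K : Type} [CommRing A] [IsDomain A] [IsNoetherianRing A]
    [Field K] [Algebra A K] [IsFractionRing A K] (𝔮 : Ideal A), 𝔮.IsPrime → 𝔮.height = 1 →
      ∀ t ∈ 𝔮, ∀ γ : K, ∃ M : ℕ, loc (algebraMap A K) 𝔮 (algebraMap A K t ^ M * γ)

/-- Field theory of generating families. -/
structure S_gen : Prop where
  wrne : ∀ {O K ι : Type} [CommRing O] [Field K] [Algebra O K] [Fintype ι] [DecidableEq ι]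
    (D : ι → Derivation O K K) (x y : ι → K), Gen O y → wr D x ≠ 0 → wr D y ≠ 0
  clos : ∀ {O K ν : Type} [CommRing O] [Field K] [Algebra O K] (y : ν → K),
    Gen O y ↔ Subfield.closure (Set.range (algebraMap O K) ∪ Set.range y) = ⊤
  indep : ∀ {O K ν σ : Type} [CommRing O] [IsDomain O] [Field K] [Algebra O K] [Fintype ν]
    [Fintype σ] (y : ν → K) (x : σ → K), Gen O y → AlgebraicIndependent O x →
      Fintype.card ν ≤ Fintype.card σ → AlgebraicIndependent O y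
  iso : ∀ {O K K' ν : Type} [CommRing O] [IsDomain O] [Field K] [Algebra O K] [Field K']
    [Algebra O K'] (y : ν → K) (y' : ν → K'), Gen O y → Gen O y' → AlgebraicIndependent O y →
      AlgebraicIndependent O y' → ∃ f : K' ≃ₐ[O] K, ∀ i, f (y' i) = y i
  norm : ∀ {O K ν : Type} [CommRing O] [IsDomain O] [IsDiscreteValuationRing O] [Field K]
    [Algebra O K] [Finite ν] (y : ν → K) (R : Subring K), Gen O y → AlgebraicIndependent O y →
      (∀ o, algebraMap O K o ∈ R) → (∀ i, y i ∈ R) →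
      ∃ S : Subring K, (∀ γ, γ ∈ S ↔ ∃ F G : MvPolynomial ν O, aeval y G ≠ 0 ∧
        (aeval y G)⁻¹ ∈ R ∧ γ * aeval y G = aeval y F) ∧ ∀ γ : K, IsIntegral S γ → γ ∈ S

/-- A presentation of the fraction field by a transcendence basis and a primitive element. -/
def S_prim : Prop := ∀ {O A K σ : Type} [CommRing O] [IsDomain O] [CharZero O] [CommRing A]
  [IsDomain A] [Field K] [Algebra O A] [Algebra O K] [Algebra A K] [IsScalarTower O A K]
  [IsFractionRing A K] [Fintype σ] [DecidableEq σ] (D : σ → Derivation O K K) (y : σ → K),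
    Function.Injective (algebraMap O K) → Gen O y → wr D y ≠ 0 →
    ∃ (x : σ ⊕ Unit → A) (f : MvPolynomial (σ ⊕ Unit) O),
      wr D (fun a => algebraMap A K (x (Sum.inl a))) ≠ 0 ∧
      Gen O (fun a => algebraMap A K (x a)) ∧ aeval x f = 0 ∧
      aeval x (pderiv (Sum.inr ()) f) ≠ 0

/-- The height of the kernel. -/
def S_gen2 : Prop := ∀ {O ν ι κ F : Type} [CommRing O] [IsDomain O] [IsNoetherianRing O]
  [Fintype ν] [Fintype ι] [Fintype κ] [Field F] [Algebra O F] (e : ι ⊕ κ ≃ ν)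
  (𝔫 : Ideal (MvPolynomial ν O)) [𝔫.IsPrime] (χ : Localization.AtPrime 𝔫 →ₐ[O] F) (v : ν → F),
    (∀ i, χ (algebraMap (MvPolynomial ν O) _ (X i)) = v i) →
    AlgebraicIndependent O (fun a => v (e (Sum.inl a))) →
    (RingHom.ker χ.toRingHom).height ≤ Fintype.card κ

/-- Sections of the canonical module of `A`. -/
def S_a1b : Prop := ∀ (O Q A K σ κ : Type) [CommRing O] [CommRing Q] [IsRegularRing Q]
  [CommRing A] [IsDomain A] [IsNoetherianRing A] [IsIntegrallyClosed A] [Field K] [Algebra O Q]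
  [Algebra O A] [Algebra O K] [Algebra A K] [IsScalarTower O A K] [IsFractionRing A K]
  [Fintype σ] [Fintype κ] [DecidableEq σ] [DecidableEq κ] (j : Jet O Q K σ κ)
  (ψ : Q →ₐ[O] A) (z : κ → Q) (π : O) (Θ₀ : K), Function.Surjective ψ →
    (∀ g, j.φ g = algebraMap A K (ψ g)) → (∀ k, z k ∈ j.J) → CI (sp z) (Fintype.card κ) →
    j.J.height = Fintype.card κ → GenGen (sp z) j.J → j.jac z ≠ 0 → Θ₀ ≠ 0 →
    (∀ 𝔭 : Ideal A, 𝔭.IsPrime → (algebraMap O A π ∉ 𝔭 ∨ 𝔭.height = 1) → Chart j.D Θ₀ 𝔭) →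
    ∀ s ∈ col (sp z) j.J, (∃ r : A, j.φ s = algebraMap A K r * Θ₀ * j.jac z) ∧
      ∀ 𝔭 : Ideal A, 𝔭.IsPrime → algebraMap O A π ∉ 𝔭 → ∃ y : σ → K,
        (∀ b, loc (algebraMap A K) 𝔭 (y b)) ∧
        ∃ θ, loc (algebraMap A K) 𝔭 θ ∧ j.φ s / j.jac z = θ * wr j.D y

/-- The lift of such a section to the canonical module of the Rees algebra. -/
def S_a2b : Prop := ∀ (O Q L σ κ β : Type) [CommRing O] [CommRing Q] [IsRegularRing Q]
  [IsLocalRing Q] [Field L] [Algebra O Q] [Algebra O L] [Fintype σ] [Fintype κ] [DecidableEq σ]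
  [DecidableEq κ] (j : Jet O Q L (σ ⊕ Unit) κ) (z : κ → Q) (π : O) (𝔟 : Ideal Q) (h : β → Q),
    (∀ θ, j.ρ.IsIntegralElem θ → ∃ g, j.φ g = θ) →
    (∀ γ : L, ∃ a b, j.φ b ≠ 0 ∧ γ * j.φ b = j.φ a) → (∀ k, z k ∈ j.J) →
    CI (sp z) (Fintype.card κ) → j.J.height = Fintype.card κ → GenGen (sp z) j.J →
    j.jac z ≠ 0 →
    (∀ 𝔓 : Ideal Q, 𝔓.IsPrime → algebraMap O Q π ∈ 𝔓 →
      ∀ s, s ∉ 𝔓 → s * algebraMap O Q π ∉ 𝔓 ^ 2) →
    (∀ i, j.D (Sum.inr ()) (j.φ (h i)) * j.φ (j.X (Sum.inl (Sum.inr ()))) = j.φ (h i)) →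
    (∀ 𝔓 : Ideal Q, 𝔓.IsPrime → j.J ≤ 𝔓 → (∀ i, h i ∈ 𝔓) → 𝔟 ≤ 𝔓) →
    ∀ (Θ : L) (γ : σ ⊕ Unit → L) (r₁ : Q), (∀ b, γ b ≠ 0) →
      Θ = j.φ r₁ * lwr j.D γ * j.φ (j.X (Sum.inl (Sum.inr ()))) →
      (∀ 𝔓 : Ideal Q, 𝔓.IsPrime → j.J ≤ 𝔓 → algebraMap O Q π ∉ 𝔓 → ∃ y : σ → L,
        (∀ b, loc j.ρ 𝔓 (y b)) ∧ ∃ θ, loc j.ρ 𝔓 θ ∧
          ∀ t : L, wr j.D (Sum.elim y fun _ => t) * θ = Θ * j.D (Sum.inr ()) t) →
      ∀ a ∈ 𝔟, ∃ w ∈ col (sp z) j.J,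
        j.φ w * j.φ (j.X (Sum.inl (Sum.inr ()))) = j.φ a * Θ * j.jac z

/-- The two linked complete intersections and the lift of sections of the canonical module. -/
def S_critA2 : Prop := ∀ {O Q A K L σ κ β : Type} [CommRing O] [CommRing Q] [IsRegularRing Q]
  [IsLocalRing Q] [CommRing A] [IsDomain A] [IsNoetherianRing A] [IsIntegrallyClosed A] [Field K]
  [Field L] [Algebra O Q] [Algebra O A] [Algebra O K] [Algebra O L] [Algebra A K] [Algebra K L]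
  [IsScalarTower O A K] [IsScalarTower O K L] [IsFractionRing A K]
  [Fintype σ] [Fintype κ] [DecidableEq σ] [DecidableEq κ]
  (j₁ : Jet O Q L (σ ⊕ Unit) κ) (j₂ : Jet O Q K σ (Unit ⊕ κ)) (ψ : Q →ₐ[O] A) (π : O)
  (h : β → Q) (g : σ → K) (z₀ : κ → Q),
    (∀ i, j₂.d i = j₁.d ((Equiv.sumAssoc σ Unit κ).symm i)) →
    (∀ q, j₂.φ q = algebraMap A K (ψ q)) → j₁.J ≤ RingHom.ker ψ.toRingHom →
    (∀ a : A, ∃ q, j₁.φ q = algebraMap K L (algebraMap A K a) ∧ ψ q = a) →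
    ψ (j₁.X (Sum.inl (Sum.inr ()))) = 0 →
    (∀ a γ, j₁.D (Sum.inl a) (algebraMap K L γ) = algebraMap K L (j₂.D a γ)) →
    (∀ γ, j₁.D (Sum.inr ()) (algebraMap K L γ) = 0) →
    (∀ θ, j₁.ρ.IsIntegralElem θ → ∃ q, j₁.φ q = θ) →
    (∀ γ : L, ∃ a b, j₁.φ b ≠ 0 ∧ γ * j₁.φ b = j₁.φ a) →
    j₁.J.height ≤ Fintype.card κ → j₂.J.height ≤ Fintype.card (Unit ⊕ κ) →
    (∀ k, z₀ k ∈ j₁.J) → ψ (Matrix.of fun k l => j₁.d (Sum.inr l) (z₀ k)).det ≠ 0 →
    (∀ 𝔓 : Ideal Q, 𝔓.IsPrime → algebraMap O Q π ∈ 𝔓 →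
      ∀ s, s ∉ 𝔓 → s * algebraMap O Q π ∉ 𝔓 ^ 2) →
    (∀ i, j₁.D (Sum.inr ()) (j₁.φ (h i)) * j₁.φ (j₁.X (Sum.inl (Sum.inr ()))) = j₁.φ (h i)) →
    (∀ 𝔓 : Ideal Q, 𝔓.IsPrime → j₁.J ≤ 𝔓 → (∀ i, h i ∈ 𝔓) → RingHom.ker ψ.toRingHom ≤ 𝔓) →
    (∀ a, g a ≠ 0) → lwr j₂.D g ≠ 0 →
    (∀ 𝔭 : Ideal A, 𝔭.IsPrime → (algebraMap O A π ∉ 𝔭 ∨ 𝔭.height = 1) →
      Chart j₂.D (lwr j₂.D g) 𝔭) →
    ∃ (𝔷 : Ideal Q) (z' : Q) (c : ℕ), CI 𝔷 c ∧ NZD 𝔷 z' ∧
      𝔷 ⊔ Ideal.span {z'} ≤ RingHom.ker ψ.toRingHom ∧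
      (RingHom.ker ψ.toRingHom).height = (c + 1 : ℕ) ∧
      ∀ s ∈ col (𝔷 ⊔ Ideal.span {z'}) (RingHom.ker ψ.toRingHom),
        ∃ u ∈ col 𝔷 j₁.J, u - s ∈ 𝔷 ⊔ Ideal.span {z'}

/-- The criterion. -/
def S_crit2 : Prop := ∀ (O A K : Type) [CommRing O] [IsDomain O] [IsDiscreteValuationRing O]
  [CharZero O] [CommRing A] [IsDomain A] [IsLocalRing A] [IsIntegrallyClosed A] [Field K]
  [Algebra O A] [Algebra O K] [Algebra A K] [IsScalarTower O A K] [IsFractionRing A K]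
  [Algebra.EssFiniteType O A] (π : O), Irreducible π → Function.Injective (algebraMap O K) →
    LogCY2 O π A K → ValInj A K

/-- `R` is a model of the localization of `A` at `𝔫` inside `K` with the injectivity property. -/
def Good (A K : Type) [CommRing A] [Field K] [Algebra A K] (𝔫 : Ideal A) : Prop :=
  ∃ (R : Type) (_ : CommRing R) (_ : IsDomain R) (_ : IsLocalRing R) (_ : Algebra R K),
    IsFractionRing R K ∧ (∀ γ, (∃ r, algebraMap R K r = γ) ↔ loc (algebraMap A K) 𝔫 γ) ∧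
      IsIntegrallyClosed R ∧ ValInj R K

/-- The local rings of a normal algebra of finite type satisfying the condition. -/
def S_fin2 : Prop := ∀ (O C K : Type) [CommRing O] [IsDomain O] [IsDiscreteValuationRing O]
  [CharZero O] [CommRing C] [IsDomain C] [Field K] [Algebra O C] [Algebra O K] [Algebra C K]
  [IsScalarTower O C K] [Algebra.FiniteType O C] [IsFractionRing C K] [IsIntegrallyClosed C]
  (π : O), Irreducible π → Function.Injective (algebraMap O K) → LogCY2 O π C K →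
    ∀ 𝔭 : Ideal C, 𝔭.IsPrime → Good C K 𝔭

/-- Descent along a finite free extension. -/
def S_desc : Prop := ∀ (B A K : Type) [CommRing B] [IsLocalRing B] [IsNoetherianRing B]
  [CommRing A] [IsDomain A] [Field K] [Algebra B A] [Module.Finite B A] [Module.Free B A]
  [Algebra A K], Function.Injective (algebraMap A K) →
    (∀ 𝔫 : Ideal A, 𝔫.IsMaximal → Good A K 𝔫) →
    ∃ _ : IsDomain B, IsIntegrallyClosed B ∧ ValInj B (FractionRing B)

/-- Residual transcendence degree and Gauss valuations. -/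
structure S_trd : Prop where
  rr : ∀ {O K ν : Type} [CommRing O] [Field K] [Algebra O K] (V : ValuationSubring K)
    (y : ν → K), (∀ o, algebraMap O K o ∈ V) → (∀ k, y k ∈ V) →
      ∃ S : Subring K, (∀ γ, γ ∈ S ↔ γ ∈ V ∧ RR O V y γ) ∧ Dom S V ∧
        (∀ γ ∈ V.nonunits, γ ∈ S) ∧ (∀ o, algebraMap O K o ∈ S) ∧ ∀ k, y k ∈ S
  trd : ∀ {O K ν σ : Type} [CommRing O] [IsDomain O] [IsDiscreteValuationRing O] [Field K]
    [Algebra O K] [Fintype ν] [Fintype σ] (π : O) (V : ValuationSubring K) (t : σ → K)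
    (y : ν → K), Irreducible π → (∀ o, algebraMap O K o ∈ V) → algebraMap O K π ∈ V.nonunits →
      (∀ p, t p ∈ V) → (∀ k, y k ∈ V) → RI π V t → (∀ p, RR O V y (t p)) →
      Fintype.card σ ≤ Fintype.card ν ∧ (Fintype.card ν ≤ Fintype.card σ → RI π V y)
  gauss : ∀ {O K ν : Type} [CommRing O] [IsDomain O] [IsDiscreteValuationRing O] [Field K]
    [Algebra O K] (π : O) (V : ValuationSubring K) (y : ν → K), Irreducible π →
      Function.Injective (algebraMap O K) → (∀ o, algebraMap O K o ∈ V) →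
      algebraMap O K π ∈ V.nonunits → (∀ k, y k ∈ V) → RI π V y → Gen O y →
      ∀ γ ∈ V, ∃ F G : MvPolynomial ν O, aeval y G ≠ 0 ∧ (aeval y G)⁻¹ ∈ V ∧
        γ * aeval y G = aeval y F

/-- Linear algebra over valuation rings and dominated local rings. -/
structure S_resd : Prop where
  resd : ∀ {K ι κ : Type} [Field K] [Fintype ι] [DecidableEq ι] (V : ValuationSubring K)
    (S : Subring K) (w : κ → ι → K), Dom S V → (∀ k a, w k a ∈ S) →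
      (∀ b, ∃ (t : Finset κ) (q : κ → K), (∀ k, q k ∈ V) ∧
        ∀ a, ∑ k ∈ t, q k * w k a - (if a = b then 1 else 0) ∈ V.nonunits) →
      ∀ b, ∃ (t : Finset κ) (q : κ → K), (∀ k, q k ∈ S) ∧
        ∀ a, ∑ k ∈ t, q k * w k a = if a = b then 1 else 0
  piv : ∀ {K ι : Type} [Field K] [Fintype ι] [DecidableEq ι] (V : ValuationSubring K)
    (N : Submodule K (ι → K)), ∃ (C : Finset ι) (n : ι → ι → K), (∀ b ∈ C, n b ∈ N) ∧
      (∀ b a, n b a ∈ V) ∧ (∀ b ∈ C, ∀ a ∈ C, n b a = if a = b then 1 else 0) ∧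
      (∀ u ∈ N, u = ∑ b ∈ C, u b • n b) ∧ C.card = Module.finrank K N
  retr : ∀ {K : Type} [Field K] (K₀ : Subfield K), ∃ π : K →+ K, (∀ a, π a ∈ K₀) ∧ π 1 = 1 ∧
    ∀ a ∈ K₀, ∀ b, π (a * b) = a * π b
  tri : ∀ {K ι : Type} [Field K] [Fintype ι] [DecidableEq ι] (w : ι → ℚ) (M : Matrix ι ι K),
    (∀ k l, k ≠ l → M k l ≠ 0 → w l < w k) → M.det = ∏ k, M k k
  dom : ∀ {A K : Type} [CommRing A] [Field K] [Algebra A K] (𝔭 : Ideal A), 𝔭.IsPrime →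
    Function.Injective (algebraMap A K) → ∃ (R : Subring K) (V : ValuationSubring K),
      (∀ γ, γ ∈ R ↔ loc (algebraMap A K) 𝔭 γ) ∧ Dom R V
  sq : ∀ {A K : Type} [CommRing A] [IsDomain A] [IsIntegrallyClosed A] [Field K] [Algebra A K]
    [IsFractionRing A K] (𝔭 : Ideal A), 𝔭.IsPrime → ∀ γ : K,
      loc (algebraMap A K) 𝔭 (γ ^ 2) → loc (algebraMap A K) 𝔭 γ

end Pool.Agent.P.MP_e7d440_ag.U
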