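import Pool.Agent.P.MP_e7d440_ag.U.Iface2

/-! Decomposition of equivariant loops. -/

namespace Pool.Agent.P.MP_e7d440_ag.U

open TensorProduct LieAlgebra LaurentPolynomial Set

variable {L Φ Δ : Type} [LieRing L] [LieAlgebra ℚ L] [Fintype Φ] [Fintype Δ] [DecidableEq Φ]
  [DecidableEq Δ] (c : CD L Φ Δ) {K : Type} [Field K] [CharZero K] (ζ : K)

namespace Rt2A

variable {c ζ}

lemma of_co (h : T1 c K) (he : S_eqv c ζ) (h1 : S_rt1 c ζ) (f : LG L K) (hf : f ∈ c.Eqv ζ)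
    (a : Φ × ℤ) (ha : c.co (CD.ix a) f ≠ 0) : c.Valid ζ a := by
  obtain ⟨t, -, hs⟩ := he.span f hf
  rw [hs, map_sum] at ha
  obtain ⟨⟨m, i⟩, -, hb⟩ := Finset.exists_ne_zero_of_sum_ne_zero ha
  rw [map_smul] at hb
  have hb' : c.co (CD.ix a) (mon m (c.cc ζ (c.bs K i) m)) ≠ 0 := fun h0 => hb (by
    simp only [h0, smul_zero])
  cases i with
  | inl β =>
    have hE : c.co (CD.ix a) (c.E ζ (β, m)) ≠ 0 := hb'
    have hne : c.E ζ (β, m) ≠ 0 := fun h0 => hE (by rw [h0, map_zero])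
    exact h1.valid_sim _ _ ((h1.ty_ix _ _).1 (h1.ty _ _ hE)) ((h1.ne _).2 hne)
  | inr i =>
    exfalso
    have h2 := he.cc_sup c.ρ c.fix_ρ (m, .inr i) (CD.ix a) hb'
    rw [Set.mem_singleton_iff, CD.wt_inr] at h2
    have h3 : c.al a.1 c.ρ + (a.2 : ℚ) = m := h2
    refine h.cd.ρ_int a.1 (a.2 - m) ?_
    push_cast
    linarith

lemma pure (h : T1 c K) (he : S_eqv c ζ) (h1 : S_rt1 c ζ) (f : LG L K) (hf : f ∈ c.Eqv ζ)
    (a : Φ × ℤ) : c.pr (c.Ty a) f = c.cE a f • c.E ζ a := by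
  have hg : c.pr (c.Ty a) f - c.cE a f • c.E ζ a ∈ c.Eqv ζ :=
    sub_mem (he.pr_ty a f hf) (Submodule.smul_mem _ _ (h1.eqv a))
  have h0 : c.co (CD.ix a) (c.pr (c.Ty a) f - c.cE a f • c.E ζ a) = 0 := by
    rw [map_sub, map_smul, c.co_pr, if_pos ((h1.ty_ix a a).2 (h1.sim_refl a)), smul_eq_mul]
    by_cases hv : c.Valid ζ a
    · rw [h1.co a hv, CD.cE, div_mul_cancel₀ _ (h1.th_ne a.1).2.1, sub_self]
    · have : c.co (CD.ix a) f = 0 := by
        by_contra hc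
        exact hv (of_co h he h1 f hf a hc)
      rw [CD.cE, this, zero_div, zero_mul, sub_zero]
  rw [← sub_eq_zero]
  refine c.ext1 fun a' => ?_
  rw [map_zero]
  by_contra hc
  by_cases ht : c.Ty a a'
  · obtain ⟨m, i⟩ := a'
    obtain ⟨hm, β, hi, hβ⟩ := ht
    dsimp only at hm hi
    subst hm hi
    exact he.co_cyc _ hg _ _ _ hβ.symm hc h0
  · apply hc
    have : c.co a' (c.E ζ a) = 0 := by
      by_contra h2
      exact ht (h1.ty _ _ h2)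
    rw [map_sub, map_smul, c.co_pr, if_neg ht, this, smul_zero, sub_zero]

lemma pr_self (p : ℤ × (Φ ⊕ Δ) → Prop) (f : LG L K) (hp : ∀ a, c.co a f ≠ 0 → p a) :
    c.pr p f = f := by
  refine c.ext1 fun a => ?_
  rw [c.co_pr]
  split_ifs with h0
  · rfl
  · by_contra hc
    exact h0 (hp a (Ne.symm hc))

lemma of_ty (h : T1 c K) (he : S_eqv c ζ) (h1 : S_rt1 c ζ) (f : LG L K) (hf : f ∈ c.Eqv ζ)
    (a : Φ × ℤ) (ha : ∀ a', c.co a' f ≠ 0 → c.Ty a a') : f = c.cE a f • c.E ζ a := by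
  rw [← pure h he h1 f hf a, pr_self _ f ha]

lemma val_zero (a : Φ × ℤ) : c.val a 0 = a.2 := by simp [CD.val]

/-- a coordinate whose weight is a nonzero multiple of an affine root is an affine root -/
lemma wt_mul (a : Φ × ℤ) (q : ℚ) (hq : q ≠ 0) (a' : ℤ × (Φ ⊕ Δ))
    (hw : ∀ z, c.Fix z → c.wt z a' = q * c.val a z) :
    ∃ β, a' = CD.ix (β, a'.1) ∧ ∀ z, c.Fix z → c.val (β, a'.1) z = q * c.val a z := by
  obtain ⟨m, i⟩ := a'
  cases i with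
  | inl β => exact ⟨β, rfl, hw⟩
  | inr i =>
    exfalso
    have h0 := hw 0 c.fix_zero
    have h2 := hw c.ρ c.fix_ρ
    rw [CD.wt_inr] at h0 h2
    rw [val_zero] at h0
    rw [h0, CD.val, mul_add] at h2
    have : q * c.al a.1 c.ρ = 0 := by linarith
    exact c.ρ_ne a.1 ((mul_eq_zero.1 this).resolve_left hq)

lemma al_mul (a a' : Φ × ℤ) (q : ℚ) (hw : ∀ z, c.Fix z → c.val a' z = q * c.val a z) (z : L)
    (hz : c.Fix z) : c.al a'.1 z = q * c.al a.1 z := by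
  have h0 := hw 0 c.fix_zero
  have h2 := hw z hz
  rw [val_zero, val_zero] at h0
  rw [CD.val, CD.val, h0] at h2
  linarith

lemma of_sup (h : T1 c K) (he : S_eqv c ζ) (h1 : S_rt1 c ζ) (f : LG L K) (hf : f ∈ c.Eqv ζ)
    (a : Φ × ℤ) (ha : ∀ z, c.Fix z → f ∈ c.Sup z {c.val a z}) : f = c.cE a f • c.E ζ a := by
  refine of_ty h he h1 f hf a fun a' hc => ?_
  obtain ⟨β, hβ, hw⟩ := wt_mul a 1 one_ne_zero a' fun z hz => by
    rw [one_mul]; exact ha z hz a' hc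
  rw [hβ, h1.ty_ix, h.orb.sim_iff]
  intro z hz
  rw [hw z hz, one_mul]

lemma ty_sim (a a' : Φ × ℤ) (hs : c.Sim a a') (b : ℤ × (Φ ⊕ Δ)) (hb : c.Ty a' b) : c.Ty a b := by
  obtain ⟨h2, β, h3, h4⟩ := hb
  exact ⟨h2.trans hs.1.symm, β, h3, hs.2.trans h4⟩

lemma sim_E (h : T1 c K) (he : S_eqv c ζ) (h1 : S_rt1 c ζ) (a a' : Φ × ℤ) (hs : c.Sim a a')
    (hv : c.Valid ζ a) : ∃ t : K, t ≠ 0 ∧ c.E ζ a' = t • c.E ζ a := by
  have h2 := of_ty h he h1 _ (h1.eqv a') a fun b hb => ty_sim a a' hs b (h1.ty _ _ hb)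
  refine ⟨_, fun h0 => ?_, h2⟩
  rw [h0, zero_smul] at h2
  exact (h1.ne a').1 (h1.valid_sim _ _ hs hv) h2

lemma hz (h : T1 c K) (he : S_eqv c ζ) (f : LG L K) (hf : f ∈ c.Eqv ζ)
    (ha : ∀ a, c.co a f ≠ 0 → CD.Hz a) :
    f ∈ Submodule.span K {g | ∃ h, c.Fix h ∧ g = c0 (LP K) h} := by
  obtain ⟨t, ht, hs⟩ := he.span f hf
  rw [hs]
  refine Submodule.sum_mem _ fun a hat => Submodule.smul_mem _ _ (Submodule.subset_span ?_)
  obtain ⟨m, j⟩ := a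
  obtain ⟨hm, i, hi⟩ := ha _ (ht _ hat)
  dsimp only at hm hi ⊢
  subst hm hi
  refine ⟨_, h.cd.fix_avg _ (h.cd.isH_cw i), ?_⟩
  rw [← h.lp.mon_c0]
  congr 1
  simp only [CD.cc, mul_zero, zpow_zero, one_smul, CD.bs_apply, h.gk.sg_pow_c0, c0, tmul_sum]

lemma hz_lie (h : T1 c K) (he : S_eqv c ζ) (h1 : S_rt1 c ζ) (f : LG L K) (hf : f ∈ c.Eqv ζ)
    (a : Φ × ℤ) : ⁅c.pr CD.Hz f, c.E ζ a⁆ = c.alR a.1 (cf 0 f) • c.E ζ a := by
  have h2 : c.alR a.1 (cf 0 f) = c.alR a.1 (cf 0 (c.pr CD.Hz f)) := by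
    rw [h.gk.alR_eq, h.gk.alR_eq]
    refine Finset.sum_congr rfl fun i _ => ?_
    rw [c.co_cf, c.co_cf, c.co_pr, if_pos ⟨rfl, i, rfl⟩]
  rw [h2]
  have h3 := hz h he _ (he.pr_hz f hf) fun b hb => by
    by_contra hc
    rw [c.co_pr, if_neg hc] at hb
    exact hb rfl
  generalize c.pr CD.Hz f = g at h3
  induction h3 using Submodule.span_induction with
  | mem g hg =>
    obtain ⟨x, hx, rfl⟩ := hg
    rw [h1.lie_h a x hx, ← h.lp.mon_c0, h.lp.cf_mon, if_pos rfl, CD.alR_tmul]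
    simp [Rat.smul_one_eq_cast]
  | zero => simp
  | add x y _ _ hx hy => rw [add_lie, hx, hy, map_add, map_add, add_smul]
  | smul t x _ hx => rw [(h.lp.lie_smul t x _).1, hx, map_smul, map_smul, smul_smul, smul_eq_mul]

lemma ind (h : T1 c K) (he : S_eqv c ζ) (h1 : S_rt1 c ζ) (Q : LG L K → Prop) (Q0 : Q 0)
    (Qa : ∀ f g, Q f → Q g → Q (f + g)) (f : LG L K) (hf : f ∈ c.Eqv ζ)
    (hE : ∀ a, c.Valid ζ a → c.co (CD.ix a) f ≠ 0 → Q (c.cE a f • c.E ζ a))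
    (hH : ∀ m, Q (c.pr (Ht m) f)) : Q f := by
  refine h.sup.ind (fun a => (a.1, Sum.map (Quotient.mk (Equiv.Perm.SameCycle.setoid c.ς))
    (fun _ => ()) a.2)) Q Q0 Qa f fun a ha => ?_
  obtain ⟨m, i⟩ := a
  cases i with
  | inl β =>
    have h2 := hE (β, m) (of_co h he h1 f hf (β, m) ha) ha
    rw [← pure h he h1 f hf] at h2
    refine (congrArg (fun p => Q (c.pr p f)) ?_).mp h2
    funext ⟨m', j⟩
    cases j with
    | inl γ =>
      simp only [CD.Ty, Sum.inl.injEq, exists_eq_left', Sum.map_inl, Prod.mk.injEq, Quotient.eq,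
        eq_iff_iff]
      exact and_congr_right fun _ => ⟨fun h3 => h3.symm, fun h3 => h3.symm⟩
    | inr j => simp [CD.Ty]
  | inr i =>
    refine (congrArg (fun p => Q (c.pr p f)) ?_).mp (hH m)
    funext ⟨m', j⟩
    cases j with
    | inl γ => simp [Ht]
    | inr j => simp [Ht]

lemma red1 (h : T1 c K) (he : S_eqv c ζ) (h1 : S_rt1 c ζ) (a a' : Φ × ℤ) (q : ℚ)
    (hv : c.Valid ζ a) (hv' : c.Valid ζ a') (hq : 1 < q)
    (hw : ∀ z, c.Fix z → c.val a' z = q * c.val a z) : False := by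
  have hal := al_mul a a' q hw
  obtain rfl : q = 2 := h.orb.ratio _ _ q hq hal
  have hEE : ⁅c.E ζ a, c.E ζ a'⁆ = 0 := by
    refine c.ext1 fun b => ?_
    rw [map_zero]
    by_contra hc
    obtain ⟨β, -, hβ⟩ := wt_mul a 3 (by norm_num) b fun z hz =>
      h.sup.lie z _ _ {3 * c.val a z} _ _ (h1.sup a z hz) (h1.sup a' z hz) (by
        rintro p rfl p' rfl
        rw [hw z hz, Set.mem_singleton_iff]
        ring) b hc
    have := h.orb.ratio _ _ 3 (by norm_num) (al_mul a _ 3 hβ)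
    norm_num at this
  have hFE := of_sup h he h1 _ (he.lie _ (h1.eqv (c.ng a)) _ (h1.eqv a')) a fun z hz =>
    h.sup.lie z _ _ {c.val a z} _ _ (h1.supF a z hz) (h1.sup a' z hz) (by
      rintro p rfl p' rfl
      rw [hw z hz, Set.mem_singleton_iff]
      ring)
  have hJ := leibniz_lie (c.E ζ a) (c.F ζ a) (c.E ζ a')
  rw [hEE, lie_zero, add_zero, h1.lieEF a hv, (h.lp.lie_smul _ _ _).1,
    h1.lie_h a' _ (h.orb.tau_fix a.1), hal _ (h.orb.tau_fix a.1), CD.F, hFE,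
    (h.lp.lie_smul _ _ _).2, lie_self, smul_zero, smul_smul] at hJ
  refine (h1.ne a').1 hv' ((smul_eq_zero.1 hJ.symm).resolve_left ?_)
  refine mul_ne_zero (h1.th_ne a.1).2.2.1 ?_
  push_cast
  exact mul_ne_zero two_ne_zero (h1.th_ne a.1).2.2.2

lemma red (h : T1 c K) (he : S_eqv c ζ) (h1 : S_rt1 c ζ) (a a' : Φ × ℤ) (q : ℚ)
    (hv : c.Valid ζ a) (hv' : c.Valid ζ a') (hq : 0 < q)
    (hw : ∀ z, c.Fix z → c.val a' z = q * c.val a z) : c.Sim a a' := by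
  rcases lt_trichotomy q 1 with h2 | rfl | h2
  · exfalso
    refine red1 h he h1 a' a q⁻¹ hv' hv ((one_lt_inv₀ hq).2 h2) fun z hz => ?_
    rw [hw z hz, inv_mul_cancel_left₀ hq.ne']
  · rw [h.orb.sim_iff]
    intro z hz
    rw [hw z hz, one_mul]
  · exact (red1 h he h1 a a' q hv hv' h2 hw).elim

end Rt2A

theorem rt2 (h : T1 c K) (he : S_eqv c ζ) (h1 : S_rt1 c ζ) : S_rt2 c ζ where
  of_co := Rt2A.of_co h he h1
  pure := Rt2A.pure h he h1
  of_ty := Rt2A.of_ty h he h1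
  of_sup := Rt2A.of_sup h he h1
  sim_E := Rt2A.sim_E h he h1
  hz := Rt2A.hz h he
  hz_lie := Rt2A.hz_lie h he h1
  ind := Rt2A.ind h he h1
  red := Rt2A.red h he h1

end Pool.Agent.P.MP_e7d440_ag.U
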