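import Pool.Agent.P.MP_e7d440_ag.U.Iface3

/-! The volume form in the chart at a vertical prime. -/

namespace Pool.Agent.P.MP_e7d440_ag.U

open TensorProduct LieAlgebra LaurentPolynomial Set

variable {L Φ Δ : Type} [LieRing L] [LieAlgebra ℚ L] [Fintype Φ] [Fintype Δ] [DecidableEq Φ]
  [DecidableEq Δ] (c : CD L Φ Δ) {K : Type} [Field K] [CharZero K] (ζ : K)
  {J : Type} [Fintype J] [DecidableEq J] (s : J → K)

namespace VerwA

omit [CharZero K] in
theorem sm_mul (S : Subring K) (κ : K) : SM S {t | ∃ w ∈ S, t = κ * w} :=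
  ⟨⟨0, S.zero_mem, (mul_zero _).symm⟩, by
    rintro _ ⟨w, hw, rfl⟩ _ ⟨w', hw', rfl⟩
    exact ⟨w + w', S.add_mem hw hw', (mul_add _ _ _).symm⟩, by
    rintro a ha _ ⟨w, hw, rfl⟩
    exact ⟨a * w, S.mul_mem ha hw, mul_left_comm _ _ _⟩⟩

omit [CharZero K] in
theorem det_mem (S : Subring K) {d : ℕ} (w : Fin d → Fin d → K) (hw : ∀ k l, w k l ∈ S) :
    (Matrix.of w).det ∈ S := by
  rw [Matrix.det_apply']
  exact S.sum_mem fun σ _ => S.mul_mem (intCast_mem S _) (S.prod_mem fun i _ => hw _ _)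

variable {c ζ s}

/-- the pairing with a section concentrated in one orbit -/
theorem kR_mem (h : T3a c ζ s) (S : Subring K) {lam : J → L} {a : Φ × ℤ} {x y : LG L K}
    (hy : c.Hat ζ s lam a y) (ix : c.In S x) (iy : c.In S y) (n : ℤ) :
    (c.kR (LP K) x y).coeff n ∈ {t | ∃ w ∈ S, t = (c.kap a.1 : K) * w} := by
  obtain ⟨S', -, -, h1, -, h2, -⟩ := h.sup.in_lift S S (SM.self S)
  have z : ∀ i, (∀ m, c.co (m, i) y = 0) → c.crd i y = 0 := fun i hi => by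
    ext m
    exact (c.co_eq (m, i) y).symm.trans (hi m)
  have hC : ∀ q : ℚ, algebraMap ℚ (LP K) q = C (q : K) := fun q =>
    RingHom.congr_fun (RingHom.ext_rat _ ((C : K →+* LP K).comp (Rat.castHom K))) q
  have e : c.kR (LP K) x y =
      (c.kap a.1 : K) • ∑ β, c.crd (.inl (c.neg β)) x * c.crd (.inl β) y := by
    have z' : ∀ i, c.crd (.inr i) y = 0 := fun i => z _ fun m => by
      by_contra hm
      obtain ⟨β, hβ, -⟩ := hy.ty _ hm
      cases hβ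
    rw [h.gk.kR_root x y z', smul_eq_C_mul, Finset.mul_sum]
    refine Finset.sum_congr rfl fun β _ => ?_
    rw [Algebra.smul_def, hC]
    by_cases hβ : ∀ m, c.co (m, .inl β) y = 0
    · rw [z _ hβ, mul_zero, mul_zero, mul_zero]
    · obtain ⟨m, hm⟩ := not_forall.1 hβ
      obtain ⟨γ, hγ, hc⟩ := hy.ty _ hm
      cases hγ
      rw [← h.orb.kap_cyc _ _ hc, h.cd.kap_neg]
  refine ⟨(∑ β, c.crd (.inl (c.neg β)) x * c.crd (.inl β) y).coeff n, (h1 _).1
    (S'.sum_mem fun β _ => S'.mul_mem ((h2 x).2 ix _) ((h2 y).2 iy _)) n, ?_⟩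
  rw [e]
  rfl

omit [Fintype Φ] [Fintype Δ] [DecidableEq Φ] [DecidableEq Δ] in
theorem bf_sub (f g : LG L K) (y : J → G L K) :
    c.BF s (f - g) y = c.BF s f y - c.BF s g y := by
  simp only [CD.BF, map_sub, LinearMap.sub_apply, mul_sub, Finset.sum_sub_distrib]

theorem const (h : T3a c ζ s) (α : Φ) : -((c.ℓ : K) * (c.kap α : K)) =
    -(c.ℓ : K) / 2 * (c.kp α : K) ^ 2 *
      (((c.ℓ : K)⁻¹ * ((c.per α : ℕ) : K)⁻¹ * (c.th α : K)⁻¹) * (c.nu α : K)) := by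
  obtain ⟨-, h1, h2, h3⟩ := h.rt1.th_ne α
  have h0 : (c.ℓ : K) ≠ 0 := Nat.cast_ne_zero.2 c.ℓ_pos.ne'
  have e1 : (c.th α : K) = c.kp α * c.nu α / 2 := by
    rw [CD.th]
    push_cast
    rfl
  have e2 : (c.kap α : K) = c.kp α / (c.ℓ * (c.per α : ℕ)) := by
    rw [CD.kp]
    push_cast
    field_simp
  rw [e1, e2]
  field_simp

end VerwA

open VerwA in
theorem verw (h : T3a c ζ s) (h1 : S_hat c ζ s) (h2 : S_vb c ζ s) : S_verw c ζ s := by
  intro O _ _ d D ν lam r a y S hco hgal dζ ds vol sd hs hy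
  have hmin := hco.2.2.1
  have mem := h.gal.mem _ d c.ρ a (h.count.reg lam hmin).1 hgal
  choose hh hat using fun k => h1 lam r (a k) hco (mem k).1 (mem k).2.1 (mem k).2.2
  have la : c.LA ζ (c.pE ζ a y) := h.la.pf a y 0
  have aut : c.Aut0 ζ 1 (c.pE ζ a y) c.ρ := h.la.aut_pf a y 0 c.ρ c.fix_ρ fun k => (mem k).2.1
  have int : c.IntB ζ S (c.pE ζ a y) := h.la.int_pf S S a y 0 sd (SM.self S) hy
  obtain ⟨g', la', gg', -⟩ := h.la.ex_inv _ la
  have int' := h.la.int_inv S _ g' la gg' int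
  have nn := fun k => (h.leg.leg _ _ (fun j => h.fd.u1 _ (hmin j)) la (hh k)).2 (hat k).nn
  have pos := fun k => (h.la.aut_gt _ _ _ aut 0 (hh k) (hat k).nn.1).2 (hat k).pos
  have ih := fun k => (hat k).int S sd hs
  choose q q1 q2 q3 q4 using fun k => h.div.div (c.phi s) (c.dg J) c.ρ 0 (c.pE ζ a y (hh k))
    h.div.mon (c.Sup_mono Ioi_subset_Ici_self (pos k))
  have qe := fun k => q3 k c.fix_ρ (nn k).1
  have qi := fun k => q4 k S S (SM.self S) (h.div.phi_int S hs).1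
    ((int _ (hat k).nn.1).2 (ih k))
  have evf : ∀ k j, ev (s j) (c.pE ζ a y (hh k)) =
      pf (fun i => y i • ev (s j) (c.E ζ (a i))) 0 (ev (s j) (hh k)) := fun k j => by
    rw [h.lp.ev_op _ (h.pt.ne j), h.lp.evE_pf _ (h.pt.ne j) _ _ fun i => h.rt1.nil _ _]
    simp only [map_smul]
  have key := vol (fun k j => ev (s j) (c.E ζ (a k))) y lam (fun k j => ev (s j) (hh k))
    (fun k => c.pE ζ a y (hh k) - c.phi s • q k) hmin
    (fun k j => ⟨(h.lp.evE_ex _ (h.pt.ne j) _ (one_smul K (c.E ζ (a k)) ▸ h.rt1.nil (a k) 1)).1,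
      fun i => h.rt1.der (dA (D i)) (fun u v => (D i).leibniz u v) (dζ i) _ (ds i j) _⟩)
    (fun j => rfl) (fun k j => ((hat k).nn.2 j).1)
    fun k => ⟨sub_mem (nn k).1 (h.eqv.smul _ (fun n hn => (h.div.mon.1 n hn).2.2) _ (qe k)),
      zero_add (c.dg J : ℚ) ▸ q2 k, fun j => by
        rw [map_sub, (h.div.ev_smul _ j).1, sub_zero, evf]⟩
  rw [h2 lam d a y hh hmin hgal hat] at key
  have ent : ∀ k l, ∃ w ∈ S, c.BF s (c.pE ζ a y (hh k) - c.phi s • q k)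
      (fun j => pf (fun i => y i • ev (s j) (c.E ζ (a i))) 0 (ev (s j) (hh l))) =
        -((c.ℓ : K) * (c.kap (a l).1 : K)) * w := fun k l => by
    have e0 : c.BF s (c.pE ζ a y (hh k)) (fun j => ev (s j) (c.pE ζ a y (hh l))) = 0 :=
      Finset.sum_eq_zero fun j _ => by rw [((nn k).2 j).2 _ ((nn l).2 j).1, mul_zero]
    have e1 : c.kR (LP K) (q k) (c.pE ζ a y (hh l)) = c.kR (LP K) (g' (q k)) (hh l) := by
      rw [← la.a0.form (g' (q k)), ← Module.End.mul_apply, gg', Module.End.one_apply]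
    obtain ⟨w, hw, e⟩ := h.res.resint S _ (c.kR (LP K) (q k) (c.pE ζ a y (hh l)))
      (sm_mul S (c.kap (a l).1 : K)) hs (fun n hn => by
        obtain ⟨p, hp, p', hp', e⟩ := h.sup.kR c.ρ _ _ _ _ (q1 k) (pos l) n hn
        refine ⟨?_, h.eqv.kR _ (qe k) _ (nn l).1 n hn⟩
        have : (0 : ℚ) < n := e ▸ add_pos_of_nonneg_of_pos hp hp'
        exact_mod_cast this)
      fun n => e1 ▸ kR_mem h S (hat l) ((int' _ (qe k)).2 (qi k)) (ih l) n
    refine ⟨w, hw, ?_⟩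
    simp only [← evf]
    rw [bf_sub, e0, h.div.bf_phi, h.res.pair, e]
    ring
  choose w hw ew using ent
  simp only [ew] at key
  replace key := (Matrix.det_mul_row (fun l => -((c.ℓ : K) * (c.kap (a l).1 : K)))
    (Matrix.of w)).symm.trans key
  simp only [const h, Finset.prod_mul_distrib, Finset.prod_const, Finset.card_univ,
    Fintype.card_fin, Finset.prod_pow] at key
  have n1 : (-(c.ℓ : K) / 2) ^ d ≠ 0 :=
    pow_ne_zero _ (div_ne_zero (neg_ne_zero.2 (Nat.cast_ne_zero.2 c.ℓ_pos.ne')) two_ne_zero)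
  have n2 : (∏ k, (c.kp (a k).1 : K)) ^ 2 ≠ 0 :=
    pow_ne_zero _ (Finset.prod_ne_zero_iff.2 fun k _ => (h.rt1.th_ne _).2.2.1)
  refine ⟨((c.ℓ : K)⁻¹ ^ d * ∏ k, ((c.per (a k).1 : ℕ) : K)⁻¹) * (∏ k, (c.th (a k).1 : K)⁻¹) *
    (Matrix.of w).det, S.mul_mem (S.mul_mem (S.mul_mem (S.pow_mem sd.2 d)
      (S.prod_mem fun k _ => h.rt1.sd_per S sd _))
      (S.prod_mem fun k _ => (h.rt1.sd_th S sd _).2)) (det_mem S w hw),
    mul_left_cancel₀ (mul_ne_zero n1 n2) ?_⟩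
  rw [Rat.cast_prod]
  linear_combination -key

end Pool.Agent.P.MP_e7d440_ag.U
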